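import Pool.Agent.J4.H39.CM.Def
import Pool.Agent.N879.QM.Avg
import Pool.Agent.N879.QM.Uni
import Pool.Agent.H423R2.RGL.CC5

set_option autoImplicit false

/-!
Project CM (helper39), piece AFE (helper16): the weight function, the approximate functional
equation at the central point.
-/

namespace Pool.Agent.J4.H39.CM

open Complex Filter Topology MeasureTheory Set
open Pool.Agent.N879.QM

noncomputable section

/-! ### The weight function -/

theorem ex_gt (s : ℤ) : -1 < ex s := by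
  unfold ex
  split_ifs <;> norm_num

theorem ex_neg (s : ℤ) : ex s < 0 := by
  unfold ex
  split_ifs <;> norm_num

/-- the integrand -/
def wf (k : ℝ) (u : ℝ) : ℝ := Real.exp (-(Real.pi * u)) * u ^ k

theorem wf_nonneg (k : ℝ) {u : ℝ} (hu : 0 ≤ u) : 0 ≤ wf k u :=
  mul_nonneg (Real.exp_pos _).le (Real.rpow_nonneg hu _)

theorem wf_int {k : ℝ} (hk : -1 < k) : IntegrableOn (wf k) (Ioi 0) := by
  have h := integrableOn_rpow_mul_exp_neg_mul_rpow (s := k) (p := 1) hk zero_lt_one Real.pi_pos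
  refine h.congr_fun (fun u _ => ?_) measurableSet_Ioi
  unfold wf
  simp only [Real.rpow_one]
  rw [mul_comm, neg_mul]

theorem wf_int' {k : ℝ} (hk : -1 < k) {z : ℝ} (hz : 0 ≤ z) : IntegrableOn (wf k) (Ioi z) :=
  (wf_int hk).mono_set (Ioi_subset_Ioi hz)

theorem wi_nonneg {k z : ℝ} (hz : 0 ≤ z) : 0 ≤ ∫ u in Ioi z, wf k u :=
  setIntegral_nonneg measurableSet_Ioi fun _ hu => wf_nonneg k (hz.trans (le_of_lt hu))

theorem wi_anti {k : ℝ} (hk : -1 < k) {z w : ℝ} (hz : 0 ≤ z) (hzw : z ≤ w) :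
    ∫ u in Ioi w, wf k u ≤ ∫ u in Ioi z, wf k u :=
  setIntegral_mono_set (wf_int' hk hz)
    ((ae_restrict_iff' measurableSet_Ioi).2 (Eventually.of_forall fun _ hu =>
      wf_nonneg k (hz.trans (le_of_lt hu)))) (Ioi_subset_Ioi hzw).eventuallyLE

theorem wi_gamma {k : ℝ} (hk : -1 < k) :
    ∫ u in Ioi (0 : ℝ), wf k u = Real.pi ^ (-(k + 1)) * Real.Gamma (k + 1) := by
  have h := Real.integral_rpow_mul_exp_neg_mul_Ioi (a := k + 1) (r := Real.pi) (by linarith)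
    Real.pi_pos
  rw [show ∫ u in Ioi (0 : ℝ), wf k u = ∫ t in Ioi (0 : ℝ), t ^ (k + 1 - 1) *
    Real.exp (-(Real.pi * t)) from setIntegral_congr_fun measurableSet_Ioi fun u _ => by
      unfold wf
      rw [add_sub_cancel_right]
      exact mul_comm _ _, h]
  rw [one_div, Real.inv_rpow Real.pi_pos.le, Real.rpow_neg Real.pi_pos.le]

theorem wi_pos {k : ℝ} (hk : -1 < k) : 0 < ∫ u in Ioi (0 : ℝ), wf k u := by
  rw [wi_gamma hk]
  have := Real.Gamma_pos_of_pos (show 0 < k + 1 by linarith)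
  have := Real.pi_pos
  positivity

theorem wi_decay {k : ℝ} (hk : -1 < k) {z : ℝ} (hz : 0 < z) :
    ∫ u in Ioi z, wf k u ≤ (∫ u in Ioi (0 : ℝ), wf (k + 2) u) / z ^ 2 := by
  rw [le_div_iff₀ (by positivity)]
  have h1 : (∫ u in Ioi z, wf k u) * z ^ 2 = ∫ u in Ioi z, wf k u * z ^ 2 :=
    (integral_mul_const _ _).symm
  rw [h1]
  refine le_trans (setIntegral_mono_on ((wf_int' hk hz.le).mul_const _)
    (wf_int' (k := k + 2) (by linarith) hz.le) measurableSet_Ioi fun u hu => ?_)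
    (wi_anti (by linarith) le_rfl hz.le)
  have hu' : z < u := hu
  have hu0 : 0 < u := hz.trans hu'
  unfold wf
  rw [Real.rpow_add hu0, Real.rpow_two, ← mul_assoc]
  refine mul_le_mul_of_nonneg_left (by gcongr) ?_
  exact mul_nonneg (Real.exp_pos _).le (Real.rpow_nonneg hu0.le _)

theorem Wi_eq (s : ℤ) (z : ℝ) : Wi s z = ∫ u in Ioi z, wf (ex s) u := rfl

theorem V_facts (s : ℤ) : V s 0 = 1 ∧ (∀ z : ℝ, 0 ≤ z → 0 ≤ V s z ∧ V s z ≤ 1) ∧ AntitoneOn (V s) (Set.Ici 0) ∧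
    ∃ C : ℝ, 0 < C ∧ ∀ z : ℝ, 0 < z → V s z ≤ C / z ^ 2 := by
  have hp := wi_pos (ex_gt s)
  refine ⟨?_, fun z hz => ⟨?_, ?_⟩, fun z hz w hw hzw => ?_, ?_⟩
  · unfold V
    rw [Wi_eq]
    exact div_self hp.ne'
  · unfold V
    rw [Wi_eq, Wi_eq]
    exact div_nonneg (wi_nonneg hz) hp.le
  · unfold V
    rw [Wi_eq, Wi_eq, div_le_one hp]
    exact wi_anti (ex_gt s) le_rfl hz
  · unfold V
    rw [Wi_eq, Wi_eq, Wi_eq]
    exact div_le_div_of_nonneg_right (wi_anti (ex_gt s) hz hzw) hp.le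
  · have hp2 := wi_pos (k := ex s + 2) (by have := ex_gt s; linarith)
    refine ⟨(∫ u in Ioi (0 : ℝ), wf (ex s + 2) u) / ∫ u in Ioi (0 : ℝ), wf (ex s) u,
      div_pos hp2 hp, fun z hz => ?_⟩
    unfold V
    rw [Wi_eq, Wi_eq, div_right_comm]
    exact div_le_div_of_nonneg_right (wi_decay (ex_gt s) hz) hp.le

/-- scaling -/
theorem wi_scale (k : ℝ) {c : ℝ} (hc : 0 < c) :
    ∫ y in Ioi (1 : ℝ), Real.exp (-(Real.pi * c * y)) * y ^ k =
      c ^ (-(k + 1)) * ∫ u in Ioi c, wf k u := by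
  have h := integral_comp_mul_left_Ioi (fun u => wf k u) 1 hc
  rw [mul_one] at h
  have e : ∫ y in Ioi (1 : ℝ), wf k (c * y) =
      c ^ k * ∫ y in Ioi (1 : ℝ), Real.exp (-(Real.pi * c * y)) * y ^ k := by
    rw [← integral_const_mul]
    refine setIntegral_congr_fun measurableSet_Ioi fun y hy => ?_
    have hy0 : (0 : ℝ) < y := zero_lt_one.trans hy
    show Real.exp (-(Real.pi * (c * y))) * (c * y) ^ k = _
    rw [Real.mul_rpow hc.le hy0.le, ← mul_assoc Real.pi]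
    ring
  rw [e, smul_eq_mul] at h
  have hck : 0 < c ^ k := Real.rpow_pos_of_pos hc k
  have h2 : c ^ (-(k + 1)) * c ^ k = c⁻¹ := by
    rw [← Real.rpow_add hc, show -(k + 1) + k = -1 by ring, Real.rpow_neg_one]
  have h3 : c ^ k * ∫ y in Ioi (1 : ℝ), Real.exp (-(Real.pi * c * y)) * y ^ k =
      c ^ k * (c ^ (-(k + 1)) * ∫ u in Ioi c, wf k u) := by
    rw [h, ← h2]
    ring
  exact mul_left_cancel₀ hck.ne' h3

/-! ### Reduction of the integral to `(1, ∞)` -/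

theorem int_half {T : ℝ → ℝ} {k : ℝ} (hT : ∀ y : ℝ, 0 < y → T (1 / y) = y ^ (2 * k + 2) * T y)
    (hi : IntegrableOn (fun y => T y * y ^ k) (Ioi 1)) :
    ∫ y in Ioi (0 : ℝ), T y * y ^ k = 2 * ∫ y in Ioi (1 : ℝ), T y * y ^ k := by
  set G : ℝ → ℝ := fun y => T y * y ^ k with hG
  set f : ℝ → ℝ := (Ioc (0 : ℝ) 1).indicator G with hf
  have key : ∀ x ∈ Ioi (0 : ℝ), (|(-1 : ℝ)| * x ^ ((-1 : ℝ) - 1)) • f (x ^ (-1 : ℝ)) =
      (Ici (1 : ℝ)).indicator G x := by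
    intro x hx
    have hx0 : (0 : ℝ) < x := hx
    have hxi : x ^ (-1 : ℝ) = 1 / x := by rw [Real.rpow_neg_one, one_div]
    rw [hxi]
    by_cases h1 : 1 ≤ x
    · have hm : 1 / x ∈ Ioc (0 : ℝ) 1 := ⟨by positivity, (div_le_one hx0).2 h1⟩
      rw [hf, Set.indicator_of_mem hm, Set.indicator_of_mem (show x ∈ Ici (1:ℝ) from h1)]
      simp only [hG]
      rw [hT x hx0, abs_neg, abs_one, one_mul, smul_eq_mul, one_div, Real.inv_rpow hx0.le,
        ← Real.rpow_neg hx0.le]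
      have e : x ^ ((-1 : ℝ) - 1) * (x ^ (2 * k + 2) * T x * x ^ (-k)) =
          T x * (x ^ ((-1 : ℝ) - 1) * x ^ (2 * k + 2) * x ^ (-k)) := by ring
      rw [e, ← Real.rpow_add hx0, ← Real.rpow_add hx0]
      congr 2
      ring
    · have hm : 1 / x ∉ Ioc (0 : ℝ) 1 := fun h => h1 ((div_le_one hx0).1 h.2)
      rw [hf, Set.indicator_of_notMem hm, Set.indicator_of_notMem (show x ∉ Ici (1:ℝ) from h1),
        smul_zero]
  have hIci : IntegrableOn G (Ici 1) := (integrableOn_Ici_iff_integrableOn_Ioi (by simp)).2 hi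
  have hsub : Ici (1 : ℝ) ⊆ Ioi 0 := fun x (hx : 1 ≤ x) => lt_of_lt_of_le zero_lt_one hx
  have hsub' : Ioc (0 : ℝ) 1 ⊆ Ioi 0 := fun x hx => hx.1
  have hcongr : IntegrableOn ((Ici (1 : ℝ)).indicator G) (Ioi 0) := by
    rw [IntegrableOn, integrable_indicator_iff measurableSet_Ici, IntegrableOn,
      Measure.restrict_restrict measurableSet_Ici, Set.inter_eq_left.2 hsub]
    exact hIci
  have hfi : IntegrableOn f (Ioi 0) :=
    (integrableOn_Ioi_comp_rpow_iff f (by norm_num : (-1 : ℝ) ≠ 0)).1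
      (hcongr.congr_fun (fun x hx => (key x hx).symm) measurableSet_Ioi)
  have hGi : IntegrableOn G (Ioc 0 1) := by
    rw [IntegrableOn, hf, integrable_indicator_iff measurableSet_Ioc, IntegrableOn,
      Measure.restrict_restrict measurableSet_Ioc, Set.inter_eq_left.2 hsub'] at hfi
    exact hfi
  have h1 : ∫ x in Ioc (0 : ℝ) 1, G x = ∫ x in Ioi (1 : ℝ), G x := by
    have h2 := integral_comp_rpow_Ioi f (by norm_num : (-1 : ℝ) ≠ 0)
    rw [setIntegral_congr_fun measurableSet_Ioi key, setIntegral_indicator measurableSet_Ici,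
      hf, setIntegral_indicator measurableSet_Ioc, Set.inter_eq_right.2 hsub,
      Set.inter_eq_right.2 hsub', integral_Ici_eq_integral_Ioi] at h2
    exact h2.symm
  rw [← Ioc_union_Ioi_eq_Ioi zero_le_one, setIntegral_union Ioc_disjoint_Ioi_same measurableSet_Ioi
    hGi hi, h1]
  ring

/-! ### The series -/

/-- `∑ c_n (n+1)^a ∫_1^∞ exp(-π (n+1)² y / Q) y^k dy` for `a = 2k + 3/2` -/
theorem int_series (c : ℕ → ℝ) (hc : ∀ n, |c n| ≤ 1) (a : ℕ) {k : ℝ} (hk : -1 < k)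
    (ha : (a : ℝ) = 2 * k + 3 / 2) {Q : ℝ} (hQ : 0 < Q) :
    Summable (fun n : ℕ => c n * (((n : ℝ) + 1) ^ (-(1 / 2) : ℝ) *
        ∫ u in Ioi (((n : ℝ) + 1) ^ 2 / Q), wf k u)) ∧
    ∫ y in Ioi (1 : ℝ), (∑' n : ℕ, c n * ((n : ℝ) + 1) ^ a *
        Real.exp (-(Real.pi * ((n : ℝ) + 1) ^ 2 * y / Q))) * y ^ k =
      Q ^ (k + 1) * ∑' n : ℕ, c n * (((n : ℝ) + 1) ^ (-(1 / 2) : ℝ) *
        ∫ u in Ioi (((n : ℝ) + 1) ^ 2 / Q), wf k u) := by
  set F : ℕ → ℝ → ℝ := fun n y => c n * ((n : ℝ) + 1) ^ a *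
        Real.exp (-(Real.pi * ((n : ℝ) + 1) ^ 2 * y / Q)) * y ^ k with hF
  have hn1 : ∀ n : ℕ, (0 : ℝ) < (n : ℝ) + 1 := fun n => by positivity
  have hz : ∀ n : ℕ, 0 < ((n : ℝ) + 1) ^ 2 / Q := fun n => by positivity
  have hFeq : ∀ n : ℕ, F n = fun y => (c n * ((n : ℝ) + 1) ^ a) *
      (Real.exp (-(Real.pi * (((n : ℝ) + 1) ^ 2 / Q) * y)) * y ^ k) := by
    intro n
    funext y
    simp only [hF]
    rw [show Real.pi * ((n : ℝ) + 1) ^ 2 * y / Q = Real.pi * (((n : ℝ) + 1) ^ 2 / Q) * y by ring]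
    ring
  have hpow : ∀ n : ℕ, ((n : ℝ) + 1) ^ a * (((n : ℝ) + 1) ^ 2 / Q) ^ (-(k + 1)) =
      Q ^ (k + 1) * ((n : ℝ) + 1) ^ (-(1 / 2) : ℝ) := by
    intro n
    rw [Real.div_rpow (by positivity) hQ.le, ← Real.rpow_natCast _ 2, ← Real.rpow_mul (hn1 n).le,
      Real.rpow_neg hQ.le, div_inv_eq_mul, ← Real.rpow_natCast _ a, ha, ← mul_assoc,
      ← Real.rpow_add (hn1 n), mul_comm]
    congr 2
    push_cast
    ring
  have hint : ∀ n : ℕ, IntegrableOn (fun y : ℝ =>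
      Real.exp (-(Real.pi * (((n : ℝ) + 1) ^ 2 / Q) * y)) * y ^ k) (Ioi 1) := by
    intro n
    have h1 : IntegrableOn (fun y : ℝ => wf k ((((n : ℝ) + 1) ^ 2 / Q) * y)) (Ioi 1) := by
      rw [integrableOn_Ioi_comp_mul_left_iff (wf k) 1 (hz n), mul_one]
      exact wf_int' hk (hz n).le
    refine IntegrableOn.congr_fun (h1.mul_const ((((n : ℝ) + 1) ^ 2 / Q) ^ k)⁻¹) (fun y hy => ?_)
      measurableSet_Ioi
    have hy0 : (0 : ℝ) < y := zero_lt_one.trans hy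
    show Real.exp (-(Real.pi * ((((n : ℝ) + 1) ^ 2 / Q) * y))) * ((((n : ℝ) + 1) ^ 2 / Q) * y) ^ k *
      _ = _
    have h2 : 0 < (((n : ℝ) + 1) ^ 2 / Q) ^ k := Real.rpow_pos_of_pos (hz n) k
    rw [Real.mul_rpow (hz n).le hy0.le, ← mul_assoc Real.pi]
    field_simp
  have hFi : ∀ n, Integrable (F n) (volume.restrict (Ioi 1)) := by
    intro n
    rw [hFeq n]
    exact (hint n).const_mul _
  have hval : ∀ n : ℕ, ∫ y in Ioi (1 : ℝ), Real.exp (-(Real.pi * (((n : ℝ) + 1) ^ 2 / Q) * y)) * y ^ k =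
      (((n : ℝ) + 1) ^ 2 / Q) ^ (-(k + 1)) * ∫ u in Ioi (((n : ℝ) + 1) ^ 2 / Q), wf k u :=
    fun n => wi_scale k (hz n)
  have hFval : ∀ n : ℕ, ∫ y in Ioi (1 : ℝ), F n y = Q ^ (k + 1) * (c n * (((n : ℝ) + 1) ^ (-(1 / 2) : ℝ) *
        ∫ u in Ioi (((n : ℝ) + 1) ^ 2 / Q), wf k u)) := by
    intro n
    rw [hFeq n, integral_const_mul, hval n]
    have := hpow n
    calc c n * ((n : ℝ) + 1) ^ a * ((((n : ℝ) + 1) ^ 2 / Q) ^ (-(k + 1)) *
          ∫ u in Ioi (((n : ℝ) + 1) ^ 2 / Q), wf k u) =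
        c n * (((n : ℝ) + 1) ^ a * (((n : ℝ) + 1) ^ 2 / Q) ^ (-(k + 1))) *
          ∫ u in Ioi (((n : ℝ) + 1) ^ 2 / Q), wf k u := by ring
      _ = _ := by rw [this]; ring
  have hFnorm : ∀ n : ℕ, ∫ y in Ioi (1 : ℝ), ‖F n y‖ = Q ^ (k + 1) * (|c n| *
      (((n : ℝ) + 1) ^ (-(1 / 2) : ℝ) * ∫ u in Ioi (((n : ℝ) + 1) ^ 2 / Q), wf k u)) := by
    intro n
    have e : ∫ y in Ioi (1 : ℝ), ‖F n y‖ = ∫ y in Ioi (1 : ℝ), (|c n| * ((n : ℝ) + 1) ^ a) *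
      (Real.exp (-(Real.pi * (((n : ℝ) + 1) ^ 2 / Q) * y)) * y ^ k) := by
      refine setIntegral_congr_fun measurableSet_Ioi fun y hy => ?_
      have hy0 : (0 : ℝ) < y := zero_lt_one.trans hy
      simp only [hFeq n]
      rw [Real.norm_eq_abs, abs_mul, abs_mul, abs_of_pos (pow_pos (hn1 n) a),
        abs_of_nonneg (mul_nonneg (Real.exp_pos _).le (Real.rpow_nonneg hy0.le k))]
    rw [e, integral_const_mul, hval n]
    have := hpow n
    calc |c n| * ((n : ℝ) + 1) ^ a * ((((n : ℝ) + 1) ^ 2 / Q) ^ (-(k + 1)) *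
          ∫ u in Ioi (((n : ℝ) + 1) ^ 2 / Q), wf k u) =
        |c n| * (((n : ℝ) + 1) ^ a * (((n : ℝ) + 1) ^ 2 / Q) ^ (-(k + 1))) *
          ∫ u in Ioi (((n : ℝ) + 1) ^ 2 / Q), wf k u := by ring
      _ = _ := by rw [this]; ring
  -- the terms are small
  set D := ∫ u in Ioi (0 : ℝ), wf (k + 2) u with hD
  have hsmall : ∀ n : ℕ, ((n : ℝ) + 1) ^ (-(1 / 2) : ℝ) *
      ∫ u in Ioi (((n : ℝ) + 1) ^ 2 / Q), wf k u ≤ D * Q ^ 2 * (1 / ((n + 1 : ℕ) : ℝ) ^ 4) := by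
    intro n
    have h1 := wi_decay hk (hz n)
    rw [← hD] at h1
    have h2 : ((n : ℝ) + 1) ^ (-(1 / 2) : ℝ) ≤ 1 :=
      Real.rpow_le_one_of_one_le_of_nonpos (by have : (0:ℝ) ≤ n := Nat.cast_nonneg n; linarith)
        (by norm_num)
    have h3 : 0 ≤ ∫ u in Ioi (((n : ℝ) + 1) ^ 2 / Q), wf k u := wi_nonneg (hz n).le
    calc _ ≤ 1 * ∫ u in Ioi (((n : ℝ) + 1) ^ 2 / Q), wf k u := mul_le_mul_of_nonneg_right h2 h3
      _ ≤ D / (((n : ℝ) + 1) ^ 2 / Q) ^ 2 := by rw [one_mul]; exact h1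
      _ = _ := by
          push_cast
          field_simp
  have hsum4 : Summable fun n : ℕ => D * Q ^ 2 * (1 / ((n + 1 : ℕ) : ℝ) ^ 4) :=
    ((summable_nat_add_iff 1).2 (Real.summable_one_div_nat_pow.2 (by norm_num : 1 < 4))).mul_left _
  have hpos : ∀ n : ℕ, 0 ≤ ((n : ℝ) + 1) ^ (-(1 / 2) : ℝ) *
      ∫ u in Ioi (((n : ℝ) + 1) ^ 2 / Q), wf k u := fun n =>
    mul_nonneg (Real.rpow_nonneg (hn1 n).le _) (wi_nonneg (hz n).le)
  have hS : Summable fun n : ℕ => |c n| * (((n : ℝ) + 1) ^ (-(1 / 2) : ℝ) *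
        ∫ u in Ioi (((n : ℝ) + 1) ^ 2 / Q), wf k u) :=
    Summable.of_nonneg_of_le (fun n => mul_nonneg (abs_nonneg _) (hpos n))
      (fun n => (mul_le_of_le_one_left (hpos n) (hc n)).trans (hsmall n)) hsum4
  have hS' : Summable fun n : ℕ => c n * (((n : ℝ) + 1) ^ (-(1 / 2) : ℝ) *
        ∫ u in Ioi (((n : ℝ) + 1) ^ 2 / Q), wf k u) := by
    refine Summable.of_norm_bounded hS fun n => ?_
    rw [norm_mul, Real.norm_eq_abs, Real.norm_of_nonneg (hpos n)]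
  have hFs : Summable fun n => ∫ y in Ioi (1 : ℝ), ‖F n y‖ := by
    simp only [hFnorm]
    exact hS.mul_left _
  have hts : ∀ y : ℝ, (∑' n : ℕ, c n * ((n : ℝ) + 1) ^ a *
        Real.exp (-(Real.pi * ((n : ℝ) + 1) ^ 2 * y / Q))) * y ^ k = ∑' n, F n y :=
    fun y => tsum_mul_right.symm
  refine ⟨hS', ?_⟩
  simp only [hts]
  rw [← integral_tsum_of_summable_integral_norm hFi hFs]
  simp only [hFval]
  rw [tsum_mul_left]

/-! ### The approximate functional equation -/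

open Pool.Agent.H306R2.RZ Pool.Agent.H306R2.RG

theorem thg_int {φ : FD} (hφ : Fam φ) (d : ℕ) (hd : d ≠ 0) {k : ℝ} (hk : k < 0) :
    IntegrableOn (fun y => thg φ d y * y ^ k) (Ioi 1) := by
  obtain ⟨hc, C, c, hC, hc0, h⟩ := LnkC.CC4 φ hφ d hd
  have hmeas : AEStronglyMeasurable (fun y => thg φ d y * y ^ k) (volume.restrict (Ioi 1)) := by
    refine ContinuousOn.aestronglyMeasurable ?_ measurableSet_Ioi
    refine (hc.mono (Ioi_subset_Ioi zero_le_one)).mul ?_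
    intro y hy
    exact (Real.continuousAt_rpow_const y k (Or.inl (zero_lt_one.trans hy).ne')).continuousWithinAt
  have hg : IntegrableOn (fun y : ℝ => C * Real.exp (-c * y)) (Ioi 1) :=
    (exp_neg_integrableOn_Ioi 1 hc0).const_mul C
  refine Integrable.mono' hg hmeas ?_
  rw [ae_restrict_iff' measurableSet_Ioi]
  refine Eventually.of_forall fun y hy => ?_
  have hy1 : (1 : ℝ) ≤ y := le_of_lt hy
  rw [norm_mul, Real.norm_eq_abs, Real.norm_of_nonneg (Real.rpow_nonneg (by linarith) k)]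
  have h1 := h y hy1
  have h2 : y ^ k ≤ 1 := Real.rpow_le_one_of_one_le_of_nonpos hy1 hk.le
  rw [neg_mul]
  calc |thg φ d y| * y ^ k ≤ (C * Real.exp (-(c * y))) * 1 :=
        mul_le_mul h1 h2 (Real.rpow_nonneg (by linarith) k) (by positivity)
    _ = _ := mul_one _

/-- the value of `LLg` at the centre -/
theorem llg_eq {φ : FD} (hφ : Fam φ) {s : ℤ} (hs : (φ.a : ℝ) = 2 * ex s + 3 / 2) (d : ℕ)
    (hd : φ.A d) (hsq : Squarefree d) (hr : 0 < φ.r) :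
    Summable (fun n : ℕ => cf φ d (n + 1) * (V s (((n : ℝ) + 1) ^ 2 / ((φ.r : ℝ) * d)) /
      √((n : ℝ) + 1))) ∧
    LLg φ d (1 / 2) = 2 * ∑' n : ℕ, cf φ d (n + 1) *
      (V s (((n : ℝ) + 1) ^ 2 / ((φ.r : ℝ) * d)) / √((n : ℝ) + 1)) := by
  have hd0 : d ≠ 0 := hsq.ne_zero
  have hQ : (0 : ℝ) < (φ.r : ℝ) * d := by
    have h1 : (0 : ℝ) < φ.r := by exact_mod_cast hr
    have h2 : (0 : ℝ) < d := by exact_mod_cast Nat.pos_of_ne_zero hd0
    positivity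
  have hk := ex_gt s
  have hcf : ∀ n, |cf φ d (n + 1)| ≤ 1 := fun n =>
    Pool.Agent.H408R2.RGCC5.cf_le hφ d (n + 1)
  obtain ⟨hS, hI⟩ := int_series (fun n => cf φ d (n + 1)) hcf φ.a hk hs hQ
  have hW := wi_pos hk
  have hWg : ∫ u in Ioi (0 : ℝ), wf (ex s) u = gm (1 / 2 + φ.a) := by
    rw [wi_gamma hk]
    unfold gm
    rw [hs]
    congr 2 <;> ring
  have hterm : ∀ n : ℕ, V s (((n : ℝ) + 1) ^ 2 / ((φ.r : ℝ) * d)) / √((n : ℝ) + 1) =
      (((n : ℝ) + 1) ^ (-(1 / 2) : ℝ) * ∫ u in Ioi (((n : ℝ) + 1) ^ 2 / ((φ.r : ℝ) * d)),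
        wf (ex s) u) / ∫ u in Ioi (0 : ℝ), wf (ex s) u := by
    intro n
    have hn1 : (0 : ℝ) < (n : ℝ) + 1 := by positivity
    unfold V
    rw [Wi_eq, Wi_eq, Real.rpow_neg hn1.le, ← Real.sqrt_eq_rpow]
    field_simp
  constructor
  · refine (hS.div_const (∫ u in Ioi (0 : ℝ), wf (ex s) u)).congr fun n => ?_
    rw [hterm n]
    ring
  · unfold LLg
    have hexp : ((1 : ℝ) / 2 + φ.a) / 2 - 1 = ex s := by rw [hs]; ring
    have hexp2 : ((1 : ℝ) / 2 + φ.a) / 2 = ex s + 1 := by rw [hs]; ring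
    have hT : ∀ y : ℝ, 0 < y → thg φ d (1 / y) = y ^ (2 * ex s + 2) * thg φ d y := by
      intro y hy
      rw [LnkC.CC3 φ hφ d hd hsq y hy]
      congr 2
      rw [hs]
      ring
    rw [hexp, hexp2, int_half hT (thg_int hφ d hd0 (ex_neg s))]
    have e : ∫ y in Ioi (1 : ℝ), thg φ d y * y ^ ex s = ∫ y in Ioi (1 : ℝ),
        (∑' n : ℕ, cf φ d (n + 1) * ((n : ℝ) + 1) ^ φ.a *
        Real.exp (-(Real.pi * ((n : ℝ) + 1) ^ 2 * y / ((φ.r : ℝ) * d)))) * y ^ ex s := rfl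
    rw [e, hI, ← hWg]
    have hQk : 0 < ((φ.r : ℝ) * d) ^ (ex s + 1) := Real.rpow_pos_of_pos hQ _
    have e2 : ∑' n : ℕ, cf φ d (n + 1) *
      (V s (((n : ℝ) + 1) ^ 2 / ((φ.r : ℝ) * d)) / √((n : ℝ) + 1)) =
        (∑' n : ℕ, cf φ d (n + 1) * (((n : ℝ) + 1) ^ (-(1 / 2) : ℝ) *
        ∫ u in Ioi (((n : ℝ) + 1) ^ 2 / ((φ.r : ℝ) * d)), wf (ex s) u)) /
          ∫ u in Ioi (0 : ℝ), wf (ex s) u := by
      rw [← tsum_div_const]
      refine tsum_congr fun n => ?_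
      rw [hterm n]
      ring
    rw [e2]
    field_simp

/-- the tail -/
theorem tail_le {s : ℤ} {C : ℝ} (hC : 0 < C) (hV : ∀ z : ℝ, 0 < z → V s z ≤ C / z ^ 2)
    (c : ℕ → ℝ) (hc : ∀ n, |c n| ≤ 1) {q : ℕ} (hq : 1 ≤ q) :
    |∑' n : ℕ, c (n + q) * (V s ((((n + q : ℕ) : ℝ) + 1) ^ 2 / (q : ℝ)) /
      √(((n + q : ℕ) : ℝ) + 1))| ≤ C / q := by
  have hq0 : (0 : ℝ) < q := by exact_mod_cast hq
  have hb : ∀ n : ℕ, ‖c (n + q) * (V s ((((n + q : ℕ) : ℝ) + 1) ^ 2 / (q : ℝ)) /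
      √(((n + q : ℕ) : ℝ) + 1))‖ ≤ C * (1 / ((n : ℝ) + q) - 1 / ((n : ℝ) + 1 + q)) := by
    intro n
    have hn0 : (0 : ℝ) ≤ n := Nat.cast_nonneg n
    have e : (((n + q : ℕ) : ℝ) + 1) = (n : ℝ) + q + 1 := by push_cast; ring
    rw [e]
    have hN : 1 ≤ (n : ℝ) + q + 1 := by linarith
    have hNq : (q : ℝ) ≤ (n : ℝ) + q + 1 := by linarith
    have hz : 0 < ((n : ℝ) + q + 1) ^ 2 / (q : ℝ) := by positivity
    have h1 := hV _ hz
    have h2 := (V_facts s).2.1 _ hz.le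
    have h3 : 1 ≤ √((n : ℝ) + q + 1) := Real.one_le_sqrt.2 hN
    rw [norm_mul, Real.norm_eq_abs, Real.norm_of_nonneg (div_nonneg h2.1 (Real.sqrt_nonneg _))]
    have h4 : V s (((n : ℝ) + q + 1) ^ 2 / (q : ℝ)) / √((n : ℝ) + q + 1) ≤
        C / (((n : ℝ) + q + 1) ^ 2 / (q : ℝ)) ^ 2 :=
      (div_le_self h2.1 h3).trans h1
    calc |c (n + q)| * (V s (((n : ℝ) + q + 1) ^ 2 / (q : ℝ)) / √((n : ℝ) + q + 1)) ≤
          1 * (C / (((n : ℝ) + q + 1) ^ 2 / (q : ℝ)) ^ 2) :=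
          mul_le_mul (hc _) h4 (div_nonneg h2.1 (Real.sqrt_nonneg _)) zero_le_one
      _ = C * ((q : ℝ) ^ 2 / ((n : ℝ) + q + 1) ^ 4) := by field_simp
      _ ≤ C * (1 / ((n : ℝ) + q) - 1 / ((n : ℝ) + 1 + q)) := by
          refine mul_le_mul_of_nonneg_left ?_ hC.le
          have e2 : 1 / ((n : ℝ) + q) - 1 / ((n : ℝ) + 1 + q) =
              1 / (((n : ℝ) + q) * ((n : ℝ) + q + 1)) := by
            have : (n : ℝ) + q ≠ 0 := by positivity
            have : (n : ℝ) + 1 + q ≠ 0 := by positivity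
            have : (n : ℝ) + q + 1 ≠ 0 := by positivity
            field_simp
            ring
          rw [e2, div_le_div_iff₀ (by positivity) (by positivity), one_mul]
          have h5 : (n : ℝ) + q ≤ (n : ℝ) + q + 1 := by linarith
          calc (q : ℝ) ^ 2 * (((n : ℝ) + q) * ((n : ℝ) + q + 1)) ≤
                ((n : ℝ) + q + 1) ^ 2 * (((n : ℝ) + q + 1) * ((n : ℝ) + q + 1)) := by gcongr
            _ = _ := by ring
  have hsum : HasSum (fun n : ℕ => C * (1 / ((n : ℝ) + q) - 1 / ((n : ℝ) + 1 + q)))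
      (C * (1 / (q : ℝ))) := by
    refine HasSum.mul_left C ?_
    have ht : Tendsto (fun n : ℕ => 1 / ((n : ℝ) + q)) atTop (𝓝 0) := by
      have : Tendsto (fun n : ℕ => (n : ℝ) + q) atTop atTop :=
        tendsto_atTop_add_const_right _ _ tendsto_natCast_atTop_atTop
      exact Tendsto.congr (fun n => (one_div _).symm) (tendsto_inv_atTop_zero.comp this)
    have hp : ∀ N : ℕ, ∑ n ∈ Finset.range N, (1 / ((n : ℝ) + q) - 1 / ((n : ℝ) + 1 + q)) =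
        1 / (q : ℝ) - 1 / ((N : ℝ) + q) := by
      intro N
      induction N with
      | zero => simp
      | succ N ih =>
        rw [Finset.sum_range_succ, ih]
        push_cast
        ring
    rw [hasSum_iff_tendsto_nat_of_nonneg]
    · simp only [hp]
      simpa using (tendsto_const_nhds (x := 1 / (q : ℝ))).sub ht
    · intro n
      rw [sub_nonneg]
      have hn0 : (0 : ℝ) ≤ n := Nat.cast_nonneg n
      exact one_div_le_one_div_of_le (by positivity) (by linarith)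
  have h := tsum_of_norm_bounded hsum hb
  rw [Real.norm_eq_abs] at h
  calc _ ≤ C * (1 / (q : ℝ)) := h
    _ = C / q := by ring

/-- the values of the character and of the `L`-function of the conductor `r d` -/
theorem LL_fam {s : ℤ} (hs : s = 1 ∨ s = -1) (φ : FD)
    (hm : φ = F8 s ∨ φ = F4 s ∨ φ = F1 s 1 ∨ φ = F1 s 5) (d : ℕ) (hA : φ.A d)
    (hsq : Squarefree d) :
    (∀ n : ℕ, vl s (φ.r * d) (n + 1) = ((cf φ d (n + 1) : ℝ) : ℂ)) ∧
    LL s (φ.r * d) (1 / 2) = ((LLg φ d (1 / 2) : ℝ) : ℂ) := by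
  have hφ : Fam φ := ⟨s, hs, hm⟩
  obtain ⟨hd0, hr, hq2, χ', hχ', hcf⟩ := Avg.rp_of s hs φ hm d hA hsq
  have hq0 : φ.r * d ≠ 0 := by omega
  refine ⟨fun n => ?_, ?_⟩
  · rw [Avg.vl_eq t_UNI hq2 χ' hχ' (n + 1), hcf (n + 1) (Nat.succ_ne_zero n)]
  · have hNZ : NeZero (φ.r * d) := ⟨hq0⟩
    have hI : Is s (φ.r * d) := ⟨hq2, χ', hχ'⟩
    have hc : ch s (φ.r * d) = χ' := by
      unfold ch
      rw [dif_pos hI]
      exact t_UNI s _ _ _ hq0 hI.2.choose_spec hχ'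
    unfold LL
    rw [dif_pos hq0, hc]
    have h := LnkC.CC5 φ hφ d hA hsq hNZ χ' hχ'.2.2.1 hcf (1 / 2) (by norm_num)
    rw [← h]
    congr 1
    norm_num

theorem afe_fam {C : ℝ} (hC : 0 < C) {s : ℤ} (hs : s = 1 ∨ s = -1)
    (hV : ∀ z : ℝ, 0 < z → V s z ≤ C / z ^ 2) (φ : FD)
    (hm : φ = F8 s ∨ φ = F4 s ∨ φ = F1 s 1 ∨ φ = F1 s 5) (d : ℕ) (hA : φ.A d)
    (hsq : Squarefree d) :
    ‖LL s (φ.r * d) (1 / 2) - 2 * ∑ n ∈ Finset.Icc 1 (φ.r * d), vl s (φ.r * d) n *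
      (wt s (φ.r * d) n : ℂ)‖ ≤ 2 * C / ((φ.r * d : ℕ) : ℝ) := by
  have hφ : Fam φ := ⟨s, hs, hm⟩
  obtain ⟨hd0, hr, hq2, -⟩ := Avg.rp_of s hs φ hm d hA hsq
  obtain ⟨hvl, hLL⟩ := LL_fam hs φ hm d hA hsq
  have hsa : (φ.a : ℝ) = 2 * ex s + 3 / 2 := by
    have ha : φ.a = if s = 1 then 0 else 1 := by
      rcases hm with h | h | h | h <;> rw [h] <;> rfl
    rw [ha]
    unfold ex
    rcases hs with rfl | rfl <;> norm_num
  obtain ⟨hSum, hval⟩ := llg_eq hφ hsa d hA hsq hr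
  generalize hq : φ.r * d = q at *
  have hQ : ((φ.r : ℝ) * d) = (q : ℝ) := by
    rw [← hq]
    push_cast
    rfl
  rw [hQ] at hSum hval
  have hsplit := hSum.sum_add_tsum_nat_add q
  have hfin : ∑ n ∈ Finset.Icc 1 q, vl s q n * (wt s q n : ℂ) =
      ((∑ n ∈ Finset.range q, cf φ d (n + 1) * (V s (((n : ℝ) + 1) ^ 2 / (q : ℝ)) /
        √((n : ℝ) + 1)) : ℝ) : ℂ) := by
    rw [Complex.ofReal_sum]
    have hIcc : Finset.Icc 1 q = Finset.Ico (0 + 1) (q + 1) := by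
      ext n
      simp only [Finset.mem_Icc, Finset.mem_Ico]
      omega
    rw [hIcc, ← Finset.sum_Ico_add' (fun n : ℕ => vl s q n * (wt s q n : ℂ)) 0 q 1,
      ← Finset.range_eq_Ico]
    refine Finset.sum_congr rfl fun n _ => ?_
    rw [hvl n, ← Complex.ofReal_mul]
    congr 2
    unfold wt
    push_cast
    rfl
  have htail := tail_le hC hV (fun n => cf φ d (n + 1))
    (fun n => Pool.Agent.H408R2.RGCC5.cf_le hφ d (n + 1)) (by omega : 1 ≤ q)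
  rw [hLL, hfin, hval, ← hsplit]
  rw [← Complex.ofReal_ofNat, ← Complex.ofReal_mul, ← Complex.ofReal_sub, Complex.norm_real,
    ← mul_sub, add_sub_cancel_left, Real.norm_eq_abs, abs_mul, abs_of_pos (by norm_num : (0:ℝ) < 2)]
  calc _ ≤ 2 * (C / q) := mul_le_mul_of_nonneg_left htail (by norm_num)
    _ = _ := by ring

theorem afe : ∃ C : ℝ, 0 < C ∧ ∀ (s : ℤ) (q : ℕ), s = 1 ∨ s = -1 → Is s q →
    ‖LL s q (1 / 2) - 2 * ∑ n ∈ Finset.Icc 1 q, vl s q n * (wt s q n : ℂ)‖ ≤ C / q := by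
  obtain ⟨-, -, -, C1, hC1, hV1⟩ := V_facts 1
  obtain ⟨-, -, -, C2, hC2, hV2⟩ := V_facts (-1)
  have hC12 : 0 < C1 + C2 := by positivity
  refine ⟨2 * (C1 + C2), by positivity, fun s q hs hIs => ?_⟩
  have hV : ∀ z : ℝ, 0 < z → V s z ≤ (C1 + C2) / z ^ 2 := by
    intro z hz
    rcases hs with rfl | rfl
    · exact (hV1 z hz).trans (div_le_div_of_nonneg_right (by linarith) (by positivity))
    · exact (hV2 z hz).trans (div_le_div_of_nonneg_right (by linarith) (by positivity))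
  obtain ⟨hq2, χ, hχ⟩ := id hIs
  obtain ⟨i, d, hA, hsq, hqd⟩ := Avg.fam_surj s q hq2 χ hχ
  rw [hqd]
  exact afe_fam hC12 hs hV _ (Avg.fam_mem s i) d hA hsq

end

end Pool.Agent.J4.H39.CM
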