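import Pool.Agent.J4.H39.CM.Def2

set_option autoImplicit false
set_option linter.unusedVariables false

/-!
Project CM (helper39), part 2: the Fourier expansion of the periodic functions `Pf`.
-/

namespace Pool.Agent.J4.H39.CM

open Complex Finset
open Pool.Agent.N879.QM
open Pool.Agent.N879.QM.Avg (fam)
open Pool.Agent.H306R2.RZ (js cas Gk)
open Pool.Agent.H60R2.RZC1 (Gk_sqf)

noncomputable section

namespace Four

open Classical in
/-- the indicator function of the integers -/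
def dl (x : ℝ) : ℂ := if ∃ z : ℤ, x = z then 1 else 0

lemma e_of_int {x : ℝ} (h : ∃ z : ℤ, x = z) : e x = 1 := by
  obtain ⟨z, rfl⟩ := h
  exact e_int z

lemma int_of_e {x : ℝ} (h : e x = 1) : ∃ z : ℤ, x = z := by
  unfold e at h
  rw [Complex.exp_eq_one_iff] at h
  obtain ⟨n, hn⟩ := h
  refine ⟨n, ?_⟩
  have h5 : (2 * Real.pi * I : ℂ) ≠ 0 := Complex.two_pi_I_ne_zero
  have h6 : (2 * Real.pi * I : ℂ) * (x : ℂ) = (2 * Real.pi * I : ℂ) * n := by
    linear_combination hn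
  have h7 := mul_left_cancel₀ h5 h6
  exact_mod_cast h7

/-- a complete sum -/
lemma full {L : ℕ} {x : ℝ} (h : ∃ m : ℤ, x * L = m) :
    ∑ t ∈ range L, e (x * t) = L * dl x := by
  classical
  have h1 : ∀ t ∈ range L, e (x * t) = e x ^ t := fun t _ => e_nat _ _
  rw [sum_congr rfl h1]
  unfold dl
  split_ifs with hx
  · rw [e_of_int hx]
    simp
  · have h2 : e x ≠ 1 := fun h => hx (int_of_e h)
    rw [geom_sum_eq h2, ← e_nat, e_of_int h, sub_self, zero_div, mul_zero]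

lemma r_dvd (s : ℤ) (i : Fin 4) : (fam s i).r ∣ 8 := by
  fin_cases i
  · exact ⟨1, rfl⟩
  · exact ⟨2, rfl⟩
  · exact ⟨8, rfl⟩
  · exact ⟨8, rfl⟩

lemma r_pos (s : ℤ) (i : Fin 4) : 0 < (fam s i).r :=
  Nat.pos_of_dvd_of_pos (r_dvd s i) (by norm_num)

/-- sums over multiples -/
lemma sum_mul {F : ℕ → ℂ} {n T : ℕ} (hn : 0 < n) (hF : ∀ q, ¬ n ∣ q → F q = 0) :
    ∑ q ∈ range (n * T), F q = ∑ t ∈ range T, F (n * t) := by
  classical
  rw [← sum_image (f := F) (g := fun t => n * t) (s := range T)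
    (fun a _ b _ h => Nat.eq_of_mul_eq_mul_left hn h)]
  symm
  refine sum_subset ?_ ?_
  · intro q hq
    obtain ⟨t, ht, rfl⟩ := mem_image.1 hq
    rw [mem_range] at ht ⊢
    exact (Nat.mul_lt_mul_left hn).2 ht
  · intro q hq hq'
    apply hF
    rintro ⟨t, rfl⟩
    apply hq'
    rw [mem_range] at hq
    exact mem_image.2 ⟨t, mem_range.2 ((Nat.mul_lt_mul_left hn).1 hq), rfl⟩

lemma Pf_mul (s : ℤ) (i : Fin 4) (k g t : ℕ) :
    Pf s i k g ((fam s i).r * g * t) =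
      if (g * t) % 8 ∈ RR s i then js ((g * t : ℕ) : ℤ) k else 0 := by
  have hr := r_pos s i
  have h1 : (fam s i).r * g * t / (fam s i).r = g * t := by
    rw [mul_assoc]
    exact Nat.mul_div_cancel_left _ hr
  unfold Pf
  rw [h1]
  have h2 : (fam s i).r ∣ (fam s i).r * g * t := ⟨g * t, by ring⟩
  have h3 : g ∣ g * t := ⟨t, rfl⟩
  by_cases h : (g * t) % 8 ∈ RR s i
  · rw [if_pos ⟨h2, h, h3⟩, if_pos h]
  · rw [if_neg (fun h' => h h'.2.1), if_neg h]

lemma Pf_zero (s : ℤ) (i : Fin 4) (k g q : ℕ) (h : ¬ (fam s i).r * g ∣ q) :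
    Pf s i k g q = 0 := by
  unfold Pf
  rw [if_neg]
  rintro ⟨h1, -, h2⟩
  apply h
  obtain ⟨m, rfl⟩ := h1
  rw [Nat.mul_div_cancel_left _ (r_pos s i)] at h2
  exact Nat.mul_dvd_mul_left _ h2

lemma Pf_per' (s : ℤ) (i : Fin 4) (k g q n : ℕ) (hk : 0 < k) (hg : 1 ≤ g) :
    Pf s i k g (64 * k * g * n + q) = Pf s i k g q := by
  classical
  obtain ⟨u, hu⟩ := r_dvd s i
  have hr := r_pos s i
  set r := (fam s i).r with hrd
  have h0 : 64 * k * g * n + q = q + r * (8 * u * k * g * n) := by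
    calc 64 * k * g * n + q = 8 * 8 * k * g * n + q := by norm_num
      _ = 8 * (r * u) * k * g * n + q := by rw [← hu]
      _ = _ := by ring
  have h1 : r ∣ q + r * (8 * u * k * g * n) ↔ r ∣ q := by
    rw [Nat.dvd_add_left (Dvd.intro _ rfl)]
  have h2 : (q + r * (8 * u * k * g * n)) / r = q / r + 8 * u * k * g * n :=
    Nat.add_mul_div_left _ _ hr
  have h3 : (q / r + 8 * u * k * g * n) % 8 = (q / r) % 8 := by
    rw [show 8 * u * k * g * n = 8 * (u * k * g * n) by ring, Nat.add_mul_mod_self_left]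
  have h4 : g ∣ q / r + 8 * u * k * g * n ↔ g ∣ q / r := by
    rw [Nat.dvd_add_left]
    exact ⟨8 * u * k * n, by ring⟩
  have h5 : js ((q / r + 8 * u * k * g * n : ℕ) : ℤ) k = js ((q / r : ℕ) : ℤ) k := by
    have : NeZero k := ⟨hk.ne'⟩
    unfold js
    rw [jacobiSym.mod_left ((q / r + 8 * u * k * g * n : ℕ) : ℤ) k, jacobiSym.mod_left ((q / r : ℕ) : ℤ) k]
    have e1 : ((q / r + 8 * u * k * g * n : ℕ) : ℤ) % (k : ℤ) = ((q / r : ℕ) : ℤ) % (k : ℤ) := by
      rw [show ((q / r + 8 * u * k * g * n : ℕ) : ℤ) = ((q / r : ℕ) : ℤ) + (k : ℤ) * (8 * u * g * n) by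
        push_cast; ring, Int.add_mul_emod_self_left]
    rw [e1]
  unfold Pf
  rw [← hrd, h0]
  rw [h2, h3, h5]
  simp only [h1, h4]

/-- `js` as an exponential sum -/
lemma js_eq (k : ℕ) (hk : Odd k) (hsq : Squarefree k) (t : ℕ) :
    ((js (t : ℤ) k : ℝ) : ℂ) = ((√k : ℝ) : ℂ)⁻¹ * ∑ a ∈ range k, ((js (a : ℤ) k : ℝ) : ℂ) *
      ((1 - I) / 2 * e ((a : ℝ) / k * t) + (1 + I) / 2 * e (-((a : ℝ) / k) * t)) := by
  have hk0 : 0 < k := hk.pos
  have hs : (0 : ℝ) < √k := Real.sqrt_pos.2 (by exact_mod_cast hk0)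
  have hs' : ((√k : ℝ) : ℂ) ≠ 0 := by exact_mod_cast hs.ne'
  rw [eq_inv_mul_iff_mul_eq₀ hs']
  have h3 := Gk_sqf k hk hsq (t : ℤ)
  have h4 : ((√k : ℝ) : ℂ) * ((js (t : ℤ) k : ℝ) : ℂ) = ((Gk (t : ℤ) k : ℝ) : ℂ) := by
    rw [h3]
    push_cast
    ring
  rw [h4]
  unfold Gk
  push_cast
  refine sum_congr rfl fun r _ => ?_
  have h5 : (2 * Real.pi * (t : ℝ) * (r : ℝ) / (k : ℝ)) = 2 * Real.pi * ((t : ℝ) * r / k) := by ring
  rw [h5, cas_e]
  congr 3
  · congr 1; ring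
  · congr 1; ring

/-- the Fourier coefficients in closed form -/
lemma pc_formula (s : ℤ) (i : Fin 4) (k g : ℕ) (θ : ℚ) (hk : Odd k) (hsq : Squarefree k)
    (hg : 1 ≤ g) : ∃ c : ℕ → ℂ, (∀ h, ‖c h‖ ≤ 1) ∧
    pc s i k g θ = (((fam s i).r * g : ℕ) : ℂ)⁻¹ * (((js (g : ℤ) k : ℝ) : ℂ) * ((√k : ℝ) : ℂ)⁻¹) *
      ∑ h ∈ range 8, ∑ a ∈ range k, c h * ((js (a : ℤ) k : ℝ) : ℂ) *
        ((1 - I) / 2 * dl ((h : ℝ) / 8 + (a : ℝ) / k - θ * ((fam s i).r * g : ℕ)) +
          (1 + I) / 2 * dl ((h : ℝ) / 8 - (a : ℝ) / k - θ * ((fam s i).r * g : ℕ))) := by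
  classical
  have hk0 : 0 < k := hk.pos
  have hr := r_pos s i
  obtain ⟨u, hu⟩ := r_dvd s i
  set r := (fam s i).r with hrd
  have hu0 : 0 < u := Nat.pos_of_ne_zero (by rintro rfl; omega)
  set T := 8 * u * k * θ.den with hT
  have hd0 : 0 < θ.den := θ.den_pos
  have hT0 : 0 < T := by positivity
  obtain ⟨c, hc, hF⟩ := per8 (fun t => if (g * t) % 8 ∈ RR s i then (1 : ℂ) else 0) (fun t => by
      have : (g * (t + 8)) % 8 = (g * t) % 8 := by rw [mul_add]; omega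
      simp only [this]) (fun t => by
      split_ifs
      · simp
      · simp)
  refine ⟨c, hc, ?_⟩
  have e1 : 64 * k * g * θ.den = r * g * T := by
    rw [hT]
    calc 64 * k * g * θ.den = 8 * 8 * k * g * θ.den := by norm_num
      _ = (8 * (r * u)) * k * g * θ.den := by rw [← hu]
      _ = _ := by ring
  unfold pc
  rw [e1]
  have hrg : 0 < r * g := by positivity
  rw [sum_mul hrg (fun q hq => by rw [Pf_zero s i k g q hq]; simp)]
  have e2 : ∀ t ∈ range T, ((Pf s i k g (r * g * t) : ℝ) : ℂ) * e (-((θ : ℝ) * (r * g * t : ℕ))) =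
      ∑ h ∈ range 8, ∑ a ∈ range k, (((js (g : ℤ) k : ℝ) : ℂ) * ((√k : ℝ) : ℂ)⁻¹) *
        (c h * ((js (a : ℤ) k : ℝ) : ℂ) *
        ((1 - I) / 2 * e (((h : ℝ) / 8 + (a : ℝ) / k - θ * (r * g : ℕ)) * t) +
          (1 + I) / 2 * e (((h : ℝ) / 8 - (a : ℝ) / k - θ * (r * g : ℕ)) * t))) := by
    intro t _
    rw [Pf_mul]
    have e3 : (((if (g * t) % 8 ∈ RR s i then js ((g * t : ℕ) : ℤ) k else 0 : ℝ)) : ℂ) =
        ((js (g : ℤ) k : ℝ) : ℂ) * ((js (t : ℤ) k : ℝ) : ℂ) *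
          (if (g * t) % 8 ∈ RR s i then (1 : ℂ) else 0) := by
      have : js ((g * t : ℕ) : ℤ) k = js (g : ℤ) k * js (t : ℤ) k := by
        push_cast
        exact js_mul' _ _ _
      rw [this]
      split_ifs
      · push_cast; ring
      · simp
    have e4 := hF t
    rw [e3, e4, js_eq k hk hsq t]
    have e5 : ∀ h ∈ range 8, ∑ a ∈ range k, (((js (g : ℤ) k : ℝ) : ℂ) * ((√k : ℝ) : ℂ)⁻¹) *
        (c h * ((js (a : ℤ) k : ℝ) : ℂ) *
        ((1 - I) / 2 * e (((h : ℝ) / 8 + (a : ℝ) / k - θ * (r * g : ℕ)) * t) +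
          (1 + I) / 2 * e (((h : ℝ) / 8 - (a : ℝ) / k - θ * (r * g : ℕ)) * t))) =
        (((js (g : ℤ) k : ℝ) : ℂ) * ((√k : ℝ) : ℂ)⁻¹) * (c h * e ((h : ℝ) / 8 * t)) *
          e (-((θ : ℝ) * (r * g * t : ℕ))) * ∑ a ∈ range k, ((js (a : ℤ) k : ℝ) : ℂ) *
      ((1 - I) / 2 * e ((a : ℝ) / k * t) + (1 + I) / 2 * e (-((a : ℝ) / k) * t)) := by
      intro h _
      rw [Finset.mul_sum]
      refine sum_congr rfl fun a _ => ?_
      have f1 : e (((h : ℝ) / 8 + (a : ℝ) / k - θ * (r * g : ℕ)) * t) =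
          e ((h : ℝ) / 8 * t) * e (-((θ : ℝ) * (r * g * t : ℕ))) * e ((a : ℝ) / k * t) := by
        rw [← e_add, ← e_add]
        congr 1
        push_cast
        ring
      have f2 : e (((h : ℝ) / 8 - (a : ℝ) / k - θ * (r * g : ℕ)) * t) =
          e ((h : ℝ) / 8 * t) * e (-((θ : ℝ) * (r * g * t : ℕ))) * e (-((a : ℝ) / k) * t) := by
        rw [← e_add, ← e_add]
        congr 1
        push_cast
        ring
      rw [f1, f2]
      ring
    rw [sum_congr rfl e5, ← Finset.sum_mul, ← Finset.sum_mul, ← Finset.mul_sum]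
    ring
  rw [sum_congr rfl e2, sum_comm, Finset.mul_sum, Finset.mul_sum]
  refine sum_congr rfl fun h _ => ?_
  rw [sum_comm, Finset.mul_sum, Finset.mul_sum]
  refine sum_congr rfl fun a _ => ?_
  have hk' : (k : ℝ) ≠ 0 := by exact_mod_cast hk0.ne'
  have hθ : (θ : ℝ) * θ.den = θ.num := by
    have : (θ : ℚ) * θ.den = θ.num := Rat.mul_den_eq_num θ
    exact_mod_cast this
  have hur : (u : ℝ) * r = 8 := by
    have : (r : ℝ) * u = 8 := by exact_mod_cast hu.symm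
    linarith
  have g1 : ∃ m : ℤ, ((h : ℝ) / 8 + (a : ℝ) / k - θ * (r * g : ℕ)) * T = m := by
    refine ⟨h * u * k * θ.den + 8 * u * θ.den * a - 64 * k * g * θ.num, ?_⟩
    rw [hT]
    push_cast
    have f1 : (a : ℝ) / k * (8 * u * k * θ.den) = 8 * u * θ.den * a := by field_simp
    have f2 : (θ : ℝ) * (r * g) * (8 * u * k * θ.den) = 64 * k * g * θ.num := by
      rw [← hθ]
      linear_combination (8 * (θ : ℝ) * g * k * θ.den) * hur
    linear_combination f1 - f2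
  have g2 : ∃ m : ℤ, ((h : ℝ) / 8 - (a : ℝ) / k - θ * (r * g : ℕ)) * T = m := by
    refine ⟨h * u * k * θ.den - 8 * u * θ.den * a - 64 * k * g * θ.num, ?_⟩
    rw [hT]
    push_cast
    have f1 : (a : ℝ) / k * (8 * u * k * θ.den) = 8 * u * θ.den * a := by field_simp
    have f2 : (θ : ℝ) * (r * g) * (8 * u * k * θ.den) = 64 * k * g * θ.num := by
      rw [← hθ]
      linear_combination (8 * (θ : ℝ) * g * k * θ.den) * hur
    linear_combination -f1 - f2
  have g3 := full g1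
  have g4 := full g2
  rw [← Finset.mul_sum, ← Finset.mul_sum, sum_add_distrib, ← Finset.mul_sum, ← Finset.mul_sum,
    g3, g4]
  have hTc : (T : ℂ) ≠ 0 := by exact_mod_cast hT0.ne'
  have hrc : ((r * g : ℕ) : ℂ) ≠ 0 := by exact_mod_cast hrg.ne'
  rw [show ((r * g * T : ℕ) : ℂ) = ((r * g : ℕ) : ℂ) * (T : ℂ) by push_cast; ring, mul_inv]
  field_simp

lemma dl_pair {k : ℕ} (hk : Odd k) {x : ℝ} {h a h' a' : ℕ} (hh : h < 8) (hh' : h' < 8) (ha : a < k)
    (ha' : a' < k) (ε : ℤ) (hε : ε = 1 ∨ ε = -1)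
    (h1 : ∃ z : ℤ, (h : ℝ) / 8 + ε * ((a : ℝ) / k) - x = z)
    (h2 : ∃ z : ℤ, (h' : ℝ) / 8 + ε * ((a' : ℝ) / k) - x = z) : h = h' ∧ a = a' := by
  have hk0 : 0 < k := hk.pos
  have hk' : (k : ℝ) ≠ 0 := by exact_mod_cast hk0.ne'
  obtain ⟨z, hz⟩ := h1
  obtain ⟨z', hz'⟩ := h2
  have e1 : ((h : ℝ) - h') * k + 8 * ε * ((a : ℝ) - a') = 8 * k * (z - z') := by
    have e2 : ((h : ℝ) / 8 + ε * ((a : ℝ) / k) - x) - ((h' : ℝ) / 8 + ε * ((a' : ℝ) / k) - x) = z - z' := by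
      rw [hz, hz']
    field_simp at e2
    linear_combination e2
  have e3 : ((h : ℤ) - h') * k + 8 * ε * ((a : ℤ) - a') = 8 * k * (z - z') := by exact_mod_cast e1
  have e4 : (8 : ℤ) ∣ ((h : ℤ) - h') * k := ⟨k * (z - z') - ε * ((a : ℤ) - a'), by linear_combination e3⟩
  have e5 : IsCoprime (8 : ℤ) (k : ℤ) := by
    have : Nat.Coprime 8 k := by
      have : Nat.Coprime (2 ^ 3) k := Nat.Coprime.pow_left 3 (Nat.coprime_two_left.2 hk)
      simpa using this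
    exact_mod_cast this.isCoprime
  have e6 : (8 : ℤ) ∣ ((h : ℤ) - h') := e5.dvd_of_dvd_mul_right e4
  have e7 : h = h' := by omega
  subst e7
  refine ⟨rfl, ?_⟩
  have e8 : ε * ((a : ℤ) - a') = k * (z - z') := by
    have : 8 * (ε * ((a : ℤ) - a')) = 8 * (k * (z - z')) := by linear_combination e3
    linarith
  have e9 : (k : ℤ) ∣ (a : ℤ) - a' := by
    rcases hε with rfl | rfl
    · exact ⟨z - z', by linarith⟩
    · exact ⟨-(z - z'), by linarith⟩
  have e10 : (a : ℤ) - a' = 0 := by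
    apply Int.eq_zero_of_abs_lt_dvd e9
    rw [abs_lt]
    constructor <;> omega
  omega

lemma one_sum {k : ℕ} (hk : Odd k) (x : ℝ) (c : ℕ → ℂ) (hc : ∀ h, ‖c h‖ ≤ 1) (b : ℂ) (hb : ‖b‖ ≤ 1)
    (ε : ℤ) (hε : ε = 1 ∨ ε = -1) :
    ‖∑ h ∈ range 8, ∑ a ∈ range k, c h * ((js (a : ℤ) k : ℝ) : ℂ) *
      (b * dl ((h : ℝ) / 8 + ε * ((a : ℝ) / k) - x))‖ ≤ 1 := by
  classical
  rw [← sum_product']
  set G := (range 8 ×ˢ range k).filter (fun p : ℕ × ℕ => ∃ z : ℤ, (p.1 : ℝ) / 8 + ε * ((p.2 : ℝ) / k) - x = z)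
    with hG
  have hcard : G.card ≤ 1 := by
    rw [card_le_one]
    rintro ⟨h, a⟩ hp ⟨h', a'⟩ hp'
    rw [hG, mem_filter, mem_product, mem_range, mem_range] at hp hp'
    have := dl_pair hk hp.1.1 hp'.1.1 hp.1.2 hp'.1.2 ε hε hp.2 hp'.2
    exact Prod.ext this.1 this.2
  refine (norm_sum_le _ _).trans ?_
  calc _ ≤ ∑ p ∈ range 8 ×ˢ range k,
        (if (∃ z : ℤ, (p.1 : ℝ) / 8 + ε * ((p.2 : ℝ) / k) - x = z) then (1 : ℝ) else 0) := by
        refine sum_le_sum fun p _ => ?_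
        unfold dl
        split_ifs with h
        · rw [mul_one, norm_mul, norm_mul, Complex.norm_real, Real.norm_eq_abs]
          calc _ ≤ 1 * 1 * 1 := mul_le_mul (mul_le_mul (hc _) (js_le _ _) (abs_nonneg _) zero_le_one)
                hb (norm_nonneg _) (by norm_num)
            _ = 1 := by norm_num
        · simp
    _ = (G.card : ℝ) := by rw [hG, sum_boole]
    _ ≤ 1 := by exact_mod_cast hcard

/-- reduction to one period -/
lemma pc_red (s : ℤ) (i : Fin 4) (k g : ℕ) (θ : ℚ) (hk : 0 < k) (hg : 1 ≤ g) :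
    pc s i k g θ = dl ((θ : ℝ) * (64 * k * g : ℕ)) *
      (((64 * k * g : ℕ) : ℂ)⁻¹ * ∑ q ∈ range (64 * k * g), ((Pf s i k g q : ℝ) : ℂ) * e (-((θ : ℝ) * q))) := by
  classical
  set M := 64 * k * g with hM
  have hM0 : 0 < M := by positivity
  have hd0 : 0 < θ.den := θ.den_pos
  set F : ℕ → ℂ := fun q => ((Pf s i k g q : ℝ) : ℂ) * e (-((θ : ℝ) * q)) with hF
  have hθ : (θ : ℝ) * θ.den = θ.num := by
    have : (θ : ℚ) * θ.den = θ.num := Rat.mul_den_eq_num θ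
    exact_mod_cast this
  have h1 : ∀ n : ℕ, ∑ q ∈ range (M * n), F q = (∑ j ∈ range n, e (-((θ : ℝ) * M) * j)) * ∑ q ∈ range M, F q := by
    intro n
    induction n with
    | zero => simp
    | succ n ih =>
      rw [Nat.mul_succ, sum_range_add, ih, sum_range_succ, add_mul]
      congr 1
      rw [Finset.mul_sum]
      refine sum_congr rfl fun q _ => ?_
      rw [hF]
      simp only
      rw [Pf_per' s i k g q n hk hg]
      have : e (-((θ : ℝ) * (M * n + q : ℕ))) = e (-((θ : ℝ) * M) * n) * e (-((θ : ℝ) * q)) := by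
        rw [← e_add]
        congr 1
        push_cast
        ring
      rw [this]
      ring
  have h2 := full (L := θ.den) (x := -((θ : ℝ) * M)) ⟨-(θ.num * M), by
    push_cast
    rw [← hθ]
    ring⟩
  have h3 : dl (-((θ : ℝ) * M)) = dl ((θ : ℝ) * M) := by
    unfold dl
    congr 1
    apply propext
    constructor
    · rintro ⟨z, hz⟩
      exact ⟨-z, by push_cast; linarith⟩
    · rintro ⟨z, hz⟩
      exact ⟨-z, by push_cast; linarith⟩
  unfold pc
  rw [h1, h2, h3]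
  have hMc : (M : ℂ) ≠ 0 := by exact_mod_cast hM0.ne'
  have hdc : (θ.den : ℂ) ≠ 0 := by exact_mod_cast hd0.ne'
  have hMd : ((M * θ.den : ℕ) : ℂ) = (M : ℂ) * (θ.den : ℂ) := by push_cast; ring
  rw [hMd]
  field_simp

lemma mem_Fr {D : ℕ} {θ : ℚ} : θ ∈ Fr D ↔ 0 ≤ θ ∧ θ < 1 ∧ θ.den ≤ D := by
  unfold Fr fr
  rw [mem_image]
  constructor
  · rintro ⟨⟨p, q⟩, hp, rfl⟩
    simp only [mem_filter, mem_product, mem_Icc, mem_range] at hp
    obtain ⟨⟨⟨h1, h2⟩, h3⟩, h4, h5⟩ := hp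
    have hp0 : (0 : ℚ) < p := by exact_mod_cast h1
    refine ⟨by positivity, ?_, ?_⟩
    · rw [div_lt_one hp0]
      exact_mod_cast h4
    · have h9 := Rat.den_div_eq_of_coprime (a := (q : ℤ)) (b := (p : ℤ)) (by exact_mod_cast h1)
        (by simpa using h5)
      have h10 : (((q : ℤ) : ℚ) / ((p : ℤ) : ℚ)).den = p := by exact_mod_cast h9
      have h11 : ((q : ℚ) / (p : ℚ)).den = p := by simpa using h10
      simp only
      rw [h11]
      exact h2
  · rintro ⟨h1, h2, h3⟩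
    have hn : 0 ≤ θ.num := Rat.num_nonneg.2 h1
    have hlt : θ.num < θ.den := by
      have h4 := Rat.num_div_den θ
      have hd : (0 : ℚ) < θ.den := by exact_mod_cast θ.den_pos
      rw [← h4, div_lt_one hd] at h2
      exact_mod_cast h2
    refine ⟨(θ.den, θ.num.toNat), ?_, ?_⟩
    · simp only [mem_filter, mem_product, mem_Icc, mem_range]
      have hc : Nat.Coprime θ.num.toNat θ.den := by
        have := θ.reduced
        have e : θ.num.natAbs = θ.num.toNat := by omega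
        rwa [e] at this
      have hp := θ.den_pos
      refine ⟨⟨⟨hp, h3⟩, ?_⟩, ?_, hc⟩
      · omega
      · omega
    · simp only
      have : ((θ.num.toNat : ℕ) : ℚ) = θ.num := by
        have : ((θ.num.toNat : ℕ) : ℤ) = θ.num := Int.toNat_of_nonneg hn
        exact_mod_cast this
      rw [this]
      exact Rat.num_div_den θ

/-- sums over the frequencies -/
lemma Fr_sum {D M : ℕ} (hM0 : 0 < M) (hMD : M ≤ D) (G : ℚ → ℂ) :
    ∑ θ ∈ Fr D, dl ((θ : ℝ) * M) * G θ = ∑ a ∈ range M, G ((a : ℚ) / M) := by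
  classical
  have hMq : (0 : ℚ) < M := by exact_mod_cast hM0
  have hMr : (0 : ℝ) < M := by exact_mod_cast hM0
  rw [← sum_image (f := G) (g := fun a : ℕ => (a : ℚ) / M) (s := range M) (by
    intro a _ b _ h
    simp only at h
    have := (div_left_inj' hMq.ne').1 h
    exact_mod_cast this)]
  symm
  have hsub : (range M).image (fun a : ℕ => (a : ℚ) / M) ⊆ Fr D := by
    intro θ hθ
    obtain ⟨a, ha, rfl⟩ := mem_image.1 hθ
    rw [mem_range] at ha
    rw [mem_Fr]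
    refine ⟨by positivity, ?_, ?_⟩
    · rw [div_lt_one hMq]
      exact_mod_cast ha
    · refine le_trans ?_ hMD
      apply Nat.le_of_dvd hM0
      have : (((a : ℤ) : ℚ) / ((M : ℤ) : ℚ)).den = ((a : ℚ) / M).den := by push_cast; rfl
      rw [← this]
      exact_mod_cast Rat.den_dvd (a : ℤ) (M : ℤ)
  rw [← sum_subset hsub]
  · refine sum_congr rfl fun θ hθ => ?_
    obtain ⟨a, ha, rfl⟩ := mem_image.1 hθ
    have : dl (((((a : ℚ) / M : ℚ)) : ℝ) * M) = 1 := by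
      unfold dl
      rw [if_pos]
      refine ⟨a, ?_⟩
      push_cast
      field_simp
    rw [this, one_mul]
  · intro θ hθ hθ'
    have : dl ((θ : ℝ) * M) = 0 := by
      unfold dl
      rw [if_neg]
      rintro ⟨z, hz⟩
      apply hθ'
      obtain ⟨h1, h2, h3⟩ := mem_Fr.1 hθ
      have hz' : θ * M = z := by exact_mod_cast hz
      have hz0 : 0 ≤ z := by
        have : (0 : ℚ) ≤ z := by rw [← hz']; positivity
        exact_mod_cast this
      have hz1 : z < M := by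
        have : (z : ℚ) < M := by
          rw [← hz']
          calc θ * M < 1 * M := mul_lt_mul_of_pos_right h2 hMq
            _ = M := one_mul _
        exact_mod_cast this
      refine mem_image.2 ⟨z.toNat, mem_range.2 (by omega), ?_⟩
      have h5 : ((z.toNat : ℕ) : ℚ) = z := by
        have : ((z.toNat : ℕ) : ℤ) = z := Int.toNat_of_nonneg hz0
        exact_mod_cast this
      rw [h5, ← hz']
      field_simp
    rw [this, zero_mul]

end Four

theorem four_eq (s : ℤ) (hs : s = 1 ∨ s = -1) (i : Fin 4) (k g q D : ℕ) (hk : Odd k) (hsq : Squarefree k) (hg : 1 ≤ g)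
    (hD : 64 * k * g ≤ D) : ((Pf s i k g q : ℝ) : ℂ) = ∑ θ ∈ Fr D, pc s i k g θ * e ((θ : ℝ) * q) := by
  classical
  have hk0 : 0 < k := hk.pos
  set M := 64 * k * g with hM
  have hM0 : 0 < M := by positivity
  have hMr : (0 : ℝ) < M := by exact_mod_cast hM0
  have hMc : (M : ℂ) ≠ 0 := by exact_mod_cast hM0.ne'
  have h1 : ∑ θ ∈ Fr D, pc s i k g θ * e ((θ : ℝ) * q) =
      ∑ θ ∈ Fr D, Four.dl ((θ : ℝ) * M) * ((((M : ℕ) : ℂ)⁻¹ * ∑ x ∈ range M, ((Pf s i k g x : ℝ) : ℂ) *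
        e (-((θ : ℝ) * x))) * e ((θ : ℝ) * q)) := by
    refine sum_congr rfl fun θ _ => ?_
    rw [Four.pc_red s i k g θ hk0 hg]
    ring
  rw [h1, Four.Fr_sum hM0 hD]
  have h2 : ∀ a ∈ range M, ((((M : ℕ) : ℂ)⁻¹ * ∑ x ∈ range M, ((Pf s i k g x : ℝ) : ℂ) *
        e (-(((((a : ℚ) / M : ℚ)) : ℝ) * x))) * e (((((a : ℚ) / M : ℚ)) : ℝ) * q)) =
      ∑ x ∈ range M, (((M : ℕ) : ℂ)⁻¹ * ((Pf s i k g x : ℝ) : ℂ)) *
        e ((((q : ℤ) - x : ℤ) : ℝ) / M * a) := by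
    intro a _
    rw [Finset.mul_sum, Finset.sum_mul]
    refine sum_congr rfl fun x _ => ?_
    have : e ((((q : ℤ) - x : ℤ) : ℝ) / M * a) =
        e (-(((((a : ℚ) / M : ℚ)) : ℝ) * x)) * e (((((a : ℚ) / M : ℚ)) : ℝ) * q) := by
      rw [← e_add]
      congr 1
      push_cast
      ring
    rw [this]
    ring
  rw [sum_congr rfl h2, sum_comm]
  have h3 : ∀ x ∈ range M, ∑ a ∈ range M, (((M : ℕ) : ℂ)⁻¹ * ((Pf s i k g x : ℝ) : ℂ)) *
        e ((((q : ℤ) - x : ℤ) : ℝ) / M * a) = ((Pf s i k g x : ℝ) : ℂ) * Four.dl ((((q : ℤ) - x : ℤ) : ℝ) / M) := by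
    intro x _
    rw [← Finset.mul_sum, Four.full ⟨(q : ℤ) - x, by field_simp⟩]
    field_simp
  rw [sum_congr rfl h3, sum_eq_single (q % M)]
  · have e1 : Four.dl ((((q : ℤ) - (q % M : ℕ) : ℤ) : ℝ) / M) = 1 := by
      unfold Four.dl
      rw [if_pos]
      refine ⟨(q / M : ℕ), ?_⟩
      rw [div_eq_iff hMr.ne']
      have : (q : ℤ) - (q % M : ℕ) = (q / M : ℕ) * M := by
        have := Nat.mod_add_div q M
        push_cast
        have h5 : (q : ℤ) = (q % M : ℕ) + M * (q / M : ℕ) := by exact_mod_cast this.symm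
        push_cast at h5
        linarith
      exact_mod_cast this
    rw [e1, mul_one]
    have e2 := Four.Pf_per' s i k g (q % M) (q / M) hk0 hg
    have e3 : 64 * k * g * (q / M) + q % M = q := by rw [← hM]; exact Nat.div_add_mod q M
    rw [e3] at e2
    rw [e2]
  · intro x hx hne
    have e1 : Four.dl ((((q : ℤ) - x : ℤ) : ℝ) / M) = 0 := by
      unfold Four.dl
      rw [if_neg]
      rintro ⟨z, hz⟩
      rw [div_eq_iff hMr.ne'] at hz
      have h5 : (q : ℤ) - x = z * M := by exact_mod_cast hz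
      apply hne
      rw [mem_range] at hx
      have h6 : (q : ℤ) % M = x := by
        rw [show (q : ℤ) = x + M * z by linarith, Int.add_mul_emod_self_left]
        exact Int.emod_eq_of_lt (by omega) (by omega)
      exact_mod_cast h6.symm
    rw [e1, mul_zero]
  · intro h
    exact absurd (mem_range.2 (Nat.mod_lt _ hM0)) h

theorem pc_bound (s : ℤ) (hs : s = 1 ∨ s = -1) (i : Fin 4) (k g : ℕ) (θ : ℚ) (hk : Odd k) (hsq : Squarefree k) (hg : 1 ≤ g) :
    ‖pc s i k g θ‖ ≤ 8 / (g * √k) := by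
  obtain ⟨c, hc, hf⟩ := Four.pc_formula s i k g θ hk hsq hg
  have hk0 : 0 < k := hk.pos
  have hr := Four.r_pos s i
  have hsk : (0 : ℝ) < √k := Real.sqrt_pos.2 (by exact_mod_cast hk0)
  have hg0 : (0 : ℝ) < g := by exact_mod_cast hg
  rw [hf]
  have h1 : ∑ h ∈ range 8, ∑ a ∈ range k, c h * ((js (a : ℤ) k : ℝ) : ℂ) *
        ((1 - I) / 2 * Four.dl ((h : ℝ) / 8 + (a : ℝ) / k - θ * ((fam s i).r * g : ℕ)) +
          (1 + I) / 2 * Four.dl ((h : ℝ) / 8 - (a : ℝ) / k - θ * ((fam s i).r * g : ℕ))) =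
      ∑ h ∈ range 8, ∑ a ∈ range k, c h * ((js (a : ℤ) k : ℝ) : ℂ) *
        ((1 - I) / 2 * Four.dl ((h : ℝ) / 8 + (1 : ℤ) * ((a : ℝ) / k) - θ * ((fam s i).r * g : ℕ))) +
      ∑ h ∈ range 8, ∑ a ∈ range k, c h * ((js (a : ℤ) k : ℝ) : ℂ) *
        ((1 + I) / 2 * Four.dl ((h : ℝ) / 8 + (-1 : ℤ) * ((a : ℝ) / k) - θ * ((fam s i).r * g : ℕ))) := by
    rw [← sum_add_distrib]
    refine sum_congr rfl fun h _ => ?_
    rw [← sum_add_distrib]
    refine sum_congr rfl fun a _ => ?_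
    have f1 : (h : ℝ) / 8 + ((1 : ℤ) : ℝ) * ((a : ℝ) / k) - θ * ((fam s i).r * g : ℕ) =
      (h : ℝ) / 8 + (a : ℝ) / k - θ * ((fam s i).r * g : ℕ) := by push_cast; ring
    have f2 : (h : ℝ) / 8 + ((-1 : ℤ) : ℝ) * ((a : ℝ) / k) - θ * ((fam s i).r * g : ℕ) =
      (h : ℝ) / 8 - (a : ℝ) / k - θ * ((fam s i).r * g : ℕ) := by push_cast; ring
    rw [f1, f2]
    ring
  have h2 := Four.one_sum hk (θ * ((fam s i).r * g : ℕ)) c hc _ half_norm.1 1 (Or.inl rfl)
  have h3 := Four.one_sum hk (θ * ((fam s i).r * g : ℕ)) c hc _ half_norm.2 (-1) (Or.inr rfl)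
  rw [h1, norm_mul, norm_mul, norm_mul, norm_inv, norm_inv, Complex.norm_natCast, Complex.norm_real,
    Complex.norm_real, Real.norm_eq_abs, Real.norm_eq_abs, abs_of_pos hsk]
  have h4 := (norm_add_le _ _).trans (add_le_add h2 h3)
  have hrr : (1 : ℝ) ≤ (fam s i).r := by exact_mod_cast hr
  have h5 : ((((fam s i).r * g : ℕ) : ℝ))⁻¹ ≤ (g : ℝ)⁻¹ := by
    apply inv_anti₀ hg0
    push_cast
    nlinarith
  have h6 : |js (g : ℤ) k| * (√k)⁻¹ ≤ (√k)⁻¹ := by
    have := js_le (g : ℤ) k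
    have h7 : 0 < (√k)⁻¹ := by positivity
    nlinarith
  calc _ ≤ (g : ℝ)⁻¹ * (√k)⁻¹ * (1 + 1) := by
        refine mul_le_mul (mul_le_mul h5 h6 (by positivity) (by positivity)) h4 (norm_nonneg _) (by positivity)
    _ ≤ (g : ℝ)⁻¹ * (√k)⁻¹ * 8 := by
        have : 0 ≤ (g : ℝ)⁻¹ * (√k)⁻¹ := by positivity
        nlinarith
    _ = 8 / (g * √k) := by field_simp

theorem pc_kap (s : ℤ) (hs : s = 1 ∨ s = -1) (i : Fin 4) (k g : ℕ) (θ : ℚ) (hk : Odd k) (hsq : Squarefree k) (hg : 1 ≤ g)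
    (h : pc s i k g θ ≠ 0) : k = kap s i g θ := by
  classical
  obtain ⟨c, hc, hf⟩ := Four.pc_formula s i k g θ hk hsq hg
  have hk0 : 0 < k := hk.pos
  rw [hf] at h
  have h1 := right_ne_zero_of_mul h
  obtain ⟨j, hj, h2⟩ := exists_ne_zero_of_sum_ne_zero h1
  obtain ⟨a, ha, h3⟩ := exists_ne_zero_of_sum_ne_zero h2
  have h4 : js (a : ℤ) k ≠ 0 := by
    intro h0
    apply h3
    rw [h0]
    simp
  have h5 : Nat.Coprime a k := by
    by_contra hcop
    apply h4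
    apply js_cop hk0.ne'
    rw [Int.gcd_natCast_natCast]
    exact hcop
  have h6 : ∃ (ε : ℤ) (z : ℤ), (ε = 1 ∨ ε = -1) ∧
      (j : ℝ) / 8 + ε * ((a : ℝ) / k) - θ * ((fam s i).r * g : ℕ) = z := by
    by_contra hno
    push Not at hno
    apply h3
    have f1 : Four.dl ((j : ℝ) / 8 + (a : ℝ) / k - θ * ((fam s i).r * g : ℕ)) = 0 := by
      unfold Four.dl
      rw [if_neg]
      rintro ⟨z, hz⟩
      refine hno 1 z (Or.inl rfl) ?_
      rw [← hz]
      push_cast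
      ring
    have f2 : Four.dl ((j : ℝ) / 8 - (a : ℝ) / k - θ * ((fam s i).r * g : ℕ)) = 0 := by
      unfold Four.dl
      rw [if_neg]
      rintro ⟨z, hz⟩
      refine hno (-1) z (Or.inr rfl) ?_
      rw [← hz]
      push_cast
      ring
    rw [f1, f2]
    ring
  obtain ⟨ε, z, hε, hz⟩ := h6
  have hk' : (k : ℝ) ≠ 0 := by exact_mod_cast hk0.ne'
  have hkq : (k : ℚ) ≠ 0 := by exact_mod_cast hk0.ne'
  -- `8 r g θ = (8 ε a + (j - 8 z) k) / k`
  have h7 : ((8 * (fam s i).r * g : ℕ) * θ : ℚ) = ((8 * ε * a + (j - 8 * z) * k : ℤ) : ℚ) / (k : ℚ) := by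
    have f1 : ((8 * (fam s i).r * g : ℕ) * (θ : ℝ)) = ((8 * ε * a + (j - 8 * z) * k : ℤ) : ℝ) / (k : ℝ) := by
      push_cast
      push_cast at hz
      rw [eq_div_iff hk']
      have f2 : (ε : ℝ) * ((a : ℝ) / k) * k = ε * a := by field_simp
      linear_combination (-8 * (k : ℝ)) * hz + 8 * f2
    exact_mod_cast f1
  unfold kap
  rw [h7]
  have h8 : Nat.Coprime (8 * ε * a + (j - 8 * z) * k : ℤ).natAbs k := by
    have g1 : IsCoprime (8 * ε * a + (j - 8 * z) * k : ℤ) (k : ℤ) := by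
      rw [IsCoprime.add_mul_right_left_iff]
      refine IsCoprime.mul_left (IsCoprime.mul_left ?_ ?_) ?_
      · have : Nat.Coprime 8 k := by
          have : Nat.Coprime (2 ^ 3) k := Nat.Coprime.pow_left 3 (Nat.coprime_two_left.2 hk)
          simpa using this
        exact_mod_cast this.isCoprime
      · rcases hε with rfl | rfl
        · exact isCoprime_one_left
        · exact isCoprime_one_left.neg_left
      · exact_mod_cast h5.isCoprime
    have g2 := Int.isCoprime_iff_gcd_eq_one.1 g1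
    rw [Int.gcd] at g2
    simpa using g2
  have h9 := Rat.den_div_eq_of_coprime (a := (8 * ε * a + (j - 8 * z) * k : ℤ)) (b := (k : ℤ))
    (by exact_mod_cast hk0) (by simpa using h8)
  have h10 : (((8 * ε * a + (j - 8 * z) * k : ℤ) : ℚ) / (k : ℚ)).den = k := by
    have : ((((8 * ε * a + (j - 8 * z) * k : ℤ) : ℚ) / ((k : ℤ) : ℚ)).den : ℤ) = k := h9
    have h11 : (((8 * ε * a + (j - 8 * z) * k : ℤ) : ℚ) / ((k : ℤ) : ℚ)).den = k := by exact_mod_cast this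
    simpa using h11
  exact h10.symm

end

end Pool.Agent.J4.H39.CM
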