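import Pool.Agent.J4.H39.CM.CoefA
import Pool.Agent.J4.H39.CM.Four

set_option autoImplicit false

/-!
Project CM (helper39), piece COEF: the size of the coefficients of the singular series (`kap_mul` is in
`CoefA.lean`).
-/

namespace Pool.Agent.J4.H39.CM

open Complex Finset
open Pool.Agent.N879.QM
open Pool.Agent.N879.QM.Avg (fam DF)
open Pool.Agent.H306R2.RZ (js)
open Pool.Agent.Y293.SF (mu)

noncomputable section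

theorem coef_bd (s : ℤ) (hs : s = 1 ∨ s = -1) (B : Fin 4 → ℝ) (ε : ℝ) (hε : 0 < ε) : ∃ C : ℝ, 0 < C ∧ ∀ (i : Fin 4) (θ : ℚ),
    Summable (fun p => ‖tm s i (w1 s i) θ p‖) ∧ Summable (fun p => ‖tm s i (w0 s B i) θ p‖) ∧
    ∑' p, ‖tm s i (w1 s i) θ p‖ + ∑' p, ‖tm s i (w0 s B i) θ p‖ ≤ C * (θ.den : ℝ) ^ (-1 + ε) :=
  CO.coef_bd_of s (pc_bound s hs) B ε hε

theorem coef_tail (s : ℤ) (hs : s = 1 ∨ s = -1) (B : Fin 4 → ℝ) : ∃ C : ℝ, 0 < C ∧ ∀ (θ : ℚ) (Y Z : ℕ), 1 ≤ Z → θ.den ≤ Y →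
    ‖c1 s θ - c1t s Y Z θ‖ + ‖c0 s B θ - c0t s B Y Z θ‖ ≤ C * θ.den * (Z : ℝ) ^ (-(1 / 8 : ℝ)) :=
  CO.coef_tail_of s (pc_bound s hs) B

theorem coef_t (s : ℤ) (hs : s = 1 ∨ s = -1) (B : Fin 4 → ℝ) (ε : ℝ) (hε : 0 < ε) : ∃ C : ℝ, 0 < C ∧ ∀ (θ : ℚ) (Y Z : ℕ),
    ‖c1t s Y Z θ‖ + ‖c0t s B Y Z θ‖ ≤ C * (θ.den : ℝ) ^ (-1 + ε) :=
  CO.coef_t_of s (pc_bound s hs) B ε hε

end

end Pool.Agent.J4.H39.CM
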