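import Pool.Agent.J4.H39.CM.Def2

set_option autoImplicit false

/-!
Project CM (helper39), piece L2G: the mean square of a trigonometric polynomial with slowly varying
coefficients at well spaced frequencies.
-/

namespace Pool.Agent.J4.H39.CM

open Complex Finset

noncomputable section

namespace L2g

/-- different rationals in `[0,1)` with small denominators are well spaced modulo `1` -/
lemma sep {W : ℕ} (hW : 1 ≤ W) {θ θ' : ℚ} (h : 0 ≤ θ ∧ θ < 1 ∧ θ.den ≤ W)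
    (h' : 0 ≤ θ' ∧ θ' < 1 ∧ θ'.den ≤ W) (hne : θ ≠ θ') (z : ℤ) :
    1 / (W : ℝ) ^ 2 ≤ |(θ : ℝ) - θ' - z| := by
  have hd : (0 : ℚ) < θ.den := by exact_mod_cast θ.den_pos
  have hd' : (0 : ℚ) < θ'.den := by exact_mod_cast θ'.den_pos
  have key : (θ - θ' - z) * (θ.den * θ'.den) =
      ((θ.num * θ'.den - θ'.num * θ.den - z * (θ.den * θ'.den) : ℤ) : ℚ) := by
    push_cast
    rw [← Rat.mul_den_eq_num θ, ← Rat.mul_den_eq_num θ']
    ring
  have hr : θ - θ' - z ≠ 0 := by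
    intro h0
    have h1 : θ - θ' = z := by linarith
    have h2 : (-1 : ℚ) < z := by rw [← h1]; linarith [h.1, h'.2.1]
    have h3 : (z : ℚ) < 1 := by rw [← h1]; linarith [h.2.1, h'.1]
    have h4 : -1 < z := by exact_mod_cast h2
    have h5 : z < 1 := by exact_mod_cast h3
    have h6 : z = 0 := by omega
    rw [h6, Int.cast_zero] at h1
    exact hne (sub_eq_zero.1 h1)
  have h1 : (1 : ℚ) ≤ |θ - θ' - z| * (θ.den * θ'.den) := by
    have h2 : |θ - θ' - z| * (θ.den * θ'.den) = |(θ - θ' - z) * (θ.den * θ'.den)| := by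
      rw [abs_mul, abs_of_pos (mul_pos hd hd')]
    rw [h2, key]
    have h3 : (θ.num * θ'.den - θ'.num * θ.den - z * (θ.den * θ'.den) : ℤ) ≠ 0 := by
      intro h4
      rw [h4, Int.cast_zero] at key
      rcases mul_eq_zero.1 key with h5 | h5
      · exact hr h5
      · exact (mul_pos hd hd').ne' h5
    exact_mod_cast Int.one_le_abs h3
  have h2 : (θ.den * θ'.den : ℚ) ≤ (W : ℚ) ^ 2 := by
    have h3 : (θ.den : ℚ) ≤ W := by exact_mod_cast h.2.2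
    have h4 : (θ'.den : ℚ) ≤ W := by exact_mod_cast h'.2.2
    rw [pow_two]
    exact mul_le_mul h3 h4 hd'.le (hd.le.trans h3)
  have h3 : (1 : ℚ) ≤ |θ - θ' - z| * (W : ℚ) ^ 2 :=
    h1.trans (mul_le_mul_of_nonneg_left h2 (abs_nonneg _))
  have h4 : (1 : ℝ) ≤ |(θ : ℝ) - θ' - z| * (W : ℝ) ^ 2 := by exact_mod_cast h3
  have hW0 : (0 : ℝ) < (W : ℝ) ^ 2 := by
    have : (0 : ℝ) < W := by exact_mod_cast hW
    positivity
  rw [div_le_iff₀ hW0]
  exact h4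

lemma e_z : e 0 = 1 := by
  unfold e
  rw [Complex.ofReal_zero, mul_zero, zero_mul, Complex.exp_zero]

/-- the weight `(log min(t, N))^j` -/
def wl (N j t : ℕ) : ℝ := Real.log ((min t N : ℕ) : ℝ) ^ j

lemma log_mono {m n : ℕ} (h : m ≤ n) : Real.log (m : ℝ) ≤ Real.log (n : ℝ) := by
  rcases Nat.eq_zero_or_pos m with h0 | h0
  · rw [h0, Nat.cast_zero, Real.log_zero]
    exact Real.log_natCast_nonneg n
  · exact Real.log_le_log (by exact_mod_cast h0) (by exact_mod_cast h)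

lemma wl_mono (N j : ℕ) : Monotone (wl N j) := fun _ _ h =>
  pow_le_pow_left₀ (Real.log_natCast_nonneg _) (log_mono (min_le_min_right N h)) j

lemma wl_nonneg (N j t : ℕ) : 0 ≤ wl N j t := pow_nonneg (Real.log_natCast_nonneg _) j

lemma wl_le (N j t : ℕ) (hj : j ≤ 2) : wl N j t ≤ (1 + Real.log N) ^ 2 := by
  have h0 := Real.log_natCast_nonneg N
  have h1 : wl N j t ≤ (1 + Real.log N) ^ j := by
    unfold wl
    exact pow_le_pow_left₀ (Real.log_natCast_nonneg _)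
      ((log_mono (min_le_right t N)).trans (by linarith)) j
  exact h1.trans (pow_le_pow_right₀ (by linarith) hj)

/-- the sums `∑_{1 ≤ q ≤ N} (log q)^j e(βq)` -/
def Sj (N j : ℕ) (β : ℝ) : ℂ :=
  ∑ q ∈ range (N + 1), if q = 0 then 0 else ((Real.log q : ℝ) : ℂ) ^ j * e (β * q)

lemma Sj_le (N j W : ℕ) (hj : j ≤ 2) (hW : 1 ≤ W) (β : ℝ)
    (hβ : ∀ z : ℤ, 1 / (W : ℝ) ^ 2 ≤ |β - z|) :
    ‖Sj N j β‖ ≤ 6 * (W : ℝ) ^ 2 * (1 + Real.log N) ^ 2 := by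
  have hW1 : (1 : ℝ) ≤ W := by exact_mod_cast hW
  have hW0 : (0 : ℝ) < (W : ℝ) ^ 2 := by positivity
  have hW2 : (1 : ℝ) ≤ (W : ℝ) ^ 2 := one_le_pow₀ hW1
  have hn : 1 / (W : ℝ) ^ 2 ≤ ni β := hβ (round β)
  have h1 : Sj N j β = ∑ q ∈ range (N + 1), (wl N j q : ℂ) * (if q = 0 then 0 else e (β * q)) := by
    unfold Sj
    refine sum_congr rfl fun q hq => ?_
    rw [mem_range] at hq
    split_ifs with h0
    · rw [mul_zero]
    · unfold wl
      rw [min_eq_left (by omega)]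
      push_cast
      rfl
  rw [h1]
  refine (mono_abel _ (wl N j) ((1 + Real.log N) ^ 2) (3 * (W : ℝ) ^ 2) (N + 1) (wl_mono N j)
    (wl_nonneg N j) (fun t => wl_le N j t hj) fun n _ => ?_).trans_eq (by ring)
  have h2 : ∑ t ∈ range n, (if t = 0 then (0 : ℂ) else e (β * t)) =
      ∑ t ∈ range n, e (β * t) - ∑ t ∈ range n, (if t = 0 then (1 : ℂ) else 0) := by
    rw [← sum_sub_distrib]
    refine sum_congr rfl fun t _ => ?_
    split_ifs with h0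
    · rw [h0, Nat.cast_zero, mul_zero, e_z, sub_self]
    · rw [sub_zero]
  rw [h2]
  have h3 : ‖∑ t ∈ range n, (if t = 0 then (1 : ℂ) else 0)‖ ≤ 1 := by
    rw [Finset.sum_ite_eq' (range n) 0 fun _ => (1 : ℂ)]
    split_ifs <;> simp
  have h4 : ‖∑ t ∈ range n, e (β * t)‖ ≤ 2 * (W : ℝ) ^ 2 := by
    refine (geom β n n le_rfl).trans ?_
    refine (kb_le_inv (Nat.cast_nonneg n) (by positivity) hn).trans_eq ?_
    field_simp
  calc _ ≤ ‖∑ t ∈ range n, e (β * t)‖ + ‖∑ t ∈ range n, (if t = 0 then (1 : ℂ) else 0)‖ :=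
        norm_sub_le _ _
    _ ≤ 3 * (W : ℝ) ^ 2 := by linarith

end L2g

open L2g in
theorem l2g : ∃ C : ℝ, 0 < C ∧ ∀ (S : Finset ℚ) (W N : ℕ) (a b : ℚ → ℂ) (K K2 : ℝ), 1 ≤ N → 1 ≤ W →
    (∀ θ ∈ S, 0 ≤ θ ∧ θ < 1 ∧ θ.den ≤ W) → ∑ θ ∈ S, (‖a θ‖ + ‖b θ‖) ≤ K → ∑ θ ∈ S, (‖a θ‖ + ‖b θ‖) ^ 2 ≤ K2 →
    ∑ q ∈ range (N + 1), ‖Gm S a b q‖ ^ 2 ≤ C * (1 + Real.log N) ^ 2 * (N * K2 + (W : ℝ) ^ 2 * K ^ 2) := by
  refine ⟨6, by norm_num, fun S W N a b K K2 hN hW hS hK hK2 => ?_⟩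
  have hL0 := Real.log_natCast_nonneg N
  obtain ⟨A, hA⟩ : ∃ A : ℚ → ℝ, A = fun θ => ‖a θ‖ + ‖b θ‖ := ⟨_, rfl⟩
  have hA0 : ∀ θ, 0 ≤ A θ := fun θ => by
    rw [hA]
    positivity
  have hK' : ∑ θ ∈ S, A θ ≤ K := by
    rw [hA]
    exact hK
  have hK2' : ∑ θ ∈ S, A θ ^ 2 ≤ K2 := by
    rw [hA]
    exact hK2
  obtain ⟨P, hP⟩ : ∃ P : ℝ, P = (1 + Real.log N) ^ 2 := ⟨_, rfl⟩
  have hP0 : 0 ≤ P := by
    rw [hP]
    positivity
  rw [← hP]
  -- the terms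
  obtain ⟨tr, htr⟩ : ∃ tr : ℚ → ℚ → ℕ → ℂ, tr = fun θ θ' (q : ℕ) => if q = 0 then 0 else
    ((a θ * Real.log q + b θ) * ((starRingEnd ℂ) (a θ') * Real.log q + (starRingEnd ℂ) (b θ'))) *
      e (((θ : ℝ) - θ') * q) := ⟨_, rfl⟩
  have hconj : ∀ x : ℝ, (starRingEnd ℂ) (e x) = e (-x) := by
    intro x
    unfold e
    rw [← Complex.exp_conj]
    congr 1
    simp only [map_mul, Complex.conj_ofReal, Complex.conj_I, Complex.conj_ofNat]
    push_cast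
    ring
  have hsq : ∀ q : ℕ, ((‖Gm S a b q‖ ^ 2 : ℝ) : ℂ) = ∑ θ ∈ S, ∑ θ' ∈ S, tr θ θ' q := by
    intro q
    have h1 : ((‖Gm S a b q‖ ^ 2 : ℝ) : ℂ) = Gm S a b q * (starRingEnd ℂ) (Gm S a b q) := by
      rw [Complex.mul_conj, Complex.normSq_eq_norm_sq]
    rw [h1, htr]
    unfold Gm
    split_ifs with h0
    · simp only [h0, if_true, sum_const_zero, zero_mul]
    · simp only [h0, if_false]
      rw [map_sum, Finset.sum_mul_sum]
      refine sum_congr rfl fun θ _ => sum_congr rfl fun θ' _ => ?_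
      have h2 : e (((θ : ℝ) - θ') * q) = e ((θ : ℝ) * q) * e (-((θ' : ℝ) * q)) := by
        rw [← e_add]
        congr 1
        ring
      rw [map_mul, map_add, map_mul, hconj, Complex.conj_ofReal, h2]
      ring
  have hsum : ((∑ q ∈ range (N + 1), ‖Gm S a b q‖ ^ 2 : ℝ) : ℂ) =
      ∑ θ ∈ S, ∑ θ' ∈ S, ∑ q ∈ range (N + 1), tr θ θ' q := by
    rw [Complex.ofReal_sum, sum_congr rfl fun q _ => hsq q, sum_comm]
    refine sum_congr rfl fun θ _ => ?_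
    rw [sum_comm]
  have hoff : ∀ θ ∈ S, ∀ θ' ∈ S, θ ≠ θ' →
      ‖∑ q ∈ range (N + 1), tr θ θ' q‖ ≤ 6 * (W : ℝ) ^ 2 * P * (A θ * A θ') := by
    intro θ hθ θ' hθ' hne
    have hβ := sep hW (hS θ hθ) (hS θ' hθ') hne
    have h1 : ∑ q ∈ range (N + 1), tr θ θ' q =
        a θ * (starRingEnd ℂ) (a θ') * Sj N 2 ((θ : ℝ) - θ') +
        (a θ * (starRingEnd ℂ) (b θ') + b θ * (starRingEnd ℂ) (a θ')) * Sj N 1 ((θ : ℝ) - θ') +
        b θ * (starRingEnd ℂ) (b θ') * Sj N 0 ((θ : ℝ) - θ') := by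
      unfold Sj
      rw [mul_sum, mul_sum, mul_sum, ← sum_add_distrib, ← sum_add_distrib, htr]
      refine sum_congr rfl fun q _ => ?_
      dsimp only
      split_ifs with h0
      · ring
      · ring
    rw [h1]
    have s0 := Sj_le N 0 W (by norm_num) hW _ hβ
    have s1 := Sj_le N 1 W (by norm_num) hW _ hβ
    have s2 := Sj_le N 2 W (by norm_num) hW _ hβ
    rw [← hP] at s0 s1 s2
    have t2 : ‖a θ * (starRingEnd ℂ) (a θ') * Sj N 2 ((θ : ℝ) - θ')‖ ≤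
        ‖a θ‖ * ‖a θ'‖ * (6 * (W : ℝ) ^ 2 * P) := by
      rw [norm_mul, norm_mul, RCLike.norm_conj]
      exact mul_le_mul_of_nonneg_left s2 (by positivity)
    have t1 : ‖(a θ * (starRingEnd ℂ) (b θ') + b θ * (starRingEnd ℂ) (a θ')) *
        Sj N 1 ((θ : ℝ) - θ')‖ ≤ (‖a θ‖ * ‖b θ'‖ + ‖b θ‖ * ‖a θ'‖) * (6 * (W : ℝ) ^ 2 * P) := by
      rw [norm_mul]
      refine mul_le_mul ?_ s1 (norm_nonneg _) (by positivity)
      refine (norm_add_le _ _).trans_eq ?_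
      rw [norm_mul, norm_mul, RCLike.norm_conj, RCLike.norm_conj]
    have t0 : ‖b θ * (starRingEnd ℂ) (b θ') * Sj N 0 ((θ : ℝ) - θ')‖ ≤
        ‖b θ‖ * ‖b θ'‖ * (6 * (W : ℝ) ^ 2 * P) := by
      rw [norm_mul, norm_mul, RCLike.norm_conj]
      exact mul_le_mul_of_nonneg_left s0 (by positivity)
    refine (norm_add₃_le).trans ((add_le_add (add_le_add t2 t1) t0).trans_eq ?_)
    rw [hA]
    ring
  have hdiag : ∀ θ ∈ S, ‖∑ q ∈ range (N + 1), tr θ θ q‖ ≤ N * P * A θ ^ 2 := by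
    intro θ _
    rw [sum_range_succ']
    have h0 : tr θ θ 0 = 0 := by
      rw [htr]
      exact if_pos rfl
    rw [h0, add_zero]
    refine (norm_sum_le _ _).trans ?_
    refine (sum_le_card_nsmul _ _ (P * A θ ^ 2) fun q hq => ?_).trans_eq ?_
    · rw [mem_range] at hq
      rw [htr]
      dsimp only
      rw [if_neg (Nat.succ_ne_zero q), norm_mul, e_norm, mul_one, norm_mul]
      have hl : Real.log ((q + 1 : ℕ) : ℝ) ≤ 1 + Real.log N :=
        (log_mono (by omega : q + 1 ≤ N)).trans (by linarith)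
      have hl0 := Real.log_natCast_nonneg (q + 1)
      have hx : ∀ u v : ℂ, ‖u * ((Real.log ((q + 1 : ℕ) : ℝ) : ℝ) : ℂ) + v‖ ≤
          (1 + Real.log N) * (‖u‖ + ‖v‖) := by
        intro u v
        refine (norm_add_le _ _).trans ?_
        rw [norm_mul, Complex.norm_real, Real.norm_eq_abs, abs_of_nonneg hl0]
        have h1 : ‖u‖ * Real.log ((q + 1 : ℕ) : ℝ) ≤ ‖u‖ * (1 + Real.log N) :=
          mul_le_mul_of_nonneg_left hl (norm_nonneg _)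
        have h2 : ‖v‖ ≤ (1 + Real.log N) * ‖v‖ :=
          le_mul_of_one_le_left (norm_nonneg _) (by linarith)
        linarith
      have h1 := hx (a θ) (b θ)
      have h2 := hx ((starRingEnd ℂ) (a θ)) ((starRingEnd ℂ) (b θ))
      rw [RCLike.norm_conj, RCLike.norm_conj] at h2
      refine (mul_le_mul h1 h2 (norm_nonneg _) (by positivity)).trans_eq ?_
      rw [hP, hA]
      ring
    · rw [card_range, nsmul_eq_mul]
      ring
  have hfin : ∑ q ∈ range (N + 1), ‖Gm S a b q‖ ^ 2 ≤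
      ∑ θ ∈ S, ∑ θ' ∈ S, ((if θ = θ' then N * P * A θ ^ 2 else 0) +
        6 * (W : ℝ) ^ 2 * P * (A θ * A θ')) := by
    have h1 : ∑ q ∈ range (N + 1), ‖Gm S a b q‖ ^ 2 =
        ‖((∑ q ∈ range (N + 1), ‖Gm S a b q‖ ^ 2 : ℝ) : ℂ)‖ := by
      rw [Complex.norm_real, Real.norm_eq_abs, abs_of_nonneg (sum_nonneg fun q _ => by positivity)]
    rw [h1, hsum]
    refine (norm_sum_le _ _).trans (sum_le_sum fun θ hθ => ?_)
    refine (norm_sum_le _ _).trans (sum_le_sum fun θ' hθ' => ?_)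
    have hpos : 0 ≤ 6 * (W : ℝ) ^ 2 * P * (A θ * A θ') := by
      have := hA0 θ
      have := hA0 θ'
      positivity
    split_ifs with h
    · subst h
      have := hdiag θ hθ
      linarith
    · rw [zero_add]
      exact hoff θ hθ θ' hθ' h
  refine hfin.trans ?_
  have h1 : ∑ θ ∈ S, ∑ θ' ∈ S, ((if θ = θ' then N * P * A θ ^ 2 else 0) +
        6 * (W : ℝ) ^ 2 * P * (A θ * A θ')) =
      N * P * ∑ θ ∈ S, A θ ^ 2 + 6 * (W : ℝ) ^ 2 * P * (∑ θ ∈ S, A θ) ^ 2 := by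
    simp only [sum_add_distrib]
    congr 1
    · rw [mul_sum]
      refine sum_congr rfl fun θ hθ => ?_
      rw [sum_ite_eq, if_pos hθ]
    · rw [pow_two (∑ θ ∈ S, A θ), sum_mul_sum, mul_sum]
      refine sum_congr rfl fun θ _ => ?_
      rw [mul_sum]
  rw [h1]
  have h2 : (∑ θ ∈ S, A θ) ^ 2 ≤ K ^ 2 := pow_le_pow_left₀ (sum_nonneg fun θ _ => hA0 θ) hK' 2
  have hNr : (0 : ℝ) ≤ N := Nat.cast_nonneg N
  have hK20 : 0 ≤ K2 := (sum_nonneg fun θ _ => by positivity).trans hK2'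
  have h3 : N * P * ∑ θ ∈ S, A θ ^ 2 ≤ N * P * K2 := mul_le_mul_of_nonneg_left hK2' (by positivity)
  have h4 : 6 * (W : ℝ) ^ 2 * P * (∑ θ ∈ S, A θ) ^ 2 ≤ 6 * (W : ℝ) ^ 2 * P * K ^ 2 :=
    mul_le_mul_of_nonneg_left h2 (by positivity)
  have h5 : 0 ≤ N * P * K2 := by positivity
  calc _ ≤ N * P * K2 + 6 * (W : ℝ) ^ 2 * P * K ^ 2 := add_le_add h3 h4
    _ ≤ 6 * (N * P * K2) + 6 * (W : ℝ) ^ 2 * P * K ^ 2 := by linarith
    _ = _ := by ring

end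

end Pool.Agent.J4.H39.CM
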