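import Pool.Agent.J4.H39.CM.CzA
import Pool.Agent.J4.H39.CM.Coef
import Pool.Agent.J4.H39.CM.L2g

set_option autoImplicit false

/-!
Project CM (helper39), piece CZERO: the mean value of the coefficient of `log q`.
-/

namespace Pool.Agent.J4.H39.CM

open Complex Finset
open Pool.Agent.N879.QM (af)
open Pool.Agent.N879.QM.Avg (fam)
open Pool.Agent.H306R2.RG (FD F8 F4 F1)
open Pool.Agent.H306R2.RZ (js)
open Pool.Agent.Y293.SF (mu abs_mu_le mu_zero)

noncomputable section

namespace Cz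

/-! ### The classes modulo `8` -/

open Classical in
lemma mem_RR {s : ℤ} {i : Fin 4} {c : ℕ} : c ∈ RR s i ↔ c < 8 ∧ ∃ d, (fam s i).A d ∧ d % 8 = c := by
  unfold RR
  rw [mem_filter, mem_range]

lemma A0 (s : ℤ) (d : ℕ) : (fam s 0).A d ↔ Odd d := Iff.rfl
lemma A1 (s : ℤ) (d : ℕ) : (fam s 1).A d ↔ (s * (d : ℤ)) % 4 = 3 := Iff.rfl
lemma A2 (s : ℤ) (d : ℕ) : (fam s 2).A d ↔ (s * (d : ℤ)) % 8 = 1 ∧ ¬ IsSquare (s * (d : ℤ)) :=
  Iff.rfl
lemma A3 (s : ℤ) (d : ℕ) : (fam s 3).A d ↔ (s * (d : ℤ)) % 8 = 5 ∧ ¬ IsSquare (s * (d : ℤ)) :=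
  Iff.rfl

lemma not_sq_neg {n : ℤ} (h : n < 0) : ¬ IsSquare n := fun ⟨r, hr⟩ => by
  have := mul_self_nonneg r
  omega

lemma not_sq5 : ¬ IsSquare (5 : ℤ) := by
  rintro ⟨r, hr⟩
  have h1 : r * r % 4 = 1 := by omega
  have h2 : r ≤ 2 := by nlinarith
  have h3 : -2 ≤ r := by nlinarith
  interval_cases r <;> omega

lemma not_sq17 : ¬ IsSquare (17 : ℤ) := by
  rintro ⟨r, hr⟩
  have h2 : r ≤ 4 := by nlinarith
  have h3 : -4 ≤ r := by nlinarith
  interval_cases r <;> omega

lemma RR0 (s : ℤ) : RR s 0 = {1, 3, 5, 7} := by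
  ext c
  rw [mem_RR]
  simp only [A0, mem_insert, mem_singleton]
  constructor
  · rintro ⟨h1, d, ⟨k, hk⟩, h2⟩
    omega
  · intro h
    refine ⟨by omega, c, ?_, by omega⟩
    rcases h with rfl | rfl | rfl | rfl <;> decide

lemma RR1 (s : ℤ) (hs : s = 1 ∨ s = -1) : (RR s 1).card = 2 := by
  rcases hs with rfl | rfl
  · have : RR 1 1 = {3, 7} := by
      ext c
      rw [mem_RR]
      simp only [A1, mem_insert, mem_singleton]
      constructor
      · rintro ⟨h1, d, h, h2⟩
        omega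
      · intro h
        exact ⟨by omega, c, by omega, by omega⟩
    rw [this]
    rfl
  · have : RR (-1) 1 = {1, 5} := by
      ext c
      rw [mem_RR]
      simp only [A1, mem_insert, mem_singleton]
      constructor
      · rintro ⟨h1, d, h, h2⟩
        omega
      · intro h
        exact ⟨by omega, c, by omega, by omega⟩
    rw [this]
    rfl

lemma RR2 (s : ℤ) (hs : s = 1 ∨ s = -1) : (RR s 2).card = 1 := by
  rcases hs with rfl | rfl
  · have : RR 1 2 = {1} := by
      ext c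
      rw [mem_RR]
      simp only [A2, mem_singleton]
      constructor
      · rintro ⟨h1, d, h, h2⟩
        omega
      · rintro rfl
        refine ⟨by omega, 17, ⟨by norm_num, ?_⟩, by omega⟩
        push_cast
        exact not_sq17
    rw [this]
    rfl
  · have : RR (-1) 2 = {7} := by
      ext c
      rw [mem_RR]
      simp only [A2, mem_singleton]
      constructor
      · rintro ⟨h1, d, h, h2⟩
        omega
      · rintro rfl
        exact ⟨by omega, 7, ⟨by norm_num, not_sq_neg (by norm_num)⟩, by omega⟩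
    rw [this]
    rfl

lemma RR3 (s : ℤ) (hs : s = 1 ∨ s = -1) : (RR s 3).card = 1 := by
  rcases hs with rfl | rfl
  · have : RR 1 3 = {5} := by
      ext c
      rw [mem_RR]
      simp only [A3, mem_singleton]
      constructor
      · rintro ⟨h1, d, h, h2⟩
        omega
      · rintro rfl
        refine ⟨by omega, 5, ⟨by norm_num, ?_⟩, by omega⟩
        push_cast
        exact not_sq5
    rw [this]
    rfl
  · have : RR (-1) 3 = {3} := by
      ext c
      rw [mem_RR]
      simp only [A3, mem_singleton]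
      constructor
      · rintro ⟨h1, d, h, h2⟩
        omega
      · rintro rfl
        exact ⟨by omega, 3, ⟨by norm_num, not_sq_neg (by norm_num)⟩, by omega⟩
    rw [this]
    rfl

lemma RR_odd (s : ℤ) (hs : s = 1 ∨ s = -1) (i : Fin 4) {c : ℕ} (h : c ∈ RR s i) : c % 2 = 1 := by
  obtain ⟨h1, d, h2, h3⟩ := mem_RR.1 h
  have := Pool.Agent.N879.QM.Avg.fam_odd s hs i d h2
  omega

/-! ### The mean values -/

lemma sum8 (F : ℕ → ℂ) (c : ℕ) (hc : c % 2 = 1) (hc8 : c < 8) :
    ∑ t ∈ range 8, F ((c * t) % 8) = ∑ t ∈ range 8, F t := by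
  have : c = 1 ∨ c = 3 ∨ c = 5 ∨ c = 7 := by omega
  rcases this with rfl | rfl | rfl | rfl
  · refine sum_congr rfl fun t ht => ?_
    rw [one_mul, Nat.mod_eq_of_lt (mem_range.1 ht)]
  · simp only [sum_range_succ, sum_range_zero]
    norm_num
    ring
  · simp only [sum_range_succ, sum_range_zero]
    norm_num
    ring
  · simp only [sum_range_succ, sum_range_zero]
    norm_num
    ring

lemma sum_per (h : ℕ → ℂ) (hp : ∀ t, h (t + 8) = h t) (u : ℕ) :
    ∑ t ∈ range (8 * u), h t = u * ∑ t ∈ range 8, h t := by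
  induction u with
  | zero => simp
  | succ u ih =>
    have h1 : ∀ m t, h (8 * m + t) = h t := by
      intro m t
      induction m with
      | zero => rw [mul_zero, zero_add]
      | succ m ihm =>
        have : 8 * (m + 1) + t = (8 * m + t) + 8 := by ring
        rw [this, hp, ihm]
    rw [mul_add, mul_one, sum_range_add, ih, sum_congr rfl fun t _ => h1 u t]
    push_cast
    ring

lemma js_one (n : ℤ) : js n 1 = 1 := by
  unfold js
  rw [jacobiSym.one_right]
  norm_num

lemma kap_zero (s : ℤ) (i : Fin 4) (g : ℕ) : kap s i g 0 = 1 := by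
  unfold kap
  rw [mul_zero]
  rfl

lemma pc_zero (s : ℤ) (hs : s = 1 ∨ s = -1) (i : Fin 4) (g : ℕ) (hg : 1 ≤ g) :
    pc s i 1 g 0 = ((if Odd g then ((RR s i).card : ℝ) / (8 * (fam s i).r * g) else 0 : ℝ) : ℂ) := by
  classical
  have hr := Four.r_pos s i
  obtain ⟨u, hu⟩ := Four.r_dvd s i
  have hu0 : 0 < u := by
    rcases Nat.eq_zero_or_pos u with h | h
    · rw [h, mul_zero] at hu
      omega
    · exact h
  obtain ⟨h, hh⟩ : ∃ h : ℕ → ℂ, h = fun t => if (g * t) % 8 ∈ RR s i then 1 else 0 := ⟨_, rfl⟩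
  have h1 : ∑ q ∈ range (64 * 1 * g * (0 : ℚ).den), ((Pf s i 1 g q : ℝ) : ℂ) *
      e (-(((0 : ℚ) : ℝ) * q)) = ∑ t ∈ range (8 * u), h t := by
    have h2 : 64 * 1 * g * (0 : ℚ).den = (fam s i).r * g * (8 * u) := by
      rw [Rat.den_zero, show (fam s i).r * g * (8 * u) = 8 * ((fam s i).r * u) * g by ring, ← hu]
      ring
    rw [h2, Four.sum_mul (Nat.mul_pos hr hg) fun q hq => by
      rw [Four.Pf_zero s i 1 g q hq, Complex.ofReal_zero, zero_mul]]
    refine sum_congr rfl fun t _ => ?_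
    rw [Four.Pf_mul, hh, js_one, Rat.cast_zero, zero_mul, neg_zero, L2g.e_z, mul_one]
    dsimp only
    by_cases hm : (g * t) % 8 ∈ RR s i
    · rw [if_pos hm, if_pos hm, Complex.ofReal_one]
    · rw [if_neg hm, if_neg hm, Complex.ofReal_zero]
  have hper : ∀ t, h (t + 8) = h t := by
    intro t
    rw [hh]
    dsimp only
    rw [mul_add, Nat.add_mul_mod_self_right]
  have h3 : ∑ t ∈ range 8, h t = if Odd g then ((RR s i).card : ℂ) else 0 := by
    by_cases ho : Odd g
    · rw [if_pos ho]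
      obtain ⟨F, hF⟩ : ∃ F : ℕ → ℂ, F = fun t => if t ∈ RR s i then 1 else 0 := ⟨_, rfl⟩
      have h4 : ∀ t, h t = F ((g % 8 * t) % 8) := by
        intro t
        rw [hh, hF]
        dsimp only
        rw [Nat.mod_mul_mod]
      rw [sum_congr rfl fun t _ => h4 t, sum8 F (g % 8) (by
        obtain ⟨k, hk⟩ := ho
        omega) (Nat.mod_lt _ (by norm_num)), hF]
      rw [sum_boole]
      congr 2
      ext c
      rw [mem_filter, mem_range]
      exact ⟨fun h => h.2, fun h => ⟨(mem_RR.1 h).1, h⟩⟩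
    · rw [if_neg ho]
      refine sum_eq_zero fun t _ => ?_
      rw [hh]
      refine if_neg fun hc => ?_
      have h5 := RR_odd s hs i hc
      have h6 : 2 ∣ g := even_iff_two_dvd.1 (Nat.not_odd_iff_even.1 ho)
      obtain ⟨k, hk⟩ := h6
      have h7 : g * t = 2 * (k * t) := by rw [hk]; ring
      omega
  unfold pc
  rw [h1, sum_per h hper u, h3]
  have hgr : (g : ℂ) ≠ 0 := by
    have : g ≠ 0 := by omega
    exact_mod_cast this
  have hrr : ((fam s i).r : ℂ) ≠ 0 := by exact_mod_cast hr.ne'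
  have huc : (u : ℂ) ≠ 0 := by exact_mod_cast hu0.ne'
  have hu8 : ((fam s i).r : ℂ) * u = 8 := by
    have : (8 : ℂ) = ((8 : ℕ) : ℂ) := by norm_num
    rw [this, hu]
    push_cast
    rfl
  split_ifs with ho
  · push_cast
    rw [Rat.den_zero]
    push_cast
    field_simp
    linear_combination (8 * ((RR s i).card : ℂ)) * hu8
  · simp

/-! ### The terms -/

/-- the constant of the family -/
def Kc (s : ℤ) (i : Fin 4) : ℝ := 2 * LA (fam s i).η * ((RR s i).card : ℝ) / (8 * (fam s i).r)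

lemma Kc_sum (s : ℤ) (hs : s = 1 ∨ s = -1) : ∑ i, Kc s i = 5 / 32 := by
  rw [Fin.sum_univ_four]
  have r0 : (fam s 0).r = 8 := rfl
  have r1 : (fam s 1).r = 4 := rfl
  have r2 : (fam s 2).r = 1 := rfl
  have r3 : (fam s 3).r = 1 := rfl
  have e0 : (fam s 0).η = 0 := rfl
  have e1 : (fam s 1).η = 0 := rfl
  have e2 : (fam s 2).η = 1 := by
    change (if (1 : ℤ) = 1 then (1 : ℝ) else -1) = 1
    norm_num
  have e3 : (fam s 3).η = -1 := by
    change (if (5 : ℤ) = 1 then (1 : ℝ) else -1) = -1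
    norm_num
  have c0 : (RR s 0).card = 4 := by
    rw [RR0]
    rfl
  unfold Kc LA
  rw [r0, r1, r2, r3, e0, e1, e2, e3, c0, RR1 s hs, RR2 s hs, RR3 s hs]
  have h2 : √2 * √2 = 2 := Real.mul_self_sqrt (by norm_num)
  have hp : 0 < √2 := Real.sqrt_pos.2 (by norm_num)
  have h1 : 1 < √2 := by
    rw [Real.lt_sqrt (by norm_num)]
    norm_num
  have h3 : 0 < 1 - 1 / √2 := by
    have : 1 / √2 < 1 := by
      rw [div_lt_one hp]
      exact h1
    linarith
  have h4 : 0 < 1 - -1 / √2 := by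
    have : -1 / √2 < 0 := div_neg_of_neg_of_pos (by norm_num) hp
    linarith
  have h5 : (1 - 1 / √2)⁻¹ + (1 - -1 / √2)⁻¹ = 4 := by
    have h6 : (1 - 1 / √2) * (1 - -1 / √2) = 1 / 2 := by
      field_simp
      nlinarith
    rw [inv_add_inv h3.ne' h4.ne', h6]
    ring
  push_cast
  linear_combination (1 / 32) * h5

lemma tm_zero (s : ℤ) (hs : s = 1 ∨ s = -1) (i : Fin 4) (f b : ℕ) :
    tm s i (w1 s i) 0 (f, b) = ((Kc s i * (ph2 f * psi f b) : ℝ) : ℂ) := by
  unfold tm
  dsimp only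
  rw [kap_zero]
  by_cases hfb : 1 ≤ f ∧ 1 ≤ b
  · rw [if_pos ⟨hfb.1, hfb.2, odd_one, squarefree_one⟩]
    have hb2 : 0 < b ^ 2 := pow_pos hfb.2 2
    have hg : 1 ≤ Nat.lcm (b ^ 2) f := Nat.lcm_pos hb2 hfb.1
    rw [pc_zero s hs i _ hg, ← Complex.ofReal_mul]
    congr 1
    unfold cc w1
    rw [js_one]
    have hodd : Odd (Nat.lcm (b ^ 2) f) ↔ Odd b ∧ Odd f := by
      constructor
      · intro h
        have h1 : Odd (b ^ 2) := h.of_dvd_nat (Nat.dvd_lcm_left _ _)
        exact ⟨(Nat.odd_pow_iff two_ne_zero).1 h1, h.of_dvd_nat (Nat.dvd_lcm_right _ _)⟩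
      · rintro ⟨h1, h2⟩
        have h3 : Odd (b ^ 2 * f) := Nat.odd_mul.2 ⟨h1.pow, h2⟩
        exact h3.of_dvd_nat (Nat.lcm_dvd_mul _ _)
    by_cases hfo : Odd f
    · by_cases hbo : Odd b
      · rw [if_pos (hodd.2 ⟨hbo, hfo⟩)]
        unfold ph2 psi Kc
        rw [if_pos hfo, if_pos hbo]
        by_cases hsq : Squarefree f
        · have h1 : Nat.gcd (b ^ 2) f = Nat.gcd b f := by
            refine Nat.dvd_antisymm (Nat.dvd_gcd ?_ (Nat.gcd_dvd_right _ _))
              (Nat.dvd_gcd ((Nat.gcd_dvd_left _ _).trans (dvd_pow_self b two_ne_zero))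
                (Nat.gcd_dvd_right _ _))
            have h2 : Squarefree (Nat.gcd (b ^ 2) f) := hsq.squarefree_of_dvd (Nat.gcd_dvd_right _ _)
            exact (h2.dvd_pow_iff_dvd two_ne_zero).1 (Nat.gcd_dvd_left _ _)
          have h2 : Nat.gcd b f * Nat.lcm (b ^ 2) f = b ^ 2 * f := by
            rw [← h1]
            exact Nat.gcd_mul_lcm _ _
          have h3 : (Nat.gcd b f : ℝ) * (Nat.lcm (b ^ 2) f : ℕ) = (b : ℝ) ^ 2 * f := by
            exact_mod_cast h2
          have hf0 : (f : ℝ) ≠ 0 := by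
            have : f ≠ 0 := by omega
            exact_mod_cast this
          have hb0 : (b : ℝ) ≠ 0 := by
            have : b ≠ 0 := by omega
            exact_mod_cast this
          have hl0 : ((Nat.lcm (b ^ 2) f : ℕ) : ℝ) ≠ 0 := by
            have : Nat.lcm (b ^ 2) f ≠ 0 := by omega
            exact_mod_cast this
          have hr0 : ((fam s i).r : ℝ) ≠ 0 := by
            exact_mod_cast (Four.r_pos s i).ne'
          rw [Nat.cast_one, Real.sqrt_one]
          have h4 : (Nat.gcd b f : ℝ) = (b : ℝ) ^ 2 * f / (Nat.lcm (b ^ 2) f : ℕ) := by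
            rw [eq_div_iff hl0]
            exact h3
          rw [h4]
          field_simp
        · have h1 : mu f = 0 := by
            unfold mu
            rw [ArithmeticFunction.moebius_eq_zero_of_not_squarefree hsq, Int.cast_zero]
          rw [h1]
          ring
      · rw [if_neg fun h => hbo (hodd.1 h).1, mul_zero]
        unfold psi
        rw [if_neg hbo, mul_zero, mul_zero]
    · rw [if_neg fun h => hfo (hodd.1 h).2, mul_zero]
      unfold ph2
      rw [if_neg hfo, zero_mul, mul_zero]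
  · rw [if_neg fun h => hfb ⟨h.1, h.2.1⟩]
    have h0 : ph2 f * psi f b = 0 := by
      rcases Nat.eq_zero_or_pos f with h | h
      · rw [h]
        simp [ph2]
      · have : b = 0 := by
          by_contra hb
          exact hfb ⟨h, by omega⟩
        rw [this]
        simp [psi]
    rw [h0, mul_zero, Complex.ofReal_zero]

lemma fam_sum (s : ℤ) (hs : s = 1 ∨ s = -1) (i : Fin 4) :
    ∑' p : ℕ × ℕ, tm s i (w1 s i) 0 p =
      ((Kc s i * (8 / Real.pi ^ 2 * ∑' f, Ph f) : ℝ) : ℂ) := by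
  obtain ⟨C, -, h⟩ := coef_bd s hs (fun _ => 0) 1 one_pos
  have hsum : Summable fun p => tm s i (w1 s i) 0 p := (h i 0).1.of_norm
  rw [hsum.tsum_prod]
  have h1 : ∀ f : ℕ, ∑' b : ℕ, tm s i (w1 s i) 0 (f, b) =
      ((Kc s i * (8 / Real.pi ^ 2 * Ph f) : ℝ) : ℂ) := by
    intro f
    rw [tsum_congr fun b => tm_zero s hs i f b, ← Complex.ofReal_tsum, tsum_mul_left, tsum_mul_left]
    congr 2
    unfold ph2 Ph
    by_cases hf : Odd f
    · rw [if_pos hf, if_pos hf, psi_sum hf]
      ring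
    · rw [if_neg hf, if_neg hf, zero_mul, mul_zero]
  rw [tsum_congr h1, ← Complex.ofReal_tsum, tsum_mul_left, tsum_mul_left]

end Cz

open Cz in
theorem c1_zero (s : ℤ) (hs : s = 1 ∨ s = -1) :
    c1 s 0 = ((3 / (2 * Real.pi ^ 2) * ∏' p : Nat.Primes, (1 - 1 / ((p : ℝ) * (p + 1))) : ℝ) : ℂ) := by
  unfold c1
  rw [sum_congr rfl fun i _ => fam_sum s hs i, ← Complex.ofReal_sum, ← sum_mul, Kc_sum s hs, Ph_sum]
  congr 1
  have : Real.pi ≠ 0 := Real.pi_ne_zero
  field_simp
  ring

end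

end Pool.Agent.J4.H39.CM
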