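import Pool.Agent.J4.H39.CM.L2g

set_option autoImplicit false

/-!
Project CM (helper39), piece HIGH: the exponential sum of a trigonometric polynomial with well spaced
frequencies and slowly varying coefficients.
-/

namespace Pool.Agent.J4.H39.CM

open Complex Finset

noncomputable section

namespace High

open L2g

/-- the sums `∑_{1 ≤ q ≤ N} (log q)^j e(βq)` -/
lemma shifted (N j : ℕ) (hj : j ≤ 1) (β : ℝ) :
    ‖∑ q ∈ range N, ((Real.log ((q + 1 : ℕ) : ℝ) : ℝ) : ℂ) ^ j * e (β * ((q + 1 : ℕ) : ℝ))‖ ≤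
      2 * (1 + Real.log N) * kb N β := by
  have hL := Real.log_natCast_nonneg N
  have h1 : ∑ q ∈ range N, ((Real.log ((q + 1 : ℕ) : ℝ) : ℝ) : ℂ) ^ j * e (β * ((q + 1 : ℕ) : ℝ)) =
      e β * ∑ q ∈ range N, (wl N j (q + 1) : ℂ) * e (β * q) := by
    rw [mul_sum]
    refine sum_congr rfl fun q hq => ?_
    rw [mem_range] at hq
    unfold wl
    rw [min_eq_left (by omega)]
    have h2 : e (β * ((q + 1 : ℕ) : ℝ)) = e β * e (β * q) := by
      rw [← e_add]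
      congr 1
      push_cast
      ring
    rw [h2]
    push_cast
    ring
  rw [h1, norm_mul, e_norm, one_mul]
  refine mono_abel _ (fun t => wl N j (t + 1)) (1 + Real.log N) (kb N β) N
    (fun m n h => wl_mono N j (by omega)) (fun t => wl_nonneg N j (t + 1)) (fun t => ?_)
    fun n hn => ?_
  · have h2 : wl N j (t + 1) ≤ (1 + Real.log N) ^ j := by
      unfold wl
      exact pow_le_pow_left₀ (Real.log_natCast_nonneg _)
        ((log_mono (min_le_right (t + 1) N)).trans (by linarith)) j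
    exact h2.trans ((pow_le_pow_right₀ (by linarith) hj).trans_eq (pow_one _))
  · exact geom β N n (by exact_mod_cast hn)

end High

open High L2g in
theorem high : ∃ C : ℝ, 0 < C ∧ ∀ (S : Finset ℚ) (D N : ℕ) (a b : ℚ → ℂ) (K α : ℝ), 1 ≤ N → 1 ≤ D → 0 ≤ K →
    (∀ θ ∈ S, 0 ≤ θ ∧ θ < 1 ∧ θ.den ≤ D) → (∀ θ ∈ S, ‖a θ‖ + ‖b θ‖ ≤ K) →
    ‖∑ q ∈ range (N + 1), Gm S a b q * e (α * q)‖ ≤
      C * K * (1 + Real.log N) * (N + (D : ℝ) ^ 2 * (1 + Real.log D)) := by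
  refine ⟨16, by norm_num, fun S D N a b K α hN hD hK hS hab => ?_⟩
  have hL := Real.log_natCast_nonneg N
  have hLD := Real.log_natCast_nonneg D
  have hNr : (0 : ℝ) ≤ N := Nat.cast_nonneg N
  have hDr : (1 : ℝ) ≤ D := by exact_mod_cast hD
  have h1 : ∑ q ∈ range (N + 1), Gm S a b q * e (α * q) = ∑ θ ∈ S,
      (a θ * ∑ q ∈ range N, ((Real.log ((q + 1 : ℕ) : ℝ) : ℝ) : ℂ) ^ 1 *
        e (((θ : ℝ) + α) * ((q + 1 : ℕ) : ℝ)) +
      b θ * ∑ q ∈ range N, ((Real.log ((q + 1 : ℕ) : ℝ) : ℝ) : ℂ) ^ 0 *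
        e (((θ : ℝ) + α) * ((q + 1 : ℕ) : ℝ))) := by
    rw [sum_range_succ']
    have h0 : Gm S a b 0 * e (α * (0 : ℕ)) = 0 := by
      unfold Gm
      rw [if_pos rfl, zero_mul]
    rw [h0, add_zero]
    have h2 : ∀ q : ℕ, Gm S a b (q + 1) * e (α * ((q + 1 : ℕ) : ℝ)) =
        ∑ θ ∈ S, (a θ * Real.log ((q + 1 : ℕ) : ℝ) + b θ) *
          e (((θ : ℝ) + α) * ((q + 1 : ℕ) : ℝ)) := by
      intro q
      unfold Gm
      rw [if_neg (Nat.succ_ne_zero q), sum_mul]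
      refine sum_congr rfl fun θ _ => ?_
      rw [add_mul (θ : ℝ), e_add]
      ring
    rw [sum_congr rfl fun q _ => h2 q, sum_comm]
    refine sum_congr rfl fun θ _ => ?_
    rw [mul_sum, mul_sum, ← sum_add_distrib]
    refine sum_congr rfl fun q _ => ?_
    ring
  rw [h1]
  have h2 : ∀ θ ∈ S, ‖a θ * ∑ q ∈ range N, ((Real.log ((q + 1 : ℕ) : ℝ) : ℝ) : ℂ) ^ 1 *
        e (((θ : ℝ) + α) * ((q + 1 : ℕ) : ℝ)) +
      b θ * ∑ q ∈ range N, ((Real.log ((q + 1 : ℕ) : ℝ) : ℝ) : ℂ) ^ 0 *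
        e (((θ : ℝ) + α) * ((q + 1 : ℕ) : ℝ))‖ ≤
      K * (2 * (1 + Real.log N)) * kb N ((θ : ℝ) + α) := by
    intro θ hθ
    have s1 := shifted N 1 le_rfl ((θ : ℝ) + α)
    have s0 := shifted N 0 (Nat.zero_le 1) ((θ : ℝ) + α)
    have hkb : 0 ≤ kb N ((θ : ℝ) + α) := kb_nonneg hNr _
    refine (norm_add_le _ _).trans ?_
    rw [norm_mul, norm_mul]
    have t1 := mul_le_mul_of_nonneg_left s1 (norm_nonneg (a θ))
    have t0 := mul_le_mul_of_nonneg_left s0 (norm_nonneg (b θ))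
    have t2 := mul_le_mul_of_nonneg_right (hab θ hθ)
      (by positivity : 0 ≤ 2 * (1 + Real.log N) * kb N ((θ : ℝ) + α))
    calc _ ≤ ‖a θ‖ * (2 * (1 + Real.log N) * kb N ((θ : ℝ) + α)) +
        ‖b θ‖ * (2 * (1 + Real.log N) * kb N ((θ : ℝ) + α)) := add_le_add t1 t0
      _ = (‖a θ‖ + ‖b θ‖) * (2 * (1 + Real.log N) * kb N ((θ : ℝ) + α)) := by ring
      _ ≤ K * (2 * (1 + Real.log N) * kb N ((θ : ℝ) + α)) := t2
      _ = _ := by ring
  refine (norm_sum_le _ _).trans ((sum_le_sum h2).trans ?_)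
  rw [← mul_sum]
  have hδ : (0 : ℝ) < 1 / (D : ℝ) ^ 2 := by positivity
  have h3 := spaced S (fun θ : ℚ => (θ : ℝ) + α) (1 / (D : ℝ) ^ 2) N (2 * N) hδ hNr (by positivity)
    (fun θ hθ θ' hθ' hne z => by
      have h4 := sep hD (hS θ hθ) (hS θ' hθ') hne z
      have h5 : (θ : ℝ) + α - ((θ' : ℝ) + α) - z = (θ : ℝ) - θ' - z := by ring
      rw [h5]
      exact h4)
    (fun θ _ => kb_le hNr _)
  have h4 : Real.log (1 / (1 / (D : ℝ) ^ 2) + 1) ≤ 1 + 2 * Real.log D := by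
    rw [one_div_one_div]
    have h5 : (D : ℝ) ^ 2 + 1 ≤ 2 * (D : ℝ) ^ 2 := by
      have := one_le_pow₀ hDr (n := 2)
      linarith
    calc Real.log ((D : ℝ) ^ 2 + 1) ≤ Real.log (2 * (D : ℝ) ^ 2) :=
          Real.log_le_log (by positivity) h5
      _ = Real.log 2 + 2 * Real.log D := by
          rw [Real.log_mul (by norm_num) (by positivity), Real.log_pow]
          norm_num
      _ ≤ 1 + 2 * Real.log D := by linarith [Real.log_two_lt_d9]
  have h5 : 4 / (1 / (D : ℝ) ^ 2) * (1 + Real.log (1 / (1 / (D : ℝ) ^ 2) + 1)) ≤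
      8 * (D : ℝ) ^ 2 * (1 + Real.log D) := by
    have h6 : 4 / (1 / (D : ℝ) ^ 2) = 4 * (D : ℝ) ^ 2 := by
      field_simp
    rw [h6]
    calc 4 * (D : ℝ) ^ 2 * (1 + Real.log (1 / (1 / (D : ℝ) ^ 2) + 1)) ≤
        4 * (D : ℝ) ^ 2 * (1 + (1 + 2 * Real.log D)) :=
          mul_le_mul_of_nonneg_left (by linarith) (by positivity)
      _ = _ := by ring
  have h6 : ∑ θ ∈ S, kb N ((θ : ℝ) + α) ≤ 8 * (N + (D : ℝ) ^ 2 * (1 + Real.log D)) := by
    refine h3.trans ?_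
    linarith
  calc K * (2 * (1 + Real.log N)) * ∑ θ ∈ S, kb N ((θ : ℝ) + α) ≤
      K * (2 * (1 + Real.log N)) * (8 * (N + (D : ℝ) ^ 2 * (1 + Real.log D))) :=
        mul_le_mul_of_nonneg_left h6 (by positivity)
    _ = _ := by ring

end

end Pool.Agent.J4.H39.CM
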