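import Pool.Agent.J4.H39.CM.Def
import Pool.Agent.N879.QM.Hbg

set_option autoImplicit false

/-!
# Project CM, part L2: the second moment of the approximate functional equation

Partial summation, the Rademacher-Menshov device and Heath-Brown's large sieve.
-/

namespace Pool.Agent.J4.H39.CM

open Complex Filter Topology MeasureTheory Set
open Pool.Agent.N879.QM

noncomputable section

namespace L2aux

/-! ### The weight function -/

theorem ex_gt (s : ℤ) : -1 < ex s := by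
  unfold ex
  split_ifs <;> norm_num

theorem integrable (s : ℤ) :
    IntegrableOn (fun u : ℝ => Real.exp (-(Real.pi * u)) * u ^ (ex s)) (Ioi 0) := by
  have h := integrableOn_rpow_mul_exp_neg_mul_rpow (p := 1) (s := ex s) (b := Real.pi) (ex_gt s)
    one_pos Real.pi_pos
  refine h.congr_fun (fun u _ => ?_) measurableSet_Ioi
  simp only [Real.rpow_one]
  rw [mul_comm, neg_mul]

theorem Wi_nonneg (s : ℤ) (z : ℝ) (hz : 0 ≤ z) : 0 ≤ Wi s z := by
  unfold Wi
  apply setIntegral_nonneg measurableSet_Ioi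
  intro u hu
  have : 0 < u := lt_of_le_of_lt hz hu
  positivity

theorem Wi_anti (s : ℤ) (z z' : ℝ) (hz : 0 ≤ z) (hzz : z ≤ z') : Wi s z' ≤ Wi s z := by
  unfold Wi
  apply setIntegral_mono_set ((integrable s).mono_set (Ioi_subset_Ioi hz))
  · rw [EventuallyLE, ae_restrict_iff' measurableSet_Ioi]
    refine Eventually.of_forall fun u hu => ?_
    have : 0 < u := lt_of_le_of_lt hz hu
    simp only [Pi.zero_apply]
    positivity
  · exact (Ioi_subset_Ioi hzz).eventuallyLE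

theorem V_nonneg (s : ℤ) (z : ℝ) (hz : 0 ≤ z) : 0 ≤ V s z :=
  div_nonneg (Wi_nonneg s z hz) (Wi_nonneg s 0 le_rfl)

theorem V_le_one (s : ℤ) (z : ℝ) (hz : 0 ≤ z) : V s z ≤ 1 :=
  div_le_one_of_le₀ (Wi_anti s 0 z le_rfl hz) (Wi_nonneg s 0 le_rfl)

theorem V_anti (s : ℤ) (z z' : ℝ) (hz : 0 ≤ z) (hzz : z ≤ z') : V s z' ≤ V s z :=
  div_le_div_of_nonneg_right (Wi_anti s z z' hz hzz) (Wi_nonneg s 0 le_rfl)

/-! ### Partial summation -/

theorem abel (v : ℕ → ℝ) (a : ℕ → ℂ) (B : ℝ) (hv : ∀ n, v (n + 1) ≤ v n) (N : ℕ)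
    (hB : ∀ t, t ≤ N → ‖∑ n ∈ Finset.range t, a n‖ ≤ B) :
    ‖∑ n ∈ Finset.range N, (v n : ℂ) * a n - (v N : ℂ) * ∑ n ∈ Finset.range N, a n‖ ≤
      (v 0 - v N) * B := by
  induction N with
  | zero => simp
  | succ N ih =>
    have h1 := ih fun t ht => hB t (by omega)
    have h2 := hB (N + 1) le_rfl
    have h3 : ∑ n ∈ Finset.range (N + 1), (v n : ℂ) * a n -
        (v (N + 1) : ℂ) * ∑ n ∈ Finset.range (N + 1), a n =
        (∑ n ∈ Finset.range N, (v n : ℂ) * a n - (v N : ℂ) * ∑ n ∈ Finset.range N, a n) +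
        ((v N - v (N + 1) : ℝ) : ℂ) * ∑ n ∈ Finset.range (N + 1), a n := by
      rw [Finset.sum_range_succ, Finset.sum_range_succ]
      push_cast
      ring
    rw [h3]
    refine (norm_add_le _ _).trans ?_
    have h4 : ‖((v N - v (N + 1) : ℝ) : ℂ) * ∑ n ∈ Finset.range (N + 1), a n‖ ≤
        (v N - v (N + 1)) * B := by
      rw [norm_mul, Complex.norm_real, Real.norm_of_nonneg (sub_nonneg.mpr (hv N))]
      exact mul_le_mul_of_nonneg_left h2 (sub_nonneg.mpr (hv N))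
    linarith

theorem abel' (v : ℕ → ℝ) (a : ℕ → ℂ) (B : ℝ) (hv : ∀ n, v (n + 1) ≤ v n) (N : ℕ)
    (hv0 : v 0 ≤ 1) (hvN : 0 ≤ v N)
    (hB : ∀ t, t ≤ N → ‖∑ n ∈ Finset.range t, a n‖ ≤ B) :
    ‖∑ n ∈ Finset.range N, (v n : ℂ) * a n‖ ≤ B := by
  have h1 := abel v a B hv N hB
  have h2 := hB N le_rfl
  have hB0 : 0 ≤ B := (norm_nonneg _).trans h2
  have h3 : ‖(v N : ℂ) * ∑ n ∈ Finset.range N, a n‖ ≤ v N * B := by
    rw [norm_mul, Complex.norm_real, Real.norm_of_nonneg hvN]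
    exact mul_le_mul_of_nonneg_left h2 hvN
  have h4 : ‖∑ n ∈ Finset.range N, (v n : ℂ) * a n‖ ≤
      ‖∑ n ∈ Finset.range N, (v n : ℂ) * a n - (v N : ℂ) * ∑ n ∈ Finset.range N, a n‖ +
      ‖(v N : ℂ) * ∑ n ∈ Finset.range N, a n‖ := by
    refine le_trans (le_of_eq ?_) (norm_add_le _ _)
    rw [sub_add_cancel]
  nlinarith

/-! ### Dyadic blocks -/

/-- a dyadic block -/
def blk (a : ℕ → ℂ) (N j i : ℕ) : ℂ := ∑ n ∈ (Finset.range N).filter (fun n => n / 2 ^ j = i), a n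

theorem step (a : ℕ → ℂ) (N t j k : ℕ) (ht : t < 2 ^ k) (htN : t ≤ N) :
    ‖∑ n ∈ Finset.range (t / 2 ^ j * 2 ^ j), a n -
      ∑ n ∈ Finset.range (t / 2 ^ (j + 1) * 2 ^ (j + 1)), a n‖ ^ 2 ≤
      ∑ i ∈ Finset.range (2 ^ k), ‖blk a N j i‖ ^ 2 := by
  have h2 : t / 2 ^ (j + 1) = t / 2 ^ j / 2 := by
    rw [pow_succ, Nat.div_div_eq_div_mul]
  obtain ⟨b, hb⟩ : ∃ b, b = t / 2 ^ j := ⟨_, rfl⟩
  rw [h2, ← hb]
  rcases Nat.even_or_odd b with he | ho
  · obtain ⟨c, hc⟩ := he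
    have h3 : b / 2 * 2 ^ (j + 1) = b * 2 ^ j := by
      rw [pow_succ, hc]
      have : (c + c) / 2 = c := by omega
      rw [this]
      ring
    rw [h3, sub_self, norm_zero]
    refine le_trans (by norm_num) (Finset.sum_nonneg fun i _ => ?_)
    positivity
  · obtain ⟨c, hc⟩ := ho
    have h3 : b / 2 * 2 ^ (j + 1) = 2 * c * 2 ^ j := by
      rw [pow_succ, hc]
      have : (2 * c + 1) / 2 = c := by omega
      rw [this]
      ring
    have h4 : b * 2 ^ j = (2 * c + 1) * 2 ^ j := by rw [hc]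
    rw [h3, h4]
    have hle : 2 * c * 2 ^ j ≤ (2 * c + 1) * 2 ^ j := Nat.mul_le_mul_right _ (by omega)
    have hbt : (2 * c + 1) * 2 ^ j ≤ t := by
      rw [← hc, hb]
      exact Nat.div_mul_le_self t (2 ^ j)
    have h5 : ∑ n ∈ Finset.range ((2 * c + 1) * 2 ^ j), a n - ∑ n ∈ Finset.range (2 * c * 2 ^ j), a n =
        blk a N j (2 * c) := by
      rw [← Finset.sum_Ico_eq_sub _ hle]
      unfold blk
      apply Finset.sum_congr _ (fun _ _ => rfl)
      ext n
      rw [Finset.mem_Ico, Finset.mem_filter, Finset.mem_range]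
      have hp : 0 < 2 ^ j := by positivity
      constructor
      · rintro ⟨h6, h7⟩
        refine ⟨by omega, ?_⟩
        apply le_antisymm
        · have := (Nat.div_lt_iff_lt_mul hp).2 h7
          omega
        · exact (Nat.le_div_iff_mul_le hp).2 h6
      · rintro ⟨h6, h7⟩
        constructor
        · exact (Nat.le_div_iff_mul_le hp).1 h7.ge
        · exact (Nat.div_lt_iff_lt_mul hp).1 (by omega)
    rw [h5]
    apply Finset.single_le_sum (f := fun i => ‖blk a N j i‖ ^ 2) (fun _ _ => by positivity)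
    rw [Finset.mem_range]
    have hp : 1 ≤ 2 ^ j := Nat.one_le_two_pow
    calc 2 * c < (2 * c + 1) * 1 := by omega
      _ ≤ (2 * c + 1) * 2 ^ j := Nat.mul_le_mul_left _ hp
      _ ≤ t := hbt
      _ < 2 ^ k := ht

theorem chain (a : ℕ → ℂ) (N t k : ℕ) (ht : t < 2 ^ k) (htN : t ≤ N) :
    ‖∑ n ∈ Finset.range t, a n‖ ^ 2 ≤
      k * ∑ j ∈ Finset.range k, ∑ i ∈ Finset.range (2 ^ k), ‖blk a N j i‖ ^ 2 := by
  have h1 : ∑ j ∈ Finset.range k, (∑ n ∈ Finset.range (t / 2 ^ j * 2 ^ j), a n -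
      ∑ n ∈ Finset.range (t / 2 ^ (j + 1) * 2 ^ (j + 1)), a n) = ∑ n ∈ Finset.range t, a n := by
    rw [Finset.sum_range_sub' (fun j => ∑ n ∈ Finset.range (t / 2 ^ j * 2 ^ j), a n)]
    rw [Nat.div_eq_of_lt ht]
    simp
  rw [← h1]
  have h2 : ‖∑ j ∈ Finset.range k, (∑ n ∈ Finset.range (t / 2 ^ j * 2 ^ j), a n -
      ∑ n ∈ Finset.range (t / 2 ^ (j + 1) * 2 ^ (j + 1)), a n)‖ ≤
      ∑ j ∈ Finset.range k, ‖∑ n ∈ Finset.range (t / 2 ^ j * 2 ^ j), a n -
      ∑ n ∈ Finset.range (t / 2 ^ (j + 1) * 2 ^ (j + 1)), a n‖ := norm_sum_le _ _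
  have h3 := sq_sum_le_card_mul_sum_sq (s := Finset.range k)
    (f := fun j => ‖∑ n ∈ Finset.range (t / 2 ^ j * 2 ^ j), a n -
      ∑ n ∈ Finset.range (t / 2 ^ (j + 1) * 2 ^ (j + 1)), a n‖)
  rw [Finset.card_range] at h3
  calc _ ≤ (∑ j ∈ Finset.range k, ‖∑ n ∈ Finset.range (t / 2 ^ j * 2 ^ j), a n -
      ∑ n ∈ Finset.range (t / 2 ^ (j + 1) * 2 ^ (j + 1)), a n‖) ^ 2 :=
        pow_le_pow_left₀ (norm_nonneg _) h2 2
    _ ≤ _ := h3
    _ ≤ _ := by
        apply mul_le_mul_of_nonneg_left _ (Nat.cast_nonneg _)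
        exact Finset.sum_le_sum fun j _ => step a N t j k ht htN

/-! ### The sum of the coefficients -/

theorem wq_nonneg (n : ℕ) : 0 ≤ wq n := by
  unfold wq
  positivity

theorem sum_wq (K : ℕ) : ∑ n ∈ Finset.Icc 1 K, wq n / n ≤ (∑ n ∈ Finset.Icc 1 K, 1 / (n : ℝ)) ^ 2 := by
  have h1 : ∀ n ∈ Finset.Icc 1 K, wq n / n ≤
      ∑ m ∈ Finset.Icc 1 K, if m ^ 2 ∣ n then (m : ℝ) / n else 0 := by
    intro n hn
    rw [Finset.mem_Icc] at hn
    unfold wq
    rw [Finset.sum_div, ← Finset.sum_filter]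
    apply Finset.sum_le_sum_of_subset_of_nonneg
    · intro m hm
      rw [Finset.mem_filter, Finset.mem_Icc] at hm ⊢
      exact ⟨⟨hm.1.1, hm.1.2.trans hn.2⟩, hm.2⟩
    · intro m _ _
      positivity
  refine (Finset.sum_le_sum h1).trans ?_
  rw [Finset.sum_comm, pow_two, Finset.sum_mul]
  apply Finset.sum_le_sum
  intro m hm
  rw [Finset.mem_Icc] at hm
  have hm0 : (0 : ℝ) < m := by exact_mod_cast hm.1
  rw [Finset.mul_sum, ← Finset.sum_filter]
  have h2 : ∑ n ∈ (Finset.Icc 1 K).filter (fun n => m ^ 2 ∣ n), (m : ℝ) / n ≤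
      ∑ l ∈ ((Finset.Icc 1 K).filter (fun n : ℕ => m ^ 2 ∣ n)).image (fun n : ℕ => (n / m ^ 2 : ℕ)),
        1 / (m : ℝ) * (1 / ((l : ℕ) : ℝ)) := by
    rw [Finset.sum_image]
    · apply le_of_eq
      apply Finset.sum_congr rfl
      intro n hn
      rw [Finset.mem_filter, Finset.mem_Icc] at hn
      obtain ⟨l, rfl⟩ := hn.2
      have hmm : 0 < m ^ 2 := by
        have : 0 < m := hm.1
        positivity
      rw [Nat.mul_div_cancel_left l hmm]
      have hl : (l : ℝ) ≠ 0 := by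
        intro h
        have : l = 0 := by exact_mod_cast h
        rw [this] at hn
        omega
      push_cast
      field_simp
    · intro n hn n' hn' h
      rw [Finset.mem_coe, Finset.mem_filter] at hn hn'
      have h3 := Nat.div_mul_cancel hn.2
      have h4 := Nat.div_mul_cancel hn'.2
      simp only at h
      rw [← h3, ← h4, h]
  refine h2.trans ?_
  apply Finset.sum_le_sum_of_subset_of_nonneg
  · intro l hl
    rw [Finset.mem_image] at hl
    obtain ⟨n, hn, rfl⟩ := hl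
    rw [Finset.mem_filter, Finset.mem_Icc] at hn
    rw [Finset.mem_Icc]
    have hmm : 0 < m ^ 2 := by
      have : 0 < m := hm.1
      positivity
    constructor
    · exact Nat.div_pos (Nat.le_of_dvd hn.1.1 hn.2) hmm
    · exact (Nat.div_le_self _ _).trans hn.1.2
  · intro l _ _
    positivity

theorem harm (K : ℕ) : ∑ n ∈ Finset.Icc 1 K, 1 / (n : ℝ) ≤ 1 + Real.log K := by
  have h := harmonic_le_one_add_log K
  have h2 : ((harmonic K : ℚ) : ℝ) = ∑ n ∈ Finset.Icc 1 K, 1 / (n : ℝ) := by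
    rw [harmonic_eq_sum_Icc]
    push_cast
    simp only [one_div]
  rw [← h2]
  exact h

end L2aux

open L2aux

open Classical in
theorem l2 (ε : ℝ) (hε : 0 < ε) : ∃ C : ℝ, 0 < C ∧ ∀ (s : ℤ) (X : ℝ) (P : ℕ → Prop), s = 1 ∨ s = -1 → 1 ≤ X →
    ∑ q ∈ Q s X, ‖PV s P q‖ ^ 2 ≤ C * X ^ (1 + ε) := by
  obtain ⟨C₀, hC₀, H⟩ := t_HBG (ε / 4) (by positivity)
  -- a bound for logarithms
  obtain ⟨D, hD⟩ : ∃ D : ℝ, D = 1 + 8 / ε + 8 / (ε * Real.log 2) := ⟨_, rfl⟩
  have hlog2 : 0 < Real.log 2 := Real.log_pos (by norm_num)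
  have hD0 : 0 < D := by rw [hD]; positivity
  have hlogK : ∀ K : ℝ, 1 ≤ K → 1 + Real.log K ≤ D * K ^ (ε / 8) := by
    intro K hK
    have h1 := Real.log_le_rpow_div (by linarith : 0 ≤ K) (show 0 < ε / 8 by positivity)
    have h2 : 1 ≤ K ^ (ε / 8) := Real.one_le_rpow hK (by positivity)
    have h3 : K ^ (ε / 8) / (ε / 8) = 8 / ε * K ^ (ε / 8) := by
      field_simp
    rw [h3] at h1
    rw [hD]
    have h4 : 0 ≤ 8 / (ε * Real.log 2) * K ^ (ε / 8) := by positivity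
    nlinarith
  refine ⟨4 * C₀ * D ^ 4 * 7 * 6 ^ (ε / 4) * 6 ^ (ε / 2), by positivity, ?_⟩
  intro s X P hs hX
  obtain ⟨k, hk⟩ : ∃ k : ℕ, k = Nat.clog 2 (⌈X⌉₊ + 1) := ⟨_, rfl⟩
  obtain ⟨K, hK⟩ : ∃ K : ℕ, K = 2 ^ k := ⟨_, rfl⟩
  have hKX : ⌈X⌉₊ + 1 ≤ K := by
    rw [hK, hk]
    exact Nat.le_pow_clog (by norm_num) _
  have hceil : (⌈X⌉₊ : ℝ) < X + 1 := Nat.ceil_lt_add_one (by linarith)
  have hceil1 : 1 ≤ ⌈X⌉₊ := Nat.one_le_ceil_iff.mpr (by linarith)
  have hk1 : 1 ≤ k := by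
    rw [hk]
    exact Nat.clog_pos (by norm_num) (by omega)
  have hK6 : (K : ℝ) ≤ 6 * X := by
    have h1 : 2 ^ (k - 1) < ⌈X⌉₊ + 1 := by
      rw [hk]
      exact Nat.pow_pred_clog_lt_self (by norm_num) (by omega)
    have h2 : K = 2 * 2 ^ (k - 1) := by
      rw [hK, ← pow_succ']
      congr 1
      omega
    have h3 : ((2 ^ (k - 1) : ℕ) : ℝ) < ⌈X⌉₊ + 1 := by exact_mod_cast h1
    have h4 : (K : ℝ) = 2 * ((2 ^ (k - 1) : ℕ) : ℝ) := by
      rw [h2]; push_cast; ring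
    rw [h4]
    linarith
  have hK1 : 1 ≤ K := by omega
  have hK1' : (1 : ℝ) ≤ K := by exact_mod_cast hK1
  obtain ⟨y, hy⟩ : ∃ y : ℕ → ℂ, ∀ n, y n = if 1 ≤ n ∧ P n then ((1 / √n : ℝ) : ℂ) else 0 :=
    ⟨_, fun _ => rfl⟩
  have hyn : ∀ n, 1 ≤ n → ‖y n‖ ^ 2 ≤ 1 / n := by
    intro n hn
    rw [hy]
    have hn0 : (0 : ℝ) < n := by exact_mod_cast hn
    split_ifs
    · rw [Complex.norm_real, Real.norm_of_nonneg (by positivity), div_pow, one_pow,
        Real.sq_sqrt hn0.le]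
    · simp

  -- the pointwise bound
  have hpt : ∀ q ∈ Q s X, ‖PV s P q‖ ^ 2 ≤ 4 * (k * ∑ j ∈ Finset.range k, ∑ i ∈ Finset.range (2 ^ k),
      ‖blk (fun n => vl s q n * y n) K j i‖ ^ 2) := by
    intro q hq
    have hqX : q + 1 ≤ ⌈X⌉₊ := by
      unfold Q at hq
      rw [Finset.mem_filter, Finset.mem_Ico] at hq
      omega
    have hq2 : 2 ≤ q := by
      unfold Q at hq
      rw [Finset.mem_filter, Finset.mem_Ico] at hq
      omega
    have hq0 : (0 : ℝ) < q := by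
      have : 0 < q := by omega
      exact_mod_cast this
    obtain ⟨B, hB⟩ : ∃ B : ℝ, B = k * ∑ j ∈ Finset.range k, ∑ i ∈ Finset.range (2 ^ k),
      ‖blk (fun n => vl s q n * y n) K j i‖ ^ 2 := ⟨_, rfl⟩
    have hB0 : 0 ≤ B := by rw [hB]; positivity
    have hS : ∀ t, t ≤ q + 1 → ‖∑ n ∈ Finset.range t, vl s q n * y n‖ ≤ √B := by
      intro t ht
      apply Real.le_sqrt_of_sq_le
      rw [hB]
      exact chain (fun n => vl s q n * y n) K t k (by rw [← hK]; omega) (by omega)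
    have h1 := abel' (fun n => V s ((n : ℝ) ^ 2 / q)) (fun n => vl s q n * y n) (√B) (by
      intro n
      apply V_anti s _ _ (by positivity)
      apply div_le_div_of_nonneg_right _ hq0.le
      push_cast
      nlinarith [(Nat.cast_nonneg n : (0 : ℝ) ≤ n)]) (q + 1) (V_le_one s _ (by positivity))
      (V_nonneg s _ (by positivity)) hS
    have h2 : PV s P q = 2 * ∑ n ∈ Finset.range (q + 1), ((V s ((n : ℝ) ^ 2 / q) : ℝ) : ℂ) *
        (vl s q n * y n) := by
      unfold PV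
      congr 1
      rw [Finset.sum_filter]
      have h3 : Finset.range (q + 1) = insert 0 (Finset.Icc 1 q) := by
        ext n
        rw [Finset.mem_range, Finset.mem_insert, Finset.mem_Icc]
        omega
      rw [h3, Finset.sum_insert (by simp)]
      have h4 : y 0 = 0 := by rw [hy]; simp
      rw [h4, mul_zero, mul_zero, zero_add]
      apply Finset.sum_congr rfl
      intro n hn
      rw [Finset.mem_Icc] at hn
      rw [hy]
      by_cases hP : P n
      · rw [if_pos hP, if_pos ⟨hn.1, hP⟩]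
        unfold wt
        push_cast
        ring
      · rw [if_neg hP, if_neg (fun h => hP h.2), mul_zero, mul_zero]
    rw [h2, norm_mul, mul_pow]
    have h5 : ‖∑ n ∈ Finset.range (q + 1), ((V s ((n : ℝ) ^ 2 / q) : ℝ) : ℂ) *
        (vl s q n * y n)‖ ^ 2 ≤ B := by
      calc _ ≤ (√B) ^ 2 := pow_le_pow_left₀ (norm_nonneg _) h1 2
        _ = B := Real.sq_sqrt hB0
    have h6 : ‖(2 : ℂ)‖ ^ 2 = 4 := by norm_num
    rw [h6, ← hB]
    linarith
  -- the large sieve for a block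
  have hblk : ∀ j i, ∑ q ∈ Q s X, ‖blk (fun n => vl s q n * y n) K j i‖ ^ 2 ≤
      C₀ * (X * K) ^ (ε / 4) * (X + K) *
        ∑ n ∈ Finset.Icc 1 K, if n / 2 ^ j = i then wq n / n else 0 := by
    intro j i
    have h1 := H s X K (fun n => if n / 2 ^ j = i ∧ n < K then y n else 0) hs hX hK1
    have h2 : ∀ q, blk (fun n => vl s q n * y n) K j i =
        ∑ n ∈ Finset.Icc 1 K, vl s q n * (if n / 2 ^ j = i ∧ n < K then y n else 0) := by
      intro q
      unfold blk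
      rw [Finset.sum_filter]
      have h3 : ∑ n ∈ Finset.range K, (if n / 2 ^ j = i then vl s q n * y n else 0) =
          ∑ n ∈ Finset.range (K + 1), vl s q n * (if n / 2 ^ j = i ∧ n < K then y n else 0) := by
        rw [Finset.sum_range_succ]
        have h4 : vl s q K * (if K / 2 ^ j = i ∧ K < K then y K else 0) = 0 := by simp
        rw [h4, add_zero]
        apply Finset.sum_congr rfl
        intro n hn
        rw [Finset.mem_range] at hn
        by_cases h5 : n / 2 ^ j = i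
        · rw [if_pos h5, if_pos ⟨h5, hn⟩]
        · rw [if_neg h5, if_neg (fun h => h5 h.1), mul_zero]
      rw [h3]
      have h6 : Finset.range (K + 1) = insert 0 (Finset.Icc 1 K) := by
        ext n
        rw [Finset.mem_range, Finset.mem_insert, Finset.mem_Icc]
        omega
      rw [h6, Finset.sum_insert (by simp)]
      have h7 : y 0 = 0 := by rw [hy]; simp
      rw [h7]
      simp
    simp only [h2]
    refine h1.trans ?_
    apply mul_le_mul_of_nonneg_left _ (by positivity)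
    apply Finset.sum_le_sum
    intro n hn
    rw [Finset.mem_Icc] at hn
    have hn0 : (0 : ℝ) < n := by exact_mod_cast hn.1
    by_cases h5 : n / 2 ^ j = i
    · rw [if_pos h5]
      by_cases h6 : n < K
      · rw [if_pos ⟨h5, h6⟩, div_eq_mul_one_div]
        exact mul_le_mul_of_nonneg_left (hyn n hn.1) (wq_nonneg n)
      · rw [if_neg (fun h => h6 h.2), norm_zero]
        have h8 : 0 ≤ wq n / (n : ℝ) := div_nonneg (wq_nonneg n) hn0.le
        have h9 : wq n * (0 : ℝ) ^ 2 = 0 := by ring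
        rw [h9]
        exact h8
    · rw [if_neg (fun h => h5 h.1), if_neg h5, norm_zero]
      simp
  -- summation
  have hsum : ∑ q ∈ Q s X, ‖PV s P q‖ ^ 2 ≤ 4 * (k * (k * (C₀ * (X * K) ^ (ε / 4) * (X + K) *
      ∑ n ∈ Finset.Icc 1 K, wq n / n))) := by
    refine (Finset.sum_le_sum hpt).trans ?_
    rw [← Finset.mul_sum, ← Finset.mul_sum]
    apply mul_le_mul_of_nonneg_left _ (by norm_num)
    apply mul_le_mul_of_nonneg_left _ (Nat.cast_nonneg _)
    rw [Finset.sum_comm]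
    have h1 : ∀ j ∈ Finset.range k, ∑ q ∈ Q s X, ∑ i ∈ Finset.range (2 ^ k),
        ‖blk (fun n => vl s q n * y n) K j i‖ ^ 2 ≤ C₀ * (X * K) ^ (ε / 4) * (X + K) *
      ∑ n ∈ Finset.Icc 1 K, wq n / n := by
      intro j _
      rw [Finset.sum_comm]
      refine (Finset.sum_le_sum fun i _ => hblk j i).trans ?_
      rw [← Finset.mul_sum]
      apply mul_le_mul_of_nonneg_left _ (by positivity)
      rw [Finset.sum_comm]
      apply Finset.sum_le_sum
      intro n _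
      rw [Finset.sum_ite_eq]
      split_ifs
      · exact le_rfl
      · have := wq_nonneg n
        positivity
    refine (Finset.sum_le_sum h1).trans ?_
    rw [Finset.sum_const, Finset.card_range, nsmul_eq_mul]
  refine hsum.trans ?_
  -- numerical estimates
  have hkK : (k : ℝ) ≤ D * (K : ℝ) ^ (ε / 8) := by
    have h1 : Real.log K = k * Real.log 2 := by
      rw [hK]
      push_cast
      rw [Real.log_pow]
    have h2 := Real.log_le_rpow_div (by linarith : (0 : ℝ) ≤ K) (show 0 < ε / 8 by positivity)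
    rw [h1] at h2
    have h3 : (k : ℝ) ≤ 8 / (ε * Real.log 2) * (K : ℝ) ^ (ε / 8) := by
      have h4 : 8 / (ε * Real.log 2) * (K : ℝ) ^ (ε / 8) =
          ((K : ℝ) ^ (ε / 8) / (ε / 8)) / Real.log 2 := by
        field_simp
      rw [h4, le_div_iff₀ hlog2]
      exact h2
    refine h3.trans ?_
    apply mul_le_mul_of_nonneg_right _ (by positivity)
    rw [hD]
    have : 0 ≤ 8 / ε := by positivity
    linarith
  have hW : ∑ n ∈ Finset.Icc 1 K, wq n / n ≤ (D * (K : ℝ) ^ (ε / 8)) ^ 2 := by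
    refine (sum_wq K).trans ?_
    apply pow_le_pow_left₀ (by positivity)
    exact (harm K).trans (hlogK K hK1')
  have hW0 : 0 ≤ ∑ n ∈ Finset.Icc 1 K, wq n / n :=
    Finset.sum_nonneg fun n _ => div_nonneg (wq_nonneg n) (Nat.cast_nonneg _)
  have hXK : (X * K) ^ (ε / 4) ≤ 6 ^ (ε / 4) * X ^ (ε / 2) := by
    have h1 : X * K ≤ 6 * X ^ 2 := by nlinarith
    calc (X * K) ^ (ε / 4) ≤ (6 * X ^ 2) ^ (ε / 4) :=
          Real.rpow_le_rpow (by positivity) h1 (by positivity)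
      _ = 6 ^ (ε / 4) * X ^ (ε / 2) := by
          rw [Real.mul_rpow (by norm_num) (by positivity)]
          congr 1
          rw [← Real.rpow_natCast, ← Real.rpow_mul (by linarith)]
          congr 1
          push_cast
          ring
  have hKp : ((K : ℝ) ^ (ε / 8)) ^ 4 ≤ 6 ^ (ε / 2) * X ^ (ε / 2) := by
    have h1 : ((K : ℝ) ^ (ε / 8)) ^ 4 = (K : ℝ) ^ (ε / 2) := by
      rw [← Real.rpow_natCast, ← Real.rpow_mul (by linarith)]
      congr 1
      push_cast
      ring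
    rw [h1, ← Real.mul_rpow (by norm_num) (by linarith)]
    exact Real.rpow_le_rpow (by linarith) hK6 (by positivity)
  have hX1 : X ^ (1 + ε) = X * (X ^ (ε / 2) * X ^ (ε / 2)) := by
    rw [← Real.rpow_add (by linarith), Real.rpow_add (by linarith), Real.rpow_one]
    congr 2
    ring
  have hX7 : X + K ≤ 7 * X := by linarith
  have e0 : 0 < D * (K : ℝ) ^ (ε / 8) := by positivity
  calc 4 * (k * (k * (C₀ * (X * K) ^ (ε / 4) * (X + K) * ∑ n ∈ Finset.Icc 1 K, wq n / n)))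
      ≤ 4 * ((D * (K : ℝ) ^ (ε / 8)) * ((D * (K : ℝ) ^ (ε / 8)) *
        (C₀ * (6 ^ (ε / 4) * X ^ (ε / 2)) * (7 * X) * (D * (K : ℝ) ^ (ε / 8)) ^ 2))) := by
        apply mul_le_mul_of_nonneg_left _ (by norm_num)
        have h1 : C₀ * (X * K) ^ (ε / 4) * (X + K) * ∑ n ∈ Finset.Icc 1 K, wq n / n ≤
            C₀ * (6 ^ (ε / 4) * X ^ (ε / 2)) * (7 * X) * (D * (K : ℝ) ^ (ε / 8)) ^ 2 := by
          apply mul_le_mul _ hW hW0 (by positivity)
          apply mul_le_mul _ hX7 (by positivity) (by positivity)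
          exact mul_le_mul_of_nonneg_left hXK hC₀.le
        have h2 : 0 ≤ C₀ * (X * K) ^ (ε / 4) * (X + K) * ∑ n ∈ Finset.Icc 1 K, wq n / n := by
          positivity
        apply mul_le_mul hkK _ (by positivity) e0.le
        exact mul_le_mul hkK h1 h2 e0.le
    _ = 4 * C₀ * D ^ 4 * 7 * 6 ^ (ε / 4) * (X * X ^ (ε / 2)) * ((K : ℝ) ^ (ε / 8)) ^ 4 := by ring
    _ ≤ 4 * C₀ * D ^ 4 * 7 * 6 ^ (ε / 4) * (X * X ^ (ε / 2)) * (6 ^ (ε / 2) * X ^ (ε / 2)) :=
        mul_le_mul_of_nonneg_left hKp (by positivity)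
    _ = 4 * C₀ * D ^ 4 * 7 * 6 ^ (ε / 4) * 6 ^ (ε / 2) * X ^ (1 + ε) := by
        rw [hX1]
        ring

end

end Pool.Agent.J4.H39.CM
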