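import Pool.Agent.J4.H39.CM.Def2

set_option autoImplicit false

/-!
Project CM (helper39), second part, piece POINT (helper22): pointwise formula of the model.
-/

namespace Pool.Agent.J4.H39.CM

open Complex Finset
open Pool.Agent.N879.QM
open Pool.Agent.N879.QM.Avg (fam fam_mem fam_odd rp_of odd_part)
open Pool.Agent.H306R2.RG (FD F8 F4 F1 cf jo Fam)
open Pool.Agent.H306R2.RZ (js)
open Pool.Agent.Y293.SF (mu)

noncomputable section

namespace Pt

/-! ### the decomposition -/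

lemma sqf_uniq {k k' m m' : ℕ} (hk : Squarefree k) (hk' : Squarefree k') (hm : m ≠ 0) (hm' : m' ≠ 0)
    (h : k * m ^ 2 = k' * m' ^ 2) : k = k' ∧ m = m' := by
  have hk0 : k ≠ 0 := hk.ne_zero
  have hk0' : k' ≠ 0 := hk'.ne_zero
  have h1 : (m * m') ^ 2 * (k * k') = (k * m ^ 2) ^ 2 := by
    calc (m * m') ^ 2 * (k * k') = (k * m ^ 2) * (k' * m' ^ 2) := by ring
      _ = (k * m ^ 2) ^ 2 := by rw [← h]; ring
  have h2 : (m * m') ^ 2 ∣ (k * m ^ 2) ^ 2 := ⟨k * k', h1.symm⟩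
  have h3 : m * m' ∣ k * m ^ 2 := (Nat.pow_dvd_pow_iff (by norm_num)).1 h2
  obtain ⟨c, hc⟩ := h3
  have hmm : m * m' ≠ 0 := mul_ne_zero hm hm'
  have h4 : k * k' = c ^ 2 := by
    have : (m * m') ^ 2 * (k * k') = (m * m') ^ 2 * c ^ 2 := by rw [h1, hc]; ring
    exact Nat.eq_of_mul_eq_mul_left (Nat.pos_of_ne_zero (pow_ne_zero _ hmm)) this
  have h5 : k ∣ c := (hk.dvd_pow_iff_dvd (n := 2) (by norm_num)).1 ⟨k', h4.symm⟩
  have h6 : k' ∣ c := (hk'.dvd_pow_iff_dvd (n := 2) (by norm_num)).1 ⟨k, by rw [← h4]; ring⟩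
  have h7 : k' ∣ k := by
    obtain ⟨t, rfl⟩ := h6
    exact ⟨t ^ 2, Nat.eq_of_mul_eq_mul_right (Nat.pos_of_ne_zero hk0') (by rw [h4]; ring)⟩
  have h8 : k ∣ k' := by
    obtain ⟨t, rfl⟩ := h5
    exact ⟨t ^ 2, Nat.eq_of_mul_eq_mul_left (Nat.pos_of_ne_zero hk0) (by rw [h4]; ring)⟩
  have h9 : k = k' := Nat.dvd_antisymm h8 h7
  refine ⟨h9, ?_⟩
  rw [← h9] at h
  have h10 := Nat.eq_of_mul_eq_mul_left (Nat.pos_of_ne_zero hk0) h
  exact Nat.pow_left_injective (n := 2) (by norm_num) h10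

lemma dec_uniq {j k m : ℕ} (hk : Odd k) (hsq : Squarefree k) (hm : Odd m) :
    2 ^ j * (k * m ^ 2) ≠ 0 ∧ dec (2 ^ j * (k * m ^ 2)) = (j, k, m) ∧
      (2 ^ j * (k * m ^ 2)).factorization 2 = j := by
  have hk0 : k ≠ 0 := hsq.ne_zero
  have hm0 : m ≠ 0 := hm.pos.ne'
  have hu : k * m ^ 2 ≠ 0 := mul_ne_zero hk0 (pow_ne_zero _ hm0)
  have hn : 2 ^ j * (k * m ^ 2) ≠ 0 := mul_ne_zero (by positivity) hu
  have hodd : Odd (k * m ^ 2) := hk.mul hm.pow
  have hf : (2 ^ j * (k * m ^ 2)).factorization 2 = j := by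
    rw [Nat.factorization_mul (by positivity) hu, Finsupp.add_apply, Nat.Prime.factorization_pow Nat.prime_two,
      Finsupp.single_eq_same, Nat.factorization_eq_zero_of_not_dvd, add_zero]
    intro h
    exact (Nat.not_even_iff_odd.2 hodd) (even_iff_two_dvd.2 h)
  obtain ⟨b1, b2, b3, b4, b5, b6⟩ := dec_spec hn
  rw [hf] at b5 b6
  rw [Nat.mul_div_cancel_left _ (by positivity)] at b6
  obtain ⟨c1, c2⟩ := sqf_uniq hsq b3 hm0 b4 b6
  refine ⟨hn, ?_, hf⟩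
  rw [Prod.ext_iff, Prod.ext_iff]
  exact ⟨b5, c1.symm, c2.symm⟩

lemma dec_odd {n : ℕ} (hn : n ≠ 0) : Odd (dec n).2.2 := by
  obtain ⟨b1, b2, b3, b4, b5, b6⟩ := dec_spec hn
  have ho := odd_part hn
  rw [b6] at ho
  have h := (Nat.odd_mul.1 ho).2
  rw [sq] at h
  exact (Nat.odd_mul.1 h).1

open Classical in
/-- summation over the decomposition -/
lemma split_k (F : ℕ → ℝ) (hF : Summable F) (Y : ℕ) (h0 : ∀ n, ¬ (n ≠ 0 ∧ PY Y n) → F n = 0) :
    ∑' n, F n = ∑ k ∈ KO Y, ∑' p : ℕ × ℕ, if Odd p.2 then F (2 ^ p.1 * (k * p.2 ^ 2)) else 0 := by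
  have h1 : ∀ n, F n = ∑ k ∈ KO Y, if n ≠ 0 ∧ (dec n).2.1 = k then F n else 0 := by
    intro n
    by_cases hn : n ≠ 0 ∧ PY Y n
    · obtain ⟨hn0, hY⟩ := hn
      obtain ⟨b1, b2, b3, b4, b5, b6⟩ := dec_spec hn0
      have hmem : (dec n).2.1 ∈ KO Y := by
        unfold KO
        rw [mem_filter, mem_Icc]
        exact ⟨⟨b2.pos, hY⟩, b2, b3⟩
      rw [sum_eq_single (dec n).2.1]
      · rw [if_pos ⟨hn0, rfl⟩]
      · intro k _ hk
        rw [if_neg]
        exact fun h => hk h.2.symm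
      · exact fun h => absurd hmem h
    · rw [h0 n hn]
      symm
      refine sum_eq_zero fun k _ => ?_
      simp
  have h2 : ∀ k ∈ KO Y, Summable (fun n => if n ≠ 0 ∧ (dec n).2.1 = k then F n else 0) := by
    intro k _
    refine (hF.indicator {n | n ≠ 0 ∧ (dec n).2.1 = k}).congr fun n => ?_
    rw [Set.indicator_apply]
    rfl
  calc ∑' n, F n = ∑' n, ∑ k ∈ KO Y, (if n ≠ 0 ∧ (dec n).2.1 = k then F n else 0) := tsum_congr h1
    _ = ∑ k ∈ KO Y, ∑' n, (if n ≠ 0 ∧ (dec n).2.1 = k then F n else 0) := Summable.tsum_finsetSum h2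
    _ = _ := by
        refine sum_congr rfl fun k hk => ?_
        unfold KO at hk
        rw [mem_filter, mem_Icc] at hk
        obtain ⟨-, hko, hks⟩ := hk
        set S : Set (ℕ × ℕ) := {p | Odd p.2} with hS
        set g : S → ℕ := fun p => 2 ^ p.1.1 * (k * p.1.2 ^ 2) with hg
        have hgd : ∀ p : S, g p ≠ 0 ∧ dec (g p) = (p.1.1, k, p.1.2) := fun p =>
          ⟨(dec_uniq hko hks p.2).1, (dec_uniq hko hks p.2).2.1⟩
        have hinj : Function.Injective g := by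
          intro p p' h
          have e1 := (hgd p).2
          have e2 := (hgd p').2
          rw [h, e2, Prod.ext_iff, Prod.ext_iff] at e1
          exact Subtype.ext (Prod.ext e1.1.symm e1.2.2.symm)
        have hsupp : Function.support (fun n => if n ≠ 0 ∧ (dec n).2.1 = k then F n else 0) ⊆
            Set.range g := by
          intro n hn
          rw [Function.mem_support] at hn
          have hn' : n ≠ 0 ∧ (dec n).2.1 = k := by
            by_contra hc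
            exact hn (if_neg hc)
          obtain ⟨b1, b2, b3, b4, b5, b6⟩ := dec_spec hn'.1
          refine ⟨⟨((dec n).1, (dec n).2.2), dec_odd hn'.1⟩, ?_⟩
          show 2 ^ (dec n).1 * (k * (dec n).2.2 ^ 2) = n
          rw [← hn'.2]
          exact b1.symm
        rw [← hinj.tsum_eq hsupp]
        have e1 : ∀ p : S, (if g p ≠ 0 ∧ (dec (g p)).2.1 = k then F (g p) else 0) =
            (fun p : ℕ × ℕ => F (2 ^ p.1 * (k * p.2 ^ 2))) p.1 := by
          intro p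
          rw [if_pos]
          refine ⟨(hgd p).1, ?_⟩
          rw [(hgd p).2]
        rw [tsum_congr e1, tsum_subtype S (fun p : ℕ × ℕ => F (2 ^ p.1 * (k * p.2 ^ 2)))]
        refine tsum_congr fun p => ?_
        rw [Set.indicator_apply]
        rfl

/-! ### the terms -/

lemma V_bd (s : ℤ) : ∃ C : ℝ, 0 < C ∧ ∀ z : ℝ, 0 < z → V s z ≤ C / z ^ 2 := (V_facts s).2.2.2

lemma Lt_sum (s : ℤ) (η z : ℝ) (hη : |η| ≤ 1) (hz : 0 < z) : Summable (Lt s η z) := by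
  obtain ⟨C, hC, hV⟩ := V_bd s
  have h2 : (1 : ℝ) < √2 := by
    rw [Real.lt_sqrt (by norm_num)]
    norm_num
  have hs1 : Summable (fun j : ℕ => (1 / √2) ^ j) :=
    summable_geometric_of_lt_one (by positivity) (by rw [div_lt_one (by positivity)]; exact h2)
  have hs2 : Summable (fun m : ℕ => C * z ^ 2 * (1 / (m : ℝ) ^ 8)) :=
    (Real.summable_one_div_nat_pow.2 (by norm_num : 1 < 8)).mul_left _
  have hs3 := Summable.mul_of_nonneg hs1 hs2 (fun j => by positivity) (fun m => by positivity)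
  refine Summable.of_norm_bounded hs3 fun p => ?_
  unfold Lt
  rw [norm_mul, norm_pow, Real.norm_eq_abs, Real.norm_eq_abs, abs_div, abs_of_pos (show (0 : ℝ) < √2 by positivity)]
  refine mul_le_mul ?_ ?_ (abs_nonneg _) (by positivity)
  · gcongr
  · split_ifs with ho
    · have hm0 : 0 < p.2 := ho.pos
      have hm : (1 : ℝ) ≤ p.2 := by exact_mod_cast hm0
      have hz1 : 0 < (4 : ℝ) ^ p.1 * (p.2 : ℝ) ^ 4 / z := by positivity
      have h3 := hV _ hz1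
      have h4 := ((V_facts s).2.1 _ hz1.le).1
      rw [abs_div, abs_of_nonneg h4, abs_of_pos (by linarith : (0 : ℝ) < p.2)]
      calc V s ((4 : ℝ) ^ p.1 * (p.2 : ℝ) ^ 4 / z) / p.2 ≤ V s ((4 : ℝ) ^ p.1 * (p.2 : ℝ) ^ 4 / z) :=
            div_le_self h4 hm
        _ ≤ C / ((4 : ℝ) ^ p.1 * (p.2 : ℝ) ^ 4 / z) ^ 2 := h3
        _ ≤ C / (1 * (p.2 : ℝ) ^ 4 / z) ^ 2 := by
            have : (1 : ℝ) ≤ 4 ^ p.1 := one_le_pow₀ (by norm_num)
            gcongr
        _ = C * z ^ 2 * (1 / (p.2 : ℝ) ^ 8) := by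
            field_simp
    · rw [abs_zero]
      positivity

/-- scaling of the terms -/
lemma Lt_scale (s : ℤ) (η z : ℝ) {f : ℕ} (hf : Odd f) (p : ℕ × ℕ) :
    Lt s η z (p.1, f * p.2) = 1 / f * Lt s η (z / (f : ℝ) ^ 4) p := by
  unfold Lt
  have hf0 : (0 : ℝ) < f := by exact_mod_cast hf.pos
  by_cases ho : Odd p.2
  · have ho' : Odd (f * p.2) := hf.mul ho
    rw [if_pos ho, if_pos ho']
    have e1 : (4 : ℝ) ^ p.1 * ((f * p.2 : ℕ) : ℝ) ^ 4 / z = (4 : ℝ) ^ p.1 * (p.2 : ℝ) ^ 4 / (z / (f : ℝ) ^ 4) := by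
      rw [div_div_eq_mul_div]
      push_cast
      ring
    rw [e1]
    push_cast
    field_simp
  · have ho' : ¬ Odd (f * p.2) := fun h => ho (Nat.odd_mul.1 h).2
    rw [if_neg ho, if_neg ho']
    ring

lemma cop_real (m d : ℕ) (hd : d ≠ 0) :
    (if Nat.Coprime d m then (1 : ℝ) else 0) = ∑ f ∈ d.divisors, if f ∣ m then mu f else 0 := by
  have h := cop_sum d m hd
  have e1 : (((if Nat.Coprime m d then (1 : ℝ) else 0) : ℝ) : ℂ) =
      if Nat.Coprime m d then (1 : ℂ) else 0 := by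
    split_ifs <;> simp
  have e2 : ((∑ f ∈ d.divisors, (if f ∣ m then mu f else 0) : ℝ) : ℂ) =
      ∑ f ∈ d.divisors, if f ∣ m then ((mu f : ℝ) : ℂ) else 0 := by
    rw [Complex.ofReal_sum]
    refine sum_congr rfl fun f _ => ?_
    split_ifs <;> simp
  rw [← e1, ← e2] at h
  have h3 := Complex.ofReal_injective h
  rw [← h3]
  simp only [Nat.coprime_comm]

/-- the sum over the `m` prime to `d` -/
lemma cop_tsum (s : ℤ) (η z : ℝ) (hη : |η| ≤ 1) (hz : 0 < z) {d : ℕ} (hd : Odd d) :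
    ∑' p : ℕ × ℕ, (if Nat.Coprime d p.2 then (1 : ℝ) else 0) * Lt s η z p =
      ∑ f ∈ d.divisors, mu f / f * La s η (z / (f : ℝ) ^ 4) := by
  have hd0 : d ≠ 0 := hd.pos.ne'
  have hS := Lt_sum s η z hη hz
  have h1 : ∀ p : ℕ × ℕ, (if Nat.Coprime d p.2 then (1 : ℝ) else 0) * Lt s η z p =
      ∑ f ∈ d.divisors, if f ∣ p.2 then mu f * Lt s η z p else 0 := by
    intro p
    rw [cop_real p.2 d hd0, sum_mul]
    refine sum_congr rfl fun f _ => ?_
    split_ifs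
    · rfl
    · exact zero_mul _
  have h2 : ∀ f ∈ d.divisors, Summable (fun p : ℕ × ℕ => if f ∣ p.2 then mu f * Lt s η z p else 0) := by
    intro f _
    refine ((hS.mul_left (mu f)).indicator {p : ℕ × ℕ | f ∣ p.2}).congr fun p => ?_
    rw [Set.indicator_apply]
    rfl
  rw [tsum_congr h1, Summable.tsum_finsetSum h2]
  refine sum_congr rfl fun f hf => ?_
  have hfd : f ∣ d := Nat.dvd_of_mem_divisors hf
  have hfo : Odd f := Odd.of_dvd_nat hd hfd
  have hf0 : f ≠ 0 := hfo.pos.ne'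
  set g : ℕ × ℕ → ℕ × ℕ := fun p => (p.1, f * p.2) with hg
  have hinj : Function.Injective g := by
    intro p p' h
    rw [hg] at h
    simp only [Prod.mk.injEq] at h
    exact Prod.ext h.1 (Nat.eq_of_mul_eq_mul_left (Nat.pos_of_ne_zero hf0) h.2)
  have hsupp : Function.support (fun p : ℕ × ℕ => if f ∣ p.2 then mu f * Lt s η z p else 0) ⊆
      Set.range g := by
    intro p hp
    rw [Function.mem_support] at hp
    have hp' : f ∣ p.2 := by
      by_contra hc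
      exact hp (if_neg hc)
    obtain ⟨t, ht⟩ := hp'
    exact ⟨(p.1, t), by rw [hg]; exact Prod.ext rfl ht.symm⟩
  rw [← hinj.tsum_eq hsupp]
  have e1 : ∀ p : ℕ × ℕ, (if f ∣ (g p).2 then mu f * Lt s η z (g p) else 0) =
      mu f / f * Lt s η (z / (f : ℝ) ^ 4) p := by
    intro p
    rw [if_pos (Dvd.intro _ rfl)]
    show mu f * Lt s η z (p.1, f * p.2) = _
    rw [Lt_scale s η z hfo p]
    ring
  rw [tsum_congr e1, tsum_mul_left]
  rfl

/-! ### the full series -/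

open Classical in
/-- the terms of the full series -/
def Fn (s : ℤ) (φ : FD) (d q Y n : ℕ) : ℝ :=
  if n ≠ 0 ∧ PY Y n then cf φ d n * (V s ((n : ℝ) ^ 2 / q) / √n) else 0

lemma js_e (s : ℤ) (hs : s = 1 ∨ s = -1) (i : Fin 4) (k m : ℕ) (hk : k ≠ 0) (hm : Odd m) :
    js (fam s i).e (k * m ^ 2) = js (fam s i).e k := by
  have h0 : (fam s i).e.natAbs ∣ 2 := by
    fin_cases i
    · show (2 * s).natAbs ∣ 2
      rcases hs with rfl | rfl <;> decide
    · show s.natAbs ∣ 2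
      rcases hs with rfl | rfl <;> decide
    · show s.natAbs ∣ 2
      rcases hs with rfl | rfl <;> decide
    · show s.natAbs ∣ 2
      rcases hs with rfl | rfl <;> decide
  have h1 : Int.gcd (fam s i).e (m : ℤ) = 1 := by
    have h2 : Nat.Coprime (fam s i).e.natAbs m :=
      Nat.Coprime.coprime_dvd_left h0 (Nat.coprime_two_left.2 hm)
    rw [Int.gcd, Int.natAbs_natCast]
    exact h2
  have : NeZero k := ⟨hk⟩
  have : NeZero m := ⟨hm.pos.ne'⟩
  unfold js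
  rw [jacobiSym.mul_right, jacobiSym.pow_right, jacobiSym.sq_one h1, mul_one]

lemma sqrt_n (j k m : ℕ) : √((2 ^ j * (k * m ^ 2) : ℕ) : ℝ) = (√2) ^ j * (√k * m) := by
  have h1 : ((2 ^ j * (k * m ^ 2) : ℕ) : ℝ) = ((√2) ^ j * (√k * m)) ^ 2 := by
    have h2 : ((√2 : ℝ) ^ j) ^ 2 = 2 ^ j := by
      rw [← pow_mul, mul_comm j 2, pow_mul, Real.sq_sqrt (by norm_num)]
    have h3 : (√(k : ℝ)) ^ 2 = k := Real.sq_sqrt (Nat.cast_nonneg k)
    rw [mul_pow, mul_pow, h2, h3]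
    push_cast
    ring
  rw [h1, Real.sqrt_sq (by positivity)]

lemma Fn_eval (s : ℤ) (hs : s = 1 ∨ s = -1) (i : Fin 4) (d q Y : ℕ) (_hq : 0 < q) {k : ℕ} (hk : k ∈ KO Y)
    (p : ℕ × ℕ) :
    (if Odd p.2 then Fn s (fam s i) d q Y (2 ^ p.1 * (k * p.2 ^ 2)) else 0) =
      js (fam s i).e k * js (d : ℤ) k / √k *
        ((if Nat.Coprime d p.2 then (1 : ℝ) else 0) * Lt s (fam s i).η ((q : ℝ) / (k : ℝ) ^ 2) p) := by
  classical
  unfold KO at hk
  rw [mem_filter, mem_Icc] at hk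
  obtain ⟨⟨hk1, hkY⟩, hko, hks⟩ := hk
  obtain ⟨j, m⟩ := p
  show (if Odd m then Fn s (fam s i) d q Y (2 ^ j * (k * m ^ 2)) else 0) =
      js (fam s i).e k * js (d : ℤ) k / √k *
        ((if Nat.Coprime d m then (1 : ℝ) else 0) * Lt s (fam s i).η ((q : ℝ) / (k : ℝ) ^ 2) (j, m))
  by_cases ho : Odd m
  · obtain ⟨c1, c2, c3⟩ := dec_uniq (j := j) hko hks ho
    have hY : PY Y (2 ^ j * (k * m ^ 2)) := by
      unfold PY
      rw [c2]
      exact hkY
    have hm0 : m ≠ 0 := ho.pos.ne'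
    have hk0 : k ≠ 0 := by omega
    have hko2 : Odd (k * m ^ 2) := hko.mul ho.pow
    rw [if_pos ho]
    unfold Fn Lt
    rw [if_pos ⟨c1, hY⟩]
    show cf (fam s i) d (2 ^ j * (k * m ^ 2)) * (V s (((2 ^ j * (k * m ^ 2) : ℕ) : ℝ) ^ 2 / q) /
      √((2 ^ j * (k * m ^ 2) : ℕ) : ℝ)) = js (fam s i).e k * js (d : ℤ) k / √k *
        ((if Nat.Coprime d m then (1 : ℝ) else 0) * (((fam s i).η / √2) ^ j *
          (if Odd m then V s ((4 : ℝ) ^ j * (m : ℝ) ^ 4 / ((q : ℝ) / (k : ℝ) ^ 2)) / (m : ℝ) else 0)))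
    rw [if_pos ho]
    unfold cf jo
    rw [c3, Nat.mul_div_cancel_left _ (by positivity), if_pos hko2, js_mul', js_e s hs i k m hk0 ho,
      js_sq_arg d k m hk0 hm0, sqrt_n]
    have e1 : ((2 ^ j * (k * m ^ 2) : ℕ) : ℝ) ^ 2 / q = (4 : ℝ) ^ j * (m : ℝ) ^ 4 / ((q : ℝ) / (k : ℝ) ^ 2) := by
      have h4 : ((2 : ℝ) ^ j) ^ 2 = 4 ^ j := by
        rw [← pow_mul, mul_comm j 2, pow_mul]
        norm_num
      rw [div_div_eq_mul_div]
      push_cast
      rw [mul_pow, h4]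
      ring
    rw [e1]
    have hk2 : (0 : ℝ) < √k := Real.sqrt_pos.2 (by exact_mod_cast hk1)
    have hmR : (0 : ℝ) < m := by exact_mod_cast ho.pos
    have h2 : (0 : ℝ) < √2 := by positivity
    rw [div_pow]
    field_simp
  · rw [if_neg ho]
    unfold Lt
    rw [if_neg ho]
    ring

lemma Fn_norm {C : ℝ} (hC : 0 < C) {s : ℤ} (hV : ∀ z : ℝ, 0 < z → V s z ≤ C / z ^ 2) {φ : FD} (hφ : Fam φ)
    (d Y : ℕ) {q : ℕ} (hq : 0 < q) (n : ℕ) : ‖Fn s φ d q Y n‖ ≤ C * (q : ℝ) ^ 2 * (1 / (n : ℝ) ^ 4) := by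
  classical
  unfold Fn
  split_ifs with h
  · have hn : (0 : ℝ) < n := by exact_mod_cast Nat.pos_of_ne_zero h.1
    have hn1 : (1 : ℝ) ≤ n := by exact_mod_cast Nat.pos_of_ne_zero h.1
    have hqR : (0 : ℝ) < q := by exact_mod_cast hq
    have hz : 0 < (n : ℝ) ^ 2 / q := by positivity
    have h1 := hV _ hz
    have h2 := ((V_facts s).2.1 _ hz.le).1
    have h3 : (1 : ℝ) ≤ √n := Real.one_le_sqrt.2 hn1
    have h4 : |cf φ d n| ≤ 1 := by
      have := Pool.Agent.H408R2.RGCC5.cf_le hφ d n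
      exact this
    rw [norm_mul, Real.norm_eq_abs, Real.norm_of_nonneg (div_nonneg h2 (Real.sqrt_nonneg _))]
    calc |cf φ d n| * (V s ((n : ℝ) ^ 2 / q) / √n) ≤ 1 * (C / ((n : ℝ) ^ 2 / q) ^ 2) :=
          mul_le_mul h4 ((div_le_self h2 h3).trans h1) (div_nonneg h2 (Real.sqrt_nonneg _)) zero_le_one
      _ = _ := by field_simp
  · rw [norm_zero]
    positivity

lemma Fn_summable {C : ℝ} (hC : 0 < C) {s : ℤ} (hV : ∀ z : ℝ, 0 < z → V s z ≤ C / z ^ 2) {φ : FD} (hφ : Fam φ)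
    (d Y : ℕ) {q : ℕ} (hq : 0 < q) : Summable (Fn s φ d q Y) :=
  Summable.of_norm_bounded ((Real.summable_one_div_nat_pow.2 (by norm_num : 1 < 4)).mul_left _)
    (Fn_norm hC hV hφ d Y hq)

/-- the value of the full series -/
lemma Fn_tsum {C : ℝ} (hC : 0 < C) {s : ℤ} (hs : s = 1 ∨ s = -1) (hV : ∀ z : ℝ, 0 < z → V s z ≤ C / z ^ 2)
    (i : Fin 4) {d : ℕ} (hd : Odd d) (hη : |(fam s i).η| ≤ 1) (Y : ℕ) {q : ℕ} (hq : 0 < q) :
    ∑' n, Fn s (fam s i) d q Y n = ∑ k ∈ KO Y, js (fam s i).e k * js (d : ℤ) k / √k *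
      ∑ f ∈ d.divisors, mu f / f * La s (fam s i).η ((q : ℝ) / ((k : ℝ) ^ 2 * (f : ℝ) ^ 4)) := by
  classical
  have hφ : Fam (fam s i) := ⟨s, hs, fam_mem s i⟩
  rw [split_k (Fn s (fam s i) d q Y) (Fn_summable hC hV hφ d Y hq) Y]
  · refine sum_congr rfl fun k hk => ?_
    rw [tsum_congr (fun p => Fn_eval s hs i d q Y hq hk p), tsum_mul_left]
    have hk1 : 1 ≤ k := by
      unfold KO at hk
      rw [mem_filter, mem_Icc] at hk
      exact hk.1.1
    have hz : 0 < (q : ℝ) / (k : ℝ) ^ 2 := by positivity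
    rw [cop_tsum s (fam s i).η _ hη hz hd]
    congr 1
    refine sum_congr rfl fun f _ => ?_
    rw [div_div]
  · intro n hn
    unfold Fn
    rw [if_neg hn]

end Pt

open Classical in
theorem point (s : ℤ) (hs : s = 1 ∨ s = -1) : ∃ C : ℝ, 0 < C ∧ ∀ (i : Fin 4) (d Y : ℕ), (fam s i).A d → Squarefree d →
    ‖PV s (PY Y) ((fam s i).r * d) - ((2 * ∑ k ∈ KO Y, js (fam s i).e k * js (d : ℤ) k / √k * ∑ f ∈ d.divisors, mu f / f *
      La s (fam s i).η ((((fam s i).r * d : ℕ) : ℝ) / ((k : ℝ) ^ 2 * (f : ℝ) ^ 4)) : ℝ) : ℂ)‖ ≤ C / (((fam s i).r * d : ℕ) : ℝ) := by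
  obtain ⟨C, hC, hV⟩ := Pt.V_bd s
  refine ⟨2 * C, by positivity, fun i d Y hA hsq => ?_⟩
  have hφ : Fam (fam s i) := ⟨s, hs, fam_mem s i⟩
  obtain ⟨hd0, hr, hq2, -⟩ := rp_of s hs (fam s i) (fam_mem s i) d hA hsq
  obtain ⟨R, -, -, -, hη, -⟩ := fam_R s hs i
  have hdo : Odd d := Nat.odd_iff.2 (fam_odd s hs i d hA)
  obtain ⟨hvl, -⟩ := LL_fam hs (fam s i) (fam_mem s i) d hA hsq
  generalize hq : (fam s i).r * d = q at *
  have hq0 : 0 < q := by omega
  have hfull := Pt.Fn_tsum hC hs hV i hdo hη Y hq0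
  have hsum := Pt.Fn_summable hC hV hφ d Y hq0
  have hsplit := hsum.sum_add_tsum_nat_add (q + 1)
  have hfin : PV s (PY Y) q = ((2 * ∑ n ∈ range (q + 1), Pt.Fn s (fam s i) d q Y n : ℝ) : ℂ) := by
    unfold PV
    rw [Complex.ofReal_mul, Complex.ofReal_ofNat, Complex.ofReal_sum]
    congr 1
    have h1 : ∀ n ∈ (Icc 1 q).filter (PY Y), vl s q n * (wt s q n : ℂ) =
        ((Pt.Fn s (fam s i) d q Y n : ℝ) : ℂ) := by
      intro n hn
      rw [mem_filter, mem_Icc] at hn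
      obtain ⟨m, rfl⟩ : ∃ m, n = m + 1 := ⟨n - 1, by omega⟩
      unfold Pt.Fn
      rw [if_pos ⟨by omega, hn.2⟩, hvl m, Complex.ofReal_mul]
      rfl
    rw [sum_congr rfl h1]
    refine sum_subset (fun n hn => ?_) (fun n hn hn2 => ?_)
    · rw [mem_filter, mem_Icc] at hn
      rw [mem_range]
      omega
    · rw [mem_range] at hn
      rw [mem_filter, mem_Icc] at hn2
      unfold Pt.Fn
      rw [if_neg, Complex.ofReal_zero]
      rintro ⟨h3, h4⟩
      exact hn2 ⟨⟨by omega, by omega⟩, h4⟩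
  set c : ℕ → ℝ := fun m => if PY Y (m + 1) then cf (fam s i) d (m + 1) else 0 with hc
  have hc1 : ∀ m, |c m| ≤ 1 := by
    intro m
    rw [hc]
    show |if PY Y (m + 1) then cf (fam s i) d (m + 1) else 0| ≤ 1
    split_ifs
    · exact Pool.Agent.H408R2.RGCC5.cf_le hφ d (m + 1)
    · simp
  have htail := tail_le hC hV c hc1 (by omega : 1 ≤ q)
  have htail2 : ∀ n : ℕ, Pt.Fn s (fam s i) d q Y (n + (q + 1)) = c (n + q) *
      (V s ((((n + q : ℕ) : ℝ) + 1) ^ 2 / (q : ℝ)) / √(((n + q : ℕ) : ℝ) + 1)) := by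
    intro n
    have e0 : n + (q + 1) = n + q + 1 := rfl
    have e1 : (((n + (q + 1) : ℕ)) : ℝ) = ((n + q : ℕ) : ℝ) + 1 := by
      push_cast
      ring
    unfold Pt.Fn
    rw [e1, hc]
    show (if n + (q + 1) ≠ 0 ∧ PY Y (n + (q + 1)) then _ else _) =
      (if PY Y (n + q + 1) then cf (fam s i) d (n + q + 1) else 0) * _
    rw [e0]
    by_cases h : PY Y (n + q + 1)
    · rw [if_pos ⟨by omega, h⟩, if_pos h]
    · rw [if_neg (fun h2 => h h2.2), if_neg h, zero_mul]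
  rw [tsum_congr htail2] at hsplit
  rw [hfin, ← hfull, ← hsplit, ← Complex.ofReal_sub, Complex.norm_real, Real.norm_eq_abs, ← mul_sub,
    sub_add_cancel_left, abs_mul, abs_neg, abs_of_pos (by norm_num : (0 : ℝ) < 2)]
  calc _ ≤ 2 * (C / q) := mul_le_mul_of_nonneg_left htail (by norm_num)
    _ = _ := by ring

end

end Pool.Agent.J4.H39.CM
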