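import Pool.Agent.J4.H39.CM.Four

set_option autoImplicit false

/-!
Project CM (helper39), piece REG: the truncated model, regrouped by its frequencies.
-/

namespace Pool.Agent.J4.H39.CM

open Complex Finset
open Pool.Agent.N879.QM
open Pool.Agent.N879.QM.Avg (fam)
open Pool.Agent.H306R2.RZ (js)
open Pool.Agent.Y293.SF (mu)

noncomputable section

namespace RG

lemma mem_KO {Y k : ℕ} : k ∈ KO Y ↔ (1 ≤ k ∧ k ≤ Y) ∧ Odd k ∧ Squarefree k := by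
  unfold KO
  rw [mem_filter, mem_Icc]

lemma key (s : ℤ) (hs : s = 1 ∨ s = -1) (i : Fin 4) (w : ℕ → ℕ → ℝ) (θ : ℚ) (Y : ℕ) (p : ℕ × ℕ)
    (h1 : 1 ≤ p.1) (h2 : 1 ≤ p.2) :
    (if kap s i (Nat.lcm (p.2 ^ 2) p.1) θ ≤ Y then tm s i w θ p else 0) =
      ∑ k ∈ KO Y, ((cc s i k p.1 p.2 * w k p.1 : ℝ) : ℂ) * pc s i k (Nat.lcm (p.2 ^ 2) p.1) θ := by
  classical
  have hg : 1 ≤ Nat.lcm (p.2 ^ 2) p.1 := Nat.lcm_pos (by positivity) (by omega)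
  set g := Nat.lcm (p.2 ^ 2) p.1 with hgdef
  set κ := kap s i g θ with hκ
  have hκ1 : 1 ≤ κ := by
    rw [hκ]
    unfold kap
    exact Rat.den_pos _
  have h0 : ∀ k ∈ KO Y, k ≠ κ → ((cc s i k p.1 p.2 * w k p.1 : ℝ) : ℂ) * pc s i k g θ = 0 := by
    intro k hk hne
    have hk' := mem_KO.1 hk
    have : pc s i k g θ = 0 := by
      by_contra h
      exact hne (pc_kap s hs i k g θ hk'.2.1 hk'.2.2 hg h)
    rw [this, mul_zero]
  by_cases hm : κ ∈ KO Y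
  · have hm' := mem_KO.1 hm
    rw [sum_eq_single κ h0 (fun h => absurd hm h), if_pos hm'.1.2]
    unfold tm
    rw [if_pos ⟨h1, h2, by rw [← hgdef, ← hκ]; exact hm'.2.1, by rw [← hgdef, ← hκ]; exact hm'.2.2⟩]
  · rw [sum_eq_zero fun k hk => h0 k hk (fun h => hm (h ▸ hk))]
    split_ifs with h3
    · unfold tm
      rw [if_neg]
      rintro ⟨-, -, h4, h5⟩
      exact hm (mem_KO.2 ⟨⟨hκ1, h3⟩, h4, h5⟩)
    · rfl

end RG

open RG in
theorem regroup (s : ℤ) (hs : s = 1 ∨ s = -1) (B : Fin 4 → ℝ) (Y Z q D : ℕ) (hq : 1 ≤ q) (hD : 64 * Y * Z ^ 3 ≤ D) :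
    ((Gp s B Y Z q : ℝ) : ℂ) = Gm (Fr D) (c1t s Y Z) (c0t s B Y Z) q := by
  classical
  have hqR : (0 : ℝ) < q := by exact_mod_cast hq
  have hc1 : ∀ θ : ℚ, c1t s Y Z θ = ∑ i : Fin 4, ∑ p ∈ Icc 1 Z ×ˢ Icc 1 Z,
      ∑ k ∈ KO Y, ((cc s i k p.1 p.2 * w1 s i k p.1 : ℝ) : ℂ) * pc s i k (Nat.lcm (p.2 ^ 2) p.1) θ := by
    intro θ
    unfold c1t
    refine sum_congr rfl fun i _ => sum_congr rfl fun p hp => ?_
    rw [mem_product, mem_Icc, mem_Icc] at hp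
    exact key s hs i (w1 s i) θ Y p hp.1.1 hp.2.1
  have hc0 : ∀ θ : ℚ, c0t s B Y Z θ = ∑ i : Fin 4, ∑ p ∈ Icc 1 Z ×ˢ Icc 1 Z,
      ∑ k ∈ KO Y, ((cc s i k p.1 p.2 * w0 s B i k p.1 : ℝ) : ℂ) * pc s i k (Nat.lcm (p.2 ^ 2) p.1) θ := by
    intro θ
    unfold c0t
    refine sum_congr rfl fun i _ => sum_congr rfl fun p hp => ?_
    rw [mem_product, mem_Icc, mem_Icc] at hp
    exact key s hs i (w0 s B i) θ Y p hp.1.1 hp.2.1
  have hR : Gm (Fr D) (c1t s Y Z) (c0t s B Y Z) q = ∑ i : Fin 4, ∑ p ∈ Icc 1 Z ×ˢ Icc 1 Z, ∑ k ∈ KO Y,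
      ((cc s i k p.1 p.2 * (w1 s i k p.1 * Real.log q + w0 s B i k p.1) : ℝ) : ℂ) *
        ∑ θ ∈ Fr D, pc s i k (Nat.lcm (p.2 ^ 2) p.1) θ * e ((θ : ℝ) * q) := by
    unfold Gm
    rw [if_neg (by omega)]
    have e1 : ∀ θ ∈ Fr D, (c1t s Y Z θ * Real.log q + c0t s B Y Z θ) * e ((θ : ℝ) * q) =
        ∑ i : Fin 4, ∑ p ∈ Icc 1 Z ×ˢ Icc 1 Z, ∑ k ∈ KO Y,
          ((cc s i k p.1 p.2 * (w1 s i k p.1 * Real.log q + w0 s B i k p.1) : ℝ) : ℂ) *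
            (pc s i k (Nat.lcm (p.2 ^ 2) p.1) θ * e ((θ : ℝ) * q)) := by
      intro θ _
      rw [hc1, hc0, sum_mul, ← sum_add_distrib, sum_mul]
      refine sum_congr rfl fun i _ => ?_
      rw [sum_mul, ← sum_add_distrib, sum_mul]
      refine sum_congr rfl fun p _ => ?_
      rw [sum_mul, ← sum_add_distrib, sum_mul]
      refine sum_congr rfl fun k _ => ?_
      push_cast
      ring
    rw [sum_congr rfl e1, sum_comm]
    refine sum_congr rfl fun i _ => ?_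
    rw [sum_comm]
    refine sum_congr rfl fun p _ => ?_
    rw [sum_comm]
    refine sum_congr rfl fun k _ => ?_
    rw [mul_sum]
  rw [hR]
  have hL : ((Gp s B Y Z q : ℝ) : ℂ) = ∑ i : Fin 4, ∑ p ∈ Icc 1 Z ×ˢ Icc 1 Z, ∑ k ∈ KO Y,
      ((cc s i k p.1 p.2 * (w1 s i k p.1 * Real.log q + w0 s B i k p.1) : ℝ) : ℂ) *
        ((Pf s i k (Nat.lcm (p.2 ^ 2) p.1) q : ℝ) : ℂ) := by
    unfold Gp
    push_cast
    refine sum_congr rfl fun i _ => ?_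
    rw [sum_comm' (s := KO Y) (t := fun _ => Icc 1 Z) (t' := Icc 1 Z) (s' := fun _ => KO Y)
      (by intro x y; tauto)]
    rw [sum_product]
    refine sum_congr rfl fun f hf => ?_
    rw [sum_comm]
    refine sum_congr rfl fun b _ => sum_congr rfl fun k hk => ?_
    have hk' := mem_KO.1 hk
    rw [mem_Icc] at hf
    have hkR : (0 : ℝ) < k := by exact_mod_cast hk'.1.1
    have hfR : (0 : ℝ) < f := by exact_mod_cast hf.1
    have h1 : Real.log ((q : ℝ) / ((k : ℝ) ^ 2 * (f : ℝ) ^ 4)) =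
        Real.log q - Real.log ((k : ℝ) ^ 2 * (f : ℝ) ^ 4) :=
      Real.log_div hqR.ne' (by positivity)
    unfold w1 w0
    simp only
    rw [h1]
    push_cast
    ring
  rw [hL]
  refine sum_congr rfl fun i _ => sum_congr rfl fun p hp => sum_congr rfl fun k hk => ?_
  have hk' := mem_KO.1 hk
  rw [mem_product, mem_Icc, mem_Icc] at hp
  have hg : 1 ≤ Nat.lcm (p.2 ^ 2) p.1 := Nat.lcm_pos (by have := hp.2.1; positivity) (by omega)
  have hg2 : Nat.lcm (p.2 ^ 2) p.1 ≤ Z ^ 3 := by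
    calc Nat.lcm (p.2 ^ 2) p.1 ≤ p.2 ^ 2 * p.1 := Nat.lcm_le_mul (by have := hp.2.1; positivity) (by omega)
      _ ≤ Z ^ 2 * Z := Nat.mul_le_mul (Nat.pow_le_pow_left hp.2.2 2) hp.1.2
      _ = Z ^ 3 := by ring
  rw [four_eq s hs i k (Nat.lcm (p.2 ^ 2) p.1) q D hk'.2.1 hk'.2.2 hg]
  refine le_trans ?_ hD
  exact Nat.mul_le_mul (Nat.mul_le_mul_left 64 hk'.1.2) hg2

end

end Pool.Agent.J4.H39.CM
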