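import Pool.Agent.J4.H39.CM.Def2

set_option autoImplicit false

/-!
Project CM (helper39), piece SHIFT: correlations of the models.
-/

namespace Pool.Agent.J4.H39.CM

open Complex Finset

noncomputable section

namespace Shift

lemma e_conj (x : ℝ) : (starRingEnd ℂ) (e x) = e (-x) := by
  unfold e
  rw [← Complex.exp_conj]
  congr 1
  simp only [map_mul, Complex.conj_I, Complex.conj_ofReal, map_ofNat]
  push_cast
  ring

lemma e_zero : e 0 = 1 := by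
  have := e_int 0
  rwa [Int.cast_zero] at this

lemma icc_range (f : ℕ → ℂ) (M : ℕ) : ∑ q ∈ Icc 1 M, f q = ∑ t ∈ range M, f (t + 1) := by
  induction M with
  | zero => simp
  | succ M ih => rw [Finset.sum_Icc_succ_top (by omega), ih, sum_range_succ]

/-- sums with a monotone weight -/
lemma wsum (w : ℕ → ℝ) (M : ℕ) (B x y : ℝ) (hw : Monotone w) (hw0 : ∀ n, 0 ≤ w n) (hB : w M ≤ B)
    (hy : 0 < y) (h : y ≤ ni x) : ‖∑ q ∈ Icc 1 M, (w q : ℂ) * e (x * q)‖ ≤ 4 * B / y := by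
  have hB0 : 0 ≤ B := (hw0 M).trans hB
  have h1 : ∑ q ∈ Icc 1 M, (w q : ℂ) * e (x * q) =
      e x * ∑ t ∈ range M, (w (min (t + 1) M) : ℂ) * e (x * t) := by
    rw [icc_range, mul_sum]
    refine sum_congr rfl fun t ht => ?_
    have h2 : t < M := mem_range.1 ht
    have h3 : min (t + 1) M = t + 1 := min_eq_left h2
    have h4 : x * ((t + 1 : ℕ) : ℝ) = x + x * t := by push_cast; ring
    rw [h3, h4, e_add]
    ring
  rw [h1, norm_mul, e_norm, one_mul]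
  have h5 := mono_abel (fun t : ℕ => e (x * t)) (fun t => w (min (t + 1) M)) B (kb M x) M
    (fun a b hab => hw (min_le_min_right _ (Nat.succ_le_succ hab))) (fun n => hw0 _)
    (fun n => (hw (min_le_right _ _)).trans hB)
    (fun n hn => geom x M n (by exact_mod_cast hn))
  refine h5.trans ?_
  have h6 := kb_le_inv (T := (M : ℝ)) (Nat.cast_nonneg M) hy h
  have h7 : 2 * B * kb M x ≤ 2 * B * (2 / y) := mul_le_mul_of_nonneg_left h6 (by positivity)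
  refine h7.trans (le_of_eq ?_)
  ring

lemma mem_fr {θ : ℚ} {W : ℕ} (h : 0 ≤ θ ∧ θ < 1 ∧ θ.den ≤ W) : (θ.den, θ.num.toNat) ∈ fr W := by
  obtain ⟨h0, h1, h2⟩ := h
  have h3 : 0 ≤ θ.num := Rat.num_nonneg.2 h0
  have h4 : θ.num < θ.den := by
    have h5 : (θ.num : ℚ) / θ.den < 1 := by rwa [Rat.num_div_den]
    rw [div_lt_one (by exact_mod_cast θ.pos)] at h5
    exact_mod_cast h5
  have h5 := θ.reduced
  have h6 := θ.pos
  unfold fr
  rw [Finset.mem_filter, Finset.mem_product, Finset.mem_Icc, Finset.mem_range]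
  refine ⟨⟨⟨h6, h2⟩, ?_⟩, ?_, ?_⟩
  · change θ.num.toNat < W
    omega
  · change θ.num.toNat < θ.den
    omega
  · change Nat.Coprime θ.num.toNat θ.den
    have h7 : θ.num.toNat = θ.num.natAbs := by omega
    rw [h7]
    exact h5

lemma cast_eq {θ : ℚ} (h : 0 ≤ θ) : (θ : ℝ) = ((θ.num.toNat : ℕ) : ℝ) / ((θ.den : ℕ) : ℝ) := by
  have h3 : 0 ≤ θ.num := Rat.num_nonneg.2 h
  have h4 : ((θ.num.toNat : ℕ) : ℝ) = (θ.num : ℝ) := by
    have h5 : ((θ.num.toNat : ℕ) : ℤ) = θ.num := Int.toNat_of_nonneg h3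
    exact_mod_cast congrArg (Int.cast : ℤ → ℝ) h5
  rw [h4]
  exact Rat.cast_def θ

lemma ni_sub {θ θ' : ℚ} {W : ℕ} (h : 0 ≤ θ ∧ θ < 1 ∧ θ.den ≤ W) (h' : 0 ≤ θ' ∧ θ' < 1 ∧ θ'.den ≤ W)
    (hne : θ ≠ θ') : 1 / (W : ℝ) ^ 2 ≤ ni ((θ : ℝ) - θ') := by
  have h1 : (θ.den, θ.num.toNat) ≠ (θ'.den, θ'.num.toNat) := by
    intro h2
    rw [Prod.mk.injEq] at h2
    apply hne
    have h3 := Rat.num_nonneg.2 h.1
    have h4 := Rat.num_nonneg.2 h'.1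
    exact Rat.ext (by omega) h2.1
  have h2 := frac_sp (mem_fr h) (mem_fr h') h1 (round ((θ : ℝ) - θ'))
  unfold ni
  rw [cast_eq h.1, cast_eq h'.1] at h2 ⊢
  exact h2

lemma log_mono (h : ℕ) : Monotone fun q : ℕ => Real.log ((q + h : ℕ) : ℝ) := by
  intro a b hab
  rcases Nat.eq_zero_or_pos (a + h) with h0 | h0
  · change Real.log ((a + h : ℕ) : ℝ) ≤ Real.log ((b + h : ℕ) : ℝ)
    rw [h0, Nat.cast_zero, Real.log_zero]
    exact Real.log_natCast_nonneg _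
  · exact Real.log_le_log (by exact_mod_cast h0) (by exact_mod_cast Nat.add_le_add_right hab h)

end Shift

open Shift

theorem shift2 : ∃ C : ℝ, 0 < C ∧ ∀ (S : Finset ℚ) (W N h : ℕ) (a b : ℚ → ℂ) (K : ℝ), 1 ≤ N → 1 ≤ W → 1 ≤ K → h ≤ N →
    (∀ θ ∈ S, 0 ≤ θ ∧ θ < 1 ∧ θ.den ≤ W) → ∑ θ ∈ S, (‖a θ‖ + ‖b θ‖) ≤ K →
    ‖(∑ q ∈ Icc 1 (N - h), Gm S a b q * (starRingEnd ℂ) (Gm S a b (q + h))) -
      ∑ θ ∈ S, e (-((θ : ℝ) * h)) * ∑ q ∈ Icc 1 (N - h), (a θ * Real.log q + b θ) *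
        (starRingEnd ℂ) (a θ * Real.log ((q + h : ℕ) : ℝ) + b θ)‖ ≤ C * (1 + Real.log N) ^ 2 * (W : ℝ) ^ 2 * K ^ 2 := by
  refine ⟨4, by norm_num, fun S W N h a b K hN hW hK hh hS hab => ?_⟩
  set M := N - h with hM
  have hMN : M + h = N := by omega
  set l : ℝ := 1 + Real.log N with hl
  have hlog0 : 0 ≤ Real.log (N : ℝ) := Real.log_natCast_nonneg N
  have hl1 : 1 ≤ l := by linarith
  have hW0 : (0 : ℝ) < (W : ℝ) ^ 2 := by
    have : (0 : ℝ) < W := by exact_mod_cast hW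
    positivity
  -- the four sums
  have hlM : Real.log (M : ℝ) ≤ l := by
    have h1 := log_mono 0 (show M ≤ N by omega)
    simp only [add_zero] at h1
    linarith
  have hlMh : Real.log ((M + h : ℕ) : ℝ) ≤ l := by rw [hMN]; linarith
  have hlog1 : ∀ q : ℕ, 0 ≤ Real.log (q : ℝ) := fun q => Real.log_natCast_nonneg q
  have hlm : Monotone fun q : ℕ => Real.log (q : ℝ) := by
    have h1 := log_mono 0
    simpa using h1
  have four : ∀ x : ℝ, 1 / (W : ℝ) ^ 2 ≤ ni x → ∀ c1 c0 d1 d0 : ℂ,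
      ‖∑ q ∈ Icc 1 M, (c1 * Real.log q + c0) * (d1 * Real.log ((q + h : ℕ) : ℝ) + d0) *
        e (x * q)‖ ≤ (‖c1‖ + ‖c0‖) * (‖d1‖ + ‖d0‖) * (4 * l ^ 2 * (W : ℝ) ^ 2) := by
    intro x hx c1 c0 d1 d0
    have hy : 0 < 1 / (W : ℝ) ^ 2 := by positivity
    have e1 := wsum (fun q => Real.log (q : ℝ) * Real.log ((q + h : ℕ) : ℝ)) M (l ^ 2) x _
      (fun p q hpq => mul_le_mul (hlm hpq) (log_mono h hpq) (hlog1 _) (hlog1 _))
      (fun n => mul_nonneg (hlog1 _) (hlog1 _))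
      (by rw [pow_two]; exact mul_le_mul hlM hlMh (hlog1 _) (by linarith)) hy hx
    have e2 := wsum (fun q => Real.log (q : ℝ)) M (l ^ 2) x _ hlm hlog1
      (by nlinarith) hy hx
    have e3 := wsum (fun q => Real.log ((q + h : ℕ) : ℝ)) M (l ^ 2) x _ (log_mono h)
      (fun n => hlog1 _) (by nlinarith) hy hx
    have e4 := wsum (fun _ => (1 : ℝ)) M (l ^ 2) x _ (fun _ _ _ => le_rfl)
      (fun n => zero_le_one) (by nlinarith) hy hx
    have e0 : 4 * l ^ 2 / (1 / (W : ℝ) ^ 2) = 4 * l ^ 2 * (W : ℝ) ^ 2 := by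
      rw [div_div_eq_mul_div, div_one]
    rw [e0] at e1 e2 e3 e4
    set Y := 4 * l ^ 2 * (W : ℝ) ^ 2 with hY
    have h1 : ∑ q ∈ Icc 1 M, (c1 * Real.log q + c0) * (d1 * Real.log ((q + h : ℕ) : ℝ) + d0) *
        e (x * q) =
        c1 * d1 * ∑ q ∈ Icc 1 M, ((Real.log (q : ℝ) * Real.log ((q + h : ℕ) : ℝ) : ℝ) : ℂ) * e (x * q) +
        c1 * d0 * ∑ q ∈ Icc 1 M, ((Real.log (q : ℝ) : ℝ) : ℂ) * e (x * q) +
        c0 * d1 * ∑ q ∈ Icc 1 M, ((Real.log ((q + h : ℕ) : ℝ) : ℝ) : ℂ) * e (x * q) +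
        c0 * d0 * ∑ q ∈ Icc 1 M, ((1 : ℝ) : ℂ) * e (x * q) := by
      rw [mul_sum, mul_sum, mul_sum, mul_sum, ← sum_add_distrib, ← sum_add_distrib,
        ← sum_add_distrib]
      refine sum_congr rfl fun q _ => ?_
      rw [Complex.ofReal_mul, Complex.ofReal_one]
      ring
    rw [h1]
    have h2 : ∀ (u v s : ℂ), ‖s‖ ≤ Y → ‖u * v * s‖ ≤ ‖u‖ * ‖v‖ * Y := by
      intro u v s hs
      rw [norm_mul, norm_mul]
      exact mul_le_mul_of_nonneg_left hs (by positivity)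
    have f1 := h2 c1 d1 _ e1
    have f2 := h2 c1 d0 _ e2
    have f3 := h2 c0 d1 _ e3
    have f4 := h2 c0 d0 _ e4
    refine (norm_add_le _ _).trans ?_
    refine (add_le_add ((norm_add_le _ _).trans (add_le_add ((norm_add_le _ _).trans
      (add_le_add f1 f2)) f3)) f4).trans (le_of_eq ?_)
    ring
  -- the expansion
  set T : ℚ → ℚ → ℂ := fun θ θ' => e (-((θ' : ℝ) * h)) * ∑ q ∈ Icc 1 M,
    (a θ * Real.log q + b θ) * ((starRingEnd ℂ) (a θ') * Real.log ((q + h : ℕ) : ℝ) +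
      (starRingEnd ℂ) (b θ')) * e (((θ : ℝ) - θ') * q) with hT
  have hexp : ∑ q ∈ Icc 1 M, Gm S a b q * (starRingEnd ℂ) (Gm S a b (q + h)) =
      ∑ θ ∈ S, ∑ θ' ∈ S, T θ θ' := by
    have h1 : ∀ q ∈ Icc 1 M, Gm S a b q * (starRingEnd ℂ) (Gm S a b (q + h)) =
        ∑ θ ∈ S, ∑ θ' ∈ S, e (-((θ' : ℝ) * h)) * ((a θ * Real.log q + b θ) *
          ((starRingEnd ℂ) (a θ') * Real.log ((q + h : ℕ) : ℝ) + (starRingEnd ℂ) (b θ')) *
            e (((θ : ℝ) - θ') * q)) := by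
      intro q hq
      have hq1 : 1 ≤ q := (mem_Icc.1 hq).1
      unfold Gm
      rw [if_neg (by omega), if_neg (by omega), map_sum, sum_mul_sum]
      refine sum_congr rfl fun θ _ => sum_congr rfl fun θ' _ => ?_
      rw [map_mul, e_conj, map_add, map_mul, Complex.conj_ofReal]
      have h2 : e (-((θ' : ℝ) * ((q + h : ℕ) : ℝ))) = e (-((θ' : ℝ) * h)) * e (-((θ' : ℝ) * q)) := by
        rw [← e_add]
        congr 1
        push_cast
        ring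
      have h3 : e (((θ : ℝ) - θ') * q) = e ((θ : ℝ) * q) * e (-((θ' : ℝ) * q)) := by
        rw [← e_add]
        congr 1
        ring
      rw [h2, h3]
      ring
    rw [sum_congr rfl h1, sum_comm]
    refine sum_congr rfl fun θ _ => ?_
    rw [sum_comm]
    refine sum_congr rfl fun θ' _ => ?_
    exact (mul_sum _ _ _).symm
  have hdiag : ∀ θ, T θ θ = e (-((θ : ℝ) * h)) * ∑ q ∈ Icc 1 M, (a θ * Real.log q + b θ) *
        (starRingEnd ℂ) (a θ * Real.log ((q + h : ℕ) : ℝ) + b θ) := by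
    intro θ
    rw [hT]
    change e (-((θ : ℝ) * h)) * _ = _
    congr 1
    refine sum_congr rfl fun q _ => ?_
    rw [sub_self, zero_mul, e_zero, mul_one, map_add, map_mul, Complex.conj_ofReal]
  have hoff : ∀ θ ∈ S, ∀ θ' ∈ S.erase θ, ‖T θ θ'‖ ≤
      (‖a θ‖ + ‖b θ‖) * (‖a θ'‖ + ‖b θ'‖) * (4 * l ^ 2 * (W : ℝ) ^ 2) := by
    intro θ hθ θ' hθ'
    rw [mem_erase] at hθ'
    have h1 := ni_sub (hS θ hθ) (hS θ' hθ'.2) hθ'.1.symm
    have h2 := four _ h1 (a θ) (b θ) ((starRingEnd ℂ) (a θ')) ((starRingEnd ℂ) (b θ'))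
    rw [RCLike.norm_conj, RCLike.norm_conj] at h2
    rw [hT]
    change ‖e (-((θ' : ℝ) * h)) * _‖ ≤ _
    rw [norm_mul, e_norm, one_mul]
    exact h2
  have hsub : (∑ q ∈ Icc 1 M, Gm S a b q * (starRingEnd ℂ) (Gm S a b (q + h))) -
      ∑ θ ∈ S, e (-((θ : ℝ) * h)) * ∑ q ∈ Icc 1 M, (a θ * Real.log q + b θ) *
        (starRingEnd ℂ) (a θ * Real.log ((q + h : ℕ) : ℝ) + b θ) =
      ∑ θ ∈ S, ∑ θ' ∈ S.erase θ, T θ θ' := by
    rw [hexp, ← sum_sub_distrib]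
    refine sum_congr rfl fun θ hθ => ?_
    rw [← hdiag θ, ← add_sum_erase S (T θ) hθ]
    ring
  rw [hsub]
  have hc : ∀ θ, 0 ≤ ‖a θ‖ + ‖b θ‖ := fun θ => by positivity
  have hY0 : 0 ≤ 4 * l ^ 2 * (W : ℝ) ^ 2 := by positivity
  calc ‖∑ θ ∈ S, ∑ θ' ∈ S.erase θ, T θ θ'‖
      ≤ ∑ θ ∈ S, ∑ θ' ∈ S.erase θ, ‖T θ θ'‖ :=
        (norm_sum_le _ _).trans (sum_le_sum fun θ _ => norm_sum_le _ _)
    _ ≤ ∑ θ ∈ S, ∑ θ' ∈ S.erase θ,
        (‖a θ‖ + ‖b θ‖) * (‖a θ'‖ + ‖b θ'‖) * (4 * l ^ 2 * (W : ℝ) ^ 2) :=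
        sum_le_sum fun θ hθ => sum_le_sum fun θ' hθ' => hoff θ hθ θ' hθ'
    _ ≤ ∑ θ ∈ S, ∑ θ' ∈ S,
        (‖a θ‖ + ‖b θ‖) * (‖a θ'‖ + ‖b θ'‖) * (4 * l ^ 2 * (W : ℝ) ^ 2) :=
        sum_le_sum fun θ _ => sum_le_sum_of_subset_of_nonneg (erase_subset _ _)
          fun θ' _ _ => mul_nonneg (mul_nonneg (hc _) (hc _)) hY0
    _ = (∑ θ ∈ S, (‖a θ‖ + ‖b θ‖)) * (∑ θ ∈ S, (‖a θ‖ + ‖b θ‖)) * (4 * l ^ 2 * (W : ℝ) ^ 2) := by
        rw [sum_mul_sum, sum_mul]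
        refine sum_congr rfl fun θ _ => ?_
        rw [sum_mul]
    _ ≤ K * K * (4 * l ^ 2 * (W : ℝ) ^ 2) := by
        refine mul_le_mul_of_nonneg_right ?_ hY0
        exact mul_le_mul hab hab (sum_nonneg fun θ _ => hc θ) (by linarith)
    _ = 4 * l ^ 2 * (W : ℝ) ^ 2 * K ^ 2 := by ring

end

end Pool.Agent.J4.H39.CM
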