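import Pool.Agent.J4.H39.CM.Def2

set_option autoImplicit false

/-!
Project CM (helper39), piece TFOLD: the `t`-fold convolution of trigonometric polynomials with weights
`a log q + b`.
-/

namespace Pool.Agent.J4.H39.CM

open Complex Finset

noncomputable section

namespace TF

/-- `0` at `0`, else `1` -/
def u1 (x : ℕ) : ℝ := if x = 0 then 0 else 1

/-- truncated logarithm -/
def u0 (N x : ℕ) : ℝ := Real.log ((min x N : ℕ) : ℝ)

lemma u1_mono : Monotone u1 := by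
  intro x y h
  unfold u1
  split_ifs with h1 h2
  · exact le_rfl
  · exact zero_le_one
  · omega
  · exact le_rfl

lemma log_nat_mono : Monotone fun n : ℕ => Real.log (n : ℝ) := by
  intro x y h
  dsimp only
  rcases Nat.eq_zero_or_pos x with h0 | h0
  · rw [h0, Nat.cast_zero, Real.log_zero]
    exact Real.log_natCast_nonneg y
  · exact Real.log_le_log (by exact_mod_cast h0) (by exact_mod_cast h)

lemma u0_mono (N : ℕ) : Monotone (u0 N) := fun x y h =>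
  log_nat_mono (min_le_min_right N h)

lemma u0_nonneg (N x : ℕ) : 0 ≤ u0 N x := Real.log_natCast_nonneg _

lemma u1_nonneg (x : ℕ) : 0 ≤ u1 x := by
  unfold u1
  split_ifs
  · exact le_rfl
  · exact zero_le_one

lemma u0_le (N x : ℕ) : u0 N x ≤ 1 + Real.log N := by
  have h : u0 N x ≤ Real.log N := log_nat_mono (min_le_right x N)
  linarith

lemma u1_le (N x : ℕ) : u1 x ≤ 1 + Real.log N := by
  have h := Real.log_natCast_nonneg N
  unfold u1
  split_ifs <;> linarith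

/-- partial summation -/
theorem pair (u v : ℕ → ℝ) (L S0 β : ℝ) (M : ℕ) (hu : Monotone u) (hv : Monotone v)
    (hu0 : ∀ x, 0 ≤ u x) (hv0 : ∀ x, 0 ≤ v x) (huL : ∀ x, u x ≤ L) (hvL : ∀ x, v x ≤ L)
    (hS : ∀ n, ‖∑ x ∈ range n, e (β * x)‖ ≤ S0) :
    ‖∑ x ∈ range (M + 1), (u x : ℂ) * ((v (M - x) : ℂ) * e (β * x))‖ ≤ 6 * L ^ 2 * S0 := by
  have hL0 : 0 ≤ L := (hu0 0).trans (huL 0)
  have hS0 : 0 ≤ S0 := (norm_nonneg _).trans (hS 0)
  have h1 : ∀ n, ‖∑ x ∈ range n, (v (M - x) : ℂ) * e (β * x)‖ ≤ 3 * L * S0 := by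
    intro n
    have h2 := mono_abel (fun x => e (β * x)) (fun x => L - v (M - x)) L S0 n
      (fun x y hxy => by
        have := hv (show M - y ≤ M - x by omega)
        dsimp only
        linarith)
      (fun x => by have := hvL (M - x); linarith) (fun x => by have := hv0 (M - x); linarith)
      (fun m _ => hS m)
    have e1 : ∑ x ∈ range n, (v (M - x) : ℂ) * e (β * x) =
        (L : ℂ) * ∑ x ∈ range n, e (β * x) - ∑ x ∈ range n, ((L - v (M - x) : ℝ) : ℂ) * e (β * x) := by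
      rw [Finset.mul_sum, ← Finset.sum_sub_distrib]
      refine Finset.sum_congr rfl fun x _ => ?_
      push_cast
      ring
    rw [e1]
    refine (norm_sub_le _ _).trans ?_
    rw [norm_mul, Complex.norm_real, Real.norm_of_nonneg hL0]
    have h3 := mul_le_mul_of_nonneg_left (hS n) hL0
    linarith
  have h2 := mono_abel (fun x => (v (M - x) : ℂ) * e (β * x)) u L (3 * L * S0) (M + 1) hu hu0 huL
    (fun m _ => h1 m)
  calc _ ≤ 2 * L * (3 * L * S0) := h2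
    _ = 6 * L ^ 2 * S0 := by ring

/-- the terms -/
def ff (a b : ℚ → ℂ) (θ : ℚ) (q : ℕ) : ℂ :=
  if q = 0 then 0 else (a θ * Real.log q + b θ) * e ((θ : ℝ) * q)

lemma ff_eq (a b : ℚ → ℂ) (θ : ℚ) {N q : ℕ} (hq : q ≤ N) :
    ff a b θ q = (a θ * (u0 N q : ℂ) + b θ * (u1 q : ℂ)) * e ((θ : ℝ) * q) := by
  unfold ff u0 u1
  rw [min_eq_left hq]
  split_ifs with h
  · rw [h]
    simp
  · simp

lemma ff_norm (a b : ℚ → ℂ) (θ : ℚ) {N q : ℕ} (hq : q ≤ N) :
    ‖ff a b θ q‖ ≤ u1 q * ((1 + Real.log N) * (‖a θ‖ + ‖b θ‖)) := by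
  have hN := Real.log_natCast_nonneg N
  unfold ff u1
  split_ifs with h
  · simp
  · rw [norm_mul, e_norm, mul_one, one_mul]
    refine (norm_add_le _ _).trans ?_
    rw [norm_mul, Complex.norm_real, Real.norm_of_nonneg (Real.log_natCast_nonneg q)]
    have h1 : Real.log (q : ℝ) ≤ Real.log N := log_nat_mono hq
    have h2 := norm_nonneg (a θ)
    have h3 := norm_nonneg (b θ)
    nlinarith [mul_le_mul_of_nonneg_left h1 h2, mul_nonneg hN h3]

lemma sum_ff (a b : ℚ → ℂ) (θ : ℚ) (N : ℕ) :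
    ∑ q ∈ range (N + 1), ‖ff a b θ q‖ ≤ N * ((1 + Real.log N) * (‖a θ‖ + ‖b θ‖)) := by
  calc ∑ q ∈ range (N + 1), ‖ff a b θ q‖
      ≤ ∑ q ∈ range (N + 1), u1 q * ((1 + Real.log N) * (‖a θ‖ + ‖b θ‖)) :=
        Finset.sum_le_sum fun q hq => ff_norm a b θ (Nat.lt_succ_iff.1 (Finset.mem_range.1 hq))
    _ = N * ((1 + Real.log N) * (‖a θ‖ + ‖b θ‖)) := by
        rw [← Finset.sum_mul, Finset.sum_range_succ']
        congr 1
        have : ∀ q ∈ range N, u1 (q + 1) = 1 := fun q _ => by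
          unfold u1
          rw [if_neg (Nat.succ_ne_zero q)]
        rw [Finset.sum_congr rfl this]
        simp [u1]

/-- two frequencies -/
theorem two (a b : ℚ → ℂ) (θ θ' : ℚ) (N M : ℕ) (hM : M ≤ N) (S0 : ℝ)
    (hS : ∀ n, ‖∑ x ∈ range n, e ((((θ : ℝ) - θ')) * x)‖ ≤ S0) :
    ‖∑ x ∈ range (M + 1), ff a b θ x * ff a b θ' (M - x)‖ ≤
      6 * (1 + Real.log N) ^ 2 * S0 * ((‖a θ‖ + ‖b θ‖) * (‖a θ'‖ + ‖b θ'‖)) := by
  obtain ⟨SG, hSG⟩ : ∃ SG : (ℕ → ℝ) → (ℕ → ℝ) → ℂ, SG = fun u v =>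
      ∑ x ∈ range (M + 1), (u x : ℂ) * ((v (M - x) : ℂ) * e (((θ : ℝ) - θ') * x)) := ⟨_, rfl⟩
  have e1 : ∑ x ∈ range (M + 1), ff a b θ x * ff a b θ' (M - x) = e ((θ' : ℝ) * M) *
      (a θ * a θ' * SG (u0 N) (u0 N) + a θ * b θ' * SG (u0 N) u1 + b θ * a θ' * SG u1 (u0 N) +
        b θ * b θ' * SG u1 u1) := by
    rw [hSG]
    simp only [Finset.mul_sum, ← Finset.sum_add_distrib]
    refine Finset.sum_congr rfl fun x hx => ?_
    have hxM : x ≤ M := Nat.lt_succ_iff.1 (Finset.mem_range.1 hx)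
    rw [ff_eq a b θ (hxM.trans hM), ff_eq a b θ' ((Nat.sub_le M x).trans hM)]
    have e2 : e ((θ : ℝ) * x) * e ((θ' : ℝ) * ((M - x : ℕ) : ℝ)) =
        e ((θ' : ℝ) * M) * e (((θ : ℝ) - θ') * x) := by
      rw [← e_add, ← e_add]
      congr 1
      rw [Nat.cast_sub hxM]
      ring
    linear_combination ((a θ * (u0 N x : ℂ) + b θ * (u1 x : ℂ)) *
      (a θ' * (u0 N (M - x) : ℂ) + b θ' * (u1 (M - x) : ℂ))) * e2
  have hb : ∀ u v : ℕ → ℝ, Monotone u → Monotone v → (∀ x, 0 ≤ u x) → (∀ x, 0 ≤ v x) →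
      (∀ x, u x ≤ 1 + Real.log N) → (∀ x, v x ≤ 1 + Real.log N) →
      ‖SG u v‖ ≤ 6 * (1 + Real.log N) ^ 2 * S0 := by
    intro u v h1 h2 h3 h4 h5 h6
    rw [hSG]
    exact pair u v _ S0 _ M h1 h2 h3 h4 h5 h6 hS
  have b00 := hb _ _ (u0_mono N) (u0_mono N) (u0_nonneg N) (u0_nonneg N) (u0_le N) (u0_le N)
  have b01 := hb _ _ (u0_mono N) u1_mono (u0_nonneg N) u1_nonneg (u0_le N) (u1_le N)
  have b10 := hb _ _ u1_mono (u0_mono N) u1_nonneg (u0_nonneg N) (u1_le N) (u0_le N)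
  have b11 := hb _ _ u1_mono u1_mono u1_nonneg u1_nonneg (u1_le N) (u1_le N)
  rw [e1, norm_mul, e_norm, one_mul]
  have n1 := norm_add_le (a θ * a θ' * SG (u0 N) (u0 N) + a θ * b θ' * SG (u0 N) u1 +
    b θ * a θ' * SG u1 (u0 N)) (b θ * b θ' * SG u1 u1)
  have n2 := norm_add_le (a θ * a θ' * SG (u0 N) (u0 N) + a θ * b θ' * SG (u0 N) u1)
    (b θ * a θ' * SG u1 (u0 N))
  have n3 := norm_add_le (a θ * a θ' * SG (u0 N) (u0 N)) (a θ * b θ' * SG (u0 N) u1)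
  simp only [norm_mul] at n1 n2 n3
  have m1 := mul_le_mul_of_nonneg_left b00 (mul_nonneg (norm_nonneg (a θ)) (norm_nonneg (a θ')))
  have m2 := mul_le_mul_of_nonneg_left b01 (mul_nonneg (norm_nonneg (a θ)) (norm_nonneg (b θ')))
  have m3 := mul_le_mul_of_nonneg_left b10 (mul_nonneg (norm_nonneg (b θ)) (norm_nonneg (a θ')))
  have m4 := mul_le_mul_of_nonneg_left b11 (mul_nonneg (norm_nonneg (b θ)) (norm_nonneg (b θ')))
  have e3 : 6 * (1 + Real.log N) ^ 2 * S0 * ((‖a θ‖ + ‖b θ‖) * (‖a θ'‖ + ‖b θ'‖)) =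
      ‖a θ‖ * ‖a θ'‖ * (6 * (1 + Real.log N) ^ 2 * S0) +
      ‖a θ‖ * ‖b θ'‖ * (6 * (1 + Real.log N) ^ 2 * S0) +
      ‖b θ‖ * ‖a θ'‖ * (6 * (1 + Real.log N) ^ 2 * S0) +
      ‖b θ‖ * ‖b θ'‖ * (6 * (1 + Real.log N) ^ 2 * S0) := by ring
  rw [e3]
  linarith

/-- the polynomial with the coefficients `f q`, `q ≤ N` -/
def PP (N : ℕ) (f : ℕ → ℂ) : Polynomial ℂ := ∑ q ∈ range (N + 1), Polynomial.monomial q (f q)

lemma PP_coeff (N : ℕ) (f : ℕ → ℂ) (M : ℕ) (hM : M ≤ N) : (PP N f).coeff M = f M := by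
  unfold PP
  rw [Polynomial.finsetSum_coeff]
  simp only [Polynomial.coeff_monomial]
  rw [Finset.sum_ite_eq' (range (N + 1)) M, if_pos (Finset.mem_range.2 (by omega))]

/-- coefficient bound for products -/
theorem step (N : ℕ) (A P : Polynomial ℂ) (B : ℝ) (hP : ∀ M ≤ N, ‖P.coeff M‖ ≤ B) (M : ℕ)
    (hM : M ≤ N) : ‖(A * P).coeff M‖ ≤ (∑ q ∈ range (N + 1), ‖A.coeff q‖) * B := by
  have hB : 0 ≤ B := (norm_nonneg _).trans (hP 0 (Nat.zero_le _))
  rw [Polynomial.coeff_mul, Finset.Nat.sum_antidiagonal_eq_sum_range_succ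
    (fun i j => A.coeff i * P.coeff j) M]
  refine (norm_sum_le _ _).trans ?_
  rw [Finset.sum_mul]
  calc ∑ k ∈ range M.succ, ‖A.coeff k * P.coeff (M - k)‖
      ≤ ∑ k ∈ range M.succ, ‖A.coeff k‖ * B := by
        refine Finset.sum_le_sum fun k _ => ?_
        rw [norm_mul]
        exact mul_le_mul_of_nonneg_left (hP _ ((Nat.sub_le M k).trans hM)) (norm_nonneg _)
    _ ≤ ∑ k ∈ range (N + 1), ‖A.coeff k‖ * B :=
        Finset.sum_le_sum_of_subset_of_nonneg (Finset.range_mono (by omega))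
          fun k _ _ => mul_nonneg (norm_nonneg _) hB

theorem steps {ι : Type} [DecidableEq ι] (N : ℕ) (J : Finset ι) (A : ι → Polynomial ℂ)
    (P : Polynomial ℂ) (B : ℝ) (hP : ∀ M ≤ N, ‖P.coeff M‖ ≤ B) :
    ∀ M ≤ N, ‖((∏ k ∈ J, A k) * P).coeff M‖ ≤ (∏ k ∈ J, ∑ q ∈ range (N + 1), ‖(A k).coeff q‖) * B := by
  induction J using Finset.induction_on with
  | empty =>
    intro M hM
    rw [Finset.prod_empty, Finset.prod_empty, one_mul, one_mul]
    exact hP M hM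
  | insert k J hk ih =>
    intro M hM
    rw [Finset.prod_insert hk, Finset.prod_insert hk, mul_assoc, mul_assoc]
    exact step N (A k) _ _ ih M hM

/-- the convolution is a coefficient of the product -/
theorem conv {t : ℕ} (N : ℕ) (f : Fin t → ℕ → ℂ) :
    (∑ q ∈ Fintype.piFinset (fun _ : Fin t => range (N + 1)),
      if ∑ i, q i = N then ∏ i, f i (q i) else 0) = (∏ i, PP N (f i)).coeff N := by
  unfold PP
  rw [Finset.prod_univ_sum, Polynomial.finsetSum_coeff]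
  refine Finset.sum_congr rfl fun q _ => ?_
  have h : ∏ i, Polynomial.monomial (q i) (f i (q i)) =
      Polynomial.monomial (∑ i, q i) (∏ i, f i (q i)) := by
    have : ∀ J : Finset (Fin t), ∏ i ∈ J, Polynomial.monomial (q i) (f i (q i)) =
        Polynomial.monomial (∑ i ∈ J, q i) (∏ i ∈ J, f i (q i)) := by
      intro J
      induction J using Finset.induction_on with
      | empty => simp
      | insert k J hk ih =>
        rw [Finset.prod_insert hk, Finset.prod_insert hk, Finset.sum_insert hk, ih,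
          Polynomial.monomial_mul_monomial]
    exact this Finset.univ
  rw [h, Polynomial.coeff_monomial]

/-- the off-diagonal terms -/
theorem off {t : ℕ} (ht : 2 ≤ t) (a b : ℚ → ℂ) (N : ℕ) (S0 : ℝ) (Θ : Fin t → ℚ) {i j : Fin t}
    (hij : i ≠ j) (hS : ∀ n, ‖∑ x ∈ range n, e ((((Θ i : ℚ) : ℝ) - ((Θ j : ℚ) : ℝ)) * x)‖ ≤ S0) :
    ‖∑ q ∈ Fintype.piFinset (fun _ : Fin t => range (N + 1)),
      if ∑ i, q i = N then ∏ i, ff a b (Θ i) (q i) else 0‖ ≤
      6 * S0 * (1 + Real.log N) ^ t * (N : ℝ) ^ (t - 2) * ∏ k, (‖a (Θ k)‖ + ‖b (Θ k)‖) := by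
  classical
  rw [conv N (fun i => ff a b (Θ i))]
  have hS0 : 0 ≤ S0 := (norm_nonneg _).trans (hS 0)
  have hL : 0 ≤ 1 + Real.log N := by
    have := Real.log_natCast_nonneg N
    linarith
  obtain ⟨J, hJ⟩ : ∃ J : Finset (Fin t), J = (Finset.univ.erase i).erase j := ⟨_, rfl⟩
  have hji : j ∈ Finset.univ.erase i := Finset.mem_erase.2 ⟨hij.symm, Finset.mem_univ _⟩
  have hcard : J.card = t - 2 := by
    rw [hJ, Finset.card_erase_of_mem hji, Finset.card_erase_of_mem (Finset.mem_univ _),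
      Finset.card_univ, Fintype.card_fin]
    omega
  have hprod : ∀ {M : Type} [CommMonoid M] (g : Fin t → M), ∏ k, g k =
      (∏ k ∈ J, g k) * (g i * g j) := by
    intro M _ g
    rw [← Finset.mul_prod_erase Finset.univ g (Finset.mem_univ i),
      ← Finset.mul_prod_erase (Finset.univ.erase i) g hji, ← hJ]
    rw [← mul_assoc, mul_comm]
  rw [hprod (fun k => PP N (ff a b (Θ k))), hprod (fun k => (‖a (Θ k)‖ + ‖b (Θ k)‖))]
  have h1 : ∀ M ≤ N, ‖(PP N (ff a b (Θ i)) * PP N (ff a b (Θ j))).coeff M‖ ≤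
      6 * (1 + Real.log N) ^ 2 * S0 * ((‖a (Θ i)‖ + ‖b (Θ i)‖) * (‖a (Θ j)‖ + ‖b (Θ j)‖)) := by
    intro M hM
    rw [Polynomial.coeff_mul, Finset.Nat.sum_antidiagonal_eq_sum_range_succ
      (fun x y => (PP N (ff a b (Θ i))).coeff x * (PP N (ff a b (Θ j))).coeff y) M]
    have e1 : ∀ x ∈ range M.succ, (PP N (ff a b (Θ i))).coeff x * (PP N (ff a b (Θ j))).coeff (M - x) =
        ff a b (Θ i) x * ff a b (Θ j) (M - x) := by
      intro x hx
      have hx' : x < M + 1 := Finset.mem_range.1 hx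
      rw [PP_coeff N _ x (by omega), PP_coeff N _ (M - x) (by omega)]
    rw [Finset.sum_congr rfl e1]
    exact two a b (Θ i) (Θ j) N M hM S0 hS
  have h2 := steps N J (fun k => PP N (ff a b (Θ k))) _ _ h1 N le_rfl
  refine h2.trans ?_
  have h3 : ∏ k ∈ J, ∑ q ∈ range (N + 1), ‖(PP N (ff a b (Θ k))).coeff q‖ ≤
      ∏ k ∈ J, ((N : ℝ) * (1 + Real.log N) * (‖a (Θ k)‖ + ‖b (Θ k)‖)) := by
    refine Finset.prod_le_prod (fun k _ => Finset.sum_nonneg fun _ _ => norm_nonneg _) fun k _ => ?_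
    have e1 : ∀ q ∈ range (N + 1), ‖(PP N (ff a b (Θ k))).coeff q‖ = ‖ff a b (Θ k) q‖ := by
      intro q hq
      rw [PP_coeff N _ q (Nat.lt_succ_iff.1 (Finset.mem_range.1 hq))]
    rw [Finset.sum_congr rfl e1, mul_assoc]
    exact sum_ff a b (Θ k) N
  refine (mul_le_mul_of_nonneg_right h3 (by positivity)).trans (le_of_eq ?_)
  rw [Finset.prod_mul_distrib, Finset.prod_const, hcard, mul_pow]
  have e2 : (1 + Real.log N) ^ t = (1 + Real.log N) ^ (t - 2) * (1 + Real.log N) ^ 2 := by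
    rw [← pow_add]
    congr 1
    omega
  rw [e2]
  ring

/-- the distance of two frequencies -/
theorem dist {θ θ' : ℚ} {W : ℕ} (h : 0 ≤ θ ∧ θ < 1 ∧ θ.den ≤ W) (h' : 0 ≤ θ' ∧ θ' < 1 ∧ θ'.den ≤ W)
    (hne : θ ≠ θ') (z : ℤ) : 1 / (W : ℝ) ^ 2 ≤ |(θ : ℝ) - θ' - z| := by
  have hd : (0 : ℚ) < θ.den := by exact_mod_cast θ.den_pos
  have hd' : (0 : ℚ) < θ'.den := by exact_mod_cast θ'.den_pos
  have hr : θ - θ' - z ≠ 0 := by
    intro h0
    have h1 : θ - θ' = z := by linarith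
    have h2 : (z : ℚ) < 1 := by rw [← h1]; linarith [h.2.1, h'.1]
    have h3 : (-1 : ℚ) < z := by rw [← h1]; linarith [h.1, h'.2.1]
    have h4 : z = 0 := by
      have a1 : z < 1 := by exact_mod_cast h2
      have a2 : -1 < z := by exact_mod_cast h3
      omega
    rw [h4] at h1
    apply hne
    have : θ - θ' = 0 := by rw [h1]; simp
    linarith
  obtain ⟨n, hn⟩ : ∃ n : ℤ, n = θ.num * θ'.den - θ'.num * θ.den - z * (θ.den * θ'.den) := ⟨_, rfl⟩
  have e1 : (θ - θ' - z) * (θ.den * θ'.den) = n := by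
    rw [hn]
    push_cast
    have a1 : θ * θ.den = θ.num := Rat.mul_den_eq_num θ
    have a2 : θ' * θ'.den = θ'.num := Rat.mul_den_eq_num θ'
    rw [← a1, ← a2]
    ring
  have hn0 : n ≠ 0 := by
    intro h0
    rw [h0, Int.cast_zero] at e1
    rcases mul_eq_zero.1 e1 with h1 | h1
    · exact hr h1
    · exact (mul_pos hd hd').ne' h1
  have hn1 : (1 : ℚ) ≤ |(n : ℚ)| := by
    have := Int.one_le_abs hn0
    exact_mod_cast this
  have hWd : (θ.den : ℚ) * θ'.den ≤ (W : ℚ) ^ 2 := by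
    rw [pow_two]
    exact mul_le_mul (by exact_mod_cast h.2.2) (by exact_mod_cast h'.2.2) hd'.le (by positivity)
  have hW : (0 : ℚ) < (W : ℚ) ^ 2 := lt_of_lt_of_le (mul_pos hd hd') hWd
  have key : 1 / (W : ℚ) ^ 2 ≤ |θ - θ' - z| := by
    rw [div_le_iff₀ hW]
    calc (1 : ℚ) ≤ |(n : ℚ)| := hn1
      _ = |θ - θ' - z| * (θ.den * θ'.den) := by
          rw [← e1, abs_mul, abs_of_pos (mul_pos hd hd')]
      _ ≤ |θ - θ' - z| * (W : ℚ) ^ 2 := mul_le_mul_of_nonneg_left hWd (abs_nonneg _)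
  have := (Rat.cast_le (K := ℝ)).2 key
  push_cast at this
  exact this

theorem geo {θ θ' : ℚ} {W : ℕ} (h : 0 ≤ θ ∧ θ < 1 ∧ θ.den ≤ W) (h' : 0 ≤ θ' ∧ θ' < 1 ∧ θ'.den ≤ W)
    (hne : θ ≠ θ') (n : ℕ) : ‖∑ x ∈ range n, e (((θ : ℝ) - θ') * x)‖ ≤ 2 * (W : ℝ) ^ 2 := by
  have hW : (0 : ℝ) < W := by
    have := θ.den_pos
    exact_mod_cast lt_of_lt_of_le this h.2.2
  have h1 := geom ((θ : ℝ) - θ') n n le_rfl
  have h2 := kb_le_inv (T := n) (Nat.cast_nonneg n) (x := (θ : ℝ) - θ') (y := 1 / (W : ℝ) ^ 2)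
    (by positivity) (dist h h' hne _)
  refine h1.trans (h2.trans (le_of_eq ?_))
  field_simp

end TF

open TF in
theorem tfold (t : ℕ) (ht : 2 ≤ t) : ∃ C : ℝ, 0 < C ∧ ∀ (S : Finset ℚ) (W N : ℕ) (a b : ℚ → ℂ) (K : ℝ), 1 ≤ N → 1 ≤ W → 1 ≤ K →
    (∀ θ ∈ S, 0 ≤ θ ∧ θ < 1 ∧ θ.den ≤ W) → ∑ θ ∈ S, (‖a θ‖ + ‖b θ‖) ≤ K →
    ‖(∑ q ∈ Fintype.piFinset (fun _ : Fin t => range (N + 1)), if ∑ i, q i = N then ∏ i, Gm S a b (q i) else 0) -
      ∑ θ ∈ S, e ((θ : ℝ) * N) * ∑ x ∈ Fintype.piFinset (fun _ : Fin t => range (N + 1)),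
        if (∑ i, x i = N ∧ ∀ i, x i ≠ 0) then ∏ i, (a θ * Real.log (x i) + b θ) else 0‖ ≤
      C * (1 + Real.log N) ^ t * (N : ℝ) ^ (t - 2) * (W : ℝ) ^ 2 * K ^ t := by
  classical
  refine ⟨12, by norm_num, ?_⟩
  intro S W N a b K hN hW hK hS hSK
  have hL : 0 ≤ 1 + Real.log N := by
    have := Real.log_natCast_nonneg N
    linarith
  obtain ⟨F, hF⟩ : ∃ F : (Fin t → ℚ) → ℂ, F = fun Θ =>
      ∑ q ∈ Fintype.piFinset (fun _ : Fin t => range (N + 1)),
        if ∑ i, q i = N then ∏ i, ff a b (Θ i) (q i) else 0 := ⟨_, rfl⟩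
  have hGm : ∀ q : ℕ, Gm S a b q = ∑ θ ∈ S, ff a b θ q := by
    intro q
    unfold Gm ff
    split_ifs with h
    · rw [Finset.sum_const_zero]
    · rfl
  have e1 : (∑ q ∈ Fintype.piFinset (fun _ : Fin t => range (N + 1)),
      if ∑ i, q i = N then ∏ i, Gm S a b (q i) else 0) =
      ∑ Θ ∈ Fintype.piFinset (fun _ : Fin t => S), F Θ := by
    rw [hF, Finset.sum_comm]
    refine Finset.sum_congr rfl fun q _ => ?_
    split_ifs with h
    · simp only [hGm]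
      rw [Finset.prod_univ_sum]
    · rw [Finset.sum_const_zero]
  have t0 : 0 < t := by omega
  obtain ⟨Dg, hDg⟩ : ∃ Dg : Finset (Fin t → ℚ), Dg = S.image (fun θ => fun _ : Fin t => θ) :=
    ⟨_, rfl⟩
  have hDS : Dg ⊆ Fintype.piFinset (fun _ : Fin t => S) := by
    rw [hDg]
    intro Θ hΘ
    obtain ⟨θ, hθ, rfl⟩ := Finset.mem_image.1 hΘ
    exact Fintype.mem_piFinset.2 fun _ => hθ
  have e2 : ∑ Θ ∈ Dg, F Θ = ∑ θ ∈ S, e ((θ : ℝ) * N) *
      ∑ x ∈ Fintype.piFinset (fun _ : Fin t => range (N + 1)),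
        if (∑ i, x i = N ∧ ∀ i, x i ≠ 0) then ∏ i, (a θ * Real.log (x i) + b θ) else 0 := by
    rw [hDg, Finset.sum_image (fun θ _ θ' _ h => congrFun h ⟨0, t0⟩)]
    refine Finset.sum_congr rfl fun θ _ => ?_
    rw [hF, Finset.mul_sum]
    refine Finset.sum_congr rfl fun q _ => ?_
    by_cases h1 : ∑ i, q i = N
    · by_cases h2 : ∀ i, q i ≠ 0
      · rw [if_pos h1, if_pos ⟨h1, h2⟩]
        have h3 : ∀ i ∈ (Finset.univ : Finset (Fin t)), ff a b θ (q i) =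
            e ((θ : ℝ) * q i) * (a θ * Real.log (q i) + b θ) := fun i _ => by
          unfold ff
          rw [if_neg (h2 i), mul_comm]
        rw [Finset.prod_congr rfl h3, Finset.prod_mul_distrib]
        congr 1
        have h4 : ∀ J : Finset (Fin t), ∏ i ∈ J, e ((θ : ℝ) * q i) =
            e ((θ : ℝ) * ((∑ i ∈ J, q i : ℕ) : ℝ)) := by
          intro J
          induction J using Finset.induction_on with
          | empty =>
            rw [Finset.prod_empty, Finset.sum_empty, Nat.cast_zero, mul_zero]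
            unfold e
            simp
          | insert k J hk ih =>
            rw [Finset.prod_insert hk, Finset.sum_insert hk, ih, ← e_add]
            congr 1
            push_cast
            ring
        rw [h4, h1]
      · rw [if_pos h1, if_neg (fun h => h2 h.2), mul_zero]
        push Not at h2
        obtain ⟨i, hi⟩ := h2
        refine Finset.prod_eq_zero (Finset.mem_univ i) ?_
        unfold ff
        rw [if_pos hi]
    · rw [if_neg h1, if_neg (fun h => h1 h.1), mul_zero]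
  rw [e1, ← e2, ← Finset.sum_sdiff hDS, add_sub_cancel_right]
  refine (norm_sum_le _ _).trans ?_
  have hoff : ∀ Θ ∈ Fintype.piFinset (fun _ : Fin t => S) \ Dg, ‖F Θ‖ ≤
      12 * (W : ℝ) ^ 2 * (1 + Real.log N) ^ t * (N : ℝ) ^ (t - 2) *
        ∏ k, (‖a (Θ k)‖ + ‖b (Θ k)‖) := by
    intro Θ hΘ
    rw [Finset.mem_sdiff, Fintype.mem_piFinset] at hΘ
    obtain ⟨h1, h2⟩ := hΘ
    have h3 : ∃ j : Fin t, Θ ⟨0, t0⟩ ≠ Θ j := by
      by_contra hcon
      push Not at hcon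
      apply h2
      rw [hDg, Finset.mem_image]
      exact ⟨Θ ⟨0, t0⟩, h1 _, funext fun j => hcon j⟩
    obtain ⟨j, hj⟩ := h3
    have hij : (⟨0, t0⟩ : Fin t) ≠ j := fun h => hj (by rw [h])
    have h4 := off ht a b N (2 * (W : ℝ) ^ 2) Θ hij (fun n => geo (hS _ (h1 _)) (hS _ (h1 _)) hj n)
    rw [hF]
    refine h4.trans (le_of_eq ?_)
    ring
  calc ∑ Θ ∈ Fintype.piFinset (fun _ : Fin t => S) \ Dg, ‖F Θ‖
      ≤ ∑ Θ ∈ Fintype.piFinset (fun _ : Fin t => S) \ Dg,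
        12 * (W : ℝ) ^ 2 * (1 + Real.log N) ^ t * (N : ℝ) ^ (t - 2) *
        ∏ k, (‖a (Θ k)‖ + ‖b (Θ k)‖) := Finset.sum_le_sum hoff
    _ ≤ ∑ Θ ∈ Fintype.piFinset (fun _ : Fin t => S),
        12 * (W : ℝ) ^ 2 * (1 + Real.log N) ^ t * (N : ℝ) ^ (t - 2) *
        ∏ k, (‖a (Θ k)‖ + ‖b (Θ k)‖) :=
        Finset.sum_le_sum_of_subset_of_nonneg Finset.sdiff_subset fun Θ _ _ => by positivity
    _ = 12 * (W : ℝ) ^ 2 * (1 + Real.log N) ^ t * (N : ℝ) ^ (t - 2) *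
        (∑ θ ∈ S, (‖a θ‖ + ‖b θ‖)) ^ t := by
        rw [← Finset.mul_sum]
        congr 1
        have := Finset.prod_univ_sum (fun _ : Fin t => S) (fun _ θ => ‖a θ‖ + ‖b θ‖)
        rw [Finset.prod_const, Finset.card_univ, Fintype.card_fin] at this
        exact this.symm
    _ ≤ 12 * (W : ℝ) ^ 2 * (1 + Real.log N) ^ t * (N : ℝ) ^ (t - 2) * K ^ t := by
        refine mul_le_mul_of_nonneg_left ?_ (by positivity)
        exact pow_le_pow_left₀ (Finset.sum_nonneg fun _ _ => by positivity) hSK t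
    _ = 12 * (1 + Real.log N) ^ t * (N : ℝ) ^ (t - 2) * (W : ℝ) ^ 2 * K ^ t := by ring

end

end Pool.Agent.J4.H39.CM
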