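import Pool.Agent.J4.H39.CM.Def2

set_option autoImplicit false

/-!
Project CM (helper39), piece TRUNC (helper56): the truncated model.
-/

namespace Pool.Agent.J4.H39.CM

open Complex Finset
open Pool.Agent.N879.QM
open Pool.Agent.N879.QM.Avg (fam fam_mem fam_inj fam_surj rp_of)
open Pool.Agent.H306R2.RZ (js)
open Pool.Agent.Y293.SF (mu abs_mu_le indic_eq)

noncomputable section

/-! ### Elementary sums -/

lemma tr_sqrt_sum (Y : ℕ) : ∑ k ∈ Icc 1 Y, 1 / √(k : ℝ) ≤ 2 * √(Y : ℝ) := by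
  induction Y with
  | zero => simp
  | succ n ih =>
    rw [sum_Icc_succ_top (by omega)]
    have h : 1 / √((n + 1 : ℕ) : ℝ) ≤ 2 * √((n + 1 : ℕ) : ℝ) - 2 * √(n : ℝ) := by
      have ha : √((n + 1 : ℕ) : ℝ) ^ 2 = n + 1 := by
        rw [Real.sq_sqrt (by positivity)]
        push_cast
        rfl
      have hb : √(n : ℝ) ^ 2 = n := Real.sq_sqrt (by positivity)
      have ha0 : 0 < √((n + 1 : ℕ) : ℝ) := Real.sqrt_pos.2 (by positivity)
      rw [div_le_iff₀ ha0]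
      nlinarith [sq_nonneg (√((n + 1 : ℕ) : ℝ) - √(n : ℝ))]
    linarith

lemma tr_32 {Z : ℕ} (hZ : 1 ≤ Z) (N : ℕ) (h : Z ≤ N) :
    ∑ f ∈ Ioc Z N, 1 / ((f : ℝ) * √(f : ℝ)) ≤ 2 / √(Z : ℝ) - 2 / √(N : ℝ) := by
  induction N, h using Nat.le_induction with
  | base => simp
  | succ n hn ih =>
    rw [sum_Ioc_succ_top hn]
    have h : 1 / (((n + 1 : ℕ) : ℝ) * √((n + 1 : ℕ) : ℝ)) ≤
        2 / √(n : ℝ) - 2 / √((n + 1 : ℕ) : ℝ) := by
      have hn0 : (0 : ℝ) < n := by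
        have : 0 < n := by omega
        exact_mod_cast this
      set a := √((n + 1 : ℕ) : ℝ) with hadef
      set b := √(n : ℝ) with hbdef
      have ha : a ^ 2 = n + 1 := by
        rw [hadef, Real.sq_sqrt (by positivity)]
        push_cast
        rfl
      have hb : b ^ 2 = n := Real.sq_sqrt (by positivity)
      have ha0 : 0 < a := Real.sqrt_pos.2 (by positivity)
      have hb0 : 0 < b := Real.sqrt_pos.2 hn0
      have hab : b ≤ a := Real.sqrt_le_sqrt (by push_cast; linarith)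
      have h1 : (a - b) * (a + b) = 1 := by nlinarith
      have h2 : b ≤ 2 * (a - b) * a ^ 2 := by
        have h3 : b * (a + b) ≤ 2 * a ^ 2 := by nlinarith
        have h4 : b * (a + b) * (a - b) ≤ 2 * a ^ 2 * (a - b) :=
          mul_le_mul_of_nonneg_right h3 (by linarith)
        nlinarith
      have e : ((n + 1 : ℕ) : ℝ) = a ^ 2 := by rw [ha]; push_cast; rfl
      rw [e]
      have e2 : 2 / b - 2 / a = 2 * (a - b) / (b * a) := by
        field_simp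
      rw [e2, div_le_div_iff₀ (by positivity) (by positivity)]
      have : 0 ≤ a * (2 * (a - b) * a ^ 2 - b) := mul_nonneg ha0.le (by linarith)
      nlinarith
    linarith

lemma tr_sq {Z : ℕ} (hZ : 1 ≤ Z) (N : ℕ) : ∑ b ∈ Ioc Z N, 1 / (b : ℝ) ^ 2 ≤ 1 / √(Z : ℝ) := by
  have hZ0 : (1 : ℝ) ≤ Z := by exact_mod_cast hZ
  have h0 : 1 / (Z : ℝ) ≤ 1 / √(Z : ℝ) := by
    apply one_div_le_one_div_of_le (Real.sqrt_pos.2 (by linarith))
    rw [Real.sqrt_le_left (by linarith)]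
    nlinarith
  rcases le_or_gt Z N with h | h
  · have h1 := sum_Ioc_inv_sq_le_sub (α := ℝ) (k := Z) (n := N) (by omega) h
    have h2 : ∑ b ∈ Ioc Z N, 1 / (b : ℝ) ^ 2 = ∑ b ∈ Ioc Z N, ((b : ℝ) ^ 2)⁻¹ :=
      sum_congr rfl fun b _ => one_div _
    have h3 : (0 : ℝ) ≤ (N : ℝ)⁻¹ := by positivity
    rw [one_div] at h0
    rw [h2]
    linarith
  · rw [Ioc_eq_empty_of_le h.le, sum_empty]
    positivity

lemma tr_count (N : ℕ) {g : ℕ} (hg : 1 ≤ g) :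
    ∑ q ∈ Icc 1 N, (if g ∣ q then (1 : ℝ) else 0) ≤ N / g := by
  rw [← sum_filter, sum_const, nsmul_eq_mul, mul_one]
  have h1 : (Icc 1 N).filter (fun q => g ∣ q) = (Ioc 0 N).filter (fun q => g ∣ q) := by
    congr 1
  rw [h1, Nat.Ioc_filter_dvd_card_eq_div]
  exact Nat.cast_div_le

lemma tr_lcm1 {b f : ℕ} (hb : 1 ≤ b) (hf : 1 ≤ f) : ((b : ℝ) ^ 2) ≤ (Nat.lcm (b ^ 2) f : ℕ) := by
  have h : b ^ 2 ≤ Nat.lcm (b ^ 2) f :=
    Nat.le_of_dvd (Nat.lcm_pos (by positivity) hf) (Nat.dvd_lcm_left _ _)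
  exact_mod_cast h

lemma tr_lcm2 {b f : ℕ} (hb : 1 ≤ b) (hf : 1 ≤ f) : (f : ℝ) ≤ (Nat.lcm (b ^ 2) f : ℕ) := by
  have h : f ≤ Nat.lcm (b ^ 2) f :=
    Nat.le_of_dvd (Nat.lcm_pos (by positivity) hf) (Nat.dvd_lcm_right _ _)
  exact_mod_cast h

lemma tr_lcm3 {b f : ℕ} (hb : 1 ≤ b) (hf : 1 ≤ f) :
    (b : ℝ) * √(f : ℝ) ≤ (Nat.lcm (b ^ 2) f : ℕ) := by
  have h1 := tr_lcm1 hb hf
  have h2 := tr_lcm2 hb hf
  have hf0 : (0 : ℝ) ≤ f := by positivity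
  have h3 : ((b : ℝ) * √(f : ℝ)) ^ 2 ≤ ((Nat.lcm (b ^ 2) f : ℕ) : ℝ) ^ 2 := by
    rw [mul_pow, Real.sq_sqrt hf0, sq ((Nat.lcm (b ^ 2) f : ℕ) : ℝ)]
    exact mul_le_mul h1 h2 hf0 (by positivity)
  exact (pow_le_pow_iff_left₀ (by positivity) (by positivity) (by norm_num)).1 h3

lemma tr_pairs {N Z : ℕ} (hN : 1 ≤ N) (hZ : 1 ≤ Z) :
    ∑ p ∈ (Icc 1 N ×ˢ Icc 1 N) \ (Icc 1 Z ×ˢ Icc 1 Z),
      1 / ((p.1 : ℝ) * (Nat.lcm (p.2 ^ 2) p.1 : ℕ)) ≤ 3 * (1 + Real.log N) / √(Z : ℝ) := by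
  have hsub : (Icc 1 N ×ˢ Icc 1 N) \ (Icc 1 Z ×ˢ Icc 1 Z) ⊆
      (Icc 1 N ×ˢ Ioc Z N) ∪ (Ioc Z N ×ˢ Icc 1 N) := by
    intro p hp
    simp only [mem_sdiff, mem_product, mem_union, mem_Icc, mem_Ioc] at hp ⊢
    omega
  have hharm : ∑ f ∈ Icc 1 N, 1 / (f : ℝ) ≤ 1 + Real.log N := harm_le hN le_rfl
  have hZ0 : (1 : ℝ) ≤ Z := by exact_mod_cast hZ
  have hsZ : 0 < √(Z : ℝ) := Real.sqrt_pos.2 (by linarith)
  have hlog : 0 ≤ Real.log N := Real.log_natCast_nonneg N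
  have h1 : ∑ p ∈ Icc 1 N ×ˢ Ioc Z N, 1 / ((p.1 : ℝ) * (Nat.lcm (p.2 ^ 2) p.1 : ℕ)) ≤
      (1 + Real.log N) * (1 / √(Z : ℝ)) := by
    calc _ ≤ ∑ p ∈ Icc 1 N ×ˢ Ioc Z N, (1 / (p.1 : ℝ)) * (1 / (p.2 : ℝ) ^ 2) := by
          apply sum_le_sum
          intro p hp
          rw [mem_product, mem_Icc, mem_Ioc] at hp
          have hf : (0 : ℝ) < p.1 := by exact_mod_cast (by omega : 0 < p.1)
          have hb : (0 : ℝ) < p.2 := by exact_mod_cast (by omega : 0 < p.2)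
          have h2 := tr_lcm1 (b := p.2) (f := p.1) (by omega) (by omega)
          rw [one_div_mul_one_div]
          apply one_div_le_one_div_of_le (by positivity)
          exact mul_le_mul_of_nonneg_left h2 hf.le
      _ = (∑ f ∈ Icc 1 N, 1 / (f : ℝ)) * ∑ b ∈ Ioc Z N, 1 / (b : ℝ) ^ 2 := by
          rw [sum_product, sum_mul_sum]
      _ ≤ _ := mul_le_mul hharm (tr_sq hZ N) (sum_nonneg fun _ _ => by positivity) (by linarith)
  have h2 : ∑ p ∈ Ioc Z N ×ˢ Icc 1 N, 1 / ((p.1 : ℝ) * (Nat.lcm (p.2 ^ 2) p.1 : ℕ)) ≤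
      (2 / √(Z : ℝ)) * (1 + Real.log N) := by
    have h3 : ∑ f ∈ Ioc Z N, 1 / ((f : ℝ) * √(f : ℝ)) ≤ 2 / √(Z : ℝ) := by
      rcases le_or_gt Z N with h | h
      · have h4 := tr_32 hZ N h
        have h5 : (0 : ℝ) ≤ 2 / √(N : ℝ) := by positivity
        linarith
      · rw [Ioc_eq_empty_of_le h.le, sum_empty]
        positivity
    calc _ ≤ ∑ p ∈ Ioc Z N ×ˢ Icc 1 N, (1 / ((p.1 : ℝ) * √(p.1 : ℝ))) * (1 / (p.2 : ℝ)) := by
          apply sum_le_sum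
          intro p hp
          rw [mem_product, mem_Icc, mem_Ioc] at hp
          have hf : (0 : ℝ) < p.1 := by exact_mod_cast (by omega : 0 < p.1)
          have hb : (0 : ℝ) < p.2 := by exact_mod_cast (by omega : 0 < p.2)
          have hsf : 0 < √(p.1 : ℝ) := Real.sqrt_pos.2 hf
          have h2 := tr_lcm3 (b := p.2) (f := p.1) (by omega) (by omega)
          rw [one_div_mul_one_div]
          apply one_div_le_one_div_of_le (by positivity)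
          calc (p.1 : ℝ) * √(p.1 : ℝ) * p.2 = (p.1 : ℝ) * ((p.2 : ℝ) * √(p.1 : ℝ)) := by ring
            _ ≤ _ := mul_le_mul_of_nonneg_left h2 hf.le
      _ = (∑ f ∈ Ioc Z N, 1 / ((f : ℝ) * √(f : ℝ))) * ∑ b ∈ Icc 1 N, 1 / (b : ℝ) := by
          rw [sum_product, sum_mul_sum]
      _ ≤ _ := mul_le_mul h3 hharm (sum_nonneg fun _ _ => by positivity) (by positivity)
  have h3 : ∀ p : ℕ × ℕ, 0 ≤ 1 / ((p.1 : ℝ) * (Nat.lcm (p.2 ^ 2) p.1 : ℕ)) := fun p => by positivity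
  have h4 := sum_union_inter (s₁ := Icc 1 N ×ˢ Ioc Z N) (s₂ := Ioc Z N ×ˢ Icc 1 N)
    (f := fun p : ℕ × ℕ => 1 / ((p.1 : ℝ) * (Nat.lcm (p.2 ^ 2) p.1 : ℕ)))
  have h5 : 0 ≤ ∑ p ∈ (Icc 1 N ×ˢ Ioc Z N) ∩ (Ioc Z N ×ˢ Icc 1 N),
    1 / ((p.1 : ℝ) * (Nat.lcm (p.2 ^ 2) p.1 : ℕ)) := sum_nonneg fun p _ => h3 p
  have h6 := sum_le_sum_of_subset_of_nonneg hsub (fun p _ _ => h3 p)
  have h7 : (1 + Real.log N) * (1 / √(Z : ℝ)) + (2 / √(Z : ℝ)) * (1 + Real.log N) =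
      3 * (1 + Real.log N) / √(Z : ℝ) := by
    field_simp
    ring
  linarith

lemma tr_pow_sum {N : ℕ} (hN : 1 ≤ N) : ∑ q ∈ Icc 1 N, (q : ℝ) ^ (-(1 / 8 : ℝ)) ≤
    (N : ℝ) ^ (7 / 8 : ℝ) * (1 + Real.log N) := by
  have h1 : ∀ q ∈ Icc 1 N, (q : ℝ) ^ (-(1 / 8 : ℝ)) ≤ (N : ℝ) ^ (7 / 8 : ℝ) * (1 / (q : ℝ)) := by
    intro q hq
    rw [mem_Icc] at hq
    have hq0 : (0 : ℝ) < q := by exact_mod_cast (by omega : 0 < q)
    have h2 : (q : ℝ) ^ (-(1 / 8 : ℝ)) = (q : ℝ) ^ (7 / 8 : ℝ) * (1 / (q : ℝ)) := by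
      rw [show (-(1 / 8 : ℝ)) = 7 / 8 - 1 by norm_num, Real.rpow_sub_one hq0.ne', mul_one_div]
    rw [h2]
    apply mul_le_mul_of_nonneg_right _ (by positivity)
    exact Real.rpow_le_rpow hq0.le (by exact_mod_cast hq.2) (by norm_num)
  refine (sum_le_sum h1).trans ?_
  rw [← mul_sum]
  exact mul_le_mul_of_nonneg_left (harm_le hN le_rfl) (by positivity)

/-- comparison of two sums -/
lemma tr_cmp {α : Type} [DecidableEq α] (A B : Finset α) (φ u v : α → ℝ)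
    (h : ∀ p ∈ B, p ∉ A → φ p = 0) :
    |∑ p ∈ A, φ p * u p - ∑ p ∈ B, φ p * v p| ≤
      ∑ p ∈ A \ B, |φ p| * |u p| + ∑ p ∈ B, |φ p| * |u p - v p| := by
  have h1 : ∑ p ∈ A, φ p * u p = ∑ p ∈ A ∩ B, φ p * u p + ∑ p ∈ A \ B, φ p * u p :=
    (sum_inter_add_sum_sdiff A B _).symm
  have h2 : ∑ p ∈ A ∩ B, φ p * u p = ∑ p ∈ B, φ p * u p := by
    apply sum_subset inter_subset_right
    intro p hp hp2
    rw [h p hp (fun h3 => hp2 (mem_inter.2 ⟨h3, hp⟩)), zero_mul]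
  rw [h1, h2]
  have h3 : ∑ p ∈ B, φ p * u p + ∑ p ∈ A \ B, φ p * u p - ∑ p ∈ B, φ p * v p =
      ∑ p ∈ A \ B, φ p * u p + ∑ p ∈ B, φ p * (u p - v p) := by
    simp only [mul_sub, sum_sub_distrib]
    ring
  rw [h3]
  refine (abs_add_le _ _).trans (add_le_add ?_ ?_)
  · refine (abs_sum_le_sum_abs _ _).trans (le_of_eq (sum_congr rfl fun p _ => abs_mul _ _))
  · refine (abs_sum_le_sum_abs _ _).trans (le_of_eq (sum_congr rfl fun p _ => abs_mul _ _))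

/-! ### The terms -/

lemma cc_le (s : ℤ) (i : Fin 4) (k f b : ℕ) : |cc s i k f b| ≤ 2 * (1 / √(k : ℝ)) * (1 / (f : ℝ)) := by
  unfold cc
  rw [abs_mul, abs_mul, abs_div, abs_div, abs_mul, abs_of_nonneg (Real.sqrt_nonneg _),
    abs_of_pos (show (0 : ℝ) < 2 by norm_num), abs_of_nonneg (show (0 : ℝ) ≤ (f : ℝ) by positivity)]
  have h1 := js_le (fam s i).e k
  have h2 := abs_mu_le f
  have h3 := abs_mu_le b
  have h4 : 2 * |js (fam s i).e k| / √(k : ℝ) ≤ 2 * (1 / √(k : ℝ)) := by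
    rw [mul_one_div]
    apply div_le_div_of_nonneg_right _ (Real.sqrt_nonneg _)
    linarith
  have h5 : |mu f| / (f : ℝ) ≤ 1 / (f : ℝ) := div_le_div_of_nonneg_right h2 (by positivity)
  calc _ ≤ 2 * (1 / √(k : ℝ)) * (1 / (f : ℝ)) * 1 := by
        refine mul_le_mul (mul_le_mul h4 h5 (by positivity) (by positivity)) h3 (abs_nonneg _)
          (by positivity)
    _ = _ := mul_one _

lemma Pf_le (s : ℤ) (i : Fin 4) (k g q : ℕ) :
    |Pf s i k g q| ≤ if g ∣ q then 1 else 0 := by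
  unfold Pf
  split_ifs with h1 h2 h2
  · exact js_le _ _
  · exfalso
    apply h2
    obtain ⟨h3, h4, h5⟩ := h1
    exact h5.trans (Nat.div_dvd_of_dvd h3)
  · simp
  · simp

lemma Pf_zero (s : ℤ) (i : Fin 4) (k : ℕ) {g q : ℕ} (hq : 1 ≤ q) (hg : q < g) :
    Pf s i k g q = 0 := by
  have h1 := Pf_le s i k g q
  rw [if_neg (fun h => absurd (Nat.le_of_dvd (by omega) h) (by omega))] at h1
  exact abs_eq_zero.1 (le_antisymm h1 (abs_nonneg _))

/-- the untruncated sum -/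
def FF (s : ℤ) (i : Fin 4) (N Y q : ℕ) : ℝ := ∑ k ∈ KO Y, ∑ p ∈ Icc 1 N ×ˢ Icc 1 N,
  (cc s i k p.1 p.2 * Pf s i k (Nat.lcm (p.2 ^ 2) p.1) q) *
    La s (fam s i).η ((q : ℝ) / ((k : ℝ) ^ 2 * (p.1 : ℝ) ^ 4))

/-- the truncated sum -/
def GGt (s : ℤ) (B : Fin 4 → ℝ) (i : Fin 4) (Y Z q : ℕ) : ℝ := ∑ k ∈ KO Y,
  ∑ p ∈ Icc 1 Z ×ˢ Icc 1 Z, (cc s i k p.1 p.2 * Pf s i k (Nat.lcm (p.2 ^ 2) p.1) q) *
    (LA (fam s i).η * Real.log ((q : ℝ) / ((k : ℝ) ^ 2 * (p.1 : ℝ) ^ 4)) + B i)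

lemma Gp_eq (s : ℤ) (B : Fin 4 → ℝ) (Y Z q : ℕ) : Gp s B Y Z q = ∑ i, GGt s B i Y Z q := by
  unfold Gp GGt
  refine sum_congr rfl fun i _ => sum_congr rfl fun k _ => ?_
  rw [sum_product]

open Classical in
/-- the main term for squarefree `q / r` -/
def MM (s : ℤ) (i : Fin 4) (Y q : ℕ) : ℝ :=
  if (fam s i).r ∣ q ∧ (q / (fam s i).r) % 8 ∈ RR s i ∧ Squarefree (q / (fam s i).r) then
    2 * ∑ k ∈ KO Y, js (fam s i).e k * js ((q / (fam s i).r : ℕ) : ℤ) k / √k *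
      ∑ f ∈ (q / (fam s i).r).divisors, mu f / f *
        La s (fam s i).η ((q : ℝ) / ((k : ℝ) ^ 2 * (f : ℝ) ^ 4)) else 0

lemma tr_sqf {d N : ℕ} (hd : 1 ≤ d) (hdN : d ≤ N) :
    ∑ b ∈ Icc 1 N, (if b ^ 2 ∣ d then mu b else 0) = if Squarefree d then (1 : ℝ) else 0 := by
  rw [indic_eq d (by omega)]
  symm
  refine sum_subset (fun b hb => ?_) (fun b hb hb2 => ?_)
  · rw [mem_Icc] at hb ⊢
    omega
  · rw [mem_Icc] at hb hb2
    rw [if_neg]
    intro h3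
    have h4 := Nat.le_of_dvd (by omega) h3
    have h5 : b ≤ b ^ 2 := by nlinarith
    exact hb2 ⟨hb.1, h5.trans h4⟩

lemma tr_div {d N : ℕ} (hd : 1 ≤ d) (hdN : d ≤ N) (X : ℕ → ℝ) :
    ∑ f ∈ Icc 1 N, (if f ∣ d then X f else 0) = ∑ f ∈ d.divisors, X f := by
  rw [← sum_filter]
  refine sum_congr ?_ fun _ _ => rfl
  ext f
  rw [mem_filter, mem_Icc, Nat.mem_divisors]
  constructor
  · rintro ⟨_, h⟩
    exact ⟨h, by omega⟩
  · rintro ⟨h, _⟩
    have h1 := Nat.le_of_dvd (by omega) h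
    have h2 := Nat.pos_of_dvd_of_pos h (by omega)
    exact ⟨⟨h2, by omega⟩, h⟩

lemma FM (s : ℤ) (i : Fin 4) {N q : ℕ} (Y : ℕ) (hq : 1 ≤ q) (hqN : q ≤ N) :
    FF s i N Y q = MM s i Y q := by
  unfold FF MM
  by_cases h1 : (fam s i).r ∣ q ∧ (q / (fam s i).r) % 8 ∈ RR s i
  · obtain ⟨h1, h2⟩ := h1
    have hd : 1 ≤ q / (fam s i).r := Nat.div_pos (Nat.le_of_dvd hq h1) (Nat.pos_of_dvd_of_pos h1 hq)
    have hdN : q / (fam s i).r ≤ N := (Nat.div_le_self _ _).trans hqN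
    set d := q / (fam s i).r with hddef
    have hPf : ∀ k g, Pf s i k g q = if g ∣ d then js (d : ℤ) k else 0 := by
      intro k g
      unfold Pf
      by_cases h3 : g ∣ d
      · rw [if_pos ⟨h1, h2, h3⟩, if_pos h3]
      · rw [if_neg (fun h => h3 h.2.2), if_neg h3]
    have h3 : ∀ k ∈ KO Y, ∑ p ∈ Icc 1 N ×ˢ Icc 1 N,
        (cc s i k p.1 p.2 * Pf s i k (Nat.lcm (p.2 ^ 2) p.1) q) *
          La s (fam s i).η ((q : ℝ) / ((k : ℝ) ^ 2 * (p.1 : ℝ) ^ 4)) =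
        (2 * js (fam s i).e k / √k * js (d : ℤ) k) *
          (∑ f ∈ d.divisors, mu f / f *
            La s (fam s i).η ((q : ℝ) / ((k : ℝ) ^ 2 * (f : ℝ) ^ 4))) *
          (if Squarefree d then (1 : ℝ) else 0) := by
      intro k _
      rw [← tr_sqf hd hdN, ← tr_div hd hdN, sum_product, mul_assoc, sum_mul_sum, mul_sum]
      refine sum_congr rfl fun f _ => ?_
      rw [mul_sum]
      refine sum_congr rfl fun b _ => ?_
      dsimp only
      rw [hPf]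
      unfold cc
      by_cases h4 : f ∣ d
      · by_cases h5 : b ^ 2 ∣ d
        · rw [if_pos (Nat.lcm_dvd h5 h4), if_pos h4, if_pos h5]
          ring
        · rw [if_neg (fun h => h5 ((Nat.dvd_lcm_left _ _).trans h)), if_neg h5]
          ring
      · rw [if_neg (fun h => h4 ((Nat.dvd_lcm_right _ _).trans h)), if_neg h4]
        ring
    rw [sum_congr rfl h3]
    by_cases h4 : Squarefree d
    · rw [if_pos (show (fam s i).r ∣ q ∧ d % 8 ∈ RR s i ∧ Squarefree d from ⟨h1, h2, h4⟩), mul_sum]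
      refine sum_congr rfl fun k _ => ?_
      rw [if_pos h4]
      ring
    · rw [if_neg (show ¬ ((fam s i).r ∣ q ∧ d % 8 ∈ RR s i ∧ Squarefree d) from
        fun h => h4 h.2.2)]
      apply sum_eq_zero
      intro k _
      rw [if_neg h4, mul_zero]
  · rw [if_neg (fun h => h1 ⟨h.1, h.2.1⟩)]
    apply sum_eq_zero
    intro k _
    apply sum_eq_zero
    intro p _
    unfold Pf
    rw [if_neg (fun h => h1 ⟨h.1, h.2.1⟩), mul_zero, zero_mul]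

lemma KO_sum_le (Y : ℕ) : ∑ k ∈ KO Y, 1 / √(k : ℝ) ≤ 2 * √(Y : ℝ) := by
  classical
  refine le_trans ?_ (tr_sqrt_sum Y)
  unfold KO
  exact sum_le_sum_of_subset_of_nonneg (filter_subset _ _) (fun _ _ _ => by positivity)

lemma KO_card (Y : ℕ) : ((KO Y).card : ℝ) ≤ Y := by
  classical
  have : (KO Y).card ≤ Y := by
    unfold KO
    refine (card_filter_le _ _).trans ?_
    rw [Nat.card_Icc]
    omega
  exact_mod_cast this

lemma KO_pos {Y k : ℕ} (h : k ∈ KO Y) : 1 ≤ k := by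
  classical
  unfold KO at h
  rw [mem_filter, mem_Icc] at h
  exact h.1.1

/-- statement of La_bound -/
def S_LaB : Prop := ∀ (s : ℤ), ∃ C : ℝ, 0 < C ∧ ∀ η z : ℝ, |η| ≤ 1 → 0 < z →
  |La s η z| ≤ C * (1 + Real.log (1 + z))

lemma tr_rpow {q k f : ℝ} (hq : 1 ≤ q) (hk : 1 ≤ k) (hf : 1 ≤ f) :
    (q / (k ^ 2 * f ^ 4)) ^ (-(1 / 8 : ℝ)) ≤ q ^ (-(1 / 8 : ℝ)) * (√k * f) := by
  have h1 : (q / (k ^ 2 * f ^ 4)) ^ (-(1 / 8 : ℝ)) =
      q ^ (-(1 / 8 : ℝ)) * (k ^ 2 * f ^ 4) ^ (1 / 8 : ℝ) := by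
    rw [Real.div_rpow (by linarith) (by positivity), Real.rpow_neg (by positivity : (0 : ℝ) ≤ k ^ 2 * f ^ 4),
      div_inv_eq_mul]
  rw [h1]
  apply mul_le_mul_of_nonneg_left _ (by positivity)
  have h2 : k ^ 2 * f ^ 4 ≤ (√k * f) ^ (8 : ℕ) := by
    have h3 : √k ^ 8 = k ^ 4 := by
      rw [show (8 : ℕ) = 2 * 4 by norm_num, pow_mul, Real.sq_sqrt (by linarith)]
    rw [mul_pow, h3]
    have h4 : k ^ 2 ≤ k ^ 4 := pow_le_pow_right₀ hk (by norm_num)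
    have h5 : f ^ 4 ≤ f ^ 8 := pow_le_pow_right₀ hf (by norm_num)
    exact mul_le_mul h4 h5 (by positivity) (by positivity)
  calc (k ^ 2 * f ^ 4) ^ (1 / 8 : ℝ) ≤ ((√k * f) ^ (8 : ℕ)) ^ (1 / 8 : ℝ) :=
        Real.rpow_le_rpow (by positivity) h2 (by norm_num)
    _ = √k * f := by
        rw [← Real.rpow_natCast, ← Real.rpow_mul (by positivity)]
        norm_num

lemma diff_bd (hLa : S_LaB) (s : ℤ) (hs : s = 1 ∨ s = -1) (B : Fin 4 → ℝ) (hB : Good s B) :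
    ∃ C : ℝ, 0 < C ∧ ∀ (i : Fin 4) (N Y Z : ℕ), 1 ≤ N → 1 ≤ Y → 1 ≤ Z →
      ∑ q ∈ Icc 1 N, |FF s i N Y q - GGt s B i Y Z q| ≤
        C * ((1 + Real.log N) ^ 2 * (N * √(Y : ℝ) / √(Z : ℝ)) +
          (1 + Real.log N) * ((N : ℝ) ^ (7 / 8 : ℝ) * (Y * Z ^ 2))) := by
  obtain ⟨C1, hC1, hL⟩ := hLa s
  obtain ⟨C2, hC2, hG⟩ := hB
  refine ⟨24 * C1 + 2 * C2, by positivity, fun i N Y Z hN hY hZ => ?_⟩
  obtain ⟨_, _, _, _, hη, _⟩ := fam_R s hs i
  have hNR : (1 : ℝ) ≤ N := by exact_mod_cast hN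
  have hlog : 0 ≤ Real.log N := Real.log_natCast_nonneg N
  set A := Icc 1 N ×ˢ Icc 1 N with hA
  set B' := Icc 1 Z ×ˢ Icc 1 Z with hB'
  -- pointwise
  have hpt : ∀ q ∈ Icc 1 N, |FF s i N Y q - GGt s B i Y Z q| ≤
      ∑ k ∈ KO Y, (∑ p ∈ A \ B', 2 * (1 / √(k : ℝ)) * (1 / (p.1 : ℝ)) *
        (if Nat.lcm (p.2 ^ 2) p.1 ∣ q then 1 else 0) * (2 * C1 * (1 + Real.log N)) +
        ∑ p ∈ B', 2 * C2 * (q : ℝ) ^ (-(1 / 8 : ℝ))) := by
    intro q hq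
    rw [mem_Icc] at hq
    have hq0 : (1 : ℝ) ≤ q := by exact_mod_cast hq.1
    have hqN : (q : ℝ) ≤ N := by exact_mod_cast hq.2
    unfold FF GGt
    rw [← sum_sub_distrib]
    refine (abs_sum_le_sum_abs _ _).trans (sum_le_sum fun k hk => ?_)
    have hk1 : (1 : ℝ) ≤ k := by exact_mod_cast KO_pos hk
    refine (tr_cmp A B' (fun p => cc s i k p.1 p.2 * Pf s i k (Nat.lcm (p.2 ^ 2) p.1) q)
      (fun p => La s (fam s i).η ((q : ℝ) / ((k : ℝ) ^ 2 * (p.1 : ℝ) ^ 4)))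
      (fun p => LA (fam s i).η * Real.log ((q : ℝ) / ((k : ℝ) ^ 2 * (p.1 : ℝ) ^ 4)) + B i) ?_).trans
      (add_le_add ?_ ?_)
    · intro p hp hp2
      rw [hB', mem_product, mem_Icc, mem_Icc] at hp
      rw [hA, mem_product, mem_Icc, mem_Icc] at hp2
      rw [Pf_zero s i k hq.1, mul_zero]
      have h1 : p.2 ^ 2 ≤ Nat.lcm (p.2 ^ 2) p.1 :=
        Nat.le_of_dvd (Nat.lcm_pos (by have := hp.2.1; positivity) (by omega)) (Nat.dvd_lcm_left _ _)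
      have h2 : p.1 ≤ Nat.lcm (p.2 ^ 2) p.1 :=
        Nat.le_of_dvd (Nat.lcm_pos (by have := hp.2.1; positivity) (by omega)) (Nat.dvd_lcm_right _ _)
      have h3 : p.2 ≤ p.2 ^ 2 := by nlinarith [hp.2.1]
      omega
    · refine sum_le_sum fun p hp => ?_
      rw [mem_sdiff, hA, mem_product, mem_Icc, mem_Icc] at hp
      have hf1 : (1 : ℝ) ≤ p.1 := by exact_mod_cast hp.1.1.1
      rw [abs_mul]
      refine mul_le_mul (mul_le_mul (cc_le s i k p.1 p.2) (Pf_le s i k _ q) (abs_nonneg _)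
        (by positivity)) ?_ (abs_nonneg _) (by positivity)
      have hz0 : 0 < (q : ℝ) / ((k : ℝ) ^ 2 * (p.1 : ℝ) ^ 4) := by positivity
      have hz1 : (q : ℝ) / ((k : ℝ) ^ 2 * (p.1 : ℝ) ^ 4) ≤ N := by
        rw [div_le_iff₀ (by positivity)]
        have h1 : (1 : ℝ) ≤ (k : ℝ) ^ 2 * (p.1 : ℝ) ^ 4 :=
          one_le_mul_of_one_le_of_one_le (one_le_pow₀ hk1) (one_le_pow₀ hf1)
        nlinarith
      refine (hL _ _ hη hz0).trans ?_
      have h1 : Real.log (1 + (q : ℝ) / ((k : ℝ) ^ 2 * (p.1 : ℝ) ^ 4)) ≤ 1 + Real.log N := by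
        calc _ ≤ Real.log (2 * N) := Real.log_le_log (by positivity) (by linarith)
          _ = Real.log 2 + Real.log N := Real.log_mul (by norm_num) (by positivity)
          _ ≤ _ := by linarith [Real.log_two_lt_d9]
      nlinarith
    · refine sum_le_sum fun p hp => ?_
      rw [hB', mem_product, mem_Icc, mem_Icc] at hp
      have hf1 : (1 : ℝ) ≤ p.1 := by exact_mod_cast hp.1.1
      have hz0 : 0 < (q : ℝ) / ((k : ℝ) ^ 2 * (p.1 : ℝ) ^ 4) := by positivity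
      have h1 := (hG i _ hz0).trans (mul_le_mul_of_nonneg_left (tr_rpow hq0 hk1 hf1) hC2.le)
      have h2 : |cc s i k p.1 p.2 * Pf s i k (Nat.lcm (p.2 ^ 2) p.1) q| ≤
          2 * (1 / √(k : ℝ)) * (1 / (p.1 : ℝ)) := by
        rw [abs_mul]
        calc _ ≤ 2 * (1 / √(k : ℝ)) * (1 / (p.1 : ℝ)) * 1 := by
              refine mul_le_mul (cc_le s i k p.1 p.2) ((Pf_le s i k _ q).trans ?_) (abs_nonneg _)
                (by positivity)
              split_ifs <;> norm_num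
          _ = _ := mul_one _
      have hsk : 0 < √(k : ℝ) := Real.sqrt_pos.2 (by linarith)
      calc _ ≤ (2 * (1 / √(k : ℝ)) * (1 / (p.1 : ℝ))) *
            (C2 * ((q : ℝ) ^ (-(1 / 8 : ℝ)) * (√(k : ℝ) * p.1))) :=
            mul_le_mul h2 h1 (abs_nonneg _) (by positivity)
        _ = 2 * C2 * (q : ℝ) ^ (-(1 / 8 : ℝ)) := by
            field_simp
  refine (sum_le_sum hpt).trans ?_
  simp only [sum_add_distrib]
  rw [mul_add (24 * C1 + 2 * C2) ((1 + Real.log N) ^ 2 * (N * √(Y : ℝ) / √(Z : ℝ)))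
    ((1 + Real.log N) * ((N : ℝ) ^ (7 / 8 : ℝ) * (Y * Z ^ 2)))]
  have hL0 : 0 ≤ 1 + Real.log (N : ℝ) := by linarith
  have hZ0 : (1 : ℝ) ≤ Z := by exact_mod_cast hZ
  have hsZ : 0 < √(Z : ℝ) := Real.sqrt_pos.2 (by linarith)
  refine add_le_add ?_ ?_
  · rw [sum_comm]
    have h1 : ∀ k ∈ KO Y, ∑ q ∈ Icc 1 N, ∑ p ∈ A \ B', 2 * (1 / √(k : ℝ)) * (1 / (p.1 : ℝ)) *
        (if Nat.lcm (p.2 ^ 2) p.1 ∣ q then 1 else 0) * (2 * C1 * (1 + Real.log N)) ≤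
        (1 / √(k : ℝ)) * (4 * C1 * (1 + Real.log N) * (N * (3 * (1 + Real.log N) / √(Z : ℝ)))) := by
      intro k _
      rw [sum_comm]
      have h2 : ∀ p ∈ A \ B', ∑ q ∈ Icc 1 N, 2 * (1 / √(k : ℝ)) * (1 / (p.1 : ℝ)) *
          (if Nat.lcm (p.2 ^ 2) p.1 ∣ q then 1 else 0) * (2 * C1 * (1 + Real.log N)) ≤
          (1 / √(k : ℝ)) * (4 * C1 * (1 + Real.log N)) * N *
            (1 / ((p.1 : ℝ) * (Nat.lcm (p.2 ^ 2) p.1 : ℕ))) := by
        intro p hp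
        rw [mem_sdiff, hA, mem_product, mem_Icc, mem_Icc] at hp
        have hg : 1 ≤ Nat.lcm (p.2 ^ 2) p.1 :=
          Nat.lcm_pos (by have := hp.1.2.1; positivity) (by omega)
        have h3 := tr_count N hg
        have hf1 : (1 : ℝ) ≤ p.1 := by exact_mod_cast hp.1.1.1
        have hg1 : (1 : ℝ) ≤ (Nat.lcm (p.2 ^ 2) p.1 : ℕ) := by exact_mod_cast hg
        calc _ = (1 / √(k : ℝ)) * (4 * C1 * (1 + Real.log N)) * (1 / (p.1 : ℝ)) *
              ∑ q ∈ Icc 1 N, (if Nat.lcm (p.2 ^ 2) p.1 ∣ q then (1 : ℝ) else 0) := by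
              rw [mul_sum]
              refine sum_congr rfl fun q _ => ?_
              ring
          _ ≤ (1 / √(k : ℝ)) * (4 * C1 * (1 + Real.log N)) * (1 / (p.1 : ℝ)) *
              (N / (Nat.lcm (p.2 ^ 2) p.1 : ℕ)) :=
              mul_le_mul_of_nonneg_left h3 (by positivity)
          _ = _ := by
              field_simp
      refine (sum_le_sum h2).trans ?_
      rw [← mul_sum]
      calc _ ≤ (1 / √(k : ℝ)) * (4 * C1 * (1 + Real.log N)) * N *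
            (3 * (1 + Real.log N) / √(Z : ℝ)) :=
            mul_le_mul_of_nonneg_left (tr_pairs hN hZ) (by positivity)
        _ = _ := by ring
    refine (sum_le_sum h1).trans ?_
    rw [← sum_mul]
    calc _ ≤ (2 * √(Y : ℝ)) * (4 * C1 * (1 + Real.log N) * (N * (3 * (1 + Real.log N) / √(Z : ℝ)))) :=
          mul_le_mul_of_nonneg_right (KO_sum_le Y) (by positivity)
      _ = 24 * C1 * ((1 + Real.log N) ^ 2 * (N * √(Y : ℝ) / √(Z : ℝ))) := by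
          field_simp
          ring
      _ ≤ _ := mul_le_mul_of_nonneg_right (by linarith) (by positivity)
  · have h1 : ∀ q ∈ Icc 1 N, ∑ k ∈ KO Y, ∑ p ∈ B', 2 * C2 * (q : ℝ) ^ (-(1 / 8 : ℝ)) ≤
        (2 * C2 * (Y * Z ^ 2)) * (q : ℝ) ^ (-(1 / 8 : ℝ)) := by
      intro q _
      rw [sum_const, sum_const, nsmul_eq_mul, nsmul_eq_mul, hB', card_product, Nat.card_Icc]
      have h2 := KO_card Y
      have h3 : 0 ≤ (q : ℝ) ^ (-(1 / 8 : ℝ)) := by positivity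
      calc _ ≤ (Y : ℝ) * (((Z + 1 - 1) * (Z + 1 - 1) : ℕ) * (2 * C2 * (q : ℝ) ^ (-(1 / 8 : ℝ)))) :=
            mul_le_mul_of_nonneg_right h2 (by positivity)
        _ = _ := by
            rw [Nat.add_sub_cancel]
            push_cast
            ring
    refine (sum_le_sum h1).trans ?_
    rw [← mul_sum]
    calc _ ≤ (2 * C2 * (Y * Z ^ 2)) * ((N : ℝ) ^ (7 / 8 : ℝ) * (1 + Real.log N)) :=
          mul_le_mul_of_nonneg_left (tr_pow_sum hN) (by positivity)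
      _ = 2 * C2 * ((1 + Real.log N) * ((N : ℝ) ^ (7 / 8 : ℝ) * (Y * Z ^ 2))) := by ring
      _ ≤ _ := mul_le_mul_of_nonneg_right (by linarith) (by positivity)

open Classical in
/-- statement of point -/
def S_PT : Prop := ∀ (s : ℤ), (s = 1 ∨ s = -1) → ∃ C : ℝ, 0 < C ∧ ∀ (i : Fin 4) (d Y : ℕ),
    (fam s i).A d → Squarefree d →
    ‖PV s (PY Y) ((fam s i).r * d) - ((2 * ∑ k ∈ KO Y, js (fam s i).e k * js (d : ℤ) k / √k * ∑ f ∈ d.divisors, mu f / f *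
      La s (fam s i).η ((((fam s i).r * d : ℕ) : ℝ) / ((k : ℝ) ^ 2 * (f : ℝ) ^ 4)) : ℝ) : ℂ)‖ ≤ C / (((fam s i).r * d : ℕ) : ℝ)

lemma RR_R {s : ℤ} (hs : s = 1 ∨ s = -1) {i : Fin 4} {d : ℕ} (h : d % 8 ∈ RR s i)
    (hsq : Squarefree d) (hA : ¬ (fam s i).A d) : d = 1 := by
  classical
  obtain ⟨R, _, h1, h2, _, _⟩ := fam_R s hs i
  apply h2 d _ hsq hA
  unfold RR at h
  rw [mem_filter] at h
  obtain ⟨_, d', h3, h4⟩ := h
  rw [← h4]
  exact h1 d' h3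

lemma A_RR {s : ℤ} {i : Fin 4} {d : ℕ} (h : (fam s i).A d) : d % 8 ∈ RR s i := by
  classical
  unfold RR
  rw [mem_filter, mem_range]
  exact ⟨Nat.mod_lt _ (by norm_num), d, h, rfl⟩

lemma MM_one (hLa : S_LaB) (s : ℤ) (hs : s = 1 ∨ s = -1) : ∃ C : ℝ, 0 < C ∧ ∀ (i : Fin 4) (Y : ℕ),
    |MM s i Y (fam s i).r| ≤ C * √(Y : ℝ) := by
  obtain ⟨C1, hC1, hL⟩ := hLa s
  refine ⟨∑ i, 4 * C1 * (1 + Real.log (1 + (fam s i).r)), ?_, fun i Y => ?_⟩
  · apply sum_pos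
    · intro i _
      have : 0 ≤ Real.log (1 + ((fam s i).r : ℝ)) :=
        Real.log_nonneg (by linarith [Nat.cast_nonneg (α := ℝ) (fam s i).r])
      positivity
    · exact univ_nonempty
  · obtain ⟨_, _, _, _, hη, hr⟩ := fam_R s hs i
    have hrR : (1 : ℝ) ≤ (fam s i).r := by exact_mod_cast hr
    have hlog : ∀ j : Fin 4, 0 ≤ Real.log (1 + ((fam s j).r : ℝ)) := fun j =>
      Real.log_nonneg (by linarith [Nat.cast_nonneg (α := ℝ) (fam s j).r])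
    have h1 : 4 * C1 * (1 + Real.log (1 + (fam s i).r)) ≤
        ∑ i, 4 * C1 * (1 + Real.log (1 + (fam s i).r)) :=
      single_le_sum (f := fun i => 4 * C1 * (1 + Real.log (1 + ((fam s i).r : ℝ))))
        (fun j _ => by have := hlog j; positivity) (mem_univ i)
    refine le_trans ?_ (mul_le_mul_of_nonneg_right h1 (Real.sqrt_nonneg _))
    unfold MM
    rw [Nat.div_self hr, Nat.divisors_one]
    split_ifs with h2
    · rw [abs_mul, abs_of_pos (show (0 : ℝ) < 2 by norm_num)]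
      have h3 : |∑ k ∈ KO Y, js (fam s i).e k * js ((1 : ℕ) : ℤ) k / √(k : ℝ) *
          ∑ f ∈ {1}, mu f / (f : ℝ) * La s (fam s i).η (((fam s i).r : ℝ) / ((k : ℝ) ^ 2 * (f : ℝ) ^ 4))| ≤
          ∑ k ∈ KO Y, (1 / √(k : ℝ)) * (C1 * (1 + Real.log (1 + (fam s i).r))) := by
        refine (abs_sum_le_sum_abs _ _).trans (sum_le_sum fun k hk => ?_)
        have hk1 : (1 : ℝ) ≤ k := by exact_mod_cast KO_pos hk
        rw [abs_mul, sum_singleton, abs_mul]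
        have h4 : |js (fam s i).e k * js ((1 : ℕ) : ℤ) k / √(k : ℝ)| ≤ 1 / √(k : ℝ) := by
          rw [abs_div, abs_of_nonneg (Real.sqrt_nonneg _), abs_mul]
          apply div_le_div_of_nonneg_right _ (Real.sqrt_nonneg _)
          calc _ ≤ (1 : ℝ) * 1 := mul_le_mul (js_le _ _) (js_le _ _) (abs_nonneg _) zero_le_one
            _ = 1 := one_mul _
        have h5 : |mu 1 / ((1 : ℕ) : ℝ)| ≤ 1 := by
          rw [Nat.cast_one, div_one]
          exact abs_mu_le 1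
        have hz0 : 0 < ((fam s i).r : ℝ) / ((k : ℝ) ^ 2 * ((1 : ℕ) : ℝ) ^ 4) := by positivity
        have hz1 : ((fam s i).r : ℝ) / ((k : ℝ) ^ 2 * ((1 : ℕ) : ℝ) ^ 4) ≤ (fam s i).r := by
          rw [div_le_iff₀ (by positivity)]
          have h1 : (1 : ℝ) ≤ (k : ℝ) ^ 2 * ((1 : ℕ) : ℝ) ^ 4 := by
            rw [Nat.cast_one, one_pow, mul_one]
            exact one_le_pow₀ hk1
          nlinarith
        have h6 : |La s (fam s i).η (((fam s i).r : ℝ) / ((k : ℝ) ^ 2 * ((1 : ℕ) : ℝ) ^ 4))| ≤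
            C1 * (1 + Real.log (1 + (fam s i).r)) := by
          refine (hL _ _ hη hz0).trans (mul_le_mul_of_nonneg_left ?_ hC1.le)
          have := Real.log_le_log (show 0 < 1 + ((fam s i).r : ℝ) / ((k : ℝ) ^ 2 * ((1 : ℕ) : ℝ) ^ 4) by
            positivity) (show 1 + ((fam s i).r : ℝ) / ((k : ℝ) ^ 2 * ((1 : ℕ) : ℝ) ^ 4) ≤
              1 + (fam s i).r by linarith)
          linarith
        refine mul_le_mul h4 ?_ (by positivity) (by positivity)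
        calc _ ≤ 1 * (C1 * (1 + Real.log (1 + (fam s i).r))) :=
              mul_le_mul h5 h6 (abs_nonneg _) zero_le_one
          _ = _ := one_mul _
      refine (mul_le_mul_of_nonneg_left h3 (by norm_num : (0 : ℝ) ≤ 2)).trans ?_
      rw [← sum_mul]
      have h7 := KO_sum_le Y
      have h8 : 0 ≤ C1 * (1 + Real.log (1 + ((fam s i).r : ℝ))) := by
        have := hlog i
        positivity
      calc 2 * ((∑ k ∈ KO Y, 1 / √(k : ℝ)) * (C1 * (1 + Real.log (1 + ((fam s i).r : ℝ))))) ≤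
            2 * ((2 * √(Y : ℝ)) * (C1 * (1 + Real.log (1 + ((fam s i).r : ℝ))))) := by
            apply mul_le_mul_of_nonneg_left _ (by norm_num)
            exact mul_le_mul_of_nonneg_right h7 h8
        _ = _ := by ring
    · rw [abs_zero]
      have := hlog i
      positivity

open Classical in
lemma TM (hLa : S_LaB) (hPt : S_PT) (s : ℤ) (hs : s = 1 ∨ s = -1) : ∃ C : ℝ, 0 < C ∧
    ∀ (Y q : ℕ), 1 ≤ q → ‖(if Is s q then PV s (PY Y) q else 0) - ((∑ i, MM s i Y q : ℝ) : ℂ)‖ ≤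
      C / q + ∑ i, if q = (fam s i).r then C * √(Y : ℝ) else 0 := by
  obtain ⟨C1, hC1, hP⟩ := hPt s hs
  obtain ⟨C2, hC2, hM1⟩ := MM_one hLa s hs
  refine ⟨C1 + C2, by positivity, fun Y q hq => ?_⟩
  have hq0 : (0 : ℝ) < q := by exact_mod_cast (by omega : 0 < q)
  -- the members which do not belong to the family
  have hM : ∀ i, ¬ ((fam s i).r ∣ q ∧ Squarefree (q / (fam s i).r) ∧
      (fam s i).A (q / (fam s i).r)) →
      |MM s i Y q| ≤ if q = (fam s i).r then (C1 + C2) * √(Y : ℝ) else 0 := by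
    intro i hi
    have hsy := Real.sqrt_nonneg (Y : ℝ)
    by_cases h1 : (fam s i).r ∣ q ∧ (q / (fam s i).r) % 8 ∈ RR s i ∧
        Squarefree (q / (fam s i).r)
    · obtain ⟨h2, h3, h4⟩ := h1
      have h5 := RR_R hs h3 h4 (fun h => hi ⟨h2, h4, h⟩)
      have h6 : q = (fam s i).r := by
        have := Nat.mul_div_cancel' h2
        rw [h5, mul_one] at this
        exact this.symm
      rw [if_pos h6]
      have h7 := hM1 i Y
      rw [← h6] at h7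
      refine h7.trans (mul_le_mul_of_nonneg_right (by linarith) hsy)
    · unfold MM
      rw [if_neg h1, abs_zero]
      split_ifs
      · positivity
      · exact le_rfl
  have hsum0 : 0 ≤ ∑ i, if q = (fam s i).r then (C1 + C2) * √(Y : ℝ) else 0 :=
    sum_nonneg fun i _ => by split_ifs <;> positivity
  by_cases hI : Is s q
  · obtain ⟨hq2, χ, hχ⟩ := hI
    obtain ⟨i₀, d, hA, hsq, hqd⟩ := fam_surj s q hq2 χ hχ
    obtain ⟨_, _, _, _, _, hr⟩ := fam_R s hs i₀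
    have hdq : q / (fam s i₀).r = d := by
      rw [hqd]
      exact Nat.mul_div_cancel_left d hr
    rw [if_pos ⟨hq2, χ, hχ⟩]
    have h1 : ‖PV s (PY Y) q - ((MM s i₀ Y q : ℝ) : ℂ)‖ ≤ C1 / q := by
      have h2 := hP i₀ d Y hA hsq
      have h3 : MM s i₀ Y q = 2 * ∑ k ∈ KO Y, js (fam s i₀).e k * js (d : ℤ) k / √k *
          ∑ f ∈ d.divisors, mu f / f *
          La s (fam s i₀).η ((((fam s i₀).r * d : ℕ) : ℝ) / ((k : ℝ) ^ 2 * (f : ℝ) ^ 4)) := by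
        unfold MM
        rw [hdq, if_pos ⟨by rw [hqd]; exact dvd_mul_right _ _, A_RR hA, hsq⟩, ← hqd]
      rw [h3]
      rw [← hqd] at h2 ⊢
      exact h2
    have h2 : ∑ i, MM s i Y q = MM s i₀ Y q + ∑ i ∈ univ.erase i₀, MM s i Y q :=
      (add_sum_erase _ _ (mem_univ i₀)).symm
    have h3 : |∑ i ∈ univ.erase i₀, MM s i Y q| ≤
        ∑ i, if q = (fam s i).r then (C1 + C2) * √(Y : ℝ) else 0 := by
      refine (abs_sum_le_sum_abs _ _).trans ?_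
      refine (sum_le_sum (g := fun i => if q = (fam s i).r then (C1 + C2) * √(Y : ℝ) else 0)
        fun i hi => ?_).trans
        (sum_le_sum_of_subset_of_nonneg (erase_subset _ _) fun i _ _ => by split_ifs <;> positivity)
      apply hM i
      rintro ⟨h4, h5, h6⟩
      have h7 := fam_inj s hs i i₀ _ _ h6 hA (by rw [Nat.mul_div_cancel' h4, hqd])
      exact (mem_erase.1 hi).1 h7.1
    rw [h2]
    have h4 : PV s (PY Y) q - ((MM s i₀ Y q + ∑ i ∈ univ.erase i₀, MM s i Y q : ℝ) : ℂ) =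
        (PV s (PY Y) q - ((MM s i₀ Y q : ℝ) : ℂ)) -
          ((∑ i ∈ univ.erase i₀, MM s i Y q : ℝ) : ℂ) := by
      push_cast
      ring
    rw [h4]
    refine (norm_sub_le _ _).trans ?_
    rw [Complex.norm_real, Real.norm_eq_abs]
    have h5 : C1 / q ≤ (C1 + C2) / q := div_le_div_of_nonneg_right (by linarith) hq0.le
    linarith
  · rw [if_neg hI, zero_sub, norm_neg, Complex.norm_real, Real.norm_eq_abs]
    have h1 : |∑ i, MM s i Y q| ≤ ∑ i, if q = (fam s i).r then (C1 + C2) * √(Y : ℝ) else 0 := by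
      refine (abs_sum_le_sum_abs _ _).trans (sum_le_sum fun i _ => hM i ?_)
      rintro ⟨h4, h5, h6⟩
      obtain ⟨_, _, h7, χ, h8, _⟩ := rp_of s hs (fam s i) (fam_mem s i) _ h6 h5
      apply hI
      rw [Nat.mul_div_cancel' h4] at h7
      refine ⟨h7, ?_⟩
      rw [← Nat.mul_div_cancel' h4]
      exact ⟨χ, h8⟩
    have h2 : 0 ≤ (C1 + C2) / q := by positivity
    linarith

open Classical in
theorem trunc_of (hLa : S_LaB) (hPt : S_PT) (s : ℤ) (hs : s = 1 ∨ s = -1) (B : Fin 4 → ℝ) (hB : Good s B) : ∃ C : ℝ, 0 < C ∧ ∀ N Y Z : ℕ, 1 ≤ N → 1 ≤ Y → 1 ≤ Z →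
    ∑ q ∈ Icc 1 N, ‖(if Is s q then PV s (PY Y) q else 0) - ((Gp s B Y Z q : ℝ) : ℂ)‖ ≤
      C * (1 + Real.log N) ^ 4 * (N * √Y / √Z + (N : ℝ) ^ (7 / 8 : ℝ) * ((Y * Z : ℕ) : ℝ) ^ 4) := by
  obtain ⟨C1, hC1, h1⟩ := TM hLa hPt s hs
  obtain ⟨C2, hC2, h2⟩ := diff_bd hLa s hs B hB
  refine ⟨5 * C1 + 4 * C2, by positivity, fun N Y Z hN hY hZ => ?_⟩
  have hNR : (1 : ℝ) ≤ N := by exact_mod_cast hN
  have hYR : (1 : ℝ) ≤ Y := by exact_mod_cast hY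
  have hZR : (1 : ℝ) ≤ Z := by exact_mod_cast hZ
  have hlog : 0 ≤ Real.log N := Real.log_natCast_nonneg N
  have hpt : ∀ q ∈ Icc 1 N, ‖(if Is s q then PV s (PY Y) q else 0) - ((Gp s B Y Z q : ℝ) : ℂ)‖ ≤
      (C1 / q + ∑ i, if q = (fam s i).r then C1 * √(Y : ℝ) else 0) +
        ∑ i, |FF s i N Y q - GGt s B i Y Z q| := by
    intro q hq
    rw [mem_Icc] at hq
    have h3 := h1 Y q hq.1
    have h4 : (if Is s q then PV s (PY Y) q else 0) - ((Gp s B Y Z q : ℝ) : ℂ) =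
        ((if Is s q then PV s (PY Y) q else 0) - ((∑ i, MM s i Y q : ℝ) : ℂ)) +
          ((∑ i, (FF s i N Y q - GGt s B i Y Z q) : ℝ) : ℂ) := by
      rw [Gp_eq, sum_sub_distrib, sum_congr rfl fun i _ => FM s i Y hq.1 hq.2]
      push_cast
      ring
    rw [h4]
    refine (norm_add_le _ _).trans (add_le_add h3 ?_)
    rw [Complex.norm_real, Real.norm_eq_abs]
    exact abs_sum_le_sum_abs _ _
  refine (sum_le_sum hpt).trans ?_
  rw [sum_add_distrib, sum_add_distrib]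
  set L : ℝ := 1 + Real.log N with hL
  have hL1 : 1 ≤ L := by linarith
  set S : ℝ := N * √(Y : ℝ) / √(Z : ℝ) with hS
  set T : ℝ := (N : ℝ) ^ (7 / 8 : ℝ) * ((Y * Z : ℕ) : ℝ) ^ 4 with hT
  have hS0 : 0 ≤ S := by positivity
  have hN7 : 1 ≤ (N : ℝ) ^ (7 / 8 : ℝ) := Real.one_le_rpow hNR (by norm_num)
  have hYZ : (1 : ℝ) ≤ ((Y * Z : ℕ) : ℝ) := by
    push_cast
    exact one_le_mul_of_one_le_of_one_le hYR hZR
  have hT1 : 1 ≤ T := one_le_mul_of_one_le_of_one_le hN7 (one_le_pow₀ hYZ)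
  have hYZ4 : (Y : ℝ) * Z ^ 2 ≤ ((Y * Z : ℕ) : ℝ) ^ 4 := by
    push_cast
    rw [mul_pow]
    have h3 : (Y : ℝ) ^ 1 ≤ (Y : ℝ) ^ 4 := pow_le_pow_right₀ hYR (by norm_num)
    have h4 : (Z : ℝ) ^ 2 ≤ (Z : ℝ) ^ 4 := pow_le_pow_right₀ hZR (by norm_num)
    rw [pow_one] at h3
    exact mul_le_mul h3 h4 (by positivity) (by positivity)
  have hsY : √(Y : ℝ) ≤ T := by
    have h3 : √(Y : ℝ) ≤ Y := by
      rw [Real.sqrt_le_left (by linarith)]
      nlinarith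
    have h4 : (Y : ℝ) ≤ Y * Z ^ 2 := by
      have : (1 : ℝ) ≤ (Z : ℝ) ^ 2 := one_le_pow₀ hZR
      nlinarith
    have h5 : ((Y * Z : ℕ) : ℝ) ^ 4 ≤ T := by
      rw [hT]
      have : 0 ≤ ((Y * Z : ℕ) : ℝ) ^ 4 := by positivity
      nlinarith
    linarith
  have hL4 : 1 ≤ L ^ 4 := one_le_pow₀ hL1
  have hLL : L ≤ L ^ 4 := by
    calc L = L ^ 1 := (pow_one _).symm
      _ ≤ L ^ 4 := pow_le_pow_right₀ hL1 (by norm_num)
  have hL2 : L ^ 2 ≤ L ^ 4 := pow_le_pow_right₀ hL1 (by norm_num)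
  have e1 : ∑ q ∈ Icc 1 N, C1 / (q : ℝ) ≤ C1 * (L ^ 4 * (S + T)) := by
    have h3 : ∑ q ∈ Icc 1 N, C1 / (q : ℝ) = C1 * ∑ q ∈ Icc 1 N, 1 / (q : ℝ) := by
      rw [mul_sum]
      exact sum_congr rfl fun q _ => by ring
    rw [h3]
    apply mul_le_mul_of_nonneg_left _ hC1.le
    refine (harm_le hN le_rfl).trans ?_
    have : L ^ 4 * 1 ≤ L ^ 4 * (S + T) := mul_le_mul_of_nonneg_left (by linarith) (by positivity)
    linarith
  have e2 : ∑ q ∈ Icc 1 N, ∑ i, (if q = (fam s i).r then C1 * √(Y : ℝ) else 0) ≤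
      4 * C1 * (L ^ 4 * (S + T)) := by
    rw [sum_comm]
    have h3 : ∀ i ∈ (univ : Finset (Fin 4)), ∑ q ∈ Icc 1 N,
        (if q = (fam s i).r then C1 * √(Y : ℝ) else 0) ≤ C1 * √(Y : ℝ) := by
      intro i _
      rw [sum_ite_eq']
      split_ifs
      · exact le_rfl
      · positivity
    refine (sum_le_sum h3).trans ?_
    rw [sum_const, card_univ, Fintype.card_fin, nsmul_eq_mul]
    have h4 : √(Y : ℝ) ≤ L ^ 4 * (S + T) := by
      have : 1 * (S + T) ≤ L ^ 4 * (S + T) := mul_le_mul_of_nonneg_right hL4 (by linarith)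
      linarith
    push_cast
    nlinarith
  have e3 : ∑ q ∈ Icc 1 N, ∑ i, |FF s i N Y q - GGt s B i Y Z q| ≤ 4 * C2 * (L ^ 4 * (S + T)) := by
    rw [sum_comm]
    refine (sum_le_sum fun i _ => h2 i N Y Z hN hY hZ).trans ?_
    rw [sum_const, card_univ, Fintype.card_fin, nsmul_eq_mul]
    have h3 : L ^ 2 * S + L * ((N : ℝ) ^ (7 / 8 : ℝ) * (Y * Z ^ 2)) ≤ L ^ 4 * (S + T) := by
      rw [mul_add]
      refine add_le_add (mul_le_mul_of_nonneg_right hL2 hS0) ?_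
      refine mul_le_mul hLL ?_ (by positivity) (by positivity)
      exact mul_le_mul_of_nonneg_left hYZ4 (by positivity)
    push_cast
    nlinarith
  have e4 : (5 * C1 + 4 * C2) * L ^ 4 * (S + T) = C1 * (L ^ 4 * (S + T)) +
      4 * C1 * (L ^ 4 * (S + T)) + 4 * C2 * (L ^ 4 * (S + T)) := by ring
  rw [e4]
  linarith

end

end Pool.Agent.J4.H39.CM
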