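import Pool.Agent.J4.H39.CM.Lam
import Pool.Agent.J4.H39.CM.Point
import Pool.Agent.J4.H39.CM.Trunc
import Pool.Agent.J4.H39.CM.Four
import Pool.Agent.J4.H39.CM.Reg
import Pool.Agent.J4.H39.CM.Coef
import Pool.Agent.J4.H39.CM.Tfold
import Pool.Agent.J4.H39.CM.Shift
import Pool.Agent.J4.H39.CM.L2g
import Pool.Agent.J4.H39.CM.High
import Pool.Agent.J4.H39.CM.L2
import Pool.Agent.J4.H39.CM.Czero

set_option autoImplicit false

/-!
Project CM (helper39): the pieces of the second part.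
-/

namespace Pool.Agent.J4.H39.CM

open Complex Finset
open Pool.Agent.N879.QM

noncomputable section

open Classical in
theorem trunc (s : ℤ) (hs : s = 1 ∨ s = -1) (B : Fin 4 → ℝ) (hB : Good s B) : ∃ C : ℝ, 0 < C ∧ ∀ N Y Z : ℕ, 1 ≤ N → 1 ≤ Y → 1 ≤ Z →
    ∑ q ∈ Icc 1 N, ‖(if Is s q then PV s (PY Y) q else 0) - ((Gp s B Y Z q : ℝ) : ℂ)‖ ≤
      C * (1 + Real.log N) ^ 4 * (N * √Y / √Z + (N : ℝ) ^ (7 / 8 : ℝ) * ((Y * Z : ℕ) : ℝ) ^ 4) :=
  trunc_of La_bound point s hs B hB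

end

end Pool.Agent.J4.H39.CM
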