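import Pool.Agent.J4.H39.CM.L2g
import Pool.Agent.J4.H39.CM.Four

set_option autoImplicit false

/-!
Project CM (helper39), piece BB: mean squares of exponential sums over rationals with small denominators.
-/

namespace Pool.Agent.J4.H39.CM

open Complex Finset

noncomputable section

namespace BB

lemma e_add (x y : ℝ) : e (x + y) = e x * e y := by
  unfold e
  rw [← Complex.exp_add]
  congr 1
  push_cast
  ring

lemma e_nrm (x : ℝ) : ‖e x‖ = 1 := by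
  unfold e
  rw [show (2 * Real.pi * x * Complex.I : ℂ) = ((2 * Real.pi * x : ℝ) : ℂ) * Complex.I by
    push_cast; ring]
  exact Complex.norm_exp_ofReal_mul_I _

lemma e_cj (x : ℝ) : (starRingEnd ℂ) (e x) = e (-x) := by
  unfold e
  rw [← Complex.exp_conj]
  congr 1
  simp only [map_mul, Complex.conj_ofReal, Complex.conj_I, map_ofNat]
  push_cast
  ring

lemma one_bd (W N : ℕ) (hW : 1 ≤ W) (β : ℝ) (hβ : ∀ z : ℤ, 1 / (W : ℝ) ^ 2 ≤ |β - z|) :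
    ‖∑ h ∈ Icc 1 N, e (β * h)‖ ≤ 3 * (W : ℝ) ^ 2 := by
  have hW1 : (1 : ℝ) ≤ W := by exact_mod_cast hW
  have hW0 : (0 : ℝ) < (W : ℝ) ^ 2 := by positivity
  have hW2 : (1 : ℝ) ≤ (W : ℝ) ^ 2 := one_le_pow₀ hW1
  have hn : 1 / (W : ℝ) ^ 2 ≤ ni β := hβ (round β)
  have h1 := geom β ((N + 1 : ℕ) : ℝ) (N + 1) le_rfl
  have h2 := kb_le_inv (T := ((N + 1 : ℕ) : ℝ)) (Nat.cast_nonneg _) (by positivity) hn
  have h3 : ∑ h ∈ Icc 1 N, e (β * h) = ∑ h ∈ range (N + 1), e (β * h) - 1 := by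
    rw [range_eq_Ico, sum_eq_sum_Ico_succ_bot (by omega), Nat.cast_zero, mul_zero, L2g.e_z]
    have : Ico (0 + 1) (N + 1) = Icc 1 N := by
      ext a
      rw [mem_Ico, mem_Icc]
      omega
    rw [this]
    ring
  rw [h3]
  refine (norm_sub_le _ _).trans ?_
  rw [norm_one]
  have h4 : 2 / (1 / (W : ℝ) ^ 2) = 2 * (W : ℝ) ^ 2 := by field_simp
  rw [h4] at h2
  linarith

end BB

open BB in
theorem ls_exp : ∃ C : ℝ, 0 < C ∧ ∀ (S : Finset ℚ) (W N : ℕ) (c : ℚ → ℂ), 1 ≤ N → 1 ≤ W →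
    (∀ θ ∈ S, 0 ≤ θ ∧ θ < 1 ∧ θ.den ≤ W) →
    ∑ h ∈ Icc 1 N, ‖∑ θ ∈ S, c θ * e (-((θ : ℝ) * h))‖ ^ 2 ≤
      C * (N * ∑ θ ∈ S, ‖c θ‖ ^ 2 + (W : ℝ) ^ 2 * (∑ θ ∈ S, ‖c θ‖) ^ 2) := by
  classical
  refine ⟨3, by norm_num, fun S W N c hN hW hS => ?_⟩
  have e1 : ((∑ h ∈ Icc 1 N, ‖∑ θ ∈ S, c θ * e (-((θ : ℝ) * h))‖ ^ 2 : ℝ) : ℂ) =
      ∑ θ ∈ S, ∑ θ' ∈ S, c θ * (starRingEnd ℂ) (c θ') * ∑ h ∈ Icc 1 N, e (((θ' : ℝ) - θ) * h) := by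
    push_cast
    have e2 : ∀ h ∈ Icc 1 N, ((‖∑ θ ∈ S, c θ * e (-((θ : ℝ) * h))‖ : ℝ) : ℂ) ^ 2 =
        ∑ θ ∈ S, ∑ θ' ∈ S, c θ * (starRingEnd ℂ) (c θ') * e (((θ' : ℝ) - θ) * h) := by
      intro h _
      rw [← Complex.mul_conj', map_sum, sum_mul_sum]
      refine sum_congr rfl fun θ _ => sum_congr rfl fun θ' _ => ?_
      rw [map_mul, e_cj]
      have : ((θ' : ℝ) - θ) * h = -((θ : ℝ) * h) + -(-((θ' : ℝ) * h)) := by ring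
      rw [this, e_add]
      ring
    rw [sum_congr rfl e2, sum_comm]
    refine sum_congr rfl fun θ _ => ?_
    rw [sum_comm]
    refine sum_congr rfl fun θ' _ => ?_
    rw [mul_sum]
  have h1 : ∑ h ∈ Icc 1 N, ‖∑ θ ∈ S, c θ * e (-((θ : ℝ) * h))‖ ^ 2 =
      ‖∑ θ ∈ S, ∑ θ' ∈ S, c θ * (starRingEnd ℂ) (c θ') * ∑ h ∈ Icc 1 N, e (((θ' : ℝ) - θ) * h)‖ := by
    rw [← e1, Complex.norm_real, Real.norm_eq_abs, abs_of_nonneg (sum_nonneg fun _ _ => by positivity)]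
  rw [h1]
  have h2 : ∀ θ ∈ S, ∀ θ' ∈ S, ‖c θ * (starRingEnd ℂ) (c θ') * ∑ h ∈ Icc 1 N, e (((θ' : ℝ) - θ) * h)‖ ≤
      (if θ = θ' then N * ‖c θ‖ ^ 2 else 0) + 3 * (W : ℝ) ^ 2 * (‖c θ‖ * ‖c θ'‖) := by
    intro θ hθ θ' hθ'
    rw [norm_mul, norm_mul, Complex.norm_conj]
    by_cases h : θ = θ'
    · rw [if_pos h, h]
      have h3 : ‖∑ h ∈ Icc 1 N, e (((θ' : ℝ) - θ') * h)‖ ≤ N := by
        refine (norm_sum_le _ _).trans ?_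
        simp only [e_nrm, sum_const, Nat.card_Icc, Nat.add_sub_cancel, nsmul_eq_mul, mul_one]
        exact le_rfl
      have h4 : 0 ≤ 3 * (W : ℝ) ^ 2 * (‖c θ'‖ * ‖c θ'‖) := by positivity
      have h5 : ‖c θ'‖ * ‖c θ'‖ * ‖∑ h ∈ Icc 1 N, e (((θ' : ℝ) - θ') * h)‖ ≤ ‖c θ'‖ * ‖c θ'‖ * N :=
        mul_le_mul_of_nonneg_left h3 (by positivity)
      nlinarith
    · rw [if_neg h, zero_add]
      have h3 := one_bd W N hW ((θ' : ℝ) - θ) (fun z => L2g.sep hW (hS θ' hθ') (hS θ hθ) (Ne.symm h) z)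
      calc ‖c θ‖ * ‖c θ'‖ * ‖∑ h ∈ Icc 1 N, e (((θ' : ℝ) - θ) * h)‖ ≤ ‖c θ‖ * ‖c θ'‖ * (3 * (W : ℝ) ^ 2) :=
            mul_le_mul_of_nonneg_left h3 (by positivity)
        _ = _ := by ring
  calc _ ≤ ∑ θ ∈ S, ∑ θ' ∈ S, ((if θ = θ' then N * ‖c θ‖ ^ 2 else 0) + 3 * (W : ℝ) ^ 2 * (‖c θ‖ * ‖c θ'‖)) := by
        refine (norm_sum_le _ _).trans (sum_le_sum fun θ hθ => ?_)
        exact (norm_sum_le _ _).trans (sum_le_sum fun θ' hθ' => h2 θ hθ θ' hθ')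
    _ = N * ∑ θ ∈ S, ‖c θ‖ ^ 2 + 3 * ((W : ℝ) ^ 2 * (∑ θ ∈ S, ‖c θ‖) ^ 2) := by
        simp only [sum_add_distrib]
        congr 1
        · rw [mul_sum]
          refine sum_congr rfl fun θ hθ => ?_
          rw [sum_ite_eq, if_pos hθ]
        · rw [pow_two (∑ θ ∈ S, ‖c θ‖), sum_mul_sum, mul_sum, mul_sum]
          refine sum_congr rfl fun θ _ => ?_
          rw [mul_sum, mul_sum]
          refine sum_congr rfl fun θ' _ => ?_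
          ring
    _ ≤ _ := by
        have : (0 : ℝ) ≤ N * ∑ θ ∈ S, ‖c θ‖ ^ 2 := by positivity
        linarith

end

end Pool.Agent.J4.H39.CM
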