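import Pool.Agent.J4.H39.CM.Def3

set_option autoImplicit false

/-!
Project CM (helper39), fourth part: the correlations for almost all shifts. Definitions.
-/

namespace Pool.Agent.J4.H39.CM

open Finset

noncomputable section

/-- the mean value of `g(a) g(a + h)` modulo `M` -/
def CG (M : ℕ) (g : ℕ → ℝ) (h : ℕ) : ℝ := (∑ a ∈ range M, g a * g (a + h)) / M

end

end Pool.Agent.J4.H39.CM
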