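import Pool.Agent.J4.H39.CM.Def3
import Pool.Agent.J4.H39.CM.Coef

set_option autoImplicit false

/-!
Project CM (helper39), piece ZC: `cz` is a subsum of the absolutely convergent series `c1`, and it converges
to `c1`.
-/

namespace Pool.Agent.J4.H39.CM

open Complex Finset Filter Topology
open Pool.Agent.N879.QM
open Pool.Agent.N879.QM.Avg (fam)
open Pool.Agent.H306R2.RZ (js)
open Pool.Agent.Y293.SF (mu)

noncomputable section

namespace ZC

lemma Pf_even (s : ℤ) (hs : s = 1 ∨ s = -1) (i : Fin 4) (k g q : ℕ) (hg : ¬ Odd g) :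
    Pf s i k g q = 0 := by
  classical
  unfold Pf
  rw [if_neg]
  rintro ⟨-, h1, h2⟩
  unfold RR at h1
  rw [mem_filter] at h1
  obtain ⟨-, d', hd', hd8⟩ := h1
  have h3 := Avg.fam_odd s hs i d' hd'
  rw [Nat.not_odd_iff_even] at hg
  have h4 : 2 ∣ q / (fam s i).r := (even_iff_two_dvd.1 hg).trans h2
  omega

lemma pc_even (s : ℤ) (hs : s = 1 ∨ s = -1) (i : Fin 4) (k g : ℕ) (θ : ℚ) (hg : ¬ Odd g) :
    pc s i k g θ = 0 := by
  unfold pc
  rw [Finset.sum_eq_zero, mul_zero]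
  intro q _
  rw [Pf_even s hs i k g q hg, ofReal_zero, zero_mul]

lemma mu_ne {n : ℕ} (h : mu n ≠ 0) : Squarefree n := by
  unfold mu at h
  rw [Ne, Int.cast_eq_zero] at h
  exact ArithmeticFunction.moebius_ne_zero_iff_squarefree.1 h

lemma tm_ne (s : ℤ) (hs : s = 1 ∨ s = -1) (i : Fin 4) (w : ℕ → ℕ → ℝ) (θ : ℚ) (f b : ℕ)
    (h : tm s i w θ (f, b) ≠ 0) : (Odd f ∧ Squarefree f) ∧ (Odd b ∧ Squarefree b) ∧
      Odd (kap s i (Nat.lcm (b ^ 2) f) θ) ∧ Squarefree (kap s i (Nat.lcm (b ^ 2) f) θ) := by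
  classical
  unfold tm at h
  simp only at h
  split_ifs at h with h1
  · have h2 : pc s i (kap s i (Nat.lcm (b ^ 2) f) θ) (Nat.lcm (b ^ 2) f) θ ≠ 0 := right_ne_zero_of_mul h
    have h3 := left_ne_zero_of_mul h
    rw [Ne, ofReal_eq_zero] at h3
    have h4 : cc s i (kap s i (Nat.lcm (b ^ 2) f) θ) f b ≠ 0 := left_ne_zero_of_mul h3
    unfold cc at h4
    have h5 : mu b ≠ 0 := right_ne_zero_of_mul h4
    have h6 : mu f / (f : ℝ) ≠ 0 := right_ne_zero_of_mul (left_ne_zero_of_mul h4)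
    have h7 : mu f ≠ 0 := fun h' => h6 (by rw [h', zero_div])
    have hodd : Odd (Nat.lcm (b ^ 2) f) := by
      by_contra hcon
      exact h2 (pc_even s hs i _ _ θ hcon)
    have hf : Odd f := Odd.of_dvd_nat hodd (Nat.dvd_lcm_right _ _)
    have hb : Odd b := Odd.of_dvd_nat hodd ((dvd_pow_self b two_ne_zero).trans (Nat.dvd_lcm_left _ _))
    exact ⟨⟨hf, mu_ne h7⟩, ⟨hb, mu_ne h5⟩, h1.2.2.1, h1.2.2.2⟩
  · exact absurd rfl h

lemma dvd_Pz {n z : ℕ} (hn : Odd n) (hsq : Squarefree n) (hz : n ≤ z) : n ∣ Pz z := by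
  unfold Pz
  rw [← Nat.prod_primeFactors_of_squarefree hsq]
  refine Finset.prod_dvd_prod_of_subset _ _ _ fun p hp => ?_
  have hpp := Nat.prime_of_mem_primeFactors hp
  have hpd := Nat.dvd_of_mem_primeFactors hp
  have hn0 : 0 < n := hn.pos
  have h2 : p ≠ 2 := by
    rintro rfl
    rw [Nat.odd_iff] at hn
    omega
  have h3 := hpp.two_le
  rw [mem_filter, mem_Icc]
  exact ⟨⟨by omega, (Nat.le_of_dvd hn0 hpd).trans hz⟩, hpp⟩

lemma Pz_ne (z : ℕ) : Pz z ≠ 0 := by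
  unfold Pz
  exact Finset.prod_ne_zero_iff.2 fun p hp => (mem_filter.1 hp).2.ne_zero

/-- the finite part of the series -/
def ft (s : ℤ) (i : Fin 4) (θ : ℚ) (P : ℕ) (p : ℕ × ℕ) : ℂ :=
  if p ∈ P.divisors ×ˢ P.divisors then
    (if kap s i (Nat.lcm (p.2 ^ 2) p.1) θ ∣ P then tm s i (w1 s i) θ p else 0) else 0

lemma ft_le (s : ℤ) (i : Fin 4) (θ : ℚ) (P : ℕ) (p : ℕ × ℕ) :
    ‖ft s i θ P p‖ ≤ ‖tm s i (w1 s i) θ p‖ := by
  unfold ft
  split_ifs
  · exact le_rfl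
  · rw [norm_zero]; exact norm_nonneg _
  · rw [norm_zero]; exact norm_nonneg _

lemma cz_eq (s : ℤ) (P : ℕ) (θ : ℚ) : cz s P θ = ∑ i : Fin 4, ∑' p, ft s i θ P p := by
  unfold cz
  refine Finset.sum_congr rfl fun i _ => ?_
  rw [tsum_eq_sum (s := P.divisors ×ˢ P.divisors)
    (fun p hp => by unfold ft; exact if_neg hp)]
  refine Finset.sum_congr rfl fun p hp => ?_
  unfold ft
  rw [if_pos hp]

end ZC

open ZC in
theorem cz_bound (s : ℤ) (hs : s = 1 ∨ s = -1) (ε : ℝ) (hε : 0 < ε) : ∃ C : ℝ, 0 < C ∧ ∀ (P : ℕ) (θ : ℚ), P ≠ 0 →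
    ‖cz s P θ‖ ≤ C * (θ.den : ℝ) ^ (-1 + ε) := by
  obtain ⟨C, hC, h⟩ := coef_bd s hs (fun _ => 0) ε hε
  refine ⟨4 * C, by positivity, fun P θ _ => ?_⟩
  rw [cz_eq]
  have h1 : ∀ i : Fin 4, ‖∑' p, ft s i θ P p‖ ≤ C * (θ.den : ℝ) ^ (-1 + ε) := by
    intro i
    obtain ⟨h2, h3, h4⟩ := h i θ
    have h5 := tsum_of_norm_bounded h2.hasSum (fun p => ft_le s i θ P p)
    have h6 : 0 ≤ ∑' p, ‖tm s i (w0 s (fun _ => 0) i) θ p‖ := tsum_nonneg fun _ => norm_nonneg _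
    linarith
  refine (norm_sum_le _ _).trans ((Finset.sum_le_sum fun i _ => h1 i).trans (le_of_eq ?_))
  rw [Finset.sum_const, Finset.card_univ, Fintype.card_fin, nsmul_eq_mul]
  push_cast
  ring

open ZC in
theorem cz_tendsto (s : ℤ) (hs : s = 1 ∨ s = -1) (θ : ℚ) :
    Tendsto (fun z => cz s (Pz z) θ) atTop (𝓝 (c1 s θ)) := by
  obtain ⟨C, hC, h⟩ := coef_bd s hs (fun _ => 0) 1 one_pos
  simp only [cz_eq]
  unfold c1
  refine tendsto_finsetSum _ fun i _ => ?_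
  refine tendsto_tsum_of_dominated_convergence (h i θ).1 (fun p => ?_)
    (Eventually.of_forall fun z p => ft_le s i θ (Pz z) p)
  obtain ⟨f, b⟩ := p
  by_cases h0 : tm s i (w1 s i) θ (f, b) = 0
  · have h1 : (fun z => ft s i θ (Pz z) (f, b)) = fun _ => 0 := by
      funext z
      have := ft_le s i θ (Pz z) (f, b)
      rw [h0, norm_zero] at this
      exact norm_le_zero_iff.1 this
    rw [h1, h0]
    exact tendsto_const_nhds
  · obtain ⟨⟨hf1, hf2⟩, ⟨hb1, hb2⟩, hk1, hk2⟩ := tm_ne s hs i _ θ f b h0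
    refine tendsto_const_nhds.congr' ?_
    filter_upwards [eventually_ge_atTop (max (max f b) (kap s i (Nat.lcm (b ^ 2) f) θ))] with z hz
    have hzf : f ≤ z := (le_max_left f b).trans ((le_max_left _ _).trans hz)
    have hzb : b ≤ z := (le_max_right f b).trans ((le_max_left _ _).trans hz)
    have hzk : kap s i (Nat.lcm (b ^ 2) f) θ ≤ z := (le_max_right _ _).trans hz
    unfold ft
    rw [if_pos, if_pos]
    · exact dvd_Pz hk1 hk2 hzk
    · exact mem_product.2 ⟨Nat.mem_divisors.2 ⟨dvd_Pz hf1 hf2 hzf, Pz_ne z⟩,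
        Nat.mem_divisors.2 ⟨dvd_Pz hb1 hb2 hzb, Pz_ne z⟩⟩

end

end Pool.Agent.J4.H39.CM
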