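import Pool.Agent.J4.H39.CM.Tb
import Pool.Agent.J4.H39.CM.Zc
import Pool.Agent.J4.H39.CM.Def4

set_option autoImplicit false
set_option linter.unusedVariables false

/-!
Project CM (helper39), part 4, piece BC: the fourth powers of the coefficients.
-/

namespace Pool.Agent.J4.H39.CM

open Complex Finset Filter Topology
open Pool.Agent.N879.QM
open Pool.Agent.N879.QM.Avg (fam)

noncomputable section

namespace BC

lemma den_pow (C : ℝ) (b : ℕ) : (C * (b : ℝ) ^ (-1 + 1 / 4 : ℝ)) ^ 4 = C ^ 4 * ((b : ℝ) ^ 3)⁻¹ := by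
  rw [mul_pow, ← Real.rpow_natCast ((b : ℝ) ^ (-1 + 1 / 4 : ℝ)) 4, ← Real.rpow_mul (Nat.cast_nonneg b)]
  congr 1
  rw [show (-1 + 1 / 4 : ℝ) * ((4 : ℕ) : ℝ) = -((3 : ℕ) : ℝ) by norm_num,
    Real.rpow_neg (Nat.cast_nonneg b), Real.rpow_natCast]

/-- sums over the frequencies with large denominator -/
lemma tail (C : ℝ) (K W : ℕ) :
    ∑ θ ∈ Fr W, (if K < θ.den then (C * (θ.den : ℝ) ^ (-1 + 1 / 4 : ℝ)) ^ 4 else 0) ≤
      C ^ 4 * (2 / ((K : ℝ) + 1)) := by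
  have h := sum_Fr W (fun b => if K < b then (C * (b : ℝ) ^ (-1 + 1 / 4 : ℝ)) ^ 4 else 0) (fun b => by
    split_ifs
    · positivity
    · exact le_rfl)
  refine h.trans ?_
  calc ∑ b ∈ Icc 1 W, (b : ℝ) * (if K < b then (C * (b : ℝ) ^ (-1 + 1 / 4 : ℝ)) ^ 4 else 0)
      = ∑ b ∈ (Icc 1 W).filter (fun b => K < b), C ^ 4 * ((b : ℝ) ^ 2)⁻¹ := by
        rw [sum_filter]
        refine sum_congr rfl fun b hb => ?_
        have hb0 : (b : ℝ) ≠ 0 := by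
          rw [mem_Icc] at hb
          exact_mod_cast (by omega : b ≠ 0)
        split_ifs
        · rw [den_pow]
          field_simp
        · rw [mul_zero]
    _ ≤ ∑ b ∈ Ioo K (W + 1), C ^ 4 * ((b : ℝ) ^ 2)⁻¹ := by
        refine sum_le_sum_of_subset_of_nonneg ?_ fun b _ _ => by positivity
        intro b hb
        rw [mem_filter, mem_Icc] at hb
        rw [mem_Ioo]
        omega
    _ = C ^ 4 * ∑ b ∈ Ioo K (W + 1), ((b : ℝ) ^ 2)⁻¹ := by rw [Finset.mul_sum]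
    _ ≤ _ := mul_le_mul_of_nonneg_left (sum_Ioo_inv_sq_le K (W + 1)) (by positivity)

lemma Pz_large (K : ℕ) : ∀ᶠ z in atTop, K ≤ 64 * Pz z ^ 3 := by
  obtain ⟨p, hp, hpp⟩ := Nat.exists_infinite_primes (K + 3)
  have hodd : Odd p := hpp.odd_of_ne_two (by omega)
  filter_upwards [eventually_ge_atTop p] with z hz
  have h1 : p ∣ Pz z := ZC.dvd_Pz hodd hpp.squarefree hz
  have h2 : p ≤ Pz z := Nat.le_of_dvd (Nat.pos_of_ne_zero (ZC.Pz_ne z)) h1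
  have h3 : Pz z ≤ Pz z ^ 3 := Nat.le_self_pow (by norm_num) _
  omega

end BC

open BC in
theorem q4 (s : ℤ) (hs : s = 1 ∨ s = -1) (B : Fin 4 → ℝ) : ∃ C : ℝ, 0 < C ∧ ∀ W : ℕ,
    ∑ θ ∈ Fr W, (‖c1 s θ‖ + ‖c0 s B θ‖) ^ 4 ≤ C := by
  obtain ⟨C, hC, h⟩ := c_bd s hs B (1 / 4) (by norm_num)
  refine ⟨C ^ 4 * (2 / (((0 : ℕ) : ℝ) + 1)), by positivity, fun W => ?_⟩
  refine le_trans (sum_le_sum fun θ _ => ?_) (tail C 0 W)
  rw [if_pos θ.den_pos]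
  exact pow_le_pow_left₀ (by positivity) (h θ) 4

open BC in
theorem q4_cz (s : ℤ) (hs : s = 1 ∨ s = -1) (ε : ℝ) (hε : 0 < ε) : ∃ z0 : ℕ, ∀ z W : ℕ, z0 ≤ z → 64 * Pz z ^ 3 ≤ W →
    ∑ θ ∈ Fr W, ‖c1 s θ * (starRingEnd ℂ) (c1 s θ) -
      (if θ ∈ Fr (64 * Pz z ^ 3) then cz s (Pz z) θ * (starRingEnd ℂ) (cz s (Pz z) θ) else 0)‖ ^ 2 ≤ ε := by
  obtain ⟨C1, hC1, h1⟩ := c_bd s hs (fun _ => 0) (1 / 4) (by norm_num)
  obtain ⟨C2, hC2, h2⟩ := cz_bound s hs (1 / 4) (by norm_num)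
  -- the domination
  have hdom : ∀ (z : ℕ) (θ : ℚ), ‖c1 s θ * (starRingEnd ℂ) (c1 s θ) -
      (if θ ∈ Fr (64 * Pz z ^ 3) then cz s (Pz z) θ * (starRingEnd ℂ) (cz s (Pz z) θ) else 0)‖ ^ 2 ≤
      ((C1 + C2) * (θ.den : ℝ) ^ (-1 + 1 / 4 : ℝ)) ^ 4 := by
    intro z θ
    set x : ℝ := (θ.den : ℝ) ^ (-1 + 1 / 4 : ℝ) with hx
    have hx0 : 0 ≤ x := by positivity
    have e1 : ‖c1 s θ * (starRingEnd ℂ) (c1 s θ)‖ ≤ (C1 * x) ^ 2 := by
      rw [norm_mul, RCLike.norm_conj, ← pow_two]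
      refine pow_le_pow_left₀ (norm_nonneg _) (le_trans ?_ (h1 θ)) 2
      linarith [norm_nonneg (c0 s (fun _ => 0) θ)]
    have e2 : ‖(if θ ∈ Fr (64 * Pz z ^ 3) then cz s (Pz z) θ * (starRingEnd ℂ) (cz s (Pz z) θ)
        else 0)‖ ≤ (C2 * x) ^ 2 := by
      split_ifs
      · rw [norm_mul, RCLike.norm_conj, ← pow_two]
        exact pow_le_pow_left₀ (norm_nonneg _) (h2 (Pz z) θ (ZC.Pz_ne z)) 2
      · rw [norm_zero]
        positivity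
    have e3 := norm_sub_le (c1 s θ * (starRingEnd ℂ) (c1 s θ))
      (if θ ∈ Fr (64 * Pz z ^ 3) then cz s (Pz z) θ * (starRingEnd ℂ) (cz s (Pz z) θ) else 0)
    have e4 : ‖c1 s θ * (starRingEnd ℂ) (c1 s θ) -
      (if θ ∈ Fr (64 * Pz z ^ 3) then cz s (Pz z) θ * (starRingEnd ℂ) (cz s (Pz z) θ) else 0)‖ ≤
      ((C1 + C2) * x) ^ 2 := by
      have : 0 ≤ C1 * C2 * x ^ 2 := by positivity
      nlinarith
    calc _ ≤ (((C1 + C2) * x) ^ 2) ^ 2 := pow_le_pow_left₀ (norm_nonneg _) e4 2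
      _ = _ := by ring
  -- the tail
  obtain ⟨K, hK⟩ : ∃ K : ℕ, (C1 + C2) ^ 4 * (2 / ((K : ℝ) + 1)) ≤ ε / 2 := by
    obtain ⟨K, hK⟩ := exists_nat_ge ((C1 + C2) ^ 4 * 4 / ε)
    refine ⟨K, ?_⟩
    rw [div_le_iff₀ hε] at hK
    rw [mul_div_assoc', div_le_iff₀ (by positivity)]
    nlinarith
  -- the pointwise limit
  have hlim : ∀ θ ∈ Fr K, Tendsto (fun z => ‖c1 s θ * (starRingEnd ℂ) (c1 s θ) -
      (if θ ∈ Fr (64 * Pz z ^ 3) then cz s (Pz z) θ * (starRingEnd ℂ) (cz s (Pz z) θ) else 0)‖ ^ 2)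
      atTop (𝓝 0) := by
    intro θ hθ
    have e1 := cz_tendsto s hs θ
    have e2 : Tendsto (fun z => cz s (Pz z) θ * (starRingEnd ℂ) (cz s (Pz z) θ)) atTop
        (𝓝 (c1 s θ * (starRingEnd ℂ) (c1 s θ))) :=
      e1.mul ((Complex.continuous_conj.tendsto _).comp e1)
    have e3 : Tendsto (fun z => if θ ∈ Fr (64 * Pz z ^ 3) then
        cz s (Pz z) θ * (starRingEnd ℂ) (cz s (Pz z) θ) else 0) atTop
        (𝓝 (c1 s θ * (starRingEnd ℂ) (c1 s θ))) := by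
      refine e2.congr' ?_
      filter_upwards [Pz_large K] with z hz
      rw [if_pos]
      rw [mem_Fr] at hθ ⊢
      exact ⟨hθ.1, hθ.2.1, hθ.2.2.trans hz⟩
    have e4 := (tendsto_const_nhds (x := c1 s θ * (starRingEnd ℂ) (c1 s θ))).sub e3
    rw [sub_self] at e4
    have e5 := (e4.norm).pow 2
    simpa using e5
  have hsum := tendsto_finsetSum (Fr K) hlim
  rw [sum_const_zero] at hsum
  obtain ⟨z0, hz0⟩ := eventually_atTop.1 (hsum.eventually (gt_mem_nhds (by linarith : 0 < ε / 2)))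
  refine ⟨z0, fun z W hz hW => ?_⟩
  have hmain := hz0 z hz
  rw [← sum_filter_add_sum_filter_not (Fr W) (fun θ => θ.den ≤ K)]
  have p1 : ∑ θ ∈ (Fr W).filter (fun θ => θ.den ≤ K), ‖c1 s θ * (starRingEnd ℂ) (c1 s θ) -
      (if θ ∈ Fr (64 * Pz z ^ 3) then cz s (Pz z) θ * (starRingEnd ℂ) (cz s (Pz z) θ) else 0)‖ ^ 2 ≤
      ε / 2 := by
    refine le_trans (sum_le_sum_of_subset_of_nonneg ?_ fun θ _ _ => by positivity) hmain.le
    intro θ hθ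
    rw [mem_filter, mem_Fr] at hθ
    rw [mem_Fr]
    exact ⟨hθ.1.1, hθ.1.2.1, hθ.2⟩
  have p2 : ∑ θ ∈ (Fr W).filter (fun θ => ¬ θ.den ≤ K), ‖c1 s θ * (starRingEnd ℂ) (c1 s θ) -
      (if θ ∈ Fr (64 * Pz z ^ 3) then cz s (Pz z) θ * (starRingEnd ℂ) (cz s (Pz z) θ) else 0)‖ ^ 2 ≤
      ε / 2 := by
    rw [sum_filter]
    refine le_trans (sum_le_sum fun θ _ => ?_) ((tail (C1 + C2) K W).trans hK)
    by_cases hd : θ.den ≤ K
    · have h3 : ¬ K < θ.den := by omega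
      rw [if_neg (not_not.2 hd), if_neg h3]
    · have h3 : K < θ.den := by omega
      rw [if_pos hd, if_pos h3]
      exact hdom z θ
  linarith

end

end Pool.Agent.J4.H39.CM
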