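import Pool.Agent.J4.H39.CM.Def3
import Pool.Agent.J4.H39.CM.Four

set_option autoImplicit false

/-!
Project CM (helper39), part 3, piece ZG: the mean value over the solutions of a congruence in terms
of the Fourier coefficients.
-/

namespace Pool.Agent.J4.H39.CM

open Complex Finset
open Pool.Agent.N879.QM
open Pool.Agent.N879.QM.Avg (fam)
open Pool.Agent.H306R2.RZ (js)

noncomputable section

namespace Zg

/-- two frequencies whose difference is an integer agree -/
lemma Fr_inj {D : ℕ} {θ θ' : ℚ} (h : θ ∈ Fr D) (h' : θ' ∈ Fr D)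
    (hz : ∃ z : ℤ, (θ : ℝ) - θ' = z) : θ = θ' := by
  obtain ⟨z, hz⟩ := hz
  have h1 := Four.mem_Fr.1 h
  have h2 := Four.mem_Fr.1 h'
  have hz' : θ - θ' = z := by exact_mod_cast hz
  have h3 : (z : ℚ) < 1 := by rw [← hz']; linarith [h1.2.1, h2.1]
  have h4 : (-1 : ℚ) < z := by rw [← hz']; linarith [h1.1, h2.2.1]
  have h5 : z < 1 := by exact_mod_cast h3
  have h6 : -1 < z := by exact_mod_cast h4
  have h7 : z = 0 := by omega
  rw [h7] at hz'
  have : θ - θ' = 0 := by simpa using hz'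
  linarith

/-- a common denominator -/
lemma common {D : ℕ} {θ : ℚ} (h : θ ∈ Fr D) : ∃ m : ℤ, (θ : ℝ) * (D.factorial : ℕ) = m := by
  have h1 := (Four.mem_Fr.1 h).2.2
  obtain ⟨k, hk⟩ := Nat.dvd_factorial θ.den_pos h1
  refine ⟨θ.num * k, ?_⟩
  have hθ : (θ : ℝ) * θ.den = θ.num := by
    have : (θ : ℚ) * θ.den = θ.num := Rat.mul_den_eq_num θ
    exact_mod_cast this
  rw [hk]
  push_cast
  rw [← mul_assoc, hθ]

/-- uniqueness of the coefficients -/
lemma uniq {D : ℕ} (b : ℚ → ℂ) (h : ∀ q : ℕ, ∑ θ ∈ Fr D, b θ * e ((θ : ℝ) * q) = 0) :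
    ∀ θ ∈ Fr D, b θ = 0 := by
  intro θ₀ h₀
  have hL : (0 : ℕ) < D.factorial := Nat.factorial_pos D
  have hLc : ((D.factorial : ℕ) : ℂ) ≠ 0 := by exact_mod_cast hL.ne'
  have h1 : ∑ q ∈ range D.factorial, (∑ θ ∈ Fr D, b θ * e ((θ : ℝ) * q)) * e (-(θ₀ : ℝ) * q) = 0 := by
    refine sum_eq_zero fun q _ => ?_
    rw [h q, zero_mul]
  have h2 : ∑ q ∈ range D.factorial, (∑ θ ∈ Fr D, b θ * e ((θ : ℝ) * q)) * e (-(θ₀ : ℝ) * q) =
      ∑ θ ∈ Fr D, b θ * ∑ q ∈ range D.factorial, e (((θ : ℝ) - θ₀) * q) := by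
    simp only [Finset.sum_mul, Finset.mul_sum]
    rw [sum_comm]
    refine sum_congr rfl fun θ _ => sum_congr rfl fun q _ => ?_
    rw [mul_assoc, ← e_add]
    congr 2
    ring
  rw [h2, sum_eq_single θ₀] at h1
  · rw [sub_self, Four.full ⟨0, by simp⟩] at h1
    have h3 : Four.dl 0 = 1 := by
      unfold Four.dl
      rw [if_pos ⟨0, by simp⟩]
    rw [h3, mul_one] at h1
    rcases mul_eq_zero.1 h1 with h4 | h4
    · exact h4
    · exact absurd h4 hLc
  · intro θ hθ hne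
    have h3 : ∃ m : ℤ, ((θ : ℝ) - θ₀) * (D.factorial : ℕ) = m := by
      obtain ⟨m, hm⟩ := common hθ
      obtain ⟨m', hm'⟩ := common h₀
      refine ⟨m - m', ?_⟩
      rw [sub_mul, hm, hm']
      push_cast
      ring
    rw [Four.full h3]
    have h4 : Four.dl ((θ : ℝ) - θ₀) = 0 := by
      unfold Four.dl
      rw [if_neg]
      intro hz
      exact hne (Fr_inj hθ h₀ hz)
    rw [h4, mul_zero, mul_zero]
  · intro hne
    exact absurd h₀ hne

/-- only frequencies with denominator dividing the period occur -/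
lemma freq {M D : ℕ} {g : ℕ → ℝ} {gh : ℚ → ℂ} (hper : ∀ q, g (q + M) = g q)
    (hg : ∀ q : ℕ, ((g q : ℝ) : ℂ) = ∑ θ ∈ Fr D, gh θ * e ((θ : ℝ) * q)) :
    ∀ θ ∈ Fr D, gh θ ≠ 0 → ∃ z : ℤ, (θ : ℝ) * M = z := by
  intro θ hθ hne
  have h1 := uniq (D := D) (fun θ => gh θ * (e ((θ : ℝ) * M) - 1)) (by
    intro q
    have h2 : ∑ θ ∈ Fr D, gh θ * (e ((θ : ℝ) * M) - 1) * e ((θ : ℝ) * q) =
        ∑ θ ∈ Fr D, gh θ * e ((θ : ℝ) * (q + M : ℕ)) - ∑ θ ∈ Fr D, gh θ * e ((θ : ℝ) * q) := by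
      rw [← sum_sub_distrib]
      refine sum_congr rfl fun θ _ => ?_
      have h3 : e ((θ : ℝ) * (q + M : ℕ)) = e ((θ : ℝ) * M) * e ((θ : ℝ) * q) := by
        rw [← e_add]
        congr 1
        push_cast
        ring
      rw [h3]
      ring
    rw [h2, ← hg, ← hg, hper, sub_self]) θ hθ
  rcases mul_eq_zero.1 h1 with h2 | h2
  · exact absurd h2 hne
  · exact Four.int_of_e (by linear_combination h2)

/-- the coefficient at `j / M` -/
def gc (D M : ℕ) (gh : ℚ → ℂ) (j : ℕ) : ℂ :=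
  if (j : ℚ) / M ∈ Fr D then gh ((j : ℚ) / M) else 0

lemma four_coef {M D : ℕ} (hM : 1 ≤ M) {g : ℕ → ℝ} {gh : ℚ → ℂ} (hper : ∀ q, g (q + M) = g q)
    (hg : ∀ q : ℕ, ((g q : ℝ) : ℂ) = ∑ θ ∈ Fr D, gh θ * e ((θ : ℝ) * q)) (j : ℕ) (hj : j < M) :
    ∑ a ∈ range M, ((g a : ℝ) : ℂ) * e (-((j : ℝ) / M) * a) = M * gc D M gh j := by
  have hMr : (M : ℝ) ≠ 0 := by exact_mod_cast (by omega : M ≠ 0)
  have hMq : (0 : ℚ) < M := by exact_mod_cast (by omega : 0 < M)
  have h2 : ∑ a ∈ range M, ((g a : ℝ) : ℂ) * e (-((j : ℝ) / M) * a) =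
      ∑ θ ∈ Fr D, gh θ * ∑ a ∈ range M, e (((θ : ℝ) - (j : ℝ) / M) * a) := by
    rw [sum_congr rfl fun a _ => by rw [hg a]]
    simp only [Finset.sum_mul, Finset.mul_sum]
    rw [sum_comm]
    refine sum_congr rfl fun θ _ => sum_congr rfl fun q _ => ?_
    rw [mul_assoc, ← e_add]
    congr 2
    ring
  have h3 : ∀ θ ∈ Fr D, gh θ * ∑ a ∈ range M, e (((θ : ℝ) - (j : ℝ) / M) * a) =
      if θ = (j : ℚ) / M then gh θ * M else 0 := by
    intro θ hθ
    by_cases h0 : gh θ = 0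
    · rw [h0]
      simp
    · obtain ⟨z, hz⟩ := freq hper hg θ hθ h0
      have h4 : ∃ m : ℤ, ((θ : ℝ) - (j : ℝ) / M) * (M : ℕ) = m := by
        refine ⟨z - j, ?_⟩
        rw [sub_mul, hz]
        push_cast
        field_simp
      rw [Four.full h4]
      split_ifs with h5
      · have h6 : Four.dl ((θ : ℝ) - (j : ℝ) / M) = 1 := by
          unfold Four.dl
          rw [if_pos]
          refine ⟨0, ?_⟩
          rw [h5]
          push_cast
          ring
        rw [h6, mul_one]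
      · have h6 : Four.dl ((θ : ℝ) - (j : ℝ) / M) = 0 := by
          unfold Four.dl
          rw [if_neg]
          rintro ⟨m, hm⟩
          apply h5
          have hm' : θ - (j : ℚ) / M = m := by
            have : ((θ - (j : ℚ) / M : ℚ) : ℝ) = ((m : ℚ) : ℝ) := by
              push_cast
              exact hm
            exact_mod_cast this
          have h7 := Four.mem_Fr.1 hθ
          have hj1 : (j : ℚ) / M < 1 := by
            rw [div_lt_one hMq]
            exact_mod_cast hj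
          have hj0 : (0 : ℚ) ≤ (j : ℚ) / M := by positivity
          have h8 : (m : ℚ) < 1 := by rw [← hm']; linarith [h7.2.1]
          have h9 : (-1 : ℚ) < m := by rw [← hm']; linarith [h7.1]
          have h10 : m < 1 := by exact_mod_cast h8
          have h11 : -1 < m := by exact_mod_cast h9
          have h12 : m = 0 := by omega
          rw [h12] at hm'
          have : θ - (j : ℚ) / M = 0 := by simpa using hm'
          linarith
        rw [h6, mul_zero, mul_zero]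
  rw [h2, sum_congr rfl h3, Finset.sum_ite_eq' (Fr D) ((j : ℚ) / M) (fun θ => gh θ * (M : ℂ))]
  unfold gc
  split_ifs with h5
  · ring
  · simp

/-- reindexing of the frequencies -/
lemma reindex {M D : ℕ} (hM : 1 ≤ M) (G : ℚ → ℂ)
    (hG : ∀ θ ∈ Fr D, G θ ≠ 0 → ∃ z : ℤ, (θ : ℝ) * M = z) :
    ∑ j ∈ range M, (if (j : ℚ) / M ∈ Fr D then G ((j : ℚ) / M) else 0) = ∑ θ ∈ Fr D, G θ := by
  have hMq : (0 : ℚ) < M := by exact_mod_cast (by omega : 0 < M)
  have h0 : ∀ θ : ℚ, (∀ j ∈ range M, (j : ℚ) / M ≠ θ) → θ ∈ Fr D → G θ = 0 := by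
    intro θ h hθ
    by_contra hne
    obtain ⟨z, hz⟩ := hG θ hθ hne
    have h7 := Four.mem_Fr.1 hθ
    have hz' : θ * M = z := by
      have : ((θ * M : ℚ) : ℝ) = ((z : ℚ) : ℝ) := by
        push_cast
        exact hz
      exact_mod_cast this
    have hz0 : 0 ≤ z := by
      have : (0 : ℚ) ≤ z := by
        rw [← hz']
        exact mul_nonneg h7.1 hMq.le
      exact_mod_cast this
    have hz1 : z < M := by
      have : (z : ℚ) < M := by
        rw [← hz']
        calc θ * M < 1 * M := mul_lt_mul_of_pos_right h7.2.1 hMq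
          _ = M := one_mul _
      exact_mod_cast this
    apply h z.toNat (mem_range.2 (by omega))
    have h5 : ((z.toNat : ℕ) : ℚ) = z := by
      have : ((z.toNat : ℕ) : ℤ) = z := Int.toNat_of_nonneg hz0
      exact_mod_cast this
    rw [h5, ← hz']
    field_simp
  have h1 : ∑ j ∈ range M, (if (j : ℚ) / M ∈ Fr D then G ((j : ℚ) / M) else 0) =
      ∑ θ ∈ (range M).image (fun j : ℕ => (j : ℚ) / M), if θ ∈ Fr D then G θ else 0 := by
    rw [sum_image]
    intro a _ b _ h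
    simp only at h
    have := (div_left_inj' hMq.ne').1 h
    exact_mod_cast this
  rw [h1, ← sum_filter, filter_mem_eq_inter]
  refine sum_subset inter_subset_right ?_
  intro θ hθ hθ'
  refine h0 θ ?_ hθ
  intro j hj hjθ
  exact hθ' (mem_inter.2 ⟨mem_image.2 ⟨j, hj, hjθ⟩, hθ⟩)

/-- detection of a congruence -/
lemma cong {M : ℕ} (hM : 1 ≤ M) (m n : ℕ) :
    ∑ j ∈ range M, e ((((n : ℝ) - m) / M) * j) = if m % M = n % M then (M : ℂ) else 0 := by
  have hMr : (M : ℝ) ≠ 0 := by exact_mod_cast (by omega : M ≠ 0)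
  rw [Four.full ⟨(n : ℤ) - m, by push_cast; field_simp⟩]
  unfold Four.dl
  have h1 : (∃ z : ℤ, ((n : ℝ) - m) / M = z) ↔ m % M = n % M := by
    constructor
    · rintro ⟨z, hz⟩
      rw [div_eq_iff hMr] at hz
      have h2 : (n : ℤ) - m = z * M := by exact_mod_cast hz
      exact (Nat.modEq_iff_dvd.2 ⟨z, by rw [h2]; ring⟩ : m ≡ n [MOD M])
    · intro h
      obtain ⟨z, hz⟩ := Nat.modEq_iff_dvd.1 (h : m ≡ n [MOD M])
      refine ⟨z, ?_⟩
      rw [div_eq_iff hMr]
      have h2 : (n : ℤ) - m = z * M := by rw [hz]; ring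
      exact_mod_cast h2
  by_cases h : m % M = n % M
  · rw [if_pos h, if_pos (h1.2 h), mul_one]
  · rw [if_neg h, if_neg (fun h' => h (h1.1 h')), mul_zero]

end Zg

open Zg in
theorem sg_fourier (t M D N : ℕ) (ht : 1 ≤ t) (hM : 1 ≤ M) (g : ℕ → ℝ) (gh : ℚ → ℂ) (hper : ∀ q, g (q + M) = g q)
    (hg : ∀ q : ℕ, ((g q : ℝ) : ℂ) = ∑ θ ∈ Fr D, gh θ * e ((θ : ℝ) * q)) :
    ((SG t M g N : ℝ) : ℂ) = ∑ θ ∈ Fr D, gh θ ^ t * e ((θ : ℝ) * N) := by
  have hMc : (M : ℂ) ≠ 0 := by exact_mod_cast (by omega : M ≠ 0)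
  have ht0 : t ≠ 0 := by omega
  -- the right side as a sum over `j < M`
  have hR : ∑ θ ∈ Fr D, gh θ ^ t * e ((θ : ℝ) * N) =
      ∑ j ∈ range M, gc D M gh j ^ t * e (((j : ℝ) / M) * N) := by
    rw [← reindex hM (fun θ : ℚ => gh θ ^ t * e ((θ : ℝ) * N)) (by
      intro θ hθ hne
      refine freq hper hg θ hθ ?_
      intro h0
      apply hne
      rw [h0, zero_pow ht0, zero_mul])]
    refine sum_congr rfl fun j _ => ?_
    unfold gc
    split_ifs with h
    · push_cast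
      rfl
    · rw [zero_pow ht0, zero_mul]
  -- the left side
  have hL : ((∑ a ∈ Fintype.piFinset (fun _ : Fin t => range M),
      if (∑ i, a i) % M = N % M then ∏ i, g (a i) else 0 : ℝ) : ℂ) * M =
      ∑ j ∈ range M, ((M : ℂ) * gc D M gh j) ^ t * e (((j : ℝ) / M) * N) := by
    have h1 : ∀ j ∈ range M, ((M : ℂ) * gc D M gh j) ^ t * e (((j : ℝ) / M) * N) =
        ∑ a ∈ Fintype.piFinset (fun _ : Fin t => range M),
          ((∏ i, g (a i) : ℝ) : ℂ) * e ((((N : ℝ) - (∑ i, a i : ℕ)) / M) * j) := by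
      intro j hj
      rw [← four_coef hM hper hg j (mem_range.1 hj)]
      have h2 : (∑ a ∈ range M, ((g a : ℝ) : ℂ) * e (-((j : ℝ) / M) * a)) ^ t =
          ∏ _i : Fin t, ∑ a ∈ range M, ((g a : ℝ) : ℂ) * e (-((j : ℝ) / M) * a) := by
        rw [prod_const, card_univ, Fintype.card_fin]
      rw [h2, Finset.prod_univ_sum, Finset.sum_mul]
      refine sum_congr rfl fun a _ => ?_
      rw [prod_mul_distrib, mul_assoc]
      have h3 : ∀ (s : Finset (Fin t)), ∏ i ∈ s, e (-((j : ℝ) / M) * (a i)) =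
          e (-((j : ℝ) / M) * (∑ i ∈ s, a i : ℕ)) := by
        intro s
        induction s using Finset.induction_on with
        | empty => simp [e]
        | insert i s hi ih =>
          rw [prod_insert hi, sum_insert hi, ih, ← e_add]
          congr 1
          push_cast
          ring
      rw [h3, ← e_add]
      congr 1
      · push_cast
        rfl
      · congr 1
        ring
    rw [sum_congr rfl h1, sum_comm]
    push_cast
    rw [Finset.sum_mul]
    refine sum_congr rfl fun a _ => ?_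
    rw [← Finset.mul_sum]
    have h4 := cong hM (∑ i, a i) N
    push_cast at h4
    rw [h4]
    split_ifs <;> simp
  unfold SG
  have hpow : (M : ℂ) ^ t = (M : ℂ) ^ (t - 1) * M := by
    rw [← pow_succ]
    congr 1
    omega
  rw [hR]
  rw [Complex.ofReal_div]
  rw [div_eq_iff (by push_cast; exact pow_ne_zero _ hMc)]
  have h5 : ∑ j ∈ range M, ((M : ℂ) * gc D M gh j) ^ t * e (((j : ℝ) / M) * N) =
      (∑ j ∈ range M, gc D M gh j ^ t * e (((j : ℝ) / M) * N)) * (M : ℂ) ^ t := by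
    rw [Finset.sum_mul]
    refine sum_congr rfl fun j _ => ?_
    rw [mul_pow]
    ring
  rw [h5, hpow, ← mul_assoc] at hL
  have h6 := mul_right_cancel₀ hMc hL
  rw [h6]
  push_cast
  rfl

end

end Pool.Agent.J4.H39.CM
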