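import Pool.Agent.J4.H39.CM.Def4
import Pool.Agent.J4.H39.CM.Zg

set_option autoImplicit false

/-!
Project CM (helper39), part 4, piece BD: the correlations in terms of the Fourier coefficients.
-/

namespace Pool.Agent.J4.H39.CM

open Complex Finset
open Pool.Agent.N879.QM
open Pool.Agent.N879.QM.Avg (fam)

noncomputable section

namespace Bd

lemma conj_e (x : ℝ) : (starRingEnd ℂ) (e x) = e (-x) := by
  unfold e
  rw [← Complex.exp_conj]
  congr 1
  simp only [map_mul, Complex.conj_I, Complex.conj_ofReal, map_ofNat]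
  push_cast
  ring

end Bd

open Bd in
theorem cg_fourier (M D h : ℕ) (hM : 1 ≤ M) (g : ℕ → ℝ) (gh : ℚ → ℂ) (hper : ∀ q, g (q + M) = g q)
    (hg : ∀ q : ℕ, ((g q : ℝ) : ℂ) = ∑ θ ∈ Fr D, gh θ * e ((θ : ℝ) * q)) :
    ((CG M g h : ℝ) : ℂ) = ∑ θ ∈ Fr D, gh θ * (starRingEnd ℂ) (gh θ) * e (-((θ : ℝ) * h)) := by
  have hMc : (M : ℂ) ≠ 0 := by exact_mod_cast (by omega : M ≠ 0)
  have hconj : ∀ q : ℕ, ((g q : ℝ) : ℂ) =
      ∑ θ ∈ Fr D, (starRingEnd ℂ) (gh θ) * e (-((θ : ℝ) * q)) := by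
    intro q
    rw [← Complex.conj_ofReal, hg q, map_sum]
    refine sum_congr rfl fun θ _ => ?_
    rw [map_mul, conj_e]
  have h1 : ∀ a : ℕ, ((g a * g (a + h) : ℝ) : ℂ) = ∑ θ ∈ Fr D, ∑ θ' ∈ Fr D,
      gh θ * (starRingEnd ℂ) (gh θ') * e (-((θ' : ℝ) * h)) * e (((θ : ℝ) - θ') * a) := by
    intro a
    rw [Complex.ofReal_mul, hg a, hconj (a + h), Finset.sum_mul_sum]
    refine sum_congr rfl fun θ _ => sum_congr rfl fun θ' _ => ?_
    have h2 : e ((θ : ℝ) * a) * e (-((θ' : ℝ) * ((a + h : ℕ) : ℝ))) =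
        e (-((θ' : ℝ) * h)) * e (((θ : ℝ) - θ') * a) := by
      rw [← e_add, ← e_add]
      congr 1
      push_cast
      ring
    linear_combination (gh θ * (starRingEnd ℂ) (gh θ')) * h2
  have h3 : ∀ θ ∈ Fr D, ∀ θ' ∈ Fr D,
      gh θ * (starRingEnd ℂ) (gh θ') * e (-((θ' : ℝ) * h)) *
        (∑ a ∈ range M, e (((θ : ℝ) - θ') * a)) =
      if θ = θ' then gh θ * (starRingEnd ℂ) (gh θ) * e (-((θ : ℝ) * h)) * M else 0 := by
    intro θ hθ θ' hθ'
    by_cases h0 : gh θ = 0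
    · rw [h0]
      simp
    by_cases h0' : gh θ' = 0
    · rw [h0']
      split_ifs with h4
      · rw [h4, h0']
        simp
      · simp
    obtain ⟨z, hz⟩ := Zg.freq hper hg θ hθ h0
    obtain ⟨z', hz'⟩ := Zg.freq hper hg θ' hθ' h0'
    have h4 : ∃ m : ℤ, ((θ : ℝ) - θ') * (M : ℕ) = m := by
      refine ⟨z - z', ?_⟩
      rw [sub_mul, hz, hz']
      push_cast
      ring
    rw [Four.full h4]
    split_ifs with h5
    · rw [← h5]
      have h6 : Four.dl ((θ : ℝ) - θ) = 1 := by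
        unfold Four.dl
        rw [if_pos ⟨0, by simp⟩]
      rw [h6, mul_one]
    · have h6 : Four.dl ((θ : ℝ) - θ') = 0 := by
        unfold Four.dl
        rw [if_neg]
        intro hzz
        exact h5 (Zg.Fr_inj hθ hθ' hzz)
      rw [h6, mul_zero, mul_zero]
  have h4 : ((∑ a ∈ range M, g a * g (a + h) : ℝ) : ℂ) =
      (∑ θ ∈ Fr D, gh θ * (starRingEnd ℂ) (gh θ) * e (-((θ : ℝ) * h))) * M := by
    rw [Complex.ofReal_sum, sum_congr rfl fun a _ => h1 a, sum_comm, Finset.sum_mul]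
    refine sum_congr rfl fun θ hθ => ?_
    rw [sum_comm]
    have h5 : ∀ θ' ∈ Fr D, ∑ a ∈ range M,
        gh θ * (starRingEnd ℂ) (gh θ') * e (-((θ' : ℝ) * h)) * e (((θ : ℝ) - θ') * a) =
        if θ = θ' then gh θ * (starRingEnd ℂ) (gh θ) * e (-((θ : ℝ) * h)) * M else 0 := by
      intro θ' hθ'
      rw [← Finset.mul_sum]
      exact h3 θ hθ θ' hθ'
    rw [sum_congr rfl h5, Finset.sum_ite_eq, if_pos hθ]
  unfold CG
  rw [Complex.ofReal_div, h4, Complex.ofReal_natCast, mul_div_assoc, div_self hMc, mul_one]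

end

end Pool.Agent.J4.H39.CM
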