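import Pool.Agent.J4.H39.CM.Def3

set_option autoImplicit false

/-!
Project CM, third part, piece ZR: the singular series modulo `64 P²` is a product of local densities
(Chinese remainder theorem).
-/

namespace Pool.Agent.J4.H39.CM

open Complex Finset Filter Topology
open Pool.Agent.N879.QM
open Pool.Agent.N879.QM.Avg (fam)
open Pool.Agent.H306R2.RZ (js)

noncomputable section

namespace ZR

/-- the Chinese remainder theorem for `SG` -/
lemma sg_mul (t M₁ M₂ N : ℕ) (h1 : 1 ≤ M₁) (h2 : 1 ≤ M₂) (hco : Nat.Coprime M₁ M₂) (g₁ g₂ : ℕ → ℝ)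
    (hg₁ : ∀ q, g₁ (q + M₁) = g₁ q) (hg₂ : ∀ q, g₂ (q + M₂) = g₂ q) :
    SG t (M₁ * M₂) (fun q => g₁ q * g₂ q) N = SG t M₁ g₁ N * SG t M₂ g₂ N := by
  classical
  have p1 : ∀ n, g₁ (n % M₁) = g₁ n := Function.Periodic.map_mod_nat hg₁
  have p2 : ∀ n, g₂ (n % M₂) = g₂ n := Function.Periodic.map_mod_nat hg₂
  unfold SG
  rw [div_mul_div_comm]
  congr 1
  · rw [Finset.sum_mul_sum, ← Finset.sum_product']
    refine Finset.sum_nbij' (fun a => (fun i => a i % M₁, fun i => a i % M₂))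
      (fun z => fun i => (Nat.chineseRemainder hco (z.1 i) (z.2 i) : ℕ)) ?_ ?_ ?_ ?_ ?_
    · intro a _
      simp only [Finset.mem_product, Fintype.mem_piFinset, Finset.mem_range]
      exact ⟨fun i => Nat.mod_lt _ h1, fun i => Nat.mod_lt _ h2⟩
    · intro z _
      simp only [Fintype.mem_piFinset, Finset.mem_range]
      exact fun i => Nat.chineseRemainder_lt_mul hco _ _ (by omega) (by omega)
    · intro a ha
      simp only [Fintype.mem_piFinset, Finset.mem_range] at ha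
      funext i
      have k := (Nat.chineseRemainder hco (a i % M₁) (a i % M₂)).2
      have k1 : (Nat.chineseRemainder hco (a i % M₁) (a i % M₂) : ℕ) ≡ a i [MOD M₁] :=
        k.1.trans (Nat.mod_modEq _ _)
      have k2 : (Nat.chineseRemainder hco (a i % M₁) (a i % M₂) : ℕ) ≡ a i [MOD M₂] :=
        k.2.trans (Nat.mod_modEq _ _)
      have k3 := (Nat.modEq_and_modEq_iff_modEq_mul hco).1 ⟨k1, k2⟩
      exact Nat.ModEq.eq_of_lt_of_lt k3
        (Nat.chineseRemainder_lt_mul hco _ _ (by omega) (by omega)) (ha i)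
    · intro z hz
      simp only [Finset.mem_product, Fintype.mem_piFinset, Finset.mem_range] at hz
      refine Prod.ext ?_ ?_
      · funext i
        have k := (Nat.chineseRemainder hco (z.1 i) (z.2 i)).2.1
        exact Eq.trans k (Nat.mod_eq_of_lt (hz.1 i))
      · funext i
        have k := (Nat.chineseRemainder hco (z.1 i) (z.2 i)).2.2
        exact Eq.trans k (Nat.mod_eq_of_lt (hz.2 i))
    · intro a _
      have e0 : ((∑ i, a i) % (M₁ * M₂) = N % (M₁ * M₂)) ↔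
          ((∑ i, a i % M₁) % M₁ = N % M₁ ∧ (∑ i, a i % M₂) % M₂ = N % M₂) := by
        rw [← Finset.sum_nat_mod, ← Finset.sum_nat_mod]
        exact (Nat.modEq_and_modEq_iff_modEq_mul hco).symm
      simp only [p1, p2]
      by_cases c1 : (∑ i, a i % M₁) % M₁ = N % M₁
      · by_cases c2 : (∑ i, a i % M₂) % M₂ = N % M₂
        · rw [if_pos (e0.2 ⟨c1, c2⟩), if_pos c1, if_pos c2, Finset.prod_mul_distrib]
        · rw [if_neg (fun h => c2 (e0.1 h).2), if_neg c2, mul_zero]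
      · rw [if_neg (fun h => c1 (e0.1 h).1), if_neg c1, zero_mul]
  · push_cast
    rw [mul_pow]

lemma fam_r (s : ℤ) (i : Fin 4) : 1 ≤ (fam s i).r ∧ (fam s i).r ∣ 8 := by
  rcases Pool.Agent.N879.QM.Avg.fam_mem s i with h | h | h | h <;> rw [h]
  · exact ⟨by show 1 ≤ 8; norm_num, by show 8 ∣ 8; norm_num⟩
  · exact ⟨by show 1 ≤ 4; norm_num, by show 4 ∣ 8; norm_num⟩
  · exact ⟨by show 1 ≤ 1; norm_num, by show 1 ∣ 8; norm_num⟩
  · exact ⟨by show 1 ≤ 1; norm_num, by show 1 ∣ 8; norm_num⟩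

end ZR

open ZR

theorem A2_per (s : ℤ) (q : ℕ) : A2 s (q + 64) = A2 s q := by
  unfold A2
  refine Finset.sum_congr rfl fun i _ => ?_
  obtain ⟨h1, m, hm⟩ := fam_r s i
  have hd : (fam s i).r ∣ 64 := ⟨m * 8, by rw [← mul_assoc, ← hm]; norm_num⟩
  have e1 : (fam s i).r ∣ q + 64 ↔ (fam s i).r ∣ q := Nat.dvd_add_left hd
  have e2 : (q + 64) / (fam s i).r = q / (fam s i).r + m * 8 := by
    rw [Nat.add_div_of_dvd_left hd]
    congr 1
    exact Nat.div_eq_of_eq_mul_right h1 (by rw [← mul_assoc, ← hm]; norm_num)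
  simp only [e1, e2, Nat.add_mul_mod_self_right]

theorem Fp_per (s : ℤ) (p q : ℕ) (_hp : p.Prime) : Fp s p (q + p ^ 2) = Fp s p q := by
  unfold Fp
  have e1 : p ^ 2 ∣ q + p ^ 2 ↔ p ^ 2 ∣ q := Nat.dvd_add_left (dvd_refl _)
  have e2 : p ∣ q + p ^ 2 ↔ p ∣ q := Nat.dvd_add_left (dvd_pow_self p two_ne_zero)
  have e3 : js (s * ((q + p ^ 2 : ℕ) : ℤ)) p = js (s * (q : ℤ)) p := by
    unfold js
    congr 1
    rw [jacobiSym.mod_left (s * ((q + p ^ 2 : ℕ) : ℤ)), jacobiSym.mod_left (s * (q : ℤ))]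
    congr 1
    push_cast
    rw [show s * ((q : ℤ) + (p : ℤ) ^ 2) = s * (q : ℤ) + (p : ℤ) * (s * p) by ring,
      Int.add_mul_emod_self_left]
  rw [e3]
  simp only [e1, e2]

namespace ZR

lemma prod_per (s : ℤ) (T : Finset ℕ) (hT : ∀ p ∈ T, p.Prime) (q : ℕ) :
    (∏ p ∈ T, Fp s p (q + 64 * (∏ p ∈ T, p) ^ 2)) = ∏ p ∈ T, Fp s p q := by
  refine Finset.prod_congr rfl fun p hp => ?_
  have h1 : Function.Periodic (Fp s p) (p ^ 2) := fun q => Fp_per s p q (hT p hp)
  obtain ⟨m, hm⟩ : p ^ 2 ∣ 64 * (∏ p ∈ T, p) ^ 2 :=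
    dvd_mul_of_dvd_right (pow_dvd_pow_of_dvd (Finset.dvd_prod_of_mem _ hp) 2) _
  have h2 := h1.nat_mul m q
  rw [hm, mul_comm (p ^ 2) m]
  exact h2

lemma crt_ind (s : ℤ) (t N : ℕ) (T : Finset ℕ) (hT : ∀ p ∈ T, p.Prime ∧ p ≠ 2) :
    SG t (64 * (∏ p ∈ T, p) ^ 2) (fun q => A2 s q * ∏ p ∈ T, Fp s p q) N =
      SG t 64 (A2 s) N * ∏ p ∈ T, SG t (p ^ 2) (Fp s p) N := by
  classical
  induction T using Finset.induction_on with
  | empty => simp
  | @insert p T hpT ih =>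
    have hp := hT p (Finset.mem_insert_self _ _)
    have hT' : ∀ p ∈ T, p.Prime ∧ p ≠ 2 := fun r hr => hT r (Finset.mem_insert_of_mem hr)
    have ih := ih hT'
    rw [Finset.prod_insert hpT, Finset.prod_insert hpT]
    have e1 : 64 * (p * ∏ p ∈ T, p) ^ 2 = (64 * (∏ p ∈ T, p) ^ 2) * p ^ 2 := by ring
    have e2 : (fun q => A2 s q * ∏ p ∈ insert p T, Fp s p q) =
        fun q => (A2 s q * ∏ p ∈ T, Fp s p q) * Fp s p q := by
      funext q
      rw [Finset.prod_insert hpT]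
      ring
    have hpos : 1 ≤ 64 * (∏ p ∈ T, p) ^ 2 := by
      have : 0 < ∏ p ∈ T, p := Finset.prod_pos fun r hr => (hT' r hr).1.pos
      have : 0 < 64 * (∏ p ∈ T, p) ^ 2 := by positivity
      omega
    have hpp : 1 ≤ p ^ 2 := Nat.one_le_pow _ _ hp.1.pos
    have hco : Nat.Coprime (64 * (∏ p ∈ T, p) ^ 2) (p ^ 2) := by
      refine Nat.Coprime.pow_right 2 ?_
      refine Nat.Coprime.mul_left ?_ ?_
      · have : Nat.Coprime 2 p := (Nat.coprime_primes Nat.prime_two hp.1).2 (Ne.symm hp.2)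
        have h64 : (64 : ℕ) = 2 ^ 6 := by norm_num
        rw [h64]
        exact Nat.Coprime.pow_left 6 this
      · refine Nat.Coprime.pow_left 2 ?_
        refine Nat.Coprime.prod_left fun r hr => ?_
        refine (Nat.coprime_primes (hT' r hr).1 hp.1).2 ?_
        rintro rfl
        exact hpT hr
    have hper1 : ∀ q, (fun q => A2 s q * ∏ p ∈ T, Fp s p q) (q + 64 * (∏ p ∈ T, p) ^ 2) =
        (fun q => A2 s q * ∏ p ∈ T, Fp s p q) q := by
      intro q
      simp only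
      rw [prod_per s T (fun r hr => (hT' r hr).1) q]
      congr 1
      have h1 : Function.Periodic (A2 s) 64 := A2_per s
      have h2 := h1.nat_mul ((∏ p ∈ T, p) ^ 2) q
      rw [mul_comm 64 ((∏ p ∈ T, p) ^ 2)]
      exact h2
    rw [e1, e2, sg_mul t _ _ N hpos hpp hco (fun q => A2 s q * ∏ p ∈ T, Fp s p q) (Fp s p) hper1
      (fun q => Fp_per s p q hp.1), ih]
    ring

end ZR

theorem sg_crt (s : ℤ) (t P N : ℕ) (_ht : 1 ≤ t) (hP : Odd P) (hsq : Squarefree P) :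
    SG t (64 * P ^ 2) (Ph s P) N = SG t 64 (A2 s) N * ∏ p ∈ P.primeFactors, SG t (p ^ 2) (Fp s p) N := by
  have h := crt_ind s t N P.primeFactors (fun p hp => ⟨Nat.prime_of_mem_primeFactors hp, by
    rintro rfl
    have := Nat.dvd_of_mem_primeFactors hp
    rw [← even_iff_two_dvd] at this
    exact (Nat.not_even_iff_odd.2 hP) this⟩)
  rw [Nat.prod_primeFactors_of_squarefree hsq] at h
  exact h

end

end Pool.Agent.J4.H39.CM
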