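import Pool.Agent.J4.H39.CM.Def4
import Pool.Agent.J4.H39.CM.Zr

set_option autoImplicit false

/-!
Project CM, fourth part, piece BE: the correlations modulo `64 P²` are products of local correlations
(Chinese remainder theorem).
-/

namespace Pool.Agent.J4.H39.CM

open Complex Finset Filter Topology
open Pool.Agent.N879.QM
open Pool.Agent.N879.QM.Avg (fam)

noncomputable section

namespace BE

/-- the Chinese remainder theorem for mean values of periodic functions -/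
lemma mean_mul (M₁ M₂ : ℕ) (h1 : 1 ≤ M₁) (h2 : 1 ≤ M₂) (hco : Nat.Coprime M₁ M₂) (g₁ g₂ : ℕ → ℝ)
    (p1 : ∀ n, g₁ (n % M₁) = g₁ n) (p2 : ∀ n, g₂ (n % M₂) = g₂ n) :
    ∑ a ∈ range (M₁ * M₂), g₁ a * g₂ a = (∑ a ∈ range M₁, g₁ a) * ∑ a ∈ range M₂, g₂ a := by
  rw [Finset.sum_mul_sum, ← Finset.sum_product']
  refine Finset.sum_nbij' (fun a => (a % M₁, a % M₂))
    (fun z => (Nat.chineseRemainder hco z.1 z.2 : ℕ)) ?_ ?_ ?_ ?_ ?_
  · intro a _
    simp only [Finset.mem_product, Finset.mem_range]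
    exact ⟨Nat.mod_lt _ h1, Nat.mod_lt _ h2⟩
  · intro z _
    simp only [Finset.mem_range]
    exact Nat.chineseRemainder_lt_mul hco _ _ (by omega) (by omega)
  · intro a ha
    simp only [Finset.mem_range] at ha
    have k := (Nat.chineseRemainder hco (a % M₁) (a % M₂)).2
    have k1 : (Nat.chineseRemainder hco (a % M₁) (a % M₂) : ℕ) ≡ a [MOD M₁] :=
      k.1.trans (Nat.mod_modEq _ _)
    have k2 : (Nat.chineseRemainder hco (a % M₁) (a % M₂) : ℕ) ≡ a [MOD M₂] :=
      k.2.trans (Nat.mod_modEq _ _)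
    have k3 := (Nat.modEq_and_modEq_iff_modEq_mul hco).1 ⟨k1, k2⟩
    exact Nat.ModEq.eq_of_lt_of_lt k3
      (Nat.chineseRemainder_lt_mul hco _ _ (by omega) (by omega)) ha
  · intro z hz
    simp only [Finset.mem_product, Finset.mem_range] at hz
    refine Prod.ext ?_ ?_
    · have k := (Nat.chineseRemainder hco z.1 z.2).2.1
      exact Eq.trans k (Nat.mod_eq_of_lt hz.1)
    · have k := (Nat.chineseRemainder hco z.1 z.2).2.2
      exact Eq.trans k (Nat.mod_eq_of_lt hz.2)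
  · intro a _
    simp only [p1, p2]

/-- the Chinese remainder theorem for `CG` -/
lemma cg_mul (M₁ M₂ h : ℕ) (h1 : 1 ≤ M₁) (h2 : 1 ≤ M₂) (hco : Nat.Coprime M₁ M₂) (g₁ g₂ : ℕ → ℝ)
    (hg₁ : ∀ q, g₁ (q + M₁) = g₁ q) (hg₂ : ∀ q, g₂ (q + M₂) = g₂ q) :
    CG (M₁ * M₂) (fun q => g₁ q * g₂ q) h = CG M₁ g₁ h * CG M₂ g₂ h := by
  have q1 : ∀ n, (fun a => g₁ a * g₁ (a + h)) (n % M₁) = (fun a => g₁ a * g₁ (a + h)) n := by
    refine Function.Periodic.map_mod_nat (f := fun a => g₁ a * g₁ (a + h)) fun q => ?_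
    simp only
    rw [hg₁, show q + M₁ + h = q + h + M₁ by ring, hg₁]
  have q2 : ∀ n, (fun a => g₂ a * g₂ (a + h)) (n % M₂) = (fun a => g₂ a * g₂ (a + h)) n := by
    refine Function.Periodic.map_mod_nat (f := fun a => g₂ a * g₂ (a + h)) fun q => ?_
    simp only
    rw [hg₂, show q + M₂ + h = q + h + M₂ by ring, hg₂]
  have e := mean_mul M₁ M₂ h1 h2 hco (fun a => g₁ a * g₁ (a + h)) (fun a => g₂ a * g₂ (a + h)) q1 q2
  unfold CG
  rw [div_mul_div_comm, ← e]
  congr 1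
  · exact Finset.sum_congr rfl fun a _ => by ring
  · push_cast
    ring

lemma crt_ind (s : ℤ) (h : ℕ) (T : Finset ℕ) (hT : ∀ p ∈ T, p.Prime ∧ p ≠ 2) :
    CG (64 * (∏ p ∈ T, p) ^ 2) (fun q => A2 s q * ∏ p ∈ T, Fp s p q) h =
      CG 64 (A2 s) h * ∏ p ∈ T, CG (p ^ 2) (Fp s p) h := by
  classical
  induction T using Finset.induction_on with
  | empty => simp
  | @insert p T hpT ih =>
    have hp := hT p (Finset.mem_insert_self _ _)
    have hT' : ∀ p ∈ T, p.Prime ∧ p ≠ 2 := fun r hr => hT r (Finset.mem_insert_of_mem hr)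
    have ih := ih hT'
    rw [Finset.prod_insert hpT, Finset.prod_insert hpT]
    have e1 : 64 * (p * ∏ p ∈ T, p) ^ 2 = (64 * (∏ p ∈ T, p) ^ 2) * p ^ 2 := by ring
    have e2 : (fun q => A2 s q * ∏ p ∈ insert p T, Fp s p q) =
        fun q => (A2 s q * ∏ p ∈ T, Fp s p q) * Fp s p q := by
      funext q
      rw [Finset.prod_insert hpT]
      ring
    have hpos : 1 ≤ 64 * (∏ p ∈ T, p) ^ 2 := by
      have : 0 < ∏ p ∈ T, p := Finset.prod_pos fun r hr => (hT' r hr).1.pos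
      have : 0 < 64 * (∏ p ∈ T, p) ^ 2 := by positivity
      omega
    have hpp : 1 ≤ p ^ 2 := Nat.one_le_pow _ _ hp.1.pos
    have hco : Nat.Coprime (64 * (∏ p ∈ T, p) ^ 2) (p ^ 2) := by
      refine Nat.Coprime.pow_right 2 ?_
      refine Nat.Coprime.mul_left ?_ ?_
      · have : Nat.Coprime 2 p := (Nat.coprime_primes Nat.prime_two hp.1).2 (Ne.symm hp.2)
        have h64 : (64 : ℕ) = 2 ^ 6 := by norm_num
        rw [h64]
        exact Nat.Coprime.pow_left 6 this
      · refine Nat.Coprime.pow_left 2 ?_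
        refine Nat.Coprime.prod_left fun r hr => ?_
        refine (Nat.coprime_primes (hT' r hr).1 hp.1).2 ?_
        rintro rfl
        exact hpT hr
    have hper1 : ∀ q, (fun q => A2 s q * ∏ p ∈ T, Fp s p q) (q + 64 * (∏ p ∈ T, p) ^ 2) =
        (fun q => A2 s q * ∏ p ∈ T, Fp s p q) q := by
      intro q
      simp only
      rw [ZR.prod_per s T (fun r hr => (hT' r hr).1) q]
      congr 1
      have h1 : Function.Periodic (A2 s) 64 := A2_per s
      have h2 := h1.nat_mul ((∏ p ∈ T, p) ^ 2) q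
      rw [mul_comm 64 ((∏ p ∈ T, p) ^ 2)]
      exact h2
    rw [e1, e2, cg_mul _ _ h hpos hpp hco (fun q => A2 s q * ∏ p ∈ T, Fp s p q) (Fp s p) hper1
      (fun q => Fp_per s p q hp.1), ih]
    ring

end BE

open BE

theorem cg_crt (s : ℤ) (P h : ℕ) (hP : Odd P) (hsq : Squarefree P) :
    CG (64 * P ^ 2) (Ph s P) h = CG 64 (A2 s) h * ∏ p ∈ P.primeFactors, CG (p ^ 2) (Fp s p) h := by
  have e := crt_ind s h P.primeFactors (fun p hp => ⟨Nat.prime_of_mem_primeFactors hp, by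
    rintro rfl
    have := Nat.dvd_of_mem_primeFactors hp
    rw [← even_iff_two_dvd] at this
    exact (Nat.not_even_iff_odd.2 hP) this⟩)
  rw [Nat.prod_primeFactors_of_squarefree hsq] at e
  exact e

end

end Pool.Agent.J4.H39.CM
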