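import Pool.Agent.J4.H39.CM.Def
import Mathlib

set_option autoImplicit false

/-!
Project CM, piece BEAT (helper97): the sums of `f q` over the `q ≤ N` with `γ q + β` in an interval
modulo one, for an `f` which does not correlate with the characters `e(h γ q)`.
-/

namespace Pool.Agent.J4.H39.CM

open Complex Filter Topology MeasureTheory Set

noncomputable section

/-- the periodic Bernoulli function of degree two -/
def bP (x : ℝ) : ℝ := (Int.fract x) ^ 2 - Int.fract x + 1 / 6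

theorem bP_hasSum (x : ℝ) : HasSum (fun n : ℕ => 1 / ((n : ℝ) ^ 2 * Real.pi ^ 2) *
    Real.cos (2 * Real.pi * n * x)) (bP x) := by
  have h := hasSum_one_div_nat_pow_mul_cos (k := 1) one_ne_zero (x := Int.fract x)
    ⟨Int.fract_nonneg _, (Int.fract_lt_one _).le⟩
  have h2 := h.mul_left (1 / Real.pi ^ 2)
  have hpi : Real.pi ≠ 0 := Real.pi_ne_zero
  convert! h2 using 1
  · funext n
    have h3 : Real.cos (2 * Real.pi * n * Int.fract x) = Real.cos (2 * Real.pi * n * x) := by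
      have h4 : 2 * Real.pi * n * Int.fract x =
          2 * Real.pi * n * x - ((n * ⌊x⌋ : ℤ) : ℝ) * (2 * Real.pi) := by
        rw [Int.fract]
        push_cast
        ring
      rw [h4, Real.cos_sub_int_mul_two_pi]
    rw [h3, mul_one]
    rw [← mul_assoc]
    congr 1
    rw [one_div_mul_one_div, mul_comm]
  · have h5 : (Polynomial.map (algebraMap ℚ ℝ) (Polynomial.bernoulli (2 * 1))).eval (Int.fract x) =
        Int.fract x ^ 2 - Int.fract x + 6⁻¹ := bernoulliFun_two (Int.fract x)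
    rw [h5]
    unfold bP
    have h6 : ((2 * 1).factorial : ℝ) = 2 := by norm_num [Nat.factorial]
    rw [h6]
    field_simp
    ring

theorem fr_sub (x η : ℝ) (h0 : 0 ≤ η) (h1 : η ≤ 1) : Int.fract (x - η) =
    if η ≤ Int.fract x then Int.fract x - η else Int.fract x - η + 1 := by
  have h2 := Int.fract_nonneg x
  have h3 := Int.fract_lt_one x
  split_ifs with h
  · rw [Int.fract_eq_iff]
    refine ⟨by linarith, by linarith, ⌊x⌋, ?_⟩
    rw [Int.fract]; ring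
  · rw [Int.fract_eq_iff]
    push Not at h
    refine ⟨by linarith, by linarith, ⌊x⌋ - 1, ?_⟩
    rw [Int.fract]; push_cast; ring

theorem fr_add (x η : ℝ) (h0 : 0 ≤ η) (h1 : η ≤ 1) : Int.fract (x + η) =
    if Int.fract x < 1 - η then Int.fract x + η else Int.fract x + η - 1 := by
  have h2 := Int.fract_nonneg x
  have h3 := Int.fract_lt_one x
  split_ifs with h
  · rw [Int.fract_eq_iff]
    refine ⟨by linarith, by linarith, ⌊x⌋, ?_⟩
    rw [Int.fract]; ring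
  · rw [Int.fract_eq_iff]
    push Not at h
    refine ⟨by linarith, by linarith, ⌊x⌋ + 1, ?_⟩
    rw [Int.fract]; push_cast; ring

/-- the difference between the sawtooth and its regularisation -/
def bS (η x : ℝ) : ℝ := 1 / 2 + η / 2 - Int.fract x - (bP (x - η) - bP x) / (2 * η)

theorem bS_eq (η x : ℝ) (h0 : 0 < η) (h1 : η ≤ 1) :
    bS η x = if η ≤ Int.fract x then 0 else 1 - Int.fract x / η := by
  unfold bS bP
  rw [fr_sub x η h0.le h1]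
  split_ifs with h
  · field_simp
    ring
  · field_simp
    ring

theorem bS_nonneg (η x : ℝ) (h0 : 0 < η) (h1 : η ≤ 1) : 0 ≤ bS η x := by
  rw [bS_eq η x h0 h1]
  split_ifs with h
  · exact le_refl _
  · push Not at h
    have : Int.fract x / η < 1 := by rw [div_lt_one h0]; exact h
    linarith

theorem bS_le_one (η x : ℝ) (h0 : 0 < η) (h1 : η ≤ 1) : bS η x ≤ 1 := by
  rw [bS_eq η x h0 h1]
  split_ifs with h
  · exact zero_le_one
  · have : 0 ≤ Int.fract x / η := div_nonneg (Int.fract_nonneg x) h0.le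
    linarith

theorem bS_le_tri (η x : ℝ) (h0 : 0 < η) (h1 : η ≤ 1 / 2) :
    bS η x ≤ η + (2 * bP x - bP (x + η) - bP (x - η)) / (2 * η) := by
  rw [bS_eq η x h0 (by linarith)]
  unfold bP
  rw [fr_sub x η h0.le (by linarith), fr_add x η h0.le (by linarith)]
  have h2 := Int.fract_nonneg x
  have h3 := Int.fract_lt_one x
  obtain ⟨t, ht⟩ : ∃ t : ℝ, t = Int.fract x := ⟨_, rfl⟩
  rw [← ht] at h2 h3 ⊢
  split_ifs with h4 h5 h5
  · apply le_of_eq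
    field_simp
    ring
  · push Not at h5
    have h6 : η + (2 * (t ^ 2 - t + 1 / 6) - ((t + η - 1) ^ 2 - (t + η - 1) + 1 / 6) -
        ((t - η) ^ 2 - (t - η) + 1 / 6)) / (2 * η) = (η - (1 - t)) / η := by
      field_simp
      ring
    rw [h6]
    apply div_nonneg _ h0.le
    linarith
  · apply le_of_eq
    field_simp
    ring
  · exfalso
    push Not at h4 h5
    linarith

theorem ind_eq (x u v : ℝ) (hu : 0 ≤ u) (huv : u ≤ v) (hv : v ≤ 1) :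
    (if (u ≤ Int.fract x ∧ Int.fract x < v) then (1 : ℝ) else 0) =
      (v - u) + Int.fract (x - v) - Int.fract (x - u) := by
  rw [fr_sub x u hu (by linarith), fr_sub x v (by linarith) hv]
  by_cases h1 : u ≤ Int.fract x
  · by_cases h2 : v ≤ Int.fract x
    · rw [if_neg (by push Not; intro _; exact h2), if_pos h2, if_pos h1]; ring
    · rw [if_pos ⟨h1, by push Not at h2; exact h2⟩, if_neg h2, if_pos h1]; ring
  · have h2 : ¬ v ≤ Int.fract x := by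
      push Not at h1 ⊢
      linarith
    rw [if_neg (by intro h; exact h1 h.1), if_neg h1, if_neg h2]; ring

theorem e_norm (x : ℝ) : ‖e x‖ = 1 := by
  unfold e
  have : (2 * Real.pi * x * I : ℂ) = ((2 * Real.pi * x : ℝ) : ℂ) * I := by push_cast; ring
  rw [this, Complex.norm_exp_ofReal_mul_I]

theorem e_add (x y : ℝ) : e (x + y) = e x * e y := by
  unfold e
  rw [← Complex.exp_add]
  congr 1
  push_cast
  ring

theorem cos_e (x : ℝ) : ((Real.cos (2 * Real.pi * x) : ℝ) : ℂ) = (e x + e (-x)) / 2 := by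
  unfold e
  rw [Complex.ofReal_cos, Complex.cos]
  congr 2
  · congr 1; push_cast; ring
  · congr 1; push_cast; ring

theorem cos_sum (f : ℕ → ℂ) (γ β M : ℝ) (n N : ℕ)
    (h1 : ‖∑ q ∈ Finset.range N, f q * e (n * γ * q)‖ ≤ M)
    (h2 : ‖∑ q ∈ Finset.range N, f q * e (-(n * γ * q))‖ ≤ M) :
    ‖∑ q ∈ Finset.range N, f q * ((Real.cos (2 * Real.pi * n * (γ * q + β)) : ℝ) : ℂ)‖ ≤ M := by
  have h3 : ∑ q ∈ Finset.range N, f q * ((Real.cos (2 * Real.pi * n * (γ * q + β)) : ℝ) : ℂ) =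
      (e (n * β) * ∑ q ∈ Finset.range N, f q * e (n * γ * q) +
        e (-(n * β)) * ∑ q ∈ Finset.range N, f q * e (-(n * γ * q))) / 2 := by
    rw [Finset.mul_sum, Finset.mul_sum, ← Finset.sum_add_distrib, Finset.sum_div]
    refine Finset.sum_congr rfl fun q _ => ?_
    have h4 : 2 * Real.pi * n * (γ * q + β) = 2 * Real.pi * (n * γ * q + n * β) := by ring
    rw [h4, cos_e, neg_add, e_add, e_add]
    ring
  rw [h3, norm_div]
  have h5 : ‖(2 : ℂ)‖ = 2 := by norm_num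
  rw [h5, div_le_iff₀ (by norm_num)]
  refine (norm_add_le _ _).trans ?_
  rw [norm_mul, norm_mul, e_norm, e_norm]
  linarith

/-- the constant -/
def bZ : ℝ := ∑' n : ℕ, 1 / (n : ℝ) ^ (3 / 2 : ℝ)

theorem bZ_nonneg : 0 ≤ bZ := tsum_nonneg fun n => by positivity

theorem bP_sum (f : ℕ → ℂ) (γ M T θ : ℝ) (A N : ℕ) (hM : 0 ≤ M)
    (hθ : θ = 1 / (2 * ((A : ℝ) + 1)))
    (h : ∀ n : ℕ, 1 ≤ n → ‖∑ q ∈ Finset.range N, f q * e (n * γ * q)‖ ≤ M * (n : ℝ) ^ A ∧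
      ‖∑ q ∈ Finset.range N, f q * e (-(n * γ * q))‖ ≤ M * (n : ℝ) ^ A)
    (hT : ∑ q ∈ Finset.range N, ‖f q‖ ≤ T) (β : ℝ) :
    ‖∑ q ∈ Finset.range N, f q * (bP (γ * q + β) : ℂ)‖ ≤ bZ * (M ^ θ * T ^ (1 - θ)) := by
  have hA : (0 : ℝ) ≤ A := Nat.cast_nonneg A
  have hθ0 : 0 ≤ θ := by rw [hθ]; positivity
  have hθ1 : θ ≤ 1 := by
    rw [hθ, div_le_one (by positivity)]
    linarith
  have hAθ : A * θ ≤ 1 / 2 := by
    rw [hθ, mul_one_div, div_le_div_iff₀ (by positivity) (by norm_num)]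
    linarith
  have hT0 : 0 ≤ T := le_trans (Finset.sum_nonneg fun q _ => norm_nonneg _) hT
  have h1 : HasSum (fun n : ℕ => ∑ q ∈ Finset.range N, f q * (((1 / ((n : ℝ) ^ 2 * Real.pi ^ 2) *
      Real.cos (2 * Real.pi * n * (γ * q + β)) : ℝ)) : ℂ))
      (∑ q ∈ Finset.range N, f q * (bP (γ * q + β) : ℂ)) :=
    hasSum_sum fun q _ => (Complex.hasSum_ofReal.2 (bP_hasSum (γ * q + β))).mul_left (f q)
  have h2 : HasSum (fun n : ℕ => 1 / (n : ℝ) ^ (3 / 2 : ℝ) * (M ^ θ * T ^ (1 - θ)))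
      (bZ * (M ^ θ * T ^ (1 - θ))) :=
    (Real.summable_one_div_nat_rpow.2 (by norm_num)).hasSum.mul_right _
  refine h1.norm_le_of_bounded h2 fun n => ?_
  rcases Nat.eq_zero_or_pos n with hn | hn
  · subst hn
    simp only [Nat.cast_zero]
    have h3 : (1 / ((0 : ℝ) ^ 2 * Real.pi ^ 2)) = 0 := by simp
    rw [h3]
    simp only [zero_mul, Complex.ofReal_zero, mul_zero, Finset.sum_const_zero, norm_zero]
    positivity
  have hn1 : (1 : ℝ) ≤ n := by exact_mod_cast hn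
  have hn0 : (0 : ℝ) < n := by linarith
  obtain ⟨X, hX⟩ : ∃ X : ℝ, X = ‖∑ q ∈ Finset.range N,
    f q * ((Real.cos (2 * Real.pi * n * (γ * q + β)) : ℝ) : ℂ)‖ := ⟨_, rfl⟩
  have hX0 : 0 ≤ X := by rw [hX]; exact norm_nonneg _
  have hX1 : X ≤ M * (n : ℝ) ^ A := by
    rw [hX]
    exact cos_sum f γ β _ n N (h n hn).1 (h n hn).2
  have hX2 : X ≤ T := by
    rw [hX]
    refine (norm_sum_le _ _).trans (le_trans (Finset.sum_le_sum fun q _ => ?_) hT)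
    rw [norm_mul, Complex.norm_real, Real.norm_eq_abs]
    calc ‖f q‖ * |Real.cos (2 * Real.pi * n * (γ * q + β))| ≤ ‖f q‖ * 1 :=
          mul_le_mul_of_nonneg_left (Real.abs_cos_le_one _) (norm_nonneg _)
      _ = ‖f q‖ := mul_one _
  have hX3 : X ≤ (M ^ θ * (n : ℝ) ^ (1 / 2 : ℝ)) * T ^ (1 - θ) := by
    have h4 : X = X ^ θ * X ^ (1 - θ) := by
      rw [← Real.rpow_add_of_nonneg hX0 hθ0 (by linarith)]
      rw [show θ + (1 - θ) = 1 by ring, Real.rpow_one]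
    rw [h4]
    have h5 : X ^ θ ≤ M ^ θ * (n : ℝ) ^ (1 / 2 : ℝ) := by
      calc X ^ θ ≤ (M * (n : ℝ) ^ A) ^ θ := Real.rpow_le_rpow hX0 hX1 hθ0
        _ = M ^ θ * ((n : ℝ) ^ A) ^ θ := Real.mul_rpow hM (by positivity)
        _ = M ^ θ * (n : ℝ) ^ (A * θ) := by
            rw [← Real.rpow_natCast, ← Real.rpow_mul hn0.le]
        _ ≤ M ^ θ * (n : ℝ) ^ (1 / 2 : ℝ) :=
            mul_le_mul_of_nonneg_left (Real.rpow_le_rpow_of_exponent_le hn1 hAθ)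
              (Real.rpow_nonneg hM _)
    exact mul_le_mul h5 (Real.rpow_le_rpow hX0 hX2 (by linarith)) (Real.rpow_nonneg hX0 _)
      (mul_nonneg (Real.rpow_nonneg hM _) (Real.rpow_nonneg hn0.le _))
  have h6 : ∑ q ∈ Finset.range N, f q * (((1 / ((n : ℝ) ^ 2 * Real.pi ^ 2) *
      Real.cos (2 * Real.pi * n * (γ * q + β)) : ℝ)) : ℂ) =
      ((1 / ((n : ℝ) ^ 2 * Real.pi ^ 2) : ℝ) : ℂ) * ∑ q ∈ Finset.range N,
        f q * ((Real.cos (2 * Real.pi * n * (γ * q + β)) : ℝ) : ℂ) := by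
    rw [Finset.mul_sum]
    refine Finset.sum_congr rfl fun q _ => ?_
    rw [Complex.ofReal_mul]
    ring
  rw [h6, norm_mul, ← hX, Complex.norm_real, Real.norm_eq_abs, abs_of_nonneg (by positivity)]
  have hpi : (1 : ℝ) ≤ Real.pi ^ 2 := by
    have := Real.pi_gt_three
    nlinarith
  have h7 : 1 / ((n : ℝ) ^ 2 * Real.pi ^ 2) ≤ 1 / (n : ℝ) ^ 2 := by
    apply one_div_le_one_div_of_le (by positivity)
    nlinarith [sq_nonneg (n : ℝ), pow_pos hn0 2]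
  have h8 : 1 / (n : ℝ) ^ 2 * (n : ℝ) ^ (1 / 2 : ℝ) = 1 / (n : ℝ) ^ (3 / 2 : ℝ) := by
    have h9 : (n : ℝ) ^ 2 = (n : ℝ) ^ (3 / 2 : ℝ) * (n : ℝ) ^ (1 / 2 : ℝ) := by
      rw [← Real.rpow_add hn0, ← Real.rpow_natCast]
      norm_num
    have h10 : (0 : ℝ) < (n : ℝ) ^ (1 / 2 : ℝ) := Real.rpow_pos_of_pos hn0 _
    have h11 : (0 : ℝ) < (n : ℝ) ^ (3 / 2 : ℝ) := Real.rpow_pos_of_pos hn0 _
    rw [h9]
    field_simp
  calc 1 / ((n : ℝ) ^ 2 * Real.pi ^ 2) * X ≤ 1 / (n : ℝ) ^ 2 * X :=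
        mul_le_mul_of_nonneg_right h7 hX0
    _ ≤ 1 / (n : ℝ) ^ 2 * ((M ^ θ * (n : ℝ) ^ (1 / 2 : ℝ)) * T ^ (1 - θ)) :=
        mul_le_mul_of_nonneg_left hX3 (by positivity)
    _ = (1 / (n : ℝ) ^ 2 * (n : ℝ) ^ (1 / 2 : ℝ)) * (M ^ θ * T ^ (1 - θ)) := by ring
    _ = 1 / (n : ℝ) ^ (3 / 2 : ℝ) * (M ^ θ * T ^ (1 - θ)) := by rw [h8]

theorem bS_sum (γ η B2 : ℝ) (N : ℕ) (hη : 0 < η) (hη1 : η ≤ 1 / 2)
    (h2 : ∀ β : ℝ, ‖∑ q ∈ Finset.range N, (1 : ℂ) * (bP (γ * q + β) : ℂ)‖ ≤ B2) (β : ℝ) :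
    ∑ q ∈ Finset.range N, bS η (γ * q + β) ≤ η * N + 2 * B2 / η := by
  have h3 : ∀ β : ℝ, |∑ q ∈ Finset.range N, bP (γ * q + β)| ≤ B2 := by
    intro β
    have h4 := h2 β
    have h5 : ∑ q ∈ Finset.range N, (1 : ℂ) * (bP (γ * q + β) : ℂ) =
        ((∑ q ∈ Finset.range N, bP (γ * q + β) : ℝ) : ℂ) := by
      push_cast
      exact Finset.sum_congr rfl fun q _ => one_mul _
    rw [h5, Complex.norm_real, Real.norm_eq_abs] at h4
    exact h4
  have h6 : ∑ q ∈ Finset.range N, bS η (γ * q + β) ≤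
      ∑ q ∈ Finset.range N, (η + (2 * bP (γ * q + β) - bP (γ * q + (β + η)) -
        bP (γ * q + (β - η))) / (2 * η)) := by
    refine Finset.sum_le_sum fun q _ => ?_
    have h7 := bS_le_tri η (γ * q + β) hη hη1
    have h8 : γ * q + β + η = γ * q + (β + η) := by ring
    have h9 : γ * q + β - η = γ * q + (β - η) := by ring
    rw [h8, h9] at h7
    exact h7
  refine h6.trans ?_
  rw [Finset.sum_add_distrib, ← Finset.sum_div, Finset.sum_sub_distrib, Finset.sum_sub_distrib,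
    ← Finset.mul_sum, Finset.sum_const, Finset.card_range, nsmul_eq_mul]
  have a1 := abs_le.1 (h3 β)
  have a2 := abs_le.1 (h3 (β + η))
  have a3 := abs_le.1 (h3 (β - η))
  have h10 : (2 * ∑ q ∈ Finset.range N, bP (γ * q + β) - ∑ q ∈ Finset.range N,
      bP (γ * q + (β + η)) - ∑ q ∈ Finset.range N, bP (γ * q + (β - η))) / (2 * η) ≤
      2 * B2 / η := by
    rw [div_le_div_iff₀ (by positivity) hη]
    nlinarith [a1.2, a2.1, a3.1]
  rw [mul_comm (N : ℝ) η]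
  linarith

theorem bS_f (f : ℕ → ℂ) (γ η B2 F2 : ℝ) (N : ℕ) (hη : 0 < η) (hη1 : η ≤ 1 / 2)
    (h2 : ∀ β : ℝ, ‖∑ q ∈ Finset.range N, (1 : ℂ) * (bP (γ * q + β) : ℂ)‖ ≤ B2)
    (h3 : ∑ q ∈ Finset.range N, ‖f q‖ ^ 2 ≤ F2) (β : ℝ) :
    ∑ q ∈ Finset.range N, ‖f q‖ * bS η (γ * q + β) ≤ √(F2 * (η * N + 2 * B2 / η)) := by
  apply Real.le_sqrt_of_sq_le
  refine (Finset.sum_mul_sq_le_sq_mul_sq _ _ _).trans ?_
  have h4 : ∑ q ∈ Finset.range N, bS η (γ * q + β) ^ 2 ≤ η * N + 2 * B2 / η := by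
    refine le_trans (Finset.sum_le_sum fun q _ => ?_) (bS_sum γ η B2 N hη hη1 h2 β)
    have a := bS_nonneg η (γ * q + β) hη (by linarith)
    have b := bS_le_one η (γ * q + β) hη (by linarith)
    nlinarith
  exact mul_le_mul h3 h4 (Finset.sum_nonneg fun q _ => sq_nonneg _)
    (le_trans (Finset.sum_nonneg fun q _ => sq_nonneg _) h3)

theorem beat_fix (f : ℕ → ℂ) (γ η B1 B2 F2 : ℝ) (N : ℕ) (hη : 0 < η) (hη1 : η ≤ 1 / 2)
    (h1 : ∀ β : ℝ, ‖∑ q ∈ Finset.range N, f q * (bP (γ * q + β) : ℂ)‖ ≤ B1)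
    (h2 : ∀ β : ℝ, ‖∑ q ∈ Finset.range N, (1 : ℂ) * (bP (γ * q + β) : ℂ)‖ ≤ B2)
    (h3 : ∑ q ∈ Finset.range N, ‖f q‖ ^ 2 ≤ F2) (β u v : ℝ) (hu : 0 ≤ u) (huv : u ≤ v)
    (hv : v ≤ 1) :
    ‖(∑ q ∈ Finset.range N, if (u ≤ Int.fract (γ * q + β) ∧ Int.fract (γ * q + β) < v)
      then f q else 0) - (v - u) * ∑ q ∈ Finset.range N, f q‖ ≤
      2 * B1 / η + 2 * √(F2 * (η * N + 2 * B2 / η)) := by
  have e1 : (∑ q ∈ Finset.range N, if (u ≤ Int.fract (γ * q + β) ∧ Int.fract (γ * q + β) < v)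
      then f q else 0) - (v - u) * ∑ q ∈ Finset.range N, f q =
      (∑ q ∈ Finset.range N, f q * (bS η (γ * q + (β - u)) : ℂ) -
        ∑ q ∈ Finset.range N, f q * (bS η (γ * q + (β - v)) : ℂ)) +
      ((∑ q ∈ Finset.range N, f q * (bP (γ * q + (β - u - η)) : ℂ) -
        ∑ q ∈ Finset.range N, f q * (bP (γ * q + (β - u)) : ℂ)) -
        (∑ q ∈ Finset.range N, f q * (bP (γ * q + (β - v - η)) : ℂ) -
        ∑ q ∈ Finset.range N, f q * (bP (γ * q + (β - v)) : ℂ))) / (2 * η) := by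
    rw [Finset.mul_sum, ← Finset.sum_sub_distrib, ← Finset.sum_sub_distrib,
      ← Finset.sum_sub_distrib, ← Finset.sum_sub_distrib, ← Finset.sum_sub_distrib,
      Finset.sum_div, ← Finset.sum_add_distrib]
    refine Finset.sum_congr rfl fun q _ => ?_
    have e2 : (if (u ≤ Int.fract (γ * q + β) ∧ Int.fract (γ * q + β) < v) then f q else 0) =
        f q * (((if (u ≤ Int.fract (γ * q + β) ∧ Int.fract (γ * q + β) < v) then (1 : ℝ)
          else 0) : ℝ) : ℂ) := by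
      split_ifs <;> simp
    rw [e2, ind_eq _ u v hu huv hv]
    have e3 : ∀ w : ℝ, Int.fract (γ * q + β - w) = 1 / 2 + η / 2 - bS η (γ * q + (β - w)) -
        (bP (γ * q + (β - w - η)) - bP (γ * q + (β - w))) / (2 * η) := by
      intro w
      unfold bS
      have e4 : γ * q + (β - w) - η = γ * q + (β - w - η) := by ring
      have e5 : γ * q + β - w = γ * q + (β - w) := by ring
      rw [e4, e5]
      ring
    rw [e3 u, e3 v]
    push_cast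
    ring
  rw [e1]
  have n1 : ∀ w : ℝ, ‖∑ q ∈ Finset.range N, f q * (bS η (γ * q + w) : ℂ)‖ ≤
      √(F2 * (η * N + 2 * B2 / η)) := by
    intro w
    refine (norm_sum_le _ _).trans (le_trans (le_of_eq ?_) (bS_f f γ η B2 F2 N hη hη1 h2 h3 w))
    refine Finset.sum_congr rfl fun q _ => ?_
    rw [norm_mul, Complex.norm_real, Real.norm_eq_abs,
      abs_of_nonneg (bS_nonneg η _ hη (by linarith))]
  refine (norm_add_le _ _).trans ?_
  have n2 : ‖((∑ q ∈ Finset.range N, f q * (bP (γ * q + (β - u - η)) : ℂ) -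
        ∑ q ∈ Finset.range N, f q * (bP (γ * q + (β - u)) : ℂ)) -
        (∑ q ∈ Finset.range N, f q * (bP (γ * q + (β - v - η)) : ℂ) -
        ∑ q ∈ Finset.range N, f q * (bP (γ * q + (β - v)) : ℂ))) / (2 * η)‖ ≤ 2 * B1 / η := by
    rw [norm_div]
    have n3 : ‖(2 * (η : ℂ))‖ = 2 * η := by
      rw [norm_mul, Complex.norm_real, Real.norm_eq_abs, abs_of_pos hη]
      norm_num
    rw [n3, div_le_div_iff₀ (by positivity) hη]
    have n4 := norm_sub_le (∑ q ∈ Finset.range N, f q * (bP (γ * q + (β - u - η)) : ℂ) -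
        ∑ q ∈ Finset.range N, f q * (bP (γ * q + (β - u)) : ℂ))
        (∑ q ∈ Finset.range N, f q * (bP (γ * q + (β - v - η)) : ℂ) -
        ∑ q ∈ Finset.range N, f q * (bP (γ * q + (β - v)) : ℂ))
    have n5 := norm_sub_le (∑ q ∈ Finset.range N, f q * (bP (γ * q + (β - u - η)) : ℂ))
        (∑ q ∈ Finset.range N, f q * (bP (γ * q + (β - u)) : ℂ))
    have n6 := norm_sub_le (∑ q ∈ Finset.range N, f q * (bP (γ * q + (β - v - η)) : ℂ))
        (∑ q ∈ Finset.range N, f q * (bP (γ * q + (β - v)) : ℂ))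
    have b1 := h1 (β - u - η)
    have b2 := h1 (β - u)
    have b3 := h1 (β - v - η)
    have b4 := h1 (β - v)
    calc _ ≤ (4 * B1) * η := by
          apply mul_le_mul_of_nonneg_right _ hη.le
          linarith
      _ = 2 * B1 * (2 * η) := by ring
  have n7 := norm_sub_le (∑ q ∈ Finset.range N, f q * (bS η (γ * q + (β - u)) : ℂ))
    (∑ q ∈ Finset.range N, f q * (bS η (γ * q + (β - v)) : ℂ))
  have n8 := n1 (β - u)
  have n9 := n1 (β - v)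
  linarith

theorem bohr_gen (f : ℕ → ℂ) (γ δ : ℝ) (A : ℕ) (C : ℝ) (hδ : 0 < δ) (hC : 0 < C)
    (h1 : ∀ N h : ℕ, 1 ≤ N → 1 ≤ h →
      ‖∑ q ∈ Finset.range (N+1), f q * e (h * γ * q)‖ ≤ C * (h:ℝ)^A * (N:ℝ)^(1-δ) ∧
      ‖∑ q ∈ Finset.range (N+1), f q * e (-(h * γ * q))‖ ≤ C * (h:ℝ)^A * (N:ℝ)^(1-δ) ∧
      ‖∑ q ∈ Finset.range (N+1), e (h * γ * q)‖ ≤ C * (h:ℝ)^A * (N:ℝ)^(1-δ))
    (h2 : ∀ ε : ℝ, 0 < ε → ∃ K : ℝ, ∀ N : ℕ, 1 ≤ N →
      ∑ q ∈ Finset.range (N+1), ‖f q‖^2 ≤ K * (N:ℝ)^(1+ε)) :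
    ∃ δ' K : ℝ, 0 < δ' ∧ ∀ (N : ℕ) (β u v : ℝ), 1 ≤ N → 0 ≤ u → u ≤ v → v ≤ 1 →
      ‖(∑ q ∈ Finset.range (N+1), if (u ≤ Int.fract (γ * q + β) ∧ Int.fract (γ * q + β) < v)
        then f q else 0) - (v - u) * ∑ q ∈ Finset.range (N+1), f q‖ ≤ K * (N:ℝ)^(1-δ') := by
  have hA : (0 : ℝ) ≤ A := Nat.cast_nonneg A
  obtain ⟨θ, hθ⟩ : ∃ θ : ℝ, θ = 1 / (2 * ((A : ℝ) + 1)) := ⟨_, rfl⟩
  have hθ0 : 0 < θ := by rw [hθ]; positivity
  have hθ1 : θ ≤ 1 := by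
    rw [hθ, div_le_one (by positivity)]
    linarith
  obtain ⟨κ, hκ⟩ : ∃ κ : ℝ, κ = δ * θ / 2 := ⟨_, rfl⟩
  have hδθ : 0 < δ * θ := mul_pos hδ hθ0
  have hκ0 : 0 < κ := by rw [hκ]; linarith
  obtain ⟨K1, hK1⟩ := h2 (δ * θ) hδθ
  obtain ⟨K2, hK2⟩ := h2 (κ / 4) (by linarith)
  have hK10 : 0 ≤ K1 := by
    have h3 := hK1 1 le_rfl
    have h4 : 0 ≤ ∑ q ∈ Finset.range (1 + 1), ‖f q‖ ^ 2 := Finset.sum_nonneg fun q _ => sq_nonneg _
    rw [Nat.cast_one, Real.one_rpow, mul_one] at h3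
    linarith
  have hK20 : 0 ≤ K2 := by
    have h3 := hK2 1 le_rfl
    have h4 : 0 ≤ ∑ q ∈ Finset.range (1 + 1), ‖f q‖ ^ 2 := Finset.sum_nonneg fun q _ => sq_nonneg _
    rw [Nat.cast_one, Real.one_rpow, mul_one] at h3
    linarith
  have hN2 : ∀ N : ℕ, 1 ≤ N → ((N + 1 : ℕ) : ℝ) ≤ 2 * N := by
    intro N hN
    have : (1 : ℝ) ≤ N := by exact_mod_cast hN
    push_cast
    linarith
  -- the trivial bound
  have hT : ∀ N : ℕ, 1 ≤ N → ∑ q ∈ Finset.range (N + 1), ‖f q‖ ≤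
      √(2 * K1) * (N : ℝ) ^ (1 + δ * θ / 2) := by
    intro N hN
    have hn1 : (1 : ℝ) ≤ N := by exact_mod_cast hN
    have hn0 : (0 : ℝ) < N := by linarith
    have h3 : √(2 * K1) * (N : ℝ) ^ (1 + δ * θ / 2) = √(2 * K1 * (N : ℝ) ^ (2 + δ * θ)) := by
      rw [Real.sqrt_mul (x := 2 * K1) (by positivity) _]
      congr 1
      rw [Real.sqrt_eq_rpow, ← Real.rpow_mul hn0.le]
      congr 1
      ring
    rw [h3]
    apply Real.le_sqrt_of_sq_le
    have h4 := Finset.sum_mul_sq_le_sq_mul_sq (Finset.range (N + 1)) (fun _ => (1 : ℝ))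
      (fun q => ‖f q‖)
    simp only [one_mul, one_pow, Finset.sum_const, Finset.card_range, nsmul_eq_mul, mul_one] at h4
    refine h4.trans ?_
    calc ((N + 1 : ℕ) : ℝ) * ∑ q ∈ Finset.range (N + 1), ‖f q‖ ^ 2 ≤
          (2 * N) * (K1 * (N : ℝ) ^ (1 + δ * θ)) :=
          mul_le_mul (hN2 N hN) (hK1 N hN) (Finset.sum_nonneg fun q _ => sq_nonneg _)
            (by positivity)
      _ = 2 * K1 * ((N : ℝ) ^ (1 : ℝ) * (N : ℝ) ^ (1 + δ * θ)) := by rw [Real.rpow_one]; ring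
      _ = 2 * K1 * (N : ℝ) ^ (2 + δ * θ) := by
          rw [← Real.rpow_add hn0]
          congr 2
          ring
  -- the sums against the Bernoulli function
  obtain ⟨D1, hD1⟩ : ∃ D1 : ℝ, D1 = bZ * (C ^ θ * (√(2 * K1)) ^ (1 - θ)) := ⟨_, rfl⟩
  have hD10 : 0 ≤ D1 := by
    rw [hD1]
    exact mul_nonneg bZ_nonneg (mul_nonneg (Real.rpow_nonneg hC.le _)
      (Real.rpow_nonneg (Real.sqrt_nonneg _) _))
  obtain ⟨D2, hD2⟩ : ∃ D2 : ℝ, D2 = bZ * (C ^ θ * (2 : ℝ) ^ (1 - θ)) := ⟨_, rfl⟩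
  have hD20 : 0 ≤ D2 := by
    rw [hD2]
    exact mul_nonneg bZ_nonneg (mul_nonneg (Real.rpow_nonneg hC.le _)
      (Real.rpow_nonneg (by norm_num) _))
  have hB1 : ∀ N : ℕ, 1 ≤ N → ∀ β : ℝ, ‖∑ q ∈ Finset.range (N + 1),
      f q * (bP (γ * q + β) : ℂ)‖ ≤ D1 * (N : ℝ) ^ (1 - κ) := by
    intro N hN β
    have hn1 : (1 : ℝ) ≤ N := by exact_mod_cast hN
    have hn0 : (0 : ℝ) < N := by linarith
    refine (bP_sum f γ (C * (N : ℝ) ^ (1 - δ)) _ θ A (N + 1) (by positivity) hθ (fun n hn => ?_)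
      (hT N hN) β).trans ?_
    · have h3 := h1 N n hN hn
      have h4 : C * (N : ℝ) ^ (1 - δ) * (n : ℝ) ^ A = C * (n : ℝ) ^ A * (N : ℝ) ^ (1 - δ) := by
        ring
      rw [h4]
      exact ⟨h3.1, h3.2.1⟩
    · rw [hD1, mul_assoc]
      refine mul_le_mul_of_nonneg_left ?_ bZ_nonneg
      rw [Real.mul_rpow hC.le (Real.rpow_nonneg hn0.le _),
        Real.mul_rpow (Real.sqrt_nonneg _) (Real.rpow_nonneg hn0.le _), ← Real.rpow_mul hn0.le,
        ← Real.rpow_mul hn0.le]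
      have h5 : C ^ θ * (N : ℝ) ^ ((1 - δ) * θ) * (√(2 * K1) ^ (1 - θ) *
          (N : ℝ) ^ ((1 + δ * θ / 2) * (1 - θ))) =
          C ^ θ * √(2 * K1) ^ (1 - θ) *
            ((N : ℝ) ^ ((1 - δ) * θ) * (N : ℝ) ^ ((1 + δ * θ / 2) * (1 - θ))) := by ring
      rw [h5, ← Real.rpow_add hn0]
      refine mul_le_mul_of_nonneg_left ?_ (mul_nonneg (Real.rpow_nonneg hC.le _)
        (Real.rpow_nonneg (Real.sqrt_nonneg _) _))
      apply Real.rpow_le_rpow_of_exponent_le hn1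
      rw [hκ]
      nlinarith
  have hB2 : ∀ N : ℕ, 1 ≤ N → ∀ β : ℝ, ‖∑ q ∈ Finset.range (N + 1),
      (1 : ℂ) * (bP (γ * q + β) : ℂ)‖ ≤ D2 * (N : ℝ) ^ (1 - κ) := by
    intro N hN β
    have hn1 : (1 : ℝ) ≤ N := by exact_mod_cast hN
    have hn0 : (0 : ℝ) < N := by linarith
    have hT2 : ∑ q ∈ Finset.range (N + 1), ‖((fun _ => (1 : ℂ)) q)‖ ≤ 2 * N := by
      simp only [norm_one, Finset.sum_const, Finset.card_range, nsmul_eq_mul, mul_one]
      exact hN2 N hN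
    refine (bP_sum (fun _ => (1 : ℂ)) γ (C * (N : ℝ) ^ (1 - δ)) (2 * N) θ A (N + 1)
      (by positivity) hθ (fun n hn => ?_) hT2 β).trans ?_
    · have h3 := (h1 N n hN hn).2.2
      have h4 : C * (N : ℝ) ^ (1 - δ) * (n : ℝ) ^ A = C * (n : ℝ) ^ A * (N : ℝ) ^ (1 - δ) := by
        ring
      rw [h4]
      simp only [one_mul]
      refine ⟨h3, ?_⟩
      have h5 : ∑ q ∈ Finset.range (N + 1), e (-(n * γ * q)) =
          (starRingEnd ℂ) (∑ q ∈ Finset.range (N + 1), e (n * γ * q)) := by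
        rw [map_sum]
        refine Finset.sum_congr rfl fun q _ => ?_
        unfold e
        rw [← Complex.exp_conj]
        congr 1
        simp only [map_mul, Complex.conj_ofReal, Complex.conj_I, map_ofNat]
        push_cast
        ring
      rw [h5, Complex.norm_conj]
      exact h3
    · rw [hD2, mul_assoc]
      refine mul_le_mul_of_nonneg_left ?_ bZ_nonneg
      rw [Real.mul_rpow hC.le (Real.rpow_nonneg hn0.le _),
        Real.mul_rpow (by norm_num) hn0.le, ← Real.rpow_mul hn0.le]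
      have h5 : C ^ θ * (N : ℝ) ^ ((1 - δ) * θ) * ((2 : ℝ) ^ (1 - θ) *
          (N : ℝ) ^ (1 - θ)) =
          C ^ θ * (2 : ℝ) ^ (1 - θ) *
            ((N : ℝ) ^ ((1 - δ) * θ) * (N : ℝ) ^ (1 - θ)) := by ring
      rw [h5, ← Real.rpow_add hn0]
      refine mul_le_mul_of_nonneg_left ?_ (mul_nonneg (Real.rpow_nonneg hC.le _)
        (Real.rpow_nonneg (by norm_num) _))
      apply Real.rpow_le_rpow_of_exponent_le hn1
      rw [hκ]
      nlinarith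
  refine ⟨κ / 8, 4 * D1 + 2 * √(K2 * (1 + 4 * D2)), by linarith, ?_⟩
  intro N β u v hN hu huv hv
  have hn1 : (1 : ℝ) ≤ N := by exact_mod_cast hN
  have hn0 : (0 : ℝ) < N := by linarith
  obtain ⟨η, hη⟩ : ∃ η : ℝ, η = (N : ℝ) ^ (-(κ / 2)) / 2 := ⟨_, rfl⟩
  have hp0 : 0 < (N : ℝ) ^ (-(κ / 2)) := Real.rpow_pos_of_pos hn0 _
  have hp1 : (N : ℝ) ^ (-(κ / 2)) ≤ 1 := Real.rpow_le_one_of_one_le_of_nonpos hn1 (by linarith)
  have hη0 : 0 < η := by rw [hη]; positivity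
  have hη1 : η ≤ 1 / 2 := by rw [hη]; linarith
  refine (beat_fix f γ η _ _ _ (N + 1) hη0 hη1 (hB1 N hN) (hB2 N hN) (hK2 N hN) β u v hu huv
    hv).trans ?_
  have hinv : ∀ D : ℝ, 2 * (D * (N : ℝ) ^ (1 - κ)) / η = 4 * D * (N : ℝ) ^ (1 - κ / 2) := by
    intro D
    rw [hη, div_eq_iff (by positivity)]
    have h3 : (N : ℝ) ^ (1 - κ) = (N : ℝ) ^ (1 - κ / 2) * (N : ℝ) ^ (-(κ / 2)) := by
      rw [← Real.rpow_add hn0]
      congr 1
      ring
    rw [h3]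
    ring
  rw [hinv D1, hinv D2]
  have h3 : η * ((N + 1 : ℕ) : ℝ) ≤ (N : ℝ) ^ (1 - κ / 2) := by
    calc η * ((N + 1 : ℕ) : ℝ) ≤ η * (2 * N) := mul_le_mul_of_nonneg_left (hN2 N hN) hη0.le
      _ = (N : ℝ) ^ (1 : ℝ) * (N : ℝ) ^ (-(κ / 2)) := by rw [hη, Real.rpow_one]; ring
      _ = (N : ℝ) ^ (1 - κ / 2) := by
          rw [← Real.rpow_add hn0]
          congr 1
  have h4 : √(K2 * (N : ℝ) ^ (1 + κ / 4) * (η * ((N + 1 : ℕ) : ℝ) +
      4 * D2 * (N : ℝ) ^ (1 - κ / 2))) ≤ √(K2 * (1 + 4 * D2)) * (N : ℝ) ^ (1 - κ / 8) := by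
    have h5 : √(K2 * (1 + 4 * D2)) * (N : ℝ) ^ (1 - κ / 8) =
        √(K2 * (1 + 4 * D2) * (N : ℝ) ^ (2 - κ / 4)) := by
      rw [Real.sqrt_mul (x := K2 * (1 + 4 * D2)) (by positivity) _]
      congr 1
      rw [Real.sqrt_eq_rpow, ← Real.rpow_mul hn0.le]
      congr 1
      ring
    rw [h5]
    apply Real.sqrt_le_sqrt
    calc K2 * (N : ℝ) ^ (1 + κ / 4) * (η * ((N + 1 : ℕ) : ℝ) +
          4 * D2 * (N : ℝ) ^ (1 - κ / 2)) ≤
          K2 * (N : ℝ) ^ (1 + κ / 4) * ((N : ℝ) ^ (1 - κ / 2) +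
          4 * D2 * (N : ℝ) ^ (1 - κ / 2)) := by
          apply mul_le_mul_of_nonneg_left _ (by positivity)
          linarith
      _ = K2 * (1 + 4 * D2) * ((N : ℝ) ^ (1 + κ / 4) * (N : ℝ) ^ (1 - κ / 2)) := by ring
      _ = K2 * (1 + 4 * D2) * (N : ℝ) ^ (2 - κ / 4) := by
          rw [← Real.rpow_add hn0]
          congr 2
          ring
  have h6 : (N : ℝ) ^ (1 - κ / 2) ≤ (N : ℝ) ^ (1 - κ / 8) :=
    Real.rpow_le_rpow_of_exponent_le hn1 (by linarith)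
  have h7 : 4 * D1 * (N : ℝ) ^ (1 - κ / 2) ≤ 4 * D1 * (N : ℝ) ^ (1 - κ / 8) :=
    mul_le_mul_of_nonneg_left h6 (by positivity)
  calc _ ≤ 4 * D1 * (N : ℝ) ^ (1 - κ / 8) +
        2 * (√(K2 * (1 + 4 * D2)) * (N : ℝ) ^ (1 - κ / 8)) := by linarith
    _ = (4 * D1 + 2 * √(K2 * (1 + 4 * D2))) * (N : ℝ) ^ (1 - κ / 8) := by ring

end

end Pool.Agent.J4.H39.CM
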