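import Pool.Agent.J4.H39.CM.Sp
import Pool.Agent.H60R2.RZ2_C1

set_option autoImplicit false

/-!
Project CM (helper39): sums `∑_{t < N} w(t) F(t) (t/k) e(xt)` with a monotone weight and an `8`-periodic `F`.
-/

namespace Pool.Agent.J4.H39.CM

open Complex Finset
open Pool.Agent.H306R2.RZ (js cas Gk)
open Pool.Agent.H60R2.RZC1 (Gk_sqf)

noncomputable section

lemma ni_neg (x : ℝ) : ni (-x) = ni x := by
  have key : ∀ y : ℝ, ni (-y) ≤ ni y := by
    intro y
    have h := ni_le (-y) (-(round y))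
    have h2 : |-y - ((-(round y) : ℤ) : ℝ)| = ni y := by
      unfold ni
      push_cast
      rw [← abs_neg]
      congr 1
      ring
    rw [h2] at h
    exact h
  refine le_antisymm (key x) ?_
  have := key (-x)
  rwa [neg_neg] at this

lemma kb_neg (T x : ℝ) : kb T (-x) = kb T x := by
  unfold kb
  rw [ni_neg]

/-- summation by parts with a monotone weight -/
theorem mono_abel (a : ℕ → ℂ) (w : ℕ → ℝ) (W S : ℝ) (N : ℕ) (hw : Monotone w) (hw0 : ∀ n, 0 ≤ w n)
    (hW : ∀ n, w n ≤ W) (hS : ∀ n ≤ N, ‖∑ t ∈ range n, a t‖ ≤ S) :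
    ‖∑ t ∈ range N, (w t : ℂ) * a t‖ ≤ 2 * W * S := by
  have hS0 : 0 ≤ S := (norm_nonneg _).trans (hS 0 (Nat.zero_le _))
  have key : ∀ n ≤ N, ‖∑ t ∈ range n, (w t : ℂ) * a t - (w n : ℂ) * ∑ t ∈ range n, a t‖ ≤
      (w n - w 0) * S := by
    intro n
    induction n with
    | zero => intro _; simp
    | succ n ih =>
      intro hn
      have h1 := ih (by omega)
      have h2 : ∑ t ∈ range (n + 1), (w t : ℂ) * a t - (w (n + 1) : ℂ) * ∑ t ∈ range (n + 1), a t =
          (∑ t ∈ range n, (w t : ℂ) * a t - (w n : ℂ) * ∑ t ∈ range n, a t) +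
            ((w n - w (n + 1) : ℝ) : ℂ) * ∑ t ∈ range (n + 1), a t := by
        rw [sum_range_succ, sum_range_succ]
        push_cast
        ring
      rw [h2]
      refine (norm_add_le _ _).trans ?_
      rw [norm_mul, Complex.norm_real, Real.norm_eq_abs, abs_sub_comm,
        abs_of_nonneg (sub_nonneg.2 (hw (Nat.le_succ n)))]
      have h3 := mul_le_mul_of_nonneg_left (hS (n + 1) hn) (sub_nonneg.2 (hw (Nat.le_succ n)))
      calc _ ≤ (w n - w 0) * S + (w (n + 1) - w n) * S := add_le_add h1 h3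
        _ = _ := by ring
  have h1 := key N le_rfl
  have h2 : ∑ t ∈ range N, (w t : ℂ) * a t =
      (∑ t ∈ range N, (w t : ℂ) * a t - (w N : ℂ) * ∑ t ∈ range N, a t) +
        (w N : ℂ) * ∑ t ∈ range N, a t := by ring
  rw [h2]
  refine (norm_add_le _ _).trans ?_
  rw [norm_mul, Complex.norm_real, Real.norm_eq_abs, abs_of_nonneg (hw0 N)]
  have h3 := mul_le_mul (hW N) (hS N le_rfl) (norm_nonneg _) ((hw0 N).trans (hW N))
  have h4 : (w N - w 0) * S ≤ W * S :=
    mul_le_mul_of_nonneg_right (by linarith [hw0 0, hW N]) hS0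
  linarith

lemma cas_e (y : ℝ) : ((cas (2 * Real.pi * y) : ℝ) : ℂ) = (1 - I) / 2 * e y + (1 + I) / 2 * e (-y) := by
  have e1 : e y = Complex.cos (2 * Real.pi * y) + Complex.sin (2 * Real.pi * y) * I := by
    unfold e
    rw [Complex.exp_mul_I]
  have e2 : e (-y) = Complex.cos (2 * Real.pi * y) - Complex.sin (2 * Real.pi * y) * I := by
    unfold e
    rw [Complex.exp_mul_I]
    push_cast
    rw [mul_neg, Complex.cos_neg, Complex.sin_neg]
    ring
  unfold cas
  rw [e1, e2]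
  push_cast
  have : I * I = -1 := Complex.I_mul_I
  linear_combination (Complex.sin (2 * Real.pi * y)) * this

lemma half_norm : ‖((1 - I) / 2 : ℂ)‖ ≤ 1 ∧ ‖((1 + I) / 2 : ℂ)‖ ≤ 1 := by
  constructor
  · rw [norm_div]
    have : ‖(1 - I : ℂ)‖ ≤ 2 := (norm_sub_le _ _).trans (by rw [norm_one, Complex.norm_I]; norm_num)
    rw [Complex.norm_ofNat]
    linarith
  · rw [norm_div]
    have : ‖(1 + I : ℂ)‖ ≤ 2 := (norm_add_le _ _).trans (by rw [norm_one, Complex.norm_I]; norm_num)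
    rw [Complex.norm_ofNat]
    linarith

lemma js_cop {r : ℤ} {k : ℕ} (hk : k ≠ 0) (h : ¬ Int.gcd r k = 1) : js r k = 0 := by
  have : NeZero k := ⟨hk⟩
  unfold js
  rw [jacobiSym.eq_zero_iff_not_coprime.2 h]
  simp

lemma js_le (a : ℤ) (n : ℕ) : |js a n| ≤ 1 := by
  unfold js
  have h : jacobiSym a n = 0 ∨ jacobiSym a n = 1 ∨ jacobiSym a n = -1 := jacobiSym.trichotomy a n
  rcases h with h | h | h <;> rw [h] <;> norm_num

/-- the character sum with an additive character -/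
theorem gauss (k : ℕ) (hk : Odd k) (hsq : Squarefree k) (x T : ℝ) (N : ℕ) (hN : (N : ℝ) ≤ T) :
    ‖∑ t ∈ range N, ((js (t : ℤ) k : ℝ) : ℂ) * e (x * t)‖ ≤ (Af T x k + Af T (-x) k) / √k := by
  have hk0 : 0 < k := hk.pos
  have hs : (0 : ℝ) < √k := Real.sqrt_pos.2 (by exact_mod_cast hk0)
  have hT : 0 ≤ T := (Nat.cast_nonneg N).trans hN
  have h1 : ((√k : ℝ) : ℂ) * ∑ t ∈ range N, ((js (t : ℤ) k : ℝ) : ℂ) * e (x * t) =
      ∑ r ∈ range k, ((js (r : ℤ) k : ℝ) : ℂ) *
        ((1 - I) / 2 * ∑ t ∈ range N, e ((x + r / k) * t) +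
          (1 + I) / 2 * ∑ t ∈ range N, e ((x - r / k) * t)) := by
    rw [mul_sum]
    have h2 : ∀ t ∈ range N, ((√k : ℝ) : ℂ) * (((js (t : ℤ) k : ℝ) : ℂ) * e (x * t)) =
        ∑ r ∈ range k, ((js (r : ℤ) k : ℝ) : ℂ) *
          ((1 - I) / 2 * e ((x + r / k) * t) + (1 + I) / 2 * e ((x - r / k) * t)) := by
      intro t _
      have h3 := Gk_sqf k hk hsq (t : ℤ)
      have h4 : ((√k : ℝ) : ℂ) * (((js (t : ℤ) k : ℝ) : ℂ) * e (x * t)) =
          ((Gk (t : ℤ) k : ℝ) : ℂ) * e (x * t) := by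
        rw [h3]
        push_cast
        ring
      rw [h4]
      unfold Gk
      push_cast
      rw [sum_mul]
      refine sum_congr rfl fun r _ => ?_
      have h5 : (2 * Real.pi * (t : ℝ) * (r : ℝ) / (k : ℝ)) = 2 * Real.pi * ((t : ℝ) * r / k) := by ring
      rw [h5, cas_e, mul_assoc]
      congr 1
      have h6 : e ((x + r / k) * t) = e ((t : ℝ) * r / k) * e (x * t) := by
        rw [← e_add]
        congr 1
        ring
      have h7 : e ((x - r / k) * t) = e (-((t : ℝ) * r / k)) * e (x * t) := by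
        rw [← e_add]
        congr 1
        ring
      rw [h6, h7]
      ring
    rw [sum_congr rfl h2, sum_comm]
    refine sum_congr rfl fun r _ => ?_
    rw [mul_sum, mul_sum, ← sum_add_distrib, mul_sum]
  have h2 : √k * ‖∑ t ∈ range N, ((js (t : ℤ) k : ℝ) : ℂ) * e (x * t)‖ ≤ Af T x k + Af T (-x) k := by
    have h3 : √k * ‖∑ t ∈ range N, ((js (t : ℤ) k : ℝ) : ℂ) * e (x * t)‖ =
        ‖((√k : ℝ) : ℂ) * ∑ t ∈ range N, ((js (t : ℤ) k : ℝ) : ℂ) * e (x * t)‖ := by
      rw [norm_mul, Complex.norm_real, Real.norm_eq_abs, abs_of_pos hs]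
    rw [h3, h1]
    refine (norm_sum_le _ _).trans ?_
    unfold Af
    rw [← sum_add_distrib, sum_filter]
    refine sum_le_sum fun r _ => ?_
    split_ifs with hc
    · rw [norm_mul, Complex.norm_real, Real.norm_eq_abs]
      have g1 := geom (x + r / k) T N hN
      have g2 := geom (x - r / k) T N hN
      have g3 : kb T (x - r / k) = kb T (-x + r / k) := by
        rw [← kb_neg]
        congr 1
        ring
      rw [g3] at g2
      calc _ ≤ 1 * (kb T (x + r / k) + kb T (-x + r / k)) := by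
            refine mul_le_mul (js_le _ _) ?_ (norm_nonneg _) zero_le_one
            refine (norm_add_le _ _).trans ?_
            rw [norm_mul, norm_mul]
            refine add_le_add ?_ ?_
            · calc _ ≤ 1 * kb T (x + r / k) :=
                    mul_le_mul half_norm.1 g1 (norm_nonneg _) zero_le_one
                _ = _ := one_mul _
            · calc _ ≤ 1 * kb T (-x + r / k) :=
                    mul_le_mul half_norm.2 g2 (norm_nonneg _) zero_le_one
                _ = _ := one_mul _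
        _ = _ := one_mul _
    · have hz : js (r : ℤ) k = 0 := by
        apply js_cop hk0.ne'
        rw [Int.gcd_natCast_natCast]
        exact hc
      rw [hz]
      simp
  rw [le_div_iff₀ hs]
  linarith

/-! ### Functions of period eight -/

lemma orth8 (z : ℤ) : ∑ h ∈ range 8, e ((z : ℝ) / 8 * h) = if (8 : ℤ) ∣ z then 8 else 0 := by
  have h1 : ∀ h ∈ range 8, e ((z : ℝ) / 8 * h) = e ((z : ℝ) / 8) ^ h := fun h _ => e_nat _ _
  rw [sum_congr rfl h1]
  split_ifs with hz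
  · obtain ⟨m, rfl⟩ := hz
    have h2 : e (((8 * m : ℤ) : ℝ) / 8) = 1 := by
      have : (((8 * m : ℤ) : ℝ) / 8) = ((m : ℤ) : ℝ) := by push_cast; ring
      rw [this, e_int]
    rw [h2]
    simp
  · have h2 : e ((z : ℝ) / 8) ≠ 1 := by
      intro h3
      unfold e at h3
      rw [Complex.exp_eq_one_iff] at h3
      obtain ⟨n, hn⟩ := h3
      have h4 : ((z : ℝ) / 8 : ℂ) = (n : ℂ) := by
        have h5 : (2 * Real.pi * I : ℂ) ≠ 0 := Complex.two_pi_I_ne_zero
        have h6 : (2 * Real.pi * I : ℂ) * (((z : ℝ) / 8 : ℝ) : ℂ) = (2 * Real.pi * I : ℂ) * n := by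
          linear_combination hn
        have h7 := mul_left_cancel₀ h5 h6
        rw [← h7]
        push_cast
        ring
      have h5 : ((z : ℤ) : ℂ) = ((8 * n : ℤ) : ℂ) := by
        push_cast
        push_cast at h4
        linear_combination 8 * h4
      exact hz ⟨n, by exact_mod_cast h5⟩
    rw [geom_sum_eq h2]
    have h3 : e ((z : ℝ) / 8) ^ 8 = 1 := by
      have : e ((z : ℝ) / 8) ^ 8 = e ((z : ℝ) / 8 * (8 : ℕ)) := (e_nat _ _).symm
      rw [this]
      have h4 : ((z : ℝ) / 8 * (8 : ℕ)) = ((z : ℤ) : ℝ) := by push_cast; ring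
      rw [h4, e_int]
    rw [h3, sub_self, zero_div]

/-- the additive characters of `ℤ/8` -/
theorem per8 (F : ℕ → ℂ) (hF : ∀ t, F (t + 8) = F t) (hF1 : ∀ t, ‖F t‖ ≤ 1) :
    ∃ c : ℕ → ℂ, (∀ h, ‖c h‖ ≤ 1) ∧ ∀ t : ℕ, F t = ∑ h ∈ range 8, c h * e ((h : ℝ) / 8 * t) := by
  refine ⟨fun h => 1 / 8 * ∑ x ∈ range 8, F x * e (-((h : ℝ) / 8 * x)), fun h => ?_, fun t => ?_⟩
  · rw [norm_mul]
    have h1 : ‖∑ x ∈ range 8, F x * e (-((h : ℝ) / 8 * x))‖ ≤ 8 := by
      refine (norm_sum_le _ _).trans ?_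
      calc _ ≤ ∑ x ∈ range 8, (1 : ℝ) := by
            refine sum_le_sum fun x _ => ?_
            rw [norm_mul, e_norm, mul_one]
            exact hF1 x
        _ = 8 := by simp
    have h2 : ‖(1 / 8 : ℂ)‖ = 1 / 8 := by norm_num
    rw [h2]
    linarith
  · have hm : F t = F (t % 8) := by
      have : ∀ m r : ℕ, F (r + 8 * m) = F r := by
        intro m r
        induction m with
        | zero => simp
        | succ m ih =>
          have : r + 8 * (m + 1) = (r + 8 * m) + 8 := by ring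
          rw [this, hF, ih]
      conv_lhs => rw [← Nat.mod_add_div t 8]
      exact this _ _
    have h1 : ∑ h ∈ range 8, (1 / 8 * ∑ x ∈ range 8, F x * e (-((h : ℝ) / 8 * x))) *
        e ((h : ℝ) / 8 * t) =
        ∑ x ∈ range 8, F x * (1 / 8 * ∑ h ∈ range 8, e ((((t : ℤ) - x : ℤ) : ℝ) / 8 * h)) := by
      have h2 : ∀ h ∈ range 8, (1 / 8 * ∑ x ∈ range 8, F x * e (-((h : ℝ) / 8 * x))) *
          e ((h : ℝ) / 8 * t) =
          ∑ x ∈ range 8, F x * (1 / 8 * e ((((t : ℤ) - x : ℤ) : ℝ) / 8 * h)) := by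
        intro h _
        rw [mul_sum, sum_mul]
        refine sum_congr rfl fun x _ => ?_
        have : e ((((t : ℤ) - x : ℤ) : ℝ) / 8 * h) = e (-((h : ℝ) / 8 * x)) * e ((h : ℝ) / 8 * t) := by
          rw [← e_add]
          congr 1
          push_cast
          ring
        rw [this]
        ring
      rw [sum_congr rfl h2, sum_comm]
      refine sum_congr rfl fun x _ => ?_
      rw [mul_sum, mul_sum]
    rw [h1, hm]
    rw [sum_eq_single (t % 8)]
    · rw [orth8, if_pos (by omega)]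
      ring
    · intro x hx hne
      rw [mem_range] at hx
      rw [orth8, if_neg (by omega)]
      ring
    · intro h
      exact absurd (mem_range.2 (Nat.mod_lt _ (by norm_num))) h

/-- the inner sums -/
theorem one_bf (k : ℕ) (hk : Odd k) (hsq : Squarefree k) (F : ℕ → ℂ) (hF : ∀ t, F (t + 8) = F t)
    (hF1 : ∀ t, ‖F t‖ ≤ 1) (w : ℕ → ℝ) (W : ℝ) (hw : Monotone w) (hw0 : ∀ n, 0 ≤ w n)
    (hW : ∀ n, w n ≤ W) (x T : ℝ) (N : ℕ) (hN : (N : ℝ) ≤ T) :
    ‖∑ t ∈ range N, (w t : ℂ) * (F t * (((js (t : ℤ) k : ℝ) : ℂ) * e (x * t)))‖ ≤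
      2 * W * ∑ h ∈ range 8, (Af T (x + h / 8) k + Af T (-(x + h / 8)) k) / √k := by
  obtain ⟨c, hc, hFc⟩ := per8 F hF hF1
  have h1 : ∑ t ∈ range N, (w t : ℂ) * (F t * (((js (t : ℤ) k : ℝ) : ℂ) * e (x * t))) =
      ∑ h ∈ range 8, c h * ∑ t ∈ range N, (w t : ℂ) *
        (((js (t : ℤ) k : ℝ) : ℂ) * e ((x + h / 8) * t)) := by
    have h2 : ∀ t ∈ range N, (w t : ℂ) * (F t * (((js (t : ℤ) k : ℝ) : ℂ) * e (x * t))) =
        ∑ h ∈ range 8, c h * ((w t : ℂ) * (((js (t : ℤ) k : ℝ) : ℂ) * e ((x + h / 8) * t))) := by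
      intro t _
      rw [hFc t, sum_mul, mul_sum]
      refine sum_congr rfl fun h _ => ?_
      have : e ((x + h / 8) * t) = e ((h : ℝ) / 8 * t) * e (x * t) := by
        rw [← e_add]
        congr 1
        ring
      rw [this]
      ring
    rw [sum_congr rfl h2, sum_comm]
    refine sum_congr rfl fun h _ => ?_
    rw [mul_sum]
  rw [h1]
  refine (norm_sum_le _ _).trans ?_
  rw [mul_sum]
  refine sum_le_sum fun h _ => ?_
  rw [norm_mul]
  have h2 := mono_abel (fun t => ((js (t : ℤ) k : ℝ) : ℂ) * e ((x + h / 8) * t)) w W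
    ((Af T (x + h / 8) k + Af T (-(x + h / 8)) k) / √k) N hw hw0 hW (fun n hn => by
      exact gauss k hk hsq (x + h / 8) T n ((Nat.cast_le.2 hn).trans hN))
  calc _ ≤ 1 * _ := mul_le_mul (hc h) h2 (norm_nonneg _) zero_le_one
    _ = _ := one_mul _

end

end Pool.Agent.J4.H39.CM
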