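import Pool.Agent.J4.H39.CM.Gs
import Pool.Agent.N879.QM.Avg

set_option autoImplicit false

/-!
Project CM (helper39): sums over the squarefree integers `d` of given classes modulo `8`, coprime to `m`, of
`(d/k) w(d) e(βd)` with a monotone weight.
-/

namespace Pool.Agent.J4.H39.CM

open Complex Finset
open Pool.Agent.H306R2.RZ (js cas Gk)
open Pool.Agent.Y293.SF (mu abs_mu_le mu_zero indic_eq)

noncomputable section

lemma reidx (g N0 : ℕ) (hg : 0 < g) (a : ℕ → ℂ) :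
    ∑ d ∈ (range N0).filter (fun d => g ∣ d), a d = ∑ t ∈ range ⌈(N0 : ℝ) / g⌉₊, a (g * t) := by
  have hgR : (0 : ℝ) < g := by exact_mod_cast hg
  have hlt : ∀ t : ℕ, t < ⌈(N0 : ℝ) / g⌉₊ ↔ g * t < N0 := fun t => by
    rw [Nat.lt_ceil, lt_div_iff₀ hgR, mul_comm]
    exact_mod_cast Iff.rfl
  symm
  refine sum_nbij' (fun t => g * t) (fun d => d / g) ?_ ?_ ?_ ?_ ?_
  · intro t ht
    rw [mem_range, hlt] at ht
    rw [mem_filter, mem_range]
    exact ⟨ht, dvd_mul_right _ _⟩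
  · intro d hd
    rw [mem_filter, mem_range] at hd
    obtain ⟨h1, t, rfl⟩ := hd
    rw [Nat.mul_div_cancel_left _ hg, mem_range, hlt]
    exact h1
  · intro t _
    exact Nat.mul_div_cancel_left _ hg
  · intro d hd
    rw [mem_filter] at hd
    exact Nat.mul_div_cancel' hd.2
  · intro t _
    rfl

lemma js_mul' (a b : ℤ) (n : ℕ) : js (a * b) n = js a n * js b n := by
  unfold js
  rw [jacobiSym.mul_left]
  push_cast
  ring

/-- the bound for the inner sums with phase `x` -/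
def Bb (T x : ℝ) (k : ℕ) : ℝ := ∑ h ∈ range 8, (Af T (x + h / 8) k + Af T (-(x + h / 8)) k) / √k

lemma Bb_nonneg {T : ℝ} (hT : 0 ≤ T) (x : ℝ) (k : ℕ) : 0 ≤ Bb T x k :=
  sum_nonneg fun h _ => div_nonneg (add_nonneg (Af_nonneg hT _ _) (Af_nonneg hT _ _)) (Real.sqrt_nonneg _)

open Classical in
/-- the terms of the inner sum -/
def at' (R : Finset ℕ) (k : ℕ) (w : ℕ → ℝ) (β : ℝ) (d : ℕ) : ℂ :=
  (if d % 8 ∈ R then (1 : ℂ) else 0) * (((js (d : ℤ) k : ℝ) : ℂ) * (((w d : ℝ) : ℂ) * e (β * d)))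

lemma at'_norm (R : Finset ℕ) (k : ℕ) (w : ℕ → ℝ) (W : ℝ) (hw0 : ∀ n, 0 ≤ w n)
    (hW : ∀ n, w n ≤ W) (β : ℝ) (d : ℕ) : ‖at' R k w β d‖ ≤ W := by
  unfold at'
  have hW0 : 0 ≤ W := (hw0 0).trans (hW 0)
  rw [norm_mul, norm_mul, norm_mul, e_norm, mul_one, Complex.norm_real, Complex.norm_real,
    Real.norm_eq_abs, Real.norm_eq_abs, abs_of_nonneg (hw0 d)]
  have h1 : ‖(if d % 8 ∈ R then (1 : ℂ) else 0)‖ ≤ 1 := by split_ifs <;> simp
  calc _ ≤ 1 * (1 * W) := by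
        refine mul_le_mul h1 ?_ (mul_nonneg (abs_nonneg _) (hw0 d)) zero_le_one
        exact mul_le_mul (js_le _ _) (hW d) (hw0 d) zero_le_one
    _ = W := by ring

theorem one_g (R : Finset ℕ) (k : ℕ) (hk : Odd k) (hsq : Squarefree k)
    (w : ℕ → ℝ) (W : ℝ) (hw : Monotone w) (hw0 : ∀ n, 0 ≤ w n) (hW : ∀ n, w n ≤ W) (β T : ℝ)
    (N0 g : ℕ) (hg : 0 < g) (hT : (N0 : ℝ) / g + 1 ≤ T) :
    ‖∑ d ∈ (range N0).filter (fun d => g ∣ d), at' R k w β d‖ ≤ 2 * W * Bb T (β * g) k := by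
  classical
  have hgR : (0 : ℝ) < g := by exact_mod_cast hg
  rw [reidx g N0 hg]
  have hW0 : 0 ≤ W := (hw0 0).trans (hW 0)
  have hq : 0 ≤ (N0 : ℝ) / g := by positivity
  have hT0 : 0 ≤ T := by linarith
  have h1 : ∑ t ∈ range ⌈(N0 : ℝ) / g⌉₊, at' R k w β (g * t) =
      ((js (g : ℤ) k : ℝ) : ℂ) * ∑ t ∈ range ⌈(N0 : ℝ) / g⌉₊, ((w (g * t) : ℝ) : ℂ) *
        ((if (g * t) % 8 ∈ R then (1 : ℂ) else 0) * (((js (t : ℤ) k : ℝ) : ℂ) * e (β * g * t))) := by
    rw [mul_sum]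
    refine sum_congr rfl fun t _ => ?_
    unfold at'
    have h2 : js ((g * t : ℕ) : ℤ) k = js (g : ℤ) k * js (t : ℤ) k := by
      push_cast
      exact js_mul' _ _ _
    have h3 : β * ((g * t : ℕ) : ℝ) = β * g * t := by
      push_cast
      ring
    rw [h2, h3]
    push_cast
    ring
  rw [h1, norm_mul, Complex.norm_real, Real.norm_eq_abs]
  have hN : ((⌈(N0 : ℝ) / g⌉₊ : ℕ) : ℝ) ≤ T := (Nat.ceil_lt_add_one hq).le.trans hT
  have h2 := one_bf k hk hsq (fun t => if (g * t) % 8 ∈ R then (1 : ℂ) else 0)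
    (fun t => by
      have : (g * (t + 8)) % 8 = (g * t) % 8 := by
        rw [mul_add]
        omega
      simp only [this])
    (fun t => by
      show ‖(if (g * t) % 8 ∈ R then (1 : ℂ) else 0)‖ ≤ 1
      split_ifs <;> simp)
    (fun t => w (g * t)) W (fun a b hab => hw (Nat.mul_le_mul_left g hab)) (fun n => hw0 _)
    (fun n => hW _) (β * g) T ⌈(N0 : ℝ) / g⌉₊ hN
  calc _ ≤ 1 * (2 * W * Bb T (β * g) k) := by
        refine mul_le_mul (js_le _ _) h2 (norm_nonneg _) zero_le_one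
    _ = _ := one_mul _

lemma cop_sum (m d : ℕ) (hm : m ≠ 0) :
    (if Nat.Coprime d m then (1 : ℂ) else 0) =
      ∑ f ∈ m.divisors, if f ∣ d then ((mu f : ℝ) : ℂ) else 0 := by
  have hg : Nat.gcd d m ≠ 0 := fun h => hm (Nat.eq_zero_of_gcd_eq_zero_right h)
  have h1 : ∑ f ∈ m.divisors, (if f ∣ d then ((mu f : ℝ) : ℂ) else 0) =
      ∑ f ∈ (Nat.gcd d m).divisors, ((mu f : ℝ) : ℂ) := by
    rw [← sum_filter]
    refine sum_congr ?_ fun _ _ => rfl
    ext f
    simp only [mem_filter, Nat.mem_divisors, Nat.dvd_gcd_iff]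
    constructor
    · rintro ⟨⟨a, b⟩, c⟩
      exact ⟨⟨c, a⟩, hg⟩
    · rintro ⟨⟨c, a⟩, -⟩
      exact ⟨⟨a, hm⟩, c⟩
  have h2 : ∑ f ∈ (Nat.gcd d m).divisors, ArithmeticFunction.moebius f =
      if Nat.gcd d m = 1 then 1 else 0 := by
    have h3 := ArithmeticFunction.coe_zeta_mul_moebius
    have h4 := congrArg (fun F : ArithmeticFunction ℤ => F (Nat.gcd d m)) h3
    simp only [ArithmeticFunction.coe_zeta_mul_apply, ArithmeticFunction.one_apply] at h4
    exact h4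
  rw [h1]
  have h5 : ∑ f ∈ (Nat.gcd d m).divisors, ((mu f : ℝ) : ℂ) =
      ((∑ f ∈ (Nat.gcd d m).divisors, ArithmeticFunction.moebius f : ℤ) : ℂ) := by
    push_cast
    refine sum_congr rfl fun f _ => ?_
    unfold mu
    push_cast
    rfl
  rw [h5, h2]
  unfold Nat.Coprime
  split_ifs <;> simp

lemma sqf_sum (d N0 : ℕ) (hd : d ≠ 0) (hdN : d < N0) :
    (if Squarefree d then (1 : ℂ) else 0) =
      ∑ b ∈ Icc 1 N0, if b ^ 2 ∣ d then ((mu b : ℝ) : ℂ) else 0 := by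
  classical
  have h1 := indic_eq d hd
  have h2 : ∑ b ∈ Icc 1 N0, (if b ^ 2 ∣ d then mu b else 0) =
      ∑ b ∈ Icc 1 d, if b ^ 2 ∣ d then mu b else 0 := by
    symm
    refine sum_subset (fun b hb => ?_) (fun b hb hb2 => ?_)
    · rw [mem_Icc] at hb ⊢
      omega
    · rw [mem_Icc] at hb hb2
      rw [if_neg]
      intro h3
      have h4 := Nat.le_of_dvd (Nat.pos_of_ne_zero hd) h3
      have h5 : b ≤ b ^ 2 := by nlinarith
      exact hb2 ⟨hb.1, h5.trans h4⟩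
  rw [← h2] at h1
  have h3 := congrArg (fun x : ℝ => (x : ℂ)) h1
  push_cast at h3
  have h4 : (if Squarefree d then (1 : ℂ) else 0) = (((if Squarefree d then (1 : ℝ) else 0) : ℝ) : ℂ) := by
    split_ifs <;> simp
  rw [h4, h3]
  refine sum_congr rfl fun b _ => ?_
  split_ifs <;> simp

lemma js_sq_arg (d k m : ℕ) (hk : k ≠ 0) (hm : m ≠ 0) :
    js (d : ℤ) (k * m ^ 2) = (if Nat.Coprime d m then 1 else 0) * js (d : ℤ) k := by
  have : NeZero k := ⟨hk⟩
  have : NeZero m := ⟨hm⟩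
  unfold js
  rw [jacobiSym.mul_right, jacobiSym.pow_right]
  by_cases hc : Nat.Coprime d m
  · rw [if_pos hc]
    have h1 : Int.gcd (d : ℤ) m = 1 := by
      rw [Int.gcd_natCast_natCast]
      exact hc
    rw [jacobiSym.sq_one h1]
    push_cast
    ring
  · rw [if_neg hc]
    have h1 : ¬ Int.gcd (d : ℤ) m = 1 := by
      rw [Int.gcd_natCast_natCast]
      exact hc
    rw [jacobiSym.eq_zero_iff_not_coprime.2 h1]
    push_cast
    ring

open Classical in
theorem inner_bd (R : Finset ℕ) (hR : 0 ∉ R) (k m : ℕ) (hk : Odd k) (hsq : Squarefree k) (hm : m ≠ 0)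
    (w : ℕ → ℝ) (W : ℝ) (hw : Monotone w) (hw0 : ∀ n, 0 ≤ w n) (hW : ∀ n, w n ≤ W) (β X : ℝ)
    (N0 Bd : ℕ) (hN0 : (N0 : ℝ) ≤ X) (hBd : 1 ≤ Bd) :
    ‖∑ d ∈ (range N0).filter (fun d => d % 8 ∈ R ∧ Squarefree d),
      ((js (d : ℤ) (k * m ^ 2) : ℝ) : ℂ) * (((w d : ℝ) : ℂ) * e (β * d))‖ ≤
      W * (2 * X / Bd) + ∑ b ∈ Icc 1 Bd, ∑ f ∈ m.divisors,
        2 * W * Bb (X / (b : ℝ) ^ 2 + 1) (β * (Nat.lcm (b ^ 2) f : ℕ)) k := by
  have hW0 : 0 ≤ W := (hw0 0).trans (hW 0)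
  have hX0 : 0 ≤ X := (Nat.cast_nonneg N0).trans hN0
  have hk0 : k ≠ 0 := hk.pos.ne'
  -- the sum over `b`
  set c : ℕ → ℂ := fun d => (if Nat.Coprime d m then (1 : ℂ) else 0) * at' R k w β d with hc
  have hc0 : c 0 = 0 := by
    rw [hc]
    show (if Nat.Coprime 0 m then (1 : ℂ) else 0) * at' R k w β 0 = 0
    unfold at'
    rw [Nat.zero_mod, if_neg hR]
    ring
  have h1 : ∑ d ∈ (range N0).filter (fun d => d % 8 ∈ R ∧ Squarefree d),
      ((js (d : ℤ) (k * m ^ 2) : ℝ) : ℂ) * (((w d : ℝ) : ℂ) * e (β * d)) =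
      ∑ b ∈ Icc 1 N0, ((mu b : ℝ) : ℂ) * ∑ d ∈ (range N0).filter (fun d => b ^ 2 ∣ d), c d := by
    have h2 : ∀ d ∈ range N0, (if d % 8 ∈ R ∧ Squarefree d then
        ((js (d : ℤ) (k * m ^ 2) : ℝ) : ℂ) * (((w d : ℝ) : ℂ) * e (β * d)) else 0) =
        ∑ b ∈ Icc 1 N0, ((mu b : ℝ) : ℂ) * (if b ^ 2 ∣ d then c d else 0) := by
      intro d hd
      rw [mem_range] at hd
      by_cases hd0 : d = 0
      · subst hd0
        rw [if_neg (by rw [Nat.zero_mod]; tauto)]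
        symm
        refine sum_eq_zero fun b _ => ?_
        rw [hc0]
        simp
      · have h3 : (if d % 8 ∈ R ∧ Squarefree d then
            ((js (d : ℤ) (k * m ^ 2) : ℝ) : ℂ) * (((w d : ℝ) : ℂ) * e (β * d)) else 0) =
            (if Squarefree d then (1 : ℂ) else 0) * c d := by
          rw [hc]
          show _ = (if Squarefree d then (1 : ℂ) else 0) *
            ((if Nat.Coprime d m then (1 : ℂ) else 0) * at' R k w β d)
          unfold at'
          rw [js_sq_arg d k m hk0 hm]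
          by_cases a3 : Nat.Coprime d m
          · simp only [if_pos a3]
            by_cases a1 : Squarefree d <;> by_cases a2 : d % 8 ∈ R <;> simp [a1, a2]
          · simp only [if_neg a3]
            simp
        rw [h3, sqf_sum d N0 hd0 hd, sum_mul]
        refine sum_congr rfl fun b _ => ?_
        split_ifs <;> ring
    rw [sum_filter, sum_congr rfl h2, sum_comm]
    refine sum_congr rfl fun b _ => ?_
    rw [sum_filter, mul_sum]
  rw [h1]
  -- small `b`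
  have hsm : ∀ b : ℕ, 1 ≤ b → ‖((mu b : ℝ) : ℂ) *
      ∑ d ∈ (range N0).filter (fun d => b ^ 2 ∣ d), c d‖ ≤
      ∑ f ∈ m.divisors, 2 * W * Bb (X / (b : ℝ) ^ 2 + 1) (β * (Nat.lcm (b ^ 2) f : ℕ)) k := by
    intro b hb
    have h2 : ∑ d ∈ (range N0).filter (fun d => b ^ 2 ∣ d), c d =
        ∑ f ∈ m.divisors, ((mu f : ℝ) : ℂ) *
          ∑ d ∈ (range N0).filter (fun d => Nat.lcm (b ^ 2) f ∣ d), at' R k w β d := by
      have h3 : ∀ d ∈ range N0, (if b ^ 2 ∣ d then c d else 0) =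
          ∑ f ∈ m.divisors, ((mu f : ℝ) : ℂ) *
            (if Nat.lcm (b ^ 2) f ∣ d then at' R k w β d else 0) := by
        intro d _
        by_cases hbd : b ^ 2 ∣ d
        · rw [if_pos hbd]
          show (if Nat.Coprime d m then (1 : ℂ) else 0) * at' R k w β d = _
          rw [cop_sum m d hm, sum_mul]
          refine sum_congr rfl fun f _ => ?_
          by_cases hf : f ∣ d
          · rw [if_pos hf, if_pos (Nat.lcm_dvd hbd hf)]
          · rw [if_neg hf, if_neg (fun h => hf ((Nat.dvd_lcm_right _ _).trans h))]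
            ring
        · rw [if_neg hbd]
          symm
          refine sum_eq_zero fun f _ => ?_
          rw [if_neg (fun h => hbd ((Nat.dvd_lcm_left _ _).trans h)), mul_zero]
      rw [sum_filter, sum_congr rfl h3, sum_comm]
      refine sum_congr rfl fun f _ => ?_
      rw [sum_filter, mul_sum]
    rw [norm_mul, Complex.norm_real, Real.norm_eq_abs, h2]
    calc _ ≤ 1 * ∑ f ∈ m.divisors, 2 * W * Bb (X / (b : ℝ) ^ 2 + 1)
          (β * (Nat.lcm (b ^ 2) f : ℕ)) k := by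
          refine mul_le_mul (abs_mu_le b) ?_ (norm_nonneg _) zero_le_one
          refine (norm_sum_le _ _).trans (sum_le_sum fun f hf => ?_)
          rw [norm_mul, Complex.norm_real, Real.norm_eq_abs]
          have hf0 : f ≠ 0 := (Nat.pos_of_mem_divisors hf).ne'
          have hg : 0 < Nat.lcm (b ^ 2) f := Nat.lcm_pos (by positivity) (Nat.pos_of_ne_zero hf0)
          have hgb : b ^ 2 ≤ Nat.lcm (b ^ 2) f := Nat.le_of_dvd hg (Nat.dvd_lcm_left _ _)
          have hb2 : (0 : ℝ) < (b : ℝ) ^ 2 := by positivity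
          have h3 : (N0 : ℝ) / (Nat.lcm (b ^ 2) f : ℕ) + 1 ≤ X / (b : ℝ) ^ 2 + 1 := by
            have h4 : ((b : ℝ)) ^ 2 ≤ ((Nat.lcm (b ^ 2) f : ℕ) : ℝ) := by exact_mod_cast hgb
            have h5 : (N0 : ℝ) / (Nat.lcm (b ^ 2) f : ℕ) ≤ X / (b : ℝ) ^ 2 :=
              div_le_div₀ hX0 hN0 hb2 h4
            linarith
          calc _ ≤ 1 * (2 * W * Bb (X / (b : ℝ) ^ 2 + 1) (β * (Nat.lcm (b ^ 2) f : ℕ)) k) := by
                refine mul_le_mul (abs_mu_le f) ?_ (norm_nonneg _) zero_le_one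
                exact one_g R k hk hsq w W hw hw0 hW β _ N0 _ hg h3
            _ = _ := one_mul _
      _ = _ := one_mul _
  -- large `b`
  have hlg : ∀ b : ℕ, 1 ≤ b → ‖((mu b : ℝ) : ℂ) *
      ∑ d ∈ (range N0).filter (fun d => b ^ 2 ∣ d), c d‖ ≤ W * (X * ((b : ℝ) ^ 2)⁻¹) := by
    intro b hb
    have hb2 : (0 : ℝ) < (b : ℝ) ^ 2 := by positivity
    rw [norm_mul, Complex.norm_real, Real.norm_eq_abs]
    have h2 : ‖∑ d ∈ (range N0).filter (fun d => b ^ 2 ∣ d), c d‖ ≤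
        W * ((((Icc 1 (N0 / b ^ 2)).card : ℕ) : ℝ)) := by
      have h3 : ∑ d ∈ (range N0).filter (fun d => b ^ 2 ∣ d), c d =
          ∑ d ∈ ((range N0).filter (fun d => b ^ 2 ∣ d)).erase 0, c d := by
        by_cases hz : 0 ∈ (range N0).filter (fun d => b ^ 2 ∣ d)
        · rw [← add_sum_erase _ _ hz, hc0, zero_add]
        · rw [erase_eq_of_notMem hz]
      rw [h3]
      refine (norm_sum_le _ _).trans ?_
      have h4 : ∀ d ∈ ((range N0).filter (fun d => b ^ 2 ∣ d)).erase 0, ‖c d‖ ≤ W := by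
        intro d _
        show ‖(if Nat.Coprime d m then (1 : ℂ) else 0) * at' R k w β d‖ ≤ W
        rw [norm_mul]
        have h5 : ‖(if Nat.Coprime d m then (1 : ℂ) else 0)‖ ≤ 1 := by split_ifs <;> simp
        calc _ ≤ 1 * W := mul_le_mul h5 (at'_norm R k w W hw0 hW β d) (norm_nonneg _) zero_le_one
          _ = W := one_mul _
      refine (sum_le_card_nsmul _ _ _ h4).trans ?_
      rw [nsmul_eq_mul, mul_comm]
      refine mul_le_mul_of_nonneg_left ?_ hW0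
      have h5 : (((range N0).filter (fun d => b ^ 2 ∣ d)).erase 0).card ≤
          (Icc 1 (N0 / b ^ 2)).card := by
        refine card_le_card_of_injOn (fun d => d / b ^ 2) ?_ ?_
        · intro d hd
          rw [mem_coe, mem_erase, mem_filter, mem_range] at hd
          obtain ⟨hd0, hdN, t, rfl⟩ := hd
          have hbp : 0 < b ^ 2 := by positivity
          rw [mem_coe, mem_Icc]
          show 1 ≤ b ^ 2 * t / b ^ 2 ∧ b ^ 2 * t / b ^ 2 ≤ N0 / b ^ 2
          rw [Nat.mul_div_cancel_left _ hbp]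
          refine ⟨Nat.pos_of_ne_zero (by rintro rfl; exact hd0 (by ring)), ?_⟩
          rw [Nat.le_div_iff_mul_le hbp, mul_comm]
          exact hdN.le
        · intro d hd d' hd' hdd
          rw [mem_coe, mem_erase, mem_filter, mem_range] at hd hd'
          obtain ⟨-, -, t, rfl⟩ := hd
          obtain ⟨-, -, t', rfl⟩ := hd'
          have hbp : 0 < b ^ 2 := by positivity
          simp only [Nat.mul_div_cancel_left _ hbp] at hdd
          rw [hdd]
      exact_mod_cast h5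
    have h3 : (((Icc 1 (N0 / b ^ 2)).card : ℕ) : ℝ) ≤ X * ((b : ℝ) ^ 2)⁻¹ := by
      rw [Nat.card_Icc, Nat.add_sub_cancel, ← div_eq_mul_inv]
      have h4 : ((N0 / b ^ 2 : ℕ) : ℝ) ≤ (N0 : ℝ) / ((b ^ 2 : ℕ) : ℝ) := Nat.cast_div_le
      refine h4.trans ?_
      push_cast
      exact div_le_div_of_nonneg_right hN0 hb2.le
    calc _ ≤ 1 * (W * (X * ((b : ℝ) ^ 2)⁻¹)) := by
          refine mul_le_mul (abs_mu_le b) ?_ (norm_nonneg _) zero_le_one
          exact h2.trans (mul_le_mul_of_nonneg_left h3 hW0)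
      _ = _ := one_mul _
  -- conclusion
  set F : ℕ → ℝ := fun b => ‖((mu b : ℝ) : ℂ) * ∑ d ∈ (range N0).filter (fun d => b ^ 2 ∣ d), c d‖ with hF
  have hsplit : Icc 1 N0 ⊆ Icc 1 Bd ∪ Ioo Bd (N0 + 1) := by
    intro a ha
    rw [mem_Icc] at ha
    rw [mem_union, mem_Icc, mem_Ioo]
    omega
  have hdis : Disjoint (Icc 1 Bd) (Ioo Bd (N0 + 1)) := by
    rw [disjoint_left]
    intro a ha hb
    rw [mem_Icc] at ha
    rw [mem_Ioo] at hb
    omega
  calc ‖∑ b ∈ Icc 1 N0, ((mu b : ℝ) : ℂ) * ∑ d ∈ (range N0).filter (fun d => b ^ 2 ∣ d), c d‖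
      ≤ ∑ b ∈ Icc 1 N0, F b := norm_sum_le _ _
    _ ≤ ∑ b ∈ Icc 1 Bd ∪ Ioo Bd (N0 + 1), F b :=
        sum_le_sum_of_subset_of_nonneg hsplit fun _ _ _ => norm_nonneg _
    _ = ∑ b ∈ Icc 1 Bd, F b + ∑ b ∈ Ioo Bd (N0 + 1), F b := sum_union hdis
    _ ≤ (∑ b ∈ Icc 1 Bd, ∑ f ∈ m.divisors,
          2 * W * Bb (X / (b : ℝ) ^ 2 + 1) (β * (Nat.lcm (b ^ 2) f : ℕ)) k) +
        ∑ b ∈ Ioo Bd (N0 + 1), W * (X * ((b : ℝ) ^ 2)⁻¹) := by
        refine add_le_add (sum_le_sum fun b hb => hsm b (mem_Icc.1 hb).1)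
          (sum_le_sum fun b hb => hlg b ?_)
        rw [mem_Ioo] at hb
        omega
    _ ≤ _ := by
        rw [add_comm]
        refine add_le_add ?_ le_rfl
        rw [← mul_sum, ← mul_sum]
        refine mul_le_mul_of_nonneg_left ?_ hW0
        have h4 := sum_Ioo_inv_sq_le (α := ℝ) Bd (N0 + 1)
        have hBdR : (0 : ℝ) < Bd := by exact_mod_cast hBd
        calc X * ∑ a ∈ Ioo Bd (N0 + 1), ((a : ℝ) ^ 2)⁻¹ ≤ X * (2 / (Bd + 1)) :=
              mul_le_mul_of_nonneg_left h4 hX0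
          _ ≤ X * (2 / Bd) := by
              refine mul_le_mul_of_nonneg_left ?_ hX0
              exact div_le_div_of_nonneg_left (by norm_num) hBdR (by linarith)
          _ = 2 * X / Bd := by ring

end

end Pool.Agent.J4.H39.CM
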