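import Pool.Agent.J4.H39.CM.Def4
import Pool.Agent.J4.H39.CM.Gs
import Pool.Agent.J4.H39.CM.Inn

set_option autoImplicit false
set_option linter.unusedVariables false

/-!
Project CM (helper39), piece BF (b): the product of the local correlations at the odd primes is
bounded below.
-/

namespace Pool.Agent.J4.H39.CM

open Complex Finset Filter Topology
open Pool.Agent.N879.QM
open Pool.Agent.N879.QM.Avg (fam)
open Pool.Agent.H306R2.RZ (js)

noncomputable section

namespace BF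

/-! ### Sums of periodic functions -/

lemma shift {M : ℕ} {f : ℕ → ℝ} (hf : ∀ q, f (q + M) = f q) (h : ℕ) :
    ∑ a ∈ range M, f (a + h) = ∑ a ∈ range M, f a := by
  induction h with
  | zero => simp
  | succ h ih =>
    rw [← ih]
    have h1 := Finset.sum_range_succ (fun a => f (a + h)) M
    have h2 := Finset.sum_range_succ' (fun a => f (a + h)) M
    rw [h1] at h2
    have h3 : f (M + h) = f (0 + h) := by
      rw [zero_add, add_comm]
      exact hf h
    simp only [h3] at h2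
    have h4 := add_right_cancel h2
    rw [h4]
    refine sum_congr rfl fun a _ => ?_
    congr 1
    ring

lemma block {p : ℕ} {f : ℕ → ℝ} (hf : ∀ q, f (q + p) = f q) (n : ℕ) :
    ∑ a ∈ range (n * p), f a = n * ∑ a ∈ range p, f a := by
  induction n with
  | zero => simp
  | succ n ih =>
    rw [Nat.succ_mul, Finset.sum_range_add, ih]
    have h1 : ∀ x, f (n * p + x) = f x := by
      intro x
      clear ih
      induction n with
      | zero => simp
      | succ n ih2 =>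
        rw [← ih2, ← hf (n * p + x)]
        congr 1
        ring
    rw [sum_congr rfl fun x _ => h1 x]
    push_cast
    ring

lemma zmod {p : ℕ} [NeZero p] (g : ZMod p → ℝ) :
    ∑ a ∈ range p, g (a : ZMod p) = ∑ x : ZMod p, g x := by
  refine Finset.sum_bij' (fun a _ => (a : ZMod p)) (fun x _ => x.val) ?_ ?_ ?_ ?_ ?_
  · intro a _
    exact mem_univ _
  · intro x _
    exact mem_range.2 (ZMod.val_lt x)
  · intro a ha
    exact ZMod.val_cast_of_lt (mem_range.1 ha)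
  · intro x _
    exact ZMod.natCast_zmod_val x
  · intro a _
    rfl

/-! ### The quadratic character -/

section chi

variable {p : ℕ} [hp : Fact p.Prime]

lemma js_chi (a : ℕ) : js (a : ℤ) p = ((quadraticChar (ZMod p) (a : ZMod p) : ℤ) : ℝ) := by
  unfold js
  rw [← jacobiSym.legendreSym.to_jacobiSym]
  unfold legendreSym
  push_cast
  rfl

lemma chi_sum (ho : Odd p) (c d : ZMod p) (hc : c ≠ 0) :
    ∑ x : ZMod p, quadraticChar (ZMod p) (d + c * x) = 0 := by
  have h2 : ringChar (ZMod p) ≠ 2 := by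
    rw [ZMod.ringChar_zmod_n]
    rintro rfl
    exact absurd ho (by decide)
  rw [← quadraticChar_sum_zero h2]
  exact Fintype.sum_equiv ((Equiv.mulLeft₀ c hc).trans (Equiv.addLeft d)) _ _ fun x => rfl

lemma chi_cor (ho : Odd p) (c : ZMod p) :
    -1 ≤ ∑ x : ZMod p, quadraticChar (ZMod p) x * quadraticChar (ZMod p) (x + c) := by
  by_cases hc : c = 0
  · subst hc
    refine le_trans (by norm_num) (Finset.sum_nonneg fun x _ => ?_)
    rw [add_zero]
    exact mul_self_nonneg _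
  · have h1 : ∀ x : ZMod p, quadraticChar (ZMod p) x * quadraticChar (ZMod p) (x + c) =
        quadraticChar (ZMod p) (1 + c * x⁻¹) - if x = 0 then 1 else 0 := by
      intro x
      by_cases hx : x = 0
      · subst hx
        simp
      · rw [if_neg hx, sub_zero]
        have h2 : x + c = x * (1 + c * x⁻¹) := by
          field_simp
        rw [h2, map_mul, ← mul_assoc, ← pow_two, quadraticChar_sq_one hx, one_mul]
    rw [Finset.sum_congr rfl fun x _ => h1 x, Finset.sum_sub_distrib,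
      Finset.sum_ite_eq' Finset.univ (0 : ZMod p) (fun _ => (1 : ℤ)), if_pos (mem_univ _)]
    have h3 : ∑ x : ZMod p, quadraticChar (ZMod p) (1 + c * x⁻¹) =
        ∑ x : ZMod p, quadraticChar (ZMod p) (1 + c * x) :=
      Fintype.sum_equiv (Equiv.inv (ZMod p)) _ _ fun x => rfl
    rw [h3, chi_sum ho c 1 hc]
    norm_num

lemma js_per (q : ℕ) : js ((q + p : ℕ) : ℤ) p = js (q : ℤ) p := by
  rw [js_chi, js_chi]
  simp

lemma js_sum (ho : Odd p) (h : ℕ) : ∑ a ∈ range (p * p), js ((a + h : ℕ) : ℤ) p = 0 := by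
  rw [block (f := fun a => js ((a + h : ℕ) : ℤ) p) (fun q => by
    have : q + p + h = q + h + p := by ring
    rw [this, js_per])]
  rw [shift (f := fun a => js ((a : ℕ) : ℤ) p) (fun q => js_per q) h]
  rw [Finset.sum_congr rfl fun a _ => js_chi a,
    zmod (fun x => ((quadraticChar (ZMod p) x : ℤ) : ℝ))]
  have h1 := chi_sum ho 1 0 one_ne_zero
  simp only [zero_add, one_mul] at h1
  have h2 : ∑ x : ZMod p, ((quadraticChar (ZMod p) x : ℤ) : ℝ) = 0 := by exact_mod_cast h1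
  rw [h2, mul_zero]

lemma js_cor (ho : Odd p) (h : ℕ) :
    -(p : ℝ) ≤ ∑ a ∈ range (p * p), js (a : ℤ) p * js ((a + h : ℕ) : ℤ) p := by
  rw [block (f := fun a => js (a : ℤ) p * js ((a + h : ℕ) : ℤ) p) (fun q => by
    have : q + p + h = q + h + p := by ring
    rw [this, js_per, js_per])]
  have h1 : ∀ a ∈ range p, js (a : ℤ) p * js ((a + h : ℕ) : ℤ) p =
      ((quadraticChar (ZMod p) (a : ZMod p) * quadraticChar (ZMod p) ((a : ZMod p) + (h : ZMod p)) :
        ℤ) : ℝ) := by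
    intro a _
    rw [js_chi, js_chi]
    push_cast
    rfl
  rw [Finset.sum_congr rfl h1, zmod (fun x => ((quadraticChar (ZMod p) x *
    quadraticChar (ZMod p) (x + (h : ZMod p)) : ℤ) : ℝ))]
  have h2 := chi_cor ho (h : ZMod p)
  have h3 : (-1 : ℝ) ≤ ∑ x : ZMod p, ((quadraticChar (ZMod p) x *
      quadraticChar (ZMod p) (x + (h : ZMod p)) : ℤ) : ℝ) := by exact_mod_cast h2
  have hp0 : (0 : ℝ) ≤ p := Nat.cast_nonneg p
  nlinarith

end chi

/-! ### Divisibility -/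

lemma dvd_sum {M : ℕ} (hM : 1 ≤ M) (h : ℕ) :
    ∑ a ∈ range M, (if M ∣ a + h then (1 : ℝ) else 0) = 1 := by
  rw [shift (f := fun a => if M ∣ a then (1 : ℝ) else 0) (fun q => by
    simp only [Nat.dvd_add_self_right]) h]
  rw [sum_eq_single 0]
  · simp
  · intro a ha h0
    rw [if_neg]
    intro h
    have := Nat.le_of_dvd (by omega) h
    rw [mem_range] at ha
    omega
  · intro h
    exact absurd (mem_range.2 (by omega)) h

/-- the defect -/
def u (p q : ℕ) : ℝ := (1 / (p : ℝ)) * (if p ∣ q then 1 else 0) +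
  (1 - 1 / (p : ℝ)) * (if p ^ 2 ∣ q then 1 else 0)

lemma inv_le {p : ℕ} (hp : 1 ≤ p) : 0 ≤ 1 / (p : ℝ) ∧ 1 / (p : ℝ) ≤ 1 := by
  have hp1 : (1 : ℝ) ≤ p := by exact_mod_cast hp
  refine ⟨by positivity, ?_⟩
  rw [div_le_one (by linarith)]
  exact hp1

lemma u_nonneg {p : ℕ} (hp : 1 ≤ p) (q : ℕ) : 0 ≤ u p q := by
  obtain ⟨h1, h2⟩ := inv_le hp
  unfold u
  have h3 : (0 : ℝ) ≤ if p ∣ q then 1 else 0 := by split_ifs <;> norm_num
  have h4 : (0 : ℝ) ≤ if p ^ 2 ∣ q then 1 else 0 := by split_ifs <;> norm_num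
  have h5 : 0 ≤ 1 - 1 / (p : ℝ) := by linarith
  positivity

lemma u_sum {p : ℕ} (hp : 1 ≤ p) (h : ℕ) : ∑ a ∈ range (p * p), u p (a + h) ≤ 2 := by
  obtain ⟨h1, h2⟩ := inv_le hp
  have hp0 : (p : ℝ) ≠ 0 := by exact_mod_cast (by omega : p ≠ 0)
  have e1 : ∑ a ∈ range (p * p), (if p ∣ a + h then (1 : ℝ) else 0) = p := by
    rw [block (f := fun a => if p ∣ a + h then (1 : ℝ) else 0) (fun q => by
      have : q + p + h = q + h + p := by ring
      simp only [this, Nat.dvd_add_self_right])]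
    rw [dvd_sum hp h, mul_one]
  have e2 : ∑ a ∈ range (p * p), (if p ^ 2 ∣ a + h then (1 : ℝ) else 0) = 1 := by
    rw [← pow_two]
    exact dvd_sum (Nat.one_le_pow _ _ hp) h
  unfold u
  rw [sum_add_distrib, ← Finset.mul_sum, ← Finset.mul_sum, e1, e2, one_div, inv_mul_cancel₀ hp0]
  rw [one_div] at h1
  linarith

lemma js0 {p q : ℕ} (hp : p.Prime) (h : p ∣ q) : js (q : ℤ) p = 0 := by
  refine js_cop hp.ne_zero ?_
  intro h1
  have h2 : (p : ℤ) ∣ Int.gcd (q : ℤ) p :=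
    Int.dvd_coe_gcd (by exact_mod_cast h) (dvd_refl _)
  rw [h1] at h2
  have h3 : p ∣ 1 := by exact_mod_cast h2
  exact hp.one_lt.ne' (Nat.dvd_one.1 h3)

/-- the coefficient of the character -/
def kp (s : ℤ) (p : ℕ) : ℝ := js s p / √p

lemma fp_eq (s : ℤ) {p : ℕ} (hp : p.Prime) (q : ℕ) :
    Fp s p q = 1 + kp s p * js (q : ℤ) p - u p q := by
  unfold Fp u kp
  by_cases h2 : p ^ 2 ∣ q
  · have h1 : p ∣ q := (dvd_pow_self p two_ne_zero).trans h2
    rw [if_pos h2, if_pos h1, if_pos h1, if_pos h2, js0 hp h1]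
    ring
  · by_cases h1 : p ∣ q
    · rw [if_neg h2, if_pos h1, if_pos h1, if_neg h2, js_mul', js0 hp h1]
      ring
    · rw [if_neg h2, if_neg h1, if_neg h1, if_neg h2, js_mul']
      ring

lemma kp_abs (s : ℤ) {p : ℕ} (hp : 3 ≤ p) : |kp s p| ≤ 3 / 5 := by
  have hp3 : (3 : ℝ) ≤ p := by exact_mod_cast hp
  have h1 : (5 / 3 : ℝ) ≤ √p := by
    rw [show (5 / 3 : ℝ) = √((5 / 3) ^ 2) by rw [Real.sqrt_sq (by norm_num)]]
    exact Real.sqrt_le_sqrt (by norm_num; linarith)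
  have h0 : 0 < √(p : ℝ) := by linarith
  unfold kp
  rw [abs_div, abs_of_pos h0, div_le_iff₀ h0]
  have := js_le s p
  nlinarith

lemma kp_sq (s : ℤ) {p : ℕ} (hp : 1 ≤ p) : kp s p ^ 2 ≤ 1 / p := by
  have hp1 : (1 : ℝ) ≤ p := by exact_mod_cast hp
  unfold kp
  rw [div_pow, Real.sq_sqrt (by linarith)]
  refine div_le_div_of_nonneg_right ?_ (by linarith)
  have := js_le s p
  rw [← sq_abs]
  nlinarith [abs_nonneg (js s p)]

lemma kj (s : ℤ) {p : ℕ} (hp : 3 ≤ p) (q : ℕ) : |kp s p * js (q : ℤ) p| ≤ 3 / 5 := by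
  rw [abs_mul]
  have h1 := kp_abs s hp
  have h2 := js_le (q : ℤ) p
  nlinarith [abs_nonneg (kp s p), abs_nonneg (js (q : ℤ) p)]

/-- a lower bound for large primes -/
lemma large (s : ℤ) {p : ℕ} (hp : p.Prime) (ho : Odd p) (h : ℕ) :
    1 - 9 / (p : ℝ) ^ 2 ≤ CG (p ^ 2) (Fp s p) h := by
  have : Fact p.Prime := ⟨hp⟩
  have hp3 : 3 ≤ p := by
    have := hp.two_le
    rcases ho with ⟨k, hk⟩
    omega
  have hp1 : 1 ≤ p := hp.one_le
  have hpr : (0 : ℝ) < p := by exact_mod_cast hp.pos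
  have h1 : ∀ a ∈ range (p * p), 1 + kp s p * js (a : ℤ) p + kp s p * js ((a + h : ℕ) : ℤ) p +
      kp s p ^ 2 * (js (a : ℤ) p * js ((a + h : ℕ) : ℤ) p) - 2 * u p (a + 0) - 2 * u p (a + h) ≤
      Fp s p a * Fp s p (a + h) := by
    intro a _
    rw [fp_eq s hp, fp_eq s hp, add_zero]
    have u1 := u_nonneg hp1 a
    have u2 := u_nonneg hp1 (a + h)
    have k1 := abs_le.1 (kj s hp3 a)
    have k2 := abs_le.1 (kj s hp3 (a + h))
    nlinarith [mul_nonneg u1 u2, mul_nonneg u1 (by linarith [k2.2] :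
      (0 : ℝ) ≤ 1 - kp s p * js ((a + h : ℕ) : ℤ) p), mul_nonneg u2 (by linarith [k1.2] :
      (0 : ℝ) ≤ 1 - kp s p * js (a : ℤ) p)]
  have h2 := Finset.sum_le_sum h1
  have e1 : ∑ a ∈ range (p * p), js (a : ℤ) p = 0 := js_sum ho 0
  have e2 := js_sum (p := p) ho h
  have e3 := js_cor (p := p) ho h
  have e4 := u_sum hp1 0
  have e5 := u_sum hp1 h
  have k0 := kp_sq s hp1
  simp only [sum_sub_distrib, sum_add_distrib, ← Finset.mul_sum, e1, e2, mul_zero, add_zero,
    sum_const, card_range, nsmul_eq_mul, mul_one] at h2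
  unfold CG
  rw [pow_two p, le_div_iff₀ (by positivity)]
  push_cast at h2 ⊢
  have h3 : (1 - 9 / (p : ℝ) ^ 2) * ((p : ℝ) * p) = p * p - 9 := by
    field_simp
  rw [h3]
  refine le_trans ?_ h2
  simp only [add_zero] at e4
  have h4 : -1 ≤ kp s p ^ 2 * ∑ a ∈ range (p * p), js (a : ℤ) p * js ((a + h : ℕ) : ℤ) p := by
    have h5 : kp s p ^ 2 * -(p : ℝ) ≤
        kp s p ^ 2 * ∑ a ∈ range (p * p), js (a : ℤ) p * js ((a + h : ℕ) : ℤ) p :=
      mul_le_mul_of_nonneg_left e3 (sq_nonneg _)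
    have h6 : kp s p ^ 2 * (p : ℝ) ≤ 1 := by
      calc kp s p ^ 2 * (p : ℝ) ≤ 1 / p * p := mul_le_mul_of_nonneg_right k0 hpr.le
        _ = 1 := by field_simp
    linarith
  push_cast at h4
  linarith

/-- a lower bound for all primes -/
lemma small (s : ℤ) {p : ℕ} (hp : p.Prime) (ho : Odd p) (h : ℕ) :
    (4 / 25) / (p : ℝ) ^ 2 ≤ CG (p ^ 2) (Fp s p) h := by
  have hp3 : 3 ≤ p := by
    have := hp.two_le
    rcases ho with ⟨k, hk⟩
    omega
  have hpr : (3 : ℝ) ≤ p := by exact_mod_cast hp3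
  have h9 : 9 ≤ p ^ 2 := by nlinarith
  have hge : ∀ q : ℕ, ¬ p ^ 2 ∣ q → 2 / 5 ≤ Fp s p q := by
    intro q hq
    rw [fp_eq s hp]
    unfold u
    rw [if_neg hq, mul_zero, add_zero]
    by_cases h1 : p ∣ q
    · rw [js0 hp h1, if_pos h1]
      have : 1 / (p : ℝ) ≤ 1 / 3 := one_div_le_one_div_of_le (by norm_num) hpr
      linarith
    · rw [if_neg h1]
      have := (abs_le.1 (kj s hp3 q)).1
      linarith
  have hnn : ∀ q : ℕ, 0 ≤ Fp s p q := by
    intro q
    by_cases hq : p ^ 2 ∣ q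
    · unfold Fp
      rw [if_pos hq]
      simp
    · linarith [hge q hq]
  obtain ⟨a, ha, h1, h2⟩ : ∃ a, a < p ^ 2 ∧ ¬ p ^ 2 ∣ a ∧ ¬ p ^ 2 ∣ a + h := by
    by_cases h1 : p ^ 2 ∣ 1 + h
    · refine ⟨2, by omega, fun h2 => ?_, fun h2 => ?_⟩
      · have := Nat.le_of_dvd (by norm_num) h2
        omega
      · have h3 : p ^ 2 ∣ 1 := by
          have h4 := Nat.dvd_sub h2 h1
          have h5 : 2 + h - (1 + h) = 1 := by omega
          rwa [h5] at h4
        have := Nat.le_of_dvd (by norm_num) h3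
        omega
    · refine ⟨1, by omega, fun h2 => ?_, h1⟩
      have := Nat.le_of_dvd (by norm_num) h2
      omega
  unfold CG
  push_cast
  refine div_le_div_of_nonneg_right ?_ (by positivity)
  have h3 := Finset.single_le_sum (f := fun a : ℕ => Fp s p a * Fp s p (a + h))
    (fun b _ => mul_nonneg (hnn b) (hnn (b + h))) (mem_range.2 ha)
  refine le_trans ?_ h3
  have h4 := mul_le_mul (hge a h1) (hge (a + h) h2) (by norm_num) (hnn a)
  linarith

/-- the bounds -/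
def bb (n : ℕ) : ℝ := if n = 3 then 4 / 225 else 1 - 9 / (n : ℝ) ^ 2

lemma bb_mem {n : ℕ} (hn : 3 ≤ n) : 0 ≤ bb n ∧ bb n ≤ 1 := by
  unfold bb
  by_cases h : n = 3
  · rw [if_pos h]
    norm_num
  · rw [if_neg h]
    have h4 : (4 : ℝ) ≤ n := by exact_mod_cast (by omega : 4 ≤ n)
    have h5 : 9 / (n : ℝ) ^ 2 ≤ 1 := by
      rw [div_le_one (by positivity)]
      nlinarith
    have h6 : 0 ≤ 9 / (n : ℝ) ^ 2 := by positivity
    constructor <;> linarith

lemma tele (N : ℕ) : 4 / 225 * (((N : ℝ) + 6) * (N + 5) * (N + 4) / (20 * ((N + 3) * (N + 2) * (N + 1)))) =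
    ∏ n ∈ Icc 3 (N + 3), bb n := by
  induction N with
  | zero =>
    simp [bb]
    norm_num
  | succ N ih =>
    have h0 : N + 1 + 3 = (N + 3) + 1 := by ring
    rw [h0, Finset.prod_Icc_succ_top (by omega), ← ih]
    unfold bb
    rw [if_neg (by omega)]
    have hN : (0 : ℝ) ≤ N := Nat.cast_nonneg N
    push_cast
    field_simp
    ring

lemma prod_low (S : Finset ℕ) (hS : ∀ n ∈ S, 3 ≤ n) : 1 / 1125 ≤ ∏ n ∈ S, bb n := by
  obtain ⟨N, hN⟩ : ∃ N, S ⊆ Icc 3 (N + 3) := by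
    refine ⟨S.sup id, fun n hn => ?_⟩
    rw [mem_Icc]
    have : n ≤ S.sup id := Finset.le_sup (f := id) hn
    exact ⟨hS n hn, by omega⟩
  have h1 : ∏ n ∈ Icc 3 (N + 3), bb n ≤ ∏ n ∈ S, bb n := by
    rw [← Finset.prod_sdiff hN]
    have h2 : ∏ n ∈ Icc 3 (N + 3) \ S, bb n ≤ 1 := by
      refine Finset.prod_le_one (fun n hn => ?_) fun n hn => ?_
      · exact (bb_mem (mem_Icc.1 (mem_sdiff.1 hn).1).1).1
      · exact (bb_mem (mem_Icc.1 (mem_sdiff.1 hn).1).1).2
    have h3 : 0 ≤ ∏ n ∈ S, bb n := Finset.prod_nonneg fun n hn => (bb_mem (hS n hn)).1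
    nlinarith
  refine le_trans ?_ h1
  rw [← tele]
  have hN : (0 : ℝ) ≤ N := Nat.cast_nonneg N
  have h4 : (1 / 20 : ℝ) ≤
      ((N : ℝ) + 6) * (N + 5) * (N + 4) / (20 * ((N + 3) * (N + 2) * (N + 1))) := by
    rw [div_le_div_iff₀ (by norm_num) (by positivity)]
    nlinarith [mul_nonneg hN hN, mul_nonneg (mul_nonneg hN hN) hN]
  linarith

end BF

open BF in
theorem cp_low (s : ℤ) (hs : s = 1 ∨ s = -1) : ∃ c : ℝ, 0 < c ∧ ∀ P h : ℕ, Odd P → Squarefree P →
    c ≤ ∏ p ∈ P.primeFactors, CG (p ^ 2) (Fp s p) h := by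
  refine ⟨1 / 1125, by norm_num, fun P h hP _ => ?_⟩
  have hodd : ∀ p ∈ P.primeFactors, Odd p := fun p hp =>
    hP.of_dvd_nat (Nat.dvd_of_mem_primeFactors hp)
  have h3 : ∀ p ∈ P.primeFactors, 3 ≤ p := fun p hp => by
    have h1 := (Nat.prime_of_mem_primeFactors hp).two_le
    obtain ⟨k, hk⟩ := hodd p hp
    omega
  refine (prod_low _ h3).trans ?_
  refine Finset.prod_le_prod (fun p hp => (bb_mem (h3 p hp)).1) fun p hp => ?_
  have hpp := Nat.prime_of_mem_primeFactors hp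
  unfold bb
  split_ifs with h4
  · have h5 := small s hpp (hodd p hp) h
    rw [h4] at h5 ⊢
    refine le_trans ?_ h5
    norm_num
  · exact large s hpp (hodd p hp) h

end

end Pool.Agent.J4.H39.CM
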