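import Pool.Agent.J4.H39.CM.Def3

set_option autoImplicit false

/-!
Project CM (helper39), piece ZLa: the density at `2` is bounded below.
-/

namespace Pool.Agent.J4.H39.CM

open Complex Finset Filter Topology
open Pool.Agent.N879.QM
open Pool.Agent.N879.QM.Avg (fam)
open Pool.Agent.H306R2.RZ (js)

noncomputable section

namespace ZLa

open Classical in
lemma mem_RR {s : ℤ} {i : Fin 4} {c : ℕ} : c ∈ RR s i ↔ c < 8 ∧ ∃ d, (fam s i).A d ∧ d % 8 = c := by
  unfold RR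
  rw [mem_filter, mem_range]

lemma B0 (s : ℤ) (d : ℕ) : (fam s 0).A d ↔ Odd d := Iff.rfl
lemma B1 (s : ℤ) (d : ℕ) : (fam s 1).A d ↔ (s * (d : ℤ)) % 4 = 3 := Iff.rfl
lemma B2 (s : ℤ) (d : ℕ) : (fam s 2).A d ↔ (s * (d : ℤ)) % 8 = 1 ∧ ¬ IsSquare (s * (d : ℤ)) :=
  Iff.rfl
lemma B3 (s : ℤ) (d : ℕ) : (fam s 3).A d ↔ (s * (d : ℤ)) % 8 = 5 ∧ ¬ IsSquare (s * (d : ℤ)) :=
  Iff.rfl

lemma r0 (s : ℤ) : (fam s 0).r = 8 := rfl
lemma r1 (s : ℤ) : (fam s 1).r = 4 := rfl
lemma r2 (s : ℤ) : (fam s 2).r = 1 := rfl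
lemma r3 (s : ℤ) : (fam s 3).r = 1 := rfl

lemma e0 (s : ℤ) : (fam s 0).η = 0 := rfl
lemma e1 (s : ℤ) : (fam s 1).η = 0 := rfl
lemma e2 (s : ℤ) : (fam s 2).η = if (1 : ℤ) = 1 then 1 else -1 := rfl
lemma e3 (s : ℤ) : (fam s 3).η = if (5 : ℤ) = 1 then 1 else -1 := rfl

lemma eta_le (s : ℤ) (i : Fin 4) : |(fam s i).η| ≤ 1 := by
  fin_cases i
  · show |(fam s 0).η| ≤ 1
    rw [e0]; norm_num
  · show |(fam s 1).η| ≤ 1
    rw [e1]; norm_num
  · show |(fam s 2).η| ≤ 1
    rw [e2]; norm_num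
  · show |(fam s 3).η| ≤ 1
    rw [e3]; norm_num

lemma not_sq_neg {n : ℤ} (h : n < 0) : ¬ IsSquare n := fun ⟨r, hr⟩ => by
  have := mul_self_nonneg r
  omega

lemma not_sq5 : ¬ IsSquare (5 : ℤ) := by
  rintro ⟨r, hr⟩
  have h2 : r ≤ 2 := by nlinarith
  have h3 : -2 ≤ r := by nlinarith
  interval_cases r <;> omega

lemma not_sq17 : ¬ IsSquare (17 : ℤ) := by
  rintro ⟨r, hr⟩
  have h2 : r ≤ 4 := by nlinarith
  have h3 : -4 ≤ r := by nlinarith
  interval_cases r <;> omega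

/-- the good residues -/
def Gd (s : ℤ) (q : ℕ) : Prop :=
  (s = 1 ∧ (q % 4 = 1 ∨ q % 16 = 12 ∨ q % 16 = 8)) ∨
    (s = -1 ∧ (q % 4 = 3 ∨ q % 16 = 4 ∨ q % 16 = 8))

lemma mem0 (s : ℤ) {c : ℕ} (h : c < 8) (h' : c % 2 = 1) : c ∈ RR s 0 := by
  rw [mem_RR]
  refine ⟨h, c, ?_, by omega⟩
  rw [B0, Nat.odd_iff]
  exact h'

lemma Gd_fam {s : ℤ} {q : ℕ} (h : Gd s q) :
    ∃ i : Fin 4, (fam s i).r ∣ q ∧ (q / (fam s i).r) % 8 ∈ RR s i := by
  rcases h with ⟨rfl, h⟩ | ⟨rfl, h⟩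
  · rcases h with h | h | h
    · have h8 : q % 8 = 1 ∨ q % 8 = 5 := by omega
      rcases h8 with h8 | h8
      · refine ⟨2, ?_, ?_⟩
        · rw [r2]; exact one_dvd _
        · rw [r2, Nat.div_one, h8, mem_RR]
          refine ⟨by norm_num, 17, ?_, by norm_num⟩
          rw [B2]
          refine ⟨by norm_num, ?_⟩
          have := not_sq17
          simpa using this
      · refine ⟨3, ?_, ?_⟩
        · rw [r3]; exact one_dvd _
        · rw [r3, Nat.div_one, h8, mem_RR]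
          refine ⟨by norm_num, 5, ?_, by norm_num⟩
          rw [B3]
          refine ⟨by norm_num, ?_⟩
          have := not_sq5
          simpa using this
    · refine ⟨1, ?_, ?_⟩
      · rw [r1]; omega
      · rw [r1, mem_RR]
        refine ⟨Nat.mod_lt _ (by norm_num), q / 4 % 8, ?_, by omega⟩
        rw [B1]
        omega
    · refine ⟨0, ?_, ?_⟩
      · rw [r0]; omega
      · rw [r0]
        exact mem0 1 (Nat.mod_lt _ (by norm_num)) (by omega)
  · rcases h with h | h | h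
    · have h8 : q % 8 = 7 ∨ q % 8 = 3 := by omega
      rcases h8 with h8 | h8
      · refine ⟨2, ?_, ?_⟩
        · rw [r2]; exact one_dvd _
        · rw [r2, Nat.div_one, h8, mem_RR]
          refine ⟨by norm_num, 7, ?_, by norm_num⟩
          rw [B2]
          exact ⟨by norm_num, not_sq_neg (by norm_num)⟩
      · refine ⟨3, ?_, ?_⟩
        · rw [r3]; exact one_dvd _
        · rw [r3, Nat.div_one, h8, mem_RR]
          refine ⟨by norm_num, 3, ?_, by norm_num⟩
          rw [B3]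
          exact ⟨by norm_num, not_sq_neg (by norm_num)⟩
    · refine ⟨1, ?_, ?_⟩
      · rw [r1]; omega
      · rw [r1, mem_RR]
        refine ⟨Nat.mod_lt _ (by norm_num), q / 4 % 8, ?_, by omega⟩
        rw [B1]
        omega
    · refine ⟨0, ?_, ?_⟩
      · rw [r0]; omega
      · rw [r0]
        exact mem0 (-1) (Nat.mod_lt _ (by norm_num)) (by omega)

lemma LA_ge {η : ℝ} (h : |η| ≤ 1) : 1 / 16 ≤ LA η := by
  unfold LA
  have h2 : (1 : ℝ) < √2 := by
    rw [show (1 : ℝ) = √1 by simp]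
    exact Real.sqrt_lt_sqrt (by norm_num) (by norm_num)
  have h0 : 0 < √(2 : ℝ) := by linarith
  obtain ⟨h3, h4⟩ := abs_le.1 h
  have h5 : -1 ≤ η / √2 := by
    rw [le_div_iff₀ h0]
    linarith
  have h6 : η / √2 < 1 := by
    rw [div_lt_one h0]
    linarith
  have h7 : 0 < 1 - η / √2 := by linarith
  have h8 : 1 / 2 ≤ (1 - η / √2)⁻¹ := by
    rw [inv_eq_one_div]
    exact one_div_le_one_div_of_le h7 (by linarith)
  linarith

lemma A2_nonneg (s : ℤ) (q : ℕ) : 0 ≤ A2 s q := by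
  unfold A2
  refine Finset.sum_nonneg fun i _ => ?_
  split_ifs
  · have := LA_ge (eta_le s i)
    linarith
  · exact le_rfl

lemma A2_ge {s : ℤ} {q : ℕ} (h : Gd s q) : 1 / 8 ≤ A2 s q := by
  classical
  obtain ⟨i, h1⟩ := Gd_fam h
  unfold A2
  have h2 := Finset.single_le_sum (f := fun i : Fin 4 =>
    if (fam s i).r ∣ q ∧ (q / (fam s i).r) % 8 ∈ RR s i then 2 * LA (fam s i).η else 0)
    (fun j _ => by
      show (0 : ℝ) ≤ if (fam s j).r ∣ q ∧ (q / (fam s j).r) % 8 ∈ RR s j then 2 * LA (fam s j).η else 0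
      split_ifs
      · have := LA_ge (eta_le s j)
        linarith
      · exact le_rfl) (Finset.mem_univ i)
  have h3 := LA_ge (eta_le s i)
  simp only [if_pos h1] at h2
  refine le_trans ?_ (le_trans h2 (le_of_eq ?_))
  · linarith
  · refine Finset.sum_congr rfl fun j _ => ?_
    congr

lemma three {s : ℤ} (hs : s = 1 ∨ s = -1) (m : ℕ) : ∃ x y z : ℕ, (x < 64 ∧ Gd s x) ∧ (y < 64 ∧ Gd s y) ∧
    (z < 64 ∧ Gd s z) ∧ (x + y + z) % 64 = m % 64 := by
  unfold Gd
  rcases hs with rfl | rfl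
  · have h : m % 4 = 3 ∨ m % 4 = 2 ∨ m % 4 = 1 ∨ m % 16 = 8 ∨ m % 16 = 12 ∨ m % 16 = 0 ∨
        m % 16 = 4 := by omega
    rcases h with h | h | h | h | h | h | h
    · exact ⟨1, 1, (m + 62) % 64, by omega, by omega, by omega, by omega⟩
    · exact ⟨8, 1, (m + 55) % 64, by omega, by omega, by omega, by omega⟩
    · exact ⟨8, 8, (m + 48) % 64, by omega, by omega, by omega, by omega⟩
    · exact ⟨8, 8, (m + 48) % 64, by omega, by omega, by omega, by omega⟩
    · exact ⟨8, 8, (m + 48) % 64, by omega, by omega, by omega, by omega⟩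
    · exact ⟨8, 12, (m + 44) % 64, by omega, by omega, by omega, by omega⟩
    · exact ⟨12, 12, (m + 40) % 64, by omega, by omega, by omega, by omega⟩
  · have h : m % 4 = 1 ∨ m % 4 = 2 ∨ m % 4 = 3 ∨ m % 16 = 8 ∨ m % 16 = 4 ∨ m % 16 = 0 ∨
        m % 16 = 12 := by omega
    rcases h with h | h | h | h | h | h | h
    · exact ⟨3, 3, (m + 58) % 64, by omega, by omega, by omega, by omega⟩
    · exact ⟨8, 3, (m + 53) % 64, by omega, by omega, by omega, by omega⟩
    · exact ⟨8, 8, (m + 48) % 64, by omega, by omega, by omega, by omega⟩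
    · exact ⟨8, 8, (m + 48) % 64, by omega, by omega, by omega, by omega⟩
    · exact ⟨8, 8, (m + 48) % 64, by omega, by omega, by omega, by omega⟩
    · exact ⟨8, 4, (m + 52) % 64, by omega, by omega, by omega, by omega⟩
    · exact ⟨4, 4, (m + 56) % 64, by omega, by omega, by omega, by omega⟩

lemma many {s : ℤ} (hs : s = 1 ∨ s = -1) (t : ℕ) (ht : 3 ≤ t) : ∀ m : ℕ, ∃ a : Fin t → ℕ,
    (∀ i, a i < 64 ∧ Gd s (a i)) ∧ (∑ i, a i) % 64 = m % 64 := by
  induction t, ht using Nat.le_induction with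
  | base =>
    intro m
    obtain ⟨x, y, z, hx, hy, hz, h⟩ := three hs m
    refine ⟨![x, y, z], ?_, ?_⟩
    · intro i
      fin_cases i
      · exact hx
      · exact hy
      · exact hz
    · rw [Fin.sum_univ_three]
      exact h
  | succ t ht ih =>
    intro m
    obtain ⟨a, ha, hm⟩ := ih (m + 56)
    refine ⟨Fin.cons 8 a, ?_, ?_⟩
    · intro i
      refine Fin.cases ?_ (fun j => ?_) i
      · rw [Fin.cons_zero]
        refine ⟨by norm_num, ?_⟩
        unfold Gd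
        rcases hs with rfl | rfl
        · exact Or.inl ⟨rfl, by omega⟩
        · exact Or.inr ⟨rfl, by omega⟩
      · rw [Fin.cons_succ]
        exact ha j
    · rw [Fin.sum_univ_succ, Fin.cons_zero]
      simp only [Fin.cons_succ]
      omega

end ZLa

open ZLa in
theorem s2_low (s : ℤ) (hs : s = 1 ∨ s = -1) (t : ℕ) (ht : 3 ≤ t) : ∃ c : ℝ, 0 < c ∧ ∀ N : ℕ,
    c ≤ SG t 64 (A2 s) N := by
  classical
  refine ⟨(1 / 8) ^ t / (64 : ℝ) ^ (t - 1), by positivity, fun N => ?_⟩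
  obtain ⟨a, ha, hN⟩ := many hs t ht N
  unfold SG
  have h64 : ((64 : ℕ) : ℝ) = 64 := by norm_num
  rw [h64]
  refine div_le_div_of_nonneg_right ?_ (by positivity)
  have hmem : a ∈ Fintype.piFinset (fun _ : Fin t => range 64) := by
    rw [Fintype.mem_piFinset]
    intro i
    exact mem_range.2 (ha i).1
  have h1 := Finset.single_le_sum (f := fun a : Fin t → ℕ =>
    if (∑ i, a i) % 64 = N % 64 then ∏ i, A2 s (a i) else 0)
    (fun b _ => by
      show (0 : ℝ) ≤ if (∑ i, b i) % 64 = N % 64 then ∏ i, A2 s (b i) else 0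
      split_ifs
      · exact Finset.prod_nonneg fun i _ => A2_nonneg s _
      · exact le_rfl) hmem
  simp only [if_pos hN] at h1
  refine le_trans ?_ h1
  calc ((1 : ℝ) / 8) ^ t = ∏ _i : Fin t, (1 / 8 : ℝ) := by
        rw [Finset.prod_const, Finset.card_univ, Fintype.card_fin]
    _ ≤ ∏ i, A2 s (a i) :=
        Finset.prod_le_prod (fun _ _ => by norm_num) fun i _ => A2_ge (ha i).2

end

end Pool.Agent.J4.H39.CM
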