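import Pool.Agent.J4.H39.CM.Def4
import Pool.Agent.J4.H39.CM.Zla

set_option autoImplicit false

/-!
Project CM (helper39), piece BF (a): the local correlation at `2` is bounded below.
-/

namespace Pool.Agent.J4.H39.CM

open Complex Finset Filter Topology
open Pool.Agent.N879.QM
open Pool.Agent.N879.QM.Avg (fam)

noncomputable section

namespace BF2

open ZLa

lemma two {s : ℤ} (hs : s = 1 ∨ s = -1) (h : ℕ) (hh : h % 4 ≠ 2) :
    ∃ a : ℕ, a < 64 ∧ ZLa.Gd s a ∧ ZLa.Gd s (a + h) := by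
  unfold ZLa.Gd
  have h4 : h % 4 = 0 ∨ h % 4 = 1 ∨ h % 4 = 3 := by omega
  rcases hs with rfl | rfl
  · rcases h4 with h4 | h4 | h4
    · exact ⟨1, by omega, by omega, by omega⟩
    · exact ⟨8, by omega, by omega, by omega⟩
    · exact ⟨24 - h % 16, by omega, by omega, by omega⟩
  · rcases h4 with h4 | h4 | h4
    · exact ⟨3, by omega, by omega, by omega⟩
    · exact ⟨24 - h % 16, by omega, by omega, by omega⟩
    · exact ⟨8, by omega, by omega, by omega⟩

end BF2

open ZLa in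
theorem c2_low (s : ℤ) (hs : s = 1 ∨ s = -1) : ∃ c : ℝ, 0 < c ∧ ∀ h : ℕ, h % 4 ≠ 2 → c ≤ CG 64 (A2 s) h := by
  refine ⟨(1 / 8) * (1 / 8) / 64, by norm_num, fun h hh => ?_⟩
  obtain ⟨a, ha, h1, h2⟩ := BF2.two hs h hh
  unfold CG
  have h64 : ((64 : ℕ) : ℝ) = 64 := by norm_num
  rw [h64]
  refine div_le_div_of_nonneg_right ?_ (by norm_num)
  have h3 := Finset.single_le_sum (f := fun a : ℕ => A2 s a * A2 s (a + h))
    (fun b _ => mul_nonneg (A2_nonneg s b) (A2_nonneg s (b + h))) (mem_range.2 ha)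
  refine le_trans ?_ h3
  exact mul_le_mul (A2_ge h1) (A2_ge h2) (by norm_num) (A2_nonneg s a)

end

end Pool.Agent.J4.H39.CM
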