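import Pool.Agent.J4.H39.CM.Circ

set_option autoImplicit false

/-!
Project CM (helper39): bilinear forms `∑ a_m b_n G(m + n)`.
-/

namespace Pool.Agent.J4.H39.CM

namespace Cir

open Finset

theorem circ_bil (N : ℕ) (G : ℕ → ℂ) (M : ℝ)
    (hM : ∀ α : ℝ, ‖∑ n ∈ Finset.range N, G n * e (α * n)‖ ≤ M)
    (S T : Finset ℤ) (x y : ℤ → ℂ) :
    ‖∑ a ∈ S, ∑ b ∈ T, x a * y b * (if 0 ≤ a + b ∧ a + b < N then G (a + b).toNat else 0)‖ ≤
      M * (√(∑ a ∈ S, ‖x a‖ ^ 2) * √(∑ b ∈ T, ‖y b‖ ^ 2)) := by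
  classical
  have hM0 : 0 ≤ M := (norm_nonneg _).trans (hM 0)
  obtain ⟨R, hR⟩ : ∃ R : ℕ, R = ∑ a ∈ S, a.natAbs + ∑ b ∈ T, b.natAbs := ⟨_, rfl⟩
  have hRS : ∀ a ∈ S, |a| ≤ R := by
    intro a ha
    have h1 : a.natAbs ≤ ∑ a ∈ S, a.natAbs := single_le_sum (f := fun a : ℤ => a.natAbs) (fun _ _ => Nat.zero_le _) ha
    have h2 : a.natAbs ≤ R := by omega
    rw [Int.abs_eq_natAbs]
    exact_mod_cast h2
  have hRT : ∀ a ∈ T, |a| ≤ R := by
    intro a ha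
    have h1 : a.natAbs ≤ ∑ a ∈ T, a.natAbs := single_le_sum (f := fun a : ℤ => a.natAbs) (fun _ _ => Nat.zero_le _) ha
    have h2 : a.natAbs ≤ R := by omega
    rw [Int.abs_eq_natAbs]
    exact_mod_cast h2
  obtain ⟨K, hK⟩ : ∃ K, K = 2 * R + N + 1 := ⟨_, rfl⟩
  have hK0 : 0 < K := by omega
  have hKr : (0 : ℝ) < K := by positivity
  have small : ∀ z : ℤ, |z| < K → (K : ℤ) ∣ z → z = 0 := by
    intro z hz hd
    by_contra h1
    have h2 := Int.le_of_dvd (abs_pos.2 h1) ((dvd_abs _ _).2 hd)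
    omega
  set SA : ℕ → ℂ := fun j => ∑ a ∈ S, x a * e ((a : ℝ) / K * j) with hSA
  set SB : ℕ → ℂ := fun j => ∑ b ∈ T, y b * e ((b : ℝ) / K * j) with hSB
  have lA : ∑ j ∈ range K, ‖SA j‖ ^ 2 = K * ∑ a ∈ S, ‖x a‖ ^ 2 := by
    refine parseval hK0 S (fun a => a) ?_ x
    intro a ha b hb hd
    have h1 := abs_le.1 (hRS a ha)
    have h2 := abs_le.1 (hRS b hb)
    have h3 := small (a - b) (by rw [abs_lt]; omega) hd
    omega
  have lB : ∑ j ∈ range K, ‖SB j‖ ^ 2 = K * ∑ b ∈ T, ‖y b‖ ^ 2 := by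
    refine parseval hK0 T (fun a => a) ?_ y
    intro a ha b hb hd
    have h1 := abs_le.1 (hRT a ha)
    have h2 := abs_le.1 (hRT b hb)
    have h3 := small (a - b) (by rw [abs_lt]; omega) hd
    omega
  have main : (K : ℂ) * ∑ a ∈ S, ∑ b ∈ T, x a * y b *
      (if 0 ≤ a + b ∧ a + b < N then G (a + b).toNat else 0) =
      ∑ j ∈ range K, (∑ n ∈ range N, G n * e ((-(j : ℝ) / K) * n)) * (SA j * SB j) := by
    have e1 : ∀ j ∈ range K, (∑ n ∈ range N, G n * e ((-(j : ℝ) / K) * n)) * (SA j * SB j) =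
        ∑ a ∈ S, ∑ b ∈ T, ∑ n ∈ range N, x a * y b * G n * e (((a + b - n : ℤ) : ℝ) / K * j) := by
      intro j _
      rw [hSA, hSB]
      simp only
      rw [sum_mul_sum, mul_sum]
      refine sum_congr rfl fun a _ => ?_
      rw [mul_sum]
      refine sum_congr rfl fun b _ => ?_
      rw [sum_mul]
      refine sum_congr rfl fun n _ => ?_
      have : (((a + b - n : ℤ) : ℝ) / K * j) = (-(j : ℝ) / K) * n +
          ((a : ℝ) / K * j + (b : ℝ) / K * j) := by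
        push_cast; ring
      rw [this, e_add, e_add]
      ring
    have e2 : ∑ j ∈ range K, ∑ a ∈ S, ∑ b ∈ T, ∑ n ∈ range N,
        x a * y b * G n * e (((a + b - n : ℤ) : ℝ) / K * j) = ∑ a ∈ S, ∑ b ∈ T, ∑ n ∈ range N,
        ∑ j ∈ range K, x a * y b * G n * e (((a + b - n : ℤ) : ℝ) / K * j) := by
      rw [sum_comm]
      refine sum_congr rfl fun a _ => ?_
      rw [sum_comm]
      refine sum_congr rfl fun b _ => ?_
      rw [sum_comm]
    rw [sum_congr rfl e1, e2, mul_sum]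
    refine sum_congr rfl fun a ha => ?_
    rw [mul_sum]
    refine sum_congr rfl fun b hb => ?_
    have ha1 := abs_le.1 (hRS a ha)
    have hb1 := abs_le.1 (hRT b hb)
    have e3 : ∀ n ∈ range N, ∑ j ∈ range K, x a * y b * G n * e (((a + b - n : ℤ) : ℝ) / K * j) =
        if (n : ℤ) = a + b then x a * y b * G n * K else 0 := by
      intro n hn
      rw [mem_range] at hn
      rw [← mul_sum, orth hK0]
      by_cases h1 : (n : ℤ) = a + b
      · rw [if_pos h1, if_pos]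
        rw [h1, sub_self]
        exact dvd_zero _
      · rw [if_neg h1, if_neg, mul_zero]
        intro hd
        apply h1
        have := small _ (by rw [abs_lt]; omega) hd
        omega
    rw [sum_congr rfl e3]
    by_cases h1 : 0 ≤ a + b ∧ a + b < N
    · rw [if_pos h1, sum_eq_single (a + b).toNat]
      · rw [if_pos (Int.toNat_of_nonneg h1.1)]
        ring
      · intro n _ hne
        rw [if_neg]
        intro h2
        apply hne
        rw [← h2, Int.toNat_natCast]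
      · intro hn
        exfalso
        apply hn
        rw [mem_range]
        omega
    · rw [if_neg h1, mul_zero, mul_zero]
      symm
      refine sum_eq_zero fun n hn => ?_
      rw [mem_range] at hn
      rw [if_neg]
      intro h2
      apply h1
      omega
  set Z := ∑ a ∈ S, ∑ b ∈ T, x a * y b *
      (if 0 ≤ a + b ∧ a + b < N then G (a + b).toNat else 0) with hZ
  have h1 : (K : ℝ) * ‖Z‖ ≤ M * (K * (√(∑ a ∈ S, ‖x a‖ ^ 2) * √(∑ b ∈ T, ‖y b‖ ^ 2))) := by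
    have h2 : ‖(K : ℂ) * Z‖ = K * ‖Z‖ := by rw [norm_mul, Complex.norm_natCast]
    rw [← h2, main]
    refine (norm_sum_le _ _).trans ?_
    calc ∑ j ∈ range K, ‖(∑ n ∈ range N, G n * e ((-(j : ℝ) / K) * n)) * (SA j * SB j)‖
        ≤ ∑ j ∈ range K, M * (‖SA j‖ * ‖SB j‖) := by
          refine sum_le_sum fun j _ => ?_
          rw [norm_mul, norm_mul]
          exact mul_le_mul_of_nonneg_right (hM _) (by positivity)
      _ = M * ∑ j ∈ range K, ‖SA j‖ * ‖SB j‖ := by rw [mul_sum]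
      _ ≤ M * (√(K * ∑ a ∈ S, ‖x a‖ ^ 2) * √(K * ∑ b ∈ T, ‖y b‖ ^ 2)) :=
          mul_le_mul_of_nonneg_left (sum_mul_le_sqrt _ _ lA.le lB.le) hM0
      _ = _ := by
          have hx : 0 ≤ ∑ a ∈ S, ‖x a‖ ^ 2 := sum_nonneg fun _ _ => by positivity
          rw [Real.sqrt_mul hKr.le, Real.sqrt_mul hKr.le]
          have : √(K : ℝ) * √(K : ℝ) = K := Real.mul_self_sqrt hKr.le
          calc M * (√(K : ℝ) * √(∑ a ∈ S, ‖x a‖ ^ 2) * (√(K : ℝ) * √(∑ b ∈ T, ‖y b‖ ^ 2))) =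
                M * ((√(K : ℝ) * √(K : ℝ)) * (√(∑ a ∈ S, ‖x a‖ ^ 2) * √(∑ b ∈ T, ‖y b‖ ^ 2))) := by ring
            _ = _ := by rw [this]
  have h2 : (K : ℝ) * ‖Z‖ ≤ K * (M * (√(∑ a ∈ S, ‖x a‖ ^ 2) * √(∑ b ∈ T, ‖y b‖ ^ 2))) := by
    linarith
  exact le_of_mul_le_mul_left h2 hKr

end Cir

open Pool.Agent.N879.QM in
theorem circ_bil (N : ℕ) (G : ℕ → ℂ) (M : ℝ)
    (hM : ∀ α : ℝ, ‖∑ n ∈ Finset.range N, G n * e (α * n)‖ ≤ M)
    (S T : Finset ℤ) (x y : ℤ → ℂ) :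
    ‖∑ a ∈ S, ∑ b ∈ T, x a * y b * (if 0 ≤ a + b ∧ a + b < N then G (a + b).toNat else 0)‖ ≤
      M * (√(∑ a ∈ S, ‖x a‖ ^ 2) * √(∑ b ∈ T, ‖y b‖ ^ 2)) :=
  Cir.circ_bil N G M hM S T x y

end Pool.Agent.J4.H39.CM
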