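import Pool.Agent.J4.H39.CM.Ir
import Pool.Agent.J4.H39.CM.Beat
import Pool.Agent.J4.H39.CM.Bil

set_option autoImplicit false

/-!
Project CM (helper39): Bohr sets and bilinear forms.
-/

namespace Pool.Agent.J4.H39.CM

open Complex Finset
open Pool.Agent.N879.QM
open Pool.Agent.N879.QM.Avg (fam)

noncomputable section

/-- the first moment over Bohr sets -/
theorem bohr (s : ℤ) (hs : s = 1 ∨ s = -1) (B : Fin 4 → ℝ) (hB : Good s B) {γ : ℝ} (hγ : Irrational γ)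
    (hL : ¬ Liouville γ) : ∃ δ K : ℝ, 0 < δ ∧ ∀ (N : ℕ) (β u v : ℝ), 1 ≤ N → 0 ≤ u → u ≤ v → v ≤ 1 →
      ‖(∑ q ∈ range (N + 1), if (u ≤ Int.fract (γ * q + β) ∧ Int.fract (γ * q + β) < v)
        then L1 s q else 0) - (v - u) * ∑ q ∈ range (N + 1), L1 s q‖ ≤ K * (N : ℝ) ^ (1 - δ) := by
  obtain ⟨n, δ, C, hδ, hC, h⟩ := irr s hs B hB hγ hL
  refine bohr_gen (L1 s) γ δ n C hδ hC h fun ε hε => ?_
  obtain ⟨C2, -, h2⟩ := l1sq ε hε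
  exact ⟨C2, fun N hN => h2 s N hs hN⟩

/-- bilinear forms -/
theorem bilin (s : ℤ) (hs : s = 1 ∨ s = -1) (B : Fin 4 → ℝ) (hB : Good s B) (m : ℕ) (hm : 4096 ≤ m) :
    ∃ C : ℝ, 0 < C ∧ ∀ (N : ℕ) (S T : Finset ℤ) (x y : ℤ → ℂ), 1 ≤ N →
    ‖∑ a ∈ S, ∑ b ∈ T, x a * y b * (if 0 ≤ a + b ∧ a + b < (N + 1 : ℕ) then
      (L1 s (a + b).toNat - Gm (Fr (cut m N)) (c1 s) (c0 s B) (a + b).toNat) else 0)‖ ≤
      C * (N : ℝ) ^ (1 - 1 / (2 * m : ℝ)) * (√(∑ a ∈ S, ‖x a‖ ^ 2) * √(∑ b ∈ T, ‖y b‖ ^ 2)) := by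
  obtain ⟨C, hC, h⟩ := fourier s hs B hB m hm
  refine ⟨C, hC, fun N S T x y hN => ?_⟩
  exact circ_bil (N + 1) (fun q => L1 s q - Gm (Fr (cut m N)) (c1 s) (c0 s B) q)
    (C * (N : ℝ) ^ (1 - 1 / (2 * m : ℝ))) (fun α => h N α hN) S T x y

end

end Pool.Agent.J4.H39.CM
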