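import Pool.Agent.J4.H39.CM.Def3
import Pool.Agent.J4.H39.CM.Four

set_option autoImplicit false

/-!
Project CM (helper39), part 3: the Fourier expansion of the finite Euler products.
-/

namespace Pool.Agent.J4.H39.CM

open Complex Finset Filter Topology
open Pool.Agent.N879.QM
open Pool.Agent.N879.QM.Avg (fam)
open Pool.Agent.H306R2.RZ (js)
open Pool.Agent.H306R2.RG (FD F8 F4 F1)
open Pool.Agent.Y293.SF (mu)

noncomputable section

namespace Zf

lemma prod_one (P : ℕ) (hsq : Squarefree P) (F : ℕ → ℝ) (h1 : F 1 = 1)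
    (hm : ∀ a b : ℕ, a ≠ 0 → b ≠ 0 → Nat.Coprime a b → F (a * b) = F a * F b) :
    ∏ p ∈ P.primeFactors, (1 + F p) = ∑ k ∈ P.divisors, F k := by
  set f : ArithmeticFunction ℝ := ⟨fun n => if n = 0 then 0 else F n, by simp⟩ with hf
  have hv : ∀ n : ℕ, n ≠ 0 → f n = F n := fun n hn => by
    change (if n = 0 then 0 else F n) = F n
    rw [if_neg hn]
  have hmul : f.IsMultiplicative := by
    refine ⟨?_, ?_⟩
    · rw [hv 1 one_ne_zero, h1]
    · intro m n hmn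
      by_cases h0 : m = 0
      · subst h0; simp
      by_cases h0' : n = 0
      · subst h0'; simp
      rw [hv _ (mul_ne_zero h0 h0'), hv _ h0, hv _ h0', hm m n h0 h0' hmn]
  have h2 := ArithmeticFunction.IsMultiplicative.prodPrimeFactors_one_add_of_squarefree hmul hsq
  calc ∏ p ∈ P.primeFactors, (1 + F p) = ∏ p ∈ P.primeFactors, (1 + f p) := by
        refine prod_congr rfl fun p hp => ?_
        rw [hv p (Nat.prime_of_mem_primeFactors hp).ne_zero]
    _ = ∑ d ∈ P.divisors, f d := h2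
    _ = _ := by
        refine sum_congr rfl fun k hk => ?_
        rw [hv k (Nat.pos_of_mem_divisors hk).ne']

lemma mu_mul {a b : ℕ} (h : Nat.Coprime a b) : mu (a * b) = mu a * mu b := by
  unfold mu
  rw [ArithmeticFunction.isMultiplicative_moebius.map_mul_of_coprime h]
  push_cast
  ring

lemma mu_one : mu 1 = 1 := by
  unfold mu
  simp

lemma mu_prime {p : ℕ} (hp : p.Prime) : mu p = -1 := by
  unfold mu
  rw [ArithmeticFunction.moebius_apply_prime hp]
  simp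

lemma js_mulr (x : ℤ) {a b : ℕ} (ha : a ≠ 0) (hb : b ≠ 0) : js x (a * b) = js x a * js x b := by
  have : NeZero a := ⟨ha⟩
  have : NeZero b := ⟨hb⟩
  unfold js
  rw [jacobiSym.mul_right]
  push_cast
  ring

lemma js_oner (x : ℤ) : js x 1 = 1 := by
  unfold js
  rw [jacobiSym.one_right]
  simp

lemma kpart (P d : ℕ) (e : ℤ) (hsq : Squarefree P) :
    ∏ p ∈ P.primeFactors, (1 + js e p * js (d : ℤ) p / √(p : ℝ)) =
      ∑ k ∈ P.divisors, js e k * js (d : ℤ) k / √(k : ℝ) := by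
  refine prod_one P hsq (fun k => js e k * js (d : ℤ) k / √(k : ℝ)) ?_ ?_
  · rw [js_oner, js_oner]
    simp
  · intro a b ha hb _
    rw [js_mulr _ ha hb, js_mulr _ ha hb, Nat.cast_mul, Real.sqrt_mul (Nat.cast_nonneg a)]
    have h1 : √(a : ℝ) ≠ 0 := (Real.sqrt_pos.2 (by exact_mod_cast Nat.pos_of_ne_zero ha)).ne'
    have h2 : √(b : ℝ) ≠ 0 := (Real.sqrt_pos.2 (by exact_mod_cast Nat.pos_of_ne_zero hb)).ne'
    field_simp

lemma bpart (P d : ℕ) (hsq : Squarefree P) :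
    ∏ p ∈ P.primeFactors, (if p ^ 2 ∣ d then (0 : ℝ) else 1) =
      ∑ b ∈ P.divisors, mu b * (if b ^ 2 ∣ d then 1 else 0) := by
  rw [← prod_one P hsq (fun b => mu b * (if b ^ 2 ∣ d then 1 else 0))]
  · refine prod_congr rfl fun p hp => ?_
    rw [mu_prime (Nat.prime_of_mem_primeFactors hp)]
    split_ifs <;> norm_num
  · rw [mu_one]
    simp
  · intro a b _ _ hab
    rw [mu_mul hab]
    have h1 : (a * b) ^ 2 ∣ d ↔ a ^ 2 ∣ d ∧ b ^ 2 ∣ d := by
      rw [mul_pow]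
      constructor
      · intro h
        exact ⟨(Dvd.intro _ rfl).trans h, (Dvd.intro_left _ rfl).trans h⟩
      · rintro ⟨h, h'⟩
        exact Nat.Coprime.mul_dvd_of_dvd_of_dvd (Nat.Coprime.pow 2 2 hab) h h'
    by_cases ha : a ^ 2 ∣ d
    · by_cases hb : b ^ 2 ∣ d
      · rw [if_pos (h1.2 ⟨ha, hb⟩), if_pos ha, if_pos hb]; ring
      · rw [if_neg (fun h => hb (h1.1 h).2), if_neg hb]; ring
    · rw [if_neg (fun h => ha (h1.1 h).1), if_neg ha]; ring

lemma fpart (P d : ℕ) (hsq : Squarefree P) :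
    ∏ p ∈ P.primeFactors, (1 - if p ∣ d then 1 / (p : ℝ) else 0) =
      ∑ f ∈ P.divisors, mu f / f * (if f ∣ d then 1 else 0) := by
  rw [← prod_one P hsq (fun f => mu f / f * (if f ∣ d then 1 else 0))]
  · refine prod_congr rfl fun p hp => ?_
    rw [mu_prime (Nat.prime_of_mem_primeFactors hp)]
    split_ifs <;> ring
  · rw [mu_one]
    simp
  · intro a b ha hb hab
    rw [mu_mul hab]
    have ha' : (a : ℝ) ≠ 0 := by exact_mod_cast ha
    have hb' : (b : ℝ) ≠ 0 := by exact_mod_cast hb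
    have h1 : (a * b) ∣ d ↔ a ∣ d ∧ b ∣ d := by
      constructor
      · intro h
        exact ⟨(Dvd.intro _ rfl).trans h, (Dvd.intro_left _ rfl).trans h⟩
      · rintro ⟨h, h'⟩
        exact Nat.Coprime.mul_dvd_of_dvd_of_dvd hab h h'
    by_cases hda : a ∣ d
    · by_cases hdb : b ∣ d
      · rw [if_pos (h1.2 ⟨hda, hdb⟩), if_pos hda, if_pos hdb]; push_cast; field_simp
      · rw [if_neg (fun h => hdb (h1.1 h).2), if_neg hdb]; ring
    · rw [if_neg (fun h => hda (h1.1 h).1), if_neg hda]; ring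

/-- `s r d = u² e d` -/
lemma fam_sq (s : ℤ) (i : Fin 4) : ∃ u : ℤ, (u = 1 ∨ u = 2) ∧
    s * ((fam s i).r : ℤ) = u ^ 2 * (fam s i).e := by
  fin_cases i
  · refine ⟨2, Or.inr rfl, ?_⟩
    change s * ((8 : ℕ) : ℤ) = 2 ^ 2 * (2 * s)
    push_cast
    ring
  · refine ⟨2, Or.inr rfl, ?_⟩
    change s * ((4 : ℕ) : ℤ) = 2 ^ 2 * s
    push_cast
    ring
  · refine ⟨1, Or.inl rfl, ?_⟩
    change s * ((1 : ℕ) : ℤ) = 1 ^ 2 * s
    push_cast
    ring
  · refine ⟨1, Or.inl rfl, ?_⟩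
    change s * ((1 : ℕ) : ℤ) = 1 ^ 2 * s
    push_cast
    ring

lemma js_u {u : ℤ} (hu : u = 1 ∨ u = 2) {p : ℕ} (hp : p.Prime) (ho : Odd p) (x : ℤ) :
    js (u ^ 2 * x) p = js x p := by
  rw [js_mul']
  have : NeZero p := ⟨hp.ne_zero⟩
  have h : js (u ^ 2) p = 1 := by
    unfold js
    rw [jacobiSym.sq_one']
    · simp
    · rcases hu with rfl | rfl
      · simp
      · have : Nat.Coprime 2 p := Nat.coprime_two_left.2 ho
        have h2 : Int.gcd (2 : ℤ) (p : ℤ) = 1 := by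
          exact_mod_cast this
        exact h2
  rw [h, one_mul]

lemma js_fam (s : ℤ) (i : Fin 4) {p : ℕ} (hp : p.Prime) (ho : Odd p) (d : ℕ) :
    js (s * (((fam s i).r * d : ℕ) : ℤ)) p = js (fam s i).e p * js (d : ℤ) p := by
  obtain ⟨u, hu, h⟩ := fam_sq s i
  have h1 : s * (((fam s i).r * d : ℕ) : ℤ) = u ^ 2 * ((fam s i).e * d) := by
    push_cast
    linear_combination (d : ℤ) * h
  rw [h1, js_u hu hp ho, js_mul']

lemma cop_r (s : ℤ) (i : Fin 4) {p : ℕ} (ho : Odd p) : Nat.Coprime p (fam s i).r := by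
  have h : Nat.Coprime p 8 := by
    have : Nat.Coprime p (2 ^ 3) := Nat.Coprime.pow_right 3 (Nat.coprime_two_right.2 ho)
    simpa using this
  exact Nat.Coprime.coprime_dvd_right (Four.r_dvd s i) h

/-- one family -/
lemma one_fam (s : ℤ) (i : Fin 4) (P q : ℕ) (hP : Odd P) (hsq : Squarefree P) :
    (if (fam s i).r ∣ q ∧ (q / (fam s i).r) % 8 ∈ RR s i then 2 * LA (fam s i).η else 0) *
      ∏ p ∈ P.primeFactors, Fp s p q =
    ∑ x ∈ P.divisors ×ˢ P.divisors, ∑ k ∈ P.divisors,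
      cc s i k x.1 x.2 * LA (fam s i).η * Pf s i k (Nat.lcm (x.2 ^ 2) x.1) q := by
  classical
  have hr := Four.r_pos s i
  by_cases hc : (fam s i).r ∣ q ∧ (q / (fam s i).r) % 8 ∈ RR s i
  · rw [if_pos hc]
    obtain ⟨⟨d, hd⟩, h8⟩ := hc
    have hdq : q / (fam s i).r = d := by rw [hd]; exact Nat.mul_div_cancel_left _ hr
    rw [hdq] at h8
    have hF : ∀ p ∈ P.primeFactors, Fp s p q = (if p ^ 2 ∣ d then (0 : ℝ) else 1) *
        (1 - if p ∣ d then 1 / (p : ℝ) else 0) *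
        (1 + js (fam s i).e p * js (d : ℤ) p / √(p : ℝ)) := by
      intro p hp
      have hpp := Nat.prime_of_mem_primeFactors hp
      have ho : Odd p := Odd.of_dvd_nat hP (Nat.dvd_of_mem_primeFactors hp)
      have hcop := cop_r s i ho
      have e1 : p ^ 2 ∣ q ↔ p ^ 2 ∣ d := by
        rw [hd]
        exact Nat.Coprime.dvd_mul_left (Nat.Coprime.pow_left 2 hcop)
      have e2 : p ∣ q ↔ p ∣ d := by
        rw [hd]
        exact Nat.Coprime.dvd_mul_left hcop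
      unfold Fp
      rw [hd, js_fam s i hpp ho d, ← hd]
      simp only [e1, e2]
    rw [prod_congr rfl hF, prod_mul_distrib, prod_mul_distrib, kpart P d _ hsq, bpart P d hsq,
      fpart P d hsq, sum_product, Finset.sum_mul_sum, Finset.sum_comm, Finset.sum_mul,
      Finset.mul_sum]
    refine sum_congr rfl fun f hf => ?_
    rw [Finset.sum_mul, Finset.mul_sum]
    refine sum_congr rfl fun b hb => ?_
    rw [Finset.mul_sum, Finset.mul_sum]
    refine sum_congr rfl fun k hk => ?_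
    have e3 : Pf s i k (Nat.lcm (b ^ 2) f) q =
        (if b ^ 2 ∣ d then (1 : ℝ) else 0) * (if f ∣ d then 1 else 0) * js (d : ℤ) k := by
      unfold Pf
      rw [hdq]
      have e4 : Nat.lcm (b ^ 2) f ∣ d ↔ b ^ 2 ∣ d ∧ f ∣ d := Nat.lcm_dvd_iff
      by_cases h1 : b ^ 2 ∣ d
      · by_cases h2 : f ∣ d
        · rw [if_pos ⟨⟨d, hd⟩, h8, e4.2 ⟨h1, h2⟩⟩, if_pos h1, if_pos h2]; ring
        · rw [if_neg (fun h => h2 (e4.1 h.2.2).2), if_neg h2]; ring
      · rw [if_neg (fun h => h1 (e4.1 h.2.2).1), if_neg h1]; ring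
    rw [e3]
    unfold cc
    ring
  · rw [if_neg hc, zero_mul]
    symm
    refine sum_eq_zero fun x _ => sum_eq_zero fun k _ => ?_
    have : Pf s i k (Nat.lcm (x.2 ^ 2) x.1) q = 0 := by
      unfold Pf
      rw [if_neg]
      rintro ⟨h1, h2, -⟩
      exact hc ⟨h1, h2⟩
    rw [this, mul_zero]

/-- the terms of `cz` -/
lemma tm_eq (s : ℤ) (hs : s = 1 ∨ s = -1) (i : Fin 4) (P : ℕ) (hP : Odd P) (hsq : Squarefree P)
    (θ : ℚ) (x : ℕ × ℕ) (hx : x ∈ P.divisors ×ˢ P.divisors) :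
    (if kap s i (Nat.lcm (x.2 ^ 2) x.1) θ ∣ P then tm s i (w1 s i) θ x else 0) =
      ∑ k ∈ P.divisors, ((cc s i k x.1 x.2 * LA (fam s i).η : ℝ) : ℂ) *
        pc s i k (Nat.lcm (x.2 ^ 2) x.1) θ := by
  classical
  rw [mem_product] at hx
  have hf := Nat.pos_of_mem_divisors hx.1
  have hb := Nat.pos_of_mem_divisors hx.2
  have hg : 1 ≤ Nat.lcm (x.2 ^ 2) x.1 := Nat.lcm_pos (by positivity) hf
  have hodd : ∀ k ∈ P.divisors, Odd k := fun k hk => Odd.of_dvd_nat hP (Nat.dvd_of_mem_divisors hk)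
  have hsqf : ∀ k ∈ P.divisors, Squarefree k := fun k hk =>
    Squarefree.squarefree_of_dvd (Nat.dvd_of_mem_divisors hk) hsq
  have hP0 : P ≠ 0 := hP.pos.ne'
  set g := Nat.lcm (x.2 ^ 2) x.1 with hgd
  have hzero : ∀ k ∈ P.divisors, k ≠ kap s i g θ → pc s i k g θ = 0 := by
    intro k hk hne
    by_contra h
    exact hne (pc_kap s hs i k g θ (hodd k hk) (hsqf k hk) hg h)
  by_cases hk : kap s i g θ ∣ P
  · have hmem : kap s i g θ ∈ P.divisors := Nat.mem_divisors.2 ⟨hk, hP0⟩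
    rw [if_pos hk, sum_eq_single (kap s i g θ)]
    · unfold tm
      rw [← hgd, if_pos ⟨hf, hb, hodd _ hmem, hsqf _ hmem⟩]
      rfl
    · intro k hk' hne
      rw [hzero k hk' hne, mul_zero]
    · intro h
      exact absurd hmem h
  · rw [if_neg hk]
    symm
    refine sum_eq_zero fun k hk' => ?_
    rw [hzero k hk' (fun h => hk (h ▸ Nat.dvd_of_mem_divisors hk')), mul_zero]

end Zf

open Zf in
theorem ph_fourier (s : ℤ) (hs : s = 1 ∨ s = -1) (P q : ℕ) (hP : Odd P) (hsq : Squarefree P) :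
    ((Ph s P q : ℝ) : ℂ) = ∑ θ ∈ Fr (64 * P ^ 3), cz s P θ * e ((θ : ℝ) * q) := by
  classical
  have hP0 : 0 < P := hP.pos
  have h1 : Ph s P q = ∑ i : Fin 4, ∑ x ∈ P.divisors ×ˢ P.divisors, ∑ k ∈ P.divisors,
      cc s i k x.1 x.2 * LA (fam s i).η * Pf s i k (Nat.lcm (x.2 ^ 2) x.1) q := by
    unfold Ph A2
    rw [Finset.sum_mul]
    exact sum_congr rfl fun i _ => one_fam s i P q hP hsq
  rw [h1]
  push_cast
  have h2 : ∀ i : Fin 4, ∀ x ∈ P.divisors ×ˢ P.divisors, ∀ k ∈ P.divisors,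
      ((Pf s i k (Nat.lcm (x.2 ^ 2) x.1) q : ℝ) : ℂ) =
        ∑ θ ∈ Fr (64 * P ^ 3), pc s i k (Nat.lcm (x.2 ^ 2) x.1) θ * e ((θ : ℝ) * q) := by
    intro i x hx k hk
    rw [mem_product] at hx
    have hf := Nat.dvd_of_mem_divisors hx.1
    have hb := Nat.dvd_of_mem_divisors hx.2
    have hf0 := Nat.pos_of_mem_divisors hx.1
    have hb0 := Nat.pos_of_mem_divisors hx.2
    have hk' := Nat.dvd_of_mem_divisors hk
    have hl : Nat.lcm (x.2 ^ 2) x.1 ∣ P ^ 2 :=
      Nat.lcm_dvd (pow_dvd_pow_of_dvd hb 2) (hf.trans ⟨P, by ring⟩)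
    have hl' := Nat.le_of_dvd (by positivity) hl
    have hk1 := Nat.le_of_dvd hP0 hk'
    refine four_eq s hs i k _ q _ (Odd.of_dvd_nat hP hk') (Squarefree.squarefree_of_dvd hk' hsq)
      (Nat.lcm_pos (by positivity) hf0) ?_
    calc 64 * k * Nat.lcm (x.2 ^ 2) x.1 ≤ 64 * P * P ^ 2 := by gcongr
      _ = 64 * P ^ 3 := by ring
  have h3 : ∀ θ ∈ Fr (64 * P ^ 3), cz s P θ * e ((θ : ℝ) * q) =
      ∑ i : Fin 4, ∑ x ∈ P.divisors ×ˢ P.divisors, ∑ k ∈ P.divisors,
        ((cc s i k x.1 x.2 * LA (fam s i).η : ℝ) : ℂ) *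
          (pc s i k (Nat.lcm (x.2 ^ 2) x.1) θ * e ((θ : ℝ) * q)) := by
    intro θ _
    unfold cz
    rw [Finset.sum_mul]
    refine sum_congr rfl fun i _ => ?_
    rw [Finset.sum_mul]
    refine sum_congr rfl fun x hx => ?_
    rw [tm_eq s hs i P hP hsq θ x hx, Finset.sum_mul]
    refine sum_congr rfl fun k _ => ?_
    ring
  symm
  refine (sum_congr rfl h3).trans ?_
  refine sum_comm.trans ?_
  refine sum_congr rfl fun i _ => ?_
  refine sum_comm.trans ?_
  refine sum_congr rfl fun x hx => ?_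
  refine sum_comm.trans ?_
  refine sum_congr rfl fun k hk => ?_
  rw [← Finset.mul_sum, ← h2 i x hx k hk]
  push_cast
  ring

end

end Pool.Agent.J4.H39.CM
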