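import Pool.Agent.J4.H39.CM.Zg

set_option autoImplicit false
set_option linter.unusedVariables false

/-!
Project CM (helper39), piece ZLb: the product of the densities at the odd primes is bounded below.
-/

namespace Pool.Agent.J4.H39.CM

open Complex Finset
open Pool.Agent.N879.QM
open Pool.Agent.N879.QM.Avg (fam)
open Pool.Agent.H306R2.RZ (js)

noncomputable section

namespace ZLb

/-- the discrete Fourier coefficients -/
def dft (M : ℕ) (g : ℕ → ℝ) (j : ℕ) : ℂ :=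
  (∑ a ∈ range M, ((g a : ℝ) : ℂ) * e (-((j : ℝ) / M) * a)) / M

lemma sg_dft (t M N : ℕ) (ht : 1 ≤ t) (hM : 1 ≤ M) (g : ℕ → ℝ) :
    ((SG t M g N : ℝ) : ℂ) = ∑ j ∈ range M, dft M g j ^ t * e (((j : ℝ) / M) * N) := by
  have hMc : (M : ℂ) ≠ 0 := by exact_mod_cast (by omega : M ≠ 0)
  have hL : ((∑ a ∈ Fintype.piFinset (fun _ : Fin t => range M),
      if (∑ i, a i) % M = N % M then ∏ i, g (a i) else 0 : ℝ) : ℂ) * M =
      ∑ j ∈ range M, ((M : ℂ) * dft M g j) ^ t * e (((j : ℝ) / M) * N) := by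
    have h1 : ∀ j ∈ range M, ((M : ℂ) * dft M g j) ^ t * e (((j : ℝ) / M) * N) =
        ∑ a ∈ Fintype.piFinset (fun _ : Fin t => range M),
          ((∏ i, g (a i) : ℝ) : ℂ) * e ((((N : ℝ) - (∑ i, a i : ℕ)) / M) * j) := by
      intro j hj
      have h0 : (M : ℂ) * dft M g j = ∑ a ∈ range M, ((g a : ℝ) : ℂ) * e (-((j : ℝ) / M) * a) := by
        unfold dft
        rw [mul_div_cancel₀ _ hMc]
      rw [h0]
      have h2 : (∑ a ∈ range M, ((g a : ℝ) : ℂ) * e (-((j : ℝ) / M) * a)) ^ t =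
          ∏ _i : Fin t, ∑ a ∈ range M, ((g a : ℝ) : ℂ) * e (-((j : ℝ) / M) * a) := by
        rw [prod_const, card_univ, Fintype.card_fin]
      rw [h2, Finset.prod_univ_sum, Finset.sum_mul]
      refine sum_congr rfl fun a _ => ?_
      rw [prod_mul_distrib, mul_assoc]
      have h3 : ∀ (s : Finset (Fin t)), ∏ i ∈ s, e (-((j : ℝ) / M) * (a i)) =
          e (-((j : ℝ) / M) * (∑ i ∈ s, a i : ℕ)) := by
        intro s
        induction s using Finset.induction_on with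
        | empty => simp [e]
        | insert i s hi ih =>
          rw [prod_insert hi, sum_insert hi, ih, ← e_add]
          congr 1
          push_cast
          ring
      rw [h3, ← e_add]
      congr 1
      · push_cast
        rfl
      · congr 1
        ring
    rw [sum_congr rfl h1, sum_comm]
    push_cast
    rw [Finset.sum_mul]
    refine sum_congr rfl fun a _ => ?_
    rw [← Finset.mul_sum]
    have h4 := Zg.cong hM (∑ i, a i) N
    push_cast at h4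
    rw [h4]
    split_ifs <;> simp
  unfold SG
  have hpow : (M : ℂ) ^ t = (M : ℂ) ^ (t - 1) * M := by
    rw [← pow_succ]
    congr 1
    omega
  rw [Complex.ofReal_div]
  rw [div_eq_iff (by push_cast; exact pow_ne_zero _ hMc)]
  have h5 : ∑ j ∈ range M, ((M : ℂ) * dft M g j) ^ t * e (((j : ℝ) / M) * N) =
      (∑ j ∈ range M, dft M g j ^ t * e (((j : ℝ) / M) * N)) * (M : ℂ) ^ t := by
    rw [Finset.sum_mul]
    refine sum_congr rfl fun j _ => ?_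
    rw [mul_pow]
    ring
  rw [h5, hpow, ← mul_assoc] at hL
  have h6 := mul_right_cancel₀ hMc hL
  rw [h6]
  push_cast
  rfl

lemma js_zero {p q : ℕ} (hp : p.Prime) (h : p ∣ q) (s : ℤ) : js (s * (q : ℤ)) p = 0 := by
  refine js_cop hp.ne_zero ?_
  intro h1
  have h2 : (p : ℤ) ∣ Int.gcd (s * (q : ℤ)) p :=
    Int.dvd_coe_gcd (dvd_mul_of_dvd_right (by exact_mod_cast h) s) (dvd_refl _)
  rw [h1] at h2
  have h3 : p ∣ 1 := by exact_mod_cast h2
  exact hp.one_lt.ne' (Nat.dvd_one.1 h3)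

lemma fp_eq (s : ℤ) {p : ℕ} (hp : p.Prime) (q : ℕ) : Fp s p q =
    1 - (1 / (p : ℝ)) * (if p ∣ q then 1 else 0) - (1 - 1 / (p : ℝ)) * (if p ^ 2 ∣ q then 1 else 0) +
      js s p / √p * js (q : ℤ) p := by
  unfold Fp
  by_cases h2 : p ^ 2 ∣ q
  · have h1 : p ∣ q := (dvd_pow_self p two_ne_zero).trans h2
    have h3 := js_zero hp h1 1
    rw [one_mul] at h3
    rw [if_pos h2, if_pos h1, if_pos h1, if_pos h2, h3]
    ring
  · by_cases h1 : p ∣ q
    · have h3 := js_zero hp h1 1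
      rw [one_mul] at h3
      rw [if_neg h2, if_pos h1, if_pos h1, if_neg h2, h3, js_zero hp h1]
      ring
    · rw [if_neg h2, if_neg h1, if_neg h1, if_neg h2, js_mul']
      ring

lemma dl_one {x : ℝ} (h : ∃ z : ℤ, x = z) : Four.dl x = 1 := by
  unfold Four.dl
  rw [if_pos h]

lemma dl_zero {x : ℝ} (h : ¬ ∃ z : ℤ, x = z) : Four.dl x = 0 := by
  unfold Four.dl
  rw [if_neg h]

lemma a1 {M j : ℕ} (hM : 1 ≤ M) (hj : j < M) :
    ∑ a ∈ range M, e (-((j : ℝ) / M) * a) = if j = 0 then (M : ℂ) else 0 := by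
  have hMr : (M : ℝ) ≠ 0 := by exact_mod_cast (by omega : M ≠ 0)
  rw [Four.full ⟨-(j : ℤ), by push_cast; field_simp⟩]
  by_cases h : j = 0
  · rw [if_pos h, dl_one ⟨0, by rw [h]; simp⟩, mul_one]
  · rw [if_neg h, dl_zero, mul_zero]
    rintro ⟨z, hz⟩
    have h1 : (j : ℝ) = -z * M := by
      rw [← hz]
      field_simp
    have h2 : (j : ℤ) = -z * M := by exact_mod_cast h1
    have h3 : (M : ℤ) ∣ j := ⟨-z, by rw [h2]; ring⟩
    have h4 : M ∣ j := by exact_mod_cast h3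
    have := Nat.le_of_dvd (by omega) h4
    omega

lemma dlp {p j : ℕ} (hp : 1 ≤ p) : Four.dl (-((j : ℝ) / p)) = if p ∣ j then 1 else 0 := by
  have hpr : (p : ℝ) ≠ 0 := by exact_mod_cast (by omega : p ≠ 0)
  by_cases h : p ∣ j
  · rw [if_pos h, dl_one]
    obtain ⟨c, rfl⟩ := h
    refine ⟨-(c : ℤ), ?_⟩
    push_cast
    field_simp
  · rw [if_neg h, dl_zero]
    rintro ⟨z, hz⟩
    apply h
    have h1 : (j : ℝ) = -z * p := by
      rw [← hz]
      field_simp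
    have h2 : (j : ℤ) = -z * p := by exact_mod_cast h1
    have h3 : (p : ℤ) ∣ j := ⟨-z, by rw [h2]; ring⟩
    exact_mod_cast h3

lemma a2 {p j : ℕ} (hp : 1 ≤ p) :
    ∑ a ∈ range (p ^ 2), (if p ∣ a then (1 : ℂ) else 0) * e (-((j : ℝ) / ((p ^ 2 : ℕ) : ℝ)) * a) =
      p * (if p ∣ j then 1 else 0) := by
  have hpr : (p : ℝ) ≠ 0 := by exact_mod_cast (by omega : p ≠ 0)
  rw [pow_two, Four.sum_mul (by omega) (by
    intro q hq
    rw [if_neg hq, zero_mul]), ← dlp hp, ← Four.full ⟨-(j : ℤ), by push_cast; field_simp⟩]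
  refine sum_congr rfl fun t _ => ?_
  rw [if_pos (dvd_mul_right p t), one_mul]
  congr 1
  push_cast
  field_simp

lemma a3 {M j : ℕ} (hM : 1 ≤ M) :
    ∑ a ∈ range M, (if M ∣ a then (1 : ℂ) else 0) * e (-((j : ℝ) / M) * a) = 1 := by
  rw [sum_eq_single 0]
  · simp [e]
  · intro a ha h0
    rw [if_neg, zero_mul]
    intro h
    have := Nat.le_of_dvd (by omega) h
    rw [mem_range] at ha
    omega
  · intro h
    exact absurd (mem_range.2 (by omega)) h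

/-- the character sum -/
def S (p j : ℕ) : ℂ := ∑ a ∈ range (p ^ 2), ((js (a : ℤ) p : ℝ) : ℂ) *
  e (-((j : ℝ) / ((p ^ 2 : ℕ) : ℝ)) * a)

lemma s_eq {p : ℕ} (hp : p.Prime) (ho : Odd p) (j : ℕ) :
    S p j = ((√p : ℝ) : ℂ)⁻¹ * ((p : ℂ) ^ 2 * ((∑ b ∈ range p, ((js (b : ℤ) p : ℝ) : ℂ) *
      ((1 - I) / 2 * Four.dl (((1 : ℤ) : ℝ) * ((b : ℝ) / p) - (j : ℝ) / ((p ^ 2 : ℕ) : ℝ)))) +
      ∑ b ∈ range p, ((js (b : ℤ) p : ℝ) : ℂ) *
      ((1 + I) / 2 * Four.dl (((-1 : ℤ) : ℝ) * ((b : ℝ) / p) - (j : ℝ) / ((p ^ 2 : ℕ) : ℝ))))) := by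
  have hpr : (p : ℝ) ≠ 0 := by exact_mod_cast hp.ne_zero
  unfold S
  have h1 : ∀ a ∈ range (p ^ 2), ((js (a : ℤ) p : ℝ) : ℂ) *
      e (-((j : ℝ) / ((p ^ 2 : ℕ) : ℝ)) * a) = ∑ b ∈ range p, ((√p : ℝ) : ℂ)⁻¹ *
        ((((js (b : ℤ) p : ℝ) : ℂ) * ((1 - I) / 2 *
          e ((((1 : ℤ) : ℝ) * ((b : ℝ) / p) - (j : ℝ) / ((p ^ 2 : ℕ) : ℝ)) * a))) +
        (((js (b : ℤ) p : ℝ) : ℂ) * ((1 + I) / 2 *
          e ((((-1 : ℤ) : ℝ) * ((b : ℝ) / p) - (j : ℝ) / ((p ^ 2 : ℕ) : ℝ)) * a)))) := by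
    intro a _
    rw [Four.js_eq p ho hp.squarefree a, mul_assoc, Finset.sum_mul, Finset.mul_sum]
    refine sum_congr rfl fun b _ => ?_
    have e1 : e ((((1 : ℤ) : ℝ) * ((b : ℝ) / p) - (j : ℝ) / ((p ^ 2 : ℕ) : ℝ)) * a) =
        e ((b : ℝ) / p * a) * e (-((j : ℝ) / ((p ^ 2 : ℕ) : ℝ)) * a) := by
      rw [← e_add]
      congr 1
      push_cast
      ring
    have e2 : e ((((-1 : ℤ) : ℝ) * ((b : ℝ) / p) - (j : ℝ) / ((p ^ 2 : ℕ) : ℝ)) * a) =
        e (-((b : ℝ) / p) * a) * e (-((j : ℝ) / ((p ^ 2 : ℕ) : ℝ)) * a) := by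
      rw [← e_add]
      congr 1
      push_cast
      ring
    rw [e1, e2]
    ring
  rw [sum_congr rfl h1, sum_comm, ← sum_add_distrib, Finset.mul_sum, Finset.mul_sum]
  refine sum_congr rfl fun b _ => ?_
  rw [← Finset.mul_sum, sum_add_distrib]
  have h2 : ∀ ε : ℤ, ∑ a ∈ range (p ^ 2),
      e (((ε : ℝ) * ((b : ℝ) / p) - (j : ℝ) / ((p ^ 2 : ℕ) : ℝ)) * a) =
      (p : ℂ) ^ 2 * Four.dl ((ε : ℝ) * ((b : ℝ) / p) - (j : ℝ) / ((p ^ 2 : ℕ) : ℝ)) := by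
    intro ε
    rw [Four.full ⟨ε * b * p - j, by push_cast; field_simp⟩]
    push_cast
    rfl
  rw [← Finset.mul_sum, ← Finset.mul_sum, ← Finset.mul_sum, ← Finset.mul_sum, h2, h2]
  ring

lemma half_sum {p : ℕ} (ho : Odd p) (j : ℕ) (b : ℂ) (hb : ‖b‖ ≤ 1) (ε : ℤ) (hε : ε = 1 ∨ ε = -1) :
    ‖∑ a ∈ range p, ((js (a : ℤ) p : ℝ) : ℂ) *
      (b * Four.dl ((ε : ℝ) * ((a : ℝ) / p) - (j : ℝ) / ((p ^ 2 : ℕ) : ℝ)))‖ ≤ 1 := by
  have h := Four.one_sum ho ((j : ℝ) / ((p ^ 2 : ℕ) : ℝ)) (fun h => if h = 0 then 1 else 0)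
    (by intro h; split_ifs <;> simp) b hb ε hε
  rw [sum_eq_single 0] at h
  · simpa using h
  · intro h' _ h0
    simp only [if_neg h0, zero_mul, sum_const_zero]
  · intro h'
    exact absurd (mem_range.2 (by norm_num)) h'

lemma half_zero {p : ℕ} (hp : p.Prime) (j : ℕ) (hj : j = 0 ∨ ¬ p ∣ j) (b : ℂ) (ε : ℤ)
    (hε : ε = 1 ∨ ε = -1) :
    ∑ a ∈ range p, ((js (a : ℤ) p : ℝ) : ℂ) *
      (b * Four.dl ((ε : ℝ) * ((a : ℝ) / p) - (j : ℝ) / ((p ^ 2 : ℕ) : ℝ))) = 0 := by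
  have hpr : (p : ℝ) ≠ 0 := by exact_mod_cast hp.ne_zero
  refine sum_eq_zero fun a ha => ?_
  by_cases hd : ∃ z : ℤ, (ε : ℝ) * ((a : ℝ) / p) - (j : ℝ) / ((p ^ 2 : ℕ) : ℝ) = z
  · obtain ⟨z, hz⟩ := hd
    have h1 : (j : ℝ) = ε * a * p - z * (p * p) := by
      rw [← hz]
      push_cast
      field_simp
      ring
    have h2 : (j : ℤ) = ε * a * p - z * (p * p) := by exact_mod_cast h1
    have h3 : (p : ℤ) ∣ j := ⟨ε * a - z * p, by rw [h2]; ring⟩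
    have h4 : p ∣ j := by exact_mod_cast h3
    rcases hj with rfl | hj
    · have h5 : ε * a = z * p := by
        have hp0 : (p : ℤ) ≠ 0 := by exact_mod_cast hp.ne_zero
        have h6 : (ε * a - z * p) * p = 0 := by
          push_cast at h2
          linear_combination -h2
        rcases mul_eq_zero.1 h6 with h7 | h7
        · linarith
        · exact absurd h7 hp0
      have h6 : (p : ℤ) ∣ a := by
        rcases hε with rfl | rfl
        · exact ⟨z, by linarith⟩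
        · exact ⟨-z, by linarith⟩
      have h7 : p ∣ a := by exact_mod_cast h6
      have h8 := js_zero hp h7 1
      rw [one_mul] at h8
      rw [h8]
      simp
    · exact absurd h4 hj
  · rw [dl_zero hd]
    simp

lemma dft_eq (s : ℤ) {p : ℕ} (hp : p.Prime) {j : ℕ} (hj : j < p ^ 2) :
    (p : ℂ) ^ 2 * dft (p ^ 2) (Fp s p) j = (if j = 0 then (p : ℂ) ^ 2 else 0) -
      (if p ∣ j then 1 else 0) - (1 - 1 / (p : ℂ)) + ((js s p / √p : ℝ) : ℂ) * S p j := by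
  have hpc : (p : ℂ) ≠ 0 := by exact_mod_cast hp.ne_zero
  have hM : 1 ≤ p ^ 2 := Nat.one_le_pow _ _ hp.pos
  have h0 : (p : ℂ) ^ 2 * dft (p ^ 2) (Fp s p) j =
      ∑ a ∈ range (p ^ 2), ((Fp s p a : ℝ) : ℂ) * e (-((j : ℝ) / ((p ^ 2 : ℕ) : ℝ)) * a) := by
    unfold dft
    push_cast
    rw [mul_div_cancel₀ _ (pow_ne_zero _ hpc)]
  have h1 : ∀ a ∈ range (p ^ 2), ((Fp s p a : ℝ) : ℂ) * e (-((j : ℝ) / ((p ^ 2 : ℕ) : ℝ)) * a) =
      e (-((j : ℝ) / ((p ^ 2 : ℕ) : ℝ)) * a) -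
      (1 / (p : ℂ)) * ((if p ∣ a then (1 : ℂ) else 0) * e (-((j : ℝ) / ((p ^ 2 : ℕ) : ℝ)) * a)) -
      (1 - 1 / (p : ℂ)) * ((if p ^ 2 ∣ a then (1 : ℂ) else 0) *
        e (-((j : ℝ) / ((p ^ 2 : ℕ) : ℝ)) * a)) +
      ((js s p / √p : ℝ) : ℂ) * (((js (a : ℤ) p : ℝ) : ℂ) *
        e (-((j : ℝ) / ((p ^ 2 : ℕ) : ℝ)) * a)) := by
    intro a _
    rw [fp_eq s hp a]
    by_cases h1 : p ∣ a <;> by_cases h2 : p ^ 2 ∣ a <;> simp only [h1, h2, if_true, if_false] <;>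
      push_cast <;> ring
  rw [h0, sum_congr rfl h1, sum_add_distrib, sum_sub_distrib, sum_sub_distrib, ← Finset.mul_sum,
    ← Finset.mul_sum, ← Finset.mul_sum, a1 hM hj, a2 hp.one_le, a3 hM]
  unfold S
  by_cases h : j = 0
  · rw [if_pos h, if_pos h]
    push_cast
    field_simp
  · rw [if_neg h, if_neg h]
    field_simp

lemma s_zero {p : ℕ} (hp : p.Prime) (ho : Odd p) {j : ℕ} (hj : j = 0 ∨ ¬ p ∣ j) : S p j = 0 := by
  rw [s_eq hp ho, half_zero hp j hj _ 1 (Or.inl rfl), half_zero hp j hj _ (-1) (Or.inr rfl)]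
  simp

lemma s_le {p : ℕ} (hp : p.Prime) (ho : Odd p) (s : ℤ) (j : ℕ) :
    ‖((js s p / √p : ℝ) : ℂ) * S p j‖ ≤ 2 * p := by
  have hp0 : (0 : ℝ) < p := by exact_mod_cast hp.pos
  have hs : (0 : ℝ) < √p := Real.sqrt_pos.2 hp0
  have hss : √(p : ℝ) * √(p : ℝ) = p := Real.mul_self_sqrt hp0.le
  rw [s_eq hp ho, norm_mul, norm_mul, norm_mul, norm_inv, Complex.norm_real, Complex.norm_real,
    Real.norm_eq_abs, Real.norm_eq_abs, abs_div, abs_of_pos hs]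
  have h1 : ‖(∑ b ∈ range p, ((js (b : ℤ) p : ℝ) : ℂ) *
      ((1 - I) / 2 * Four.dl (((1 : ℤ) : ℝ) * ((b : ℝ) / p) - (j : ℝ) / ((p ^ 2 : ℕ) : ℝ)))) +
      ∑ b ∈ range p, ((js (b : ℤ) p : ℝ) : ℂ) *
      ((1 + I) / 2 * Four.dl (((-1 : ℤ) : ℝ) * ((b : ℝ) / p) - (j : ℝ) / ((p ^ 2 : ℕ) : ℝ)))‖ ≤ 2 := by
    refine (norm_add_le _ _).trans ?_
    have e1 := half_sum ho j _ half_norm.1 1 (Or.inl rfl)
    have e2 := half_sum ho j _ half_norm.2 (-1) (Or.inr rfl)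
    linarith
  have h2 : ‖(p : ℂ) ^ 2‖ = (p : ℝ) ^ 2 := by
    rw [norm_pow]
    simp
  rw [h2]
  have h3 : |js s p| ≤ 1 := js_le _ _
  have h0 := norm_nonneg ((∑ b ∈ range p, ((js (b : ℤ) p : ℝ) : ℂ) *
      ((1 - I) / 2 * Four.dl (((1 : ℤ) : ℝ) * ((b : ℝ) / p) - (j : ℝ) / ((p ^ 2 : ℕ) : ℝ)))) +
      ∑ b ∈ range p, ((js (b : ℤ) p : ℝ) : ℂ) *
      ((1 + I) / 2 * Four.dl (((-1 : ℤ) : ℝ) * ((b : ℝ) / p) - (j : ℝ) / ((p ^ 2 : ℕ) : ℝ))))
  generalize ‖(∑ b ∈ range p, ((js (b : ℤ) p : ℝ) : ℂ) *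
      ((1 - I) / 2 * Four.dl (((1 : ℤ) : ℝ) * ((b : ℝ) / p) - (j : ℝ) / ((p ^ 2 : ℕ) : ℝ)))) +
      ∑ b ∈ range p, ((js (b : ℤ) p : ℝ) : ℂ) *
      ((1 + I) / 2 * Four.dl (((-1 : ℤ) : ℝ) * ((b : ℝ) / p) - (j : ℝ) / ((p ^ 2 : ℕ) : ℝ)))‖ = y
    at h0 h1 ⊢
  have h4 : (1 : ℝ) / √(p : ℝ) * ((√(p : ℝ))⁻¹ * ((p : ℝ) ^ 2 * 2)) = 2 * (p : ℝ) := by
    rw [show (1 : ℝ) / √(p : ℝ) * ((√(p : ℝ))⁻¹ * ((p : ℝ) ^ 2 * 2)) =
        (p : ℝ) ^ 2 * 2 / (√(p : ℝ) * √(p : ℝ)) by field_simp, hss]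
    field_simp
  rw [← h4]
  have h5 : |js s p| / √(p : ℝ) ≤ 1 / √(p : ℝ) := div_le_div_of_nonneg_right h3 hs.le
  refine mul_le_mul h5 ?_ ?_ (by positivity)
  · exact mul_le_mul_of_nonneg_left (mul_le_mul_of_nonneg_left h1 (by positivity)) (by positivity)
  · positivity

lemma c_zero (s : ℤ) {p : ℕ} (hp : p.Prime) (ho : Odd p) :
    dft (p ^ 2) (Fp s p) 0 = ((1 - (2 - 1 / (p : ℝ)) / (p : ℝ) ^ 2 : ℝ) : ℂ) := by
  have hpc : (p : ℂ) ≠ 0 := by exact_mod_cast hp.ne_zero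
  have h := dft_eq s hp (Nat.pow_pos hp.pos : 0 < p ^ 2)
  rw [s_zero hp ho (Or.inl rfl), if_pos rfl, if_pos (dvd_zero _), mul_zero, add_zero] at h
  refine mul_left_cancel₀ (pow_ne_zero 2 hpc) ?_
  rw [h]
  push_cast
  field_simp
  ring

lemma c_one (s : ℤ) {p : ℕ} (hp : p.Prime) (ho : Odd p) {j : ℕ} (hj : j < p ^ 2) (h : ¬ p ∣ j) :
    ‖dft (p ^ 2) (Fp s p) j‖ ≤ 1 / (p : ℝ) ^ 2 := by
  have hp0 : (0 : ℝ) < p := by exact_mod_cast hp.pos
  have hp1 : (1 : ℝ) ≤ p := by exact_mod_cast hp.one_le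
  have hpc : (p : ℂ) ≠ 0 := by exact_mod_cast hp.ne_zero
  have h1 := dft_eq s hp hj
  have hj0 : j ≠ 0 := by
    rintro rfl
    exact h (dvd_zero _)
  rw [s_zero hp ho (Or.inr h), if_neg hj0, if_neg h, mul_zero, add_zero] at h1
  have h2 : (p : ℝ) ^ 2 * ‖dft (p ^ 2) (Fp s p) j‖ = 1 - 1 / (p : ℝ) := by
    have h3 : ‖(p : ℂ) ^ 2‖ = (p : ℝ) ^ 2 := by
      rw [norm_pow]
      simp
    rw [← h3, ← norm_mul, h1]
    have h4 : (0 : ℂ) - 0 - (1 - 1 / (p : ℂ)) = ((-(1 - 1 / (p : ℝ)) : ℝ) : ℂ) := by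
      push_cast
      ring
    rw [h4, Complex.norm_real, Real.norm_eq_abs, abs_neg, abs_of_nonneg]
    rw [sub_nonneg, div_le_one hp0]
    exact hp1
  rw [le_div_iff₀ (by positivity), mul_comm, h2]
  have : 0 < 1 / (p : ℝ) := by positivity
  linarith

lemma c_two (s : ℤ) {p : ℕ} (hp : p.Prime) (ho : Odd p) {j : ℕ} (hj : j < p ^ 2) (h0 : j ≠ 0)
    (h : p ∣ j) : ‖dft (p ^ 2) (Fp s p) j‖ ≤ 3 / (p : ℝ) := by
  have hp0 : (0 : ℝ) < p := by exact_mod_cast hp.pos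
  have hp2 : (2 : ℝ) ≤ p := by exact_mod_cast hp.two_le
  have h1 := dft_eq s hp hj
  rw [if_neg h0, if_pos h] at h1
  have h2 : (p : ℝ) ^ 2 * ‖dft (p ^ 2) (Fp s p) j‖ ≤ 2 + 2 * p := by
    have h3 : ‖(p : ℂ) ^ 2‖ = (p : ℝ) ^ 2 := by
      rw [norm_pow]
      simp
    rw [← h3, ← norm_mul, h1]
    refine (norm_add_le _ _).trans (add_le_add ?_ (s_le hp ho s j))
    have h4 : (0 : ℂ) - 1 - (1 - 1 / (p : ℂ)) = ((-(2 - 1 / (p : ℝ)) : ℝ) : ℂ) := by
      push_cast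
      ring
    have h5 : 0 < 1 / (p : ℝ) := by positivity
    have h6 : 1 / (p : ℝ) ≤ 1 := by
      rw [div_le_one hp0]
      linarith
    rw [h4, Complex.norm_real, Real.norm_eq_abs, abs_neg, abs_of_nonneg (by linarith)]
    linarith
  rw [le_div_iff₀ hp0]
  nlinarith [norm_nonneg (dft (p ^ 2) (Fp s p) j)]

/-- the density at a large prime -/
lemma big (s : ℤ) {p : ℕ} (hp : p.Prime) (ho : Odd p) (t : ℕ) (ht : 3 ≤ t) (N : ℕ) :
    1 - (2 * t + 3 ^ t + 1) / (p : ℝ) ^ 2 ≤ SG t (p ^ 2) (Fp s p) N := by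
  have hp0 : (0 : ℝ) < p := by exact_mod_cast hp.pos
  have hp1 : (1 : ℝ) ≤ p := by exact_mod_cast hp.one_le
  have hM : 1 ≤ p ^ 2 := Nat.one_le_pow _ _ hp.pos
  have h := sg_dft t (p ^ 2) N (by omega) hM (Fp s p)
  obtain ⟨M', hM'⟩ : ∃ M', p ^ 2 = M' + 1 := ⟨p ^ 2 - 1, by omega⟩
  have h1 : ∑ j ∈ range (p ^ 2), dft (p ^ 2) (Fp s p) j ^ t * e (((j : ℝ) / ((p ^ 2 : ℕ) : ℝ)) * N) =
      ∑ j ∈ (range (p ^ 2)).erase 0, dft (p ^ 2) (Fp s p) j ^ t *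
        e (((j : ℝ) / ((p ^ 2 : ℕ) : ℝ)) * N) + dft (p ^ 2) (Fp s p) 0 ^ t := by
    rw [← sum_erase_add _ _ (mem_range.2 hM : 0 ∈ range (p ^ 2))]
    congr 1
    simp [e]
  rw [h1, c_zero s hp ho] at h
  -- the error
  have h2 : ‖∑ j ∈ (range (p ^ 2)).erase 0, dft (p ^ 2) (Fp s p) j ^ t *
      e (((j : ℝ) / ((p ^ 2 : ℕ) : ℝ)) * N)‖ ≤ (3 ^ t + 1) / (p : ℝ) ^ 2 := by
    refine (norm_sum_le _ _).trans ?_
    have h3 : ∀ j ∈ (range (p ^ 2)).erase 0, ‖dft (p ^ 2) (Fp s p) j ^ t *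
        e (((j : ℝ) / ((p ^ 2 : ℕ) : ℝ)) * N)‖ ≤
        (if p ∣ j then 3 ^ t / (p : ℝ) ^ 3 else 0) + 1 / (p : ℝ) ^ 4 := by
      intro j hj
      rw [mem_erase, mem_range] at hj
      rw [norm_mul, e_norm, mul_one, norm_pow]
      by_cases hd : p ∣ j
      · rw [if_pos hd]
        have e1 := c_two s hp ho hj.2 hj.1 hd
        have e2 : ‖dft (p ^ 2) (Fp s p) j‖ ^ t ≤ (3 / (p : ℝ)) ^ t :=
          pow_le_pow_left₀ (norm_nonneg _) e1 t
        have e3 : (3 / (p : ℝ)) ^ t ≤ 3 ^ t / (p : ℝ) ^ 3 := by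
          rw [div_pow]
          exact div_le_div_of_nonneg_left (by positivity) (by positivity)
            (pow_le_pow_right₀ hp1 ht)
        have e4 : 0 ≤ 1 / (p : ℝ) ^ 4 := by positivity
        linarith
      · rw [if_neg hd, zero_add]
        have e1 := c_one s hp ho hj.2 hd
        have e2 : ‖dft (p ^ 2) (Fp s p) j‖ ^ t ≤ (1 / (p : ℝ) ^ 2) ^ t :=
          pow_le_pow_left₀ (norm_nonneg _) e1 t
        have e3 : (1 / (p : ℝ) ^ 2) ^ t ≤ 1 / (p : ℝ) ^ 4 := by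
          rw [div_pow, one_pow, ← pow_mul]
          exact div_le_div_of_nonneg_left (by positivity) (by positivity)
            (pow_le_pow_right₀ hp1 (by omega))
        linarith
    refine (sum_le_sum h3).trans ?_
    rw [sum_add_distrib, sum_const, ← sum_filter, sum_const]
    have h4 : (((range (p ^ 2)).erase 0).filter (fun j => p ∣ j)).card ≤ p := by
      have h5 : ((range (p ^ 2)).erase 0).filter (fun j => p ∣ j) ⊆ (range p).image (fun c => p * c) := by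
        intro j hj
        rw [mem_filter, mem_erase, mem_range] at hj
        obtain ⟨⟨-, hj1⟩, c, rfl⟩ := hj
        rw [mem_image]
        refine ⟨c, mem_range.2 ?_, rfl⟩
        rw [pow_two] at hj1
        exact lt_of_mul_lt_mul_left hj1 (Nat.zero_le p)
      refine (card_le_card h5).trans (card_image_le.trans ?_)
      rw [card_range]
    have h5 : ((range (p ^ 2)).erase 0).card ≤ p ^ 2 := by
      refine (card_erase_le).trans ?_
      rw [card_range]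
    have h4' : ((((range (p ^ 2)).erase 0).filter (fun j => p ∣ j)).card : ℝ) ≤ p := by
      exact_mod_cast h4
    have h5' : ((((range (p ^ 2)).erase 0).card : ℕ) : ℝ) ≤ (p : ℝ) ^ 2 := by
      exact_mod_cast h5
    rw [nsmul_eq_mul, nsmul_eq_mul]
    calc _ ≤ (p : ℝ) * (3 ^ t / (p : ℝ) ^ 3) + (p : ℝ) ^ 2 * (1 / (p : ℝ) ^ 4) := by
          gcongr
      _ = (3 ^ t + 1) / (p : ℝ) ^ 2 := by
        field_simp
  have h3 : 1 - 2 * t / (p : ℝ) ^ 2 ≤ (1 - (2 - 1 / (p : ℝ)) / (p : ℝ) ^ 2) ^ t := by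
    have e1 : 0 < 1 / (p : ℝ) := by positivity
    have e2 : 1 / (p : ℝ) ≤ 1 := by
      rw [div_le_one hp0]
      exact hp1
    have e3 : (2 - 1 / (p : ℝ)) / (p : ℝ) ^ 2 ≤ 2 := by
      rw [div_le_iff₀ (by positivity)]
      have : (1 : ℝ) ≤ (p : ℝ) ^ 2 := one_le_pow₀ hp1
      nlinarith
    have e4 := one_add_mul_le_pow (a := -((2 - 1 / (p : ℝ)) / (p : ℝ) ^ 2)) (by linarith) t
    have e5 : (t : ℝ) * ((2 - 1 / (p : ℝ)) / (p : ℝ) ^ 2) ≤ 2 * t / (p : ℝ) ^ 2 := by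
      rw [mul_div_assoc']
      refine div_le_div_of_nonneg_right ?_ (by positivity)
      have : (0 : ℝ) ≤ t := Nat.cast_nonneg t
      nlinarith
    calc 1 - 2 * t / (p : ℝ) ^ 2 ≤ 1 + t * (-((2 - 1 / (p : ℝ)) / (p : ℝ) ^ 2)) := by linarith
      _ ≤ _ := e4
      _ = _ := by ring
  set E := ∑ j ∈ (range (p ^ 2)).erase 0, dft (p ^ 2) (Fp s p) j ^ t *
      e (((j : ℝ) / ((p ^ 2 : ℕ) : ℝ)) * N) with hE
  have h4 : SG t (p ^ 2) (Fp s p) N = E.re + (1 - (2 - 1 / (p : ℝ)) / (p : ℝ) ^ 2) ^ t := by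
    have := congrArg Complex.re h
    rw [Complex.ofReal_re, Complex.add_re, ← Complex.ofReal_pow, Complex.ofReal_re] at this
    exact this
  have h5 : -E.re ≤ (3 ^ t + 1) / (p : ℝ) ^ 2 :=
    ((neg_le_abs _).trans (Complex.abs_re_le_norm E)).trans h2
  rw [h4]
  have h6 : (2 * t + 3 ^ t + 1) / (p : ℝ) ^ 2 = 2 * t / (p : ℝ) ^ 2 + (3 ^ t + 1) / (p : ℝ) ^ 2 := by
    ring
  rw [h6]
  linarith

lemma fp_nonneg (s : ℤ) {p : ℕ} (hp : p.Prime) (q : ℕ) : 0 ≤ Fp s p q := by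
  have hp0 : (0 : ℝ) < p := by exact_mod_cast hp.pos
  have hp1 : (1 : ℝ) ≤ p := by exact_mod_cast hp.one_le
  have hs : (1 : ℝ) ≤ √p := Real.one_le_sqrt.2 hp1
  unfold Fp
  have h1 := abs_le.1 (js_le (s * (q : ℤ)) p)
  have h2 : -1 ≤ js (s * (q : ℤ)) p / √p := by
    rw [le_div_iff₀ (by linarith)]
    linarith
  have h3 : 0 ≤ 1 - if p ∣ q then 1 / (p : ℝ) else 0 := by
    split_ifs
    · rw [sub_nonneg, div_le_one hp0]
      exact hp1
    · norm_num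
  refine mul_nonneg (mul_nonneg ?_ h3) (by linarith)
  split_ifs <;> norm_num

lemma fp_ge (s : ℤ) {p : ℕ} (hp : p.Prime) (ho : Odd p) {q : ℕ} (hq : ¬ p ^ 2 ∣ q) :
    1 / 4 ≤ Fp s p q := by
  have hp3 : (3 : ℝ) ≤ p := by
    have h2 := hp.two_le
    have h3 : p ≠ 2 := by
      rintro rfl
      exact absurd ho (by decide)
    have : 3 ≤ p := by omega
    exact_mod_cast this
  have hs : (8 / 5 : ℝ) ≤ √p := by
    rw [Real.le_sqrt' (by norm_num)]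
    linarith
  unfold Fp
  rw [if_neg hq]
  have h1 := abs_le.1 (js_le (s * (q : ℤ)) p)
  have h2 : -(5 / 8) ≤ js (s * (q : ℤ)) p / √p := by
    rw [le_div_iff₀ (by linarith)]
    linarith
  have h3 : 2 / 3 ≤ 1 - if p ∣ q then 1 / (p : ℝ) else 0 := by
    split_ifs
    · have : 1 / (p : ℝ) ≤ 1 / 3 := div_le_div_of_nonneg_left (by norm_num) (by norm_num) hp3
      linarith
    · norm_num
  nlinarith

/-- there are solutions -/
lemma sols {M : ℕ} (hM : 3 ≤ M) (t : ℕ) (ht : 2 ≤ t) : ∀ m : ℕ, ∃ a : Fin t → ℕ,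
    (∀ i, a i < M ∧ ¬ M ∣ a i) ∧ (∑ i, a i) % M = m % M := by
  have hnd : ∀ x, 0 < x → x < M → ¬ M ∣ x := fun x h0 h1 h => by
    have := Nat.le_of_dvd h0 h
    omega
  induction t, ht using Nat.le_induction with
  | base =>
    intro m
    by_cases h : (m + (M - 1)) % M = 0
    · refine ⟨![2, M - 1], ?_, ?_⟩
      · intro i
        fin_cases i
        · exact ⟨by show 2 < M; omega, hnd 2 (by norm_num) (by omega)⟩
        · show M - 1 < M ∧ ¬ M ∣ M - 1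
          exact ⟨by omega, hnd _ (by omega) (by omega)⟩
      · rw [Fin.sum_univ_two]
        show (2 + (M - 1)) % M = m % M
        have h1 : (m + (M - 1)) ≡ 0 [MOD M] := by
          show (m + (M - 1)) % M = 0 % M
          rw [h, Nat.zero_mod]
        have h2 : (m + (M - 1)) + 2 ≡ 0 + 2 [MOD M] := h1.add_right 2
        have h3 : (m + (M - 1)) + 2 = (m + 1) + M := by omega
        have h4 : 2 + (M - 1) = 1 + M := by omega
        rw [h4, Nat.add_mod_right]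
        rw [h3] at h2
        have h5 : (m + 1) + M ≡ m + 1 [MOD M] := Nat.add_mod_right _ _
        have h6 : m + 1 ≡ 1 + 1 [MOD M] := h5.symm.trans h2
        exact (Nat.ModEq.add_right_cancel' 1 h6).symm
    · refine ⟨![1, (m + (M - 1)) % M], ?_, ?_⟩
      · intro i
        fin_cases i
        · exact ⟨by show 1 < M; omega, hnd 1 (by norm_num) (by omega)⟩
        · exact ⟨Nat.mod_lt _ (by omega), hnd _ (Nat.pos_of_ne_zero h) (Nat.mod_lt _ (by omega))⟩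
      · rw [Fin.sum_univ_two]
        show (1 + (m + (M - 1)) % M) % M = m % M
        rw [Nat.add_mod_mod, show 1 + (m + (M - 1)) = m + M by omega, Nat.add_mod_right]
  | succ t ht ih =>
    intro m
    obtain ⟨a, ha, hm⟩ := ih (m + (M - 1))
    refine ⟨Fin.cons 1 a, ?_, ?_⟩
    · intro i
      refine Fin.cases ?_ (fun i => ?_) i
      · exact ⟨by show 1 < M; omega, hnd 1 (by norm_num) (by omega)⟩
      · exact ha i
    · rw [Fin.sum_univ_succ]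
      show (1 + ∑ i : Fin t, a i) % M = m % M
      rw [← Nat.add_mod_mod, hm, Nat.add_mod_mod, show 1 + (m + (M - 1)) = m + M by omega,
        Nat.add_mod_right]

/-- the density at a small prime -/
lemma small (s : ℤ) {p : ℕ} (hp : p.Prime) (ho : Odd p) (t : ℕ) (ht : 3 ≤ t) (N : ℕ) :
    (1 / 4) ^ t / ((p : ℝ) ^ 2) ^ (t - 1) ≤ SG t (p ^ 2) (Fp s p) N := by
  classical
  have hp0 : (0 : ℝ) < p := by exact_mod_cast hp.pos
  have hM : 3 ≤ p ^ 2 := by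
    have := hp.two_le
    nlinarith
  obtain ⟨a, ha, hN⟩ := sols hM t (by omega) N
  unfold SG
  have hc : ((p ^ 2 : ℕ) : ℝ) = (p : ℝ) ^ 2 := by push_cast; rfl
  rw [hc]
  refine div_le_div_of_nonneg_right ?_ (by positivity)
  have h1 := Finset.single_le_sum (f := fun a : Fin t → ℕ =>
    if (∑ i, a i) % (p ^ 2) = N % (p ^ 2) then ∏ i, Fp s p (a i) else 0)
    (s := Fintype.piFinset (fun _ : Fin t => range (p ^ 2))) (fun b _ => by
      show 0 ≤ if (∑ i, b i) % (p ^ 2) = N % (p ^ 2) then ∏ i, Fp s p (b i) else 0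
      split_ifs
      · exact prod_nonneg fun i _ => fp_nonneg s hp _
      · exact le_rfl) (Fintype.mem_piFinset.2 fun i => mem_range.2 (ha i).1)
  refine le_trans ?_ h1
  show (1 / 4 : ℝ) ^ t ≤ if (∑ i, a i) % (p ^ 2) = N % (p ^ 2) then ∏ i, Fp s p (a i) else 0
  rw [if_pos hN]
  have h2 : (1 / 4 : ℝ) ^ t = ∏ _i : Fin t, (1 / 4 : ℝ) := by
    rw [prod_const, card_univ, Fintype.card_fin]
  rw [h2]
  exact prod_le_prod (fun i _ => by norm_num) fun i _ => fp_ge s hp ho (ha i).2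

lemma one_sub_sum_le {ι : Type} (s : Finset ι) (u : ι → ℝ) (h0 : ∀ i ∈ s, 0 ≤ u i)
    (h1 : ∀ i ∈ s, u i ≤ 1) : 0 ≤ ∏ i ∈ s, (1 - u i) ∧ ∏ i ∈ s, (1 - u i) ≤ 1 ∧
      1 - ∑ i ∈ s, u i ≤ ∏ i ∈ s, (1 - u i) := by
  classical
  induction s using Finset.induction_on with
  | empty => simp
  | insert i s hi ih =>
    obtain ⟨h2, h3, h4⟩ := ih (fun j hj => h0 j (mem_insert_of_mem hj))
      (fun j hj => h1 j (mem_insert_of_mem hj))
    have h5 := h0 i (mem_insert_self _ _)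
    have h6 := h1 i (mem_insert_self _ _)
    rw [prod_insert hi, sum_insert hi]
    refine ⟨mul_nonneg (by linarith) h2, ?_, ?_⟩
    · nlinarith
    · nlinarith

end ZLb

open ZLb in
theorem sp_low (s : ℤ) (hs : s = 1 ∨ s = -1) (t : ℕ) (ht : 3 ≤ t) : ∃ c : ℝ, 0 < c ∧ ∀ P N : ℕ, Odd P →
    Squarefree P → c ≤ ∏ p ∈ P.primeFactors, SG t (p ^ 2) (Fp s p) N := by
  classical
  set C : ℝ := 2 * t + 3 ^ t + 1 with hC
  have hC0 : 0 < C := by positivity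
  obtain ⟨n0, hn0⟩ := exists_nat_ge (4 * C)
  set δ : ℝ := (1 / 4) ^ t / (((n0 : ℝ) + 1) ^ 2) ^ (t - 1) with hδ
  have hδ0 : 0 < δ := by positivity
  have hδ1 : δ ≤ 1 := by
    rw [hδ, div_le_one (by positivity)]
    calc (1 / 4 : ℝ) ^ t ≤ 1 := pow_le_one₀ (by norm_num) (by norm_num)
      _ ≤ _ := one_le_pow₀ (one_le_pow₀ (by
        have : (0 : ℝ) ≤ n0 := Nat.cast_nonneg _
        linarith))
  refine ⟨δ ^ (n0 + 1) * (1 / 2), by positivity, fun P N hP hsq => ?_⟩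
  have hodd : ∀ p ∈ P.primeFactors, p.Prime ∧ Odd p := fun p hp =>
    ⟨Nat.prime_of_mem_primeFactors hp, hP.of_dvd_nat (Nat.dvd_of_mem_primeFactors hp)⟩
  rw [← prod_filter_mul_prod_filter_not P.primeFactors (fun p => p ≤ n0)]
  refine mul_le_mul ?_ ?_ (by norm_num) ?_
  · have h1 : δ ^ (n0 + 1) ≤ δ ^ (P.primeFactors.filter (fun p => p ≤ n0)).card := by
      refine pow_le_pow_of_le_one hδ0.le hδ1 ?_
      have : P.primeFactors.filter (fun p => p ≤ n0) ⊆ range (n0 + 1) := by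
        intro p hp
        rw [mem_filter] at hp
        rw [mem_range]
        omega
      calc _ ≤ (range (n0 + 1)).card := card_le_card this
        _ = n0 + 1 := card_range _
    refine h1.trans ?_
    rw [← prod_const]
    refine prod_le_prod (fun _ _ => hδ0.le) fun p hp => ?_
    rw [mem_filter] at hp
    have h2 := hodd p hp.1
    refine le_trans ?_ (small s h2.1 h2.2 t ht N)
    have hp0 : (0 : ℝ) < p := by exact_mod_cast h2.1.pos
    have hpn : (p : ℝ) ≤ n0 + 1 := by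
      have : (p : ℝ) ≤ n0 := by exact_mod_cast hp.2
      linarith
    rw [hδ]
    gcongr
  · have h1 : ∀ p ∈ P.primeFactors.filter (fun p => ¬ p ≤ n0), 0 ≤ C / (p : ℝ) ^ 2 ∧
        C / (p : ℝ) ^ 2 ≤ 1 := by
      intro p hp
      rw [mem_filter] at hp
      have h2 := hodd p hp.1
      have hp0 : (1 : ℝ) ≤ p := by exact_mod_cast h2.1.one_le
      have h3 : (n0 : ℝ) ≤ p := by
        have : n0 ≤ p := by omega
        exact_mod_cast this
      refine ⟨by positivity, ?_⟩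
      rw [div_le_one (by positivity)]
      nlinarith
    have h2 := one_sub_sum_le (P.primeFactors.filter (fun p => ¬ p ≤ n0))
      (fun p : ℕ => C / (p : ℝ) ^ 2) (fun p hp => (h1 p hp).1) (fun p hp => (h1 p hp).2)
    have h3 : ∑ p ∈ P.primeFactors.filter (fun p => ¬ p ≤ n0), C / (p : ℝ) ^ 2 ≤ 1 / 2 := by
      have h4 : P.primeFactors.filter (fun p => ¬ p ≤ n0) ⊆ Ioo n0 (P + 1) := by
        intro p hp
        rw [mem_filter] at hp
        rw [mem_Ioo]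
        have := Nat.le_of_mem_primeFactors hp.1
        omega
      calc ∑ p ∈ P.primeFactors.filter (fun p => ¬ p ≤ n0), C / (p : ℝ) ^ 2
          ≤ ∑ p ∈ Ioo n0 (P + 1), C / (p : ℝ) ^ 2 :=
            sum_le_sum_of_subset_of_nonneg h4 fun p _ _ => by positivity
        _ = C * ∑ p ∈ Ioo n0 (P + 1), ((p : ℝ) ^ 2)⁻¹ := by
            rw [Finset.mul_sum]
            refine sum_congr rfl fun p _ => ?_
            rw [div_eq_mul_inv]
        _ ≤ C * (2 / (n0 + 1)) := by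
            exact mul_le_mul_of_nonneg_left (sum_Ioo_inv_sq_le n0 (P + 1)) hC0.le
        _ ≤ 1 / 2 := by
            rw [mul_div_assoc', div_le_iff₀ (by positivity)]
            linarith
    have h5 : (1 / 2 : ℝ) ≤ ∏ p ∈ P.primeFactors.filter (fun p => ¬ p ≤ n0), (1 - C / (p : ℝ) ^ 2) := by
      linarith [h2.2.2]
    refine h5.trans (prod_le_prod (fun p hp => by linarith [(h1 p hp).2]) fun p hp => ?_)
    rw [mem_filter] at hp
    have h6 := hodd p hp.1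
    exact big s h6.1 h6.2 t ht N
  · refine prod_nonneg fun p hp => ?_
    rw [mem_filter] at hp
    have h6 := hodd p hp.1
    exact le_trans (by positivity) (small s h6.1 h6.2 t ht N)

end

end Pool.Agent.J4.H39.CM
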