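import Pool.Agent.J4.H39.CM.Tf3
import Pool.Agent.J4.H39.CM.Zc
import Pool.Agent.J4.H39.CM.Zf
import Pool.Agent.J4.H39.CM.Zg
import Pool.Agent.J4.H39.CM.Zr
import Pool.Agent.J4.H39.CM.Zla
import Pool.Agent.J4.H39.CM.Zlb

set_option autoImplicit false

/-!
Project CM (helper39), third part: the singular series is a product of local densities.
-/

namespace Pool.Agent.J4.H39.CM

open Complex Finset Filter Topology
open Pool.Agent.N879.QM
open Pool.Agent.N879.QM.Avg (fam)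

noncomputable section

/-- sums over `Fr W` as sums over denominators -/
lemma Fr_sum (F : ℚ → ℂ) (W : ℕ) :
    ∑ θ ∈ Fr W, F θ = ∑ b ∈ range (W + 1), ∑ a ∈ (range b).filter (fun a => a.Coprime b), F ((a : ℚ) / b) := by
  rw [range_eq_Ico, sum_eq_sum_Ico_succ_bot (by omega)]
  have h0 : ∑ a ∈ (range 0).filter (fun a => a.Coprime 0), F ((a : ℚ) / (0 : ℕ)) = 0 := by simp
  rw [h0, zero_add]
  have h1 : Ico (0 + 1) (W + 1) = Icc 1 W := by
    ext a
    rw [mem_Ico, mem_Icc]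
    omega
  rw [h1]
  unfold Fr
  rw [sum_image]
  · unfold fr
    rw [sum_filter, sum_product]
    refine sum_congr rfl fun b hb => ?_
    rw [mem_Icc] at hb
    rw [← sum_filter]
    refine sum_congr ?_ fun _ _ => rfl
    ext a
    simp only [mem_filter, mem_range]
    constructor
    · rintro ⟨-, h2, h3⟩
      exact ⟨h2, h3⟩
    · rintro ⟨h2, h3⟩
      exact ⟨by omega, h2, h3⟩
  · intro p hp p' hp' h
    rw [mem_coe] at hp hp'
    unfold fr at hp hp'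
    rw [mem_filter, mem_product, mem_Icc] at hp hp'
    obtain ⟨⟨⟨a1, a2⟩, a3⟩, a4, a5⟩ := hp
    obtain ⟨⟨⟨b1, b2⟩, b3⟩, b4, b5⟩ := hp'
    have h2 : (p.2 : ℚ) / p.1 = (p'.2 : ℚ) / p'.1 := h
    have h3 : (0 : ℚ) < p.1 := by exact_mod_cast a1
    have h4 : (0 : ℚ) < p'.1 := by exact_mod_cast b1
    rw [div_eq_div_iff h3.ne' h4.ne'] at h2
    have h5 : p.2 * p'.1 = p'.2 * p.1 := by exact_mod_cast h2
    have h6 : p.1 ∣ p'.1 := by
      have : p.1 ∣ p.2 * p'.1 := ⟨p'.2, by rw [h5]; ring⟩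
      exact (Nat.Coprime.symm a5).dvd_of_dvd_mul_left this
    have h7 : p'.1 ∣ p.1 := by
      have : p'.1 ∣ p'.2 * p.1 := ⟨p.2, by rw [← h5]; ring⟩
      exact (Nat.Coprime.symm b5).dvd_of_dvd_mul_left this
    have h8 := Nat.dvd_antisymm h6 h7
    rw [h8] at h5
    have h9 : p.2 = p'.2 := Nat.eq_of_mul_eq_mul_right b1 h5
    exact Prod.ext h8 h9

/-- the terms of the singular series with denominator `b` -/
def Sb (s : ℤ) (t N b : ℕ) : ℂ :=
  ∑ a ∈ (range b).filter (fun a => a.Coprime b), e ((((a : ℚ) / b : ℚ) : ℝ) * N) * c1 s ((a : ℚ) / b) ^ t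

/-- the singular series -/
def SN (s : ℤ) (t N : ℕ) : ℂ := ∑' b : ℕ, Sb s t N b

/-- the terms with a general coefficient -/
def Sg (g : ℚ → ℂ) (t N b : ℕ) : ℂ :=
  ∑ a ∈ (range b).filter (fun a => a.Coprime b), e ((((a : ℚ) / b : ℚ) : ℝ) * N) * g ((a : ℚ) / b) ^ t

lemma den_ab {a b : ℕ} (hb : 1 ≤ b) (h : a.Coprime b) : ((a : ℚ) / b).den = b := by
  have h2 : ((a : ℚ) / b) = ((a : ℤ) : ℚ) / ((b : ℤ) : ℚ) := by push_cast; rfl
  have h3 := Rat.den_div_eq_of_coprime (a := (a : ℤ)) (b := (b : ℤ)) (by exact_mod_cast hb)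
    (by simpa using h)
  rw [h2]
  exact_mod_cast h3

/-- bound for the terms of a singular series with coefficients `≤ C den^(-1+1/(4t))` -/
lemma Sg_bd (g : ℚ → ℂ) (C : ℝ) (hC : 0 ≤ C) (t : ℕ) (ht : 3 ≤ t)
    (h : ∀ θ : ℚ, ‖g θ‖ ≤ C * (θ.den : ℝ) ^ (-1 + 1 / (4 * t : ℝ))) (N b : ℕ) (hb : 1 ≤ b) :
    ‖Sg g t N b‖ ≤ C ^ t * (b : ℝ) ^ (-(7 / 4 : ℝ)) := by
  have htR : (3 : ℝ) ≤ t := by exact_mod_cast ht
  have hbR : (1 : ℝ) ≤ b := by exact_mod_cast hb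
  have hb0 : (0 : ℝ) < b := by linarith
  unfold Sg
  have h1 : ∀ a ∈ (range b).filter (fun a => a.Coprime b),
      ‖e ((((a : ℚ) / b : ℚ) : ℝ) * N) * g ((a : ℚ) / b) ^ t‖ ≤ (C * (b : ℝ) ^ (-1 + 1 / (4 * t : ℝ))) ^ t := by
    intro a ha
    rw [mem_filter] at ha
    rw [norm_mul, e_norm, one_mul, norm_pow]
    refine pow_le_pow_left₀ (norm_nonneg _) ?_ t
    have h4 := h ((a : ℚ) / b)
    rw [den_ab hb ha.2] at h4
    exact h4
  refine (norm_sum_le _ _).trans ((sum_le_sum h1).trans ?_)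
  rw [sum_const, nsmul_eq_mul]
  have h5 : (((range b).filter (fun a => a.Coprime b)).card : ℝ) ≤ b := by
    have : ((range b).filter (fun a => a.Coprime b)).card ≤ b := by
      refine (card_filter_le _ _).trans ?_
      rw [card_range]
    exact_mod_cast this
  have h4 : (b : ℝ) * ((b : ℝ) ^ (-1 + 1 / (4 * t : ℝ))) ^ t ≤ (b : ℝ) ^ (-(7 / 4 : ℝ)) := by
    rw [← Real.rpow_natCast, ← Real.rpow_mul hb0.le]
    nth_rewrite 1 [← Real.rpow_one (b : ℝ)]
    rw [← Real.rpow_add hb0]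
    refine Real.rpow_le_rpow_of_exponent_le hbR ?_
    have : (-1 + 1 / (4 * t : ℝ)) * t = -t + 1 / 4 := by
      field_simp
    rw [this]
    linarith
  calc (((range b).filter (fun a => a.Coprime b)).card : ℝ) * (C * (b : ℝ) ^ (-1 + 1 / (4 * t : ℝ))) ^ t ≤
        b * (C * (b : ℝ) ^ (-1 + 1 / (4 * t : ℝ))) ^ t :=
        mul_le_mul_of_nonneg_right h5 (by positivity)
    _ = C ^ t * (b * ((b : ℝ) ^ (-1 + 1 / (4 * t : ℝ))) ^ t) := by
        rw [mul_pow]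
        ring
    _ ≤ _ := mul_le_mul_of_nonneg_left h4 (by positivity)

lemma Sg_zero (g : ℚ → ℂ) (t N : ℕ) : Sg g t N 0 = 0 := by
  unfold Sg
  simp

lemma sum74 : Summable (fun b : ℕ => (b : ℝ) ^ (-(7 / 4 : ℝ))) :=
  (Real.summable_nat_rpow (p := -(7 / 4 : ℝ))).2 (by norm_num)

lemma c1_bd (s : ℤ) (hs : s = 1 ∨ s = -1) (ε : ℝ) (hε : 0 < ε) : ∃ C : ℝ, 0 < C ∧ ∀ θ : ℚ,
    ‖c1 s θ‖ ≤ C * (θ.den : ℝ) ^ (-1 + ε) := by
  obtain ⟨C, hC, h⟩ := c_bd s hs (fun _ => 0) ε hε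
  exact ⟨C, hC, fun θ => by
    have := h θ
    have h2 := norm_nonneg (c0 s (fun _ => 0) θ)
    linarith⟩

lemma Sb_eq (s : ℤ) (t N b : ℕ) : Sb s t N b = Sg (c1 s) t N b := rfl

lemma SN_summable (s : ℤ) (hs : s = 1 ∨ s = -1) (t : ℕ) (ht : 3 ≤ t) (N : ℕ) :
    Summable (fun b => ‖Sb s t N b‖) := by
  have htR : (3 : ℝ) ≤ t := by exact_mod_cast ht
  obtain ⟨C, hC, h⟩ := c1_bd s hs (1 / (4 * t)) (by positivity)
  refine Summable.of_nonneg_of_le (fun _ => norm_nonneg _) (fun b => ?_) (sum74.mul_left (C ^ t))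
  rcases Nat.eq_zero_or_pos b with hb | hb
  · subst hb
    rw [Sb_eq, Sg_zero, norm_zero]
    positivity
  · exact Sg_bd (c1 s) C hC.le t ht h N b hb

lemma Pz_odd (z : ℕ) : Odd (Pz z) := by
  unfold Pz
  refine Finset.prod_induction _ (fun n => Odd n) (fun a b ha hb => ha.mul hb) odd_one ?_
  intro p hp
  rw [mem_filter, mem_Icc] at hp
  exact hp.2.odd_of_ne_two (by omega)

lemma Pz_sq (z : ℕ) : Squarefree (Pz z) := by
  unfold Pz
  refine Finset.squarefree_prod_of_pairwise_isCoprime ?_ ?_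
  · intro p hp q hq hpq
    rw [mem_coe, mem_filter] at hp hq
    exact Nat.coprime_iff_isRelPrime.1 ((Nat.coprime_primes hp.2 hq.2).2 hpq)
  · intro p hp
    exact (mem_filter.1 hp).2.prime.squarefree

lemma Pz_ge : ∀ W : ℕ, ∃ z0 : ℕ, ∀ z : ℕ, z0 ≤ z → W ≤ 64 * Pz z ^ 3 := by
  intro W
  obtain ⟨p, hp, hpp⟩ := Nat.exists_infinite_primes (W + 3)
  refine ⟨p, fun z hz => ?_⟩
  have h1 : p ∣ Pz z := ZC.dvd_Pz (hpp.odd_of_ne_two (by omega)) hpp.prime.squarefree hz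
  have h2 : p ≤ Pz z := Nat.le_of_dvd (Nat.pos_of_ne_zero (ZC.Pz_ne z)) h1
  have h3 : Pz z ≤ Pz z ^ 3 := Nat.le_self_pow (by norm_num) _
  omega

lemma Ph_per (s : ℤ) (P : ℕ) (hsq : Squarefree P) (q : ℕ) : Ph s P (q + 64 * P ^ 2) = Ph s P q := by
  have h1 := ZR.prod_per s P.primeFactors (fun p hp => Nat.prime_of_mem_primeFactors hp) q
  rw [Nat.prod_primeFactors_of_squarefree hsq] at h1
  unfold Ph
  rw [h1]
  congr 1
  have h2 : Function.Periodic (A2 s) 64 := A2_per s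
  have h3 := h2.nat_mul (P ^ 2) q
  rw [mul_comm 64 (P ^ 2)]
  exact h3

/-- the finite products of local densities as sums over frequencies -/
lemma dens_four (s : ℤ) (hs : s = 1 ∨ s = -1) (t : ℕ) (ht : 1 ≤ t) (N P : ℕ) (hP : Odd P) (hsq : Squarefree P) :
    ((SG t 64 (A2 s) N * ∏ p ∈ P.primeFactors, SG t (p ^ 2) (Fp s p) N : ℝ) : ℂ) =
      ∑ b ∈ range (64 * P ^ 3 + 1), Sg (cz s P) t N b := by
  have hP0 : P ≠ 0 := hP.pos.ne'
  rw [← sg_crt s t P N ht hP hsq]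
  rw [sg_fourier t (64 * P ^ 2) (64 * P ^ 3) N ht (by
    have : 0 < P ^ 2 := by positivity
    omega) (Ph s P) (cz s P) (Ph_per s P hsq) (fun q => ph_fourier s hs P q hP hsq)]
  rw [Fr_sum]
  refine sum_congr rfl fun b _ => ?_
  unfold Sg
  exact sum_congr rfl fun a _ => mul_comm _ _

open Classical in
/-- the products of local densities converge to the singular series -/
theorem dens_tendsto (s : ℤ) (hs : s = 1 ∨ s = -1) (t : ℕ) (ht : 3 ≤ t) (N : ℕ) :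
    Tendsto (fun z => ((SG t 64 (A2 s) N * ∏ p ∈ (Pz z).primeFactors, SG t (p ^ 2) (Fp s p) N : ℝ) : ℂ))
      atTop (𝓝 (SN s t N)) := by
  have htR : (3 : ℝ) ≤ t := by exact_mod_cast ht
  obtain ⟨C, hC, h⟩ := cz_bound s hs (1 / (4 * t)) (by positivity)
  have h1 : ∀ z : ℕ, ((SG t 64 (A2 s) N * ∏ p ∈ (Pz z).primeFactors, SG t (p ^ 2) (Fp s p) N : ℝ) : ℂ) =
      ∑' b : ℕ, if b ∈ range (64 * Pz z ^ 3 + 1) then Sg (cz s (Pz z)) t N b else 0 := by
    intro z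
    rw [dens_four s hs t (by omega) N (Pz z) (Pz_odd z) (Pz_sq z)]
    rw [tsum_eq_sum (s := range (64 * Pz z ^ 3 + 1)) (fun b hb => if_neg hb)]
    exact sum_congr rfl fun b hb => (if_pos hb).symm
  simp only [h1]
  unfold SN
  refine tendsto_tsum_of_dominated_convergence (sum74.mul_left (C ^ t)) (fun b => ?_)
    (Eventually.of_forall fun z b => ?_)
  · obtain ⟨z0, hz0⟩ := Pz_ge b
    have h2 : Tendsto (fun z => Sg (cz s (Pz z)) t N b) atTop (𝓝 (Sb s t N b)) := by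
      unfold Sg Sb
      refine tendsto_finsetSum _ fun a _ => ?_
      exact ((cz_tendsto s hs _).pow t).const_mul _
    refine h2.congr' ?_
    filter_upwards [eventually_ge_atTop z0] with z hz
    rw [if_pos (mem_range.2 (by have := hz0 z hz; omega))]
  · split_ifs with h3
    · rcases Nat.eq_zero_or_pos b with hb | hb
      · subst hb
        rw [Sg_zero, norm_zero]
        positivity
      · exact Sg_bd (cz s (Pz z)) C hC.le t ht (fun θ => h (Pz z) θ (ZC.Pz_ne z)) N b hb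
    · rw [norm_zero]
      positivity

/-- the singular series is real and bounded below -/
theorem SN_low (s : ℤ) (hs : s = 1 ∨ s = -1) (t : ℕ) (ht : 3 ≤ t) : ∃ c : ℝ, 0 < c ∧ ∀ N : ℕ,
    c ≤ (SN s t N).re ∧ (SN s t N).im = 0 := by
  obtain ⟨c1, hc1, h1⟩ := s2_low s hs t ht
  obtain ⟨c2, hc2, h2⟩ := sp_low s hs t ht
  refine ⟨c1 * c2, by positivity, fun N => ?_⟩
  have h3 := dens_tendsto s hs t ht N
  have h4 : Tendsto (fun z => (SG t 64 (A2 s) N * ∏ p ∈ (Pz z).primeFactors, SG t (p ^ 2) (Fp s p) N : ℝ))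
      atTop (𝓝 (SN s t N).re) := by
    have := (Complex.continuous_re.tendsto _).comp h3
    refine this.congr fun z => ?_
    exact Complex.ofReal_re _
  have h5 : Tendsto (fun _ : ℕ => (0 : ℝ)) atTop (𝓝 (SN s t N).im) := by
    have := (Complex.continuous_im.tendsto _).comp h3
    refine this.congr fun z => ?_
    exact Complex.ofReal_im _
  refine ⟨ge_of_tendsto' h4 fun z => ?_, tendsto_nhds_unique h5 tendsto_const_nhds⟩
  have a1 := h1 N
  have a2 := h2 (Pz z) N (Pz_odd z) (Pz_sq z)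
  exact mul_le_mul a1 a2 hc2.le (by linarith)

lemma SN_bd (s : ℤ) (hs : s = 1 ∨ s = -1) (t : ℕ) (ht : 3 ≤ t) : ∃ C : ℝ, 0 < C ∧ ∀ N : ℕ, ‖SN s t N‖ ≤ C := by
  have htR : (3 : ℝ) ≤ t := by exact_mod_cast ht
  obtain ⟨C, hC, h⟩ := c1_bd s hs (1 / (4 * t)) (by positivity)
  refine ⟨C ^ t * (1 + ∑' b : ℕ, (b : ℝ) ^ (-(7 / 4 : ℝ))), ?_, fun N => ?_⟩
  · have : 0 ≤ ∑' b : ℕ, (b : ℝ) ^ (-(7 / 4 : ℝ)) := tsum_nonneg fun b => by positivity
    positivity
  · unfold SN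
    have h1 : ∀ b : ℕ, ‖Sb s t N b‖ ≤ C ^ t * (b : ℝ) ^ (-(7 / 4 : ℝ)) := by
      intro b
      rcases Nat.eq_zero_or_pos b with hb | hb
      · subst hb
        rw [Sb_eq, Sg_zero, norm_zero]
        positivity
      · exact Sg_bd (c1 s) C hC.le t ht h N b hb
    refine (tsum_of_norm_bounded (sum74.mul_left (C ^ t)).hasSum h1).trans ?_
    rw [tsum_mul_left]
    have : (0 : ℝ) ≤ C ^ t := by positivity
    nlinarith

end

end Pool.Agent.J4.H39.CM
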