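import Pool.Agent.J4.H39.CM.Sf
import Pool.Agent.J4.H39.CM.Ser
import Pool.Agent.J4.H39.CM.Bb
import Pool.Agent.J4.H39.CM.Bc
import Pool.Agent.J4.H39.CM.Bd
import Pool.Agent.J4.H39.CM.Be
import Pool.Agent.J4.H39.CM.Bf2
import Pool.Agent.J4.H39.CM.Bf

set_option autoImplicit false

/-!
Project CM (helper39), fourth part: the correlations for almost all shifts.
-/

namespace Pool.Agent.J4.H39.CM

open Complex Finset Filter Topology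
open Pool.Agent.N879.QM
open Pool.Agent.N879.QM.Avg (fam)

noncomputable section

lemma log_fac (N : ℕ) (hN : 1 ≤ N) : ∑ q ∈ Icc 1 N, (Real.log N - Real.log q) ≤ N := by
  have hNR : (0 : ℝ) < N := by exact_mod_cast hN
  have h1 := Real.pow_div_factorial_le_exp (N : ℝ) hNR.le N
  have hf : (0 : ℝ) < (N.factorial : ℝ) := by exact_mod_cast Nat.factorial_pos N
  have h2 : Real.log ((N : ℝ) ^ N / N.factorial) ≤ N :=
    (Real.log_le_log (by positivity) h1).trans_eq (Real.log_exp _)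
  rw [Real.log_div (by positivity) hf.ne', Real.log_pow] at h2
  have h3 : Real.log (N.factorial : ℝ) = ∑ q ∈ Icc 1 N, Real.log q := by
    rw [← Finset.prod_Ico_id_eq_factorial]
    push_cast
    rw [Real.log_prod]
    · refine sum_congr ?_ fun _ _ => rfl
      ext a
      rw [mem_Ico, mem_Icc]
      omega
    · intro q hq
      have := (mem_Ico.1 hq).1
      have : (0 : ℝ) < q := by exact_mod_cast this
      exact this.ne'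
  rw [sum_sub_distrib, sum_const, Nat.card_Icc, Nat.add_sub_cancel, nsmul_eq_mul, ← h3]
  exact h2

/-- the archimedean factor of the correlations -/
lemma a1_bd (N h : ℕ) (hN : 1 ≤ N) : |∑ q ∈ Icc 1 (N - h), Real.log q * Real.log ((q + h : ℕ) : ℝ) -
    ((N - h : ℕ) : ℝ) * Real.log N ^ 2| ≤ 2 * N * Real.log N := by
  have hNR : (1 : ℝ) ≤ N := by exact_mod_cast hN
  have hL : 0 ≤ Real.log N := Real.log_nonneg hNR
  have e1 : ((N - h : ℕ) : ℝ) * Real.log N ^ 2 = ∑ _q ∈ Icc 1 (N - h), Real.log N ^ 2 := by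
    rw [sum_const, Nat.card_Icc, Nat.add_sub_cancel, nsmul_eq_mul]
  rw [e1, ← sum_sub_distrib]
  refine (abs_sum_le_sum_abs _ _).trans ?_
  have h1 : ∀ q ∈ Icc 1 (N - h), |Real.log q * Real.log ((q + h : ℕ) : ℝ) - Real.log N ^ 2| ≤
      2 * Real.log N * (Real.log N - Real.log q) := by
    intro q hq
    rw [mem_Icc] at hq
    have hq1 : (1 : ℝ) ≤ q := by exact_mod_cast hq.1
    have hqN : ((q + h : ℕ) : ℝ) ≤ N := by exact_mod_cast (by omega : q + h ≤ N)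
    have hqh : (q : ℝ) ≤ ((q + h : ℕ) : ℝ) := by push_cast; linarith [Nat.cast_nonneg (α := ℝ) h]
    have l1 : 0 ≤ Real.log q := Real.log_nonneg hq1
    have l2 : Real.log q ≤ Real.log ((q + h : ℕ) : ℝ) := Real.log_le_log (by linarith) hqh
    have l3 : Real.log ((q + h : ℕ) : ℝ) ≤ Real.log N := Real.log_le_log (by linarith) hqN
    rw [abs_le]
    constructor <;> nlinarith
  refine (sum_le_sum h1).trans ?_
  rw [← mul_sum]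
  have h2 : ∑ q ∈ Icc 1 (N - h), (Real.log N - Real.log q) ≤ ∑ q ∈ Icc 1 N, (Real.log N - Real.log q) := by
    refine sum_le_sum_of_subset_of_nonneg ?_ ?_
    · intro q hq
      rw [mem_Icc] at hq ⊢
      omega
    · intro q hq _
      rw [mem_Icc] at hq
      have hq1 : (1 : ℝ) ≤ q := by exact_mod_cast hq.1
      have hqN : (q : ℝ) ≤ N := by exact_mod_cast hq.2
      have := Real.log_le_log (by linarith) hqN
      linarith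
  have h3 := log_fac N hN
  calc 2 * Real.log N * ∑ q ∈ Icc 1 (N - h), (Real.log N - Real.log q) ≤ 2 * Real.log N * N :=
        mul_le_mul_of_nonneg_left (h2.trans h3) (by positivity)
    _ = _ := by ring

/-- exponential sums over the shifts -/
def TT (f g : ℚ → ℂ) (W h : ℕ) : ℂ := ∑ θ ∈ Fr W, f θ * (starRingEnd ℂ) (g θ) * e (-((θ : ℝ) * h))

lemma SS_split (s : ℤ) (B : Fin 4 → ℝ) (W N h : ℕ) : SS s B W N h =
    ((∑ q ∈ Icc 1 (N - h), Real.log q * Real.log ((q + h : ℕ) : ℝ) : ℝ) : ℂ) * TT (c1 s) (c1 s) W h +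
    ((∑ q ∈ Icc 1 (N - h), Real.log q : ℝ) : ℂ) * TT (c1 s) (c0 s B) W h +
    ((∑ q ∈ Icc 1 (N - h), Real.log ((q + h : ℕ) : ℝ) : ℝ) : ℂ) * TT (c0 s B) (c1 s) W h +
    ((N - h : ℕ) : ℂ) * TT (c0 s B) (c0 s B) W h := by
  unfold SS TT
  rw [mul_sum, mul_sum, mul_sum, mul_sum, ← sum_add_distrib, ← sum_add_distrib, ← sum_add_distrib]
  refine sum_congr rfl fun θ _ => ?_
  have e1 : ∑ q ∈ Icc 1 (N - h), (c1 s θ * Real.log q + c0 s B θ) *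
      (starRingEnd ℂ) (c1 s θ * Real.log ((q + h : ℕ) : ℝ) + c0 s B θ) =
      ((∑ q ∈ Icc 1 (N - h), Real.log q * Real.log ((q + h : ℕ) : ℝ) : ℝ) : ℂ) *
        (c1 s θ * (starRingEnd ℂ) (c1 s θ)) +
      ((∑ q ∈ Icc 1 (N - h), Real.log q : ℝ) : ℂ) * (c1 s θ * (starRingEnd ℂ) (c0 s B θ)) +
      ((∑ q ∈ Icc 1 (N - h), Real.log ((q + h : ℕ) : ℝ) : ℝ) : ℂ) * (c0 s B θ * (starRingEnd ℂ) (c1 s θ)) +
      ((N - h : ℕ) : ℂ) * (c0 s B θ * (starRingEnd ℂ) (c0 s B θ)) := by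
    have e2 : ((N - h : ℕ) : ℂ) * (c0 s B θ * (starRingEnd ℂ) (c0 s B θ)) =
        ∑ _q ∈ Icc 1 (N - h), (c0 s B θ * (starRingEnd ℂ) (c0 s B θ)) := by
      rw [sum_const, Nat.card_Icc, Nat.add_sub_cancel, nsmul_eq_mul]
    rw [e2]
    push_cast
    rw [sum_mul, sum_mul, sum_mul, ← sum_add_distrib, ← sum_add_distrib, ← sum_add_distrib]
    refine sum_congr rfl fun q _ => ?_
    simp only [map_add, map_mul, Complex.conj_ofReal]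
    ring
  rw [e1]
  ring

lemma ls_fr : ∃ C : ℝ, 0 < C ∧ ∀ (W N : ℕ) (c : ℚ → ℂ), 1 ≤ N → 1 ≤ W → W ^ 4 ≤ N →
    ∑ h ∈ Icc 1 N, ‖∑ θ ∈ Fr W, c θ * e (-((θ : ℝ) * h))‖ ^ 2 ≤ C * N * ∑ θ ∈ Fr W, ‖c θ‖ ^ 2 := by
  obtain ⟨C, hC, h⟩ := ls_exp
  refine ⟨2 * C, by positivity, fun W N c hN hW hWN => ?_⟩
  have h1 := h (Fr W) W N c hN hW (fun θ hθ => mem_Fr.1 hθ)
  refine h1.trans ?_
  have h2 : (∑ θ ∈ Fr W, ‖c θ‖) ^ 2 ≤ (W : ℝ) ^ 2 * ∑ θ ∈ Fr W, ‖c θ‖ ^ 2 := by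
    have h3 := sq_sum_le_card_mul_sum_sq (s := Fr W) (f := fun θ => ‖c θ‖)
    refine h3.trans ?_
    exact mul_le_mul_of_nonneg_right (card_Fr W) (sum_nonneg fun _ _ => by positivity)
  have h4 : (W : ℝ) ^ 2 * (∑ θ ∈ Fr W, ‖c θ‖) ^ 2 ≤ N * ∑ θ ∈ Fr W, ‖c θ‖ ^ 2 := by
    have h5 : (W : ℝ) ^ 4 ≤ N := by exact_mod_cast hWN
    have h6 : 0 ≤ ∑ θ ∈ Fr W, ‖c θ‖ ^ 2 := sum_nonneg fun _ _ => by positivity
    calc (W : ℝ) ^ 2 * (∑ θ ∈ Fr W, ‖c θ‖) ^ 2 ≤ (W : ℝ) ^ 2 * ((W : ℝ) ^ 2 * ∑ θ ∈ Fr W, ‖c θ‖ ^ 2) :=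
          mul_le_mul_of_nonneg_left h2 (by positivity)
      _ = (W : ℝ) ^ 4 * ∑ θ ∈ Fr W, ‖c θ‖ ^ 2 := by ring
      _ ≤ _ := mul_le_mul_of_nonneg_right h5 h6
  calc C * (N * ∑ θ ∈ Fr W, ‖c θ‖ ^ 2 + (W : ℝ) ^ 2 * (∑ θ ∈ Fr W, ‖c θ‖) ^ 2) ≤
        C * (N * ∑ θ ∈ Fr W, ‖c θ‖ ^ 2 + N * ∑ θ ∈ Fr W, ‖c θ‖ ^ 2) :=
        mul_le_mul_of_nonneg_left (by linarith) hC.le
    _ = _ := by ring

/-- mean squares of the exponential sums -/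
lemma TT_ms (s : ℤ) (hs : s = 1 ∨ s = -1) (B : Fin 4 → ℝ) : ∃ C : ℝ, 0 < C ∧ ∀ (W N : ℕ) (f g : ℚ → ℂ), 1 ≤ N → 1 ≤ W →
    W ^ 4 ≤ N → (∀ θ, ‖f θ‖ ≤ ‖c1 s θ‖ + ‖c0 s B θ‖) → (∀ θ, ‖g θ‖ ≤ ‖c1 s θ‖ + ‖c0 s B θ‖) →
    ∑ h ∈ Icc 1 N, ‖TT f g W h‖ ^ 2 ≤ C * N := by
  obtain ⟨C, hC, h⟩ := ls_fr
  obtain ⟨C4, hC4, h4⟩ := q4 s hs B
  refine ⟨C * C4, by positivity, fun W N f g hN hW hWN hf hg => ?_⟩
  have h1 := h W N (fun θ => f θ * (starRingEnd ℂ) (g θ)) hN hW hWN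
  have h2 : ∑ θ ∈ Fr W, ‖f θ * (starRingEnd ℂ) (g θ)‖ ^ 2 ≤ C4 := by
    refine le_trans (sum_le_sum fun θ _ => ?_) (h4 W)
    rw [norm_mul, Complex.norm_conj, mul_pow]
    have a1 : ‖f θ‖ ^ 2 ≤ (‖c1 s θ‖ + ‖c0 s B θ‖) ^ 2 := pow_le_pow_left₀ (norm_nonneg _) (hf θ) 2
    have a2 : ‖g θ‖ ^ 2 ≤ (‖c1 s θ‖ + ‖c0 s B θ‖) ^ 2 := pow_le_pow_left₀ (norm_nonneg _) (hg θ) 2
    calc ‖f θ‖ ^ 2 * ‖g θ‖ ^ 2 ≤ (‖c1 s θ‖ + ‖c0 s B θ‖) ^ 2 * (‖c1 s θ‖ + ‖c0 s B θ‖) ^ 2 :=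
          mul_le_mul a1 a2 (by positivity) (by positivity)
      _ = _ := by ring
  refine h1.trans ?_
  have hNR : (0 : ℝ) ≤ N := Nat.cast_nonneg N
  calc C * N * ∑ θ ∈ Fr W, ‖f θ * (starRingEnd ℂ) (g θ)‖ ^ 2 ≤ C * N * C4 :=
        mul_le_mul_of_nonneg_left h2 (by positivity)
    _ = _ := by ring

/-- the product of the local correlations, up to `z` -/
def CZ (s : ℤ) (z h : ℕ) : ℝ := CG 64 (A2 s) h * ∏ p ∈ (Pz z).primeFactors, CG (p ^ 2) (Fp s p) h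

open Classical in
lemma CZ_four (s : ℤ) (hs : s = 1 ∨ s = -1) (z W h : ℕ) (hW : 64 * Pz z ^ 3 ≤ W) :
    ((CZ s z h : ℝ) : ℂ) = ∑ θ ∈ Fr W, (if θ ∈ Fr (64 * Pz z ^ 3) then
      cz s (Pz z) θ * (starRingEnd ℂ) (cz s (Pz z) θ) else 0) * e (-((θ : ℝ) * h)) := by
  have hP := Pz_odd z
  have hsq := Pz_sq z
  have hP0 : 0 < Pz z ^ 2 := by have := hP.pos; positivity
  unfold CZ
  rw [← cg_crt s (Pz z) h hP hsq]
  rw [cg_fourier (64 * Pz z ^ 2) (64 * Pz z ^ 3) h (by omega) (Ph s (Pz z)) (cz s (Pz z))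
    (Ph_per s (Pz z) hsq) (fun q => ph_fourier s hs (Pz z) q hP hsq)]
  have hsub : Fr (64 * Pz z ^ 3) ⊆ Fr W := by
    intro θ hθ
    rw [mem_Fr] at hθ ⊢
    exact ⟨hθ.1, hθ.2.1, hθ.2.2.trans hW⟩
  rw [← sum_subset hsub]
  · refine sum_congr rfl fun θ hθ => ?_
    rw [if_pos hθ]
  · intro θ _ hθ
    rw [if_neg hθ, zero_mul]

end

end Pool.Agent.J4.H39.CM
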