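import Pool.Agent.J4.H39.CM.Ca

set_option autoImplicit false

/-!
Project CM (helper39), fourth part: the correlations for almost all shifts, conclusion.
-/

namespace Pool.Agent.J4.H39.CM

open Complex Finset Filter Topology
open Pool.Agent.N879.QM
open Pool.Agent.N879.QM.Avg (fam)

noncomputable section

lemma cut_large (m : ℕ) (hm : 1 ≤ m) (K N : ℕ) (h : K ^ m ≤ N) : K ≤ cut m N := by
  unfold cut
  refine Nat.le_floor ?_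
  have hmR : (0 : ℝ) < m := by exact_mod_cast hm
  have h1 : ((K : ℝ) ^ m) ≤ N := by exact_mod_cast h
  calc (K : ℝ) = ((K : ℝ) ^ m) ^ (1 / (m : ℝ)) := by
        rw [← Real.rpow_natCast, ← Real.rpow_mul (Nat.cast_nonneg K), mul_one_div, div_self hmR.ne',
          Real.rpow_one]
    _ ≤ _ := Real.rpow_le_rpow (by positivity) h1 (by positivity)

lemma six (a b c d f g : ℂ) : ‖a + b + c + d + f + g‖ ^ 2 ≤
    6 * (‖a‖ ^ 2 + ‖b‖ ^ 2 + ‖c‖ ^ 2 + ‖d‖ ^ 2 + ‖f‖ ^ 2 + ‖g‖ ^ 2) := by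
  have h1 : ‖a + b + c + d + f + g‖ ≤ ‖a‖ + ‖b‖ + ‖c‖ + ‖d‖ + ‖f‖ + ‖g‖ := by
    have e1 := norm_add_le (a + b + c + d + f) g
    have e2 := norm_add_le (a + b + c + d) f
    have e3 := norm_add_le (a + b + c) d
    have e4 := norm_add_le (a + b) c
    have e5 := norm_add_le a b
    linarith
  have h2 : ‖a + b + c + d + f + g‖ ^ 2 ≤ (‖a‖ + ‖b‖ + ‖c‖ + ‖d‖ + ‖f‖ + ‖g‖) ^ 2 :=
    pow_le_pow_left₀ (norm_nonneg _) h1 2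
  refine h2.trans ?_
  nlinarith [sq_nonneg (‖a‖ - ‖b‖), sq_nonneg (‖a‖ - ‖c‖), sq_nonneg (‖a‖ - ‖d‖), sq_nonneg (‖a‖ - ‖f‖),
    sq_nonneg (‖a‖ - ‖g‖), sq_nonneg (‖b‖ - ‖c‖), sq_nonneg (‖b‖ - ‖d‖), sq_nonneg (‖b‖ - ‖f‖),
    sq_nonneg (‖b‖ - ‖g‖), sq_nonneg (‖c‖ - ‖d‖), sq_nonneg (‖c‖ - ‖f‖), sq_nonneg (‖c‖ - ‖g‖),
    sq_nonneg (‖d‖ - ‖f‖), sq_nonneg (‖d‖ - ‖g‖), sq_nonneg (‖f‖ - ‖g‖)]

lemma mul_sq_bd (x y : ℂ) (K : ℝ) (h : ‖x‖ ≤ K) : ‖x * y‖ ^ 2 ≤ K ^ 2 * ‖y‖ ^ 2 := by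
  rw [norm_mul, mul_pow]
  exact mul_le_mul_of_nonneg_right (pow_le_pow_left₀ (norm_nonneg _) h 2) (by positivity)

/-- the correlations in mean square over the shifts -/
theorem corr_ms (s : ℤ) (hs : s = 1 ∨ s = -1) (B : Fin 4 → ℝ) (hB : Good s B) (ε : ℝ) (hε : 0 < ε) :
    ∃ z0 : ℕ, ∀ z : ℕ, z0 ≤ z → ∃ N0 : ℕ, ∀ N : ℕ, N0 ≤ N →
    ∑ h ∈ Icc 1 N, ‖(∑ q ∈ Icc 1 (N - h), L1 s q * L1 s (q + h)) -
      ((CZ s z h * ((N - h : ℕ) : ℝ) * Real.log N ^ 2 : ℝ) : ℂ)‖ ^ 2 ≤ ε * (N : ℝ) ^ 3 * Real.log N ^ 4 := by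
  classical
  obtain ⟨C1, hC1, h1⟩ := corr_main s hs B hB
  obtain ⟨CT, hCT, hT⟩ := TT_ms s hs B
  obtain ⟨CL, hCL, hL⟩ := ls_fr
  obtain ⟨z0, hz0⟩ := q4_cz s hs (ε / (12 * CL)) (by positivity)
  refine ⟨z0, fun z hz => ?_⟩
  have hlog : Tendsto (fun N : ℕ => Real.log N) atTop atTop :=
    Real.tendsto_log_atTop.comp tendsto_natCast_atTop_atTop
  obtain ⟨N1, hN1⟩ := eventually_atTop.1 (hlog.eventually_ge_atTop (max 1 (12 * (C1 + 7 * CT) / ε)))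
  refine ⟨max (max 1 N1) ((64 * Pz z ^ 3) ^ 4096), fun N hN => ?_⟩
  have hN1' : 1 ≤ N := (le_max_left _ _).trans ((le_max_left _ _).trans hN)
  have hlN := hN1 N ((le_max_right _ _).trans ((le_max_left _ _).trans hN))
  have hPW : 64 * Pz z ^ 3 ≤ cut 4096 N := cut_large 4096 (by norm_num) _ N ((le_max_right _ _).trans hN)
  obtain ⟨w1, w2, w3⟩ := cut_spec 4096 (by norm_num) N hN1'
  obtain ⟨W, hW⟩ : ∃ W, W = cut 4096 N := ⟨_, rfl⟩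
  rw [← hW] at hPW w1 w2
  have hNR : (1 : ℝ) ≤ N := by exact_mod_cast hN1'
  obtain ⟨L, hLdef⟩ : ∃ L : ℝ, L = Real.log N := ⟨_, rfl⟩
  rw [← hLdef] at hlN
  have hL1 : 1 ≤ L := (le_max_left _ _).trans hlN
  have hL2 : 12 * (C1 + 7 * CT) / ε ≤ L := (le_max_right _ _).trans hlN
  have hW4 : W ^ 4 ≤ N := (Nat.pow_le_pow_right w1 (by norm_num)).trans w2
  have hb1 : ∀ θ, ‖c1 s θ‖ ≤ ‖c1 s θ‖ + ‖c0 s B θ‖ := fun θ => by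
    have := norm_nonneg (c0 s B θ)
    linarith
  have hb0 : ∀ θ, ‖c0 s B θ‖ ≤ ‖c1 s θ‖ + ‖c0 s B θ‖ := fun θ => by
    have := norm_nonneg (c1 s θ)
    linarith
  have t1 := hT W N (c1 s) (c1 s) hN1' w1 hW4 hb1 hb1
  have t2 := hT W N (c1 s) (c0 s B) hN1' w1 hW4 hb1 hb0
  have t3 := hT W N (c0 s B) (c1 s) hN1' w1 hW4 hb0 hb1
  have t4 := hT W N (c0 s B) (c0 s B) hN1' w1 hW4 hb0 hb0
  have t5 : ∑ h ∈ Icc 1 N, ‖TT (c1 s) (c1 s) W h - ((CZ s z h : ℝ) : ℂ)‖ ^ 2 ≤ ε / 12 * N := by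
    have e1 := hL W N (fun θ => c1 s θ * (starRingEnd ℂ) (c1 s θ) -
      (if θ ∈ Fr (64 * Pz z ^ 3) then cz s (Pz z) θ * (starRingEnd ℂ) (cz s (Pz z) θ) else 0)) hN1' w1 hW4
    have e2 := hz0 z W hz hPW
    have e3 : ∀ h ∈ Icc 1 N, ‖TT (c1 s) (c1 s) W h - ((CZ s z h : ℝ) : ℂ)‖ ^ 2 =
        ‖∑ θ ∈ Fr W, (c1 s θ * (starRingEnd ℂ) (c1 s θ) -
          (if θ ∈ Fr (64 * Pz z ^ 3) then cz s (Pz z) θ * (starRingEnd ℂ) (cz s (Pz z) θ) else 0)) *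
          e (-((θ : ℝ) * h))‖ ^ 2 := by
      intro h _
      rw [CZ_four s hs z W h hPW]
      unfold TT
      rw [← sum_sub_distrib]
      congr 2
      refine sum_congr rfl fun θ _ => ?_
      rw [sub_mul]
    rw [sum_congr rfl e3]
    refine e1.trans ?_
    calc CL * N * _ ≤ CL * N * (ε / (12 * CL)) := mul_le_mul_of_nonneg_left e2 (by positivity)
      _ = ε / 12 * N := by field_simp
  have key : ∀ h ∈ Icc 1 N, ‖(∑ q ∈ Icc 1 (N - h), L1 s q * L1 s (q + h)) -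
      ((CZ s z h * ((N - h : ℕ) : ℝ) * L ^ 2 : ℝ) : ℂ)‖ ^ 2 ≤
      6 * (‖(∑ q ∈ Icc 1 (N - h), L1 s q * L1 s (q + h)) - SS s B W N h‖ ^ 2 +
        (2 * N * L) ^ 2 * ‖TT (c1 s) (c1 s) W h‖ ^ 2 +
        (N * L ^ 2) ^ 2 * ‖TT (c1 s) (c1 s) W h - ((CZ s z h : ℝ) : ℂ)‖ ^ 2 +
        (N * L) ^ 2 * ‖TT (c1 s) (c0 s B) W h‖ ^ 2 +
        (N * L) ^ 2 * ‖TT (c0 s B) (c1 s) W h‖ ^ 2 +
        (N : ℝ) ^ 2 * ‖TT (c0 s B) (c0 s B) W h‖ ^ 2) := by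
    intro h hh
    rw [mem_Icc] at hh
    have hNh : ((N - h : ℕ) : ℝ) ≤ N := by exact_mod_cast Nat.sub_le N h
    have hlq : ∀ q ∈ Icc 1 (N - h), 0 ≤ Real.log q ∧ Real.log q ≤ L ∧ 0 ≤ Real.log ((q + h : ℕ) : ℝ) ∧
        Real.log ((q + h : ℕ) : ℝ) ≤ L := by
      intro q hq
      rw [mem_Icc] at hq
      have hq1 : (1 : ℝ) ≤ q := by exact_mod_cast hq.1
      have hqh1 : (1 : ℝ) ≤ ((q + h : ℕ) : ℝ) := by exact_mod_cast (by omega : 1 ≤ q + h)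
      have hqhN : ((q + h : ℕ) : ℝ) ≤ N := by exact_mod_cast (by omega : q + h ≤ N)
      have hqN : (q : ℝ) ≤ N := by exact_mod_cast (by omega : q ≤ N)
      rw [hLdef]
      exact ⟨Real.log_nonneg hq1, Real.log_le_log (by linarith) hqN, Real.log_nonneg hqh1,
        Real.log_le_log (by linarith) hqhN⟩
    have a2 : ‖((∑ q ∈ Icc 1 (N - h), Real.log q : ℝ) : ℂ)‖ ≤ N * L := by
      rw [Complex.norm_real, Real.norm_eq_abs, abs_of_nonneg (sum_nonneg fun q hq => (hlq q hq).1)]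
      calc ∑ q ∈ Icc 1 (N - h), Real.log q ≤ ∑ _q ∈ Icc 1 (N - h), L := sum_le_sum fun q hq => (hlq q hq).2.1
        _ = ((N - h : ℕ) : ℝ) * L := by rw [sum_const, Nat.card_Icc, Nat.add_sub_cancel, nsmul_eq_mul]
        _ ≤ _ := mul_le_mul_of_nonneg_right hNh (by linarith)
    have a3 : ‖((∑ q ∈ Icc 1 (N - h), Real.log ((q + h : ℕ) : ℝ) : ℝ) : ℂ)‖ ≤ N * L := by
      rw [Complex.norm_real, Real.norm_eq_abs, abs_of_nonneg (sum_nonneg fun q hq => (hlq q hq).2.2.1)]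
      calc ∑ q ∈ Icc 1 (N - h), Real.log ((q + h : ℕ) : ℝ) ≤ ∑ _q ∈ Icc 1 (N - h), L :=
            sum_le_sum fun q hq => (hlq q hq).2.2.2
        _ = ((N - h : ℕ) : ℝ) * L := by rw [sum_const, Nat.card_Icc, Nat.add_sub_cancel, nsmul_eq_mul]
        _ ≤ _ := mul_le_mul_of_nonneg_right hNh (by linarith)
    have a4 : ‖((N - h : ℕ) : ℂ)‖ ≤ N := by
      rw [Complex.norm_natCast]
      exact hNh
    have a1 : ‖((∑ q ∈ Icc 1 (N - h), Real.log q * Real.log ((q + h : ℕ) : ℝ) -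
        ((N - h : ℕ) : ℝ) * L ^ 2 : ℝ) : ℂ)‖ ≤ 2 * N * L := by
      rw [Complex.norm_real, Real.norm_eq_abs, hLdef]
      exact a1_bd N h hN1'
    have a5 : ‖((((N - h : ℕ) : ℝ) * L ^ 2 : ℝ) : ℂ)‖ ≤ N * L ^ 2 := by
      rw [Complex.norm_real, Real.norm_eq_abs, abs_of_nonneg (by positivity)]
      exact mul_le_mul_of_nonneg_right hNh (by positivity)
    have e1 : (∑ q ∈ Icc 1 (N - h), L1 s q * L1 s (q + h)) -
        ((CZ s z h * ((N - h : ℕ) : ℝ) * L ^ 2 : ℝ) : ℂ) =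
        ((∑ q ∈ Icc 1 (N - h), L1 s q * L1 s (q + h)) - SS s B W N h) +
        ((∑ q ∈ Icc 1 (N - h), Real.log q * Real.log ((q + h : ℕ) : ℝ) -
          ((N - h : ℕ) : ℝ) * L ^ 2 : ℝ) : ℂ) * TT (c1 s) (c1 s) W h +
        ((((N - h : ℕ) : ℝ) * L ^ 2 : ℝ) : ℂ) * (TT (c1 s) (c1 s) W h - ((CZ s z h : ℝ) : ℂ)) +
        ((∑ q ∈ Icc 1 (N - h), Real.log q : ℝ) : ℂ) * TT (c1 s) (c0 s B) W h +
        ((∑ q ∈ Icc 1 (N - h), Real.log ((q + h : ℕ) : ℝ) : ℝ) : ℂ) * TT (c0 s B) (c1 s) W h +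
        ((N - h : ℕ) : ℂ) * TT (c0 s B) (c0 s B) W h := by
      rw [SS_split]
      push_cast
      ring
    rw [e1]
    refine (six _ _ _ _ _ _).trans ?_
    refine mul_le_mul_of_nonneg_left ?_ (by norm_num)
    have b1 := mul_sq_bd _ (TT (c1 s) (c1 s) W h) _ a1
    have b2 := mul_sq_bd _ (TT (c1 s) (c1 s) W h - ((CZ s z h : ℝ) : ℂ)) _ a5
    have b3 := mul_sq_bd _ (TT (c1 s) (c0 s B) W h) _ a2
    have b4 := mul_sq_bd _ (TT (c0 s B) (c1 s) W h) _ a3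
    have b5 := mul_sq_bd _ (TT (c0 s B) (c0 s B) W h) _ a4
    linarith
  rw [← hLdef]
  refine (sum_le_sum key).trans ?_
  rw [← mul_sum]
  simp only [sum_add_distrib, ← mul_sum]
  have m1 := h1 N hN1'
  rw [← hW] at m1
  have m1' : C1 * (N : ℝ) ^ (3 - 1 / 8192 : ℝ) ≤ C1 * (N : ℝ) ^ 3 := by
    refine mul_le_mul_of_nonneg_left ?_ hC1.le
    calc (N : ℝ) ^ (3 - 1 / 8192 : ℝ) ≤ (N : ℝ) ^ (3 : ℝ) :=
          Real.rpow_le_rpow_of_exponent_le hNR (by norm_num)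
      _ = (N : ℝ) ^ 3 := by
          rw [← Real.rpow_natCast]
          norm_num
  have hN3 : (0 : ℝ) < (N : ℝ) ^ 3 := by positivity
  have hLL : 1 ≤ L ^ 2 := one_le_pow₀ hL1
  have n1 : (2 * N * L) ^ 2 * ∑ h ∈ Icc 1 N, ‖TT (c1 s) (c1 s) W h‖ ^ 2 ≤ 4 * CT * ((N : ℝ) ^ 3 * L ^ 2) := by
    calc _ ≤ (2 * N * L) ^ 2 * (CT * N) := mul_le_mul_of_nonneg_left t1 (by positivity)
      _ = _ := by ring
  have n2 : (N * L ^ 2) ^ 2 * ∑ h ∈ Icc 1 N, ‖TT (c1 s) (c1 s) W h - ((CZ s z h : ℝ) : ℂ)‖ ^ 2 ≤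
      ε / 12 * ((N : ℝ) ^ 3 * L ^ 4) := by
    calc _ ≤ (N * L ^ 2) ^ 2 * (ε / 12 * N) := mul_le_mul_of_nonneg_left t5 (by positivity)
      _ = _ := by ring
  have n3 : (N * L) ^ 2 * ∑ h ∈ Icc 1 N, ‖TT (c1 s) (c0 s B) W h‖ ^ 2 ≤ CT * ((N : ℝ) ^ 3 * L ^ 2) := by
    calc _ ≤ (N * L) ^ 2 * (CT * N) := mul_le_mul_of_nonneg_left t2 (by positivity)
      _ = _ := by ring
  have n4 : (N * L) ^ 2 * ∑ h ∈ Icc 1 N, ‖TT (c0 s B) (c1 s) W h‖ ^ 2 ≤ CT * ((N : ℝ) ^ 3 * L ^ 2) := by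
    calc _ ≤ (N * L) ^ 2 * (CT * N) := mul_le_mul_of_nonneg_left t3 (by positivity)
      _ = _ := by ring
  have n5 : (N : ℝ) ^ 2 * ∑ h ∈ Icc 1 N, ‖TT (c0 s B) (c0 s B) W h‖ ^ 2 ≤ CT * ((N : ℝ) ^ 3 * L ^ 2) := by
    calc _ ≤ (N : ℝ) ^ 2 * (CT * N) := mul_le_mul_of_nonneg_left t4 (by positivity)
      _ = CT * (N : ℝ) ^ 3 * 1 := by ring
      _ ≤ CT * (N : ℝ) ^ 3 * L ^ 2 := mul_le_mul_of_nonneg_left hLL (by positivity)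
      _ = _ := by ring
  have n0 : C1 * (N : ℝ) ^ 3 ≤ C1 * ((N : ℝ) ^ 3 * L ^ 2) := by
    refine mul_le_mul_of_nonneg_left ?_ hC1.le
    exact le_mul_of_one_le_right hN3.le hLL
  have fin : 6 * ((C1 + 7 * CT) * ((N : ℝ) ^ 3 * L ^ 2)) ≤ ε / 2 * ((N : ℝ) ^ 3 * L ^ 4) := by
    have f1 : 12 * (C1 + 7 * CT) ≤ ε * L ^ 2 := by
      rw [div_le_iff₀ hε] at hL2
      have : L ≤ L ^ 2 := by nlinarith
      nlinarith
    have f2 : L ^ 4 = L ^ 2 * L ^ 2 := by ring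
    rw [f2]
    have f3 : 0 ≤ (N : ℝ) ^ 3 * L ^ 2 := by positivity
    nlinarith
  have total : 6 * (C1 * ((N : ℝ) ^ 3 * L ^ 2) + 4 * CT * ((N : ℝ) ^ 3 * L ^ 2) + ε / 12 * ((N : ℝ) ^ 3 * L ^ 4) +
      CT * ((N : ℝ) ^ 3 * L ^ 2) + CT * ((N : ℝ) ^ 3 * L ^ 2) + CT * ((N : ℝ) ^ 3 * L ^ 2)) ≤
      ε * (N : ℝ) ^ 3 * L ^ 4 := by
    nlinarith
  refine le_trans ?_ total
  refine mul_le_mul_of_nonneg_left ?_ (by norm_num)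
  linarith

end

end Pool.Agent.J4.H39.CM
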