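import Pool.Agent.J4.H39.CM.Cb

set_option autoImplicit false

/-!
Project CM (helper39), fourth part: the correlations for almost all shifts, consequences.
-/

namespace Pool.Agent.J4.H39.CM

open Complex Finset Filter Topology
open Pool.Agent.N879.QM
open Pool.Agent.N879.QM.Avg (fam)

noncomputable section

open Classical in
/-- the correlations for almost all shifts -/
theorem corr_count (s : ℤ) (hs : s = 1 ∨ s = -1) (B : Fin 4 → ℝ) (hB : Good s B) (ε : ℝ) (hε : 0 < ε) :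
    ∃ z0 : ℕ, ∀ z : ℕ, z0 ≤ z → ∃ N0 : ℕ, ∀ N : ℕ, N0 ≤ N →
    (((Icc 1 N).filter (fun h => ε * (N * Real.log N ^ 2) < ‖(∑ q ∈ Icc 1 (N - h), L1 s q * L1 s (q + h)) -
      ((CZ s z h * ((N - h : ℕ) : ℝ) * Real.log N ^ 2 : ℝ) : ℂ)‖)).card : ℝ) ≤ ε * N := by
  obtain ⟨z0, h0⟩ := corr_ms s hs B hB (ε ^ 3) (by positivity)
  refine ⟨z0, fun z hz => ?_⟩
  obtain ⟨N0, h1⟩ := h0 z hz
  refine ⟨max N0 2, fun N hN => ?_⟩
  have h2 := h1 N ((le_max_left _ _).trans hN)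
  have hN2 : 2 ≤ N := (le_max_right _ _).trans hN
  have hNR : (2 : ℝ) ≤ N := by exact_mod_cast hN2
  have hL : 0 < Real.log N := Real.log_pos (by linarith)
  set F : ℕ → ℂ := fun h => (∑ q ∈ Icc 1 (N - h), L1 s q * L1 s (q + h)) -
      ((CZ s z h * ((N - h : ℕ) : ℝ) * Real.log N ^ 2 : ℝ) : ℂ) with hF
  have h3 : (((Icc 1 N).filter (fun h => ε * (N * Real.log N ^ 2) < ‖F h‖)).card : ℝ) *
      (ε * (N * Real.log N ^ 2)) ^ 2 ≤ ε ^ 3 * (N : ℝ) ^ 3 * Real.log N ^ 4 := by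
    calc _ = ∑ _h ∈ (Icc 1 N).filter (fun h => ε * (N * Real.log N ^ 2) < ‖F h‖),
          (ε * (N * Real.log N ^ 2)) ^ 2 := by rw [sum_const, nsmul_eq_mul]
      _ ≤ ∑ h ∈ (Icc 1 N).filter (fun h => ε * (N * Real.log N ^ 2) < ‖F h‖), ‖F h‖ ^ 2 := by
          refine sum_le_sum fun h hh => ?_
          exact pow_le_pow_left₀ (by positivity) (mem_filter.1 hh).2.le 2
      _ ≤ ∑ h ∈ Icc 1 N, ‖F h‖ ^ 2 := sum_le_sum_of_subset_of_nonneg (filter_subset _ _)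
          (fun _ _ _ => by positivity)
      _ ≤ _ := h2
  have h4 : ε ^ 3 * (N : ℝ) ^ 3 * Real.log N ^ 4 = (ε * N) * (ε * (N * Real.log N ^ 2)) ^ 2 := by ring
  rw [h4] at h3
  exact le_of_mul_le_mul_right h3 (by positivity)

/-- the product of the local correlations is bounded below -/
theorem CZ_low (s : ℤ) (hs : s = 1 ∨ s = -1) : ∃ c : ℝ, 0 < c ∧ ∀ z h : ℕ, h % 4 ≠ 2 → c ≤ CZ s z h := by
  obtain ⟨c1, hc1, h1⟩ := c2_low s hs
  obtain ⟨c2, hc2, h2⟩ := cp_low s hs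
  refine ⟨c1 * c2, by positivity, fun z h hh => ?_⟩
  unfold CZ
  have a1 := h1 h hh
  exact mul_le_mul a1 (h2 (Pz z) h (Pz_odd z) (Pz_sq z)) hc2.le (by linarith)

open Classical in
/-- almost every `h` which is not `2` modulo `4` is a difference of two conductors with non-vanishing central values -/
theorem diff_nonvan (s : ℤ) (hs : s = 1 ∨ s = -1) (B : Fin 4 → ℝ) (hB : Good s B) (ε : ℝ) (hε : 0 < ε) :
    ∃ N0 : ℕ, ∀ N : ℕ, N0 ≤ N →
    (((Icc 1 N).filter (fun h => h % 4 ≠ 2 ∧ ∀ q : ℕ, L1 s q * L1 s (q + h) = 0)).card : ℝ) ≤ ε * N := by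
  obtain ⟨c, hc, hlow⟩ := CZ_low s hs
  obtain ⟨δ, hδ⟩ : ∃ δ : ℝ, δ = min (ε / 2) (c / 4) := ⟨_, rfl⟩
  have hδ0 : 0 < δ := by rw [hδ]; exact lt_min (by positivity) (by positivity)
  have hδ1 : δ ≤ ε / 2 := by rw [hδ]; exact min_le_left _ _
  have hδ2 : δ ≤ c / 4 := by rw [hδ]; exact min_le_right _ _
  obtain ⟨z0, h0⟩ := corr_count s hs B hB δ hδ0
  obtain ⟨N0, h1⟩ := h0 z0 le_rfl
  refine ⟨max N0 2, fun N hN => ?_⟩
  have hN0 : N0 ≤ N := (le_max_left _ _).trans hN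
  have hN2 : 2 ≤ N := (le_max_right _ _).trans hN
  have h2 := h1 (2 * N) (by omega)
  have hNR : (2 : ℝ) ≤ N := by exact_mod_cast hN2
  have h2N : (((2 * N : ℕ)) : ℝ) = 2 * N := by push_cast; ring
  have hL : 0 < Real.log ((2 * N : ℕ) : ℝ) := Real.log_pos (by rw [h2N]; linarith)
  have hsub : (Icc 1 N).filter (fun h => h % 4 ≠ 2 ∧ ∀ q : ℕ, L1 s q * L1 s (q + h) = 0) ⊆
      (Icc 1 (2 * N)).filter (fun h => δ * (((2 * N : ℕ) : ℝ) * Real.log ((2 * N : ℕ) : ℝ) ^ 2) <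
        ‖(∑ q ∈ Icc 1 (2 * N - h), L1 s q * L1 s (q + h)) -
        ((CZ s z0 h * ((2 * N - h : ℕ) : ℝ) * Real.log ((2 * N : ℕ) : ℝ) ^ 2 : ℝ) : ℂ)‖) := by
    intro h hh
    rw [mem_filter, mem_Icc] at hh ⊢
    obtain ⟨⟨a1, a2⟩, a3, a4⟩ := hh
    refine ⟨⟨a1, by omega⟩, ?_⟩
    have e1 : ∑ q ∈ Icc 1 (2 * N - h), L1 s q * L1 s (q + h) = 0 := sum_eq_zero fun q _ => a4 q
    rw [e1, zero_sub, norm_neg, Complex.norm_real, Real.norm_eq_abs]
    have b1 := hlow z0 h a3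
    have b2 : (N : ℝ) ≤ ((2 * N - h : ℕ) : ℝ) := by exact_mod_cast (by omega : N ≤ 2 * N - h)
    have b3 : c * N * Real.log ((2 * N : ℕ) : ℝ) ^ 2 ≤
        CZ s z0 h * ((2 * N - h : ℕ) : ℝ) * Real.log ((2 * N : ℕ) : ℝ) ^ 2 := by
      refine mul_le_mul_of_nonneg_right ?_ (by positivity)
      exact mul_le_mul b1 b2 (by positivity) (by linarith)
    have b4 : δ * (((2 * N : ℕ) : ℝ) * Real.log ((2 * N : ℕ) : ℝ) ^ 2) <
        c * N * Real.log ((2 * N : ℕ) : ℝ) ^ 2 := by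
      have b5 : 0 < (N : ℝ) * Real.log ((2 * N : ℕ) : ℝ) ^ 2 := by positivity
      have b6 : δ * (((2 * N : ℕ) : ℝ) * Real.log ((2 * N : ℕ) : ℝ) ^ 2) =
          (2 * δ) * ((N : ℝ) * Real.log ((2 * N : ℕ) : ℝ) ^ 2) := by
        rw [h2N]
        ring
      have b7 : c * N * Real.log ((2 * N : ℕ) : ℝ) ^ 2 = c * ((N : ℝ) * Real.log ((2 * N : ℕ) : ℝ) ^ 2) := by
        ring
      rw [b6, b7]
      exact mul_lt_mul_of_pos_right (by linarith) b5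
    exact (b4.trans_le b3).trans_le (le_abs_self _)
  have h3 := card_le_card hsub
  calc _ ≤ _ := (Nat.cast_le (α := ℝ)).2 h3
    _ ≤ δ * ((2 * N : ℕ) : ℝ) := h2
    _ ≤ ε * N := by
        rw [h2N]
        nlinarith

end

end Pool.Agent.J4.H39.CM
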