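import Mathlib

/-!
# Discrete circle method: exponential sums over the fractions `j / K`
-/

set_option autoImplicit false

namespace Pool.Agent.J4.H39.CM.Cir

open Finset

/-- `e(x)` -/
noncomputable def e (x : ℝ) : ℂ := Complex.exp (2 * Real.pi * x * Complex.I)

lemma e_add (x y : ℝ) : e (x + y) = e x * e y := by
  unfold e
  rw [← Complex.exp_add]
  congr 1
  push_cast
  ring

lemma e_zero : e 0 = 1 := by simp [e]

lemma e_neg (x : ℝ) : e (-x) = (starRingEnd ℂ) (e x) := by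
  unfold e
  rw [← Complex.exp_conj]
  congr 1
  simp only [map_mul, Complex.conj_ofReal, Complex.conj_I, map_ofNat]
  push_cast
  ring

lemma norm_e (x : ℝ) : ‖e x‖ = 1 := by
  unfold e
  rw [show (2 * Real.pi * x * Complex.I : ℂ) = ((2 * Real.pi * x : ℝ) : ℂ) * Complex.I by
    push_cast; ring]
  exact Complex.norm_exp_ofReal_mul_I _

lemma e_int (n : ℤ) : e n = 1 := by
  unfold e
  rw [Complex.exp_eq_one_iff]
  exact ⟨n, by push_cast; ring⟩

lemma e_eq_one {x : ℝ} (h : e x = 1) : ∃ n : ℤ, x = n := by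
  unfold e at h
  rw [Complex.exp_eq_one_iff] at h
  obtain ⟨n, hn⟩ := h
  refine ⟨n, ?_⟩
  have h1 : (2 * Real.pi * Complex.I : ℂ) ≠ 0 := Complex.two_pi_I_ne_zero
  have h2 : ((x : ℂ) - n) * (2 * Real.pi * Complex.I) = 0 := by
    linear_combination hn
  have h3 : (x : ℂ) = n := by
    rcases mul_eq_zero.1 h2 with h | h
    · exact sub_eq_zero.1 h
    · exact absurd h h1
  exact_mod_cast h3

lemma e_nsmul (x : ℝ) (j : ℕ) : e (x * j) = e x ^ j := by
  unfold e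
  rw [← Complex.exp_nat_mul]
  congr 1
  push_cast
  ring

/-- orthogonality -/
lemma orth {K : ℕ} (hK : 0 < K) (m : ℤ) :
    ∑ j ∈ range K, e ((m : ℝ) / K * j) = if (K : ℤ) ∣ m then (K : ℂ) else 0 := by
  have hKr : (K : ℝ) ≠ 0 := by positivity
  simp_rw [e_nsmul]
  split_ifs with h
  · obtain ⟨l, rfl⟩ := h
    have : e (((K * l : ℤ) : ℝ) / K) = 1 := by
      have : (((K * l : ℤ) : ℝ) / K) = l := by push_cast; field_simp
      rw [this, e_int]
    simp only [this, one_pow, sum_const, card_range, nsmul_eq_mul, mul_one]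
  · have h1 : e ((m : ℝ) / K) ≠ 1 := by
      intro h1
      obtain ⟨n, hn⟩ := e_eq_one h1
      apply h
      refine ⟨n, ?_⟩
      have : (m : ℝ) = K * n := by rw [← hn]; field_simp
      exact_mod_cast this
    have h2 : e ((m : ℝ) / K) ^ K = 1 := by
      rw [← e_nsmul, div_mul_cancel₀ _ hKr, e_int]
    have h3 := geom_sum_mul (e ((m : ℝ) / K)) K
    rw [h2, sub_self] at h3
    rcases mul_eq_zero.1 h3 with h4 | h4
    · exact h4
    · exact absurd (sub_eq_zero.1 h4) h1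

/-- Parseval's identity -/
lemma parseval {ι : Type*} {K : ℕ} (hK : 0 < K) (s : Finset ι) (u : ι → ℤ)
    (hu : ∀ a ∈ s, ∀ b ∈ s, (K : ℤ) ∣ u a - u b → a = b) (h : ι → ℂ) :
    ∑ j ∈ range K, ‖∑ a ∈ s, h a * e ((u a : ℝ) / K * j)‖ ^ 2 = K * ∑ a ∈ s, ‖h a‖ ^ 2 := by
  classical
  have key : ((∑ j ∈ range K, ‖∑ a ∈ s, h a * e ((u a : ℝ) / K * j)‖ ^ 2 : ℝ) : ℂ) =
      ((K * ∑ a ∈ s, ‖h a‖ ^ 2 : ℝ) : ℂ) := by
    have e1 : ∀ j ∈ range K, ((‖∑ a ∈ s, h a * e ((u a : ℝ) / K * j)‖ ^ 2 : ℝ) : ℂ) =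
        ∑ a ∈ s, ∑ b ∈ s, h a * (starRingEnd ℂ) (h b) * e (((u a - u b : ℤ) : ℝ) / K * j) := by
      intro j _
      push_cast
      rw [← Complex.mul_conj', map_sum, Finset.sum_mul_sum]
      refine sum_congr rfl fun a _ => sum_congr rfl fun b _ => ?_
      rw [map_mul, ← e_neg]
      have : ((u a : ℝ) - u b) / K * j = (u a : ℝ) / K * j + -((u b : ℝ) / K * j) := by ring
      rw [this, e_add]
      ring
    rw [Complex.ofReal_sum, sum_congr rfl e1, sum_comm]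
    have e2 : ∀ a ∈ s, ∑ j ∈ range K, ∑ b ∈ s, h a * (starRingEnd ℂ) (h b) *
        e (((u a - u b : ℤ) : ℝ) / K * j) = K * ((‖h a‖ ^ 2 : ℝ) : ℂ) := by
      intro a ha
      rw [sum_comm, sum_eq_single a]
      · rw [← mul_sum, orth hK, sub_self, if_pos (dvd_zero _), Complex.mul_conj']
        push_cast
        ring
      · intro b hb hba
        rw [← mul_sum, orth hK, if_neg (fun hd => hba (hu a ha b hb hd).symm), mul_zero]
      · exact fun hn => absurd ha hn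
    rw [sum_congr rfl e2, ← mul_sum]
    push_cast
    rfl
  exact_mod_cast key

/-- the exponential sum of `f` at `c j / K` -/
noncomputable def Fx (N K : ℕ) (c : ℤ) (f : ℕ → ℂ) (j : ℕ) : ℂ :=
  ∑ n ∈ range N, f n * e (((c * n : ℤ) : ℝ) / K * j)

lemma Fx_l2 {N K : ℕ} (hK : 0 < K) {c : ℤ} (hc : c ≠ 0) (hcK : |c| * N ≤ K) (f : ℕ → ℂ) :
    ∑ j ∈ range K, ‖Fx N K c f j‖ ^ 2 = K * ∑ n ∈ range N, ‖f n‖ ^ 2 := by
  refine parseval hK (range N) (fun n => c * n) ?_ f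
  intro a ha b hb hd
  rw [mem_range] at ha hb
  rw [← mul_sub] at hd
  by_contra hab
  have h1 : ((a : ℤ) - b) ≠ 0 := by omega
  have h2 := Int.le_of_dvd (abs_pos.2 (mul_ne_zero hc h1)) ((dvd_abs _ _).2 hd)
  rw [abs_mul] at h2
  have h3 : |(a : ℤ) - b| < N := by rw [abs_lt]; omega
  have h4 : |c| * |(a : ℤ) - b| < |c| * N := mul_lt_mul_of_pos_left h3 (abs_pos.2 hc)
  omega

lemma Fx_eq (N K : ℕ) (c : ℤ) (f : ℕ → ℂ) (j : ℕ) :
    Fx N K c f j = ∑ n ∈ range N, f n * e (((c : ℝ) * j / K) * n) := by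
  unfold Fx
  refine sum_congr rfl fun n _ => ?_
  congr 2
  push_cast
  ring

lemma Fx_sup {N K : ℕ} {c : ℤ} {f : ℕ → ℂ} {T : ℝ} (hf : ∑ n ∈ range N, ‖f n‖ ^ 2 ≤ T) (j : ℕ) :
    ‖Fx N K c f j‖ ≤ √(N * T) := by
  have h1 : ‖Fx N K c f j‖ ≤ ∑ n ∈ range N, ‖f n‖ := by
    unfold Fx
    refine (norm_sum_le _ _).trans (sum_le_sum fun n _ => ?_)
    rw [norm_mul, norm_e, mul_one]
  have h2 : (∑ n ∈ range N, ‖f n‖) ^ 2 ≤ N * ∑ n ∈ range N, ‖f n‖ ^ 2 := by
    have := sq_sum_le_card_mul_sum_sq (s := range N) (f := fun n => ‖f n‖)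
    rwa [card_range] at this
  refine h1.trans (Real.le_sqrt_of_sq_le (h2.trans ?_))
  exact mul_le_mul_of_nonneg_left hf (by positivity)

lemma sum_mul_le_sqrt {K : ℕ} (x y : ℕ → ℝ) {a b : ℝ} (hx : ∑ j ∈ range K, x j ^ 2 ≤ a)
    (hy : ∑ j ∈ range K, y j ^ 2 ≤ b) : ∑ j ∈ range K, x j * y j ≤ √a * √b := by
  have h := Real.sum_mul_le_sqrt_mul_sqrt (range K) x y
  exact h.trans (mul_le_mul (Real.sqrt_le_sqrt hx) (Real.sqrt_le_sqrt hy) (Real.sqrt_nonneg _)
    (Real.sqrt_nonneg _))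

theorem circ_sumset (N : ℕ) (G : ℕ → ℂ) (M : ℝ)
    (hM : ∀ α : ℝ, ‖∑ n ∈ Finset.range N, G n * e (α * n)‖ ≤ M)
    (A B : Finset ℕ) (hAB : ∀ a ∈ A, ∀ b ∈ B, a + b < N) :
    ‖∑ a ∈ A, ∑ b ∈ B, G (a + b)‖ ≤ M * √(A.card * B.card) := by
  classical
  have hM0 : 0 ≤ M := (norm_nonneg _).trans (hM 0)
  rcases A.eq_empty_or_nonempty with rfl | hA
  · simp
  rcases B.eq_empty_or_nonempty with rfl | hB
  · simp
  obtain ⟨a₀, ha₀⟩ := hA
  obtain ⟨b₀, hb₀⟩ := hB
  have hN0 : 0 < N := by have := hAB a₀ ha₀ b₀ hb₀; omega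
  obtain ⟨K, hK⟩ : ∃ K, K = N := ⟨N, rfl⟩
  have hK0 : 0 < K := by omega
  have hKr : (0 : ℝ) < K := by positivity
  set SA : ℕ → ℂ := fun j => ∑ a ∈ A, (1 : ℂ) * e (((a : ℤ) : ℝ) / K * j) with hSA
  set SB : ℕ → ℂ := fun j => ∑ b ∈ B, (1 : ℂ) * e (((b : ℤ) : ℝ) / K * j) with hSB
  have lA : ∑ j ∈ range K, ‖SA j‖ ^ 2 = K * A.card := by
    rw [hSA, parseval hK0 A (fun a => (a : ℤ)) ?_ fun _ => 1]
    · simp
    · intro a ha b hb hd
      have h1 := hAB a ha b₀ hb₀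
      have h2 := hAB b hb b₀ hb₀
      obtain ⟨l, hl⟩ := hd
      have h3 : l = 0 := by
        by_contra hl0
        have h4 : (K : ℤ) ≤ |(a : ℤ) - b| := by
          rw [hl, abs_mul, Nat.abs_cast]
          have := Int.one_le_abs hl0
          nlinarith
        have h5 : |(a : ℤ) - b| < N := by rw [abs_lt]; omega
        omega
      rw [h3] at hl
      omega
  have lB : ∑ j ∈ range K, ‖SB j‖ ^ 2 = K * B.card := by
    rw [hSB, parseval hK0 B (fun a => (a : ℤ)) ?_ fun _ => 1]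
    · simp
    · intro a ha b hb hd
      have h1 := hAB a₀ ha₀ a ha
      have h2 := hAB a₀ ha₀ b hb
      obtain ⟨l, hl⟩ := hd
      have h3 : l = 0 := by
        by_contra hl0
        have h4 : (K : ℤ) ≤ |(a : ℤ) - b| := by
          rw [hl, abs_mul, Nat.abs_cast]
          have := Int.one_le_abs hl0
          nlinarith
        have h5 : |(a : ℤ) - b| < N := by rw [abs_lt]; omega
        omega
      rw [h3] at hl
      omega
  have main : (K : ℂ) * ∑ a ∈ A, ∑ b ∈ B, G (a + b) =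
      ∑ j ∈ range K, (∑ n ∈ range N, G n * e ((-(j : ℝ) / K) * n)) * (SA j * SB j) := by
    have e1 : ∀ j ∈ range K, (∑ n ∈ range N, G n * e ((-(j : ℝ) / K) * n)) * (SA j * SB j) =
        ∑ a ∈ A, ∑ b ∈ B, ∑ n ∈ range N, G n * e ((((a + b : ℕ) - n : ℤ) : ℝ) / K * j) := by
      intro j _
      rw [hSA, hSB]
      simp only
      rw [sum_mul_sum, mul_sum]
      refine sum_congr rfl fun a _ => ?_
      rw [mul_sum]
      refine sum_congr rfl fun b _ => ?_
      rw [sum_mul]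
      refine sum_congr rfl fun n _ => ?_
      have : ((((a + b : ℕ) - n : ℤ) : ℝ) / K * j) = (-(j : ℝ) / K) * n +
          (((a : ℤ) : ℝ) / K * j + ((b : ℤ) : ℝ) / K * j) := by
        push_cast; ring
      rw [this, e_add, e_add]
      ring
    have e2 : ∑ j ∈ range K, ∑ a ∈ A, ∑ b ∈ B, ∑ n ∈ range N,
        G n * e ((((a + b : ℕ) - n : ℤ) : ℝ) / K * j) = ∑ a ∈ A, ∑ b ∈ B, ∑ n ∈ range N,
        ∑ j ∈ range K, G n * e ((((a + b : ℕ) - n : ℤ) : ℝ) / K * j) := by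
      rw [sum_comm]
      refine sum_congr rfl fun a _ => ?_
      rw [sum_comm]
      refine sum_congr rfl fun b _ => ?_
      rw [sum_comm]
    rw [sum_congr rfl e1, e2, mul_sum]
    refine sum_congr rfl fun a ha => ?_
    rw [mul_sum]
    refine sum_congr rfl fun b hb => ?_
    have hab := hAB a ha b hb
    rw [sum_eq_single (a + b)]
    · rw [← mul_sum, orth hK0, sub_self, if_pos (dvd_zero _), mul_comm]
    · intro n hn hne
      rw [← mul_sum, orth hK0, if_neg ?_, mul_zero]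
      rw [mem_range] at hn
      intro hd
      have h1 : (((a + b : ℕ) : ℤ) - n) ≠ 0 := by omega
      have h2 := Int.le_of_dvd (abs_pos.2 h1) ((dvd_abs _ _).2 hd)
      have h3 : |(((a + b : ℕ) : ℤ) - n)| < N := by rw [abs_lt]; omega
      omega
    · intro hn
      exact absurd (mem_range.2 hab) hn
  have h1 : (K : ℝ) * ‖∑ a ∈ A, ∑ b ∈ B, G (a + b)‖ ≤ M * (K * √(A.card * B.card)) := by
    have h2 : ‖(K : ℂ) * ∑ a ∈ A, ∑ b ∈ B, G (a + b)‖ =
        K * ‖∑ a ∈ A, ∑ b ∈ B, G (a + b)‖ := by rw [norm_mul, Complex.norm_natCast]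
    rw [← h2, main]
    refine (norm_sum_le _ _).trans ?_
    calc ∑ j ∈ range K, ‖(∑ n ∈ range N, G n * e ((-(j : ℝ) / K) * n)) * (SA j * SB j)‖
        ≤ ∑ j ∈ range K, M * (‖SA j‖ * ‖SB j‖) := by
          refine sum_le_sum fun j _ => ?_
          rw [norm_mul, norm_mul]
          exact mul_le_mul_of_nonneg_right (hM _) (by positivity)
      _ = M * ∑ j ∈ range K, ‖SA j‖ * ‖SB j‖ := by rw [mul_sum]
      _ ≤ M * (√(K * A.card) * √(K * B.card)) :=
          mul_le_mul_of_nonneg_left (sum_mul_le_sqrt _ _ lA.le lB.le) hM0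
      _ = _ := by
          rw [← Real.sqrt_mul (by positivity), show (K : ℝ) * A.card * (K * B.card) =
            K ^ 2 * (A.card * B.card) by ring, Real.sqrt_mul (by positivity),
            Real.sqrt_sq hKr.le]
  have h2 : (K : ℝ) * ‖∑ a ∈ A, ∑ b ∈ B, G (a + b)‖ ≤ K * (M * √(A.card * B.card)) := by
    linarith
  exact le_of_mul_le_mul_left h2 hKr

/-- products of the exponential sums -/
lemma prod_Fx {ι : Type*} [Fintype ι] [DecidableEq ι] (N K : ℕ) (c : ι → ℤ) (f : ι → ℕ → ℂ)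
    (j : ℕ) :
    ∏ i, Fx N K (c i) (f i) j = ∑ q ∈ Fintype.piFinset (fun _ : ι => range N),
      (∏ i, f i (q i)) * e (((∑ i, c i * (q i : ℤ) : ℤ) : ℝ) / K * j) := by
  unfold Fx
  rw [Finset.prod_univ_sum]
  refine sum_congr rfl fun q _ => ?_
  rw [prod_mul_distrib]
  congr 1
  have : ∀ s : Finset ι, ∏ i ∈ s, e (((c i * (q i : ℤ) : ℤ) : ℝ) / K * j) =
      e (((∑ i ∈ s, c i * (q i : ℤ) : ℤ) : ℝ) / K * j) := by
    intro s
    induction s using Finset.induction_on with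
    | empty => simp [e_zero]
    | insert a s ha ih =>
      rw [prod_insert ha, ih, sum_insert ha, ← e_add]
      congr 1
      push_cast
      ring
  exact this univ

/-- two factors in `L²`, the other ones bounded -/
lemma prod_l2 {ι : Type*} [DecidableEq ι] (K : ℕ) (s : Finset ι) (hs : 2 ≤ s.card)
    (H : ι → ℕ → ℝ) {T R : ℝ} (h0 : ∀ i j, 0 ≤ H i j) (hR : ∀ i ∈ s, ∀ j, H i j ≤ R)
    (hT : ∀ i ∈ s, ∑ j ∈ range K, H i j ^ 2 ≤ K * T) (hR0 : 0 ≤ R) :
    ∑ j ∈ range K, ∏ i ∈ s, H i j ≤ K * T * R ^ (s.card - 2) := by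
  obtain ⟨a, ha, b, hb, hab⟩ := Finset.one_lt_card.1 (show 1 < s.card by omega)
  have hbe : b ∈ s.erase a := mem_erase.2 ⟨hab.symm, hb⟩
  have h1 : ∀ j ∈ range K, ∏ i ∈ s, H i j ≤ (H a j ^ 2 + H b j ^ 2) / 2 * R ^ (s.card - 2) := by
    intro j _
    rw [← mul_prod_erase s _ ha, ← mul_prod_erase (s.erase a) _ hbe, ← mul_assoc]
    have h2 : ∏ i ∈ (s.erase a).erase b, H i j ≤ R ^ (s.card - 2) := by
      calc ∏ i ∈ (s.erase a).erase b, H i j ≤ ∏ _i ∈ (s.erase a).erase b, R :=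
            prod_le_prod (fun i _ => h0 i j) fun i hi =>
              hR i (mem_of_mem_erase (mem_of_mem_erase hi)) j
        _ = R ^ (s.card - 2) := by
            rw [prod_const, card_erase_of_mem hbe, card_erase_of_mem ha]
            congr 1
    have h3 : H a j * H b j ≤ (H a j ^ 2 + H b j ^ 2) / 2 := by
      nlinarith [sq_nonneg (H a j - H b j)]
    exact mul_le_mul h3 h2 (prod_nonneg fun i _ => h0 i j) (by positivity)
  refine (sum_le_sum h1).trans ?_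
  rw [← sum_mul, ← sum_div, sum_add_distrib]
  refine mul_le_mul_of_nonneg_right ?_ (by positivity)
  have := hT a ha
  have := hT b hb
  linarith

theorem circ_linear (t : ℕ) (ht : 3 ≤ t) (N : ℕ) (c : Fin t → ℤ) (hc : ∀ i, c i ≠ 0) (n : ℤ)
    (f g : Fin t → ℕ → ℂ) (M T : ℝ)
    (hM : ∀ i, ∀ α : ℝ, ‖∑ n ∈ Finset.range N, (f i n - g i n) * e (α * n)‖ ≤ M)
    (hf : ∀ i, ∑ n ∈ Finset.range N, ‖f i n‖ ^ 2 ≤ T)
    (hg : ∀ i, ∑ n ∈ Finset.range N, ‖g i n‖ ^ 2 ≤ T) :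
    ‖∑ q ∈ Fintype.piFinset (fun _ : Fin t => Finset.range N),
      if ∑ i, c i * (q i : ℤ) = n then ∏ i, f i (q i) - ∏ i, g i (q i) else 0‖ ≤
      t * M * T * (√(N * T)) ^ (t - 3) := by
  classical
  have i₀ : Fin t := ⟨0, by omega⟩
  have hM0 : 0 ≤ M := (norm_nonneg _).trans (hM i₀ 0)
  have hT0 : 0 ≤ T := (sum_nonneg fun _ _ => by positivity).trans (hf i₀)
  set R := √(N * T) with hR
  obtain ⟨K, hK⟩ : ∃ K : ℕ, (K : ℤ) = (∑ i, |c i|) * N + |n| + 1 :=
    ⟨((∑ i, |c i|) * N + |n| + 1).toNat, Int.toNat_of_nonneg (by positivity)⟩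
  have hK0 : 0 < K := by
    have : 0 < (K : ℤ) := by rw [hK]; positivity
    exact_mod_cast this
  have hKr : (0 : ℝ) < K := by positivity
  have hcK : ∀ i, |c i| * N ≤ K := by
    intro i
    have h1 : |c i| ≤ ∑ i, |c i| := single_le_sum (f := fun i => |c i|)
      (fun _ _ => abs_nonneg _) (mem_univ i)
    have h2 : |c i| * N ≤ (∑ i, |c i|) * N := mul_le_mul_of_nonneg_right h1 (by positivity)
    have := abs_nonneg n
    omega
  have main : (K : ℂ) * ∑ q ∈ Fintype.piFinset (fun _ : Fin t => Finset.range N),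
      (if ∑ i, c i * (q i : ℤ) = n then ∏ i, f i (q i) - ∏ i, g i (q i) else 0) =
      ∑ j ∈ range K, (∏ i, Fx N K (c i) (f i) j - ∏ i, Fx N K (c i) (g i) j) *
        e (((-n : ℤ) : ℝ) / K * j) := by
    have e1 : ∀ j ∈ range K, (∏ i, Fx N K (c i) (f i) j - ∏ i, Fx N K (c i) (g i) j) *
        e (((-n : ℤ) : ℝ) / K * j) = ∑ q ∈ Fintype.piFinset (fun _ : Fin t => range N),
        (∏ i, f i (q i) - ∏ i, g i (q i)) *
          e (((∑ i, c i * (q i : ℤ) - n : ℤ) : ℝ) / K * j) := by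
      intro j _
      rw [prod_Fx, prod_Fx, ← sum_sub_distrib, sum_mul]
      refine sum_congr rfl fun q _ => ?_
      have : (((∑ i, c i * (q i : ℤ) - n : ℤ) : ℝ) / K * j) =
          ((∑ i, c i * (q i : ℤ) : ℤ) : ℝ) / K * j + ((-n : ℤ) : ℝ) / K * j := by
        push_cast; ring
      rw [this, e_add]
      ring
    rw [sum_congr rfl e1, sum_comm, mul_sum]
    refine sum_congr rfl fun q hq => ?_
    rw [← mul_sum, orth hK0]
    rw [Fintype.mem_piFinset] at hq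
    by_cases hqn : ∑ i, c i * (q i : ℤ) = n
    · rw [if_pos hqn, if_pos (by rw [hqn, sub_self]; exact dvd_zero _), mul_comm]
    · rw [if_neg hqn, if_neg ?_, mul_zero, mul_zero]
      intro hd
      have h1 : (∑ i, c i * (q i : ℤ) - n) ≠ 0 := sub_ne_zero.2 hqn
      have h2 := Int.le_of_dvd (abs_pos.2 h1) ((dvd_abs _ _).2 hd)
      have h3 : |∑ i, c i * (q i : ℤ)| ≤ (∑ i, |c i|) * N := by
        refine (abs_sum_le_sum_abs _ _).trans ?_
        rw [sum_mul]
        refine sum_le_sum fun i _ => ?_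
        rw [abs_mul, Nat.abs_cast]
        refine mul_le_mul_of_nonneg_left ?_ (abs_nonneg _)
        have := mem_range.1 (hq i)
        exact_mod_cast this.le
      have h4 := abs_sub (∑ i, c i * (q i : ℤ)) n
      omega
  -- telescoping
  have tel : ∀ j, ‖∏ i, Fx N K (c i) (f i) j - ∏ i, Fx N K (c i) (g i) j‖ ≤
      ∑ i, M * ∏ k ∈ univ.erase i, (if k < i then ‖Fx N K (c k) (g k) j‖ else
        ‖Fx N K (c k) (f k) j‖) := by
    intro j
    have h1 := Finset.prod_sub_ordered (univ : Finset (Fin t)) (fun i => Fx N K (c i) (f i) j)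
      (fun i => Fx N K (c i) (f i) j - Fx N K (c i) (g i) j)
    simp only [sub_sub_cancel] at h1
    rw [h1, sub_sub_cancel]
    refine (norm_sum_le _ _).trans (sum_le_sum fun i _ => ?_)
    have h2 : ‖Fx N K (c i) (f i) j - Fx N K (c i) (g i) j‖ ≤ M := by
      rw [Fx_eq, Fx_eq, ← sum_sub_distrib]
      refine le_trans (le_of_eq ?_) (hM i (((c i : ℝ) * j / K)))
      congr 1
      refine sum_congr rfl fun n _ => ?_
      ring
    have h3 : ∏ k ∈ univ.erase i, (if k < i then ‖Fx N K (c k) (g k) j‖ else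
        ‖Fx N K (c k) (f k) j‖) = (∏ k with k < i, ‖Fx N K (c k) (g k) j‖) *
          ∏ k with i < k, ‖Fx N K (c k) (f k) j‖ := by
      have e1 : (univ.erase i : Finset (Fin t)) = univ.filter (· < i) ∪ univ.filter (i < ·) := by
        ext k
        simp only [mem_erase, mem_univ, and_true, mem_union, mem_filter, true_and]
        exact ne_iff_lt_or_gt
      rw [e1, prod_union ?_]
      · congr 1
        · refine prod_congr rfl fun k hk => ?_
          rw [if_pos (mem_filter.1 hk).2]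
        · refine prod_congr rfl fun k hk => ?_
          rw [if_neg (not_lt.2 (mem_filter.1 hk).2.le)]
      · rw [Finset.disjoint_left]
        intro k hk hk'
        exact absurd (mem_filter.1 hk).2 (not_lt.2 (mem_filter.1 hk').2.le)
    rw [h3, norm_mul, norm_mul, norm_prod, norm_prod, mul_assoc]
    exact mul_le_mul_of_nonneg_right h2 (by positivity)
  have hsum : ∀ i : Fin t, ∑ j ∈ range K, ∏ k ∈ univ.erase i,
      (if k < i then ‖Fx N K (c k) (g k) j‖ else ‖Fx N K (c k) (f k) j‖) ≤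
      K * T * R ^ (t - 3) := by
    intro i
    have hcard : (univ.erase i : Finset (Fin t)).card = t - 1 := by
      rw [card_erase_of_mem (mem_univ i), card_univ, Fintype.card_fin]
    have h1 := prod_l2 K (univ.erase i : Finset (Fin t)) (by rw [hcard]; omega)
      (fun k j => if k < i then ‖Fx N K (c k) (g k) j‖ else ‖Fx N K (c k) (f k) j‖)
      (T := T) (R := R) (fun k j => by split_ifs <;> positivity)
      (fun k _ j => by
        split_ifs
        · exact Fx_sup (hg k) j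
        · exact Fx_sup (hf k) j)
      (fun k _ => by
        split_ifs
        · rw [Fx_l2 hK0 (hc k) (hcK k)]
          exact mul_le_mul_of_nonneg_left (hg k) hKr.le
        · rw [Fx_l2 hK0 (hc k) (hcK k)]
          exact mul_le_mul_of_nonneg_left (hf k) hKr.le) (Real.sqrt_nonneg _)
    rw [hcard] at h1
    exact h1
  have h1 : (K : ℝ) * ‖∑ q ∈ Fintype.piFinset (fun _ : Fin t => Finset.range N),
      (if ∑ i, c i * (q i : ℤ) = n then ∏ i, f i (q i) - ∏ i, g i (q i) else 0)‖ ≤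
      K * (t * M * T * R ^ (t - 3)) := by
    rw [show (K : ℝ) * ‖∑ q ∈ Fintype.piFinset (fun _ : Fin t => Finset.range N),
      (if ∑ i, c i * (q i : ℤ) = n then ∏ i, f i (q i) - ∏ i, g i (q i) else 0)‖ =
      ‖(K : ℂ) * ∑ q ∈ Fintype.piFinset (fun _ : Fin t => Finset.range N),
      (if ∑ i, c i * (q i : ℤ) = n then ∏ i, f i (q i) - ∏ i, g i (q i) else 0)‖ by
        rw [norm_mul, Complex.norm_natCast], main]
    refine (norm_sum_le _ _).trans ?_
    calc ∑ j ∈ range K, ‖(∏ i, Fx N K (c i) (f i) j - ∏ i, Fx N K (c i) (g i) j) *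
        e (((-n : ℤ) : ℝ) / K * j)‖
        ≤ ∑ j ∈ range K, ∑ i, M * ∏ k ∈ univ.erase i, (if k < i then ‖Fx N K (c k) (g k) j‖ else
          ‖Fx N K (c k) (f k) j‖) := by
          refine sum_le_sum fun j _ => ?_
          rw [norm_mul, norm_e, mul_one]
          exact tel j
      _ = ∑ i, M * ∑ j ∈ range K, ∏ k ∈ univ.erase i,
          (if k < i then ‖Fx N K (c k) (g k) j‖ else ‖Fx N K (c k) (f k) j‖) := by
          rw [sum_comm]
          refine sum_congr rfl fun i _ => ?_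
          rw [mul_sum]
      _ ≤ ∑ _i : Fin t, M * (K * T * R ^ (t - 3)) :=
          sum_le_sum fun i _ => mul_le_mul_of_nonneg_left (hsum i) hM0
      _ = _ := by
          rw [sum_const, card_univ, Fintype.card_fin, nsmul_eq_mul]
          ring
  exact le_of_mul_le_mul_left h1 hKr

theorem circ_binary (N : ℕ) (c : Fin 2 → ℤ) (hc : ∀ i, c i ≠ 0) (f g : Fin 2 → ℕ → ℂ) (M T : ℝ)
    (hM : ∀ i, ∀ α : ℝ, ‖∑ n ∈ Finset.range N, (f i n - g i n) * e (α * n)‖ ≤ M)
    (hf : ∀ i, ∑ n ∈ Finset.range N, ‖f i n‖ ^ 2 ≤ T)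
    (hg : ∀ i, ∑ n ∈ Finset.range N, ‖g i n‖ ^ 2 ≤ T) (S : Finset ℤ) :
    ∑ n ∈ S, ‖∑ q ∈ Fintype.piFinset (fun _ : Fin 2 => Finset.range N),
      if ∑ i, c i * (q i : ℤ) = n then ∏ i, f i (q i) - ∏ i, g i (q i) else 0‖ ^ 2 ≤
      4 * M ^ 2 * T := by
  classical
  have hM0 : 0 ≤ M := (norm_nonneg _).trans (hM 0 0)
  obtain ⟨L, hL⟩ : ∃ L : ℤ, L = (∑ i, |c i|) * N := ⟨_, rfl⟩
  have hL0 : 0 ≤ L := by rw [hL]; positivity
  obtain ⟨K, hK⟩ : ∃ K : ℕ, (K : ℤ) = 2 * L + 1 :=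
    ⟨(2 * L + 1).toNat, Int.toNat_of_nonneg (by positivity)⟩
  have hK0 : 0 < K := by omega
  have hKr : (0 : ℝ) < K := by positivity
  have hcK : ∀ i, |c i| * N ≤ K := by
    intro i
    have h1 : |c i| ≤ ∑ i, |c i| := single_le_sum (f := fun i => |c i|)
      (fun _ _ => abs_nonneg _) (mem_univ i)
    have h2 : |c i| * N ≤ (∑ i, |c i|) * N := mul_le_mul_of_nonneg_right h1 (by positivity)
    omega
  set r : ℤ → ℂ := fun n => ∑ q ∈ Fintype.piFinset (fun _ : Fin 2 => Finset.range N),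
      if ∑ i, c i * (q i : ℤ) = n then ∏ i, f i (q i) - ∏ i, g i (q i) else 0 with hr
  have hbd : ∀ q ∈ Fintype.piFinset (fun _ : Fin 2 => Finset.range N),
      ∑ i, c i * (q i : ℤ) ∈ Finset.Icc (-L) L := by
    intro q hq
    rw [Fintype.mem_piFinset] at hq
    rw [mem_Icc, ← abs_le]
    refine (abs_sum_le_sum_abs _ _).trans ?_
    rw [hL, sum_mul]
    refine sum_le_sum fun i _ => ?_
    rw [abs_mul, Nat.abs_cast]
    refine mul_le_mul_of_nonneg_left ?_ (abs_nonneg _)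
    have := mem_range.1 (hq i)
    exact_mod_cast this.le
  have hr0 : ∀ n, n ∉ Finset.Icc (-L) L → r n = 0 := by
    intro n hn
    rw [hr]
    refine sum_eq_zero fun q hq => if_neg fun h => hn ?_
    rw [← h]
    exact hbd q hq
  have hD : ∀ j, ∏ i, Fx N K (c i) (f i) j - ∏ i, Fx N K (c i) (g i) j =
      ∑ m ∈ Finset.Icc (-L) L, r m * e ((m : ℝ) / K * j) := by
    intro j
    rw [prod_Fx, prod_Fx, ← sum_sub_distrib, ← sum_fiberwise_of_maps_to hbd]
    refine sum_congr rfl fun m _ => ?_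
    rw [hr]
    simp only
    rw [sum_mul, sum_filter]
    refine sum_congr rfl fun q _ => ?_
    split_ifs with h
    · rw [h]; ring
    · rw [zero_mul]
  have hpar : ∑ j ∈ range K, ‖∏ i, Fx N K (c i) (f i) j - ∏ i, Fx N K (c i) (g i) j‖ ^ 2 =
      K * ∑ m ∈ Finset.Icc (-L) L, ‖r m‖ ^ 2 := by
    simp_rw [hD]
    refine parseval hK0 (Finset.Icc (-L) L) (fun m => m) ?_ r
    intro a ha b hb hd
    rw [mem_Icc] at ha hb
    obtain ⟨l, hl⟩ := hd
    have h3 : l = 0 := by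
      by_contra hl0
      have h4 : (K : ℤ) ≤ |a - b| := by
        rw [hl, abs_mul, Nat.abs_cast]
        have := Int.one_le_abs hl0
        nlinarith
      have h5 : |a - b| ≤ 2 * L := by rw [abs_le]; omega
      omega
    rw [h3] at hl
    omega
  have hFG : ∀ i j, ‖Fx N K (c i) (f i) j - Fx N K (c i) (g i) j‖ ≤ M := by
    intro i j
    rw [Fx_eq, Fx_eq, ← sum_sub_distrib]
    refine le_trans (le_of_eq ?_) (hM i (((c i : ℝ) * j / K)))
    congr 1
    refine sum_congr rfl fun n _ => ?_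
    ring
  have hpt : ∀ j, ‖∏ i, Fx N K (c i) (f i) j - ∏ i, Fx N K (c i) (g i) j‖ ^ 2 ≤
      2 * M ^ 2 * (‖Fx N K (c 0) (f 0) j‖ ^ 2 + ‖Fx N K (c 1) (g 1) j‖ ^ 2) := by
    intro j
    rw [Fin.prod_univ_two, Fin.prod_univ_two]
    have h1 : Fx N K (c 0) (f 0) j * Fx N K (c 1) (f 1) j -
        Fx N K (c 0) (g 0) j * Fx N K (c 1) (g 1) j =
        Fx N K (c 0) (f 0) j * (Fx N K (c 1) (f 1) j - Fx N K (c 1) (g 1) j) +
        (Fx N K (c 0) (f 0) j - Fx N K (c 0) (g 0) j) * Fx N K (c 1) (g 1) j := by ring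
    have h2 : ‖Fx N K (c 0) (f 0) j * Fx N K (c 1) (f 1) j -
        Fx N K (c 0) (g 0) j * Fx N K (c 1) (g 1) j‖ ≤
        M * (‖Fx N K (c 0) (f 0) j‖ + ‖Fx N K (c 1) (g 1) j‖) := by
      rw [h1]
      refine (norm_add_le _ _).trans ?_
      rw [norm_mul, norm_mul]
      have a1 := mul_le_mul_of_nonneg_left (hFG 1 j) (norm_nonneg (Fx N K (c 0) (f 0) j))
      have a2 := mul_le_mul_of_nonneg_right (hFG 0 j) (norm_nonneg (Fx N K (c 1) (g 1) j))
      linarith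
    have h3 := pow_le_pow_left₀ (norm_nonneg _) h2 2
    refine h3.trans ?_
    rw [mul_pow]
    have h4 : (‖Fx N K (c 0) (f 0) j‖ + ‖Fx N K (c 1) (g 1) j‖) ^ 2 ≤
        2 * (‖Fx N K (c 0) (f 0) j‖ ^ 2 + ‖Fx N K (c 1) (g 1) j‖ ^ 2) := by
      nlinarith [sq_nonneg (‖Fx N K (c 0) (f 0) j‖ - ‖Fx N K (c 1) (g 1) j‖)]
    have := mul_le_mul_of_nonneg_left h4 (sq_nonneg M)
    linarith
  have h1 : (K : ℝ) * ∑ m ∈ Finset.Icc (-L) L, ‖r m‖ ^ 2 ≤ K * (4 * M ^ 2 * T) := by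
    rw [← hpar]
    refine (sum_le_sum fun j _ => hpt j).trans ?_
    rw [← mul_sum, sum_add_distrib, Fx_l2 hK0 (hc 0) (hcK 0), Fx_l2 hK0 (hc 1) (hcK 1)]
    have a1 := mul_le_mul_of_nonneg_left (hf 0) hKr.le
    have a2 := mul_le_mul_of_nonneg_left (hg 1) hKr.le
    have : 2 * M ^ 2 * (K * ∑ n ∈ range N, ‖f 0 n‖ ^ 2 + K * ∑ n ∈ range N, ‖g 1 n‖ ^ 2) ≤
        2 * M ^ 2 * (K * T + K * T) := mul_le_mul_of_nonneg_left (by linarith) (by positivity)
    linarith
  have h2 := le_of_mul_le_mul_left h1 hKr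
  refine le_trans ?_ h2
  have h3 : ∑ n ∈ S, ‖r n‖ ^ 2 = ∑ n ∈ S ∩ Finset.Icc (-L) L, ‖r n‖ ^ 2 := by
    symm
    refine sum_subset inter_subset_left fun n hn hn' => ?_
    rw [hr0 n fun h => hn' (mem_inter.2 ⟨hn, h⟩)]
    simp
  change ∑ n ∈ S, ‖r n‖ ^ 2 ≤ _
  rw [h3]
  exact sum_le_sum_of_subset_of_nonneg inter_subset_right fun _ _ _ => by positivity

end Pool.Agent.J4.H39.CM.Cir
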