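import Pool.Agent.J4.H39.CM.Def
import Pool.Agent.J4.H39.CM.CircA

set_option autoImplicit false

/-!
# The circle method: sumsets, linear equations, correlations (piece CIRC)
-/

namespace Pool.Agent.J4.H39.CM

open Complex Filter Topology MeasureTheory Set
open Pool.Agent.N879.QM

noncomputable section

theorem circ_sumset (N : ℕ) (G : ℕ → ℂ) (M : ℝ)
    (hM : ∀ α : ℝ, ‖∑ n ∈ Finset.range N, G n * e (α * n)‖ ≤ M)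
    (A B : Finset ℕ) (hAB : ∀ a ∈ A, ∀ b ∈ B, a + b < N) :
    ‖∑ a ∈ A, ∑ b ∈ B, G (a + b)‖ ≤ M * √(A.card * B.card) :=
  Cir.circ_sumset N G M hM A B hAB

theorem circ_linear (t : ℕ) (ht : 3 ≤ t) (N : ℕ) (c : Fin t → ℤ) (hc : ∀ i, c i ≠ 0) (n : ℤ)
    (f g : Fin t → ℕ → ℂ) (M T : ℝ)
    (hM : ∀ i, ∀ α : ℝ, ‖∑ n ∈ Finset.range N, (f i n - g i n) * e (α * n)‖ ≤ M)
    (hf : ∀ i, ∑ n ∈ Finset.range N, ‖f i n‖ ^ 2 ≤ T) (hg : ∀ i, ∑ n ∈ Finset.range N, ‖g i n‖ ^ 2 ≤ T) :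
    ‖∑ q ∈ Fintype.piFinset (fun _ : Fin t => Finset.range N),
      if ∑ i, c i * (q i : ℤ) = n then ∏ i, f i (q i) - ∏ i, g i (q i) else 0‖ ≤
      t * M * T * (√(N * T)) ^ (t - 3) :=
  Cir.circ_linear t ht N c hc n f g M T hM hf hg

theorem circ_binary (N : ℕ) (c : Fin 2 → ℤ) (hc : ∀ i, c i ≠ 0) (f g : Fin 2 → ℕ → ℂ) (M T : ℝ)
    (hM : ∀ i, ∀ α : ℝ, ‖∑ n ∈ Finset.range N, (f i n - g i n) * e (α * n)‖ ≤ M)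
    (hf : ∀ i, ∑ n ∈ Finset.range N, ‖f i n‖ ^ 2 ≤ T) (hg : ∀ i, ∑ n ∈ Finset.range N, ‖g i n‖ ^ 2 ≤ T)
    (S : Finset ℤ) :
    ∑ n ∈ S, ‖∑ q ∈ Fintype.piFinset (fun _ : Fin 2 => Finset.range N),
      if ∑ i, c i * (q i : ℤ) = n then ∏ i, f i (q i) - ∏ i, g i (q i) else 0‖ ^ 2 ≤
      4 * M ^ 2 * T :=
  Cir.circ_binary N c hc f g M T hM hf hg S

end

end Pool.Agent.J4.H39.CM
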