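import Pool.Agent.J4.H39.CM.Def2
import Pool.Agent.N852.Div

set_option autoImplicit false

/-!
Project CM (helper39), piece COEF: the size of the coefficients of the singular series (from the bound for
the Fourier coefficients `pc`).
-/

namespace Pool.Agent.J4.H39.CM

open Complex Finset
open Pool.Agent.N879.QM
open Pool.Agent.N879.QM.Avg (fam DF)
open Pool.Agent.H306R2.RZ (js)
open Pool.Agent.Y293.SF (mu)

noncomputable section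

namespace CO

/-- denominators of multiples -/
theorem den_mul (n : ℕ) (θ : ℚ) : ((n : ℚ) * θ).den * Nat.gcd θ.den n = θ.den := by
  have h1 := Rat.mul_den (n : ℚ) θ
  rw [Rat.den_natCast, Rat.num_natCast, one_mul, Int.natAbs_mul, Int.natAbs_natCast] at h1
  have h2 : Nat.gcd (n * θ.num.natAbs) θ.den = Nat.gcd n θ.den :=
    Nat.Coprime.gcd_mul_right_cancel n θ.reduced
  rw [h1, h2, Nat.gcd_comm θ.den n]
  exact Nat.div_mul_cancel (Nat.gcd_dvd_right n θ.den)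

/-- the hypothesis on the Fourier coefficients (piece FOUR) -/
def PcB (s : ℤ) : Prop := ∀ (i : Fin 4) (k g : ℕ) (θ : ℚ), Odd k → Squarefree k → 1 ≤ g →
  ‖pc s i k g θ‖ ≤ 8 / (g * √k)

lemma fam_r (s : ℤ) (i : Fin 4) : 1 ≤ (fam s i).r ∧ (fam s i).r ≤ 8 := by
  fin_cases i
  · exact ⟨(by norm_num : 1 ≤ 8), (by norm_num : 8 ≤ 8)⟩
  · exact ⟨(by norm_num : 1 ≤ 4), (by norm_num : 4 ≤ 8)⟩
  · exact ⟨(by norm_num : 1 ≤ 1), (by norm_num : 1 ≤ 8)⟩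
  · exact ⟨(by norm_num : 1 ≤ 1), (by norm_num : 1 ≤ 8)⟩

lemma kap_pos (s : ℤ) (i : Fin 4) (g : ℕ) (θ : ℚ) : 1 ≤ kap s i g θ := Rat.den_pos _

end CO

theorem kap_mul (s : ℤ) (i : Fin 4) (g : ℕ) (θ : ℚ) :
    kap s i g θ * Nat.gcd θ.den (8 * (fam s i).r * g) = θ.den := CO.den_mul _ θ

namespace CO

lemma kap_le (s : ℤ) (i : Fin 4) (g : ℕ) (θ : ℚ) : kap s i g θ ≤ θ.den :=
  Nat.le_of_dvd θ.den_pos ⟨_, (kap_mul s i g θ).symm⟩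

lemma inv_kap (s : ℤ) (i : Fin 4) (g : ℕ) (θ : ℚ) :
    ((kap s i g θ : ℕ) : ℝ)⁻¹ ≤ 64 * (Nat.gcd θ.den g : ℝ) / θ.den := by
  have h1 := kap_mul s i g θ
  have h0 : (0 : ℝ) < (kap s i g θ : ℕ) := by exact_mod_cast kap_pos s i g θ
  have hD : (0 : ℝ) < θ.den := by exact_mod_cast θ.den_pos
  have h2 : Nat.gcd θ.den (8 * (fam s i).r * g) ≤ 64 * Nat.gcd θ.den g := by
    have h3 := Nat.gcd_mul_right_dvd_mul_gcd θ.den (8 * (fam s i).r) g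
    have h4 : 0 < Nat.gcd θ.den (8 * (fam s i).r) * Nat.gcd θ.den g :=
      Nat.mul_pos (Nat.gcd_pos_of_pos_left _ θ.den_pos) (Nat.gcd_pos_of_pos_left _ θ.den_pos)
    refine (Nat.le_of_dvd h4 h3).trans (Nat.mul_le_mul_right _ ?_)
    have h5 : 0 < 8 * (fam s i).r := by have := (fam_r s i).1; omega
    have h6 := Nat.le_of_dvd h5 (Nat.gcd_dvd_right θ.den (8 * (fam s i).r))
    have h7 := (fam_r s i).2
    omega
  have h3 : (θ.den : ℝ) ≤ (kap s i g θ : ℕ) * (64 * (Nat.gcd θ.den g : ℝ)) := by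
    have : (θ.den : ℝ) = (kap s i g θ : ℕ) * (Nat.gcd θ.den (8 * (fam s i).r * g) : ℝ) := by
      exact_mod_cast h1.symm
    rw [this]
    refine mul_le_mul_of_nonneg_left ?_ h0.le
    exact_mod_cast h2
  rw [inv_eq_one_div, div_le_div_iff₀ h0 hD, one_mul]
  linarith

lemma cc_le (s : ℤ) (i : Fin 4) (k f b : ℕ) : |cc s i k f b| ≤ 2 / (f * √k) := by
  unfold cc
  rw [abs_mul, abs_mul, abs_div, abs_div, abs_mul, abs_of_nonneg (Real.sqrt_nonneg _), Nat.abs_cast,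
    abs_two]
  have h1 : |js (fam s i).e k| ≤ 1 := js_le _ _
  have h2 := Pool.Agent.Y293.SF.abs_mu_le f
  have h3 := Pool.Agent.Y293.SF.abs_mu_le b
  calc 2 * |js (fam s i).e k| / √k * (|mu f| / f) * |mu b|
      ≤ 2 * 1 / √k * (1 / f) * 1 := by gcongr
    _ = 2 / (f * √k) := by
        rw [mul_one, mul_one, div_mul_div_comm, mul_one, mul_comm]

/-- the size of a term -/
theorem tm_le {s : ℤ} (hpc : PcB s) (i : Fin 4) (w : ℕ → ℕ → ℝ) (θ : ℚ) (f b : ℕ) :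
    ‖tm s i w θ (f, b)‖ ≤ if 1 ≤ f ∧ 1 ≤ b then
      16 * |w (kap s i (Nat.lcm (b ^ 2) f) θ) f| /
        (f * (Nat.lcm (b ^ 2) f : ℕ) * (kap s i (Nat.lcm (b ^ 2) f) θ : ℕ)) else 0 := by
  classical
  obtain ⟨g, hg⟩ : ∃ g, g = Nat.lcm (b ^ 2) f := ⟨_, rfl⟩
  obtain ⟨κ, hκ⟩ : ∃ κ, κ = kap s i g θ := ⟨_, rfl⟩
  unfold tm
  simp only
  rw [← hg, ← hκ]
  by_cases h1 : 1 ≤ f ∧ 1 ≤ b ∧ Odd κ ∧ Squarefree κ
  · rw [if_pos h1, if_pos ⟨h1.1, h1.2.1⟩]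
    have hg0 : 1 ≤ g := by
      rw [hg]
      exact Nat.lcm_pos (pow_pos h1.2.1 2) h1.1
    have hκ0 : 1 ≤ κ := by
      rw [hκ]
      exact kap_pos s i g θ
    have h2 := hpc i κ g θ h1.2.2.1 h1.2.2.2 hg0
    have h3 := cc_le s i κ f b
    have hf : (0 : ℝ) < f := by exact_mod_cast h1.1
    have hgr : (0 : ℝ) < g := by exact_mod_cast hg0
    have hκr : (0 : ℝ) < κ := by exact_mod_cast hκ0
    have hs : 0 < √(κ : ℝ) := Real.sqrt_pos.2 hκr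
    rw [norm_mul, Complex.norm_real, Real.norm_eq_abs, abs_mul]
    calc |cc s i κ f b| * |w κ f| * ‖pc s i κ g θ‖
        ≤ 2 / (f * √κ) * |w κ f| * (8 / (g * √κ)) := by gcongr
      _ = 16 * |w κ f| / (f * g * (√κ * √κ)) := by
          field_simp
          ring
      _ = _ := by rw [Real.mul_self_sqrt hκr.le]
  · rw [if_neg h1, norm_zero]
    split_ifs
    · positivity
    · exact le_rfl

/-- the weights -/
theorem w_le (s : ℤ) (B : Fin 4 → ℝ) : ∃ C : ℝ, 0 < C ∧ ∀ (i : Fin 4) (k f : ℕ), 1 ≤ k → 1 ≤ f →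
    |w1 s i k f| ≤ C * (1 + Real.log k + Real.log f) ∧
      |w0 s B i k f| ≤ C * (1 + Real.log k + Real.log f) := by
  refine ⟨1 + ∑ i : Fin 4, (|B i| + 4 * |LA (fam s i).η|), by positivity, ?_⟩
  intro i k f hk hf
  have h1 : |B i| + 4 * |LA (fam s i).η| ≤ ∑ i : Fin 4, (|B i| + 4 * |LA (fam s i).η|) :=
    Finset.single_le_sum (f := fun i => |B i| + 4 * |LA (fam s i).η|) (fun _ _ => by positivity)
      (Finset.mem_univ i)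
  have hlk : 0 ≤ Real.log k := Real.log_natCast_nonneg k
  have hlf : 0 ≤ Real.log f := Real.log_natCast_nonneg f
  have hB := abs_nonneg (B i)
  have hLA := abs_nonneg (LA (fam s i).η)
  have hC : |B i| + 4 * |LA (fam s i).η| ≤ 1 + ∑ i : Fin 4, (|B i| + 4 * |LA (fam s i).η|) := by
    linarith
  have hX : 0 ≤ 1 + Real.log k + Real.log f := by linarith
  have hm := mul_le_mul_of_nonneg_right hC hX
  constructor
  · refine le_trans ?_ hm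
    unfold w1
    nlinarith [mul_nonneg hB hlk, mul_nonneg hB hlf, mul_nonneg hLA hlk, mul_nonneg hLA hlf]
  · refine le_trans ?_ hm
    unfold w0
    have hk0 : (k : ℝ) ≠ 0 := by
      have : (0 : ℝ) < k := by exact_mod_cast hk
      exact this.ne'
    have hf0 : (f : ℝ) ≠ 0 := by
      have : (0 : ℝ) < f := by exact_mod_cast hf
      exact this.ne'
    rw [Real.log_mul (pow_ne_zero _ hk0) (pow_ne_zero _ hf0), Real.log_pow, Real.log_pow]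
    push_cast
    refine (abs_sub _ _).trans ?_
    rw [abs_mul, abs_of_nonneg (by positivity : 0 ≤ 2 * Real.log k + 4 * Real.log f)]
    nlinarith [mul_nonneg hB hlk, mul_nonneg hB hlf, mul_nonneg hLA hlk, mul_nonneg hLA hlf]

lemma log_w {μ : ℝ} (hμ : 0 < μ) {k f : ℕ} (hk : 1 ≤ k) (hf : 1 ≤ f) :
    1 + Real.log k + Real.log f ≤ (1 + 2 / μ) * ((k : ℝ) ^ μ * (f : ℝ) ^ μ) := by
  have h1 := Real.log_le_rpow_div (x := (k : ℝ)) (Nat.cast_nonneg k) hμ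
  have h2 := Real.log_le_rpow_div (x := (f : ℝ)) (Nat.cast_nonneg f) hμ
  have h3 : 1 ≤ (k : ℝ) ^ μ := Real.one_le_rpow (by exact_mod_cast hk) hμ.le
  have h4 : 1 ≤ (f : ℝ) ^ μ := Real.one_le_rpow (by exact_mod_cast hf) hμ.le
  have h5 : (k : ℝ) ^ μ ≤ (k : ℝ) ^ μ * (f : ℝ) ^ μ := le_mul_of_one_le_right (by linarith) h4
  have h6 : (f : ℝ) ^ μ ≤ (k : ℝ) ^ μ * (f : ℝ) ^ μ := le_mul_of_one_le_left (by linarith) h3
  have h7 : (k : ℝ) ^ μ / μ ≤ ((k : ℝ) ^ μ * (f : ℝ) ^ μ) / μ := div_le_div_of_nonneg_right h5 hμ.le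
  have h8 : (f : ℝ) ^ μ / μ ≤ ((k : ℝ) ^ μ * (f : ℝ) ^ μ) / μ := div_le_div_of_nonneg_right h6 hμ.le
  have e : (1 + 2 / μ) * ((k : ℝ) ^ μ * (f : ℝ) ^ μ) = (k : ℝ) ^ μ * (f : ℝ) ^ μ +
      (((k : ℝ) ^ μ * (f : ℝ) ^ μ) / μ + ((k : ℝ) ^ μ * (f : ℝ) ^ μ) / μ) := by ring
  rw [e]
  linarith

/-- the gcd function -/
def Yd (D b : ℕ) : ℝ := ((Nat.gcd D b : ℝ) / b) ^ (3 / 2 : ℝ)

lemma Yd_nonneg (D b : ℕ) : 0 ≤ Yd D b := by unfold Yd; positivity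

/-- `∑ n^(-3/2)` -/
def Z32 : ℝ := ∑' n : ℕ, (n : ℝ) ^ (-(3 / 2) : ℝ)

lemma sum32 : Summable fun n : ℕ => (n : ℝ) ^ (-(3 / 2) : ℝ) :=
  Real.summable_nat_rpow.2 (by norm_num)

lemma Z32_nonneg : 0 ≤ Z32 := tsum_nonneg fun _ => by positivity

theorem Yd_sum (D : ℕ) (hD : 1 ≤ D) : Summable (Yd D) ∧ ∑' b, Yd D b ≤ (D.divisors.card : ℝ) * Z32 := by
  classical
  have h1 : ∀ v ∈ D.divisors, HasSum (fun b : ℕ => if v ∣ b then ((v : ℝ) / b) ^ (3 / 2 : ℝ) else 0)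
      Z32 := by
    intro v hv
    have hv0 : 0 < v := Nat.pos_of_mem_divisors hv
    have hinj : Function.Injective (fun w : ℕ => v * w) := fun a b h => Nat.eq_of_mul_eq_mul_left hv0 h
    have h2 := (hinj.hasSum_iff (f := fun b : ℕ => if v ∣ b then ((v : ℝ) / b) ^ (3 / 2 : ℝ) else 0)
      (a := Z32) (by
        intro b hb
        rw [if_neg]
        rintro ⟨w, rfl⟩
        exact hb ⟨w, rfl⟩)).1
    apply h2
    have e : ((fun b : ℕ => if v ∣ b then ((v : ℝ) / b) ^ (3 / 2 : ℝ) else 0) ∘ fun w : ℕ => v * w) =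
        fun n : ℕ => (n : ℝ) ^ (-(3 / 2) : ℝ) := by
      funext n
      simp only [Function.comp_apply, Nat.dvd_mul_right, if_true]
      have hvr : (v : ℝ) ≠ 0 := by exact_mod_cast hv0.ne'
      push_cast
      rw [← div_div, div_self hvr, one_div, Real.inv_rpow (Nat.cast_nonneg n),
        Real.rpow_neg (Nat.cast_nonneg n)]
    rw [e]
    exact sum32.hasSum
  have h2 := hasSum_sum h1
  have h3 : ∀ b, Yd D b ≤ ∑ v ∈ D.divisors, if v ∣ b then ((v : ℝ) / b) ^ (3 / 2 : ℝ) else 0 := by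
    intro b
    have h4 : Nat.gcd D b ∈ D.divisors := Nat.mem_divisors.2 ⟨Nat.gcd_dvd_left D b, by omega⟩
    have h5 := Finset.single_le_sum (f := fun v : ℕ => if v ∣ b then ((v : ℝ) / b) ^ (3 / 2 : ℝ) else 0)
      (fun v _ => by
        split_ifs
        · positivity
        · exact le_rfl) h4
    refine le_trans (le_of_eq ?_) h5
    rw [if_pos (Nat.gcd_dvd_right D b)]
    rfl
  have h4 : Summable (Yd D) := Summable.of_nonneg_of_le (Yd_nonneg D) h3 h2.summable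
  refine ⟨h4, ?_⟩
  have h5 := h4.tsum_le_tsum h3 h2.summable
  rw [h2.tsum_eq, Finset.sum_const, nsmul_eq_mul] at h5
  exact h5

/-- the gcd of the common multiple -/
theorem gcd_lcm {μ : ℝ} (hμ : 0 < μ) (hμ8 : μ ≤ 1 / 8) {D f b : ℕ} (hD : 1 ≤ D) (hf : 1 ≤ f)
    (hb : 1 ≤ b) : (Nat.gcd D (Nat.lcm (b ^ 2) f) : ℝ) / (Nat.lcm (b ^ 2) f : ℕ) ≤
      Yd D b * ((D : ℝ) ^ (2 * μ) * (f : ℝ) ^ (-(2 * μ))) := by
  obtain ⟨g, hg⟩ : ∃ g, g = Nat.lcm (b ^ 2) f := ⟨_, rfl⟩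
  rw [← hg]
  have hg0 : 0 < g := by rw [hg]; exact Nat.lcm_pos (pow_pos hb 2) hf
  have hgr : (0 : ℝ) < g := by exact_mod_cast hg0
  have hfr : (0 : ℝ) < f := by exact_mod_cast hf
  have hbr : (0 : ℝ) < b := by exact_mod_cast hb
  have hDr : (0 : ℝ) < D := by exact_mod_cast hD
  obtain ⟨x, hx⟩ : ∃ x : ℝ, x = (Nat.gcd D g : ℝ) / g := ⟨_, rfl⟩
  obtain ⟨y, hy⟩ : ∃ y : ℝ, y = (Nat.gcd D b : ℝ) / b := ⟨_, rfl⟩
  have hx0 : 0 < x := by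
    rw [hx]
    have : (0 : ℝ) < Nat.gcd D g := by exact_mod_cast Nat.gcd_pos_of_pos_left _ hD
    positivity
  have hy0 : 0 < y := by
    rw [hy]
    have : (0 : ℝ) < Nat.gcd D b := by exact_mod_cast Nat.gcd_pos_of_pos_left _ hD
    positivity
  have hy1 : y ≤ 1 := by
    rw [hy, div_le_one hbr]
    exact_mod_cast Nat.le_of_dvd hb (Nat.gcd_dvd_right D b)
  have hxy : x ≤ y ^ 2 := by
    obtain ⟨z, hz⟩ : b ^ 2 ∣ g := by rw [hg]; exact Nat.dvd_lcm_left _ _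
    have hz0 : 0 < z := by
      rcases Nat.eq_zero_or_pos z with h | h
      · rw [h, Nat.mul_zero] at hz
        omega
      · exact h
    have h1 : Nat.gcd D g ≤ Nat.gcd D b ^ 2 * z := by
      rw [hz]
      have h2 := Nat.gcd_mul_right_dvd_mul_gcd D (b ^ 2) z
      have h3 : 0 < Nat.gcd D (b ^ 2) * Nat.gcd D z :=
        Nat.mul_pos (Nat.gcd_pos_of_pos_left _ hD) (Nat.gcd_pos_of_pos_left _ hD)
      refine (Nat.le_of_dvd h3 h2).trans (Nat.mul_le_mul ?_ (Nat.le_of_dvd hz0 (Nat.gcd_dvd_right D z)))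
      have h4 := Nat.gcd_mul_right_dvd_mul_gcd D b b
      rw [← pow_two, ← pow_two] at h4
      exact Nat.le_of_dvd (pow_pos (Nat.gcd_pos_of_pos_left _ hD) 2) h4
    rw [hx, hy, div_pow, div_le_div_iff₀ hgr (by positivity)]
    have h2 : (g : ℝ) = (b : ℝ) ^ 2 * z := by exact_mod_cast hz
    have h3 : (Nat.gcd D g : ℝ) ≤ (Nat.gcd D b : ℝ) ^ 2 * z := by exact_mod_cast h1
    rw [h2]
    nlinarith [mul_le_mul_of_nonneg_right h3 (by positivity : (0 : ℝ) ≤ (b : ℝ) ^ 2)]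
  have hxD : x ≤ D / f := by
    rw [hx, div_le_div_iff₀ hgr hfr]
    have h1 : (Nat.gcd D g : ℝ) ≤ D := by exact_mod_cast Nat.le_of_dvd hD (Nat.gcd_dvd_left D g)
    have h2 : (f : ℝ) ≤ g := by
      have : f ∣ g := by rw [hg]; exact Nat.dvd_lcm_right _ _
      exact_mod_cast Nat.le_of_dvd hg0 this
    exact mul_le_mul h1 h2 hfr.le hDr.le
  have h1 : x = x ^ (1 - 2 * μ) * x ^ (2 * μ) := by
    rw [← Real.rpow_add hx0, sub_add_cancel, Real.rpow_one]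
  have h2 : x ^ (1 - 2 * μ) ≤ y ^ (3 / 2 : ℝ) := by
    calc x ^ (1 - 2 * μ) ≤ (y ^ 2) ^ (1 - 2 * μ) := Real.rpow_le_rpow hx0.le hxy (by linarith)
      _ = y ^ (2 * (1 - 2 * μ)) := by
          rw [← Real.rpow_natCast, ← Real.rpow_mul hy0.le]
          norm_num
      _ ≤ y ^ (3 / 2 : ℝ) := Real.rpow_le_rpow_of_exponent_ge hy0 hy1 (by linarith)
  have h3 : x ^ (2 * μ) ≤ (D : ℝ) ^ (2 * μ) * (f : ℝ) ^ (-(2 * μ)) := by
    calc x ^ (2 * μ) ≤ ((D : ℝ) / f) ^ (2 * μ) := Real.rpow_le_rpow hx0.le hxD (by linarith)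
      _ = (D : ℝ) ^ (2 * μ) * (f : ℝ) ^ (-(2 * μ)) := by
          rw [Real.div_rpow hDr.le hfr.le, Real.rpow_neg hfr.le, div_eq_mul_inv]
  rw [← hx, h1]
  unfold Yd
  rw [← hy]
  exact mul_le_mul h2 h3 (by positivity) (by positivity)

/-- the majorant for `coef_bd` -/
theorem tm_bd {s : ℤ} (hpc : PcB s) {μ : ℝ} (hμ : 0 < μ) (hμ8 : μ ≤ 1 / 8) {Cw : ℝ} (hCw : 0 < Cw)
    (i : Fin 4) (w : ℕ → ℕ → ℝ)
    (hw : ∀ k f : ℕ, 1 ≤ k → 1 ≤ f → |w k f| ≤ Cw * (1 + Real.log k + Real.log f)) (θ : ℚ)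
    (p : ℕ × ℕ) : ‖tm s i w θ p‖ ≤ 1024 * Cw * (1 + 2 / μ) * (θ.den : ℝ) ^ (3 * μ - 1) *
      ((p.1 : ℝ) ^ (-1 - μ) * Yd θ.den p.2) := by
  obtain ⟨f, b⟩ := p
  simp only
  refine (tm_le hpc i w θ f b).trans ?_
  have hY := Yd_nonneg θ.den b
  split_ifs with h
  swap
  · positivity
  obtain ⟨hf, hb⟩ := h
  obtain ⟨g, hg⟩ : ∃ g, g = Nat.lcm (b ^ 2) f := ⟨_, rfl⟩
  have hgl := gcd_lcm hμ hμ8 (D := θ.den) θ.den_pos hf hb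
  rw [← hg] at hgl ⊢
  obtain ⟨κ, hκ⟩ : ∃ κ, κ = kap s i g θ := ⟨_, rfl⟩
  have hik := inv_kap s i g θ
  have hκD := kap_le s i g θ
  have hκ1 := kap_pos s i g θ
  rw [← hκ] at hik hκD hκ1 ⊢
  have hg0 : 0 < g := by rw [hg]; exact Nat.lcm_pos (pow_pos hb 2) hf
  have hgr : (0 : ℝ) < g := by exact_mod_cast hg0
  have hfr : (0 : ℝ) < f := by exact_mod_cast hf
  have hκr : (0 : ℝ) < κ := by exact_mod_cast hκ1
  have hDr : (0 : ℝ) < θ.den := by exact_mod_cast θ.den_pos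
  have hw1 := (hw κ f hκ1 hf).trans (mul_le_mul_of_nonneg_left (log_w hμ hκ1 hf) hCw.le)
  have hκμ : (κ : ℝ) ^ μ ≤ (θ.den : ℝ) ^ μ :=
    Real.rpow_le_rpow hκr.le (by exact_mod_cast hκD) hμ.le
  calc 16 * |w κ f| / (f * g * κ) = 16 * |w κ f| * ((κ : ℝ)⁻¹ * ((f : ℝ)⁻¹ * (g : ℝ)⁻¹)) := by
        field_simp
    _ ≤ 16 * (Cw * ((1 + 2 / μ) * ((θ.den : ℝ) ^ μ * (f : ℝ) ^ μ))) *
        (64 * (Nat.gcd θ.den g : ℝ) / θ.den * ((f : ℝ)⁻¹ * (g : ℝ)⁻¹)) := by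
        have h1 : |w κ f| ≤ Cw * ((1 + 2 / μ) * ((θ.den : ℝ) ^ μ * (f : ℝ) ^ μ)) := by
          refine hw1.trans ?_
          gcongr
        gcongr
    _ = 1024 * Cw * (1 + 2 / μ) * ((θ.den : ℝ) ^ μ * (θ.den : ℝ)⁻¹ * ((f : ℝ) ^ μ * (f : ℝ)⁻¹)) *
        ((Nat.gcd θ.den g : ℝ) / g) := by
        field_simp
        ring
    _ ≤ 1024 * Cw * (1 + 2 / μ) * ((θ.den : ℝ) ^ μ * (θ.den : ℝ)⁻¹ * ((f : ℝ) ^ μ * (f : ℝ)⁻¹)) *
        (Yd θ.den b * ((θ.den : ℝ) ^ (2 * μ) * (f : ℝ) ^ (-(2 * μ)))) :=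
        mul_le_mul_of_nonneg_left hgl (by positivity)
    _ = 1024 * Cw * (1 + 2 / μ) * (((θ.den : ℝ) ^ μ * (θ.den : ℝ)⁻¹ * (θ.den : ℝ) ^ (2 * μ))) *
        (((f : ℝ) ^ μ * (f : ℝ)⁻¹ * (f : ℝ) ^ (-(2 * μ))) * Yd θ.den b) := by ring
    _ = 1024 * Cw * (1 + 2 / μ) * (θ.den : ℝ) ^ (3 * μ - 1) * ((f : ℝ) ^ (-1 - μ) * Yd θ.den b) := by
        have e1 : (θ.den : ℝ) ^ μ * (θ.den : ℝ)⁻¹ * (θ.den : ℝ) ^ (2 * μ) =
            (θ.den : ℝ) ^ (3 * μ - 1) := by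
          rw [← Real.rpow_neg_one, ← Real.rpow_add hDr, ← Real.rpow_add hDr]
          congr 1
          ring
        have e2 : (f : ℝ) ^ μ * (f : ℝ)⁻¹ * (f : ℝ) ^ (-(2 * μ)) = (f : ℝ) ^ (-1 - μ) := by
          rw [← Real.rpow_neg_one, ← Real.rpow_add hfr, ← Real.rpow_add hfr]
          congr 1
          ring
        rw [e1, e2]

/-- summation of the majorant -/
theorem tm_sum {s : ℤ} (hpc : PcB s) {ε : ℝ} (hε : 0 < ε) {Cw : ℝ} (hCw : 0 < Cw) :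
    ∃ C : ℝ, 0 < C ∧ ∀ (i : Fin 4) (w : ℕ → ℕ → ℝ),
      (∀ k f : ℕ, 1 ≤ k → 1 ≤ f → |w k f| ≤ Cw * (1 + Real.log k + Real.log f)) → ∀ θ : ℚ,
      Summable (fun p => ‖tm s i w θ p‖) ∧ ∑' p, ‖tm s i w θ p‖ ≤ C * (θ.den : ℝ) ^ (-1 + ε) := by
  obtain ⟨μ, hμ⟩ : ∃ μ : ℝ, μ = min (ε / 4) (1 / 8) := ⟨_, rfl⟩
  have hμ0 : 0 < μ := by rw [hμ]; exact lt_min (by linarith) (by norm_num)
  have hμ8 : μ ≤ 1 / 8 := by rw [hμ]; exact min_le_right _ _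
  have hμε : 4 * μ ≤ ε := by
    have : μ ≤ ε / 4 := by rw [hμ]; exact min_le_left _ _
    linarith
  obtain ⟨Cd, hCd, hdiv⟩ := Pool.Agent.N852.divisor_bound μ hμ0
  have hF : Summable fun n : ℕ => (n : ℝ) ^ (-1 - μ) := Real.summable_nat_rpow.2 (by linarith)
  obtain ⟨SF, hSF⟩ : ∃ SF : ℝ, SF = ∑' n : ℕ, (n : ℝ) ^ (-1 - μ) := ⟨_, rfl⟩
  have hSF0 : 0 ≤ SF := by rw [hSF]; exact tsum_nonneg fun _ => by positivity
  have hZ := Z32_nonneg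
  refine ⟨1024 * Cw * (1 + 2 / μ) * (SF * (Cd * Z32)) + 1, by positivity, ?_⟩
  intro i w hw θ
  have hD1 : (1 : ℝ) ≤ θ.den := by exact_mod_cast θ.den_pos
  have hDr : (0 : ℝ) < θ.den := by linarith
  obtain ⟨hY1, hY2⟩ := Yd_sum θ.den θ.den_pos
  have hprod : Summable fun p : ℕ × ℕ => (p.1 : ℝ) ^ (-1 - μ) * Yd θ.den p.2 :=
    hF.mul_of_nonneg hY1 (fun _ => by positivity) (fun b => Yd_nonneg _ b)
  have hb := tm_bd hpc hμ0 hμ8 hCw i w hw θ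
  have hsum : Summable (fun p => ‖tm s i w θ p‖) :=
    Summable.of_nonneg_of_le (fun _ => norm_nonneg _) hb (hprod.mul_left _)
  refine ⟨hsum, ?_⟩
  have h1 := hsum.tsum_le_tsum hb (hprod.mul_left _)
  rw [tsum_mul_left, ← hF.tsum_mul_tsum hY1 hprod, ← hSF] at h1
  refine h1.trans ?_
  have h2 : ∑' b, Yd θ.den b ≤ Cd * (θ.den : ℝ) ^ μ * Z32 :=
    hY2.trans (mul_le_mul_of_nonneg_right (hdiv θ.den θ.den_pos.ne') hZ)
  calc 1024 * Cw * (1 + 2 / μ) * (θ.den : ℝ) ^ (3 * μ - 1) * (SF * ∑' b, Yd θ.den b)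
      ≤ 1024 * Cw * (1 + 2 / μ) * (θ.den : ℝ) ^ (3 * μ - 1) * (SF * (Cd * (θ.den : ℝ) ^ μ * Z32)) := by
        gcongr
    _ = 1024 * Cw * (1 + 2 / μ) * (SF * (Cd * Z32)) * ((θ.den : ℝ) ^ (3 * μ - 1) * (θ.den : ℝ) ^ μ) := by
        ring
    _ = 1024 * Cw * (1 + 2 / μ) * (SF * (Cd * Z32)) * (θ.den : ℝ) ^ (-1 + 4 * μ) := by
        rw [← Real.rpow_add hDr]
        congr 2
        ring
    _ ≤ (1024 * Cw * (1 + 2 / μ) * (SF * (Cd * Z32)) + 1) * (θ.den : ℝ) ^ (-1 + ε) := by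
        have h3 : (θ.den : ℝ) ^ (-1 + 4 * μ) ≤ (θ.den : ℝ) ^ (-1 + ε) :=
          Real.rpow_le_rpow_of_exponent_le hD1 (by linarith)
        have h4 : (0 : ℝ) ≤ (θ.den : ℝ) ^ (-1 + ε) := by positivity
        have h5 : 0 ≤ 1024 * Cw * (1 + 2 / μ) * (SF * (Cd * Z32)) := by positivity
        nlinarith [mul_le_mul_of_nonneg_left h3 h5]

theorem coef_bd_of (s : ℤ) (hpc : PcB s) (B : Fin 4 → ℝ) (ε : ℝ) (hε : 0 < ε) :
    ∃ C : ℝ, 0 < C ∧ ∀ (i : Fin 4) (θ : ℚ),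
    Summable (fun p => ‖tm s i (w1 s i) θ p‖) ∧ Summable (fun p => ‖tm s i (w0 s B i) θ p‖) ∧
    ∑' p, ‖tm s i (w1 s i) θ p‖ + ∑' p, ‖tm s i (w0 s B i) θ p‖ ≤ C * (θ.den : ℝ) ^ (-1 + ε) := by
  obtain ⟨Cw, hCw, hw⟩ := w_le s B
  obtain ⟨C, hC, h⟩ := tm_sum hpc hε hCw
  refine ⟨2 * C, by positivity, fun i θ => ?_⟩
  obtain ⟨a1, a2⟩ := h i (w1 s i) (fun k f hk hf => (hw i k f hk hf).1) θ
  obtain ⟨b1, b2⟩ := h i (w0 s B i) (fun k f hk hf => (hw i k f hk hf).2) θ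
  exact ⟨a1, b1, by linarith⟩

theorem coef_t_of (s : ℤ) (hpc : PcB s) (B : Fin 4 → ℝ) (ε : ℝ) (hε : 0 < ε) :
    ∃ C : ℝ, 0 < C ∧ ∀ (θ : ℚ) (Y Z : ℕ),
    ‖c1t s Y Z θ‖ + ‖c0t s B Y Z θ‖ ≤ C * (θ.den : ℝ) ^ (-1 + ε) := by
  obtain ⟨C, hC, h⟩ := coef_bd_of s hpc B ε hε
  refine ⟨4 * C, by positivity, fun θ Y Z => ?_⟩
  have key : ∀ (i : Fin 4) (w : ℕ → ℕ → ℝ), Summable (fun p => ‖tm s i w θ p‖) →
      ‖∑ p ∈ Icc 1 Z ×ˢ Icc 1 Z, if kap s i (Nat.lcm (p.2 ^ 2) p.1) θ ≤ Y then tm s i w θ p else 0‖ ≤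
        ∑' p, ‖tm s i w θ p‖ := by
    intro i w hs
    refine (norm_sum_le _ _).trans ?_
    refine le_trans (Finset.sum_le_sum (g := fun p => ‖tm s i w θ p‖) fun p _ => ?_)
      (hs.sum_le_tsum _ fun _ _ => norm_nonneg _)
    split_ifs
    · exact le_rfl
    · rw [norm_zero]
      exact norm_nonneg _
  have h1 : ‖c1t s Y Z θ‖ ≤ ∑ i : Fin 4, ∑' p, ‖tm s i (w1 s i) θ p‖ := by
    unfold c1t
    refine (norm_sum_le _ _).trans (Finset.sum_le_sum fun i _ => key i _ (h i θ).1)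
  have h0 : ‖c0t s B Y Z θ‖ ≤ ∑ i : Fin 4, ∑' p, ‖tm s i (w0 s B i) θ p‖ := by
    unfold c0t
    refine (norm_sum_le _ _).trans (Finset.sum_le_sum fun i _ => key i _ (h i θ).2.1)
  calc ‖c1t s Y Z θ‖ + ‖c0t s B Y Z θ‖ ≤ ∑ i : Fin 4, (∑' p, ‖tm s i (w1 s i) θ p‖ +
        ∑' p, ‖tm s i (w0 s B i) θ p‖) := by
        rw [Finset.sum_add_distrib]
        exact add_le_add h1 h0
    _ ≤ ∑ _i : Fin 4, C * (θ.den : ℝ) ^ (-1 + ε) := Finset.sum_le_sum fun i _ => (h i θ).2.2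
    _ = 4 * C * (θ.den : ℝ) ^ (-1 + ε) := by
        rw [Finset.sum_const, Finset.card_univ, Fintype.card_fin, nsmul_eq_mul]
        push_cast
        ring

/-- the majorant for the tail -/
theorem tm_tail {s : ℤ} (hpc : PcB s) {Cw : ℝ} (hCw : 0 < Cw) (i : Fin 4) (w : ℕ → ℕ → ℝ)
    (hw : ∀ k f : ℕ, 1 ≤ k → 1 ≤ f → |w k f| ≤ Cw * (1 + Real.log k + Real.log f)) (θ : ℚ) (Z : ℕ)
    (hZ : 1 ≤ Z) (p : ℕ × ℕ) : ‖if p ∈ Icc 1 Z ×ˢ Icc 1 Z then 0 else tm s i w θ p‖ ≤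
      528 * Cw * (Z : ℝ) ^ (-(1 / 8 : ℝ)) *
        ((p.1 : ℝ) ^ (-(17 / 16) : ℝ) * (p.2 : ℝ) ^ (-(11 / 8) : ℝ)) := by
  obtain ⟨f, b⟩ := p
  simp only
  split_ifs with hbox
  · rw [norm_zero]
    positivity
  refine (tm_le hpc i w θ f b).trans ?_
  split_ifs with h
  swap
  · positivity
  obtain ⟨hf, hb⟩ := h
  obtain ⟨g, hg⟩ : ∃ g, g = Nat.lcm (b ^ 2) f := ⟨_, rfl⟩
  rw [← hg]
  obtain ⟨κ, hκ⟩ : ∃ κ, κ = kap s i g θ := ⟨_, rfl⟩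
  have hκ1 := kap_pos s i g θ
  rw [← hκ] at hκ1 ⊢
  have hg0 : 0 < g := by rw [hg]; exact Nat.lcm_pos (pow_pos hb 2) hf
  have hgr : (0 : ℝ) < g := by exact_mod_cast hg0
  have hfr : (0 : ℝ) < f := by exact_mod_cast hf
  have hbr : (0 : ℝ) < b := by exact_mod_cast hb
  have hκr : (0 : ℝ) < κ := by exact_mod_cast hκ1
  have hκr1 : (1 : ℝ) ≤ κ := by exact_mod_cast hκ1
  have hZr : (0 : ℝ) < Z := by exact_mod_cast hZ
  have hμ : (0 : ℝ) < 1 / 16 := by norm_num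
  have hw1 := (hw κ f hκ1 hf).trans (mul_le_mul_of_nonneg_left (log_w hμ hκ1 hf) hCw.le)
  have hZfb : (Z : ℝ) ≤ f * b := by
    rw [Finset.mem_product, Finset.mem_Icc, Finset.mem_Icc] at hbox
    have : Z < f ∨ Z < b := by
      by_contra hcon
      push Not at hcon
      exact hbox ⟨⟨hf, hcon.1⟩, hb, hcon.2⟩
    have h2 : Z ≤ f * b := by
      rcases this with h | h
      · nlinarith
      · nlinarith
    exact_mod_cast h2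
  -- the lower bound for `g`
  have hgf : (f : ℝ) ≤ g := by
    have : f ∣ g := by rw [hg]; exact Nat.dvd_lcm_right _ _
    exact_mod_cast Nat.le_of_dvd hg0 this
  have hgb : (b : ℝ) ^ 2 ≤ g := by
    have : b ^ 2 ∣ g := by rw [hg]; exact Nat.dvd_lcm_left _ _
    exact_mod_cast Nat.le_of_dvd hg0 this
  have hgi : (g : ℝ)⁻¹ ≤ (f : ℝ) ^ (-(1 / 4) : ℝ) * (b : ℝ) ^ (-(3 / 2) : ℝ) := by
    have e1 : (g : ℝ)⁻¹ = (g : ℝ) ^ (-(1 / 4) : ℝ) * (g : ℝ) ^ (-(3 / 4) : ℝ) := by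
      rw [← Real.rpow_add hgr, ← Real.rpow_neg_one]
      norm_num
    have e2 : (g : ℝ) ^ (-(1 / 4) : ℝ) ≤ (f : ℝ) ^ (-(1 / 4) : ℝ) :=
      Real.rpow_le_rpow_of_nonpos hfr hgf (by norm_num)
    have e3 : (g : ℝ) ^ (-(3 / 4) : ℝ) ≤ (b : ℝ) ^ (-(3 / 2) : ℝ) := by
      calc (g : ℝ) ^ (-(3 / 4) : ℝ) ≤ ((b : ℝ) ^ 2) ^ (-(3 / 4) : ℝ) :=
            Real.rpow_le_rpow_of_nonpos (by positivity) hgb (by norm_num)
        _ = (b : ℝ) ^ (-(3 / 2) : ℝ) := by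
            rw [← Real.rpow_natCast, ← Real.rpow_mul hbr.le]
            norm_num
    rw [e1]
    exact mul_le_mul e2 e3 (by positivity) (by positivity)
  have hκi : (κ : ℝ) ^ (1 / 16 : ℝ) * (κ : ℝ)⁻¹ ≤ 1 := by
    rw [← Real.rpow_neg_one, ← Real.rpow_add hκr]
    exact Real.rpow_le_one_of_one_le_of_nonpos hκr1 (by norm_num)
  have hone : (1 : ℝ) ≤ (Z : ℝ) ^ (-(1 / 8 : ℝ)) * ((f : ℝ) ^ (1 / 8 : ℝ) * (b : ℝ) ^ (1 / 8 : ℝ)) := by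
    rw [← Real.mul_rpow hfr.le hbr.le, Real.rpow_neg hZr.le, ← div_eq_inv_mul,
      one_le_div (by positivity)]
    exact Real.rpow_le_rpow hZr.le hZfb (by norm_num)
  calc 16 * |w κ f| / (f * g * κ) = 16 * |w κ f| * ((κ : ℝ)⁻¹ * ((f : ℝ)⁻¹ * (g : ℝ)⁻¹)) := by
        field_simp
    _ ≤ 16 * (Cw * ((1 + 2 / (1 / 16)) * ((κ : ℝ) ^ (1 / 16 : ℝ) * (f : ℝ) ^ (1 / 16 : ℝ)))) *
        ((κ : ℝ)⁻¹ * ((f : ℝ)⁻¹ * ((f : ℝ) ^ (-(1 / 4) : ℝ) * (b : ℝ) ^ (-(3 / 2) : ℝ)))) := by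
        gcongr
    _ = 528 * Cw * ((κ : ℝ) ^ (1 / 16 : ℝ) * (κ : ℝ)⁻¹) *
        (((f : ℝ) ^ (1 / 16 : ℝ) * (f : ℝ)⁻¹ * (f : ℝ) ^ (-(1 / 4) : ℝ)) * (b : ℝ) ^ (-(3 / 2) : ℝ)) *
        1 := by ring
    _ ≤ 528 * Cw * 1 *
        (((f : ℝ) ^ (1 / 16 : ℝ) * (f : ℝ)⁻¹ * (f : ℝ) ^ (-(1 / 4) : ℝ)) * (b : ℝ) ^ (-(3 / 2) : ℝ)) *
        ((Z : ℝ) ^ (-(1 / 8 : ℝ)) * ((f : ℝ) ^ (1 / 8 : ℝ) * (b : ℝ) ^ (1 / 8 : ℝ))) := by
        gcongr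
    _ = 528 * Cw * (Z : ℝ) ^ (-(1 / 8 : ℝ)) *
        (((f : ℝ) ^ (1 / 16 : ℝ) * (f : ℝ)⁻¹ * (f : ℝ) ^ (-(1 / 4) : ℝ) * (f : ℝ) ^ (1 / 8 : ℝ)) *
          ((b : ℝ) ^ (-(3 / 2) : ℝ) * (b : ℝ) ^ (1 / 8 : ℝ))) := by ring
    _ = _ := by
        have e1 : (f : ℝ) ^ (1 / 16 : ℝ) * (f : ℝ)⁻¹ * (f : ℝ) ^ (-(1 / 4) : ℝ) *
            (f : ℝ) ^ (1 / 8 : ℝ) = (f : ℝ) ^ (-(17 / 16) : ℝ) := by
          rw [← Real.rpow_neg_one, ← Real.rpow_add hfr, ← Real.rpow_add hfr, ← Real.rpow_add hfr]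
          norm_num
        have e2 : (b : ℝ) ^ (-(3 / 2) : ℝ) * (b : ℝ) ^ (1 / 8 : ℝ) = (b : ℝ) ^ (-(11 / 8) : ℝ) := by
          rw [← Real.rpow_add hbr]
          norm_num
        rw [e1, e2]

theorem coef_tail_of (s : ℤ) (hpc : PcB s) (B : Fin 4 → ℝ) : ∃ C : ℝ, 0 < C ∧ ∀ (θ : ℚ) (Y Z : ℕ),
    1 ≤ Z → θ.den ≤ Y →
    ‖c1 s θ - c1t s Y Z θ‖ + ‖c0 s B θ - c0t s B Y Z θ‖ ≤ C * θ.den * (Z : ℝ) ^ (-(1 / 8 : ℝ)) := by
  obtain ⟨Cw, hCw, hw⟩ := w_le s B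
  obtain ⟨Cb, _, hbd⟩ := coef_bd_of s hpc B 1 one_pos
  have hF : Summable fun n : ℕ => (n : ℝ) ^ (-(17 / 16) : ℝ) := Real.summable_nat_rpow.2 (by norm_num)
  have hG : Summable fun n : ℕ => (n : ℝ) ^ (-(11 / 8) : ℝ) := Real.summable_nat_rpow.2 (by norm_num)
  have hprod : Summable fun p : ℕ × ℕ => (p.1 : ℝ) ^ (-(17 / 16) : ℝ) * (p.2 : ℝ) ^ (-(11 / 8) : ℝ) :=
    hF.mul_of_nonneg hG (fun _ => by positivity) (fun _ => by positivity)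
  obtain ⟨S, hS⟩ : ∃ S : ℝ, S = ∑' p : ℕ × ℕ, (p.1 : ℝ) ^ (-(17 / 16) : ℝ) *
      (p.2 : ℝ) ^ (-(11 / 8) : ℝ) := ⟨_, rfl⟩
  have hS0 : 0 ≤ S := by rw [hS]; exact tsum_nonneg fun _ => by positivity
  refine ⟨8 * (528 * Cw * S) + 1, by positivity, fun θ Y Z hZ hY => ?_⟩
  have key : ∀ (i : Fin 4) (w : ℕ → ℕ → ℝ),
      (∀ k f : ℕ, 1 ≤ k → 1 ≤ f → |w k f| ≤ Cw * (1 + Real.log k + Real.log f)) →
      Summable (fun p => ‖tm s i w θ p‖) →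
      ‖∑' p, tm s i w θ p - ∑ p ∈ Icc 1 Z ×ˢ Icc 1 Z,
        if kap s i (Nat.lcm (p.2 ^ 2) p.1) θ ≤ Y then tm s i w θ p else 0‖ ≤
        528 * Cw * S * (Z : ℝ) ^ (-(1 / 8 : ℝ)) := by
    intro i w hw' hs
    have e1 : ∑ p ∈ Icc 1 Z ×ˢ Icc 1 Z,
        (if kap s i (Nat.lcm (p.2 ^ 2) p.1) θ ≤ Y then tm s i w θ p else 0) =
        ∑' p, if p ∈ Icc 1 Z ×ˢ Icc 1 Z then tm s i w θ p else 0 := by
      rw [tsum_eq_sum (s := Icc 1 Z ×ˢ Icc 1 Z) (fun p hp => if_neg hp)]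
      refine Finset.sum_congr rfl fun p hp => ?_
      rw [if_pos hp, if_pos ((kap_le s i _ θ).trans hY)]
    have hfin : Summable fun p => if p ∈ Icc 1 Z ×ˢ Icc 1 Z then tm s i w θ p else 0 :=
      summable_of_ne_finset_zero (s := Icc 1 Z ×ˢ Icc 1 Z) fun p hp => if_neg hp
    rw [e1, ← hs.of_norm.tsum_sub hfin]
    have e2 : (fun p => tm s i w θ p - if p ∈ Icc 1 Z ×ˢ Icc 1 Z then tm s i w θ p else 0) =
        fun p => if p ∈ Icc 1 Z ×ˢ Icc 1 Z then 0 else tm s i w θ p := by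
      funext p
      split_ifs
      · rw [sub_self]
      · rw [sub_zero]
    rw [e2]
    have h1 := tsum_of_norm_bounded ((hprod.mul_left (528 * Cw * (Z : ℝ) ^ (-(1 / 8 : ℝ)))).hasSum)
      (fun p => tm_tail hpc hCw i w hw' θ Z hZ p)
    refine h1.trans (le_of_eq ?_)
    rw [tsum_mul_left, ← hS]
    ring
  have h1 : ‖c1 s θ - c1t s Y Z θ‖ ≤ ∑ _i : Fin 4, 528 * Cw * S * (Z : ℝ) ^ (-(1 / 8 : ℝ)) := by
    unfold c1 c1t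
    rw [← Finset.sum_sub_distrib]
    exact (norm_sum_le _ _).trans (Finset.sum_le_sum fun i _ =>
      key i _ (fun k f hk hf => (hw i k f hk hf).1) (hbd i θ).1)
  have h0 : ‖c0 s B θ - c0t s B Y Z θ‖ ≤ ∑ _i : Fin 4, 528 * Cw * S * (Z : ℝ) ^ (-(1 / 8 : ℝ)) := by
    unfold c0 c0t
    rw [← Finset.sum_sub_distrib]
    exact (norm_sum_le _ _).trans (Finset.sum_le_sum fun i _ =>
      key i _ (fun k f hk hf => (hw i k f hk hf).2) (hbd i θ).2.1)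
  rw [Finset.sum_const, Finset.card_univ, Fintype.card_fin, nsmul_eq_mul] at h1 h0
  push_cast at h1 h0
  have hD1 : (1 : ℝ) ≤ θ.den := by exact_mod_cast θ.den_pos
  have hZ8 : (0 : ℝ) ≤ (Z : ℝ) ^ (-(1 / 8 : ℝ)) := by positivity
  have h2 : 0 ≤ (528 * Cw * S) * (Z : ℝ) ^ (-(1 / 8 : ℝ)) := by positivity
  have h3 : (528 * Cw * S) * (Z : ℝ) ^ (-(1 / 8 : ℝ)) ≤
      (528 * Cw * S) * (Z : ℝ) ^ (-(1 / 8 : ℝ)) * θ.den := le_mul_of_one_le_right h2 hD1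
  have h4 : 0 ≤ (θ.den : ℝ) * (Z : ℝ) ^ (-(1 / 8 : ℝ)) := by positivity
  have e5 : (8 * (528 * Cw * S) + 1) * θ.den * (Z : ℝ) ^ (-(1 / 8 : ℝ)) =
      8 * ((528 * Cw * S) * (Z : ℝ) ^ (-(1 / 8 : ℝ)) * θ.den) + θ.den * (Z : ℝ) ^ (-(1 / 8 : ℝ)) := by
    ring
  rw [e5]
  linarith

end CO

end

end Pool.Agent.J4.H39.CM
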