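import Pool.Agent.J4.H39.CM.Def2
import Pool.Agent.N873.F15.Dn

set_option autoImplicit false

/-!
Project CM (helper39), piece CZERO: the Euler products.
-/

namespace Pool.Agent.J4.H39.CM

open Complex Finset
open Pool.Agent.N879.QM (af)
open Pool.Agent.Y293.SF (mu abs_mu_le mu_zero)

noncomputable section

namespace Cz

lemma mu_mul {m n : ℕ} (h : Nat.Coprime m n) : mu (m * n) = mu m * mu n := by
  unfold mu
  rw [ArithmeticFunction.isMultiplicative_moebius.map_mul_of_coprime h]
  push_cast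
  rfl

lemma mu_one : mu 1 = 1 := by simp [mu]

lemma mu_prime {p : ℕ} (hp : p.Prime) : mu p = -1 := by
  simp [mu, ArithmeticFunction.moebius_apply_prime hp]

lemma mu_pow {p e : ℕ} (hp : p.Prime) (he : 2 ≤ e) : mu (p ^ e) = 0 := by
  unfold mu
  rw [ArithmeticFunction.moebius_apply_prime_pow hp (by omega), if_neg (by omega), Int.cast_zero]

lemma euler (φ : ℕ → ℝ) (h0 : φ 0 = 0) (h1 : φ 1 = 1)
    (hm : ∀ {m n : ℕ}, Nat.Coprime m n → φ (m * n) = φ m * φ n) (hs : Summable fun n => ‖φ n‖)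
    (hp : ∀ p e : ℕ, p.Prime → 2 ≤ e → φ (p ^ e) = 0) :
    HasProd (fun p : Nat.Primes => 1 + φ (p : ℕ)) (∑' n, φ n) := by
  have h := EulerProduct.eulerProduct_hasProd h1 hm hs h0
  have e : (fun p : Nat.Primes => ∑' e, φ ((p : ℕ) ^ e)) = fun p : Nat.Primes => 1 + φ (p : ℕ) := by
    funext p
    rw [tsum_eq_sum (s := range 2) fun e he => hp p e p.2 (by
      rw [mem_range] at he
      omega), sum_range_succ, sum_range_one, pow_zero, pow_one, h1]
  rw [e] at h
  exact h

lemma odd_mul {m n : ℕ} : Odd (m * n) ↔ Odd m ∧ Odd n := Nat.odd_mul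

/-- `μ(n)/n²` on odd integers -/
def ph2 (n : ℕ) : ℝ := if Odd n then mu n / (n : ℝ) ^ 2 else 0

lemma ph2_abs (n : ℕ) : ‖ph2 n‖ ≤ 1 / (n : ℝ) ^ 2 := by
  unfold ph2
  split_ifs
  · rw [Real.norm_eq_abs, abs_div, abs_of_nonneg (by positivity : (0 : ℝ) ≤ (n : ℝ) ^ 2)]
    exact div_le_div_of_nonneg_right (abs_mu_le n) (by positivity)
  · rw [norm_zero]
    positivity

lemma sq_summable : Summable fun n : ℕ => 1 / (n : ℝ) ^ 2 :=
  Real.summable_one_div_nat_pow.2 (by norm_num)

lemma ph2_prod : HasProd (fun p : Nat.Primes => 1 + ph2 (p : ℕ)) (8 / Real.pi ^ 2) := by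
  have h := euler ph2 (by simp [ph2]) (by simp [ph2, mu_one]) (fun {m n} hmn => by
      unfold ph2
      by_cases h1 : Odd m <;> by_cases h2 : Odd n
      · rw [if_pos (Nat.odd_mul.2 ⟨h1, h2⟩), if_pos h1, if_pos h2, mu_mul hmn]
        push_cast
        ring
      · rw [if_neg (fun h => h2 (Nat.odd_mul.1 h).2), if_neg h2, mul_zero]
      · rw [if_neg (fun h => h1 (Nat.odd_mul.1 h).1), if_neg h1, zero_mul]
      · rw [if_neg (fun h => h1 (Nat.odd_mul.1 h).1), if_neg h1, zero_mul])
    (sq_summable.of_nonneg_of_le (fun n => norm_nonneg _) ph2_abs) (fun p e hp he => by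
      unfold ph2
      rw [mu_pow hp he, zero_div, ite_self])
  have h2 := Pool.Agent.N873.F15.Dn.mu_sum (N := 2) (by norm_num)
  have h3 : (fun d : ℕ => mu d * (if d.Coprime 2 then 1 / (d : ℝ) ^ 2 else 0)) = ph2 := by
    funext d
    unfold ph2
    by_cases ho : Odd d
    · rw [if_pos (Nat.coprime_two_right.2 ho), if_pos ho, mul_one_div]
    · rw [if_neg fun hc => ho (Nat.coprime_two_right.1 hc), if_neg ho, mul_zero]
  rw [h3] at h2
  have h4 : 6 / Real.pi ^ 2 / Pool.Agent.N873.F15.Dn.ep 2 = 8 / Real.pi ^ 2 := by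
    unfold Pool.Agent.N873.F15.Dn.ep
    rw [Nat.Prime.primeFactors Nat.prime_two, prod_singleton]
    push_cast
    norm_num
    ring
  rw [h4] at h2
  rw [h2.tsum_eq] at h
  exact h

/-- the inner summand -/
def psi (f b : ℕ) : ℝ := if Odd b then mu b * (Nat.gcd b f : ℝ) / (b : ℝ) ^ 2 else 0

lemma psi_abs {f : ℕ} (hf : 0 < f) (b : ℕ) : ‖psi f b‖ ≤ f * (1 / (b : ℝ) ^ 2) := by
  unfold psi
  split_ifs
  · rw [Real.norm_eq_abs, abs_div, abs_mul, Nat.abs_cast,
      abs_of_nonneg (by positivity : (0 : ℝ) ≤ (b : ℝ) ^ 2), mul_one_div]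
    refine div_le_div_of_nonneg_right ?_ (by positivity)
    have h1 : (Nat.gcd b f : ℝ) ≤ f := by exact_mod_cast Nat.gcd_le_right b hf
    calc |mu b| * (Nat.gcd b f : ℝ) ≤ 1 * f :=
          mul_le_mul (abs_mu_le b) h1 (Nat.cast_nonneg _) zero_le_one
      _ = f := one_mul _
  · rw [norm_zero]
    positivity

lemma psi_sum {f : ℕ} (hf : Odd f) : ∑' b, psi f b = 8 / Real.pi ^ 2 * af f := by
  have hf0 : 0 < f := hf.pos
  have h := euler (psi f) (by simp [psi]) (by simp [psi, mu_one]) (fun {m n} hmn => by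
      unfold psi
      by_cases h1 : Odd m <;> by_cases h2 : Odd n
      · rw [if_pos (Nat.odd_mul.2 ⟨h1, h2⟩), if_pos h1, if_pos h2, mu_mul hmn,
          Nat.gcd_comm (m * n), Nat.Coprime.gcd_mul f hmn, Nat.gcd_comm f m, Nat.gcd_comm f n]
        push_cast
        ring
      · rw [if_neg (fun h => h2 (Nat.odd_mul.1 h).2), if_neg h2, mul_zero]
      · rw [if_neg (fun h => h1 (Nat.odd_mul.1 h).1), if_neg h1, zero_mul]
      · rw [if_neg (fun h => h1 (Nat.odd_mul.1 h).1), if_neg h1, zero_mul])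
    ((sq_summable.mul_left (f : ℝ)).of_nonneg_of_le (fun n => norm_nonneg _) (psi_abs hf0))
    (fun p e hp he => by
      unfold psi
      rw [mu_pow hp he, zero_mul, zero_div, ite_self])
  -- the finite product
  obtain ⟨ρ, hρ⟩ : ∃ ρ : Nat.Primes → ℝ, ρ = fun (p : Nat.Primes) => if (p : ℕ) ∣ f then
    ((p : ℕ) : ℝ) / ((p : ℕ) + 1) else 1 := ⟨_, rfl⟩
  have h2 : HasProd ρ (∏ p ∈ f.primeFactors.subtype Nat.Prime, ρ p) := by
    refine hasProd_prod_of_ne_finset_one fun p hp => ?_
    rw [hρ]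
    exact if_neg fun hd => hp (mem_subtype.2 (Nat.mem_primeFactors.2 ⟨p.2, hd, hf0.ne'⟩))
  have h3 : ∏ p ∈ f.primeFactors.subtype Nat.Prime, ρ p = af f := by
    have h4 : ∏ p ∈ f.primeFactors.subtype Nat.Prime, ρ p =
        ∏ p ∈ f.primeFactors.subtype Nat.Prime, (fun q : ℕ => (q : ℝ) / (q + 1)) (p : ℕ) := by
      refine prod_congr rfl fun p hp => ?_
      have hp' := Nat.mem_primeFactors.1 (mem_subtype.1 hp)
      rw [hρ]
      exact if_pos hp'.2.1
    rw [h4]
    exact prod_subtype_of_mem (fun q : ℕ => (q : ℝ) / (q + 1)) fun q hq =>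
      Nat.prime_of_mem_primeFactors hq
  rw [h3] at h2
  have h5 := ph2_prod.mul h2
  have h6 : (fun p : Nat.Primes => (1 + ph2 (p : ℕ)) * ρ p) =
      fun p : Nat.Primes => 1 + psi f (p : ℕ) := by
    funext p
    rw [hρ]
    dsimp only
    have hp := p.2
    have hp0 : (0 : ℝ) < (p : ℕ) := by exact_mod_cast hp.pos
    unfold ph2 psi
    by_cases hodd : Odd (p : ℕ)
    · rw [if_pos hodd, if_pos hodd, mu_prime hp]
      by_cases hd : (p : ℕ) ∣ f
      · rw [if_pos hd, Nat.gcd_eq_left hd]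
        field_simp
        ring
      · rw [if_neg hd, (Nat.Prime.coprime_iff_not_dvd hp).2 hd]
        push_cast
        ring
    · rw [if_neg hodd, if_neg hodd]
      have h2 : (p : ℕ) = 2 := by
        rcases hp.eq_two_or_odd' with h | h
        · exact h
        · exact absurd h hodd
      rw [if_neg]
      · ring
      · rw [h2]
        intro hd
        exact (Nat.not_even_iff_odd.2 hf) (even_iff_two_dvd.2 hd)
  rw [h6] at h5
  exact h.unique h5

/-- the outer summand -/
def Ph (f : ℕ) : ℝ := if Odd f then mu f * af f / (f : ℝ) ^ 2 else 0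

lemma af_nonneg (n : ℕ) : 0 ≤ af n := prod_nonneg fun p _ => by positivity

lemma af_le (n : ℕ) : af n ≤ 1 := by
  refine prod_le_one (fun p _ => by positivity) fun p _ => ?_
  have : (0 : ℝ) < (p : ℝ) + 1 := by positivity
  rw [div_le_one this]
  linarith

lemma Ph_sum : ∏' p : Nat.Primes, (1 - 1 / (((p : ℕ) : ℝ) * ((p : ℕ) + 1))) = 5 / 6 * ∑' f, Ph f := by
  have h := euler Ph (by simp [Ph]) (by simp [Ph, mu_one, af]) (fun {m n} hmn => by
      unfold Ph
      by_cases h1 : Odd m <;> by_cases h2 : Odd n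
      · have h3 : af (m * n) = af m * af n := by
          unfold af
          rw [Nat.Coprime.primeFactors_mul hmn,
            prod_union (Nat.Coprime.disjoint_primeFactors hmn)]
        rw [if_pos (Nat.odd_mul.2 ⟨h1, h2⟩), if_pos h1, if_pos h2, mu_mul hmn, h3]
        push_cast
        ring
      · rw [if_neg (fun h => h2 (Nat.odd_mul.1 h).2), if_neg h2, mul_zero]
      · rw [if_neg (fun h => h1 (Nat.odd_mul.1 h).1), if_neg h1, zero_mul]
      · rw [if_neg (fun h => h1 (Nat.odd_mul.1 h).1), if_neg h1, zero_mul])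
    (sq_summable.of_nonneg_of_le (fun n => norm_nonneg _) fun n => by
      unfold Ph
      split_ifs
      · rw [Real.norm_eq_abs, abs_div, abs_mul, abs_of_nonneg (af_nonneg n),
          abs_of_nonneg (by positivity : (0 : ℝ) ≤ (n : ℝ) ^ 2)]
        refine div_le_div_of_nonneg_right ?_ (by positivity)
        calc |mu n| * af n ≤ 1 * 1 := mul_le_mul (abs_mu_le n) (af_le n) (af_nonneg n) zero_le_one
          _ = 1 := one_mul _
      · rw [norm_zero]
        positivity)
    (fun p e hp he => by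
      unfold Ph
      rw [mu_pow hp he, zero_mul, zero_div, ite_self])
  have h2 : HasProd (fun p : Nat.Primes => if (p : ℕ) = 2 then (5 / 6 : ℝ) else 1) (5 / 6) :=
    hasProd_single (⟨2, Nat.prime_two⟩ : Nat.Primes) fun p hp => if_neg fun h => hp (Subtype.ext h)
  have h3 := h2.mul h
  have h4 : (fun p : Nat.Primes => (if (p : ℕ) = 2 then (5 / 6 : ℝ) else 1) *
      (1 + Ph (p : ℕ))) = fun p : Nat.Primes => 1 - 1 / (((p : ℕ) : ℝ) * ((p : ℕ) + 1)) := by
    funext p
    have hp := p.2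
    have hp0 : (0 : ℝ) < (p : ℕ) := by exact_mod_cast hp.pos
    by_cases h2 : (p : ℕ) = 2
    · rw [if_pos h2, h2]
      unfold Ph
      rw [if_neg (by decide)]
      norm_num
    · rw [if_neg h2]
      have hodd : Odd (p : ℕ) := by
        rcases hp.eq_two_or_odd' with h | h
        · exact absurd h h2
        · exact h
      unfold Ph
      rw [if_pos hodd, mu_prime hp]
      have : af (p : ℕ) = ((p : ℕ) : ℝ) / ((p : ℕ) + 1) := by
        unfold af
        rw [Nat.Prime.primeFactors hp, prod_singleton]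
      rw [this]
      field_simp
      ring
  rw [h4] at h3
  exact h3.tprod_eq

end Cz

end

end Pool.Agent.J4.H39.CM
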