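import Pool.Agent.N879.QM.Stm

set_option autoImplicit false

/-!
Project CM (helper39, `MP_ea46f5_nt`): the circle method for the central values `L(1/2, χ_d)`.
Definitions. The family of the fundamental discriminants of sign `s` is `Pool.Agent.N879.QM.Q s X`
(conductors `q < X`), `vl s q n = χ(n)`, `LL s q z = L(z, χ)`, see `N879/QM/Stm.lean`.
-/

namespace Pool.Agent.J4.H39.CM

open Complex Filter Topology MeasureTheory Set
open Pool.Agent.N879.QM

noncomputable section

/-- the exponent of the weight function: `-3/4` for even, `-1/4` for odd characters -/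
def ex (s : ℤ) : ℝ := if s = 1 then -3 / 4 else -1 / 4

/-- `∫_z^∞ e^{-πu} u^{ex s} du` -/
def Wi (s : ℤ) (z : ℝ) : ℝ := ∫ u in Set.Ioi z, Real.exp (-(Real.pi * u)) * u ^ (ex s)

/-- the weight function of the approximate functional equation, `V(0) = 1` -/
def V (s : ℤ) (z : ℝ) : ℝ := Wi s z / Wi s 0

/-- the weight of the term `n` for the conductor `q` -/
def wt (s : ℤ) (q n : ℕ) : ℝ := V s ((n : ℝ) ^ 2 / q) / √n

/-- the part of the approximate functional equation with `n ≤ q`, `P n` -/
def PV (s : ℤ) (P : ℕ → Prop) [DecidablePred P] (q : ℕ) : ℂ :=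
  2 * ∑ n ∈ (Finset.Icc 1 q).filter P, vl s q n * (wt s q n : ℂ)

/-- the squarefree part of `n` is at most `Y` -/
def Sm (Y : ℕ) (n : ℕ) : Prop := ∃ k m : ℕ, k ≤ Y ∧ n = k * m ^ 2

open Classical in
/-- the model: the terms whose index has a squarefree part `≤ Y` -/
def B (s : ℤ) (Y q : ℕ) : ℂ := PV s (Sm Y) q

/-- `e(x)` -/
def e (x : ℝ) : ℂ := Complex.exp (2 * Real.pi * x * I)

end

end Pool.Agent.J4.H39.CM
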