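import Pool.Agent.J4.H39.CM.Ks
import Pool.Agent.J4.H39.CM.Def

set_option autoImplicit false

/-!
Project CM (helper39): decomposition `n = 2^j k m²`, the sum of the divisor function.
-/

namespace Pool.Agent.J4.H39.CM

open Finset

noncomputable section

lemma tau_sum (N : ℕ) : ∑ m ∈ Icc 1 N, ∑ _f ∈ m.divisors, 1 / (m : ℝ) ≤ (∑ f ∈ Icc 1 N, 1 / (f : ℝ)) ^ 2 := by
  have h1 : ∀ m ∈ Icc 1 N, ∑ _f ∈ m.divisors, 1 / (m : ℝ) =
      ∑ f ∈ Icc 1 N, if f ∣ m then 1 / (m : ℝ) else 0 := by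
    intro m hm
    rw [mem_Icc] at hm
    rw [← sum_filter]
    refine sum_congr ?_ fun _ _ => rfl
    ext f
    rw [Nat.mem_divisors, mem_filter, mem_Icc]
    constructor
    · rintro ⟨h, -⟩
      exact ⟨⟨Nat.pos_of_dvd_of_pos h (by omega), (Nat.le_of_dvd (by omega) h).trans hm.2⟩, h⟩
    · rintro ⟨-, h⟩
      exact ⟨h, by omega⟩
  rw [sum_congr rfl h1, sum_comm, sq, sum_mul]
  refine sum_le_sum fun f hf => ?_
  rw [mem_Icc] at hf
  rw [← sum_filter, mul_sum]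
  calc ∑ m ∈ (Icc 1 N).filter (fun m => f ∣ m), 1 / (m : ℝ)
      = ∑ t ∈ ((Icc 1 N).filter (fun m => f ∣ m)).image (fun m => m / f), 1 / (f : ℝ) * (1 / (t : ℝ)) := by
        rw [sum_image]
        · refine sum_congr rfl fun m hm => ?_
          rw [mem_filter, mem_Icc] at hm
          obtain ⟨⟨a1, a2⟩, t, rfl⟩ := hm
          rw [Nat.mul_div_cancel_left _ (by omega)]
          push_cast
          rw [one_div_mul_one_div]
        · intro m hm m' hm' h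
          rw [mem_coe, mem_filter, mem_Icc] at hm hm'
          obtain ⟨⟨a1, a2⟩, t, rfl⟩ := hm
          obtain ⟨⟨b1, b2⟩, t', rfl⟩ := hm'
          have hf0 : 0 < f := by omega
          simp only [Nat.mul_div_cancel_left _ hf0] at h
          rw [h]
    _ ≤ ∑ t ∈ Icc 1 N, 1 / (f : ℝ) * (1 / (t : ℝ)) := by
        refine sum_le_sum_of_subset_of_nonneg (fun t ht => ?_) fun _ _ _ => by positivity
        rw [mem_image] at ht
        obtain ⟨m, hm, rfl⟩ := ht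
        rw [mem_filter, mem_Icc] at hm
        obtain ⟨⟨a1, a2⟩, t, rfl⟩ := hm
        have hf0 : 0 < f := by omega
        rw [Nat.mul_div_cancel_left _ hf0, mem_Icc]
        refine ⟨Nat.pos_of_ne_zero (by rintro rfl; omega), ?_⟩
        nlinarith

lemma harm_le {X : ℝ} {N : ℕ} (hN : 1 ≤ N) (hNX : (N : ℝ) ≤ X) :
    ∑ f ∈ Icc 1 N, 1 / (f : ℝ) ≤ 1 + Real.log X := by
  have h1 : ∑ f ∈ Icc 1 N, 1 / (f : ℝ) = ((harmonic N : ℚ) : ℝ) := by
    rw [harmonic_eq_sum_Icc]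
    push_cast
    simp
  rw [h1]
  have hNR : (0 : ℝ) < N := by exact_mod_cast hN
  exact (harmonic_le_one_add_log N).trans (by linarith [Real.log_le_log hNR hNX])

lemma dec_ex (n : ℕ) : ∃ x : ℕ × ℕ × ℕ, n ≠ 0 → n = 2 ^ x.1 * (x.2.1 * x.2.2 ^ 2) ∧ Odd x.2.1 ∧
    Squarefree x.2.1 ∧ x.2.2 ≠ 0 ∧ x.1 = n.factorization 2 ∧
    n / 2 ^ (n.factorization 2) = x.2.1 * x.2.2 ^ 2 := by
  by_cases hn : n = 0
  · exact ⟨(0, 0, 0), fun h => absurd hn h⟩
  · set n' := n / 2 ^ (n.factorization 2) with hn'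
    have ho : Odd n' := Pool.Agent.N879.QM.Avg.odd_part hn
    obtain ⟨k, m, hkm, hk⟩ := Nat.sq_mul_squarefree n'
    refine ⟨(n.factorization 2, k, m), fun _ => ?_⟩
    have h1 := Nat.ordProj_mul_ordCompl_eq_self n 2
    have h2 : k * m ^ 2 = n' := by rw [mul_comm]; exact hkm
    refine ⟨?_, ?_, hk, ?_, rfl, h2.symm⟩
    · show n = 2 ^ (n.factorization 2) * (k * m ^ 2)
      rw [h2]
      exact h1.symm
    · rw [← h2] at ho
      exact (Nat.odd_mul.1 ho).1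
    · rintro h
      have h' : m = 0 := h
      rw [h'] at h2
      rw [← h2] at ho
      simp at ho

/-- the decomposition `n = 2^j k m²` -/
def dec (n : ℕ) : ℕ × ℕ × ℕ := (dec_ex n).choose

lemma dec_spec {n : ℕ} (hn : n ≠ 0) : n = 2 ^ (dec n).1 * ((dec n).2.1 * (dec n).2.2 ^ 2) ∧
    Odd (dec n).2.1 ∧ Squarefree (dec n).2.1 ∧ (dec n).2.2 ≠ 0 ∧ (dec n).1 = n.factorization 2 ∧
    n / 2 ^ (n.factorization 2) = (dec n).2.1 * (dec n).2.2 ^ 2 :=
  (dec_ex n).choose_spec hn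

lemma dec_not_sm {Y n : ℕ} (hn : n ≠ 0) (h : ¬ Sm Y n) : Y < 2 * (dec n).2.1 := by
  obtain ⟨h1, -⟩ := dec_spec hn
  by_contra hc
  push Not at hc
  apply h
  rcases Nat.even_or_odd' (dec n).1 with ⟨i, hi | hi⟩
  · refine ⟨(dec n).2.1, 2 ^ i * (dec n).2.2, by omega, ?_⟩
    rw [hi] at h1
    conv_lhs => rw [h1]
    rw [pow_mul']
    ring
  · refine ⟨2 * (dec n).2.1, 2 ^ i * (dec n).2.2, hc, ?_⟩
    rw [hi] at h1
    conv_lhs => rw [h1]
    rw [pow_add, pow_mul']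
    ring

/-- summation over the decomposition -/
lemma dec_sum (Y N : ℕ) (G : ℕ × ℕ × ℕ → ℝ) (hG : ∀ x, 0 ≤ G x) (S : Finset ℕ)
    (hS : ∀ n ∈ S, 1 ≤ n ∧ n ≤ N ∧ ¬ Sm Y n) :
    ∑ n ∈ S, G (dec n) ≤
      ∑ j ∈ range (Nat.log 2 N + 1), ∑ m ∈ Icc 1 N, ∑ k ∈ (Icc 1 N).filter (fun k => Y < 2 * k), G (j, k, m) := by
  classical
  have h1 : ∑ n ∈ S, G (dec n) = ∑ x ∈ S.image dec, G x := by
    rw [sum_image]
    intro n hn n' hn' h
    have a1 := hS n (mem_coe.1 hn)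
    have a2 := hS n' (mem_coe.1 hn')
    have b1 := (dec_spec (n := n) (by omega)).1
    have b2 := (dec_spec (n := n') (by omega)).1
    rw [b1, b2, h]
  rw [h1]
  have h2 : ∑ j ∈ range (Nat.log 2 N + 1), ∑ m ∈ Icc 1 N,
      ∑ k ∈ (Icc 1 N).filter (fun k => Y < 2 * k), G (j, k, m) =
      ∑ x ∈ range (Nat.log 2 N + 1) ×ˢ (((Icc 1 N).filter (fun k => Y < 2 * k)) ×ˢ Icc 1 N), G x := by
    rw [sum_product]
    refine sum_congr rfl fun j _ => ?_
    rw [sum_product, sum_comm]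
  rw [h2]
  refine sum_le_sum_of_subset_of_nonneg (fun x hx => ?_) fun x _ _ => hG x
  rw [mem_image] at hx
  obtain ⟨n, hn, rfl⟩ := hx
  obtain ⟨a1, a2, a3⟩ := hS n hn
  have hn0 : n ≠ 0 := by omega
  obtain ⟨b1, b2, b3, b4, b5, b6⟩ := dec_spec hn0
  have c1 := dec_not_sm hn0 a3
  have hk : 0 < (dec n).2.1 := b2.pos
  have hm : 0 < (dec n).2.2 := Nat.pos_of_ne_zero b4
  have hkm : (dec n).2.1 * (dec n).2.2 ^ 2 ≤ n := by
    rw [← b6]
    exact Nat.div_le_self _ _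
  rw [mem_product, mem_product, mem_filter, mem_Icc, mem_Icc, mem_range]
  refine ⟨?_, ⟨⟨hk, ?_⟩, c1⟩, hm, ?_⟩
  · have d1 : 2 ^ (dec n).1 ≤ N := by
      refine le_trans ?_ a2
      conv_rhs => rw [b1]
      exact Nat.le_mul_of_pos_right _ (by positivity)
    have := Nat.le_log_of_pow_le (by norm_num) d1
    omega
  · have : (dec n).2.1 ≤ (dec n).2.1 * (dec n).2.2 ^ 2 := Nat.le_mul_of_pos_right _ (by positivity)
    omega
  · have : (dec n).2.2 ≤ (dec n).2.1 * (dec n).2.2 ^ 2 := by nlinarith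
    omega

/-- the weights in terms of the decomposition -/
lemma dec_wt {X : ℝ} {n : ℕ} (hn : n ≠ 0) :
    om X n / √n ≤ om X (dec n).2.1 / √(dec n).2.1 * (1 / ((dec n).2.2 : ℝ)) := by
  obtain ⟨b1, b2, b3, b4, b5, b6⟩ := dec_spec hn
  have hk : 0 < (dec n).2.1 := b2.pos
  have hm : 0 < (dec n).2.2 := Nat.pos_of_ne_zero b4
  have hkm : (dec n).2.1 * (dec n).2.2 ^ 2 ≤ n := by
    rw [← b6]
    exact Nat.div_le_self _ _
  have hkn : (dec n).2.1 ≤ n := by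
    have : (dec n).2.1 ≤ (dec n).2.1 * (dec n).2.2 ^ 2 := Nat.le_mul_of_pos_right _ (by positivity)
    omega
  have hkR : (0 : ℝ) < (dec n).2.1 := by exact_mod_cast hk
  have hmR : (0 : ℝ) < (dec n).2.2 := by exact_mod_cast hm
  have h1 : √((dec n).2.1 : ℝ) * (dec n).2.2 ≤ √n := by
    have h2 : ((dec n).2.1 : ℝ) * ((dec n).2.2 : ℝ) ^ 2 ≤ n := by exact_mod_cast hkm
    calc √((dec n).2.1 : ℝ) * (dec n).2.2 = √(((dec n).2.1 : ℝ) * ((dec n).2.2 : ℝ) ^ 2) := by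
          rw [Real.sqrt_mul hkR.le, Real.sqrt_sq hmR.le]
      _ ≤ √n := Real.sqrt_le_sqrt h2
  have h3 : 0 < √((dec n).2.1 : ℝ) := Real.sqrt_pos.2 hkR
  rw [div_mul_div_comm, mul_one]
  exact div_le_div₀ (om_nonneg _ _) (om_anti X hk hkn) (by positivity) h1

end

end Pool.Agent.J4.H39.CM
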