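import Pool.Agent.J4.H39.CM.Sup2

set_option autoImplicit false

/-!
Project CM (helper39), second part: the singular series. Definitions.
-/

namespace Pool.Agent.J4.H39.CM

open Complex Finset
open Pool.Agent.N879.QM
open Pool.Agent.N879.QM.Avg (fam)
open Pool.Agent.H306R2.RZ (js)
open Pool.Agent.Y293.SF (mu)

noncomputable section

/-- the squarefree part of the odd part of `n` is at most `Y` -/
def PY (Y : ℕ) (n : ℕ) : Prop := (dec n).2.1 ≤ Y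

/-- the terms of `La` -/
def Lt (s : ℤ) (η z : ℝ) (p : ℕ × ℕ) : ℝ :=
  (η / √2) ^ p.1 * (if Odd p.2 then V s ((4 : ℝ) ^ p.1 * (p.2 : ℝ) ^ 4 / z) / (p.2 : ℝ) else 0)

/-- `∑_{j ≥ 0, m odd} (η / √2)^j V(4^j m⁴ / z) / m` -/
def La (s : ℤ) (η z : ℝ) : ℝ := ∑' p : ℕ × ℕ, Lt s η z p

/-- the leading coefficient of `La` -/
def LA (η : ℝ) : ℝ := 1 / 8 * (1 - η / √2)⁻¹

/-- `a(log z) + b` approximates `La` for every family -/
def Good (s : ℤ) (B : Fin 4 → ℝ) : Prop := ∃ C : ℝ, 0 < C ∧ ∀ (i : Fin 4) (z : ℝ), 0 < z →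
  |La s (fam s i).η z - (LA (fam s i).η * Real.log z + B i)| ≤ C * z ^ (-(1 / 8 : ℝ))

open Classical in
/-- the classes modulo `8` of the family `i` -/
def RR (s : ℤ) (i : Fin 4) : Finset ℕ := (range 8).filter (fun c => ∃ d, (fam s i).A d ∧ d % 8 = c)

open Classical in
/-- the periodic functions: `q = r d`, `d` in the classes of the family, `g ∣ d`, times `(d/k)` -/
def Pf (s : ℤ) (i : Fin 4) (k g q : ℕ) : ℝ :=
  if (fam s i).r ∣ q ∧ (q / (fam s i).r) % 8 ∈ RR s i ∧ g ∣ q / (fam s i).r then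
    js ((q / (fam s i).r : ℕ) : ℤ) k else 0

/-- the coefficients -/
def cc (s : ℤ) (i : Fin 4) (k f b : ℕ) : ℝ := 2 * js (fam s i).e k / √k * (mu f / f) * mu b

open Classical in
/-- odd squarefree integers `≤ Y` -/
def KO (Y : ℕ) : Finset ℕ := (Icc 1 Y).filter (fun k => Odd k ∧ Squarefree k)

/-- the truncated model -/
def Gp (s : ℤ) (B : Fin 4 → ℝ) (Y Z q : ℕ) : ℝ :=
  ∑ i : Fin 4, ∑ k ∈ KO Y, ∑ f ∈ Icc 1 Z, ∑ b ∈ Icc 1 Z, cc s i k f b * Pf s i k (Nat.lcm (b ^ 2) f) q *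
    (LA (fam s i).η * Real.log ((q : ℝ) / ((k : ℝ) ^ 2 * (f : ℝ) ^ 4)) + B i)

/-- the rationals in `[0,1)` with denominator `≤ D` -/
def Fr (D : ℕ) : Finset ℚ := (fr D).image (fun p => (p.2 : ℚ) / p.1)

/-- the Fourier coefficient of `Pf s i k g` at the frequency `θ` (mean value over a common period) -/
def pc (s : ℤ) (i : Fin 4) (k g : ℕ) (θ : ℚ) : ℂ :=
  ((64 * k * g * θ.den : ℕ) : ℂ)⁻¹ * ∑ q ∈ range (64 * k * g * θ.den),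
    ((Pf s i k g q : ℝ) : ℂ) * e (-((θ : ℝ) * q))

/-- the only `k` with `pc s i k g θ ≠ 0` -/
def kap (s : ℤ) (i : Fin 4) (g : ℕ) (θ : ℚ) : ℕ := ((8 * (fam s i).r * g : ℕ) * θ : ℚ).den

open Classical in
/-- the terms of the singular coefficients: `p = (f, b)`, with the weight `w k f` -/
def tm (s : ℤ) (i : Fin 4) (w : ℕ → ℕ → ℝ) (θ : ℚ) (p : ℕ × ℕ) : ℂ :=
  if 1 ≤ p.1 ∧ 1 ≤ p.2 ∧ Odd (kap s i (Nat.lcm (p.2 ^ 2) p.1) θ) ∧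
      Squarefree (kap s i (Nat.lcm (p.2 ^ 2) p.1) θ) then
    ((cc s i (kap s i (Nat.lcm (p.2 ^ 2) p.1) θ) p.1 p.2 *
      w (kap s i (Nat.lcm (p.2 ^ 2) p.1) θ) p.1 : ℝ) : ℂ) *
      pc s i (kap s i (Nat.lcm (p.2 ^ 2) p.1) θ) (Nat.lcm (p.2 ^ 2) p.1) θ else 0

/-- the weights of the two coefficients -/
def w1 (s : ℤ) (i : Fin 4) (_k _f : ℕ) : ℝ := LA (fam s i).η

/-- the weights of the two coefficients -/
def w0 (s : ℤ) (B : Fin 4 → ℝ) (i : Fin 4) (k f : ℕ) : ℝ :=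
  B i - LA (fam s i).η * Real.log ((k : ℝ) ^ 2 * (f : ℝ) ^ 4)

/-- the coefficient of `log q` -/
def c1 (s : ℤ) (θ : ℚ) : ℂ := ∑ i : Fin 4, ∑' p : ℕ × ℕ, tm s i (w1 s i) θ p

/-- the constant coefficient -/
def c0 (s : ℤ) (B : Fin 4 → ℝ) (θ : ℚ) : ℂ := ∑ i : Fin 4, ∑' p : ℕ × ℕ, tm s i (w0 s B i) θ p

/-- truncated coefficients -/
def c1t (s : ℤ) (Y Z : ℕ) (θ : ℚ) : ℂ := ∑ i : Fin 4, ∑ p ∈ Icc 1 Z ×ˢ Icc 1 Z,
  if kap s i (Nat.lcm (p.2 ^ 2) p.1) θ ≤ Y then tm s i (w1 s i) θ p else 0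

/-- truncated coefficients -/
def c0t (s : ℤ) (B : Fin 4 → ℝ) (Y Z : ℕ) (θ : ℚ) : ℂ := ∑ i : Fin 4, ∑ p ∈ Icc 1 Z ×ˢ Icc 1 Z,
  if kap s i (Nat.lcm (p.2 ^ 2) p.1) θ ≤ Y then tm s i (w0 s B i) θ p else 0

/-- `∑_{θ ∈ S} (a(θ) log q + b(θ)) e(θq)`, `q ≥ 1` -/
def Gm (S : Finset ℚ) (a b : ℚ → ℂ) (q : ℕ) : ℂ :=
  if q = 0 then 0 else ∑ θ ∈ S, (a θ * Real.log q + b θ) * e ((θ : ℝ) * q)

end

end Pool.Agent.J4.H39.CM
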