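import Pool.Agent.J4.H39.CM.Def2

set_option autoImplicit false

/-!
Project CM (helper39), third part: the Euler product of the singular series. Definitions.
-/

namespace Pool.Agent.J4.H39.CM

open Complex Finset
open Pool.Agent.N879.QM
open Pool.Agent.N879.QM.Avg (fam)
open Pool.Agent.H306R2.RZ (js)

noncomputable section

open Classical in
/-- the local function at `2` (period `64`) -/
def A2 (s : ℤ) (q : ℕ) : ℝ :=
  ∑ i : Fin 4, if (fam s i).r ∣ q ∧ (q / (fam s i).r) % 8 ∈ RR s i then 2 * LA (fam s i).η else 0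

/-- the local function at the odd prime `p` (period `p²`) -/
def Fp (s : ℤ) (p q : ℕ) : ℝ :=
  (if p ^ 2 ∣ q then 0 else 1) * (1 - if p ∣ q then 1 / (p : ℝ) else 0) * (1 + js (s * (q : ℤ)) p / √p)

/-- the product of the local functions at `2` and at the primes dividing `P` -/
def Ph (s : ℤ) (P q : ℕ) : ℝ := A2 s q * ∏ p ∈ P.primeFactors, Fp s p q

/-- the mean value of `g(a_1) ⋯ g(a_t)` over the solutions of `a_1 + … + a_t ≡ N` modulo `M` -/
def SG (t M : ℕ) (g : ℕ → ℝ) (N : ℕ) : ℝ :=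
  (∑ a ∈ Fintype.piFinset (fun _ : Fin t => range M), if (∑ i, a i) % M = N % M then ∏ i, g (a i) else 0) /
    (M : ℝ) ^ (t - 1)

/-- the finite approximation of `c1` -/
def cz (s : ℤ) (P : ℕ) (θ : ℚ) : ℂ := ∑ i : Fin 4, ∑ x ∈ P.divisors ×ˢ P.divisors,
  if kap s i (Nat.lcm (x.2 ^ 2) x.1) θ ∣ P then tm s i (w1 s i) θ x else 0

/-- the product of the odd primes `≤ z` -/
def Pz (z : ℕ) : ℕ := ∏ p ∈ (Icc 3 z).filter Nat.Prime, p

end

end Pool.Agent.J4.H39.CM
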