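import Pool.Agent.J4.H39.CM.Sf

set_option autoImplicit false

/-!
Project CM (helper39): irrational frequencies which are not Liouville numbers.
-/

namespace Pool.Agent.J4.H39.CM

open Complex Finset
open Pool.Agent.N879.QM
open Pool.Agent.N879.QM.Avg (fam)

noncomputable section

lemma dio {γ : ℝ} (hγ : Irrational γ) (hL : ¬ Liouville γ) : ∃ n : ℕ, ∀ (W h : ℕ) (θ : ℚ), 1 ≤ h → 1 ≤ W →
    θ.den ≤ W → 1 / (2 * h * W : ℝ) ^ n ≤ ni (h * γ + θ) := by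
  unfold Liouville at hL
  push Not at hL
  obtain ⟨n, hn⟩ := hL
  refine ⟨n, fun W h θ hh hW hθ => ?_⟩
  have hhR : (1 : ℝ) ≤ h := by exact_mod_cast hh
  have hdR : (1 : ℝ) ≤ θ.den := by exact_mod_cast θ.den_pos
  have hWR : (θ.den : ℝ) ≤ W := by exact_mod_cast hθ
  set z : ℤ := round (h * γ + θ) with hz
  have h1 := hn (2 * (z * θ.den - θ.num)) (2 * (h * θ.den : ℕ)) (by
    have : 1 ≤ h * θ.den := Nat.mul_pos hh θ.den_pos
    omega) (by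
    intro h2
    apply hγ
    exact ⟨((2 * (z * θ.den - θ.num) : ℤ) : ℚ) / ((2 * (h * θ.den : ℕ) : ℤ) : ℚ), by
      rw [h2]
      push_cast
      rfl⟩)
  have h3 : (θ : ℝ) = θ.num / θ.den := by
    exact_mod_cast (Rat.num_div_den θ).symm
  have h4 : ni (h * γ + θ) = h * |γ - ((2 * (z * θ.den - θ.num) : ℤ) : ℝ) / ((2 * (h * θ.den : ℕ) : ℤ) : ℝ)| := by
    unfold ni
    rw [← hz]
    have h5 : (h * γ + θ - z : ℝ) = h * (γ - ((2 * (z * θ.den - θ.num) : ℤ) : ℝ) /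
        ((2 * (h * θ.den : ℕ) : ℤ) : ℝ)) := by
      push_cast
      have a1 : (h : ℝ) ≠ 0 := by linarith
      have a2 : (θ.den : ℝ) ≠ 0 := by linarith
      rw [h3]
      field_simp
      ring
    rw [h5, abs_mul, abs_of_nonneg (by linarith : (0 : ℝ) ≤ h)]
  rw [h4]
  have h6 : 1 / (2 * h * W : ℝ) ^ n ≤ 1 / (((2 * (h * θ.den : ℕ) : ℤ) : ℝ)) ^ n := by
    refine one_div_le_one_div_of_le (by push_cast; positivity) ?_
    refine pow_le_pow_left₀ (by push_cast; positivity) ?_ n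
    push_cast
    nlinarith
  calc 1 / (2 * h * W : ℝ) ^ n ≤ 1 / (((2 * (h * θ.den : ℕ) : ℤ) : ℝ)) ^ n := h6
    _ ≤ |γ - ((2 * (z * θ.den - θ.num) : ℤ) : ℝ) / ((2 * (h * θ.den : ℕ) : ℤ) : ℝ)| := h1
    _ ≤ _ := by
        have := abs_nonneg (γ - ((2 * (z * θ.den - θ.num) : ℤ) : ℝ) / ((2 * (h * θ.den : ℕ) : ℤ) : ℝ))
        nlinarith

theorem irr (s : ℤ) (hs : s = 1 ∨ s = -1) (B : Fin 4 → ℝ) (hB : Good s B) {γ : ℝ} (hγ : Irrational γ)
    (hL : ¬ Liouville γ) : ∃ (n : ℕ) (δ C : ℝ), 0 < δ ∧ 0 < C ∧ ∀ N h : ℕ, 1 ≤ N → 1 ≤ h →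
    ‖∑ q ∈ range (N + 1), L1 s q * e (h * γ * q)‖ ≤ C * (h : ℝ) ^ n * (N : ℝ) ^ (1 - δ) ∧
    ‖∑ q ∈ range (N + 1), L1 s q * e (-(h * γ * q))‖ ≤ C * (h : ℝ) ^ n * (N : ℝ) ^ (1 - δ) ∧
    ‖∑ q ∈ range (N + 1), e (h * γ * q)‖ ≤ C * (h : ℝ) ^ n * (N : ℝ) ^ (1 - δ) := by
  obtain ⟨n, hn⟩ := dio hγ hL
  set m : ℕ := 4096 * (n + 2) with hm
  have hm1 : 4096 ≤ m := by omega
  have hmR : (4096 : ℝ) ≤ m := by exact_mod_cast hm1
  obtain ⟨C1, hC1, h1⟩ := fourier s hs B hB m hm1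
  obtain ⟨C3, hC3, -, h3⟩ := K_bd s hs B
  obtain ⟨C4, hC4, h4⟩ := log_pow 1 (1 / 4) (by norm_num)
  set δ : ℝ := 1 / (2 * m) with hδ
  have hδ0 : 0 < δ := by positivity
  have hδ1 : δ ≤ 1 / 4 := by
    rw [hδ, div_le_div_iff₀ (by positivity) (by norm_num)]
    linarith
  refine ⟨n, δ, C1 + C3 * 4 * 2 ^ n * C4 + 2 * 2 ^ n, hδ0, by positivity, fun N h hN hh => ?_⟩
  have hNR : (1 : ℝ) ≤ N := by exact_mod_cast hN
  have hN0 : (0 : ℝ) < N := by linarith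
  have hhR : (1 : ℝ) ≤ h := by exact_mod_cast hh
  have hhn : (1 : ℝ) ≤ (h : ℝ) ^ n := one_le_pow₀ hhR
  have hNd : (1 : ℝ) ≤ (N : ℝ) ^ (1 - δ) := Real.one_le_rpow hNR (by linarith)
  obtain ⟨w1, w2, w3⟩ := cut_spec m (by omega) N hN
  set W := cut m N with hW
  have hWR : (1 : ℝ) ≤ W := by exact_mod_cast w1
  have hWn : (W : ℝ) ^ (n + 2) ≤ (N : ℝ) ^ (1 / 4 : ℝ) := by
    calc (W : ℝ) ^ (n + 2) = ((W : ℝ) ^ (4 * (n + 2))) ^ (1 / 4 : ℝ) := by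
          rw [← Real.rpow_natCast, ← Real.rpow_natCast, ← Real.rpow_mul (by linarith)]
          congr 1
          push_cast
          ring
      _ ≤ _ := by
          refine Real.rpow_le_rpow (by positivity) ?_ (by norm_num)
          have : W ^ (4 * (n + 2)) ≤ W ^ m := Nat.pow_le_pow_right w1 (by omega)
          exact_mod_cast this.trans w2
  have hL1' : ‖∑ q ∈ range (N + 1), L1 s q * e (h * γ * q)‖ ≤
      (C1 + C3 * 4 * 2 ^ n * C4) * (h : ℝ) ^ n * (N : ℝ) ^ (1 - δ) := by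
    have e1 : ∑ q ∈ range (N + 1), L1 s q * e (h * γ * q) =
        ∑ q ∈ range (N + 1), (L1 s q - Gm (Fr W) (c1 s) (c0 s B) q) * e (h * γ * q) +
        ∑ q ∈ range (N + 1), Gm (Fr W) (c1 s) (c0 s B) q * e (h * γ * q) := by
      rw [← sum_add_distrib]
      refine sum_congr rfl fun q _ => ?_
      ring
    rw [e1]
    refine (norm_add_le _ _).trans ?_
    have a1 := h1 N (h * γ) hN
    have a2 := many_freq (Fr W) (c1 s) (c0 s B) N (h * γ) (1 / (2 * h * W : ℝ) ^ n) (C3 * (W : ℝ) ^ 2)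
      (by positivity) (fun θ hθ => hn W h θ hh w1 (mem_Fr.1 hθ).2.2) (h3 W _ (Subset.refl _))
    have a3 : C3 * (W : ℝ) ^ 2 * (4 * (1 + Real.log N) / (1 / (2 * h * W : ℝ) ^ n)) ≤
        C3 * 4 * 2 ^ n * C4 * (h : ℝ) ^ n * (N : ℝ) ^ (1 - δ) := by
      have g1 := h4 N hN
      rw [pow_one] at g1
      calc C3 * (W : ℝ) ^ 2 * (4 * (1 + Real.log N) / (1 / (2 * h * W : ℝ) ^ n)) =
            C3 * 4 * 2 ^ n * (h : ℝ) ^ n * ((1 + Real.log N) * (W : ℝ) ^ (n + 2)) := by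
            rw [mul_pow, mul_pow, pow_add]
            field_simp
        _ ≤ C3 * 4 * 2 ^ n * (h : ℝ) ^ n * ((C4 * (N : ℝ) ^ (1 / 4 : ℝ)) * (N : ℝ) ^ (1 / 4 : ℝ)) := by
            refine mul_le_mul_of_nonneg_left ?_ (by positivity)
            exact mul_le_mul g1 hWn (by positivity) (by positivity)
        _ = C3 * 4 * 2 ^ n * C4 * (h : ℝ) ^ n * ((N : ℝ) ^ (1 / 4 : ℝ) * (N : ℝ) ^ (1 / 4 : ℝ)) := by ring
        _ ≤ _ := by
            refine mul_le_mul_of_nonneg_left ?_ (by positivity)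
            rw [← Real.rpow_add hN0]
            exact Real.rpow_le_rpow_of_exponent_le hNR (by linarith)
    have a4 : C1 * (N : ℝ) ^ (1 - 1 / (2 * m : ℝ)) ≤ C1 * (h : ℝ) ^ n * (N : ℝ) ^ (1 - δ) := by
      rw [← hδ]
      exact mul_le_mul_of_nonneg_right (le_mul_of_one_le_right hC1.le hhn) (by positivity)
    calc _ ≤ C1 * (h : ℝ) ^ n * (N : ℝ) ^ (1 - δ) +
          C3 * 4 * 2 ^ n * C4 * (h : ℝ) ^ n * (N : ℝ) ^ (1 - δ) :=
          add_le_add (a1.trans a4) (a2.trans a3)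
      _ = _ := by ring
  have hp : 0 ≤ (h : ℝ) ^ n * (N : ℝ) ^ (1 - δ) := by positivity
  have hle : (C1 + C3 * 4 * 2 ^ n * C4) * (h : ℝ) ^ n * (N : ℝ) ^ (1 - δ) ≤
      (C1 + C3 * 4 * 2 ^ n * C4 + 2 * 2 ^ n) * (h : ℝ) ^ n * (N : ℝ) ^ (1 - δ) := by
    refine mul_le_mul_of_nonneg_right (mul_le_mul_of_nonneg_right ?_ (by positivity)) (by positivity)
    have : (0 : ℝ) ≤ 2 * 2 ^ n := by positivity
    linarith
  refine ⟨hL1'.trans hle, ?_, ?_⟩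
  · have e1 : ∑ q ∈ range (N + 1), L1 s q * e (-(h * γ * q)) =
        (starRingEnd ℂ) (∑ q ∈ range (N + 1), L1 s q * e (h * γ * q)) := by
      rw [map_sum]
      refine sum_congr rfl fun q _ => ?_
      rw [map_mul, L1_real s hs, e_conj]
    rw [e1, Complex.norm_conj]
    exact hL1'.trans hle
  · have a1 := geom (h * γ) ((N + 1 : ℕ) : ℝ) (N + 1) le_rfl
    have a2 := hn 1 h 0 hh le_rfl (by norm_num)
    have a3 : ni (h * γ + ((0 : ℚ) : ℝ)) = ni (h * γ) := by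
      rw [Rat.cast_zero, add_zero]
    rw [a3] at a2
    have a4 := kb_le_inv (T := ((N + 1 : ℕ) : ℝ)) (Nat.cast_nonneg _) (by positivity) a2
    refine (a1.trans a4).trans ?_
    have a5 : 2 / (1 / (2 * h * (1 : ℕ) : ℝ) ^ n) = 2 * 2 ^ n * (h : ℝ) ^ n := by
      push_cast
      rw [mul_one, mul_pow]
      field_simp
    rw [a5]
    have a6 : 2 * 2 ^ n * (h : ℝ) ^ n ≤ 2 * 2 ^ n * (h : ℝ) ^ n * (N : ℝ) ^ (1 - δ) :=
      le_mul_of_one_le_right (by positivity) hNd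
    refine a6.trans ?_
    refine mul_le_mul_of_nonneg_right (mul_le_mul_of_nonneg_right ?_ (by positivity)) (by positivity)
    have : (0 : ℝ) ≤ C1 + C3 * 4 * 2 ^ n * C4 := by positivity
    linarith

end

end Pool.Agent.J4.H39.CM
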