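import Pool.Agent.J4.H39.CM.Inn

set_option autoImplicit false

/-!
Project CM (helper39): the sum over the squarefree part.
-/

namespace Pool.Agent.J4.H39.CM

open Finset

noncomputable section

/-- `min(1, X²/k⁴)` -/
def om (X : ℝ) (k : ℕ) : ℝ := min 1 (X ^ 2 / (k : ℝ) ^ 4)

lemma om_nonneg (X : ℝ) (k : ℕ) : 0 ≤ om X k := by
  unfold om
  positivity

lemma om_le_one (X : ℝ) (k : ℕ) : om X k ≤ 1 := min_le_left _ _

lemma om_anti (X : ℝ) {k n : ℕ} (hk : 0 < k) (h : k ≤ n) : om X n ≤ om X k := by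
  unfold om
  refine min_le_min le_rfl ?_
  have hkR : (0 : ℝ) < k := by exact_mod_cast hk
  have h2 : (k : ℝ) ≤ n := by exact_mod_cast h
  exact div_le_div_of_nonneg_left (by positivity) (by positivity) (pow_le_pow_left₀ hkR.le h2 4)

/-- `K min(1, X²/K⁴) ≤ √X` -/
lemma om_sqrt {X : ℝ} (hX : 1 ≤ X) {K : ℕ} (hK : 0 < K) : (K : ℝ) * om X K ≤ √X := by
  have hKR : (0 : ℝ) < K := by exact_mod_cast hK
  have hs : 0 < √X := Real.sqrt_pos.2 (by linarith)
  have hss : √X * √X = X := Real.mul_self_sqrt (by linarith)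
  rcases le_or_gt (K : ℝ) (√X) with h | h
  · calc (K : ℝ) * om X K ≤ K * 1 := mul_le_mul_of_nonneg_left (om_le_one X K) hKR.le
      _ ≤ √X := by rw [mul_one]; exact h
  · calc (K : ℝ) * om X K ≤ K * (X ^ 2 / (K : ℝ) ^ 4) :=
          mul_le_mul_of_nonneg_left (min_le_right _ _) hKR.le
      _ = X ^ 2 / (K : ℝ) ^ 3 := by field_simp
      _ ≤ √X := by
          rw [div_le_iff₀ (by positivity)]
          have h1 : √X ^ 3 ≤ (K : ℝ) ^ 3 := pow_le_pow_left₀ hs.le h.le 3
          calc X ^ 2 = √X * √X ^ 3 := by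
                have : X ^ 2 = (√X * √X) ^ 2 := by rw [hss]
                rw [this]
                ring
            _ ≤ √X * (K : ℝ) ^ 3 := mul_le_mul_of_nonneg_left h1 hs.le

/-- `min(1, X²/n⁴) ≤ X^{1/4} n^{-1/2}` -/
lemma om_quarter {X : ℝ} (hX : 1 ≤ X) {n : ℕ} (hn : 0 < n) : om X n ≤ √(√X) / √n := by
  have hnR : (0 : ℝ) < n := by exact_mod_cast hn
  have hs : 0 < √X := Real.sqrt_pos.2 (by linarith)
  have hss : √X * √X = X := Real.mul_self_sqrt (by linarith)
  rw [← Real.sqrt_div hs.le]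
  rcases le_or_gt (n : ℝ) (√X) with h | h
  · refine (om_le_one X n).trans ?_
    rw [Real.le_sqrt (by norm_num) (by positivity), one_pow, le_div_iff₀ hnR]
    linarith
  · set y := √X / n with hy
    have hy0 : 0 < y := by positivity
    have hy1 : y ≤ 1 := by
      rw [hy, div_le_one hnR]
      exact h.le
    have h1 : X ^ 2 / (n : ℝ) ^ 4 = y ^ 4 := by
      rw [hy, div_pow]
      congr 1
      have : X ^ 2 = (√X * √X) ^ 2 := by rw [hss]
      rw [this]
      ring
    refine (min_le_right _ _).trans ?_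
    rw [h1]
    have h2 : y ≤ √y := by
      rw [Real.le_sqrt hy0.le hy0.le]
      nlinarith
    have h3 : y ^ 4 ≤ y := by
      have := pow_le_of_le_one hy0.le hy1 (n := 4) (by norm_num)
      exact this
    linarith

lemma logN_le {X : ℝ} {N : ℕ} (hN : 1 ≤ N) (hNX : (N : ℝ) ≤ X) :
    (((Nat.log 2 N + 1 : ℕ)) : ℝ) ≤ 2 * (1 + Real.log X) := by
  have hNR : (1 : ℝ) ≤ N := by exact_mod_cast hN
  have hX : 1 ≤ X := hNR.trans hNX
  have h1 : (2 : ℝ) ^ (Nat.log 2 N) ≤ N := by
    exact_mod_cast Nat.pow_log_le_self 2 (by omega)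
  have h2 : (Nat.log 2 N : ℝ) * Real.log 2 ≤ Real.log X := by
    rw [← Real.log_pow]
    exact Real.log_le_log (by positivity) (h1.trans hNX)
  have h3 : (1 : ℝ) / 2 ≤ Real.log 2 := by
    have := Real.log_two_gt_d9
    linarith
  have h4 : (0 : ℝ) ≤ (Nat.log 2 N : ℝ) := Nat.cast_nonneg _
  push_cast
  nlinarith

theorem KS1 {X : ℝ} (Y N : ℕ) (hY : 1 ≤ Y) (hN : 1 ≤ N) (hNX : (N : ℝ) ≤ X) (T β : ℝ) (hT : 0 ≤ T) :
    ∑ k ∈ (Icc 1 N).filter (fun k => Y < 2 * k), Af T β k / k * om X k ≤
      2 * (1 + Real.log X) * (16 * T / Y + 128 * √X * (1 + Real.log X)) := by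
  have hNR : (1 : ℝ) ≤ N := by exact_mod_cast hN
  have hX : 1 ≤ X := hNR.trans hNX
  have hYR : (1 : ℝ) ≤ Y := by exact_mod_cast hY
  have hlX : 0 ≤ Real.log X := Real.log_nonneg hX
  set S := (Icc 1 N).filter (fun k => Y < 2 * k) with hS
  have hterm : ∀ k, 0 ≤ Af T β k / k * om X k := fun k =>
    mul_nonneg (div_nonneg (Af_nonneg hT _ _) (Nat.cast_nonneg _)) (om_nonneg _ _)
  have h1 : ∑ k ∈ S, Af T β k / k * om X k =
      ∑ l ∈ range (Nat.log 2 N + 1), ∑ k ∈ S.filter (fun k => Nat.log 2 k = l),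
        Af T β k / k * om X k := by
    rw [sum_fiberwise_of_maps_to]
    intro k hk
    rw [hS, mem_filter, mem_Icc] at hk
    rw [mem_range]
    have := Nat.log_mono_right (b := 2) hk.1.2
    omega
  rw [h1]
  have h2 : ∀ l ∈ range (Nat.log 2 N + 1), ∑ k ∈ S.filter (fun k => Nat.log 2 k = l),
      Af T β k / k * om X k ≤ 16 * T / Y + 128 * √X * (1 + Real.log X) := by
    intro l _
    rcases (S.filter (fun k => Nat.log 2 k = l)).eq_empty_or_nonempty with he | ⟨k0, hk0⟩
    · rw [he, sum_empty]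
      positivity
    · rw [mem_filter, hS, mem_filter, mem_Icc] at hk0
      obtain ⟨⟨⟨a1, a2⟩, a3⟩, a4⟩ := hk0
      set K := 2 ^ l with hK
      have hKpos : 0 < K := by positivity
      have b1 : K ≤ k0 := by
        rw [hK, ← a4]
        exact Nat.pow_log_le_self 2 (by omega)
      have b2 : k0 < 2 * K := by
        rw [hK, ← a4]
        have := Nat.lt_pow_succ_log_self (b := 2) (by norm_num) k0
        rw [pow_succ] at this
        omega
      have b3 : Y < 4 * K := by omega
      have hKR : (0 : ℝ) < K := by exact_mod_cast hKpos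
      have b3R : (Y : ℝ) < 4 * K := by exact_mod_cast b3
      have b4 : (K : ℝ) ≤ X := by
        have : (K : ℝ) ≤ N := by exact_mod_cast b1.trans a2
        exact this.trans hNX
      have c1 : ∑ k ∈ S.filter (fun k => Nat.log 2 k = l), Af T β k / k * om X k ≤
          ∑ k ∈ Icc 1 (2 * K), Af T β k * (1 / K * om X K) := by
        calc ∑ k ∈ S.filter (fun k => Nat.log 2 k = l), Af T β k / k * om X k
            ≤ ∑ k ∈ S.filter (fun k => Nat.log 2 k = l), Af T β k * (1 / K * om X K) := by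
              refine sum_le_sum fun k hk => ?_
              rw [mem_filter, hS, mem_filter, mem_Icc] at hk
              obtain ⟨⟨⟨d1, d2⟩, d3⟩, d4⟩ := hk
              have d5 : K ≤ k := by
                rw [hK, ← d4]
                exact Nat.pow_log_le_self 2 (by omega)
              have d6 : (K : ℝ) ≤ k := by exact_mod_cast d5
              rw [div_mul_eq_mul_div, mul_div_assoc]
              refine mul_le_mul_of_nonneg_left ?_ (Af_nonneg hT _ _)
              rw [div_eq_mul_one_div, mul_comm]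
              exact mul_le_mul (one_div_le_one_div_of_le hKR d6) (om_anti X hKpos d5)
                (om_nonneg _ _) (by positivity)
          _ ≤ _ := by
              refine sum_le_sum_of_subset_of_nonneg (fun k hk => ?_) fun k _ _ => ?_
              · rw [mem_filter, hS, mem_filter, mem_Icc] at hk
                obtain ⟨⟨⟨d1, d2⟩, d3⟩, d4⟩ := hk
                rw [mem_Icc]
                refine ⟨d1, ?_⟩
                have := Nat.lt_pow_succ_log_self (b := 2) (by norm_num) k
                rw [d4, pow_succ] at this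
                omega
              · exact mul_nonneg (Af_nonneg hT _ _) (mul_nonneg (by positivity) (om_nonneg _ _))
      refine c1.trans ?_
      rw [← sum_mul]
      have c2 := Af_sum (2 * K) (by omega) T β (2 * T) hT (by linarith)
        (fun _ _ _ _ _ _ => kb_le hT _)
      have c3 : 0 ≤ 1 / (K : ℝ) * om X K := mul_nonneg (by positivity) (om_nonneg _ _)
      refine (mul_le_mul_of_nonneg_right c2 c3).trans ?_
      have c4 := om_sqrt hX hKpos
      have c5 := om_le_one X K
      have c6 : 1 + Real.log ((2 * K : ℕ) : ℝ) ≤ 2 * (1 + Real.log X) := by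
        push_cast
        rw [Real.log_mul (by norm_num) hKR.ne']
        have e1 : Real.log K ≤ Real.log X := Real.log_le_log hKR b4
        have e2 : Real.log 2 ≤ 1 := by
          have := Real.log_two_lt_d9
          linarith
        linarith
      have c7 : 0 ≤ 1 + Real.log ((2 * K : ℕ) : ℝ) := by
        have : (1 : ℝ) ≤ ((2 * K : ℕ) : ℝ) := by
          exact_mod_cast (by omega : 1 ≤ 2 * K)
        have := Real.log_nonneg this
        linarith
      calc (2 * (2 * T) + 16 * ((2 * K : ℕ) : ℝ) ^ 2 * (1 + Real.log ((2 * K : ℕ) : ℝ))) *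
            (1 / K * om X K)
          = 4 * T / K * om X K + 64 * (K * om X K) * (1 + Real.log ((2 * K : ℕ) : ℝ)) := by
            push_cast
            field_simp
            ring
        _ ≤ 4 * T / K * 1 + 64 * √X * (2 * (1 + Real.log X)) := by
            refine add_le_add (mul_le_mul_of_nonneg_left c5 (by positivity)) ?_
            refine mul_le_mul ?_ c6 c7 (by positivity)
            exact mul_le_mul_of_nonneg_left c4 (by norm_num)
        _ ≤ 16 * T / Y + 128 * √X * (1 + Real.log X) := by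
            have d1 : 4 * T / (K : ℝ) ≤ 16 * T / Y := by
              rw [div_le_div_iff₀ hKR (by linarith)]
              nlinarith
            linarith
  calc _ ≤ ∑ l ∈ range (Nat.log 2 N + 1), (16 * T / Y + 128 * √X * (1 + Real.log X)) :=
        sum_le_sum h2
    _ = ((Nat.log 2 N + 1 : ℕ) : ℝ) * (16 * T / Y + 128 * √X * (1 + Real.log X)) := by
        rw [sum_const, card_range, nsmul_eq_mul]
    _ ≤ _ := mul_le_mul_of_nonneg_right (logN_le hN hNX) (by positivity)

theorem KS {X : ℝ} (Y N : ℕ) (hY : 1 ≤ Y) (hN : 1 ≤ N) (hNX : (N : ℝ) ≤ X) (T x : ℝ) (hT : 0 ≤ T) :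
    ∑ k ∈ (Icc 1 N).filter (fun k => Y < 2 * k), om X k / √k * Bb T x k ≤
      4096 * (1 + Real.log X) ^ 2 * (T / Y + √X) := by
  have hNR : (1 : ℝ) ≤ N := by exact_mod_cast hN
  have hX : 1 ≤ X := hNR.trans hNX
  have hYR : (1 : ℝ) ≤ Y := by exact_mod_cast hY
  have hlX : 0 ≤ Real.log X := Real.log_nonneg hX
  have h1 : ∀ k ∈ (Icc 1 N).filter (fun k => Y < 2 * k), om X k / √k * Bb T x k =
      ∑ h ∈ range 8, (Af T (x + h / 8) k / k * om X k + Af T (-(x + h / 8)) k / k * om X k) := by
    intro k hk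
    rw [mem_filter, mem_Icc] at hk
    have hk0 : (0 : ℝ) < k := by exact_mod_cast hk.1.1
    have hs : (0 : ℝ) < √k := Real.sqrt_pos.2 hk0
    have hss : √(k : ℝ) * √k = k := Real.mul_self_sqrt hk0.le
    unfold Bb
    rw [mul_sum]
    refine sum_congr rfl fun h _ => ?_
    have : ∀ a : ℝ, om X k / √k * (a / √k) = a / k * om X k := by
      intro a
      rw [div_mul_div_comm, hss]
      ring
    rw [this]
    ring
  rw [sum_congr rfl h1, sum_comm]
  have h2 : ∀ h ∈ range 8, ∑ k ∈ (Icc 1 N).filter (fun k => Y < 2 * k),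
      (Af T (x + h / 8) k / k * om X k + Af T (-(x + h / 8)) k / k * om X k) ≤
      2 * (2 * (1 + Real.log X) * (16 * T / Y + 128 * √X * (1 + Real.log X))) := by
    intro h _
    rw [sum_add_distrib]
    have := KS1 Y N hY hN hNX T (x + h / 8) hT
    have := KS1 Y N hY hN hNX T (-(x + h / 8)) hT
    linarith
  refine (sum_le_sum h2).trans ?_
  rw [sum_const, card_range, nsmul_eq_mul]
  set L := 1 + Real.log X with hL
  have hL1 : 1 ≤ L := by linarith
  have hTY : 0 ≤ T / Y := by positivity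
  have e1 : 16 * T / (Y : ℝ) = 16 * (T / Y) := by ring
  rw [e1]
  have e2 : (16 * (T / Y) + 128 * √X * L) ≤ 128 * L * (T / Y + √X) := by
    have : 16 * (T / Y) ≤ 128 * L * (T / Y) := by nlinarith
    nlinarith [Real.sqrt_nonneg X]
  calc ((8 : ℕ) : ℝ) * (2 * (2 * L * (16 * (T / Y) + 128 * √X * L)))
      = 32 * L * (16 * (T / Y) + 128 * √X * L) := by push_cast; ring
    _ ≤ 32 * L * (128 * L * (T / Y + √X)) := mul_le_mul_of_nonneg_left e2 (by positivity)
    _ = 4096 * L ^ 2 * (T / Y + √X) := by ring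

end

end Pool.Agent.J4.H39.CM
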