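import Pool.Agent.J4.H39.CM.Def2

set_option autoImplicit false

/-!
Project CM (helper39), piece LAM (helper16): asymptotics of the sums of the weight function over
`n = 2^j m²`, `m` odd.
-/

namespace Pool.Agent.J4.H39.CM

open Complex Finset MeasureTheory
open Pool.Agent.N879.QM

noncomputable section

/-! ### Odd harmonic sums -/

/-- sums over odd numbers -/
def ho (N : ℕ) : ℝ := ∑ m ∈ range N, if Odd m then 1 / (m : ℝ) else 0

theorem ho_two (K : ℕ) : ho (2 * K) = (harmonic (2 * K) : ℝ) - 1 / 2 * (harmonic K : ℝ) := by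
  induction K with
  | zero => simp [ho]
  | succ K ih =>
    have e1 : 2 * (K + 1) = 2 * K + 1 + 1 := by ring
    have h1 : ho (2 * K + 1 + 1) = ho (2 * K) + 1 / ((2 * K + 1 : ℕ) : ℝ) := by
      unfold ho
      rw [sum_range_succ, sum_range_succ, if_neg (by simp), if_pos (by simp), add_zero]
    rw [e1, h1, ih, harmonic_succ, harmonic_succ, harmonic_succ]
    push_cast
    have hK : (0 : ℝ) ≤ K := Nat.cast_nonneg K
    have h2 : (2 * (K : ℝ) + 1) ≠ 0 := by positivity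
    have h3 : (K : ℝ) + 1 ≠ 0 := by positivity
    have h4 : (2 * (K : ℝ) + 1 + 1) ≠ 0 := by positivity
    field_simp
    ring

theorem ho_odd (K : ℕ) : ho (2 * K + 1) = ho (2 * K) := by
  unfold ho
  rw [sum_range_succ, if_neg (by simp), add_zero]

theorem harm_as {n : ℕ} (hn : 1 ≤ n) :
    |(harmonic n : ℝ) - Real.log n - Real.eulerMascheroniConstant| ≤ 1 / n := by
  have h1 := Real.eulerMascheroniSeq_lt_eulerMascheroniConstant n
  have h2 := Real.eulerMascheroniConstant_lt_eulerMascheroniSeq' n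
  unfold Real.eulerMascheroniSeq at h1
  unfold Real.eulerMascheroniSeq' at h2
  rw [if_neg (by omega)] at h2
  have hn0 : (0 : ℝ) < n := by exact_mod_cast hn
  have h3 : Real.log (n + 1) ≤ Real.log n + 1 / n := by
    have : Real.log ((n : ℝ) + 1) - Real.log n = Real.log (1 + 1 / n) := by
      rw [← Real.log_div (by positivity) hn0.ne']
      congr 1
      field_simp
    have h4 := Real.log_le_sub_one_of_pos (show (0 : ℝ) < 1 + 1 / n by positivity)
    linarith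
  rw [abs_le]
  constructor <;> linarith

def hc : ℝ := (Real.log 2 + Real.eulerMascheroniConstant) / 2

theorem ho_as : ∃ C : ℝ, 0 < C ∧ ∀ N : ℕ, 1 ≤ N → |ho N - (1 / 2 * Real.log N + hc)| ≤ C / N := by
  refine ⟨|hc| + 6, by positivity, fun N hN => ?_⟩
  obtain ⟨K, hK⟩ : ∃ K, K = N / 2 := ⟨_, rfl⟩
  rcases Nat.eq_zero_or_pos K with h0 | h0
  · have hN1 : N = 1 := by omega
    subst hN1
    have : ho 1 = 0 := by simp [ho]
    rw [this]
    simp
  · have hN0 : (0 : ℝ) < N := by exact_mod_cast hN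
    have hK0 : (0 : ℝ) < K := by exact_mod_cast h0
    have hNK : (N : ℝ) ≤ 3 * K := by
      have : N ≤ 3 * K := by omega
      exact_mod_cast this
    have hho : ho N = ho (2 * K) := by
      rcases Nat.even_or_odd' N with ⟨k, hk | hk⟩
      · congr 1; omega
      · have : k = K := by omega
        rw [hk, this, ho_odd]
    have h1 := harm_as (n := K) h0
    have h2 := harm_as (n := 2 * K) (by omega)
    have hl : Real.log ((2 * K : ℕ) : ℝ) = Real.log 2 + Real.log K := by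
      push_cast
      exact Real.log_mul (by norm_num) hK0.ne'
    have h3 : |Real.log N - Real.log ((2 * K : ℕ) : ℝ)| ≤ 1 / (2 * K : ℕ) := by
      have hle : (2 * K : ℕ) ≤ N := by omega
      have hlt : N ≤ 2 * K + 1 := by omega
      have hc2 : (0 : ℝ) < ((2 * K : ℕ) : ℝ) := by push_cast; positivity
      have hle' : ((2 * K : ℕ) : ℝ) ≤ N := by exact_mod_cast hle
      have hlt' : (N : ℝ) ≤ ((2 * K : ℕ) : ℝ) + 1 := by exact_mod_cast hlt
      rw [abs_of_nonneg (sub_nonneg.2 (Real.log_le_log hc2 hle')), ← Real.log_div hN0.ne' hc2.ne']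
      have h4 := Real.log_le_sub_one_of_pos (show (0 : ℝ) < N / ((2 * K : ℕ) : ℝ) by positivity)
      refine h4.trans ?_
      rw [div_sub_one hc2.ne']
      exact div_le_div_of_nonneg_right (by linarith) hc2.le
    rw [hho, ho_two]
    have h5 : (1 : ℝ) / (2 * K : ℕ) ≤ 1 / K := by
      apply one_div_le_one_div_of_le hK0
      push_cast
      linarith
    have h6 : (1 : ℝ) / K ≤ 3 / N := by
      rw [div_le_div_iff₀ hK0 hN0]
      linarith
    have h7 : (harmonic (2 * K) : ℝ) - 1 / 2 * (harmonic K : ℝ) - (1 / 2 * Real.log N + hc) =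
        ((harmonic (2 * K) : ℝ) - Real.log ((2 * K : ℕ) : ℝ) - Real.eulerMascheroniConstant) -
        1 / 2 * ((harmonic K : ℝ) - Real.log K - Real.eulerMascheroniConstant) -
        1 / 2 * (Real.log N - Real.log ((2 * K : ℕ) : ℝ)) := by
      rw [hl]
      unfold hc
      ring
    rw [h7]
    have h8 : |((harmonic (2 * K) : ℝ) - Real.log ((2 * K : ℕ) : ℝ) - Real.eulerMascheroniConstant) -
        1 / 2 * ((harmonic K : ℝ) - Real.log K - Real.eulerMascheroniConstant) -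
        1 / 2 * (Real.log N - Real.log ((2 * K : ℕ) : ℝ))| ≤ 1 / K + 1 / 2 * (1 / K) + 1 / 2 * (1 / K) := by
      refine (abs_sub _ _).trans (add_le_add ((abs_sub _ _).trans (add_le_add (h2.trans h5) ?_)) ?_)
      · rw [abs_mul, abs_of_pos (by norm_num : (0 : ℝ) < 1 / 2)]
        linarith
      · rw [abs_mul, abs_of_pos (by norm_num : (0 : ℝ) < 1 / 2)]
        linarith
    have h9 : 1 / (K : ℝ) + 1 / 2 * (1 / K) + 1 / 2 * (1 / K) ≤ 6 / N := by
      have : (6 : ℝ) / N = 2 * (3 / N) := by ring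
      rw [this]
      linarith
    refine h8.trans (h9.trans (div_le_div_of_nonneg_right ?_ hN0.le))
    linarith [abs_nonneg hc]

theorem ho_ceil : ∃ C : ℝ, 0 < C ∧ ∀ x : ℝ, 0 < x →
    |ho ⌈x⌉₊ - (1 / 2 * Real.log x + hc)| ≤ C * x ^ (-(1 / 2 : ℝ)) := by
  obtain ⟨C, hC, H⟩ := ho_as
  refine ⟨C + |hc| + 2, by positivity, fun x hx => ?_⟩
  have hp : 0 < x ^ (-(1 / 2 : ℝ)) := Real.rpow_pos_of_pos hx _
  rcases le_total x 1 with h1 | h1
  · have hc1 : ⌈x⌉₊ = 1 := by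
      rw [Nat.ceil_eq_iff (by norm_num)]
      simpa using ⟨hx, h1⟩
    have : ho 1 = 0 := by simp [ho]
    rw [hc1, this, zero_sub, abs_neg]
    have h2 := Real.abs_log_mul_self_rpow_lt x (1 / 2) hx h1 (by norm_num)
    rw [abs_mul, abs_of_pos (Real.rpow_pos_of_pos hx (1 / 2))] at h2
    have h3 : |Real.log x| ≤ 2 * x ^ (-(1 / 2 : ℝ)) := by
      rw [Real.rpow_neg hx.le, ← div_eq_mul_inv, le_div_iff₀ (Real.rpow_pos_of_pos hx _)]
      have : (1 : ℝ) / (1 / 2) = 2 := by norm_num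
      linarith
    have h4 : 1 ≤ x ^ (-(1 / 2 : ℝ)) := Real.one_le_rpow_of_pos_of_le_one_of_nonpos hx h1 (by norm_num)
    have h5 : |1 / 2 * Real.log x + hc| ≤ 1 / 2 * |Real.log x| + |hc| := by
      refine (abs_add_le _ _).trans ?_
      rw [abs_mul, abs_of_pos (by norm_num : (0 : ℝ) < 1 / 2)]
    have h6 : |hc| ≤ |hc| * x ^ (-(1 / 2 : ℝ)) := le_mul_of_one_le_right (abs_nonneg _) h4
    have h7 : 0 ≤ C * x ^ (-(1 / 2 : ℝ)) := by positivity
    nlinarith
  · have hN1 : 1 ≤ ⌈x⌉₊ := Nat.one_le_ceil_iff.2 hx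
    have hN0 : (0 : ℝ) < (⌈x⌉₊ : ℝ) := by exact_mod_cast hN1
    have hle : x ≤ (⌈x⌉₊ : ℝ) := Nat.le_ceil x
    have hlt : (⌈x⌉₊ : ℝ) < x + 1 := Nat.ceil_lt_add_one hx.le
    have h2 := H _ hN1
    have h3 : |Real.log (⌈x⌉₊ : ℝ) - Real.log x| ≤ 1 / x := by
      rw [abs_of_nonneg (sub_nonneg.2 (Real.log_le_log hx hle)), ← Real.log_div hN0.ne' hx.ne']
      have h4 := Real.log_le_sub_one_of_pos (show (0 : ℝ) < (⌈x⌉₊ : ℝ) / x by positivity)
      refine h4.trans ?_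
      rw [div_sub_one hx.ne']
      exact div_le_div_of_nonneg_right (by linarith) hx.le
    have h4 : C / (⌈x⌉₊ : ℝ) ≤ C / x := div_le_div_of_nonneg_left hC.le hx hle
    have h5 : 1 / x ≤ x ^ (-(1 / 2 : ℝ)) := by
      rw [one_div, ← Real.rpow_neg_one]
      exact Real.rpow_le_rpow_of_exponent_le h1 (by norm_num)
    have h6 : ho ⌈x⌉₊ - (1 / 2 * Real.log x + hc) = (ho ⌈x⌉₊ - (1 / 2 * Real.log (⌈x⌉₊ : ℝ) + hc)) +
        1 / 2 * (Real.log (⌈x⌉₊ : ℝ) - Real.log x) := by ring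
    rw [h6]
    have h7 : |(ho ⌈x⌉₊ - (1 / 2 * Real.log (⌈x⌉₊ : ℝ) + hc)) +
        1 / 2 * (Real.log (⌈x⌉₊ : ℝ) - Real.log x)| ≤ C / x + 1 / 2 * (1 / x) := by
      refine (abs_add_le _ _).trans (add_le_add (h2.trans h4) ?_)
      rw [abs_mul, abs_of_pos (by norm_num : (0 : ℝ) < 1 / 2)]
      linarith
    have h8 : C / x = C * (1 / x) := by ring
    have h9 : 0 ≤ |hc| * x ^ (-(1 / 2 : ℝ)) := by positivity
    have h10 : C * (1 / x) ≤ C * x ^ (-(1 / 2 : ℝ)) := mul_le_mul_of_nonneg_left h5 hC.le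
    nlinarith

theorem ho_four : ∃ C : ℝ, 0 < C ∧ ∀ y : ℝ, 0 < y →
    |ho ⌈y ^ (1 / 4 : ℝ)⌉₊ - (1 / 8 * Real.log y + hc)| ≤ C * y ^ (-(1 / 8 : ℝ)) := by
  obtain ⟨C, hC, H⟩ := ho_ceil
  refine ⟨C, hC, fun y hy => ?_⟩
  have h := H (y ^ (1 / 4 : ℝ)) (Real.rpow_pos_of_pos hy _)
  rw [Real.log_rpow hy, ← Real.rpow_mul hy.le] at h
  rw [show (1 / 8 : ℝ) * Real.log y = 1 / 2 * (1 / 4 * Real.log y) by ring]
  rw [show (-(1 / 8 : ℝ)) = (1 / 4 : ℝ) * (-(1 / 2 : ℝ)) by ring]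
  exact h

/-! ### The sum over odd `m` -/

/-- the terms of the sum over odd `m` -/
def St (s : ℤ) (z : ℝ) (m : ℕ) : ℝ := if Odd m then V s ((m : ℝ) ^ 4 / z) / (m : ℝ) else 0

/-- the sum over odd `m` -/
def Ssum (s : ℤ) (z : ℝ) : ℝ := ∑' m : ℕ, St s z m

/-- the density -/
def pw (s : ℤ) (v : ℝ) : ℝ := wf (ex s) v / Wi s 0

theorem Wi0_pos (s : ℤ) : 0 < Wi s 0 := by
  rw [Wi_eq]
  exact wi_pos (ex_gt s)

theorem pw_nonneg (s : ℤ) {v : ℝ} (hv : 0 ≤ v) : 0 ≤ pw s v := div_nonneg (wf_nonneg _ hv) (Wi0_pos s).le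

theorem pw_int (s : ℤ) : IntegrableOn (pw s) (Set.Ioi 0) := (wf_int (ex_gt s)).div_const _

theorem V_int (s : ℤ) (z : ℝ) : V s z = ∫ u in Set.Ioi z, pw s u := by
  unfold V pw
  rw [Wi_eq s z]
  exact (integral_div _ _).symm

theorem pw_one (s : ℤ) : ∫ u in Set.Ioi (0 : ℝ), pw s u = 1 := by
  rw [← V_int]
  exact (V_facts s).1

theorem St_nonneg (s : ℤ) {z : ℝ} (hz : 0 < z) (m : ℕ) : 0 ≤ St s z m := by
  unfold St
  split_ifs
  · exact div_nonneg ((V_facts s).2.1 _ (by positivity)).1 (Nat.cast_nonneg m)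
  · exact le_rfl

theorem St_le (s : ℤ) : ∃ C : ℝ, 0 < C ∧ ∀ z : ℝ, 0 < z → ∀ m : ℕ,
    St s z m ≤ C * z ^ 2 * (1 / (m : ℝ) ^ 2) := by
  obtain ⟨_, _, _, C, hC, H⟩ := V_facts s
  refine ⟨C, hC, fun z hz m => ?_⟩
  unfold St
  split_ifs with hm
  · have hm0 : 0 < m := hm.pos
    have hm1 : (1 : ℝ) ≤ m := by exact_mod_cast hm0
    have h := H ((m : ℝ) ^ 4 / z) (by positivity)
    have h1 : C / ((m : ℝ) ^ 4 / z) ^ 2 / m ≤ C * z ^ 2 * (1 / (m : ℝ) ^ 2) := by
      have e1 : C / ((m : ℝ) ^ 4 / z) ^ 2 / m = C * z ^ 2 * (1 / (m : ℝ) ^ 9) := by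
        field_simp
      rw [e1]
      refine mul_le_mul_of_nonneg_left ?_ (by positivity)
      exact one_div_le_one_div_of_le (by positivity) (pow_le_pow_right₀ hm1 (by norm_num))
    exact (div_le_div_of_nonneg_right h (by positivity)).trans h1
  · positivity

theorem St_summable (s : ℤ) {z : ℝ} (hz : 0 < z) : Summable (St s z) := by
  obtain ⟨C, hC, H⟩ := St_le s
  refine Summable.of_nonneg_of_le (St_nonneg s hz) (H z hz) ?_
  exact (Real.summable_one_div_nat_pow.2 (by norm_num)).mul_left _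

theorem St_mono (s : ℤ) {z w : ℝ} (hz : 0 < z) (hzw : z ≤ w) (m : ℕ) : St s z m ≤ St s w m := by
  unfold St
  split_ifs with hm
  · have hw : 0 < w := hz.trans_le hzw
    refine div_le_div_of_nonneg_right ((V_facts s).2.2.1 ?_ ?_ ?_) (Nat.cast_nonneg m)
    · exact div_nonneg (by positivity) hw.le
    · exact div_nonneg (by positivity) hz.le
    · exact div_le_div_of_nonneg_left (by positivity) hz hzw
  · exact le_rfl

theorem Ssum_nonneg (s : ℤ) {z : ℝ} (hz : 0 < z) : 0 ≤ Ssum s z := tsum_nonneg (St_nonneg s hz)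

theorem Ssum_mono (s : ℤ) {z w : ℝ} (hz : 0 < z) (hzw : z ≤ w) : Ssum s z ≤ Ssum s w :=
  (St_summable s hz).tsum_le_tsum (St_mono s hz hzw) (St_summable s (hz.trans_le hzw))

theorem Ssum_int (s : ℤ) {z : ℝ} (hz : 0 < z) :
    Ssum s z = ∫ v in Set.Ioi (0 : ℝ), pw s v * ho ⌈(z * v) ^ (1 / 4 : ℝ)⌉₊ := by
  set F : ℕ → ℝ → ℝ := fun m v => (if Odd m then 1 / (m : ℝ) else 0) *
    (Set.Ioi ((m : ℝ) ^ 4 / z)).indicator (pw s) v with hF
  have hco : ∀ m : ℕ, 0 ≤ (if Odd m then 1 / (m : ℝ) else 0) := fun m => by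
    split_ifs <;> positivity
  have hFint : ∀ m, Integrable (F m) (volume.restrict (Set.Ioi (0 : ℝ))) := fun m =>
    ((pw_int s).indicator measurableSet_Ioi).const_mul _
  have hval : ∀ m, ∫ v in Set.Ioi (0 : ℝ), F m v = St s z m := fun m => by
    simp only [hF]
    rw [integral_const_mul, setIntegral_indicator measurableSet_Ioi, Set.Ioi_inter_Ioi,
      sup_eq_right.2 (by positivity), ← V_int]
    unfold St
    split_ifs <;> ring
  have hnorm : ∀ m, ∫ v in Set.Ioi (0 : ℝ), ‖F m v‖ = St s z m := fun m => by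
    rw [← hval m]
    refine setIntegral_congr_fun measurableSet_Ioi fun v hv => ?_
    have hv0 : (0 : ℝ) < v := hv
    refine Real.norm_of_nonneg (mul_nonneg (hco m) ?_)
    by_cases h : v ∈ Set.Ioi ((m : ℝ) ^ 4 / z)
    · rw [Set.indicator_of_mem h]
      exact pw_nonneg s hv0.le
    · rw [Set.indicator_of_notMem h]
  have hs := hasSum_integral_of_summable_integral_norm hFint (by
    simp only [hnorm]
    exact St_summable s hz)
  have h1 : Ssum s z = ∫ v in Set.Ioi (0 : ℝ), ∑' m, F m v := by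
    rw [← hs.tsum_eq]
    exact tsum_congr fun m => (hval m).symm
  rw [h1]
  refine setIntegral_congr_fun measurableSet_Ioi fun v hv => ?_
  have hv0 : (0 : ℝ) < v := hv
  have hzv : 0 < z * v := mul_pos hz hv0
  have key : ∀ m : ℕ, ((m : ℝ) ^ 4 / z < v ↔ m < ⌈(z * v) ^ (1 / 4 : ℝ)⌉₊) := fun m => by
    rw [Nat.lt_ceil, div_lt_iff₀ hz, mul_comm v z]
    rw [show (1 / 4 : ℝ) = (4 : ℝ)⁻¹ by norm_num,
      Real.lt_rpow_inv_iff_of_pos (Nat.cast_nonneg m) hzv.le (by norm_num),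
      show ((m : ℝ) ^ (4 : ℝ)) = (m : ℝ) ^ 4 by exact_mod_cast Real.rpow_natCast (m : ℝ) 4]
  show ∑' m, F m v = _
  rw [tsum_eq_sum (s := range ⌈(z * v) ^ (1 / 4 : ℝ)⌉₊)]
  · unfold ho
    rw [mul_sum]
    refine sum_congr rfl fun m hm => ?_
    have hm' := (key m).2 (mem_range.1 hm)
    simp only [hF]
    rw [Set.indicator_of_mem (show v ∈ Set.Ioi ((m : ℝ) ^ 4 / z) from hm'), mul_comm]
  · intro m hm
    have hm' : ¬ ((m : ℝ) ^ 4 / z < v) := fun h => hm (mem_range.2 ((key m).1 h))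
    simp only [hF]
    rw [Set.indicator_of_notMem (show v ∉ Set.Ioi ((m : ℝ) ^ 4 / z) from hm'), mul_zero]

theorem wf_shift (k a : ℝ) {v : ℝ} (hv : 0 < v) : wf k v * v ^ a = wf (k + a) v := by
  unfold wf
  rw [mul_assoc, ← Real.rpow_add hv]

theorem ex_gt' (s : ℤ) : -1 < ex s + -(1 / 8 : ℝ) := by
  unfold ex
  split_ifs <;> norm_num

theorem log_bd {v : ℝ} (hv : 0 < v) : |Real.log v| ≤ 8 * v ^ (-(1 / 8 : ℝ)) + v ^ (1 : ℝ) := by
  have hp : 0 < v ^ (1 / 8 : ℝ) := Real.rpow_pos_of_pos hv _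
  have hn : 0 < v ^ (-(1 / 8 : ℝ)) := Real.rpow_pos_of_pos hv _
  rcases le_total v 1 with h1 | h1
  · have h2 := Real.abs_log_mul_self_rpow_lt v (1 / 8) hv h1 (by norm_num)
    rw [abs_mul, abs_of_pos hp] at h2
    have h3 : |Real.log v| ≤ 8 * v ^ (-(1 / 8 : ℝ)) := by
      rw [Real.rpow_neg hv.le, ← div_eq_mul_inv, le_div_iff₀ hp]
      have : (1 : ℝ) / (1 / 8) = 8 := by norm_num
      linarith
    rw [Real.rpow_one]
    linarith
  · rw [Real.rpow_one, abs_of_nonneg (Real.log_nonneg h1)]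
    have := Real.log_le_sub_one_of_pos hv
    linarith

theorem pw_log_int (s : ℤ) : IntegrableOn (fun v => pw s v * Real.log v) (Set.Ioi 0) := by
  have hg : IntegrableOn (fun v => 8 * (wf (ex s + -(1 / 8 : ℝ)) v / Wi s 0) +
      wf (ex s + 1) v / Wi s 0) (Set.Ioi 0) :=
    (((wf_int (ex_gt' s)).div_const _).const_mul _).add
      ((wf_int (by have := ex_gt s; linarith)).div_const _)
  refine Integrable.mono' hg ?_ ?_
  · exact ((pw_int s).aestronglyMeasurable).mul Real.measurable_log.aestronglyMeasurable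
  · refine (ae_restrict_iff' measurableSet_Ioi).2 (Filter.Eventually.of_forall fun v hv => ?_)
    have hv0 : (0 : ℝ) < v := hv
    rw [norm_mul, Real.norm_of_nonneg (pw_nonneg s hv0.le), Real.norm_eq_abs]
    refine (mul_le_mul_of_nonneg_left (log_bd hv0) (pw_nonneg s hv0.le)).trans (le_of_eq ?_)
    rw [← wf_shift _ _ hv0, ← wf_shift _ _ hv0]
    unfold pw
    ring

theorem Ssum_as (s : ℤ) : ∃ c C : ℝ, 0 < C ∧ ∀ z : ℝ, 0 < z →
    |Ssum s z - (1 / 8 * Real.log z + c)| ≤ C * z ^ (-(1 / 8 : ℝ)) := by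
  obtain ⟨C, hC, H⟩ := ho_four
  set J : ℝ := ∫ v in Set.Ioi (0 : ℝ), pw s v * Real.log v with hJ
  set D : ℝ := ∫ v in Set.Ioi (0 : ℝ), wf (ex s + -(1 / 8 : ℝ)) v / Wi s 0 with hD
  have hD0 : 0 < D := by
    rw [hD, integral_div]
    exact div_pos (wi_pos (ex_gt' s)) (Wi0_pos s)
  refine ⟨hc + 1 / 8 * J, C * D, by positivity, fun z hz => ?_⟩
  have hm : Measurable (fun v : ℝ => ho ⌈(z * v) ^ (1 / 4 : ℝ)⌉₊ - (1 / 8 * Real.log (z * v) + hc)) := by
    refine Measurable.sub ?_ ?_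
    · exact (measurable_from_nat (f := ho)).comp (Nat.measurable_ceil.comp
        ((measurable_const.mul measurable_id).pow_const _))
    · exact ((Real.measurable_log.comp (measurable_const.mul measurable_id)).const_mul _).add_const _
  have hbd : ∀ v ∈ Set.Ioi (0 : ℝ), ‖pw s v * (ho ⌈(z * v) ^ (1 / 4 : ℝ)⌉₊ -
      (1 / 8 * Real.log (z * v) + hc))‖ ≤
      C * z ^ (-(1 / 8 : ℝ)) * (wf (ex s + -(1 / 8 : ℝ)) v / Wi s 0) := fun v hv => by
    have hv0 : (0 : ℝ) < v := hv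
    rw [norm_mul, Real.norm_of_nonneg (pw_nonneg s hv0.le), Real.norm_eq_abs]
    refine (mul_le_mul_of_nonneg_left (H _ (mul_pos hz hv0)) (pw_nonneg s hv0.le)).trans (le_of_eq ?_)
    rw [← wf_shift _ _ hv0, Real.mul_rpow hz.le hv0.le]
    unfold pw
    ring
  have hgi : IntegrableOn (fun v => C * z ^ (-(1 / 8 : ℝ)) * (wf (ex s + -(1 / 8 : ℝ)) v / Wi s 0))
      (Set.Ioi 0) := ((wf_int (ex_gt' s)).div_const _).const_mul _
  have hi1 : IntegrableOn (fun v => pw s v * (ho ⌈(z * v) ^ (1 / 4 : ℝ)⌉₊ -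
      (1 / 8 * Real.log (z * v) + hc))) (Set.Ioi 0) :=
    Integrable.mono' hgi ((pw_int s).aestronglyMeasurable.mul hm.aestronglyMeasurable)
      ((ae_restrict_iff' measurableSet_Ioi).2 (Filter.Eventually.of_forall hbd))
  have hi2 : IntegrableOn (fun v => (1 / 8 * Real.log z + hc) * pw s v + 1 / 8 * (pw s v * Real.log v))
      (Set.Ioi 0) := ((pw_int s).const_mul _).add ((pw_log_int s).const_mul _)
  have e2 : ∫ v in Set.Ioi (0 : ℝ), ((1 / 8 * Real.log z + hc) * pw s v + 1 / 8 * (pw s v * Real.log v)) =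
      1 / 8 * Real.log z + (hc + 1 / 8 * J) := by
    rw [integral_add ((pw_int s).const_mul _) ((pw_log_int s).const_mul _), integral_const_mul,
      integral_const_mul, pw_one, ← hJ]
    ring
  have e1 : Ssum s z - (1 / 8 * Real.log z + (hc + 1 / 8 * J)) =
      ∫ v in Set.Ioi (0 : ℝ), pw s v * (ho ⌈(z * v) ^ (1 / 4 : ℝ)⌉₊ -
        (1 / 8 * Real.log (z * v) + hc)) := by
    rw [← e2, sub_eq_iff_eq_add, ← integral_add hi1 hi2, Ssum_int s hz]
    refine setIntegral_congr_fun measurableSet_Ioi fun v hv => ?_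
    have hv0 : (0 : ℝ) < v := hv
    show pw s v * ho ⌈(z * v) ^ (1 / 4 : ℝ)⌉₊ = pw s v * (ho ⌈(z * v) ^ (1 / 4 : ℝ)⌉₊ -
        (1 / 8 * Real.log (z * v) + hc)) +
        ((1 / 8 * Real.log z + hc) * pw s v + 1 / 8 * (pw s v * Real.log v))
    rw [Real.log_mul hz.ne' hv0.ne']
    ring
  rw [e1, ← Real.norm_eq_abs]
  refine (norm_integral_le_of_norm_le hgi ((ae_restrict_iff' measurableSet_Ioi).2
    (Filter.Eventually.of_forall hbd))).trans (le_of_eq ?_)
  rw [integral_const_mul, ← hD]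
  ring

theorem Ssum_bd (s : ℤ) : ∃ C : ℝ, 0 < C ∧ ∀ z : ℝ, 0 < z → Ssum s z ≤ C * (1 + Real.log (1 + z)) := by
  obtain ⟨c, C, hC, H⟩ := Ssum_as s
  refine ⟨C + |c| + 1 + Ssum s 1, by have := Ssum_nonneg s one_pos; positivity, fun z hz => ?_⟩
  have hS1 := Ssum_nonneg s one_pos
  have hl : 0 ≤ Real.log (1 + z) := Real.log_nonneg (by linarith)
  rcases le_total z 1 with h1 | h1
  · have h2 := Ssum_mono s hz h1
    nlinarith [abs_nonneg c]
  · have h2 := (abs_le.1 (H z hz)).2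
    have h3 : z ^ (-(1 / 8 : ℝ)) ≤ 1 := Real.rpow_le_one_of_one_le_of_nonpos h1 (by norm_num)
    have h4 : C * z ^ (-(1 / 8 : ℝ)) ≤ C := by nlinarith
    have h5 : Real.log z ≤ Real.log (1 + z) := Real.log_le_log hz (by linarith)
    have h6 := le_abs_self c
    nlinarith [abs_nonneg c]

/-! ### The double sum -/

theorem Lt_eq (s : ℤ) (η z : ℝ) (j m : ℕ) :
    Lt s η z (j, m) = (η / √2) ^ j * St s (z / 4 ^ j) m := by
  unfold Lt St
  have : (4 : ℝ) ^ j * (m : ℝ) ^ 4 / z = (m : ℝ) ^ 4 / (z / 4 ^ j) := by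
    rw [div_div_eq_mul_div, mul_comm]
  simp only [this]

theorem eta_abs {η : ℝ} (hη : |η| ≤ 1) : |η / √2| ≤ 1 / √2 := by
  rw [abs_div, abs_of_pos (Real.sqrt_pos.2 two_pos : 0 < √2)]
  exact div_le_div_of_nonneg_right hη (Real.sqrt_nonneg 2)

theorem rt_lt : 1 / √2 < 1 := by
  rw [div_lt_one (Real.sqrt_pos.2 two_pos)]
  exact (Real.lt_sqrt (by norm_num)).2 (by norm_num)

theorem Lt_summable (s : ℤ) (η z : ℝ) (hη : |η| ≤ 1) (hz : 0 < z) : Summable (Lt s η z) := by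
  obtain ⟨C, hC, H⟩ := St_le s
  have hr0 : 0 ≤ 1 / √2 := by positivity
  have hs1 : Summable (fun j : ℕ => (1 / √2) ^ j) := summable_geometric_of_lt_one hr0 rt_lt
  have hs2 : Summable (fun m : ℕ => C * z ^ 2 * (1 / (m : ℝ) ^ 2)) :=
    (Real.summable_one_div_nat_pow.2 (by norm_num)).mul_left _
  have hs := hs1.mul_of_nonneg hs2 (fun j => by positivity) (fun m => by positivity)
  refine Summable.of_norm_bounded hs fun p => ?_
  obtain ⟨j, m⟩ := p
  rw [Lt_eq, norm_mul, norm_pow, Real.norm_eq_abs, Real.norm_eq_abs]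
  have hzj : 0 < z / 4 ^ j := by positivity
  have hzj1 : z / 4 ^ j ≤ z := div_le_self hz.le (one_le_pow₀ (by norm_num))
  refine mul_le_mul (pow_le_pow_left₀ (abs_nonneg _) (eta_abs hη) j) ?_ (abs_nonneg _) (by positivity)
  rw [abs_of_nonneg (St_nonneg s hzj m)]
  exact (St_mono s hzj hzj1 m).trans (H z hz m)

theorem La_eq (s : ℤ) (η z : ℝ) (hη : |η| ≤ 1) (hz : 0 < z) :
    La s η z = ∑' j : ℕ, (η / √2) ^ j * Ssum s (z / 4 ^ j) := by
  unfold La
  rw [(Lt_summable s η z hη hz).tsum_prod]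
  refine tsum_congr fun j => ?_
  unfold Ssum
  rw [← tsum_mul_left]
  exact tsum_congr fun m => Lt_eq s η z j m

theorem La_bound (s : ℤ) : ∃ C : ℝ, 0 < C ∧ ∀ η z : ℝ, |η| ≤ 1 → 0 < z →
    |La s η z| ≤ C * (1 + Real.log (1 + z)) := by
  obtain ⟨C, hC, H⟩ := Ssum_bd s
  have hr0 : 0 ≤ 1 / √2 := by positivity
  have hr1 : 0 < 1 - 1 / √2 := sub_pos.2 rt_lt
  refine ⟨(1 - 1 / √2)⁻¹ * C, by positivity, fun η z hη hz => ?_⟩
  rw [La_eq s η z hη hz, ← Real.norm_eq_abs]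
  have hg : HasSum (fun j : ℕ => (1 / √2) ^ j * (C * (1 + Real.log (1 + z))))
      ((1 - 1 / √2)⁻¹ * (C * (1 + Real.log (1 + z)))) :=
    (hasSum_geometric_of_lt_one hr0 rt_lt).mul_right _
  rw [mul_assoc]
  refine tsum_of_norm_bounded hg fun j => ?_
  have hzj : 0 < z / 4 ^ j := by positivity
  have hzj1 : z / 4 ^ j ≤ z := div_le_self hz.le (one_le_pow₀ (by norm_num))
  rw [norm_mul, norm_pow, Real.norm_eq_abs, Real.norm_of_nonneg (Ssum_nonneg s hzj)]
  exact mul_le_mul (pow_le_pow_left₀ (abs_nonneg _) (eta_abs hη) j)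
    ((Ssum_mono s hzj hzj1).trans (H z hz)) (Ssum_nonneg s hzj) (by positivity)

theorem La_asymp (s : ℤ) (η : ℝ) (hη : |η| ≤ 1) : ∃ B C : ℝ, 0 < C ∧ ∀ z : ℝ, 0 < z →
    |La s η z - (LA η * Real.log z + B)| ≤ C * z ^ (-(1 / 8 : ℝ)) := by
  obtain ⟨c, C, hC, H⟩ := Ssum_as s
  have hr0 : 0 ≤ 1 / √2 := by positivity
  have ha := eta_abs hη
  have ha1 : |η / √2| < 1 := ha.trans_lt rt_lt
  -- the ratio of the error terms
  set ρ : ℝ := 1 / √2 * (4 : ℝ) ^ (1 / 8 : ℝ) with hρ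
  have h48 : (4 : ℝ) ^ (1 / 8 : ℝ) = √2 ^ (1 / 2 : ℝ) := by
    rw [show (4 : ℝ) = √2 ^ (4 : ℝ) by
      rw [show (4 : ℝ) = ((4 : ℕ) : ℝ) by norm_num, Real.rpow_natCast]
      have := Real.sq_sqrt (show (0 : ℝ) ≤ 2 by norm_num)
      push_cast
      nlinarith, ← Real.rpow_mul (Real.sqrt_nonneg 2)]
    norm_num
  have hρ0 : 0 ≤ ρ := by positivity
  have hρ1 : ρ < 1 := by
    rw [hρ, h48]
    have h2 : (0 : ℝ) < √2 := Real.sqrt_pos.2 two_pos
    have h3 : 1 < √2 := (Real.lt_sqrt (by norm_num)).2 (by norm_num)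
    rw [one_div_mul_eq_div, div_lt_one h2]
    calc √2 ^ (1 / 2 : ℝ) < √2 ^ (1 : ℝ) := Real.rpow_lt_rpow_of_exponent_lt h3 (by norm_num)
      _ = √2 := Real.rpow_one _
  have hg0 : HasSum (fun j : ℕ => (η / √2) ^ j) (1 - η / √2)⁻¹ :=
    hasSum_geometric_of_abs_lt_one ha1
  have hg1 : Summable (fun j : ℕ => (j : ℝ) * (η / √2) ^ j) := by
    have := summable_pow_mul_geometric_of_norm_lt_one (R := ℝ) 1 (r := η / √2)
      (by rw [Real.norm_eq_abs]; exact ha1)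
    simpa only [pow_one] using this
  have hgB : Summable (fun j : ℕ => (η / √2) ^ j * (c - 1 / 8 * (j * Real.log 4))) := by
    have := (hg0.summable.mul_right c).sub (hg1.mul_right (1 / 8 * Real.log 4))
    refine this.congr fun j => ?_
    ring
  refine ⟨∑' j : ℕ, (η / √2) ^ j * (c - 1 / 8 * (j * Real.log 4)), (1 - ρ)⁻¹ * C,
    by have : 0 < 1 - ρ := by linarith
       positivity, fun z hz => ?_⟩
  have hS : Summable (fun j : ℕ => (η / √2) ^ j * Ssum s (z / 4 ^ j)) := by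
    obtain ⟨D, hD, HD⟩ := Ssum_bd s
    refine Summable.of_norm_bounded (g := fun j : ℕ => (1 / √2) ^ j * (D * (1 + Real.log (1 + z))))
      ((summable_geometric_of_lt_one hr0 rt_lt).mul_right _) fun j => ?_
    have hzj : 0 < z / 4 ^ j := by positivity
    have hzj1 : z / 4 ^ j ≤ z := div_le_self hz.le (one_le_pow₀ (by norm_num))
    rw [norm_mul, norm_pow, Real.norm_eq_abs, Real.norm_of_nonneg (Ssum_nonneg s hzj)]
    exact mul_le_mul (pow_le_pow_left₀ (abs_nonneg _) ha j)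
      ((Ssum_mono s hzj hzj1).trans (HD z hz)) (Ssum_nonneg s hzj) (by positivity)
  have e1 : LA η * Real.log z = ∑' j : ℕ, (η / √2) ^ j * (1 / 8 * Real.log z) := by
    rw [tsum_mul_right, hg0.tsum_eq]
    unfold LA
    ring
  rw [La_eq s η z hη hz, e1, ← (hg0.summable.mul_right _).tsum_add hgB,
    ← hS.tsum_sub ((hg0.summable.mul_right _).add hgB), ← Real.norm_eq_abs, mul_assoc]
  have hg : HasSum (fun j : ℕ => ρ ^ j * (C * z ^ (-(1 / 8 : ℝ))))
      ((1 - ρ)⁻¹ * (C * z ^ (-(1 / 8 : ℝ)))) :=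
    (hasSum_geometric_of_lt_one hρ0 hρ1).mul_right _
  refine tsum_of_norm_bounded hg fun j => ?_
  have hzj : 0 < z / 4 ^ j := by positivity
  have h4 : (0 : ℝ) < 4 ^ j := by positivity
  have h := H _ hzj
  have e2 : (η / √2) ^ j * Ssum s (z / 4 ^ j) - ((η / √2) ^ j * (1 / 8 * Real.log z) +
      (η / √2) ^ j * (c - 1 / 8 * (j * Real.log 4))) =
      (η / √2) ^ j * (Ssum s (z / 4 ^ j) - (1 / 8 * Real.log (z / 4 ^ j) + c)) := by
    rw [Real.log_div hz.ne' h4.ne', Real.log_pow]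
    ring
  rw [e2, norm_mul, norm_pow, Real.norm_eq_abs, Real.norm_eq_abs]
  refine (mul_le_mul (pow_le_pow_left₀ (abs_nonneg _) ha j) h (abs_nonneg _) (by positivity)).trans
    (le_of_eq ?_)
  rw [hρ, mul_pow, Real.div_rpow hz.le h4.le, Real.rpow_neg h4.le, ← Real.rpow_natCast 4 j,
    ← Real.rpow_mul (by norm_num : (0 : ℝ) ≤ 4), ← Real.rpow_natCast (4 ^ (1 / 8 : ℝ)) j,
    ← Real.rpow_mul (by norm_num : (0 : ℝ) ≤ 4), mul_comm (j : ℝ) (1 / 8 : ℝ), div_inv_eq_mul]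
  ring

theorem good_ex (s : ℤ) (_hs : s = 1 ∨ s = -1) : ∃ B : Fin 4 → ℝ, Good s B := by
  have hη : ∀ i : Fin 4, |(Pool.Agent.N879.QM.Avg.fam s i).η| ≤ 1 := fun i => by
    rcases Pool.Agent.N879.QM.Avg.fam_mem s i with h | h | h | h <;> rw [h]
    · simp [Pool.Agent.H306R2.RG.F8]
    · simp [Pool.Agent.H306R2.RG.F4]
    · simp [Pool.Agent.H306R2.RG.F1]
    · simp [Pool.Agent.H306R2.RG.F1]
  choose B C hC H using fun i : Fin 4 => La_asymp s _ (hη i)
  refine ⟨B, ∑ i, C i, Finset.sum_pos (fun i _ => hC i) ⟨0, mem_univ _⟩, fun i z hz => ?_⟩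
  refine (H i z hz).trans (mul_le_mul_of_nonneg_right ?_ (Real.rpow_nonneg hz.le _))
  exact Finset.single_le_sum (fun j _ => (hC j).le) (mem_univ i)

end

end Pool.Agent.J4.H39.CM
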