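import Pool.Agent.J4.H39.CM.Sf

set_option autoImplicit false

/-!
Project CM (helper39): linear equations between discriminants of arbitrary signs.
-/

namespace Pool.Agent.J4.H39.CM

open Complex Finset
open Pool.Agent.N879.QM
open Pool.Agent.N879.QM.Avg (fam)

noncomputable section

/-- restriction to a residue class does not increase the Fourier sup norm -/
lemma sup_res (F : ℕ → ℂ) (N : ℕ) (S : ℝ) (h : ∀ α : ℝ, ‖∑ q ∈ range N, F q * e (α * q)‖ ≤ S) (M A : ℕ)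
    (hA : A < M) (α : ℝ) : ‖∑ q ∈ range N, (if q % M = A then F q else 0) * e (α * q)‖ ≤ S := by
  have hM : 0 < M := by omega
  have hMr : (0 : ℝ) < M := by exact_mod_cast hM
  have hMc : (M : ℂ) ≠ 0 := by exact_mod_cast hM.ne'
  have h1 : ∀ q : ℕ, (if q % M = A then F q else 0) =
      (M : ℂ)⁻¹ * ∑ j ∈ range M, F q * e ((((q : ℤ) - A : ℤ) : ℝ) / M * j) := by
    intro q
    rw [← mul_sum]
    have h2 := Cir.orth hM ((q : ℤ) - A)
    have h3 : ∑ j ∈ range M, e ((((q : ℤ) - A : ℤ) : ℝ) / M * j) =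
        if (M : ℤ) ∣ (q : ℤ) - A then (M : ℂ) else 0 := h2
    rw [h3]
    have h4 : (M : ℤ) ∣ (q : ℤ) - A ↔ q % M = A := by
      constructor
      · intro hd
        have h5 : (q : ℤ) ≡ A [ZMOD M] := (Int.modEq_iff_dvd.2 (by
          have := (dvd_neg (α := ℤ)).2 hd
          rwa [neg_sub] at this))
        have h6 : q ≡ A [MOD M] := by exact_mod_cast h5
        have h7 : q % M = A % M := h6
        rwa [Nat.mod_eq_of_lt hA] at h7
      · intro hq
        have h6 : q ≡ A [MOD M] := by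
          show q % M = A % M
          rw [Nat.mod_eq_of_lt hA, hq]
        have h5 : (A : ℤ) ≡ q [ZMOD M] := by exact_mod_cast h6.symm
        exact Int.modEq_iff_dvd.1 h5
    by_cases h5 : q % M = A
    · rw [if_pos h5, if_pos (h4.2 h5)]
      field_simp
    · rw [if_neg h5, if_neg (fun h => h5 (h4.1 h)), mul_zero, mul_zero]
  have h2 : ∑ q ∈ range N, (if q % M = A then F q else 0) * e (α * q) =
      (M : ℂ)⁻¹ * ∑ j ∈ range M, e (-((A : ℝ) / M * j)) * ∑ q ∈ range N, F q * e ((α + j / M) * q) := by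
    have e1 : ∀ q ∈ range N, (if q % M = A then F q else 0) * e (α * q) =
        ∑ j ∈ range M, (M : ℂ)⁻¹ * (e (-((A : ℝ) / M * j)) * (F q * e ((α + j / M) * q))) := by
      intro q _
      rw [h1 q, mul_assoc, sum_mul, mul_sum]
      refine sum_congr rfl fun j _ => ?_
      have e2 : e ((((q : ℤ) - A : ℤ) : ℝ) / M * j) * e (α * q) =
          e (-((A : ℝ) / M * j)) * e ((α + j / M) * q) := by
        rw [show (e : ℝ → ℂ) = Cir.e from rfl, ← Cir.e_add, ← Cir.e_add]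
        congr 1
        push_cast
        ring
      calc (M : ℂ)⁻¹ * (F q * e ((((q : ℤ) - A : ℤ) : ℝ) / M * j) * e (α * q)) =
            (M : ℂ)⁻¹ * (F q * (e ((((q : ℤ) - A : ℤ) : ℝ) / M * j) * e (α * q))) := by ring
        _ = _ := by rw [e2]; ring
    rw [sum_congr rfl e1, sum_comm, mul_sum]
    refine sum_congr rfl fun j _ => ?_
    rw [mul_sum, mul_sum]
  rw [h2, norm_mul, norm_inv, Complex.norm_natCast]
  have h3 : ‖∑ j ∈ range M, e (-((A : ℝ) / M * j)) * ∑ q ∈ range N, F q * e ((α + j / M) * q)‖ ≤ M * S := by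
    refine (norm_sum_le _ _).trans ?_
    calc _ ≤ ∑ _j ∈ range M, S := by
          refine sum_le_sum fun j _ => ?_
          rw [norm_mul, e_norm, one_mul]
          exact h _
      _ = _ := by rw [sum_const, card_range, nsmul_eq_mul]
  calc (M : ℝ)⁻¹ * _ ≤ (M : ℝ)⁻¹ * (M * S) := mul_le_mul_of_nonneg_left h3 (by positivity)
    _ = S := by field_simp

lemma sq_res (F : ℕ → ℂ) (N : ℕ) (T : ℝ) (h : ∑ q ∈ range N, ‖F q‖ ^ 2 ≤ T) (M A : ℕ) :
    ∑ q ∈ range N, ‖(if q % M = A then F q else 0)‖ ^ 2 ≤ T := by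
  refine (sum_le_sum fun q _ => ?_).trans h
  split_ifs with h1
  · exact le_rfl
  · rw [norm_zero, zero_pow two_ne_zero]
    positivity

/-- the replacement of `L(1/2, χ)` by the truncated singular series, linear equations with arbitrary coefficients -/
theorem lin_mix (B : ℤ → Fin 4 → ℝ) (hB1 : Good 1 (B 1)) (hB2 : Good (-1) (B (-1))) (t : ℕ) (ht : 3 ≤ t) :
    ∃ C : ℝ, 0 < C ∧ ∀ (N : ℕ) (σ c : Fin t → ℤ) (m r : Fin t → ℕ) (n : ℤ), 1 ≤ N → (∀ i, σ i = 1 ∨ σ i = -1) →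
    (∀ i, c i ≠ 0) → (∀ i, r i < m i) →
    ‖∑ q ∈ Fintype.piFinset (fun _ : Fin t => range (N + 1)),
      if ∑ i, c i * (q i : ℤ) = n then (∏ i, if q i % m i = r i then L1 (σ i) (q i) else 0) -
        ∏ i, (if q i % m i = r i then Gm (Fr (cut (mt t) N)) (c1 (σ i)) (c0 (σ i) (B (σ i))) (q i) else 0) else 0‖ ≤
      C * (N : ℝ) ^ ((t : ℝ) - 1 - dt t) := by
  have htR : (3 : ℝ) ≤ t := by exact_mod_cast ht
  have hm0 := mt_pos t
  obtain ⟨Ca, hCa, ha⟩ := msup 1 (Or.inl rfl) (B 1) hB1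
  obtain ⟨Cb, hCb, hb⟩ := msup (-1) (Or.inr rfl) (B (-1)) hB2
  obtain ⟨C1, hC1e⟩ : ∃ x : ℝ, x = Ca + Cb := ⟨_, rfl⟩
  have hC1 : 0 < C1 := by rw [hC1e]; positivity
  set ε : ℝ := 1 / (8 * mt t * (t + 1)) with hε
  have hε0 : 0 < ε := by positivity
  obtain ⟨C2, hC2, h2⟩ := l1sq ε hε0
  obtain ⟨Cc, hCc, h3a⟩ := gmsq 1 (Or.inl rfl) (B 1) ε hε0
  obtain ⟨Cd, hCd, h3b⟩ := gmsq (-1) (Or.inr rfl) (B (-1)) ε hε0
  obtain ⟨C3, hC3e⟩ : ∃ x : ℝ, x = Cc + Cd := ⟨_, rfl⟩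
  have hC3 : 0 < C3 := by rw [hC3e]; positivity
  obtain ⟨C4, hC4, h4⟩ := log_pow 5 (1 / (8 * mt t)) (by positivity)
  set CT := C2 + C3 with hCT
  have hCT0 : 0 < CT := by positivity
  refine ⟨t * (2 * C1 * C4) * CT * (√(2 * CT)) ^ (t - 3), by positivity,
    fun N σ c m r n hN hσ hc hmr => ?_⟩
  obtain ⟨hW, hWN, hW34⟩ := cut_spec (mt t) (by unfold mt; omega) N hN
  set W := cut (mt t) N with hWdef
  have hNR : (1 : ℝ) ≤ N := by exact_mod_cast hN
  have hN0 : (0 : ℝ) < N := by linarith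
  have hWN' : W ^ 4096 ≤ N := by
    refine le_trans ?_ hWN
    refine Nat.pow_le_pow_right hW ?_
    unfold mt
    omega
  set M : ℝ := (2 * C1 * C4) * (N : ℝ) ^ (1 - 5 / (8 * mt t : ℝ)) with hM
  have hM0 : 0 ≤ M := by positivity
  set T : ℝ := CT * (N : ℝ) ^ (1 + ε) with hT
  have hsup : ∀ i, ∀ α : ℝ, ‖∑ q ∈ range (N + 1), (L1 (σ i) q -
      Gm (Fr W) (c1 (σ i)) (c0 (σ i) (B (σ i))) q) * e (α * q)‖ ≤ M := by
    intro i α
    have h1 : ‖∑ q ∈ range (N + 1), (L1 (σ i) q - Gm (Fr W) (c1 (σ i)) (c0 (σ i) (B (σ i))) q) * e (α * q)‖ ≤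
        C1 * (1 + Real.log N) ^ 5 * (N * (W : ℝ) ^ (-(3 / 4 : ℝ))) := by
      have hlN : 0 ≤ Real.log N := Real.log_nonneg hNR
      have hp : 0 ≤ (1 + Real.log N) ^ 5 * (N * (W : ℝ) ^ (-(3 / 4 : ℝ))) := by positivity
      rcases hσ i with h | h
      · rw [h]
        refine (ha N W α hN hW hWN').trans ?_
        rw [hC1e]
        nlinarith
      · rw [h]
        refine (hb N W α hN hW hWN').trans ?_
        rw [hC1e]
        nlinarith
    refine h1.trans ?_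
    have e1 := h4 N hN
    calc C1 * (1 + Real.log N) ^ 5 * (N * (W : ℝ) ^ (-(3 / 4 : ℝ))) ≤
          C1 * (C4 * (N : ℝ) ^ (1 / (8 * mt t : ℝ))) * (N * (2 * (N : ℝ) ^ (-(3 / (4 * mt t : ℝ))))) := by
          refine mul_le_mul (mul_le_mul_of_nonneg_left e1 hC1.le)
            (mul_le_mul_of_nonneg_left hW34 hN0.le) (by positivity) (by positivity)
      _ = (2 * C1 * C4) * ((N : ℝ) ^ (1 / (8 * mt t : ℝ)) * (N * (N : ℝ) ^ (-(3 / (4 * mt t : ℝ))))) := by
          ring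
      _ = M := by
          rw [hM]
          congr 1
          nth_rewrite 2 [← Real.rpow_one (N : ℝ)]
          rw [← Real.rpow_add hN0, ← Real.rpow_add hN0]
          congr 1
          field_simp
          ring
  have hf : ∀ i, ∑ q ∈ range (N + 1), ‖L1 (σ i) q‖ ^ 2 ≤ T := by
    intro i
    refine (h2 (σ i) N (hσ i) hN).trans ?_
    rw [hT, hCT]
    exact mul_le_mul_of_nonneg_right (by linarith) (by positivity)
  have hg : ∀ i, ∑ q ∈ range (N + 1), ‖Gm (Fr W) (c1 (σ i)) (c0 (σ i) (B (σ i))) q‖ ^ 2 ≤ T := by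
    intro i
    have h3 : ∑ q ∈ range (N + 1), ‖Gm (Fr W) (c1 (σ i)) (c0 (σ i) (B (σ i))) q‖ ^ 2 ≤ C3 * (N : ℝ) ^ (1 + ε) := by
      have hp : 0 ≤ (N : ℝ) ^ (1 + ε) := by positivity
      rcases hσ i with h | h
      · rw [h]
        refine (h3a N W hN hW hWN').trans ?_
        rw [hC3e]
        nlinarith
      · rw [h]
        refine (h3b N W hN hW hWN').trans ?_
        rw [hC3e]
        nlinarith
    refine h3.trans ?_
    rw [hT, hCT]
    exact mul_le_mul_of_nonneg_right (by linarith) (by positivity)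
  have hsup' : ∀ i, ∀ α : ℝ, ‖∑ q ∈ range (N + 1), ((if q % m i = r i then L1 (σ i) q else 0) -
      (if q % m i = r i then Gm (Fr W) (c1 (σ i)) (c0 (σ i) (B (σ i))) q else 0)) * e (α * q)‖ ≤ M := by
    intro i α
    have h5 := sup_res (fun q => L1 (σ i) q - Gm (Fr W) (c1 (σ i)) (c0 (σ i) (B (σ i))) q) (N + 1) M (hsup i)
      (m i) (r i) (hmr i) α
    refine le_trans (le_of_eq ?_) h5
    congr 1
    refine sum_congr rfl fun q _ => ?_
    congr 1
    split_ifs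
    · rfl
    · rw [sub_zero]
  have key := circ_linear t ht (N + 1) c hc n (fun i q => if q % m i = r i then L1 (σ i) q else 0)
    (fun i q => if q % m i = r i then Gm (Fr W) (c1 (σ i)) (c0 (σ i) (B (σ i))) q else 0) M T hsup'
    (fun i => sq_res _ _ _ (hf i) (m i) (r i)) (fun i => sq_res _ _ _ (hg i) (m i) (r i))
  refine key.trans ?_
  have hsq : √(((N + 1 : ℕ) : ℝ) * T) ≤ √(2 * CT) * (N : ℝ) ^ (1 + ε / 2) := by
    have e1 : ((N + 1 : ℕ) : ℝ) * T ≤ (√(2 * CT) * (N : ℝ) ^ (1 + ε / 2)) ^ 2 := by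
      rw [mul_pow, Real.sq_sqrt (by positivity)]
      have e2 : ((N : ℝ) ^ (1 + ε / 2)) ^ 2 = N * (N : ℝ) ^ (1 + ε) := by
        rw [← Real.rpow_natCast, ← Real.rpow_mul hN0.le]
        nth_rewrite 2 [← Real.rpow_one (N : ℝ)]
        rw [← Real.rpow_add hN0]
        congr 1
        push_cast
        ring
      rw [e2, hT]
      have e3 : ((N + 1 : ℕ) : ℝ) ≤ 2 * N := by
        push_cast
        linarith
      calc ((N + 1 : ℕ) : ℝ) * (CT * (N : ℝ) ^ (1 + ε)) ≤ (2 * N) * (CT * (N : ℝ) ^ (1 + ε)) :=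
            mul_le_mul_of_nonneg_right e3 (by positivity)
        _ = _ := by ring
    calc _ ≤ √((√(2 * CT) * (N : ℝ) ^ (1 + ε / 2)) ^ 2) := Real.sqrt_le_sqrt e1
      _ = _ := Real.sqrt_sq (by positivity)
  have hpw : (√(((N + 1 : ℕ) : ℝ) * T)) ^ (t - 3) ≤
      (√(2 * CT)) ^ (t - 3) * (N : ℝ) ^ ((1 + ε / 2) * ((t : ℝ) - 3)) := by
    calc _ ≤ (√(2 * CT) * (N : ℝ) ^ (1 + ε / 2)) ^ (t - 3) :=
          pow_le_pow_left₀ (Real.sqrt_nonneg _) hsq _
      _ = (√(2 * CT)) ^ (t - 3) * ((N : ℝ) ^ (1 + ε / 2)) ^ (t - 3) := mul_pow _ _ _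
      _ = _ := by
          congr 1
          rw [← Real.rpow_natCast, ← Real.rpow_mul hN0.le, Nat.cast_sub ht]
          norm_num
  calc (t : ℝ) * M * T * (√(((N + 1 : ℕ) : ℝ) * T)) ^ (t - 3) ≤
        t * M * T * ((√(2 * CT)) ^ (t - 3) * (N : ℝ) ^ ((1 + ε / 2) * ((t : ℝ) - 3))) :=
        mul_le_mul_of_nonneg_left hpw (by positivity)
    _ = (t * (2 * C1 * C4) * CT * (√(2 * CT)) ^ (t - 3)) *
        ((N : ℝ) ^ (1 - 5 / (8 * mt t : ℝ)) * (N : ℝ) ^ (1 + ε) *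
          (N : ℝ) ^ ((1 + ε / 2) * ((t : ℝ) - 3))) := by
        rw [hM, hT]
        ring
    _ ≤ _ := by
        refine mul_le_mul_of_nonneg_left ?_ (by positivity)
        rw [← Real.rpow_add hN0, ← Real.rpow_add hN0]
        refine Real.rpow_le_rpow_of_exponent_le hNR ?_
        have e1 : 1 - 5 / (8 * mt t : ℝ) + (1 + ε) + (1 + ε / 2) * ((t : ℝ) - 3) =
            (t : ℝ) - 1 - 5 / (8 * mt t : ℝ) + ε * ((t : ℝ) - 1) / 2 := by ring
        rw [e1]
        have e2 : ε * ((t : ℝ) - 1) / 2 ≤ 1 / (8 * mt t : ℝ) := by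
          have : ε * ((t : ℝ) + 1) = 1 / (8 * mt t : ℝ) := by
            rw [hε]
            field_simp
          rw [← this]
          nlinarith
        have e3 : dt t ≤ 4 / (8 * mt t : ℝ) := by
          unfold dt
          rw [div_le_div_iff₀ (by positivity) (by positivity)]
          linarith
        have e4 : 5 / (8 * mt t : ℝ) = 4 / (8 * mt t : ℝ) + 1 / (8 * mt t : ℝ) := by ring
        linarith

end

end Pool.Agent.J4.H39.CM
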