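import Pool.Agent.J4.H39.CM.SupY
import Pool.Agent.J4.H39.CM.All2

set_option autoImplicit false

/-!
Project CM (helper39): the Fourier bound for the truncated singular series.
-/

namespace Pool.Agent.J4.H39.CM

open Complex Finset
open Pool.Agent.N879.QM
open Pool.Agent.N879.QM.Avg (fam)

noncomputable section

lemma mem_Fr {D : ℕ} {θ : ℚ} : θ ∈ Fr D ↔ 0 ≤ θ ∧ θ < 1 ∧ θ.den ≤ D := by
  unfold Fr fr
  rw [mem_image]
  constructor
  · rintro ⟨p, hp, rfl⟩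
    rw [mem_filter, mem_product, mem_Icc] at hp
    obtain ⟨⟨⟨a1, a2⟩, a3⟩, a4, a5⟩ := hp
    have h1 : (0 : ℚ) < p.1 := by exact_mod_cast a1
    refine ⟨by positivity, ?_, ?_⟩
    · rw [div_lt_one h1]
      exact_mod_cast a4
    · have h2 : ((p.2 : ℚ) / p.1).den ∣ p.1 := by
        have := Rat.den_dvd (p.2 : ℤ) (p.1 : ℤ)
        have h3 : (((p.2 : ℤ) : ℚ) / ((p.1 : ℤ) : ℚ)).den ∣ p.1 := by exact_mod_cast this
        simpa using h3
      exact (Nat.le_of_dvd (by omega) h2).trans a2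
  · rintro ⟨h1, h2, h3⟩
    refine ⟨(θ.den, θ.num.toNat), ?_, ?_⟩
    · have h4 : 0 ≤ θ.num := Rat.num_nonneg.2 h1
      have h5 : θ.num < θ.den := by
        exact Rat.num_lt_denom_iff.2 h2
      have h6 : θ.num.toNat < θ.den := by omega
      rw [mem_filter, mem_product, mem_Icc, mem_range]
      refine ⟨⟨⟨θ.den_pos, h3⟩, by show θ.num.toNat < D; omega⟩, h6, ?_⟩
      have h7 := θ.reduced
      show Nat.Coprime θ.num.toNat θ.den
      have h8 : θ.num.toNat = θ.num.natAbs := by omega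
      rw [h8]
      exact h7
    · show ((θ.num.toNat : ℕ) : ℚ) / (θ.den : ℚ) = θ
      have h4 : 0 ≤ θ.num := Rat.num_nonneg.2 h1
      have h5 : ((θ.num.toNat : ℕ) : ℤ) = θ.num := Int.toNat_of_nonneg h4
      have h6 : ((θ.num.toNat : ℕ) : ℚ) = ((θ.num : ℤ) : ℚ) := by
        rw [← h5]
        push_cast
        rfl
      rw [h6, Rat.num_div_den]

lemma card_Fr (W : ℕ) : ((Fr W).card : ℝ) ≤ (W : ℝ) ^ 2 := by
  have h1 : (Fr W).card ≤ (fr W).card := card_image_le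
  have h2 : (fr W).card ≤ (Icc 1 W ×ˢ range W).card := card_filter_le _ _
  have h3 : (Icc 1 W ×ˢ range W).card = W * W := by
    rw [card_product, Nat.card_Icc, card_range, Nat.add_sub_cancel]
  have h4 : (Fr W).card ≤ W * W := by omega
  have h5 : ((Fr W).card : ℝ) ≤ ((W * W : ℕ) : ℝ) := by exact_mod_cast h4
  rw [sq]
  exact_mod_cast h5

lemma Gm_split (S S' : Finset ℚ) (h : S ⊆ S') (a b : ℚ → ℂ) (q : ℕ) :
    Gm S' a b q = Gm S a b q + Gm (S' \ S) a b q := by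
  unfold Gm
  split_ifs
  · ring
  · rw [add_comm, sum_sdiff h]

lemma Gm_diff (S : Finset ℚ) (a b a' b' : ℚ → ℂ) (N : ℕ) (hN : 1 ≤ N) (K : ℝ) (q : ℕ) (hq : q ≤ N)
    (h : ∀ θ ∈ S, ‖a θ - a' θ‖ + ‖b θ - b' θ‖ ≤ K) (hK : 0 ≤ K) :
    ‖Gm S a b q - Gm S a' b' q‖ ≤ S.card * (K * (1 + Real.log N)) := by
  have hNR : (1 : ℝ) ≤ N := by exact_mod_cast hN
  have hl : 0 ≤ Real.log N := Real.log_nonneg hNR
  unfold Gm
  split_ifs with h0
  · rw [sub_zero, norm_zero]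
    positivity
  · rw [← sum_sub_distrib]
    refine (norm_sum_le _ _).trans ?_
    rw [← nsmul_eq_mul, ← sum_const]
    refine sum_le_sum fun θ hθ => ?_
    rw [← sub_mul, norm_mul, e_norm, mul_one]
    have h1 : (a θ * (Real.log q : ℂ) + b θ - (a' θ * (Real.log q : ℂ) + b' θ)) =
        (a θ - a' θ) * (Real.log q : ℂ) + (b θ - b' θ) := by ring
    have hq1 : (1 : ℝ) ≤ q := by exact_mod_cast Nat.one_le_iff_ne_zero.2 h0
    have hq2 : (q : ℝ) ≤ N := by exact_mod_cast hq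
    have h2 : 0 ≤ Real.log q := Real.log_nonneg hq1
    have h3 : Real.log q ≤ Real.log N := Real.log_le_log (by linarith) hq2
    rw [h1]
    refine (norm_add_le _ _).trans ?_
    rw [norm_mul, Complex.norm_real, Real.norm_eq_abs, abs_of_nonneg h2]
    have h4 := h θ hθ
    have h5 := norm_nonneg (a θ - a' θ)
    have h6 := norm_nonneg (b θ - b' θ)
    nlinarith

lemma L1_zero (s : ℤ) : L1 s 0 = 0 := by
  unfold L1
  rw [if_neg]
  intro h
  have := h.1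
  omega

lemma M1_zero (s : ℤ) (Y : ℕ) : M1 s Y 0 = 0 := by
  unfold M1
  rw [if_neg]
  intro h
  have := h.1
  omega

open Classical in
theorem msup (s : ℤ) (hs : s = 1 ∨ s = -1) (B : Fin 4 → ℝ) (hB : Good s B) : ∃ C : ℝ, 0 < C ∧
    ∀ (N W : ℕ) (α : ℝ), 1 ≤ N → 1 ≤ W → W ^ 4096 ≤ N →
    ‖∑ q ∈ range (N + 1), (L1 s q - Gm (Fr W) (c1 s) (c0 s B) q) * e (α * q)‖ ≤
      C * (1 + Real.log N) ^ 5 * (N * (W : ℝ) ^ (-(3 / 4 : ℝ))) := by
  obtain ⟨C1, hC1, h1⟩ := supY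
  obtain ⟨C2, hC2, h2⟩ := trunc s hs B hB
  obtain ⟨C3, hC3, h3⟩ := high
  obtain ⟨C4, hC4, h4⟩ := coef_t s hs B (1 / 4) (by norm_num)
  obtain ⟨C5, hC5, h5⟩ := coef_tail s hs B
  refine ⟨2 * C1 + 2 * C2 + C3 * C4 * (2 ^ 13 * 7) + C5, by positivity, fun N W α hN hW hWN => ?_⟩
  have hNR : (1 : ℝ) ≤ N := by exact_mod_cast hN
  have hWR : (1 : ℝ) ≤ W := by exact_mod_cast hW
  have hW0 : (0 : ℝ) < W := by linarith
  have hN0 : (0 : ℝ) < N := by linarith
  have hlN : 0 ≤ Real.log N := Real.log_nonneg hNR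
  set L := 1 + Real.log N with hL
  have hL1 : 1 ≤ L := by linarith
  have hLp : ∀ n : ℕ, n ≤ 5 → L ^ n ≤ L ^ 5 := fun n hn => pow_le_pow_right₀ hL1 hn
  set E : ℝ := N * (W : ℝ) ^ (-(3 / 4 : ℝ)) with hE
  have hE0 : 0 < E := by positivity
  -- powers
  have hWNR : (W : ℝ) ^ 4096 ≤ N := by exact_mod_cast hWN
  have hpw : ∀ n : ℕ, n ≤ 512 → (W : ℝ) ^ n ≤ (N : ℝ) ^ (1 / 8 : ℝ) := by
    intro n hn
    calc (W : ℝ) ^ n ≤ (W : ℝ) ^ 512 := pow_le_pow_right₀ hWR hn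
      _ = ((W : ℝ) ^ 4096) ^ (1 / 8 : ℝ) := by
          rw [← Real.rpow_natCast, ← Real.rpow_natCast, ← Real.rpow_mul hW0.le]
          norm_num
      _ ≤ _ := Real.rpow_le_rpow (by positivity) hWNR (by norm_num)
  have hW34 : (1 : ℝ) / W ≤ (W : ℝ) ^ (-(3 / 4 : ℝ)) := by
    rw [one_div, ← Real.rpow_neg_one]
    exact Real.rpow_le_rpow_of_exponent_le hWR (by norm_num)
  have hNW : (N : ℝ) / W ≤ E := by
    rw [hE, div_eq_mul_one_div]
    exact mul_le_mul_of_nonneg_left hW34 (by linarith)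
  have h78 : ∀ n : ℕ, n ≤ 511 → (N : ℝ) ^ (7 / 8 : ℝ) * (W : ℝ) ^ n ≤ E := by
    intro n hn
    refine le_trans ?_ hNW
    rw [le_div_iff₀ hW0, mul_assoc, ← pow_succ]
    calc (N : ℝ) ^ (7 / 8 : ℝ) * (W : ℝ) ^ (n + 1) ≤ (N : ℝ) ^ (7 / 8 : ℝ) * (N : ℝ) ^ (1 / 8 : ℝ) :=
          mul_le_mul_of_nonneg_left (hpw (n + 1) (by omega)) (by positivity)
      _ = N := by
          rw [← Real.rpow_add hN0]
          norm_num
  -- parameters
  set Y := W ^ 16 with hY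
  set Z := W ^ 48 with hZ
  set D := 64 * Y * Z ^ 3 with hD
  have hY1 : 1 ≤ Y := Nat.one_le_pow _ _ hW
  have hZ1 : 1 ≤ Z := Nat.one_le_pow _ _ hW
  have hD1 : 1 ≤ D := by
    have : 0 < Y * Z ^ 3 := by positivity
    rw [hD, mul_assoc]
    omega
  have hWD : W ≤ D := by
    have a1 : W ≤ Y := by
      rw [hY]
      exact Nat.le_self_pow (by norm_num) W
    have a2 : 1 ≤ Z ^ 3 := Nat.one_le_pow _ _ hZ1
    calc W ≤ Y := a1
      _ ≤ 64 * Y := by omega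
      _ ≤ 64 * Y * Z ^ 3 := Nat.le_mul_of_pos_right _ a2
  have hYR : (Y : ℝ) = (W : ℝ) ^ 16 := by rw [hY]; push_cast; ring
  have hZR : (Z : ℝ) = (W : ℝ) ^ 48 := by rw [hZ]; push_cast; ring
  have hDR : (D : ℝ) = 64 * (W : ℝ) ^ 160 := by
    rw [hD]
    push_cast
    rw [hYR, hZR]
    ring
  have hWY : W ≤ Y := by
    rw [hY]
    exact Nat.le_self_pow (by norm_num) W
  -- the pieces
  have e1 : ∀ q ∈ range (N + 1), (L1 s q - Gm (Fr W) (c1 s) (c0 s B) q) * e (α * q) =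
      (L1 s q - M1 s Y q) * e (α * q) +
      (M1 s Y q - Gm (Fr D) (c1t s Y Z) (c0t s B Y Z) q) * e (α * q) +
      Gm (Fr D \ Fr W) (c1t s Y Z) (c0t s B Y Z) q * e (α * q) +
      (Gm (Fr W) (c1t s Y Z) (c0t s B Y Z) q - Gm (Fr W) (c1 s) (c0 s B) q) * e (α * q) := by
    intro q _
    have hsub : Fr W ⊆ Fr D := by
      intro θ hθ
      rw [mem_Fr] at hθ ⊢
      exact ⟨hθ.1, hθ.2.1, hθ.2.2.trans hWD⟩
    rw [Gm_split (Fr W) (Fr D) hsub]
    ring
  rw [sum_congr rfl e1, sum_add_distrib, sum_add_distrib, sum_add_distrib]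
  refine (norm_add_le _ _).trans ?_
  have t1 : ‖∑ q ∈ range (N + 1), (L1 s q - M1 s Y q) * e (α * q)‖ ≤ 2 * C1 * L ^ 5 * E := by
    refine (h1 s N Y α hs hN hY1).trans ?_
    have a1 : (N : ℝ) / Y ≤ E := by
      refine le_trans ?_ hNW
      exact div_le_div_of_nonneg_left (by linarith) hW0 (by exact_mod_cast hWY)
    have a2 : (N : ℝ) ^ (7 / 8 : ℝ) ≤ E := by
      have := h78 0 (by norm_num)
      simpa using this
    calc C1 * L ^ 5 * (N / Y + (N : ℝ) ^ (7 / 8 : ℝ)) ≤ C1 * L ^ 5 * (E + E) :=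
          mul_le_mul_of_nonneg_left (add_le_add a1 a2) (by positivity)
      _ = _ := by ring
  have t2 : ‖∑ q ∈ range (N + 1), (M1 s Y q - Gm (Fr D) (c1t s Y Z) (c0t s B Y Z) q) * e (α * q)‖ ≤
      2 * C2 * L ^ 5 * E := by
    have a0 : ∑ q ∈ range (N + 1), (M1 s Y q - Gm (Fr D) (c1t s Y Z) (c0t s B Y Z) q) * e (α * q) =
        ∑ q ∈ Icc 1 N, (M1 s Y q - ((Gp s B Y Z q : ℝ) : ℂ)) * e (α * q) := by
      rw [range_eq_Ico, sum_eq_sum_Ico_succ_bot (by omega)]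
      have b1 : (M1 s Y 0 - Gm (Fr D) (c1t s Y Z) (c0t s B Y Z) 0) = 0 := by
        rw [M1_zero]
        unfold Gm
        simp
      rw [b1, zero_mul, zero_add]
      have b2 : Ico (0 + 1) (N + 1) = Icc 1 N := by
        ext a
        rw [mem_Ico, mem_Icc]
        omega
      rw [b2]
      refine sum_congr rfl fun q hq => ?_
      rw [mem_Icc] at hq
      rw [regroup s hs B Y Z q D hq.1 le_rfl]
    rw [a0]
    refine (norm_sum_le _ _).trans ?_
    have a1 := h2 N Y Z hN hY1 hZ1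
    have a2 : ∑ q ∈ Icc 1 N, ‖(M1 s Y q - ((Gp s B Y Z q : ℝ) : ℂ)) * e (α * q)‖ =
        ∑ q ∈ Icc 1 N, ‖(if Is s q then PV s (PY Y) q else 0) - ((Gp s B Y Z q : ℝ) : ℂ)‖ := by
      refine sum_congr rfl fun q _ => ?_
      rw [norm_mul, e_norm, mul_one]
      unfold M1
      rfl
    rw [a2]
    refine a1.trans ?_
    have a3 : (N : ℝ) * √Y / √Z ≤ E := by
      have b1 : √(Y : ℝ) = (W : ℝ) ^ 8 := by
        rw [hYR, show (W : ℝ) ^ 16 = ((W : ℝ) ^ 8) ^ 2 by ring, Real.sqrt_sq (by positivity)]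
      have b2 : √(Z : ℝ) = (W : ℝ) ^ 24 := by
        rw [hZR, show (W : ℝ) ^ 48 = ((W : ℝ) ^ 24) ^ 2 by ring, Real.sqrt_sq (by positivity)]
      rw [b1, b2]
      refine le_trans ?_ hNW
      rw [div_le_div_iff₀ (by positivity) hW0]
      have b3 : (W : ℝ) ^ 9 ≤ (W : ℝ) ^ 24 := pow_le_pow_right₀ hWR (by norm_num)
      calc (N : ℝ) * (W : ℝ) ^ 8 * W = N * (W : ℝ) ^ 9 := by ring
        _ ≤ N * (W : ℝ) ^ 24 := mul_le_mul_of_nonneg_left b3 (by linarith)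
    have a4 : (N : ℝ) ^ (7 / 8 : ℝ) * ((Y * Z : ℕ) : ℝ) ^ 4 ≤ E := by
      have b1 : ((Y * Z : ℕ) : ℝ) ^ 4 = (W : ℝ) ^ 256 := by
        push_cast
        rw [hYR, hZR]
        ring
      rw [b1]
      exact h78 256 (by norm_num)
    calc C2 * L ^ 4 * (N * √Y / √Z + (N : ℝ) ^ (7 / 8 : ℝ) * ((Y * Z : ℕ) : ℝ) ^ 4) ≤
          C2 * L ^ 5 * (E + E) := by
          refine mul_le_mul (mul_le_mul_of_nonneg_left (hLp 4 (by norm_num)) hC2.le)
            (add_le_add a3 a4) (by positivity) (by positivity)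
      _ = _ := by ring
  have t3 : ‖∑ q ∈ range (N + 1), Gm (Fr D \ Fr W) (c1t s Y Z) (c0t s B Y Z) q * e (α * q)‖ ≤
      C3 * C4 * (2 ^ 13 * 7) * L ^ 5 * E := by
    have a1 := h3 (Fr D \ Fr W) D N (c1t s Y Z) (c0t s B Y Z) (C4 * (W : ℝ) ^ (-(3 / 4 : ℝ))) α hN hD1
      (by positivity) (fun θ hθ => by
        rw [mem_sdiff, mem_Fr] at hθ
        exact hθ.1) (fun θ hθ => by
        rw [mem_sdiff, mem_Fr, mem_Fr] at hθ
        obtain ⟨⟨b1, b2, b3⟩, b4⟩ := hθ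
        have b5 : W < θ.den := by
          by_contra hc
          exact b4 ⟨b1, b2, by omega⟩
        refine (h4 θ Y Z).trans ?_
        refine mul_le_mul_of_nonneg_left ?_ hC4.le
        have b6 : (W : ℝ) ≤ θ.den := by exact_mod_cast b5.le
        have b7 : (-1 + 1 / 4 : ℝ) = -(3 / 4) := by norm_num
        rw [b7]
        exact Real.rpow_le_rpow_of_nonpos hW0 b6 (by norm_num))
    refine a1.trans ?_
    have a2 : (D : ℝ) ^ 2 * (1 + Real.log D) ≤ 2 ^ 12 * 7 * N := by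
      have b1 : Real.log D ≤ 6 * (W : ℝ) ^ 160 := by
        rw [hDR, Real.log_mul (by norm_num) (by positivity)]
        have c1 : Real.log 64 ≤ 5 := by
          have : (64 : ℝ) = 2 ^ 6 := by norm_num
          rw [this, Real.log_pow]
          have := Real.log_two_lt_d9
          push_cast
          linarith
        have c2 : Real.log ((W : ℝ) ^ 160) ≤ (W : ℝ) ^ 160 - 1 :=
          Real.log_le_sub_one_of_pos (by positivity)
        have c3 : 1 ≤ (W : ℝ) ^ 160 := one_le_pow₀ hWR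
        linarith
      have c3 : 1 ≤ (W : ℝ) ^ 160 := one_le_pow₀ hWR
      have b2 : 1 + Real.log D ≤ 7 * (W : ℝ) ^ 160 := by linarith
      calc (D : ℝ) ^ 2 * (1 + Real.log D) ≤ (D : ℝ) ^ 2 * (7 * (W : ℝ) ^ 160) :=
            mul_le_mul_of_nonneg_left b2 (by positivity)
        _ = 2 ^ 12 * 7 * (W : ℝ) ^ 480 := by rw [hDR]; ring
        _ ≤ 2 ^ 12 * 7 * N := by
            refine mul_le_mul_of_nonneg_left ?_ (by norm_num)
            exact (pow_le_pow_right₀ hWR (by norm_num)).trans hWNR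
    calc C3 * (C4 * (W : ℝ) ^ (-(3 / 4 : ℝ))) * L * (N + (D : ℝ) ^ 2 * (1 + Real.log D)) ≤
          C3 * (C4 * (W : ℝ) ^ (-(3 / 4 : ℝ))) * L ^ 5 * (2 ^ 13 * 7 * N) := by
          refine mul_le_mul ?_ (by linarith) (add_nonneg hN0.le ?_) (by positivity)
          · refine mul_le_mul_of_nonneg_left ?_ (by positivity)
            have := hLp 1 (by norm_num)
            rwa [pow_one] at this
          · have : 0 ≤ Real.log D := Real.log_nonneg (by exact_mod_cast hD1)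
            positivity
      _ = _ := by
          rw [hE]
          ring
  have t4 : ‖∑ q ∈ range (N + 1), (Gm (Fr W) (c1t s Y Z) (c0t s B Y Z) q -
      Gm (Fr W) (c1 s) (c0 s B) q) * e (α * q)‖ ≤ C5 * L ^ 5 * E := by
    have hZ8 : (Z : ℝ) ^ (-(1 / 8 : ℝ)) = ((W : ℝ) ^ 6)⁻¹ := by
      rw [hZR, ← Real.rpow_natCast, ← Real.rpow_mul hW0.le, ← Real.rpow_natCast,
        ← Real.rpow_neg hW0.le]
      congr 1
      norm_num
    have a1 : ∀ q ∈ range (N + 1), ‖(Gm (Fr W) (c1t s Y Z) (c0t s B Y Z) q -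
        Gm (Fr W) (c1 s) (c0 s B) q) * e (α * q)‖ ≤
        if q = 0 then 0 else (W : ℝ) ^ 2 * ((C5 * W * ((W : ℝ) ^ 6)⁻¹) * L) := by
      intro q hq
      rw [mem_range] at hq
      rw [norm_mul, e_norm, mul_one]
      split_ifs with h0
      · subst h0
        unfold Gm
        simp
      · refine (Gm_diff (Fr W) _ _ _ _ N hN (C5 * W * ((W : ℝ) ^ 6)⁻¹) q (by omega) ?_
          (by positivity)).trans ?_
        · intro θ hθ
          rw [mem_Fr] at hθ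
          have b1 := h5 θ Y Z hZ1 (hθ.2.2.trans hWY)
          rw [hZ8] at b1
          have b2 : (θ.den : ℝ) ≤ W := by exact_mod_cast hθ.2.2
          rw [norm_sub_rev (c1t s Y Z θ), norm_sub_rev (c0t s B Y Z θ)]
          refine b1.trans ?_
          refine mul_le_mul_of_nonneg_right ?_ (by positivity)
          exact mul_le_mul_of_nonneg_left b2 hC5.le
        · exact mul_le_mul_of_nonneg_right (card_Fr W) (by positivity)
    refine (norm_sum_le _ _).trans ((sum_le_sum a1).trans ?_)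
    have a2 : ∑ q ∈ range (N + 1), (if q = 0 then 0 else
        (W : ℝ) ^ 2 * ((C5 * W * ((W : ℝ) ^ 6)⁻¹) * L)) =
        N * ((W : ℝ) ^ 2 * ((C5 * W * ((W : ℝ) ^ 6)⁻¹) * L)) := by
      rw [sum_range_succ']
      simp
    rw [a2]
    have a3 : (N : ℝ) * ((W : ℝ) ^ 2 * ((C5 * W * ((W : ℝ) ^ 6)⁻¹) * L)) =
        C5 * L * (N * ((W : ℝ) ^ 3)⁻¹) := by
      field_simp
    rw [a3]
    have a4 : (N : ℝ) * ((W : ℝ) ^ 3)⁻¹ ≤ E := by
      refine le_trans ?_ hNW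
      rw [← div_eq_mul_inv]
      refine div_le_div_of_nonneg_left (by linarith) hW0 ?_
      exact le_self_pow₀ hWR (by norm_num)
    have a5 : L ≤ L ^ 5 := by
      have := hLp 1 (by norm_num)
      rwa [pow_one] at this
    exact mul_le_mul (mul_le_mul_of_nonneg_left a5 hC5.le) a4 (by positivity) (by positivity)
  have t12 := norm_add_le (∑ q ∈ range (N + 1), (L1 s q - M1 s Y q) * e (α * q) +
    ∑ q ∈ range (N + 1), (M1 s Y q - Gm (Fr D) (c1t s Y Z) (c0t s B Y Z) q) * e (α * q))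
    (∑ q ∈ range (N + 1), Gm (Fr D \ Fr W) (c1t s Y Z) (c0t s B Y Z) q * e (α * q))
  have t11 := norm_add_le (∑ q ∈ range (N + 1), (L1 s q - M1 s Y q) * e (α * q))
    (∑ q ∈ range (N + 1), (M1 s Y q - Gm (Fr D) (c1t s Y Z) (c0t s B Y Z) q) * e (α * q))
  have : (2 * C1 + 2 * C2 + C3 * C4 * (2 ^ 13 * 7) + C5) * L ^ 5 * E =
      2 * C1 * L ^ 5 * E + 2 * C2 * L ^ 5 * E + C3 * C4 * (2 ^ 13 * 7) * L ^ 5 * E +
        C5 * L ^ 5 * E := by ring
  rw [this]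
  linarith

end

end Pool.Agent.J4.H39.CM
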