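import Pool.Agent.J4.H39.CM.Def3

set_option autoImplicit false

/-!
Project CM, third part, piece ZJ: the archimedean factor of the singular series: the sum of
`∏ (a log x_i + b)` over the representations `N = x_1 + … + x_t`.
-/

namespace Pool.Agent.J4.H39.CM

open Complex Finset Filter Topology
open Pool.Agent.N879.QM
open Pool.Agent.N879.QM.Avg (fam)
open Pool.Agent.H306R2.RZ (js)

noncomputable section

namespace ZJ

/-- representations of `N` as a sum of `t` positive integers -/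
def cset (t N : ℕ) : Finset (Fin t → ℕ) :=
  (Fintype.piFinset (fun _ : Fin t => range (N + 1))).filter (fun x => ∑ i, x i = N ∧ ∀ i, x i ≠ 0)

lemma mem_cset {t N : ℕ} {x : Fin t → ℕ} : x ∈ cset t N ↔ ∑ i, x i = N ∧ ∀ i, x i ≠ 0 := by
  unfold cset
  rw [mem_filter, Fintype.mem_piFinset]
  refine ⟨fun h => h.2, fun h => ⟨fun i => ?_, h⟩⟩
  rw [mem_range, Nat.lt_succ_iff, ← h.1]
  exact Finset.single_le_sum (f := x) (fun i _ => Nat.zero_le _) (mem_univ i)

lemma le_of_mem {t N : ℕ} {x : Fin t → ℕ} (h : x ∈ cset t N) (i : Fin t) : x i ≤ N := by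
  rw [mem_cset] at h
  rw [← h.1]
  exact Finset.single_le_sum (f := x) (fun i _ => Nat.zero_le _) (mem_univ i)

lemma sum_cons (t N : ℕ) (f : (Fin (t + 1) → ℕ) → ℝ) :
    ∑ x ∈ cset (t + 1) N, f x = ∑ m ∈ Icc 1 N, ∑ y ∈ cset t (N - m), f (Fin.cons m y) := by
  rw [Finset.sum_sigma']
  refine Finset.sum_bij' (fun x _ => ⟨x 0, Fin.tail x⟩) (fun z _ => Fin.cons z.1 z.2) ?_ ?_ ?_ ?_ ?_
  · intro x hx
    have h1 := le_of_mem hx 0
    rw [mem_cset, Fin.sum_univ_succ] at hx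
    rw [mem_sigma, mem_Icc, mem_cset]
    refine ⟨⟨Nat.one_le_iff_ne_zero.2 (hx.2 0), h1⟩, ?_, fun i => hx.2 i.succ⟩
    show ∑ i : Fin t, x i.succ = N - x 0
    omega
  · intro z hz
    rw [mem_sigma, mem_Icc, mem_cset] at hz
    rw [mem_cset, Fin.sum_univ_succ]
    refine ⟨?_, fun i => ?_⟩
    · simp only [Fin.cons_zero, Fin.cons_succ]
      have := hz.2.1
      have := hz.1.2
      omega
    · refine Fin.cases ?_ ?_ i
      · simp only [Fin.cons_zero]
        have := hz.1.1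
        omega
      · intro j
        simp only [Fin.cons_succ]
        exact hz.2.2 j
  · intro x _
    exact Fin.cons_self_tail x
  · intro z _
    rfl
  · intro x _
    simp only [Fin.cons_self_tail]

lemma card_cons (t N : ℕ) : ((cset (t + 1) N).card : ℝ) = ∑ m ∈ Icc 1 N, ((cset t (N - m)).card : ℝ) := by
  have h := sum_cons t N (fun _ => 1)
  simpa using h

lemma card_zero (t : ℕ) : (cset (t + 1) 0).card = 0 := by
  rw [card_eq_zero, Finset.eq_empty_iff_forall_notMem]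
  intro x hx
  have h := le_of_mem hx 0
  rw [mem_cset] at hx
  exact hx.2 0 (by omega)

lemma card_one (N : ℕ) : (cset 1 (N + 1)).card = 1 := by
  rw [card_eq_one]
  refine ⟨fun _ => N + 1, ?_⟩
  ext x
  rw [mem_cset, mem_singleton]
  constructor
  · rintro ⟨h1, -⟩
    funext i
    rw [Fin.sum_univ_one] at h1
    rw [Subsingleton.elim i 0, h1]
  · rintro rfl
    simp

lemma card_eq (t N : ℕ) : (cset (t + 1) (N + 1)).card = N.choose t := by
  induction t generalizing N with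
  | zero => rw [card_one, Nat.choose_zero_right]
  | succ t ih =>
    have h : ((cset (t + 2) (N + 1)).card : ℝ) = ((N.choose (t + 1) : ℕ) : ℝ) := by
      rw [card_cons (t + 1) (N + 1)]
      induction N with
      | zero =>
        rw [show Icc 1 (0 + 1) = {1} by rfl, sum_singleton]
        rw [show 0 + 1 - 1 = 0 by rfl, card_zero]
        simp
      | succ N ihN =>
        have e : ∑ m ∈ Icc 1 (N + 1 + 1), ((cset (t + 1) (N + 1 + 1 - m)).card : ℝ) =
            ((cset (t + 1) (N + 1)).card : ℝ) +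
              ∑ m ∈ Icc 1 (N + 1), ((cset (t + 1) (N + 1 - m)).card : ℝ) := by
          have h1 : Icc 1 (N + 1 + 1) = insert 1 ((Icc 1 (N + 1)).image (· + 1)) := by
            ext m
            simp only [mem_Icc, mem_insert, mem_image]
            constructor
            · rintro ⟨h1, h2⟩
              rcases Nat.eq_or_lt_of_le h1 with h | h
              · exact Or.inl h.symm
              · exact Or.inr ⟨m - 1, ⟨by omega, by omega⟩, by omega⟩
            · rintro (rfl | ⟨k, ⟨h1, h2⟩, rfl⟩)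
              · omega
              · omega
          rw [h1, sum_insert, sum_image]
          · congr 1
            refine sum_congr rfl fun m hm => ?_
            rw [show N + 1 + 1 - (m + 1) = N + 1 - m by omega]
          · intro a _ b _ hab
            exact Nat.succ_injective hab
          · intro hm
            rw [mem_image] at hm
            obtain ⟨k, hk, hk2⟩ := hm
            rw [mem_Icc] at hk
            omega
        rw [e, ihN, ih N, Nat.choose_succ_succ N t]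
        push_cast
        ring
    exact_mod_cast h

lemma card_le (t N : ℕ) : ((cset (t + 1) N).card : ℝ) ≤ (N : ℝ) ^ t := by
  cases N with
  | zero =>
    rw [card_zero]
    simp only [Nat.cast_zero]
    positivity
  | succ N =>
    rw [card_eq]
    have h1 : N.choose t ≤ (N + 1) ^ t :=
      (Nat.choose_le_pow N t).trans (Nat.pow_le_pow_left (Nat.le_succ N) t)
    exact_mod_cast h1

lemma pow_diff (x y : ℝ) (hy : 0 ≤ y) (hxy : y ≤ x) (k : ℕ) :
    x ^ (k + 1) - y ^ (k + 1) ≤ (k + 1) * (x - y) * x ^ k := by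
  have hx : 0 ≤ x := hy.trans hxy
  induction k with
  | zero => simp
  | succ k ih =>
    have e : x ^ (k + 1 + 1) - y ^ (k + 1 + 1) = x ^ (k + 1) * (x - y) + y * (x ^ (k + 1) - y ^ (k + 1)) := by
      ring
    have h1 : y * (x ^ (k + 1) - y ^ (k + 1)) ≤ x * ((k + 1) * (x - y) * x ^ k) := by
      refine mul_le_mul hxy ih ?_ hx
      have := pow_le_pow_left₀ hy hxy (k + 1)
      linarith
    rw [e]
    push_cast
    calc x ^ (k + 1) * (x - y) + y * (x ^ (k + 1) - y ^ (k + 1))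
        ≤ x ^ (k + 1) * (x - y) + x * ((k + 1) * (x - y) * x ^ k) := by linarith
      _ = (↑k + 1 + 1) * (x - y) * x ^ (k + 1) := by ring

/-- the number of representations -/
lemma card_approx (k N : ℕ) (hN : 1 ≤ N) :
    |((cset (k + 2) N).card : ℝ) - (N : ℝ) ^ (k + 1) / ((k + 1).factorial : ℝ)| ≤
      ((k : ℝ) + 1) ^ 2 * (N : ℝ) ^ k := by
  obtain ⟨n, rfl⟩ := Nat.exists_eq_add_of_le' hN
  rw [card_eq (k + 1) n]
  have hf : (0 : ℝ) < ((k + 1).factorial : ℝ) := by exact_mod_cast Nat.factorial_pos _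
  have hf1 : (1 : ℝ) ≤ ((k + 1).factorial : ℝ) := by exact_mod_cast Nat.factorial_pos _
  have e1 : ((n.choose (k + 1) : ℕ) : ℝ) = (n.descFactorial (k + 1) : ℝ) / ((k + 1).factorial : ℝ) := by
    rw [eq_div_iff hf.ne', Nat.descFactorial_eq_factorial_mul_choose]
    push_cast
    ring
  have h1 : (n.descFactorial (k + 1) : ℝ) ≤ ((n + 1 : ℕ) : ℝ) ^ (k + 1) := by
    have := (Nat.descFactorial_le_pow n (k + 1)).trans (Nat.pow_le_pow_left (Nat.le_succ n) (k + 1))
    exact_mod_cast this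
  have h2 : (((n + 1 - (k + 1) : ℕ) : ℝ)) ^ (k + 1) ≤ (n.descFactorial (k + 1) : ℝ) := by
    exact_mod_cast Nat.pow_sub_le_descFactorial n (k + 1)
  have h3 : ((n + 1 : ℕ) : ℝ) ^ (k + 1) - (((n + 1 - (k + 1) : ℕ) : ℝ)) ^ (k + 1) ≤
      (k + 1) * (k + 1) * ((n + 1 : ℕ) : ℝ) ^ k := by
    have h4 := pow_diff ((n + 1 : ℕ) : ℝ) ((n + 1 - (k + 1) : ℕ) : ℝ) (Nat.cast_nonneg _)
      (by exact_mod_cast Nat.sub_le _ _) k
    refine h4.trans ?_
    have h5 : ((n + 1 : ℕ) : ℝ) - ((n + 1 - (k + 1) : ℕ) : ℝ) ≤ k + 1 := by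
      rw [sub_le_iff_le_add]
      have : n + 1 ≤ (k + 1) + (n + 1 - (k + 1)) := by omega
      exact_mod_cast this
    have h6 : (0 : ℝ) ≤ ((n + 1 : ℕ) : ℝ) ^ k := by positivity
    have h7 : (0 : ℝ) ≤ (k : ℝ) + 1 := by positivity
    exact mul_le_mul_of_nonneg_right (mul_le_mul_of_nonneg_left h5 h7) h6
  rw [e1, ← sub_div, abs_div, abs_of_pos hf, abs_sub_comm, abs_of_nonneg (by linarith),
    div_le_iff₀ hf]
  have h8 : (0 : ℝ) ≤ ((k : ℝ) + 1) ^ 2 * ((n + 1 : ℕ) : ℝ) ^ k := by positivity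
  calc ((n + 1 : ℕ) : ℝ) ^ (k + 1) - (n.descFactorial (k + 1) : ℝ)
      ≤ ((k : ℝ) + 1) ^ 2 * ((n + 1 : ℕ) : ℝ) ^ k := by
        have : ((k : ℝ) + 1) ^ 2 * ((n + 1 : ℕ) : ℝ) ^ k = (k + 1) * (k + 1) * ((n + 1 : ℕ) : ℝ) ^ k := by
          ring
        linarith
    _ ≤ ((k : ℝ) + 1) ^ 2 * ((n + 1 : ℕ) : ℝ) ^ k * ((k + 1).factorial : ℝ) := by
        exact le_mul_of_one_le_right h8 hf1

lemma log_sum (N : ℕ) : (N : ℝ) * Real.log N - N ≤ ∑ m ∈ Icc 1 N, Real.log m := by
  induction N with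
  | zero => simp
  | succ N ih =>
    rw [Finset.sum_Icc_succ_top (by omega)]
    have h : (N : ℝ) * (Real.log ((N + 1 : ℕ) : ℝ) - Real.log N) ≤ 1 := by
      rcases Nat.eq_zero_or_pos N with rfl | hN
      · simp
      · have hN0 : (0 : ℝ) < N := by exact_mod_cast hN
        rw [← Real.log_div (by positivity) hN0.ne']
        have h1 := Real.log_le_sub_one_of_pos (x := ((N + 1 : ℕ) : ℝ) / N) (by positivity)
        have h2 : ((N + 1 : ℕ) : ℝ) / N - 1 = 1 / N := by
          rw [Nat.cast_succ, add_div, div_self hN0.ne']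
          exact add_sub_cancel_left _ _
        rw [h2] at h1
        calc (N : ℝ) * Real.log (((N + 1 : ℕ) : ℝ) / N) ≤ N * (1 / N) :=
              mul_le_mul_of_nonneg_left h1 hN0.le
          _ = 1 := by field_simp
    push_cast at *
    nlinarith [ih, h]

lemma sum_symm (t N : ℕ) (i : Fin (t + 1)) (h : ℕ → ℝ) :
    ∑ x ∈ cset (t + 1) N, h (x i) = ∑ x ∈ cset (t + 1) N, h (x 0) := by
  refine Finset.sum_nbij' (fun x => x ∘ Equiv.swap i 0) (fun x => x ∘ Equiv.swap i 0) ?_ ?_ ?_ ?_ ?_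
  · intro x hx
    rw [mem_cset] at hx ⊢
    refine ⟨?_, fun j => hx.2 _⟩
    rw [← hx.1]
    exact Equiv.sum_comp (Equiv.swap i 0) x
  · intro x hx
    rw [mem_cset] at hx ⊢
    refine ⟨?_, fun j => hx.2 _⟩
    rw [← hx.1]
    exact Equiv.sum_comp (Equiv.swap i 0) x
  · intro x _
    funext j
    simp
  · intro x _
    funext j
    simp
  · intro x _
    simp

lemma one_sum (k N : ℕ) :
    ∑ x ∈ cset (k + 2) N, (1 + Real.log N - Real.log (x 0)) ≤ 2 * (N : ℝ) ^ (k + 1) := by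
  rw [sum_cons (k + 1) N (fun x => 1 + Real.log N - Real.log (x 0))]
  simp only [Fin.cons_zero, sum_const, nsmul_eq_mul]
  have h1 : ∀ m ∈ Icc 1 N, ((cset (k + 1) (N - m)).card : ℝ) * (1 + Real.log N - Real.log m) ≤
      (N : ℝ) ^ k * (1 + Real.log N - Real.log m) := by
    intro m hm
    rw [mem_Icc] at hm
    have h2 : Real.log m ≤ Real.log N :=
      Real.log_le_log (by exact_mod_cast hm.1) (by exact_mod_cast hm.2)
    refine mul_le_mul_of_nonneg_right ((card_le k (N - m)).trans ?_) (by linarith)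
    exact pow_le_pow_left₀ (Nat.cast_nonneg _) (by exact_mod_cast Nat.sub_le N m) k
  refine (sum_le_sum h1).trans ?_
  rw [← mul_sum, sum_sub_distrib, sum_const, Nat.card_Icc, nsmul_eq_mul]
  have h3 := log_sum N
  have h4 : (0 : ℝ) ≤ (N : ℝ) ^ k := by positivity
  calc (N : ℝ) ^ k * (((N + 1 - 1 : ℕ) : ℝ) * (1 + Real.log N) - ∑ m ∈ Icc 1 N, Real.log m)
      ≤ (N : ℝ) ^ k * (2 * N) := by
        refine mul_le_mul_of_nonneg_left ?_ h4
        rw [Nat.add_sub_cancel]
        linarith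
    _ = 2 * (N : ℝ) ^ (k + 1) := by ring

lemma prod_diff {ι : Type} (s : Finset ι) (u v : ι → ℂ) (M : ℝ) (hM : 0 ≤ M)
    (hu : ∀ i ∈ s, ‖u i‖ ≤ M) (hv : ∀ i ∈ s, ‖v i‖ ≤ M) :
    ‖∏ i ∈ s, u i - ∏ i ∈ s, v i‖ ≤ (∑ i ∈ s, ‖u i - v i‖) * M ^ (s.card - 1) := by
  classical
  induction s using Finset.induction_on with
  | empty => simp
  | @insert j s hj ih =>
    have ih := ih (fun i hi => hu i (mem_insert_of_mem hi)) (fun i hi => hv i (mem_insert_of_mem hi))
    rw [prod_insert hj, prod_insert hj, sum_insert hj, card_insert_of_notMem hj, Nat.add_sub_cancel]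
    have e : u j * ∏ i ∈ s, u i - v j * ∏ i ∈ s, v i =
        (u j - v j) * ∏ i ∈ s, u i + v j * (∏ i ∈ s, u i - ∏ i ∈ s, v i) := by ring
    have h1 : ‖∏ i ∈ s, u i‖ ≤ M ^ s.card := by
      rw [norm_prod]
      calc ∏ i ∈ s, ‖u i‖ ≤ ∏ _i ∈ s, M :=
            prod_le_prod (fun i _ => norm_nonneg _) fun i hi => hu i (mem_insert_of_mem hi)
        _ = M ^ s.card := by rw [prod_const]
    have h2 : ‖v j * (∏ i ∈ s, u i - ∏ i ∈ s, v i)‖ ≤ (∑ i ∈ s, ‖u i - v i‖) * M ^ s.card := by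
      rcases s.eq_empty_or_nonempty with rfl | hs
      · simp
      · rw [norm_mul]
        have hc : 1 ≤ s.card := card_pos.2 hs
        calc ‖v j‖ * ‖∏ i ∈ s, u i - ∏ i ∈ s, v i‖
            ≤ M * ((∑ i ∈ s, ‖u i - v i‖) * M ^ (s.card - 1)) :=
              mul_le_mul (hv j (mem_insert_self _ _)) ih (norm_nonneg _) hM
          _ = (∑ i ∈ s, ‖u i - v i‖) * M ^ (s.card - 1 + 1) := by ring
          _ = (∑ i ∈ s, ‖u i - v i‖) * M ^ s.card := by rw [Nat.sub_add_cancel hc]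
    rw [e]
    calc ‖(u j - v j) * ∏ i ∈ s, u i + v j * (∏ i ∈ s, u i - ∏ i ∈ s, v i)‖
        ≤ ‖(u j - v j) * ∏ i ∈ s, u i‖ + ‖v j * (∏ i ∈ s, u i - ∏ i ∈ s, v i)‖ := norm_add_le _ _
      _ ≤ ‖u j - v j‖ * M ^ s.card + (∑ i ∈ s, ‖u i - v i‖) * M ^ s.card := by
          refine add_le_add ?_ h2
          rw [norm_mul]
          exact mul_le_mul_of_nonneg_left h1 (norm_nonneg _)
      _ = (‖u j - v j‖ + ∑ i ∈ s, ‖u i - v i‖) * M ^ s.card := by ring

end ZJ

open ZJ

theorem arch (t : ℕ) (ht : 2 ≤ t) : ∃ C : ℝ, 0 < C ∧ ∀ (a b : ℂ) (N : ℕ), 1 ≤ N →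
    ‖(∑ x ∈ Fintype.piFinset (fun _ : Fin t => range (N + 1)),
      if (∑ i, x i = N ∧ ∀ i, x i ≠ 0) then ∏ i, (a * Real.log (x i) + b) else 0) -
      a ^ t * (N : ℂ) ^ (t - 1) * ((Real.log N : ℝ) : ℂ) ^ t / ((t - 1).factorial : ℂ)‖ ≤
      C * (‖a‖ + ‖b‖) ^ t * (N : ℝ) ^ (t - 1) * (1 + Real.log N) ^ (t - 1) := by
  obtain ⟨k, rfl⟩ := Nat.exists_eq_add_of_le' ht
  refine ⟨((k : ℝ) + 2) * 2 + ((k : ℝ) + 1) ^ 2, by positivity, fun a b N hN => ?_⟩
  have hN1 : (1 : ℝ) ≤ N := by exact_mod_cast hN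
  have hN0 : (0 : ℝ) < N := by linarith
  have hL0 : 0 ≤ Real.log N := Real.log_nonneg hN1
  have hLN : Real.log N ≤ N := (Real.log_le_sub_one_of_pos hN0).trans (by linarith)
  set L : ℝ := Real.log N with hL
  set A : ℝ := ‖a‖ + ‖b‖ with hA
  have hA0 : 0 ≤ A := by positivity
  have haA : ‖a‖ ≤ A := by rw [hA]; linarith [norm_nonneg b]
  have hbA : ‖b‖ ≤ A := by rw [hA]; linarith [norm_nonneg a]
  rw [show k + 2 - 1 = k + 1 by rfl, ← sum_filter]
  change ‖∑ x ∈ cset (k + 2) N, ∏ i, (a * Real.log (x i) + b) - _‖ ≤ _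
  have e : ∑ x ∈ cset (k + 2) N, ∏ i, (a * ((Real.log (x i) : ℝ) : ℂ) + b) -
      a ^ (k + 2) * (N : ℂ) ^ (k + 1) * ((L : ℝ) : ℂ) ^ (k + 2) / ((k + 1).factorial : ℂ) =
      ∑ x ∈ cset (k + 2) N, (∏ i, (a * ((Real.log (x i) : ℝ) : ℂ) + b) - ∏ _i : Fin (k + 2), (a * (L : ℂ))) +
      (a * (L : ℂ)) ^ (k + 2) *
        ((((cset (k + 2) N).card : ℝ) - (N : ℝ) ^ (k + 1) / ((k + 1).factorial : ℝ) : ℝ) : ℂ) := by
    rw [sum_sub_distrib, sum_const, prod_const, card_univ, Fintype.card_fin, nsmul_eq_mul]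
    push_cast
    ring
  rw [e]
  refine (norm_add_le _ _).trans ?_
  -- the second term
  have h2 : ‖(a * (L : ℂ)) ^ (k + 2) *
        ((((cset (k + 2) N).card : ℝ) - (N : ℝ) ^ (k + 1) / ((k + 1).factorial : ℝ) : ℝ) : ℂ)‖ ≤
      ((k : ℝ) + 1) ^ 2 * A ^ (k + 2) * (N : ℝ) ^ (k + 1) * (1 + L) ^ (k + 1) := by
    rw [norm_mul, norm_pow, norm_mul, Complex.norm_real, Complex.norm_real, Real.norm_of_nonneg hL0,
      Real.norm_eq_abs]
    calc (‖a‖ * L) ^ (k + 2) *
          |((cset (k + 2) N).card : ℝ) - (N : ℝ) ^ (k + 1) / ((k + 1).factorial : ℝ)|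
        ≤ (A * L) ^ (k + 2) * (((k : ℝ) + 1) ^ 2 * (N : ℝ) ^ k) := by
          refine mul_le_mul ?_ (card_approx k N hN) (abs_nonneg _) (by positivity)
          exact pow_le_pow_left₀ (by positivity) (mul_le_mul_of_nonneg_right haA hL0) _
      _ = ((k : ℝ) + 1) ^ 2 * A ^ (k + 2) * (N : ℝ) ^ k * (L ^ (k + 1) * L) := by ring
      _ ≤ ((k : ℝ) + 1) ^ 2 * A ^ (k + 2) * (N : ℝ) ^ k * ((1 + L) ^ (k + 1) * N) := by
          refine mul_le_mul_of_nonneg_left ?_ (by positivity)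
          refine mul_le_mul ?_ hLN hL0 (by positivity)
          exact pow_le_pow_left₀ hL0 (by linarith) _
      _ = ((k : ℝ) + 1) ^ 2 * A ^ (k + 2) * (N : ℝ) ^ (k + 1) * (1 + L) ^ (k + 1) := by ring
  -- the first term
  have h1 : ‖∑ x ∈ cset (k + 2) N, (∏ i, (a * ((Real.log (x i) : ℝ) : ℂ) + b) -
      ∏ _i : Fin (k + 2), (a * (L : ℂ)))‖ ≤
      ((k : ℝ) + 2) * 2 * A ^ (k + 2) * (N : ℝ) ^ (k + 1) * (1 + L) ^ (k + 1) := by
    have hterm : ∀ x ∈ cset (k + 2) N, ‖∏ i, (a * ((Real.log (x i) : ℝ) : ℂ) + b) -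
        ∏ _i : Fin (k + 2), (a * (L : ℂ))‖ ≤
        (∑ i, A * (1 + L - Real.log (x i))) * (A * (1 + L)) ^ (k + 1) := by
      intro x hx
      have hxp : ∀ i, 0 ≤ Real.log (x i) ∧ Real.log (x i) ≤ L := by
        intro i
        have h3 := le_of_mem hx i
        rw [mem_cset] at hx
        have h4 : 1 ≤ x i := Nat.one_le_iff_ne_zero.2 (hx.2 i)
        exact ⟨Real.log_nonneg (by exact_mod_cast h4),
          Real.log_le_log (by exact_mod_cast h4) (by exact_mod_cast h3)⟩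
      have hM : 0 ≤ A * (1 + L) := by positivity
      have h5 := prod_diff (univ : Finset (Fin (k + 2))) (fun i => a * ((Real.log (x i) : ℝ) : ℂ) + b)
        (fun _ => a * (L : ℂ)) (A * (1 + L)) hM ?_ ?_
      · rw [card_univ, Fintype.card_fin, show k + 2 - 1 = k + 1 by rfl] at h5
        refine h5.trans (mul_le_mul_of_nonneg_right ?_ (by positivity))
        refine sum_le_sum fun i _ => ?_
        have e2 : a * ((Real.log (x i) : ℝ) : ℂ) + b - a * (L : ℂ) =
            b - a * ((L - Real.log (x i) : ℝ) : ℂ) := by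
          push_cast
          ring
        rw [e2]
        refine (norm_sub_le _ _).trans ?_
        rw [norm_mul, Complex.norm_real, Real.norm_of_nonneg (by linarith [(hxp i).2])]
        have h6 : 0 ≤ L - Real.log (x i) := by linarith [(hxp i).2]
        have h7 := mul_le_mul_of_nonneg_right haA h6
        have h8 : A * (1 + L - Real.log (x i)) = A + A * (L - Real.log (x i)) := by ring
        rw [h8]
        linarith
      · intro i _
        refine (norm_add_le _ _).trans ?_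
        rw [norm_mul, Complex.norm_real, Real.norm_of_nonneg (hxp i).1]
        have h7 := mul_le_mul haA (hxp i).2 (hxp i).1 hA0
        have h8 : A * (1 + L) = A + A * L := by ring
        rw [h8]
        linarith
      · intro i _
        rw [norm_mul, Complex.norm_real, Real.norm_of_nonneg hL0]
        exact mul_le_mul haA (by linarith) hL0 hA0
    calc ‖∑ x ∈ cset (k + 2) N, (∏ i, (a * ((Real.log (x i) : ℝ) : ℂ) + b) -
          ∏ _i : Fin (k + 2), (a * (L : ℂ)))‖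
        ≤ ∑ x ∈ cset (k + 2) N, (∑ i, A * (1 + L - Real.log (x i))) * (A * (1 + L)) ^ (k + 1) :=
          (norm_sum_le _ _).trans (sum_le_sum hterm)
      _ = A * (A * (1 + L)) ^ (k + 1) *
          ∑ i : Fin (k + 2), ∑ x ∈ cset (k + 2) N, (1 + L - Real.log (x i)) := by
          rw [← sum_mul, sum_comm]
          have e3 : ∑ i : Fin (k + 2), ∑ x ∈ cset (k + 2) N, A * (1 + L - Real.log (x i)) =
              A * ∑ i : Fin (k + 2), ∑ x ∈ cset (k + 2) N, (1 + L - Real.log (x i)) := by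
            rw [mul_sum]
            exact sum_congr rfl fun i _ => by rw [mul_sum]
          rw [e3]
          ring
      _ = A * (A * (1 + L)) ^ (k + 1) *
          (((k : ℝ) + 2) * ∑ x ∈ cset (k + 2) N, (1 + L - Real.log (x 0))) := by
          congr 1
          rw [sum_congr rfl fun i _ => sum_symm (k + 1) N i (fun m => 1 + L - Real.log m), sum_const,
            card_univ, Fintype.card_fin, nsmul_eq_mul]
          push_cast
          ring
      _ ≤ A * (A * (1 + L)) ^ (k + 1) * (((k : ℝ) + 2) * (2 * (N : ℝ) ^ (k + 1))) := by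
          refine mul_le_mul_of_nonneg_left ?_ (by positivity)
          exact mul_le_mul_of_nonneg_left (one_sum k N) (by positivity)
      _ = ((k : ℝ) + 2) * 2 * A ^ (k + 2) * (N : ℝ) ^ (k + 1) * (1 + L) ^ (k + 1) := by
          rw [mul_pow]
          ring
  calc _ ≤ ((k : ℝ) + 2) * 2 * A ^ (k + 2) * (N : ℝ) ^ (k + 1) * (1 + L) ^ (k + 1) +
        ((k : ℝ) + 1) ^ 2 * A ^ (k + 2) * (N : ℝ) ^ (k + 1) * (1 + L) ^ (k + 1) := add_le_add h1 h2
    _ = _ := by ring

end

end Pool.Agent.J4.H39.CM
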