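import Pool.Agent.J4.H39.CM.Ser
import Pool.Agent.J4.H39.CM.Zj

set_option autoImplicit false

/-!
Project CM (helper39), third part: the leading term of the sums over `q_1 + … + q_t = N`.
-/

namespace Pool.Agent.J4.H39.CM

open Complex Finset Filter Topology
open Pool.Agent.N879.QM
open Pool.Agent.N879.QM.Avg (fam)

noncomputable section

/-- the leading term without the singular series -/
def KN (t N : ℕ) : ℂ := (N : ℂ) ^ (t - 1) * ((Real.log N : ℝ) : ℂ) ^ t / ((t - 1).factorial : ℂ)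

lemma MTb_lead (s : ℤ) (hs : s = 1 ∨ s = -1) (B : Fin 4 → ℝ) (t : ℕ) (ht : 3 ≤ t) : ∃ C : ℝ, 0 < C ∧
    ∀ N b : ℕ, 1 ≤ N → ‖MTb s B t N b - Sb s t N b * KN t N‖ ≤
      C * (N : ℝ) ^ (t - 1) * (1 + Real.log N) ^ (t - 1) * (b : ℝ) ^ (-(7 / 4 : ℝ)) := by
  have htR : (3 : ℝ) ≤ t := by exact_mod_cast ht
  obtain ⟨C, hC, h⟩ := c_bd s hs B (1 / (4 * t)) (by positivity)
  obtain ⟨C1, hC1, h1⟩ := arch t (by omega)
  refine ⟨C1 * C ^ t, by positivity, fun N b hN => ?_⟩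
  have hNR : (1 : ℝ) ≤ N := by exact_mod_cast hN
  have hlN : 0 ≤ Real.log N := Real.log_nonneg hNR
  rcases Nat.eq_zero_or_pos b with hb | hb
  · subst hb
    have e1 : MTb s B t N 0 = 0 := by
      unfold MTb
      simp
    rw [e1, Sb_eq, Sg_zero, zero_mul, sub_zero, norm_zero]
    positivity
  have hbR : (1 : ℝ) ≤ b := by exact_mod_cast hb
  have hb0 : (0 : ℝ) < b := by linarith
  have e1 : MTb s B t N b - Sb s t N b * KN t N =
      ∑ a ∈ (range b).filter (fun a => a.Coprime b), e ((((a : ℚ) / b : ℚ) : ℝ) * N) *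
        (J s B t ((a : ℚ) / b) N - c1 s ((a : ℚ) / b) ^ t * (N : ℂ) ^ (t - 1) *
          ((Real.log N : ℝ) : ℂ) ^ t / ((t - 1).factorial : ℂ)) := by
    unfold MTb Sb KN
    rw [sum_mul, ← sum_sub_distrib]
    refine sum_congr rfl fun a _ => ?_
    ring
  rw [e1]
  have h2 : ∀ a ∈ (range b).filter (fun a => a.Coprime b),
      ‖e ((((a : ℚ) / b : ℚ) : ℝ) * N) *
        (J s B t ((a : ℚ) / b) N - c1 s ((a : ℚ) / b) ^ t * (N : ℂ) ^ (t - 1) *
          ((Real.log N : ℝ) : ℂ) ^ t / ((t - 1).factorial : ℂ))‖ ≤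
      C1 * (C * (b : ℝ) ^ (-1 + 1 / (4 * t : ℝ))) ^ t * (N : ℝ) ^ (t - 1) * (1 + Real.log N) ^ (t - 1) := by
    intro a ha
    rw [mem_filter] at ha
    rw [norm_mul, e_norm, one_mul]
    refine (h1 _ _ N hN).trans ?_
    refine mul_le_mul_of_nonneg_right (mul_le_mul_of_nonneg_right ?_ (by positivity)) (by positivity)
    refine mul_le_mul_of_nonneg_left ?_ hC1.le
    refine pow_le_pow_left₀ (by positivity) ?_ t
    have h4 := h ((a : ℚ) / b)
    rw [den_ab hb ha.2] at h4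
    exact h4
  refine (norm_sum_le _ _).trans ((sum_le_sum h2).trans ?_)
  rw [sum_const, nsmul_eq_mul]
  have h5 : (((range b).filter (fun a => a.Coprime b)).card : ℝ) ≤ b := by
    have : ((range b).filter (fun a => a.Coprime b)).card ≤ b := by
      refine (card_filter_le _ _).trans ?_
      rw [card_range]
    exact_mod_cast this
  have h4 : (b : ℝ) * ((b : ℝ) ^ (-1 + 1 / (4 * t : ℝ))) ^ t ≤ (b : ℝ) ^ (-(7 / 4 : ℝ)) := by
    rw [← Real.rpow_natCast, ← Real.rpow_mul hb0.le]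
    nth_rewrite 1 [← Real.rpow_one (b : ℝ)]
    rw [← Real.rpow_add hb0]
    refine Real.rpow_le_rpow_of_exponent_le hbR ?_
    have : (-1 + 1 / (4 * t : ℝ)) * t = -t + 1 / 4 := by
      field_simp
    rw [this]
    linarith
  calc (((range b).filter (fun a => a.Coprime b)).card : ℝ) *
        (C1 * (C * (b : ℝ) ^ (-1 + 1 / (4 * t : ℝ))) ^ t * (N : ℝ) ^ (t - 1) * (1 + Real.log N) ^ (t - 1)) ≤
        b * (C1 * (C * (b : ℝ) ^ (-1 + 1 / (4 * t : ℝ))) ^ t * (N : ℝ) ^ (t - 1) * (1 + Real.log N) ^ (t - 1)) :=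
        mul_le_mul_of_nonneg_right h5 (by positivity)
    _ = C1 * C ^ t * (N : ℝ) ^ (t - 1) * (1 + Real.log N) ^ (t - 1) *
        (b * ((b : ℝ) ^ (-1 + 1 / (4 * t : ℝ))) ^ t) := by
        rw [mul_pow]
        ring
    _ ≤ _ := mul_le_mul_of_nonneg_left h4 (by positivity)

/-- the main term and the leading term -/
theorem MT_lead (s : ℤ) (hs : s = 1 ∨ s = -1) (B : Fin 4 → ℝ) (t : ℕ) (ht : 3 ≤ t) : ∃ C : ℝ, 0 < C ∧
    ∀ N : ℕ, 1 ≤ N → ‖MT s B t N - SN s t N * KN t N‖ ≤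
      C * (N : ℝ) ^ (t - 1) * (1 + Real.log N) ^ (t - 1) := by
  obtain ⟨C, hC, h⟩ := MTb_lead s hs B t ht
  refine ⟨C * (1 + ∑' b : ℕ, (b : ℝ) ^ (-(7 / 4 : ℝ))), ?_, fun N hN => ?_⟩
  · have : 0 ≤ ∑' b : ℕ, (b : ℝ) ^ (-(7 / 4 : ℝ)) := tsum_nonneg fun b => by positivity
    positivity
  have hNR : (1 : ℝ) ≤ N := by exact_mod_cast hN
  have hlN : 0 ≤ Real.log N := Real.log_nonneg hNR
  have a1 : Summable (fun b => MTb s B t N b) := (MT_summable s hs B t ht N hN).of_norm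
  have a2 : Summable (fun b => Sb s t N b * KN t N) := ((SN_summable s hs t ht N).of_norm).mul_right _
  have e1 : MT s B t N - SN s t N * KN t N = ∑' b : ℕ, (MTb s B t N b - Sb s t N b * KN t N) := by
    unfold MT SN
    rw [← tsum_mul_right, a1.tsum_sub a2]
  rw [e1]
  refine (tsum_of_norm_bounded (sum74.mul_left (C * (N : ℝ) ^ (t - 1) * (1 + Real.log N) ^ (t - 1))).hasSum
    (fun b => h N b hN)).trans ?_
  rw [tsum_mul_left]
  have : (0 : ℝ) ≤ C * (N : ℝ) ^ (t - 1) * (1 + Real.log N) ^ (t - 1) := by positivity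
  nlinarith

/-- the leading asymptotics -/
theorem lead (s : ℤ) (hs : s = 1 ∨ s = -1) (B : Fin 4 → ℝ) (hB : Good s B) (t : ℕ) (ht : 3 ≤ t) : ∃ C : ℝ, 0 < C ∧
    ∀ N : ℕ, 1 ≤ N →
    ‖(∑ q ∈ Fintype.piFinset (fun _ : Fin t => range (N + 1)),
      if ∑ i, q i = N then ∏ i, L1 s (q i) else 0) - SN s t N * KN t N‖ ≤
      C * (N : ℝ) ^ (t - 1) * (1 + Real.log N) ^ (t - 1) := by
  obtain ⟨C1, hC1, h1⟩ := lin_one s hs B hB t ht
  obtain ⟨C2, hC2, h2⟩ := MT_lead s hs B t ht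
  refine ⟨C1 + C2, by positivity, fun N hN => ?_⟩
  have hNR : (1 : ℝ) ≤ N := by exact_mod_cast hN
  have hlN : 0 ≤ Real.log N := Real.log_nonneg hNR
  have hd := dt_pos t
  have e1 : (N : ℝ) ^ ((t : ℝ) - 1 - dt t) ≤ (N : ℝ) ^ (t - 1) := by
    rw [← Real.rpow_natCast, Nat.cast_sub (by omega)]
    refine Real.rpow_le_rpow_of_exponent_le hNR ?_
    push_cast
    linarith
  have e2 : (1 : ℝ) ≤ (1 + Real.log N) ^ (t - 1) := one_le_pow₀ (by linarith)
  have e3 : C1 * (N : ℝ) ^ ((t : ℝ) - 1 - dt t) ≤ C1 * (N : ℝ) ^ (t - 1) * (1 + Real.log N) ^ (t - 1) := by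
    calc C1 * (N : ℝ) ^ ((t : ℝ) - 1 - dt t) ≤ C1 * (N : ℝ) ^ (t - 1) := mul_le_mul_of_nonneg_left e1 hC1.le
      _ ≤ _ := le_mul_of_one_le_right (by positivity) e2
  have h3 := h1 N hN
  have h4 := h2 N hN
  set F := ∑ q ∈ Fintype.piFinset (fun _ : Fin t => range (N + 1)),
      if ∑ i, q i = N then ∏ i, L1 s (q i) else 0 with hF
  have e0 : F - SN s t N * KN t N = (F - MT s B t N) + (MT s B t N - SN s t N * KN t N) := by ring
  rw [e0]
  refine (norm_add_le _ _).trans ?_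
  calc ‖F - MT s B t N‖ + ‖MT s B t N - SN s t N * KN t N‖ ≤
        C1 * (N : ℝ) ^ (t - 1) * (1 + Real.log N) ^ (t - 1) + C2 * (N : ℝ) ^ (t - 1) * (1 + Real.log N) ^ (t - 1) :=
        add_le_add (h3.trans e3) h4
    _ = _ := by ring

/-- every large `N` is a sum of `t` conductors with non-vanishing central value -/
theorem nonvan (s : ℤ) (hs : s = 1 ∨ s = -1) (B : Fin 4 → ℝ) (hB : Good s B) (t : ℕ) (ht : 3 ≤ t) :
    ∀ᶠ N : ℕ in atTop, ∃ q : Fin t → ℕ, ∑ i, q i = N ∧ ∀ i, L1 s (q i) ≠ 0 := by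
  obtain ⟨C, hC, h⟩ := lead s hs B hB t ht
  obtain ⟨c, hc, hc'⟩ := SN_low s hs t ht
  have hlog : Tendsto (fun N : ℕ => Real.log N) atTop atTop :=
    Real.tendsto_log_atTop.comp tendsto_natCast_atTop_atTop
  filter_upwards [hlog.eventually_ge_atTop (max 1 (C * 2 ^ (t - 1) * (t - 1).factorial / c + 1)),
    eventually_ge_atTop 1] with N hN hN1
  by_contra hcon
  push Not at hcon
  have h0 : ∑ q ∈ Fintype.piFinset (fun _ : Fin t => range (N + 1)),
      (if ∑ i, q i = N then ∏ i, L1 s (q i) else 0) = 0 := by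
    refine sum_eq_zero fun q _ => ?_
    split_ifs with h1
    · obtain ⟨i, hi⟩ := hcon q h1
      exact prod_eq_zero (mem_univ i) hi
    · rfl
  have h1 := h N hN1
  rw [h0, zero_sub, norm_neg, norm_mul] at h1
  have hNR : (1 : ℝ) ≤ N := by exact_mod_cast hN1
  have hl1 : 1 ≤ Real.log N := (le_max_left _ _).trans hN
  have hl2 : C * 2 ^ (t - 1) * (t - 1).factorial / c + 1 ≤ Real.log N := (le_max_right _ _).trans hN
  have hf : (0 : ℝ) < (t - 1).factorial := by exact_mod_cast Nat.factorial_pos _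
  have h2 : c ≤ ‖SN s t N‖ := by
    have := (hc' N).1
    exact this.trans ((le_abs_self _).trans (Complex.abs_re_le_norm _))
  have h3 : ‖KN t N‖ = (N : ℝ) ^ (t - 1) * Real.log N ^ t / (t - 1).factorial := by
    unfold KN
    rw [norm_div, norm_mul, norm_pow, norm_pow, Complex.norm_natCast, Complex.norm_natCast,
      Complex.norm_real, Real.norm_eq_abs, abs_of_nonneg (by linarith)]
  rw [h3] at h1
  have hNp : (0 : ℝ) < (N : ℝ) ^ (t - 1) := by positivity
  have hlp : (0 : ℝ) < Real.log N ^ (t - 1) := by positivity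
  have h4 : (1 + Real.log N) ^ (t - 1) ≤ 2 ^ (t - 1) * Real.log N ^ (t - 1) := by
    rw [← mul_pow]
    exact pow_le_pow_left₀ (by linarith) (by linarith) _
  have h5 : c * ((N : ℝ) ^ (t - 1) * Real.log N ^ t / (t - 1).factorial) ≤
      C * (N : ℝ) ^ (t - 1) * (2 ^ (t - 1) * Real.log N ^ (t - 1)) := by
    calc _ ≤ ‖SN s t N‖ * ((N : ℝ) ^ (t - 1) * Real.log N ^ t / (t - 1).factorial) :=
          mul_le_mul_of_nonneg_right h2 (by positivity)
      _ ≤ _ := h1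
      _ ≤ _ := mul_le_mul_of_nonneg_left h4 (by positivity)
  have h6 : Real.log N ^ t = Real.log N ^ (t - 1) * Real.log N := by
    rw [← pow_succ]
    congr 1
    omega
  rw [h6] at h5
  have h7 : c * Real.log N ≤ C * 2 ^ (t - 1) * (t - 1).factorial := by
    have e1 : c * ((N : ℝ) ^ (t - 1) * (Real.log N ^ (t - 1) * Real.log N) / (t - 1).factorial) =
        (c * Real.log N / (t - 1).factorial) * ((N : ℝ) ^ (t - 1) * Real.log N ^ (t - 1)) := by
      field_simp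
    have e2 : C * (N : ℝ) ^ (t - 1) * (2 ^ (t - 1) * Real.log N ^ (t - 1)) =
        (C * 2 ^ (t - 1)) * ((N : ℝ) ^ (t - 1) * Real.log N ^ (t - 1)) := by ring
    rw [e1, e2] at h5
    have h8 := le_of_mul_le_mul_right h5 (by positivity)
    rwa [div_le_iff₀ hf] at h8
  have h8 : C * 2 ^ (t - 1) * (t - 1).factorial + c ≤ c * Real.log N := by
    have := mul_le_mul_of_nonneg_left hl2 hc.le
    have e1 : c * (C * 2 ^ (t - 1) * (t - 1).factorial / c + 1) = C * 2 ^ (t - 1) * (t - 1).factorial + c := by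
      field_simp
    rwa [e1] at this
  linarith

end

end Pool.Agent.J4.H39.CM
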