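import Pool.Agent.J4.H39.CM.Tw

set_option autoImplicit false

/-!
Project CM (helper39): correlations, sumsets, irrational frequencies.
-/

namespace Pool.Agent.J4.H39.CM

open Complex Finset
open Pool.Agent.N879.QM
open Pool.Agent.N879.QM.Avg (fam)

noncomputable section

/-- `⌊N^(1/m)⌋` -/
def cut (m N : ℕ) : ℕ := ⌊(N : ℝ) ^ (1 / (m : ℝ))⌋₊

lemma cut_spec (m : ℕ) (hm : 1 ≤ m) (N : ℕ) (hN : 1 ≤ N) : 1 ≤ cut m N ∧ cut m N ^ m ≤ N ∧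
    ((cut m N : ℕ) : ℝ) ^ (-(3 / 4 : ℝ)) ≤ 2 * (N : ℝ) ^ (-(3 / (4 * m : ℝ))) := by
  have hNR : (1 : ℝ) ≤ N := by exact_mod_cast hN
  have hmR : (1 : ℝ) ≤ m := by exact_mod_cast hm
  set x : ℝ := (N : ℝ) ^ (1 / (m : ℝ)) with hx
  have hx1 : 1 ≤ x := Real.one_le_rpow hNR (by positivity)
  have hxm : x ^ m = N := by
    rw [hx, ← Real.rpow_natCast, ← Real.rpow_mul (by linarith)]
    rw [one_div, inv_mul_cancel₀ (by linarith), Real.rpow_one]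
  have hc : cut m N = ⌊x⌋₊ := rfl
  rw [hc]
  have hW1 : 1 ≤ ⌊x⌋₊ := Nat.le_floor (by exact_mod_cast hx1)
  refine ⟨hW1, ?_, ?_⟩
  · have h1 : ((⌊x⌋₊ : ℕ) : ℝ) ≤ x := Nat.floor_le (by linarith)
    have h2 : ((⌊x⌋₊ : ℕ) : ℝ) ^ m ≤ x ^ m := pow_le_pow_left₀ (by positivity) h1 m
    rw [hxm] at h2
    exact_mod_cast h2
  · have h1 : x < ⌊x⌋₊ + 1 := Nat.lt_floor_add_one x
    have h2 : (1 : ℝ) ≤ ⌊x⌋₊ := by exact_mod_cast hW1
    have h3 : x / 2 ≤ ⌊x⌋₊ := by linarith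
    calc ((⌊x⌋₊ : ℕ) : ℝ) ^ (-(3 / 4 : ℝ)) ≤ (x / 2) ^ (-(3 / 4 : ℝ)) :=
          Real.rpow_le_rpow_of_nonpos (by positivity) h3 (by norm_num)
      _ = 2 ^ (3 / 4 : ℝ) * x ^ (-(3 / 4 : ℝ)) := by
          rw [Real.div_rpow (by linarith) (by norm_num), Real.rpow_neg (by norm_num : (0 : ℝ) ≤ 2)]
          rw [div_inv_eq_mul]
          ring
      _ ≤ 2 * x ^ (-(3 / 4 : ℝ)) := by
          refine mul_le_mul_of_nonneg_right ?_ (by positivity)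
          calc (2 : ℝ) ^ (3 / 4 : ℝ) ≤ 2 ^ (1 : ℝ) :=
                Real.rpow_le_rpow_of_exponent_le (by norm_num) (by norm_num)
            _ = 2 := Real.rpow_one _
      _ = _ := by
          rw [hx, ← Real.rpow_mul (by linarith)]
          congr 2
          field_simp

/-- the Fourier bound with an explicit cut -/
theorem fourier (s : ℤ) (hs : s = 1 ∨ s = -1) (B : Fin 4 → ℝ) (hB : Good s B) (m : ℕ) (hm : 4096 ≤ m) :
    ∃ C : ℝ, 0 < C ∧ ∀ (N : ℕ) (α : ℝ), 1 ≤ N →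
    ‖∑ q ∈ range (N + 1), (L1 s q - Gm (Fr (cut m N)) (c1 s) (c0 s B) q) * e (α * q)‖ ≤
      C * (N : ℝ) ^ (1 - 1 / (2 * m : ℝ)) := by
  obtain ⟨C, hC, h⟩ := msup' s hs B hB m hm
  refine ⟨C, hC, fun N α hN => ?_⟩
  obtain ⟨h1, h2, h3⟩ := cut_spec m (by omega) N hN
  exact h N (cut m N) α hN h1 h2 h3

lemma L1_real (s : ℤ) (hs : s = 1 ∨ s = -1) (q : ℕ) : (starRingEnd ℂ) (L1 s q) = L1 s q := by
  unfold L1
  split_ifs with h
  · obtain ⟨h2, χ, hχ⟩ := h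
    obtain ⟨i, d, a1, a2, a3⟩ := Pool.Agent.N879.QM.Avg.fam_surj s q h2 χ hχ
    rw [a3, (LL_fam hs (fam s i) (Pool.Agent.N879.QM.Avg.fam_mem s i) d a1 a2).2, Complex.conj_ofReal]
  · simp

lemma e_conj (x : ℝ) : (starRingEnd ℂ) (e x) = e (-x) := by
  unfold e
  rw [← Complex.exp_conj]
  congr 1
  simp only [map_mul, Complex.conj_ofReal, Complex.conj_I, map_ofNat]
  push_cast
  ring

/-- the correlations of `L(1/2, χ)`, mean square over the shifts -/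
theorem corr_sq (s : ℤ) (hs : s = 1 ∨ s = -1) (B : Fin 4 → ℝ) (hB : Good s B) :
    ∃ C : ℝ, 0 < C ∧ ∀ N : ℕ, 1 ≤ N →
    ∑ h ∈ Icc 1 N, ‖(∑ q ∈ Icc 1 (N - h), L1 s q * L1 s (q + h)) -
      ∑ q ∈ Icc 1 (N - h), Gm (Fr (cut 4096 N)) (c1 s) (c0 s B) q *
        (starRingEnd ℂ) (Gm (Fr (cut 4096 N)) (c1 s) (c0 s B) (q + h))‖ ^ 2 ≤
      C * (N : ℝ) ^ (3 - 1 / 8192 : ℝ) := by
  obtain ⟨C1, hC1, h1⟩ := fourier s hs B hB 4096 le_rfl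
  obtain ⟨C2, hC2, h2⟩ := l1sq (1 / 8192) (by norm_num)
  obtain ⟨C3, hC3, h3⟩ := gmsq s hs B (1 / 8192) (by norm_num)
  refine ⟨4 * C1 ^ 2 * (C2 + C3), by positivity, fun N hN => ?_⟩
  have hNR : (1 : ℝ) ≤ N := by exact_mod_cast hN
  have hN0 : (0 : ℝ) < N := by linarith
  obtain ⟨w1, w2, w3⟩ := cut_spec 4096 (by norm_num) N hN
  set G : ℕ → ℂ := Gm (Fr (cut 4096 N)) (c1 s) (c0 s B) with hG
  have hG0 : G 0 = 0 := by
    rw [hG]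
    unfold Gm
    simp
  set f : Fin 2 → ℕ → ℂ := ![L1 s, fun q => (starRingEnd ℂ) (L1 s q)] with hf
  set g : Fin 2 → ℕ → ℂ := ![G, fun q => (starRingEnd ℂ) (G q)] with hg
  set M : ℝ := C1 * (N : ℝ) ^ (1 - 1 / (2 * (4096 : ℕ) : ℝ)) with hM
  set T : ℝ := (C2 + C3) * (N : ℝ) ^ (1 + 1 / 8192 : ℝ) with hT
  have hsup : ∀ i, ∀ α : ℝ, ‖∑ n ∈ range (N + 1), (f i n - g i n) * e (α * n)‖ ≤ M := by
    intro i α
    fin_cases i
    · exact h1 N α hN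
    · have e1 : ∑ n ∈ range (N + 1), (f 1 n - g 1 n) * e (α * n) =
          (starRingEnd ℂ) (∑ n ∈ range (N + 1), (L1 s n - G n) * e (-α * n)) := by
        rw [map_sum]
        refine sum_congr rfl fun n _ => ?_
        rw [map_mul, map_sub, e_conj]
        have : -(-α * (n : ℝ)) = α * n := by ring
        rw [this]
        rfl
      show ‖∑ n ∈ range (N + 1), (f 1 n - g 1 n) * e (α * n)‖ ≤ M
      rw [e1, Complex.norm_conj]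
      exact h1 N (-α) hN
  have hL2 : ∑ q ∈ range (N + 1), ‖L1 s q‖ ^ 2 ≤ T := by
    refine (h2 s N hs hN).trans ?_
    rw [hT]
    exact mul_le_mul_of_nonneg_right (by linarith) (by positivity)
  have hG2 : ∑ q ∈ range (N + 1), ‖G q‖ ^ 2 ≤ T := by
    refine (h3 N (cut 4096 N) hN w1 w2).trans ?_
    rw [hT]
    exact mul_le_mul_of_nonneg_right (by linarith) (by positivity)
  have hff : ∀ i, ∑ n ∈ range (N + 1), ‖f i n‖ ^ 2 ≤ T := by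
    intro i
    fin_cases i
    · exact hL2
    · show ∑ n ∈ range (N + 1), ‖(starRingEnd ℂ) (L1 s n)‖ ^ 2 ≤ T
      simp only [Complex.norm_conj]
      exact hL2
  have hgg : ∀ i, ∑ n ∈ range (N + 1), ‖g i n‖ ^ 2 ≤ T := by
    intro i
    fin_cases i
    · exact hG2
    · show ∑ n ∈ range (N + 1), ‖(starRingEnd ℂ) (G n)‖ ^ 2 ≤ T
      simp only [Complex.norm_conj]
      exact hG2
  have key := circ_binary (N + 1) ![-1, 1] (by intro i; fin_cases i <;> simp) f g M T hsup hff hgg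
    ((Icc 1 N).image (fun h : ℕ => (h : ℤ)))
  rw [sum_image (by intro a _ b _ hab; exact Int.ofNat.inj hab)] at key
  have hsum : ∀ h ∈ Icc 1 N, (∑ q ∈ Icc 1 (N - h), L1 s q * L1 s (q + h)) -
      ∑ q ∈ Icc 1 (N - h), G q * (starRingEnd ℂ) (G (q + h)) =
      ∑ q ∈ Fintype.piFinset (fun _ : Fin 2 => range (N + 1)),
        if ∑ i, (![-1, 1] : Fin 2 → ℤ) i * (q i : ℤ) = (h : ℤ) then ∏ i, f i (q i) - ∏ i, g i (q i) else 0 := by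
    intro h hh
    rw [mem_Icc] at hh
    rw [← sum_filter, ← sum_sub_distrib]
    have e0 : ∑ q ∈ Icc 1 (N - h), (L1 s q * L1 s (q + h) - G q * (starRingEnd ℂ) (G (q + h))) =
        ∑ q ∈ range (N + 1 - h), (L1 s q * L1 s (q + h) - G q * (starRingEnd ℂ) (G (q + h))) := by
      have : N + 1 - h = (N - h) + 1 := by omega
      rw [this, range_eq_Ico, sum_eq_sum_Ico_succ_bot (by omega), L1_zero, hG0, zero_mul, zero_mul,
        sub_zero, zero_add]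
      refine sum_congr ?_ fun _ _ => rfl
      ext a
      rw [mem_Ico, mem_Icc]
      omega
    rw [e0]
    refine sum_nbij' (fun q => ![q, q + h]) (fun q => q 0) ?_ ?_ ?_ ?_ ?_
    · intro q hq
      rw [mem_range] at hq
      rw [mem_filter, Fintype.mem_piFinset]
      refine ⟨fun i => ?_, ?_⟩
      · fin_cases i
        · show q ∈ range (N + 1)
          rw [mem_range]
          omega
        · show q + h ∈ range (N + 1)
          rw [mem_range]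
          omega
      · rw [Fin.sum_univ_two]
        show (-1 : ℤ) * (q : ℤ) + 1 * ((q + h : ℕ) : ℤ) = h
        push_cast
        ring
    · intro q hq
      rw [mem_filter, Fintype.mem_piFinset] at hq
      have a1 := mem_range.1 (hq.1 0)
      have a2 := mem_range.1 (hq.1 1)
      have a3 := hq.2
      rw [Fin.sum_univ_two] at a3
      have a4 : (-1 : ℤ) * (q 0 : ℤ) + 1 * (q 1 : ℤ) = h := a3
      show q 0 ∈ range (N + 1 - h)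
      rw [mem_range]
      omega
    · intro q _
      rfl
    · intro q hq
      rw [mem_filter, Fintype.mem_piFinset] at hq
      have a3 := hq.2
      rw [Fin.sum_univ_two] at a3
      have a4 : (-1 : ℤ) * (q 0 : ℤ) + 1 * (q 1 : ℤ) = h := a3
      funext i
      fin_cases i
      · rfl
      · show q 0 + h = q 1
        omega
    · intro q _
      rw [Fin.prod_univ_two, Fin.prod_univ_two]
      show L1 s q * L1 s (q + h) - G q * (starRingEnd ℂ) (G (q + h)) =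
        L1 s q * (starRingEnd ℂ) (L1 s (q + h)) - G q * (starRingEnd ℂ) (G (q + h))
      rw [L1_real s hs]
  have e2 : ∑ h ∈ Icc 1 N, ‖(∑ q ∈ Icc 1 (N - h), L1 s q * L1 s (q + h)) -
      ∑ q ∈ Icc 1 (N - h), G q * (starRingEnd ℂ) (G (q + h))‖ ^ 2 ≤ 4 * M ^ 2 * T := by
    refine le_trans (le_of_eq ?_) key
    exact sum_congr rfl fun h hh => by rw [hsum h hh]
  refine e2.trans (le_of_eq ?_)
  rw [hM, hT, mul_pow]
  have e3 : ((N : ℝ) ^ (1 - 1 / (2 * (4096 : ℕ) : ℝ))) ^ 2 * (N : ℝ) ^ (1 + 1 / 8192 : ℝ) =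
      (N : ℝ) ^ (3 - 1 / 8192 : ℝ) := by
    rw [← Real.rpow_natCast, ← Real.rpow_mul hN0.le, ← Real.rpow_add hN0]
    congr 1
    norm_num
  calc 4 * (C1 ^ 2 * ((N : ℝ) ^ (1 - 1 / (2 * (4096 : ℕ) : ℝ))) ^ 2) *
        ((C2 + C3) * (N : ℝ) ^ (1 + 1 / 8192 : ℝ)) =
        4 * C1 ^ 2 * (C2 + C3) * (((N : ℝ) ^ (1 - 1 / (2 * (4096 : ℕ) : ℝ))) ^ 2 *
          (N : ℝ) ^ (1 + 1 / 8192 : ℝ)) := by ring
    _ = _ := by rw [e3]

/-- the main term of the correlations -/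
def SS (s : ℤ) (B : Fin 4 → ℝ) (W N h : ℕ) : ℂ :=
  ∑ θ ∈ Fr W, e (-((θ : ℝ) * h)) * ∑ q ∈ Icc 1 (N - h), (c1 s θ * Real.log q + c0 s B θ) *
    (starRingEnd ℂ) (c1 s θ * Real.log ((q + h : ℕ) : ℝ) + c0 s B θ)

theorem corr_main (s : ℤ) (hs : s = 1 ∨ s = -1) (B : Fin 4 → ℝ) (hB : Good s B) :
    ∃ C : ℝ, 0 < C ∧ ∀ N : ℕ, 1 ≤ N →
    ∑ h ∈ Icc 1 N, ‖(∑ q ∈ Icc 1 (N - h), L1 s q * L1 s (q + h)) - SS s B (cut 4096 N) N h‖ ^ 2 ≤
      C * (N : ℝ) ^ (3 - 1 / 8192 : ℝ) := by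
  obtain ⟨C1, hC1, h1⟩ := corr_sq s hs B hB
  obtain ⟨C2, hC2, h2⟩ := shift2
  obtain ⟨C3, hC3, -, h3⟩ := K_bd s hs B
  obtain ⟨C4, hC4, h4⟩ := log_pow 2 (1 / 4) (by norm_num)
  refine ⟨2 * C1 + 2 * (C2 * C4 * C3 ^ 2) ^ 2, by positivity, fun N hN => ?_⟩
  have hNR : (1 : ℝ) ≤ N := by exact_mod_cast hN
  have hN0 : (0 : ℝ) < N := by linarith
  obtain ⟨w1, w2, w3⟩ := cut_spec 4096 (by norm_num) N hN
  set W := cut 4096 N with hW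
  have hWR : (1 : ℝ) ≤ W := by exact_mod_cast w1
  have hK1 : 1 ≤ C3 * (W : ℝ) ^ 2 := by
    have : 1 ≤ (W : ℝ) ^ 2 := one_le_pow₀ hWR
    nlinarith
  have hW6 : (W : ℝ) ^ 6 ≤ (N : ℝ) ^ (1 / 4 : ℝ) := by
    calc (W : ℝ) ^ 6 = ((W : ℝ) ^ 24) ^ (1 / 4 : ℝ) := by
          rw [← Real.rpow_natCast, ← Real.rpow_natCast, ← Real.rpow_mul (by linarith)]
          norm_num
      _ ≤ _ := by
          refine Real.rpow_le_rpow (by positivity) ?_ (by norm_num)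
          have : W ^ 24 ≤ W ^ 4096 := Nat.pow_le_pow_right w1 (by norm_num)
          exact_mod_cast this.trans w2
  have hE : ∀ h ∈ Icc 1 N, ‖(∑ q ∈ Icc 1 (N - h), Gm (Fr W) (c1 s) (c0 s B) q *
        (starRingEnd ℂ) (Gm (Fr W) (c1 s) (c0 s B) (q + h))) - SS s B W N h‖ ≤
      C2 * C4 * C3 ^ 2 * (N : ℝ) ^ (1 / 2 : ℝ) := by
    intro h hh
    rw [mem_Icc] at hh
    have a1 := h2 (Fr W) W N h (c1 s) (c0 s B) (C3 * (W : ℝ) ^ 2) hN w1 hK1 hh.2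
      (fun θ hθ => mem_Fr.1 hθ) (h3 W _ (Subset.refl _))
    refine a1.trans ?_
    calc C2 * (1 + Real.log N) ^ 2 * (W : ℝ) ^ 2 * (C3 * (W : ℝ) ^ 2) ^ 2 =
          C2 * C3 ^ 2 * ((1 + Real.log N) ^ 2 * (W : ℝ) ^ 6) := by ring
      _ ≤ C2 * C3 ^ 2 * ((C4 * (N : ℝ) ^ (1 / 4 : ℝ)) * (N : ℝ) ^ (1 / 4 : ℝ)) := by
          refine mul_le_mul_of_nonneg_left ?_ (by positivity)
          exact mul_le_mul (h4 N hN) hW6 (by positivity) (by positivity)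
      _ = C2 * C4 * C3 ^ 2 * ((N : ℝ) ^ (1 / 4 : ℝ) * (N : ℝ) ^ (1 / 4 : ℝ)) := by ring
      _ = _ := by
          rw [← Real.rpow_add hN0]
          norm_num
  have hT : ∀ h ∈ Icc 1 N, ‖(∑ q ∈ Icc 1 (N - h), L1 s q * L1 s (q + h)) - SS s B W N h‖ ^ 2 ≤
      2 * ‖(∑ q ∈ Icc 1 (N - h), L1 s q * L1 s (q + h)) -
        ∑ q ∈ Icc 1 (N - h), Gm (Fr W) (c1 s) (c0 s B) q *
          (starRingEnd ℂ) (Gm (Fr W) (c1 s) (c0 s B) (q + h))‖ ^ 2 +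
      2 * (C2 * C4 * C3 ^ 2 * (N : ℝ) ^ (1 / 2 : ℝ)) ^ 2 := by
    intro h hh
    have a1 := hE h hh
    set x := (∑ q ∈ Icc 1 (N - h), L1 s q * L1 s (q + h)) -
        ∑ q ∈ Icc 1 (N - h), Gm (Fr W) (c1 s) (c0 s B) q *
          (starRingEnd ℂ) (Gm (Fr W) (c1 s) (c0 s B) (q + h)) with hx
    set y := (∑ q ∈ Icc 1 (N - h), Gm (Fr W) (c1 s) (c0 s B) q *
        (starRingEnd ℂ) (Gm (Fr W) (c1 s) (c0 s B) (q + h))) - SS s B W N h with hy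
    have e1 : (∑ q ∈ Icc 1 (N - h), L1 s q * L1 s (q + h)) - SS s B W N h = x + y := by
      rw [hx, hy]
      ring
    rw [e1]
    have e2 : ‖x + y‖ ≤ ‖x‖ + C2 * C4 * C3 ^ 2 * (N : ℝ) ^ (1 / 2 : ℝ) :=
      (norm_add_le _ _).trans (by linarith)
    calc ‖x + y‖ ^ 2 ≤ (‖x‖ + C2 * C4 * C3 ^ 2 * (N : ℝ) ^ (1 / 2 : ℝ)) ^ 2 :=
          pow_le_pow_left₀ (norm_nonneg _) e2 2
      _ ≤ _ := by nlinarith [sq_nonneg (‖x‖ - C2 * C4 * C3 ^ 2 * (N : ℝ) ^ (1 / 2 : ℝ))]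
  refine (sum_le_sum hT).trans ?_
  rw [sum_add_distrib, ← mul_sum, sum_const, Nat.card_Icc, Nat.add_sub_cancel, nsmul_eq_mul]
  have e3 : (N : ℝ) * (2 * (C2 * C4 * C3 ^ 2 * (N : ℝ) ^ (1 / 2 : ℝ)) ^ 2) ≤
      2 * (C2 * C4 * C3 ^ 2) ^ 2 * (N : ℝ) ^ (3 - 1 / 8192 : ℝ) := by
    have f1 : ((N : ℝ) ^ (1 / 2 : ℝ)) ^ 2 = N := by
      rw [← Real.rpow_natCast, ← Real.rpow_mul hN0.le]
      norm_num
    have f2 : (N : ℝ) * N ≤ (N : ℝ) ^ (3 - 1 / 8192 : ℝ) := by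
      calc (N : ℝ) * N = (N : ℝ) ^ (2 : ℝ) := by
            rw [show (2 : ℝ) = ((2 : ℕ) : ℝ) by norm_num, Real.rpow_natCast]
            ring
        _ ≤ _ := Real.rpow_le_rpow_of_exponent_le hNR (by norm_num)
    calc (N : ℝ) * (2 * (C2 * C4 * C3 ^ 2 * (N : ℝ) ^ (1 / 2 : ℝ)) ^ 2) =
          2 * (C2 * C4 * C3 ^ 2) ^ 2 * (N * ((N : ℝ) ^ (1 / 2 : ℝ)) ^ 2) := by ring
      _ = 2 * (C2 * C4 * C3 ^ 2) ^ 2 * (N * N) := by rw [f1]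
      _ ≤ _ := mul_le_mul_of_nonneg_left f2 (by positivity)
  have e4 := h1 N hN
  calc _ ≤ 2 * (C1 * (N : ℝ) ^ (3 - 1 / 8192 : ℝ)) +
        2 * (C2 * C4 * C3 ^ 2) ^ 2 * (N : ℝ) ^ (3 - 1 / 8192 : ℝ) :=
        add_le_add (mul_le_mul_of_nonneg_left e4 (by norm_num)) e3
    _ = _ := by ring

/-- sumsets -/
theorem sumset (s : ℤ) (hs : s = 1 ∨ s = -1) (B : Fin 4 → ℝ) (hB : Good s B) (m : ℕ) (hm : 4096 ≤ m) :
    ∃ C : ℝ, 0 < C ∧ ∀ (N : ℕ) (A A' : Finset ℕ), 1 ≤ N → (∀ a ∈ A, ∀ b ∈ A', a + b ≤ N) →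
    ‖(∑ a ∈ A, ∑ b ∈ A', L1 s (a + b)) - ∑ a ∈ A, ∑ b ∈ A', Gm (Fr (cut m N)) (c1 s) (c0 s B) (a + b)‖ ≤
      C * (N : ℝ) ^ (1 - 1 / (2 * m : ℝ)) * √(A.card * A'.card) := by
  obtain ⟨C, hC, h⟩ := fourier s hs B hB m hm
  refine ⟨C, hC, fun N A A' hN hAA => ?_⟩
  have h1 := circ_sumset (N + 1) (fun q => L1 s q - Gm (Fr (cut m N)) (c1 s) (c0 s B) q)
    (C * (N : ℝ) ^ (1 - 1 / (2 * m : ℝ))) (fun α => h N α hN) A A' (fun a ha b hb => by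
      have := hAA a ha b hb
      omega)
  have h2 : (∑ a ∈ A, ∑ b ∈ A', L1 s (a + b)) -
      ∑ a ∈ A, ∑ b ∈ A', Gm (Fr (cut m N)) (c1 s) (c0 s B) (a + b) =
      ∑ a ∈ A, ∑ b ∈ A', (L1 s (a + b) - Gm (Fr (cut m N)) (c1 s) (c0 s B) (a + b)) := by
    rw [← sum_sub_distrib]
    refine sum_congr rfl fun a _ => ?_
    rw [← sum_sub_distrib]
  rw [h2]
  exact h1

end

end Pool.Agent.J4.H39.CM
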