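import Pool.Agent.J4.H39.CM.Def

set_option autoImplicit false

/-!
Project CM: sums over well spaced points, geometric sums.
-/

namespace Pool.Agent.J4.H39.CM

open Complex Filter Topology MeasureTheory Set

noncomputable section

/-- distance to the nearest integer -/
def ni (x : ℝ) : ℝ := |x - round x|

/-- majorant of `|∑_{t ≤ T} e(xt)|` -/
def kb (T x : ℝ) : ℝ := 2 * T / (1 + T * ni x)

lemma ni_nonneg (x : ℝ) : 0 ≤ ni x := abs_nonneg _

lemma ni_le (x : ℝ) (z : ℤ) : ni x ≤ |x - z| := round_le x z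

lemma kb_nonneg {T : ℝ} (hT : 0 ≤ T) (x : ℝ) : 0 ≤ kb T x := by
  unfold kb
  have := ni_nonneg x
  positivity

lemma kb_le {T : ℝ} (hT : 0 ≤ T) (x : ℝ) : kb T x ≤ 2 * T := by
  unfold kb
  have := ni_nonneg x
  exact div_le_self (by positivity) (by nlinarith [mul_nonneg hT this])

lemma kb_le_inv {T : ℝ} (hT : 0 ≤ T) {x y : ℝ} (hy : 0 < y) (h : y ≤ ni x) : kb T x ≤ 2 / y := by
  unfold kb
  have h1 : 0 < 1 + T * ni x := by
    have := ni_nonneg x
    positivity
  rw [div_le_div_iff₀ h1 hy]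
  have h2 : T * y ≤ T * ni x := mul_le_mul_of_nonneg_left h hT
  linarith

lemma kb_mono {T T' : ℝ} (hT : 0 ≤ T) (hTT : T ≤ T') (x : ℝ) : kb T x ≤ kb T' x := by
  unfold kb
  have h := ni_nonneg x
  have h1 : 0 < 1 + T * ni x := by positivity
  have h2 : 0 < 1 + T' * ni x := by
    have : 0 ≤ T' := hT.trans hTT
    positivity
  rw [div_le_div_iff₀ h1 h2]
  nlinarith

/-- one side -/
lemma one_side {ι : Type} (I : Finset ι) (y b : ι → ℝ) (δ M : ℝ) (hδ : 0 < δ) (hM0 : 0 ≤ M)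
    (hy : ∀ i ∈ I, 0 ≤ y i ∧ y i ≤ 1)
    (hsp : ∀ i ∈ I, ∀ j ∈ I, i ≠ j → δ ≤ |y i - y j|)
    (hb : ∀ i ∈ I, b i ≤ M) (hb2 : ∀ i ∈ I, ∀ z : ℝ, 0 < z → z ≤ y i → b i ≤ 2 / z) :
    ∑ i ∈ I, b i ≤ M + (2 / δ) * (1 + Real.log (1 / δ + 1)) := by
  classical
  set L := ⌊1 / δ⌋₊ with hL
  set n : ι → ℕ := fun i => ⌊y i / δ⌋₊ with hn
  have hinj : Set.InjOn n I := by
    intro i hi j hj hij
    by_contra hne
    have h1 := hsp i hi j hj hne
    have a1 := Nat.floor_le (div_nonneg (hy i hi).1 hδ.le)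
    have a2 := Nat.lt_floor_add_one (y i / δ)
    have a3 := Nat.floor_le (div_nonneg (hy j hj).1 hδ.le)
    have a4 := Nat.lt_floor_add_one (y j / δ)
    simp only [hn] at hij
    rw [hij] at a1 a2
    have h2 : |y i / δ - y j / δ| < 1 := by
      rw [abs_lt]
      constructor <;> linarith
    rw [← sub_div, abs_div, abs_of_pos hδ, div_lt_one hδ] at h2
    linarith
  have hrange : ∀ i ∈ I, n i ∈ Finset.range (L + 1) := by
    intro i hi
    rw [Finset.mem_range, Nat.lt_succ_iff]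
    exact Nat.floor_mono (div_le_div_of_nonneg_right (hy i hi).2 hδ.le)
  set g : ℕ → ℝ := fun m => if m = 0 then M else 2 / (m * δ) with hg
  have hg0 : ∀ m, 0 ≤ g m := by
    intro m
    simp only [hg]
    split_ifs
    · exact hM0
    · positivity
  have hbg : ∀ i ∈ I, b i ≤ g (n i) := by
    intro i hi
    simp only [hg]
    split_ifs with h0
    · exact hb i hi
    · refine hb2 i hi _ (by have : (0 : ℝ) < n i := by exact_mod_cast Nat.pos_of_ne_zero h0
                            positivity) ?_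
      have a1 := Nat.floor_le (div_nonneg (hy i hi).1 hδ.le)
      rwa [le_div_iff₀ hδ] at a1
  calc ∑ i ∈ I, b i ≤ ∑ i ∈ I, g (n i) := Finset.sum_le_sum hbg
    _ = ∑ m ∈ I.image n, g m := by rw [Finset.sum_image hinj]
    _ ≤ ∑ m ∈ Finset.range (L + 1), g m := by
        refine Finset.sum_le_sum_of_subset_of_nonneg ?_ fun m _ _ => hg0 m
        intro m hm
        obtain ⟨i, hi, rfl⟩ := Finset.mem_image.1 hm
        exact hrange i hi
    _ = M + ∑ m ∈ Finset.range L, 2 / (((m + 1 : ℕ) : ℝ) * δ) := by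
        rw [Finset.sum_range_succ']
        simp only [hg, if_true, Nat.add_eq_zero_iff, one_ne_zero, and_false, if_false]
        ring
    _ = M + (2 / δ) * ∑ m ∈ Finset.range L, (((m + 1 : ℕ) : ℝ))⁻¹ := by
        rw [Finset.mul_sum]
        congr 1
        refine Finset.sum_congr rfl fun m _ => ?_
        field_simp
    _ ≤ M + (2 / δ) * (1 + Real.log (1 / δ + 1)) := by
        have h1 := harmonic_le_one_add_log L
        have h2 : ((harmonic L : ℚ) : ℝ) = ∑ m ∈ Finset.range L, (((m + 1 : ℕ) : ℝ))⁻¹ := by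
          unfold harmonic
          push_cast
          rfl
        rw [h2] at h1
        have h3 : Real.log L ≤ Real.log (1 / δ + 1) := by
          rcases Nat.eq_zero_or_pos L with h0 | h0
          · rw [h0, Nat.cast_zero, Real.log_zero]
            refine Real.log_nonneg ?_
            have : 0 < 1 / δ := by positivity
            linarith
          · refine Real.log_le_log (by exact_mod_cast h0) ?_
            have := Nat.floor_le (show 0 ≤ 1 / δ by positivity)
            linarith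
        have h4 : 0 < 2 / δ := by positivity
        nlinarith

theorem spaced {ι : Type} (I : Finset ι) (x : ι → ℝ) (δ T M : ℝ) (hδ : 0 < δ) (hT : 0 ≤ T)
    (hM0 : 0 ≤ M) (hsp : ∀ i ∈ I, ∀ j ∈ I, i ≠ j → ∀ z : ℤ, δ ≤ |x i - x j - z|)
    (hM : ∀ i ∈ I, kb T (x i) ≤ M) :
    ∑ i ∈ I, kb T (x i) ≤ 2 * M + (4 / δ) * (1 + Real.log (1 / δ + 1)) := by
  classical
  set y : ι → ℝ := fun i => x i - round (x i) with hy
  have hni : ∀ i, ni (x i) = |y i| := fun i => rfl
  have hysp : ∀ i ∈ I, ∀ j ∈ I, i ≠ j → δ ≤ |y i - y j| := by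
    intro i hi j hj hij
    have h1 := hsp i hi j hj hij (round (x i) - round (x j))
    push_cast at h1
    have e1 : y i - y j = x i - x j - ((round (x i) : ℝ) - round (x j)) := by
      simp only [hy]; ring
    rw [e1]
    exact h1
  have hy1 : ∀ i, |y i| ≤ 1 := by
    intro i
    have := abs_sub_round (x i)
    simp only [hy]
    linarith
  have hP := one_side (I.filter fun i => 0 ≤ y i) y (fun i => kb T (x i)) δ M hδ hM0
    (fun i hi => ⟨(Finset.mem_filter.1 hi).2, (le_abs_self _).trans (hy1 i)⟩)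
    (fun i hi j hj => hysp i (Finset.mem_filter.1 hi).1 j (Finset.mem_filter.1 hj).1)
    (fun i hi => hM i (Finset.mem_filter.1 hi).1)
    (fun i hi z hz hzy => kb_le_inv hT hz (by
      rw [hni, abs_of_nonneg (Finset.mem_filter.1 hi).2]; exact hzy))
  have hN := one_side (I.filter fun i => ¬ 0 ≤ y i) (fun i => - y i) (fun i => kb T (x i)) δ M hδ hM0
    (fun i hi => ⟨by have := (Finset.mem_filter.1 hi).2; linarith, (neg_le_abs _).trans (hy1 i)⟩)
    (fun i hi j hj hij => by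
      have := hysp i (Finset.mem_filter.1 hi).1 j (Finset.mem_filter.1 hj).1 hij
      rw [← abs_neg] at this
      convert this using 2
      ring)
    (fun i hi => hM i (Finset.mem_filter.1 hi).1)
    (fun i hi z hz hzy => kb_le_inv hT hz (by
      have := (Finset.mem_filter.1 hi).2
      rw [hni, abs_of_neg (by linarith)]; exact hzy))
  rw [← Finset.sum_filter_add_sum_filter_not I (fun i => 0 ≤ y i)]
  have e4 : (4 / δ) = 2 / δ + 2 / δ := by ring
  rw [e4]
  linarith

/-- the reduced fractions with denominators `≤ K` -/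
def fr (K : ℕ) : Finset (ℕ × ℕ) :=
  ((Finset.Icc 1 K) ×ˢ (Finset.range K)).filter fun p => p.2 < p.1 ∧ Nat.Coprime p.2 p.1

lemma frac_sp {K : ℕ} {p p' : ℕ × ℕ} (hp : p ∈ fr K) (hp' : p' ∈ fr K) (hne : p ≠ p') (z : ℤ) :
    1 / (K : ℝ) ^ 2 ≤ |(p.2 : ℝ) / p.1 - (p'.2 : ℝ) / p'.1 - z| := by
  unfold fr at hp hp'
  rw [Finset.mem_filter, Finset.mem_product, Finset.mem_Icc] at hp hp'
  obtain ⟨⟨⟨h1, h2⟩, -⟩, h3, h4⟩ := hp
  obtain ⟨⟨⟨h1', h2'⟩, -⟩, h3', h4'⟩ := hp'
  have k0 : (0 : ℝ) < p.1 := by exact_mod_cast h1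
  have k0' : (0 : ℝ) < p'.1 := by exact_mod_cast h1'
  set a : ℤ := (p.2 : ℤ) * p'.1 - (p'.2 : ℤ) * p.1 - z * (p.1 * p'.1) with ha
  have e1 : (p.2 : ℝ) / p.1 - (p'.2 : ℝ) / p'.1 - z = (a : ℝ) / (p.1 * p'.1) := by
    rw [ha]
    push_cast
    field_simp
  have ha0 : a ≠ 0 := by
    intro h0
    rw [h0] at e1
    rw [Int.cast_zero, zero_div] at e1
    -- the difference of two numbers in `[0,1)` is an integer
    have b1 : (p.2 : ℝ) / p.1 < 1 := by rw [div_lt_one k0]; exact_mod_cast h3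
    have b2 : 0 ≤ (p.2 : ℝ) / p.1 := by positivity
    have b3 : (p'.2 : ℝ) / p'.1 < 1 := by rw [div_lt_one k0']; exact_mod_cast h3'
    have b4 : 0 ≤ (p'.2 : ℝ) / p'.1 := by positivity
    have b5 : (z : ℝ) < 1 := by linarith
    have b6 : (-1 : ℝ) < z := by linarith
    have b7 : z = 0 := by
      have c1 : z < 1 := by exact_mod_cast b5
      have c2 : -1 < z := by exact_mod_cast b6
      omega
    rw [b7, Int.cast_zero, sub_zero, sub_eq_zero, div_eq_div_iff k0.ne' k0'.ne'] at e1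
    have e2 : p.2 * p'.1 = p'.2 * p.1 := by exact_mod_cast e1
    have e3 : p.1 ∣ p'.1 := by
      have : p.1 ∣ p.2 * p'.1 := by rw [e2]; exact dvd_mul_left _ _
      exact (Nat.Coprime.dvd_mul_left h4.symm).1 this
    have e4 : p'.1 ∣ p.1 := by
      have : p'.1 ∣ p'.2 * p.1 := by rw [← e2]; exact dvd_mul_left _ _
      exact (Nat.Coprime.dvd_mul_left h4'.symm).1 this
    have e5 : p.1 = p'.1 := Nat.dvd_antisymm e3 e4
    rw [e5] at e2
    have e6 : p.2 = p'.2 := Nat.eq_of_mul_eq_mul_right (by omega) e2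
    exact hne (Prod.ext e5 e6)
  rw [e1, abs_div, abs_of_pos (mul_pos k0 k0')]
  have h5 : (1 : ℝ) ≤ |(a : ℝ)| := by
    rw [← Int.cast_abs]
    exact_mod_cast Int.one_le_abs ha0
  have k1 : (p.1 : ℝ) ≤ K := by exact_mod_cast h2
  have k1' : (p'.1 : ℝ) ≤ K := by exact_mod_cast h2'
  have k2 : (p.1 : ℝ) * p'.1 ≤ (K : ℝ) ^ 2 := by nlinarith
  calc 1 / (K : ℝ) ^ 2 ≤ 1 / ((p.1 : ℝ) * p'.1) := one_div_le_one_div_of_le (mul_pos k0 k0') k2
    _ ≤ _ := div_le_div_of_nonneg_right h5 (by positivity)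

/-- the sum over the fractions with denominator `k` -/
def Af (T β : ℝ) (k : ℕ) : ℝ := ∑ r ∈ (Finset.range k).filter (fun r => Nat.Coprime r k), kb T (β + r / k)

lemma Af_nonneg {T : ℝ} (hT : 0 ≤ T) (β : ℝ) (k : ℕ) : 0 ≤ Af T β k :=
  Finset.sum_nonneg fun _ _ => kb_nonneg hT _

theorem Af_sum (K : ℕ) (hK : 1 ≤ K) (T β M : ℝ) (hT : 0 ≤ T) (hM0 : 0 ≤ M)
    (hM : ∀ k r : ℕ, 1 ≤ k → k ≤ K → r < k → Nat.Coprime r k → kb T (β + r / k) ≤ M) :
    ∑ k ∈ Finset.Icc 1 K, Af T β k ≤ 2 * M + 16 * (K : ℝ) ^ 2 * (1 + Real.log K) := by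
  have hK0 : (1 : ℝ) ≤ K := by exact_mod_cast hK
  have h1 : ∑ k ∈ Finset.Icc 1 K, Af T β k = ∑ p ∈ fr K, kb T (β + (p.2 : ℝ) / p.1) := by
    unfold Af fr
    rw [Finset.sum_filter, Finset.sum_product]
    refine Finset.sum_congr rfl fun k hk => ?_
    rw [Finset.mem_Icc] at hk
    rw [← Finset.sum_filter]
    refine Finset.sum_congr ?_ fun r _ => rfl
    ext r
    simp only [Finset.mem_filter, Finset.mem_range]
    constructor
    · rintro ⟨a, b⟩
      exact ⟨by omega, a, b⟩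
    · rintro ⟨-, a, b⟩
      exact ⟨a, b⟩
  rw [h1]
  have h2 := spaced (fr K) (fun p => β + (p.2 : ℝ) / p.1) (1 / (K : ℝ) ^ 2) T M (by positivity) hT hM0
    (fun p hp p' hp' hne z => by
      have := frac_sp hp hp' hne z
      convert this using 2
      ring)
    (fun p hp => by
      unfold fr at hp
      rw [Finset.mem_filter, Finset.mem_product, Finset.mem_Icc] at hp
      exact hM p.1 p.2 hp.1.1.1 hp.1.1.2 hp.2.1 hp.2.2)
  refine h2.trans ?_
  rw [one_div_one_div]
  have h3 : 4 / (1 / (K : ℝ) ^ 2) = 4 * (K : ℝ) ^ 2 := by field_simp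
  rw [h3]
  have h4 : Real.log ((K : ℝ) ^ 2 + 1) ≤ 1 + 2 * Real.log K := by
    have a1 : (K : ℝ) ^ 2 + 1 ≤ Real.exp 1 * (K : ℝ) ^ 2 := by
      have := Real.exp_one_gt_d9
      nlinarith
    calc Real.log ((K : ℝ) ^ 2 + 1) ≤ Real.log (Real.exp 1 * (K : ℝ) ^ 2) :=
          Real.log_le_log (by positivity) a1
      _ = 1 + 2 * Real.log K := by
          rw [Real.log_mul (Real.exp_ne_zero _) (by positivity), Real.log_exp, Real.log_pow]
          norm_num
  have h5 : 0 ≤ Real.log K := Real.log_nonneg hK0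
  have h6 : 0 < (K : ℝ) ^ 2 := by positivity
  nlinarith [mul_nonneg h6.le h5]

/-! ### Geometric sums -/

lemma e_add (x y : ℝ) : e (x + y) = e x * e y := by
  unfold e
  rw [← Complex.exp_add]
  congr 1
  push_cast
  ring

lemma e_norm (x : ℝ) : ‖e x‖ = 1 := by
  unfold e
  have : (2 * Real.pi * x * I : ℂ) = ((2 * Real.pi * x : ℝ) : ℂ) * I := by push_cast; ring
  rw [this, Complex.norm_exp_ofReal_mul_I]

lemma e_nat (x : ℝ) (t : ℕ) : e (x * t) = e x ^ t := by
  unfold e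
  rw [← Complex.exp_nat_mul]
  congr 1
  push_cast
  ring

lemma e_int (z : ℤ) : e z = 1 := by
  unfold e
  rw [Complex.exp_eq_one_iff]
  exact ⟨z, by push_cast; ring⟩

lemma one_sub_e (x : ℝ) : 4 * ni x ≤ ‖1 - e x‖ := by
  set y := x - round x with hy
  have h1 : e x = e y := by
    have : x = y + ((round x : ℤ) : ℝ) := by rw [hy]; ring
    rw [this, e_add, e_int, mul_one]
  have hy1 : |y| ≤ 1 / 2 := abs_sub_round x
  have h2 : ‖1 - e y‖ = 2 * |Real.sin (Real.pi * y)| := by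
    have h3 : ‖1 - e y‖ ^ 2 = (2 * |Real.sin (Real.pi * y)|) ^ 2 := by
      have e1 : e y = ⟨Real.cos (2 * (Real.pi * y)), Real.sin (2 * (Real.pi * y))⟩ := by
        unfold e
        have : (2 * Real.pi * y * I : ℂ) = ((2 * (Real.pi * y) : ℝ) : ℂ) * I := by push_cast; ring
        rw [this]
        apply Complex.ext
        · rw [Complex.exp_ofReal_mul_I_re]
        · rw [Complex.exp_ofReal_mul_I_im]
      rw [e1, Complex.sq_norm, Complex.normSq_apply, mul_pow, sq_abs]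
      simp only [Complex.sub_re, Complex.one_re, Complex.sub_im, Complex.one_im]
      rw [Real.cos_two_mul, Real.sin_two_mul]
      have := Real.sin_sq_add_cos_sq (Real.pi * y)
      nlinarith
    exact (sq_eq_sq₀ (norm_nonneg _) (by positivity)).1 h3
  rw [h1, h2]
  have h4 : 2 / Real.pi * |Real.pi * y| ≤ |Real.sin (Real.pi * y)| := by
    refine Real.mul_abs_le_abs_sin ?_
    rw [abs_mul, abs_of_pos Real.pi_pos]
    nlinarith [Real.pi_pos]
  rw [abs_mul, abs_of_pos Real.pi_pos] at h4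
  have h5 : 2 / Real.pi * (Real.pi * |y|) = 2 * |y| := by field_simp
  have h6 : ni x = |y| := rfl
  rw [h6]
  linarith

theorem geom (x : ℝ) (T : ℝ) (n : ℕ) (hn : (n : ℝ) ≤ T) :
    ‖∑ t ∈ Finset.range n, e (x * t)‖ ≤ kb T x := by
  have hT : 0 ≤ T := (Nat.cast_nonneg n).trans hn
  have h1 : ‖∑ t ∈ Finset.range n, e (x * t)‖ ≤ T := by
    refine (norm_sum_le _ _).trans ?_
    simp only [e_norm, Finset.sum_const, Finset.card_range, nsmul_eq_mul, mul_one]
    exact hn
  have h2 : ‖∑ t ∈ Finset.range n, e (x * t)‖ * ni x ≤ 1 / 2 := by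
    have h3 : (∑ t ∈ Finset.range n, e (x * t)) * (1 - e x) = 1 - e x ^ n := by
      simp only [e_nat]
      exact geom_sum_mul_neg (e x) n
    have h4 : ‖∑ t ∈ Finset.range n, e (x * t)‖ * ‖1 - e x‖ ≤ 2 := by
      rw [← norm_mul, h3]
      refine (norm_sub_le _ _).trans ?_
      rw [norm_one, norm_pow, e_norm, one_pow]
      norm_num
    have h5 := one_sub_e x
    nlinarith [norm_nonneg (∑ t ∈ Finset.range n, e (x * t))]
  unfold kb
  have h6 : 0 < 1 + T * ni x := by
    have := ni_nonneg x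
    positivity
  rw [le_div_iff₀ h6]
  nlinarith [norm_nonneg (∑ t ∈ Finset.range n, e (x * t))]

end

end Pool.Agent.J4.H39.CM
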