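import Pool.Agent.J4.H39.CM.Dc
import Pool.Agent.J4.H39.CM.Afe

set_option autoImplicit false

/-!
Project CM (helper39): the Fourier bound, uniform in `α`.
-/

namespace Pool.Agent.J4.H39.CM

open Complex Finset
open Pool.Agent.N879.QM
open Pool.Agent.N879.QM.Avg (fam fam_mem fam_inj fam_surj rp_of vl_eq DF odd_part js_abs)
open Pool.Agent.H306R2.RG (FD F8 F4 F1 cf jo)
open Pool.Agent.H306R2.RZ (js)

noncomputable section

lemma class_sum' (s : ℤ) (hs : s = 1 ∨ s = -1) (X : ℝ) (n : ℕ) (hn : 1 ≤ n) (g : ℕ → ℂ) :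
    ∑ q ∈ Q s X, g q * vl s q n =
      ∑ i : Fin 4, ∑ d ∈ DF (fam s i) X, g ((fam s i).r * d) * ((cf (fam s i) d n : ℝ) : ℂ) := by
  classical
  rw [sum_sigma']
  symm
  have hmem : ∀ x : (_ : Fin 4) × ℕ, x ∈ (univ : Finset (Fin 4)).sigma (fun i => DF (fam s i) X) →
      (fam s x.1).A x.2 ∧ Squarefree x.2 ∧ (((fam s x.1).r * x.2 : ℕ) : ℝ) < X := by
    intro x hx
    rw [mem_sigma] at hx
    have := hx.2
    unfold DF at this
    rw [mem_filter] at this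
    exact this.2
  refine sum_nbij (fun x => (fam s x.1).r * x.2) ?_ ?_ ?_ ?_
  · intro x hx
    obtain ⟨h1, h2, h3⟩ := hmem x hx
    obtain ⟨h4, h5, h6, χ, h7, -⟩ := rp_of s hs (fam s x.1) (fam_mem s x.1) x.2 h1 h2
    unfold Q
    rw [mem_filter, mem_Ico, Nat.lt_ceil]
    exact ⟨⟨h6, h3⟩, h6, χ, h7⟩
  · intro x hx y hy hxy
    obtain ⟨h1, -, -⟩ := hmem x (mem_coe.1 hx)
    obtain ⟨h2, -, -⟩ := hmem y (mem_coe.1 hy)
    obtain ⟨h3, h4⟩ := fam_inj s hs x.1 y.1 x.2 y.2 h1 h2 hxy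
    exact Sigma.ext h3 (heq_of_eq h4)
  · intro q hq
    rw [mem_coe] at hq
    unfold Q at hq
    rw [mem_filter, mem_Ico, Nat.lt_ceil] at hq
    obtain ⟨⟨h1, h2⟩, h3, χ, hχ⟩ := hq
    obtain ⟨i, d, h4, h5, h6⟩ := fam_surj s q h1 χ hχ
    refine ⟨⟨i, d⟩, ?_, h6.symm⟩
    rw [mem_coe, mem_sigma]
    refine ⟨mem_univ _, ?_⟩
    unfold DF
    rw [mem_filter, mem_range, Nat.lt_ceil]
    obtain ⟨-, h7, -, -⟩ := rp_of s hs (fam s i) (fam_mem s i) d h4 h5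
    rw [h6] at h2
    refine ⟨lt_of_le_of_lt ?_ h2, h4, h5, h2⟩
    exact_mod_cast Nat.le_mul_of_pos_left d h7
  · intro x hx
    obtain ⟨h1, h2, h3⟩ := hmem x hx
    obtain ⟨h4, h5, h6, χ, h7, h8⟩ := rp_of s hs (fam s x.1) (fam_mem s x.1) x.2 h1 h2
    rw [vl_eq t_UNI h6 χ h7, h8 n (by omega)]

lemma fam_R (s : ℤ) (hs : s = 1 ∨ s = -1) (i : Fin 4) : ∃ R : Finset ℕ, 0 ∉ R ∧
    (∀ d, (fam s i).A d → d % 8 ∈ R) ∧
    (∀ d, d % 8 ∈ R → Squarefree d → ¬ (fam s i).A d → d = 1) ∧ |(fam s i).η| ≤ 1 ∧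
    1 ≤ (fam s i).r := by
  classical
  refine ⟨(range 8).filter (fun c => ∃ d, (fam s i).A d ∧ d % 8 = c), ?_, ?_, ?_, ?_, ?_⟩
  · intro h
    rw [mem_filter] at h
    obtain ⟨-, d, h1, h2⟩ := h
    have := Pool.Agent.N879.QM.Avg.fam_odd s hs i d h1
    omega
  · intro d hd
    rw [mem_filter, mem_range]
    exact ⟨Nat.mod_lt _ (by norm_num), d, hd, rfl⟩
  · intro d hd hsq hA
    rw [mem_filter, mem_range] at hd
    obtain ⟨h1, d', h2, h3⟩ := hd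
    fin_cases i
    · exfalso
      apply hA
      have a1 : Odd d' := h2
      show Odd d
      rw [Nat.odd_iff] at a1 ⊢
      omega
    · exfalso
      apply hA
      have a1 : (s * (d' : ℤ)) % 4 = 3 := h2
      show (s * (d : ℤ)) % 4 = 3
      rcases hs with rfl | rfl <;> omega
    · have a1 : (s * (d' : ℤ)) % 8 = 1 := h2.1
      have a2 : (s * (d : ℤ)) % 8 = 1 := by rcases hs with rfl | rfl <;> omega
      by_contra hd1
      apply hA
      refine ⟨a2, fun h => ?_⟩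
      rcases hs with rfl | rfl
      · exact hd1 (Pool.Agent.N879.QM.Avg.sqf_one hsq h)
      · have hd0 : 0 < d := by
          rcases Nat.eq_zero_or_pos d with h0 | h0
          · subst h0
            simp at a2
          · exact h0
        exact Pool.Agent.N879.QM.Avg.neg_sq hd0 h
    · have a1 : (s * (d' : ℤ)) % 8 = 5 := h2.1
      have a2 : (s * (d : ℤ)) % 8 = 5 := by rcases hs with rfl | rfl <;> omega
      by_contra hd1
      apply hA
      refine ⟨a2, fun h => ?_⟩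
      rcases hs with rfl | rfl
      · exact hd1 (Pool.Agent.N879.QM.Avg.sqf_one hsq h)
      · have hd0 : 0 < d := by
          rcases Nat.eq_zero_or_pos d with h0 | h0
          · subst h0
            simp at a2
          · exact h0
        exact Pool.Agent.N879.QM.Avg.neg_sq hd0 h
  · fin_cases i
    · show |(0 : ℝ)| ≤ 1
      simp
    · show |(0 : ℝ)| ≤ 1
      simp
    · show |(if (1 : ℤ) = 1 then (1 : ℝ) else -1)| ≤ 1
      simp
    · show |(if (5 : ℤ) = 1 then (1 : ℝ) else -1)| ≤ 1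
      norm_num
  · fin_cases i
    · show 1 ≤ 8
      norm_num
    · show 1 ≤ 4
      norm_num
    · exact le_rfl
    · exact le_rfl

/-- the weight of `d` -/
def ww (s : ℤ) (n r : ℕ) (X : ℝ) (d : ℕ) : ℝ :=
  if n ≤ r * d then V s ((n : ℝ) ^ 2 / min ((r * d : ℕ) : ℝ) X) else 0

lemma ww_nonneg (s : ℤ) (n r : ℕ) {X : ℝ} (hX : 1 ≤ X) (d : ℕ) : 0 ≤ ww s n r X d := by
  unfold ww
  split_ifs with h
  · exact ((V_facts s).2.1 _ (by positivity)).1
  · exact le_rfl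

lemma ww_mono (s : ℤ) {n : ℕ} (hn : 1 ≤ n) (r : ℕ) {X : ℝ} (hX : 1 ≤ X) : Monotone (ww s n r X) := by
  intro a b hab
  have hab2 : r * a ≤ r * b := Nat.mul_le_mul_left r hab
  by_cases h : n ≤ r * a
  · have h2 : n ≤ r * b := h.trans hab2
    have h3 : (0 : ℝ) < ((r * a : ℕ) : ℝ) := by exact_mod_cast (by omega : 0 < r * a)
    have h4 : ((r * a : ℕ) : ℝ) ≤ ((r * b : ℕ) : ℝ) := by exact_mod_cast hab2
    unfold ww
    rw [if_pos h, if_pos h2]
    refine (V_facts s).2.2.1 (Set.mem_Ici.2 (by positivity)) (Set.mem_Ici.2 (by positivity)) ?_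
    refine div_le_div_of_nonneg_left (by positivity) ?_ (min_le_min h4 le_rfl)
    exact lt_min h3 (by linarith)
  · have := ww_nonneg s n r hX b
    unfold ww at this ⊢
    rw [if_neg h]
    exact this

lemma ww_le (s : ℤ) {n : ℕ} (hn : 1 ≤ n) (r : ℕ) {X : ℝ} (hX : 1 ≤ X) (d : ℕ) :
    ww s n r X d ≤ V s ((n : ℝ) ^ 2 / X) := by
  have h0 : 0 ≤ V s ((n : ℝ) ^ 2 / X) := ((V_facts s).2.1 _ (by positivity)).1
  unfold ww
  split_ifs with h
  · have h3 : (0 : ℝ) < ((r * d : ℕ) : ℝ) := by exact_mod_cast (by omega : 0 < r * d)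
    refine (V_facts s).2.2.1 (Set.mem_Ici.2 (by positivity)) (Set.mem_Ici.2 (by positivity)) ?_
    refine div_le_div_of_nonneg_left (by positivity) ?_ (min_le_right _ _)
    exact lt_min h3 (by linarith)
  · exact h0

/-- the weight of `q` in the sum over the conductors -/
def gg (s : ℤ) (n : ℕ) (α : ℝ) (q : ℕ) : ℂ :=
  if n ≤ q then ((V s ((n : ℝ) ^ 2 / q) : ℝ) : ℂ) * e (α * q) else 0

lemma fam_inner (s : ℤ) (hs : s = 1 ∨ s = -1) (X : ℝ) (hX : 1 ≤ X) (n : ℕ) (hn : 1 ≤ n) (α : ℝ)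
    (Bd : ℕ) (hBd : 1 ≤ Bd) (i : Fin 4) :
    ‖∑ d ∈ DF (fam s i) X, gg s n α ((fam s i).r * d) * ((cf (fam s i) d n : ℝ) : ℂ)‖ ≤
      V s ((n : ℝ) ^ 2 / X) * (1 + 4 * X / Bd + 2 * ∑ b ∈ Icc 1 Bd, ∑ f ∈ (dec n).2.2.divisors,
        Bb (2 * X / (b : ℝ) ^ 2 + 1) (α * (fam s i).r * (Nat.lcm (b ^ 2) f : ℕ)) (dec n).2.1) := by
  classical
  obtain ⟨R, hR0, h1, h2, hη, hr⟩ := fam_R s hs i
  set φ := fam s i with hφ
  set W := V s ((n : ℝ) ^ 2 / X) with hW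
  have hW0 : 0 ≤ W := ((V_facts s).2.1 _ (by positivity)).1
  have hn0 : n ≠ 0 := by omega
  obtain ⟨b1, b2, b3, b4, b5, b6⟩ := dec_spec hn0
  set k := (dec n).2.1 with hk
  set m := (dec n).2.2 with hm
  have hrR : (1 : ℝ) ≤ φ.r := by exact_mod_cast hr
  have ho := odd_part hn0
  set D' := (range ⌈X / φ.r⌉₊).filter (fun d => d % 8 ∈ R ∧ Squarefree d) with hD'
  have hDF : ∀ d ∈ DF φ X, φ.A d ∧ Squarefree d ∧ ((φ.r * d : ℕ) : ℝ) < X := by
    intro d hd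
    unfold DF at hd
    rw [mem_filter] at hd
    exact hd.2
  have hsub : DF φ X ⊆ D' := by
    intro d hd
    obtain ⟨a1, a2, a3⟩ := hDF d hd
    rw [hD', mem_filter, mem_range, Nat.lt_ceil, lt_div_iff₀ (by linarith)]
    push_cast at a3
    exact ⟨by linarith, h1 d a1, a2⟩
  -- the terms
  set t : ℕ → ℂ := fun d => ((js (d : ℤ) (k * m ^ 2) : ℝ) : ℂ) *
    (((ww s n φ.r X d : ℝ) : ℂ) * e (α * φ.r * d)) with ht
  have ht1 : ∀ d, ‖t d‖ ≤ W := by
    intro d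
    rw [ht]
    show ‖((js (d : ℤ) (k * m ^ 2) : ℝ) : ℂ) * (((ww s n φ.r X d : ℝ) : ℂ) * e (α * φ.r * d))‖ ≤ W
    rw [norm_mul, norm_mul, e_norm, mul_one, Complex.norm_real, Complex.norm_real, Real.norm_eq_abs,
      Real.norm_eq_abs, abs_of_nonneg (ww_nonneg s n φ.r hX d)]
    calc _ ≤ 1 * W := mul_le_mul (js_le _ _) (ww_le s hn φ.r hX d) (ww_nonneg s n φ.r hX d) zero_le_one
      _ = W := one_mul _
  have hterm : ∀ d ∈ DF φ X, gg s n α (φ.r * d) * ((cf φ d n : ℝ) : ℂ) =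
      ((φ.η ^ (n.factorization 2) * js φ.e (k * m ^ 2) : ℝ) : ℂ) * t d := by
    intro d hd
    obtain ⟨a1, a2, a3⟩ := hDF d hd
    have e1 : cf φ d n = φ.η ^ (n.factorization 2) * js φ.e (k * m ^ 2) * js (d : ℤ) (k * m ^ 2) := by
      unfold cf jo
      rw [if_pos ho, js_mul', b6]
      ring
    have e2 : gg s n α (φ.r * d) = ((ww s n φ.r X d : ℝ) : ℂ) * e (α * φ.r * d) := by
      unfold gg ww
      rw [min_eq_left a3.le]
      have : α * ((φ.r * d : ℕ) : ℝ) = α * φ.r * d := by push_cast; ring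
      rw [this]
      split_ifs
      · rfl
      · push_cast
        ring
    rw [e1, e2, ht]
    push_cast
    ring
  rw [sum_congr rfl hterm, ← mul_sum, norm_mul, Complex.norm_real, Real.norm_eq_abs, abs_mul, abs_pow]
  have h3 : |φ.η| ^ (n.factorization 2) * |js φ.e (k * m ^ 2)| ≤ 1 := by
    calc _ ≤ 1 * (1 : ℝ) :=
          mul_le_mul (pow_le_one₀ (abs_nonneg _) hη) (js_le _ _) (abs_nonneg _) zero_le_one
      _ = 1 := one_mul _
  have h4 : ‖∑ d ∈ DF φ X, t d‖ ≤ W + ‖∑ d ∈ D', t d‖ := by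
    have e1 : ∑ d ∈ DF φ X, t d = ∑ d ∈ D', t d - ∑ d ∈ D' \ DF φ X, t d := by
      rw [← sum_sdiff hsub]
      ring
    rw [e1]
    refine (norm_sub_le _ _).trans ?_
    have e2 : D' \ DF φ X ⊆ {1} := by
      intro d hd
      rw [Finset.mem_sdiff, hD', mem_filter, mem_range, Nat.lt_ceil, lt_div_iff₀ (by linarith)] at hd
      obtain ⟨⟨h5, h6, h7⟩, h8⟩ := hd
      rw [mem_singleton]
      refine h2 d h6 h7 fun hA => h8 ?_
      unfold DF
      have h9 : ((φ.r * d : ℕ) : ℝ) < X := by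
        push_cast
        linarith
      rw [mem_filter, mem_range, Nat.lt_ceil]
      refine ⟨?_, hA, h7, h9⟩
      push_cast at h9
      have : (0 : ℝ) ≤ d := Nat.cast_nonneg d
      nlinarith
    have e3 : ‖∑ d ∈ D' \ DF φ X, t d‖ ≤ W := by
      calc _ ≤ ∑ d ∈ D' \ DF φ X, ‖t d‖ := norm_sum_le _ _
        _ ≤ ∑ d ∈ ({1} : Finset ℕ), ‖t d‖ := sum_le_sum_of_subset_of_nonneg e2 fun _ _ _ => norm_nonneg _
        _ = ‖t 1‖ := sum_singleton _ _
        _ ≤ W := ht1 1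
    linarith
  have hN0 : ((⌈X / φ.r⌉₊ : ℕ) : ℝ) ≤ 2 * X := by
    have a1 : X / φ.r ≤ X := div_le_self (by linarith) hrR
    have a2 := Nat.ceil_lt_add_one (show (0 : ℝ) ≤ X / φ.r by positivity)
    linarith
  have h5 := inner_bd R hR0 k m b2 b3 b4 (ww s n φ.r X) W (ww_mono s hn φ.r hX)
    (ww_nonneg s n φ.r hX) (ww_le s hn φ.r hX) (α * φ.r) (2 * X) ⌈X / φ.r⌉₊ Bd hN0 hBd
  have h6 : ‖∑ d ∈ D', t d‖ ≤ W * (2 * (2 * X) / Bd) + ∑ b ∈ Icc 1 Bd, ∑ f ∈ m.divisors,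
      2 * W * Bb (2 * X / (b : ℝ) ^ 2 + 1) (α * φ.r * (Nat.lcm (b ^ 2) f : ℕ)) k := by
    rw [hD', ht]
    convert h5 using 2
  calc _ ≤ 1 * (W + (W * (2 * (2 * X) / Bd) + ∑ b ∈ Icc 1 Bd, ∑ f ∈ m.divisors,
        2 * W * Bb (2 * X / (b : ℝ) ^ 2 + 1) (α * φ.r * (Nat.lcm (b ^ 2) f : ℕ)) k)) := by
        refine mul_le_mul h3 ?_ (norm_nonneg _) zero_le_one
        linarith
    _ = _ := by
        have e1 : ∑ b ∈ Icc 1 Bd, ∑ f ∈ m.divisors,
            2 * W * Bb (2 * X / (b : ℝ) ^ 2 + 1) (α * φ.r * (Nat.lcm (b ^ 2) f : ℕ)) k =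
            W * (2 * ∑ b ∈ Icc 1 Bd, ∑ f ∈ m.divisors,
              Bb (2 * X / (b : ℝ) ^ 2 + 1) (α * φ.r * (Nat.lcm (b ^ 2) f : ℕ)) k) := by
          rw [mul_sum, mul_sum]
          refine sum_congr rfl fun b _ => ?_
          rw [mul_sum, mul_sum]
          refine sum_congr rfl fun f _ => ?_
          ring
        rw [e1]
        ring

/-- the bound of the weight function -/
lemma V_om (s : ℤ) : ∃ C : ℝ, 1 ≤ C ∧ ∀ (X : ℝ) (n : ℕ), 1 ≤ X → 1 ≤ n →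
    V s ((n : ℝ) ^ 2 / X) ≤ C * om X n := by
  obtain ⟨C, hC, h⟩ := (V_facts s).2.2.2
  refine ⟨max 1 C, le_max_left _ _, fun X n hX hn => ?_⟩
  have hnR : (0 : ℝ) < n := by exact_mod_cast hn
  have h1 := h ((n : ℝ) ^ 2 / X) (by positivity)
  have h2 := ((V_facts s).2.1 ((n : ℝ) ^ 2 / X) (by positivity)).2
  have h3 : C / ((n : ℝ) ^ 2 / X) ^ 2 = C * (X ^ 2 / (n : ℝ) ^ 4) := by
    rw [div_pow]
    field_simp
  rw [h3] at h1
  unfold om
  rw [mul_min_of_nonneg _ _ (by positivity)]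
  refine le_min ?_ ?_
  · rw [mul_one]
    exact h2.trans (le_max_left _ _)
  · exact h1.trans (mul_le_mul_of_nonneg_right (le_max_right _ _) (by positivity))

end

end Pool.Agent.J4.H39.CM
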