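import Pool.Agent.J4.H39.CM.Sup

set_option autoImplicit false

/-!
Project CM (helper39): the Fourier bound, uniform in `α`, conclusion.
-/

namespace Pool.Agent.J4.H39.CM

open Complex Finset
open Pool.Agent.N879.QM
open Pool.Agent.N879.QM.Avg (fam DF)

noncomputable section

/-- exchange of the sums -/
lemma part_b (s : ℤ) (hs : s = 1 ∨ s = -1) (X α : ℝ) (P : ℕ → Prop) [DecidablePred P] :
    ‖∑ q ∈ Q s X, PV s P q * e (α * q)‖ ≤
      2 * ∑ n ∈ (Icc 1 ⌊X⌋₊).filter P, 1 / √n * ∑ i : Fin 4,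
        ‖∑ d ∈ DF (fam s i) X, gg s n α ((fam s i).r * d) *
          ((Pool.Agent.H306R2.RG.cf (fam s i) d n : ℝ) : ℂ)‖ := by
  have h1 : ∑ q ∈ Q s X, PV s P q * e (α * q) =
      2 * ∑ n ∈ (Icc 1 ⌊X⌋₊).filter P, (((1 / √(n : ℝ) : ℝ)) : ℂ) *
        ∑ q ∈ Q s X, gg s n α q * vl s q n := by
    have h2 : ∀ q ∈ Q s X, PV s P q * e (α * q) =
        2 * ∑ n ∈ (Icc 1 ⌊X⌋₊).filter P, (((1 / √(n : ℝ) : ℝ)) : ℂ) *
          (gg s n α q * vl s q n) := by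
      intro q hq
      have hqX : q ≤ ⌊X⌋₊ := by
        classical
        unfold Q at hq
        have hq' := (mem_filter.1 hq).1
        rw [mem_Ico, Nat.lt_ceil] at hq'
        exact Nat.le_floor hq'.2.le
      clear hq
      unfold PV
      rw [mul_assoc, sum_mul]
      congr 1
      have hsub : (Icc 1 q).filter P ⊆ (Icc 1 ⌊X⌋₊).filter P := by
        intro n hn
        rw [mem_filter, mem_Icc] at hn ⊢
        exact ⟨⟨hn.1.1, hn.1.2.trans hqX⟩, hn.2⟩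
      rw [← sum_subset hsub]
      · refine sum_congr rfl fun n hn => ?_
        rw [mem_filter, mem_Icc] at hn
        unfold gg wt
        rw [if_pos hn.1.2]
        push_cast
        ring
      · intro n hn hn2
        rw [mem_filter, mem_Icc] at hn hn2
        unfold gg
        rw [if_neg (fun h => hn2 ⟨⟨hn.1.1, h⟩, hn.2⟩)]
        ring
    rw [sum_congr rfl h2, ← mul_sum, sum_comm]
    congr 1
    refine sum_congr rfl fun n _ => ?_
    rw [mul_sum]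
  rw [h1, norm_mul, Complex.norm_ofNat]
  refine mul_le_mul_of_nonneg_left ?_ (by norm_num)
  refine (norm_sum_le _ _).trans (sum_le_sum fun n hn => ?_)
  rw [mem_filter, mem_Icc] at hn
  rw [norm_mul, Complex.norm_real, Real.norm_eq_abs, abs_of_nonneg (by positivity)]
  refine mul_le_mul_of_nonneg_left ?_ (by positivity)
  rw [class_sum' s hs X n hn.1.1]
  exact norm_sum_le _ _

/-- the numerical part -/
lemma part_c (s : ℤ) (X : ℝ) (hX : 1 ≤ X) (α : ℝ) (Y Bd : ℕ) (hY : 1 ≤ Y) (hBd : 1 ≤ Bd)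
    (S : Finset ℕ) (hS : ∀ n ∈ S, 1 ≤ n ∧ n ≤ ⌊X⌋₊ ∧ ¬ Sm Y n) :
    ∑ n ∈ S, om X n / √n * ∑ i : Fin 4, ∑ b ∈ Icc 1 Bd, ∑ f ∈ (dec n).2.2.divisors,
        Bb (2 * X / (b : ℝ) ^ 2 + 1) (α * (fam s i).r * (Nat.lcm (b ^ 2) f : ℕ)) (dec n).2.1 ≤
      2 ^ 17 * (1 + Real.log X) ^ 5 * (X / Y + Bd * √X) := by
  have hN : 1 ≤ ⌊X⌋₊ := Nat.le_floor (by exact_mod_cast hX)
  have hNX : ((⌊X⌋₊ : ℕ) : ℝ) ≤ X := Nat.floor_le (by linarith)
  have hYR : (1 : ℝ) ≤ Y := by exact_mod_cast hY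
  have hBR : (1 : ℝ) ≤ Bd := by exact_mod_cast hBd
  set L := 1 + Real.log X with hL
  have hL1 : 1 ≤ L := by
    have := Real.log_nonneg hX
    linarith
  have hs1 : 1 ≤ √X := by
    rw [Real.le_sqrt (by norm_num) (by linarith)]
    simpa using hX
  set N := ⌊X⌋₊ with hNdef
  have hTb : ∀ b : ℕ, 0 ≤ 2 * X / (b : ℝ) ^ 2 + 1 := fun b => by positivity
  set G : ℕ × ℕ × ℕ → ℝ := fun x => om X x.2.1 / √(x.2.1 : ℝ) * (1 / (x.2.2 : ℝ)) *
    ∑ i : Fin 4, ∑ b ∈ Icc 1 Bd, ∑ f ∈ x.2.2.divisors,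
        Bb (2 * X / (b : ℝ) ^ 2 + 1) (α * (fam s i).r * (Nat.lcm (b ^ 2) f : ℕ)) x.2.1 with hG
  have hB0 : ∀ k m : ℕ, 0 ≤ ∑ i : Fin 4, ∑ b ∈ Icc 1 Bd, ∑ f ∈ m.divisors,
        Bb (2 * X / (b : ℝ) ^ 2 + 1) (α * (fam s i).r * (Nat.lcm (b ^ 2) f : ℕ)) k := fun k m =>
    sum_nonneg fun i _ => sum_nonneg fun b _ => sum_nonneg fun f _ => Bb_nonneg (hTb b) _ _
  have hG0 : ∀ x, 0 ≤ G x := fun x =>
    mul_nonneg (mul_nonneg (div_nonneg (om_nonneg _ _) (Real.sqrt_nonneg _)) (by positivity)) (hB0 _ _)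
  have h1 : ∑ n ∈ S, om X n / √n * ∑ i : Fin 4, ∑ b ∈ Icc 1 Bd, ∑ f ∈ (dec n).2.2.divisors,
        Bb (2 * X / (b : ℝ) ^ 2 + 1) (α * (fam s i).r * (Nat.lcm (b ^ 2) f : ℕ)) (dec n).2.1 ≤
      ∑ n ∈ S, G (dec n) := by
    refine sum_le_sum fun n hn => ?_
    exact mul_le_mul_of_nonneg_right (dec_wt (by have := (hS n hn).1; omega)) (hB0 _ _)
  refine h1.trans ((dec_sum Y N G hG0 S hS).trans ?_)
  -- the sum over `k`
  set A := 4096 * L ^ 2 * (4 * X / Y + 2 * (Bd * √X)) with hA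
  have hA0 : 0 ≤ A := by positivity
  have hb : ∑ b ∈ Icc 1 Bd, 4096 * L ^ 2 * ((2 * X / (b : ℝ) ^ 2 + 1) / Y + √X) ≤ A := by
    rw [← mul_sum, hA]
    refine mul_le_mul_of_nonneg_left ?_ (by positivity)
    have e1 : ∑ b ∈ Icc 1 Bd, ((2 * X / (b : ℝ) ^ 2 + 1) / Y + √X) =
        2 * X / Y * (∑ b ∈ Icc 1 Bd, ((b : ℝ) ^ 2)⁻¹) + Bd * (1 / Y + √X) := by
      have e2 : ∀ b ∈ Icc 1 Bd, ((2 * X / (b : ℝ) ^ 2 + 1) / Y + √X) =
          2 * X / Y * ((b : ℝ) ^ 2)⁻¹ + (1 / Y + √X) := by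
        intro b _
        ring
      rw [sum_congr rfl e2, sum_add_distrib, ← mul_sum, sum_const, Nat.card_Icc, Nat.add_sub_cancel,
        nsmul_eq_mul]
    rw [e1]
    have e3 : ∑ b ∈ Icc 1 Bd, ((b : ℝ) ^ 2)⁻¹ ≤ 2 := by
      have := sum_Ioo_inv_sq_le (α := ℝ) 0 (Bd + 1)
      have e4 : Ioo 0 (Bd + 1) = Icc 1 Bd := by
        ext a
        rw [mem_Ioo, mem_Icc]
        omega
      rw [e4] at this
      simpa using this
    have e5 : 1 / (Y : ℝ) ≤ √X := by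
      refine le_trans ?_ hs1
      rw [div_le_one (by linarith)]
      exact hYR
    have e6 : 2 * X / Y * (∑ b ∈ Icc 1 Bd, ((b : ℝ) ^ 2)⁻¹) ≤ 2 * X / Y * 2 :=
      mul_le_mul_of_nonneg_left e3 (by positivity)
    have e7 : (Bd : ℝ) * (1 / Y + √X) ≤ Bd * (√X + √X) :=
      mul_le_mul_of_nonneg_left (by linarith) (by linarith)
    calc _ ≤ 2 * X / Y * 2 + Bd * (√X + √X) := add_le_add e6 e7
      _ = _ := by ring
  have h2 : ∀ j ∈ range (Nat.log 2 N + 1), ∀ m ∈ Icc 1 N,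
      ∑ k ∈ (Icc 1 N).filter (fun k => Y < 2 * k), G (j, k, m) ≤
        4 * A * ∑ _f ∈ m.divisors, 1 / (m : ℝ) := by
    intro j _ m _
    have e1 : ∑ k ∈ (Icc 1 N).filter (fun k => Y < 2 * k), G (j, k, m) =
        ∑ i : Fin 4, ∑ b ∈ Icc 1 Bd, ∑ f ∈ m.divisors, 1 / (m : ℝ) *
          ∑ k ∈ (Icc 1 N).filter (fun k => Y < 2 * k), om X k / √(k : ℝ) *
            Bb (2 * X / (b : ℝ) ^ 2 + 1) (α * (fam s i).r * (Nat.lcm (b ^ 2) f : ℕ)) k := by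
      have e2 : ∀ k ∈ (Icc 1 N).filter (fun k => Y < 2 * k), G (j, k, m) =
          ∑ i : Fin 4, ∑ b ∈ Icc 1 Bd, ∑ f ∈ m.divisors, 1 / (m : ℝ) * (om X k / √(k : ℝ) *
            Bb (2 * X / (b : ℝ) ^ 2 + 1) (α * (fam s i).r * (Nat.lcm (b ^ 2) f : ℕ)) k) := by
        intro k _
        rw [hG]
        show om X k / √(k : ℝ) * (1 / (m : ℝ)) * _ = _
        rw [mul_sum]
        refine sum_congr rfl fun i _ => ?_
        rw [mul_sum]
        refine sum_congr rfl fun b _ => ?_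
        rw [mul_sum]
        refine sum_congr rfl fun f _ => ?_
        ring
      rw [sum_congr rfl e2, sum_comm]
      refine sum_congr rfl fun i _ => ?_
      rw [sum_comm]
      refine sum_congr rfl fun b _ => ?_
      rw [sum_comm]
      refine sum_congr rfl fun f _ => ?_
      rw [mul_sum]
    rw [e1]
    have e3 : ∀ i : Fin 4, ∑ b ∈ Icc 1 Bd, ∑ f ∈ m.divisors, 1 / (m : ℝ) *
          ∑ k ∈ (Icc 1 N).filter (fun k => Y < 2 * k), om X k / √(k : ℝ) *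
            Bb (2 * X / (b : ℝ) ^ 2 + 1) (α * (fam s i).r * (Nat.lcm (b ^ 2) f : ℕ)) k ≤
        A * ∑ _f ∈ m.divisors, 1 / (m : ℝ) := by
      intro i
      calc _ ≤ ∑ b ∈ Icc 1 Bd, ∑ f ∈ m.divisors, 1 / (m : ℝ) *
            (4096 * L ^ 2 * ((2 * X / (b : ℝ) ^ 2 + 1) / Y + √X)) := by
            refine sum_le_sum fun b _ => sum_le_sum fun f _ => ?_
            exact mul_le_mul_of_nonneg_left (KS Y N hY hN hNX _ _ (hTb b)) (by positivity)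
        _ = (∑ b ∈ Icc 1 Bd, 4096 * L ^ 2 * ((2 * X / (b : ℝ) ^ 2 + 1) / Y + √X)) *
            ∑ _f ∈ m.divisors, 1 / (m : ℝ) := by
            rw [sum_mul]
            refine sum_congr rfl fun b _ => ?_
            rw [← sum_mul]
            ring
        _ ≤ _ := mul_le_mul_of_nonneg_right hb (sum_nonneg fun _ _ => by positivity)
    calc _ ≤ ∑ _i : Fin 4, A * ∑ _f ∈ m.divisors, 1 / (m : ℝ) := sum_le_sum fun i _ => e3 i
      _ = _ := by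
          rw [sum_const, card_univ, Fintype.card_fin, nsmul_eq_mul]
          push_cast
          ring
  calc _ ≤ ∑ j ∈ range (Nat.log 2 N + 1), ∑ m ∈ Icc 1 N, 4 * A * ∑ _f ∈ m.divisors, 1 / (m : ℝ) :=
        sum_le_sum fun j hj => sum_le_sum fun m hm => h2 j hj m hm
    _ = ((Nat.log 2 N + 1 : ℕ) : ℝ) * (4 * A * ∑ m ∈ Icc 1 N, ∑ _f ∈ m.divisors, 1 / (m : ℝ)) := by
        rw [sum_const, card_range, nsmul_eq_mul, ← mul_sum]
    _ ≤ 2 * L * (4 * A * L ^ 2) := by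
        have e1 := tau_sum N
        have e2 := harm_le hN hNX
        have e3 : 0 ≤ ∑ f ∈ Icc 1 N, 1 / (f : ℝ) := sum_nonneg fun _ _ => by positivity
        have e4 : (∑ f ∈ Icc 1 N, 1 / (f : ℝ)) ^ 2 ≤ L ^ 2 := pow_le_pow_left₀ e3 e2 2
        refine mul_le_mul (logN_le hN hNX) ?_ ?_ (by positivity)
        · exact mul_le_mul_of_nonneg_left (e1.trans e4) (by positivity)
        · exact mul_nonneg (by positivity)
            (sum_nonneg fun _ _ => sum_nonneg fun _ _ => by positivity)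
    _ ≤ 2 ^ 17 * L ^ 5 * (X / Y + Bd * √X) := by
        rw [hA]
        have e1 : 2 * L * (4 * (4096 * L ^ 2 * (4 * X / Y + 2 * (Bd * √X))) * L ^ 2) =
            2 ^ 17 * L ^ 5 * (X / Y + 1 / 2 * (Bd * √X)) := by ring
        rw [e1]
        refine mul_le_mul_of_nonneg_left ?_ (by positivity)
        have : 0 ≤ (Bd : ℝ) * √X := by positivity
        linarith

lemma rpow_78 {X : ℝ} (hX : 1 ≤ X) : √(√X) * X ^ (5 / 8 : ℝ) = X ^ (7 / 8 : ℝ) ∧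
    X ^ (3 / 8 : ℝ) * √X = X ^ (7 / 8 : ℝ) ∧ √(√X) ≤ X ^ (7 / 8 : ℝ) ∧ 1 ≤ X ^ (7 / 8 : ℝ) := by
  have h0 : 0 < X := by linarith
  have h1 : √X = X ^ (1 / 2 : ℝ) := Real.sqrt_eq_rpow X
  have h2 : √(√X) = X ^ (1 / 4 : ℝ) := by
    rw [h1, Real.sqrt_eq_rpow, ← Real.rpow_mul h0.le]
    norm_num
  refine ⟨?_, ?_, ?_, ?_⟩
  · rw [h2, ← Real.rpow_add h0]
    norm_num
  · rw [h1, ← Real.rpow_add h0]
    norm_num
  · rw [h2]
    exact Real.rpow_le_rpow_of_exponent_le hX (by norm_num)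
  · exact Real.one_le_rpow hX (by norm_num)

/-- the Fourier bound for the part of the approximate functional equation outside of `Sm Y` -/
theorem sup_pv : ∃ C : ℝ, 0 < C ∧ ∀ (s : ℤ) (X α : ℝ) (Y : ℕ) (P : ℕ → Prop) [DecidablePred P],
    s = 1 ∨ s = -1 → 1 ≤ X → 1 ≤ Y → (∀ n, P n → ¬ Sm Y n) →
    ‖∑ q ∈ Q s X, PV s P q * e (α * q)‖ ≤
      C * (1 + Real.log X) ^ 5 * (X / Y + X ^ (7 / 8 : ℝ)) := by
  obtain ⟨C1, hC1, hV1⟩ := V_om 1
  obtain ⟨C2, hC2, hV2⟩ := V_om (-1)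
  set C0 := max C1 C2 with hC0
  have hC01 : 1 ≤ C0 := hC1.trans (le_max_left _ _)
  have hV : ∀ s : ℤ, s = 1 ∨ s = -1 → ∀ (X : ℝ) (n : ℕ), 1 ≤ X → 1 ≤ n →
      V s ((n : ℝ) ^ 2 / X) ≤ C0 * om X n := by
    intro s hs X n hX hn
    rcases hs with rfl | rfl
    · exact (hV1 X n hX hn).trans (mul_le_mul_of_nonneg_right (le_max_left _ _) (om_nonneg _ _))
    · exact (hV2 X n hX hn).trans (mul_le_mul_of_nonneg_right (le_max_right _ _) (om_nonneg _ _))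
  refine ⟨2 ^ 22 * C0, by positivity, fun s X α Y P _ hs hX hY hP => ?_⟩
  refine (part_b s hs X α P).trans ?_
  have hN : 1 ≤ ⌊X⌋₊ := Nat.le_floor (by exact_mod_cast hX)
  have hNX : ((⌊X⌋₊ : ℕ) : ℝ) ≤ X := Nat.floor_le (by linarith)
  set L := 1 + Real.log X with hL
  have hL1 : 1 ≤ L := by
    have := Real.log_nonneg hX
    linarith
  have hYR : (1 : ℝ) ≤ Y := by exact_mod_cast hY
  obtain ⟨r1, r2, r3, r4⟩ := rpow_78 hX
  have hX0 : 0 < X := by linarith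
  -- the parameter
  set Bd := ⌈X ^ (3 / 8 : ℝ)⌉₊ with hBd
  have hp1 : 1 ≤ X ^ (3 / 8 : ℝ) := Real.one_le_rpow hX (by norm_num)
  have hB1 : X ^ (3 / 8 : ℝ) ≤ Bd := Nat.le_ceil _
  have hB2 : (Bd : ℝ) ≤ 2 * X ^ (3 / 8 : ℝ) := by
    have := Nat.ceil_lt_add_one (show 0 ≤ X ^ (3 / 8 : ℝ) by positivity)
    linarith
  have hBd1 : 1 ≤ Bd := by
    have : (1 : ℝ) ≤ Bd := hp1.trans hB1
    exact_mod_cast this
  have hBR : (0 : ℝ) < Bd := by exact_mod_cast hBd1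
  have hXB : 4 * X / Bd ≤ 4 * X ^ (5 / 8 : ℝ) := by
    rw [div_le_iff₀ hBR]
    have e1 : X = X ^ (5 / 8 : ℝ) * X ^ (3 / 8 : ℝ) := by
      rw [← Real.rpow_add hX0]
      norm_num
    calc 4 * X = 4 * (X ^ (5 / 8 : ℝ) * X ^ (3 / 8 : ℝ)) := by rw [← e1]
      _ ≤ 4 * (X ^ (5 / 8 : ℝ) * Bd) := by
          refine mul_le_mul_of_nonneg_left (mul_le_mul_of_nonneg_left hB1 (by positivity)) (by norm_num)
      _ = _ := by ring
  set S := (Icc 1 ⌊X⌋₊).filter P with hS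
  have hSn : ∀ n ∈ S, 1 ≤ n ∧ n ≤ ⌊X⌋₊ ∧ ¬ Sm Y n := by
    intro n hn
    rw [hS, mem_filter, mem_Icc] at hn
    exact ⟨hn.1.1, hn.1.2, hP n hn.2⟩
  set H : ℕ → ℝ := fun n => ∑ i : Fin 4, ∑ b ∈ Icc 1 Bd, ∑ f ∈ (dec n).2.2.divisors,
        Bb (2 * X / (b : ℝ) ^ 2 + 1) (α * (fam s i).r * (Nat.lcm (b ^ 2) f : ℕ)) (dec n).2.1 with hH
  have hH0 : ∀ n, 0 ≤ H n := fun n =>
    sum_nonneg fun i _ => sum_nonneg fun b _ => sum_nonneg fun f _ => Bb_nonneg (by positivity) _ _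
  have h1 : ∀ n ∈ S, 1 / √(n : ℝ) * ∑ i : Fin 4,
        ‖∑ d ∈ DF (fam s i) X, gg s n α ((fam s i).r * d) *
          ((Pool.Agent.H306R2.RG.cf (fam s i) d n : ℝ) : ℂ)‖ ≤
      C0 * (20 * X ^ (7 / 8 : ℝ) * (1 / (n : ℝ)) + 2 * (om X n / √n * H n)) := by
    intro n hn
    obtain ⟨n1, n2, n3⟩ := hSn n hn
    have hnR : (0 : ℝ) < n := by exact_mod_cast n1
    have hsn : (0 : ℝ) < √n := Real.sqrt_pos.2 hnR
    have hsnn : √(n : ℝ) * √n = n := Real.mul_self_sqrt hnR.le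
    have hW0 : 0 ≤ V s ((n : ℝ) ^ 2 / X) := ((V_facts s).2.1 _ (by positivity)).1
    have e1 : ∑ i : Fin 4,
        ‖∑ d ∈ DF (fam s i) X, gg s n α ((fam s i).r * d) *
          ((Pool.Agent.H306R2.RG.cf (fam s i) d n : ℝ) : ℂ)‖ ≤
        V s ((n : ℝ) ^ 2 / X) * (4 * (1 + 4 * X / Bd) + 2 * H n) := by
      refine (sum_le_sum fun i _ => fam_inner s hs X hX n n1 α Bd hBd1 i).trans (le_of_eq ?_)
      rw [← mul_sum]
      congr 1
      rw [sum_add_distrib, sum_const, card_univ, Fintype.card_fin, nsmul_eq_mul, ← mul_sum]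
      push_cast
      ring
    have hK0 : 0 ≤ 4 * (1 + 4 * X / Bd) + 2 * H n := by
      have := hH0 n
      have : 0 ≤ 4 * X / Bd := by positivity
      linarith [hH0 n]
    have e2 : V s ((n : ℝ) ^ 2 / X) * (4 * (1 + 4 * X / Bd) + 2 * H n) ≤
        C0 * om X n * (4 * (1 + 4 * X / Bd) + 2 * H n) :=
      mul_le_mul_of_nonneg_right (hV s hs X n hX n1) hK0
    have e3 : om X n / √n ≤ √(√X) * (1 / n) := by
      have := om_quarter hX n1
      calc om X n / √n ≤ (√(√X) / √n) / √n := div_le_div_of_nonneg_right this hsn.le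
        _ = √(√X) * (1 / n) := by rw [div_div, hsnn]; ring
    have e4 : 4 * (1 + 4 * X / Bd) * √(√X) ≤ 20 * X ^ (7 / 8 : ℝ) := by
      have a1 : 4 * X / Bd * √(√X) ≤ 4 * X ^ (5 / 8 : ℝ) * √(√X) :=
        mul_le_mul_of_nonneg_right hXB (Real.sqrt_nonneg _)
      have a2 : 4 * X ^ (5 / 8 : ℝ) * √(√X) = 4 * X ^ (7 / 8 : ℝ) := by
        rw [← r1]
        ring
      nlinarith
    calc _ ≤ 1 / √(n : ℝ) * (C0 * om X n * (4 * (1 + 4 * X / Bd) + 2 * H n)) :=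
          mul_le_mul_of_nonneg_left (e1.trans e2) (by positivity)
      _ = C0 * (4 * (1 + 4 * X / Bd) * (om X n / √n) + 2 * (om X n / √n * H n)) := by
          field_simp
      _ ≤ _ := by
          refine mul_le_mul_of_nonneg_left ?_ (by linarith)
          refine add_le_add ?_ le_rfl
          have hq : 0 ≤ 4 * (1 + 4 * X / Bd) := by positivity
          calc 4 * (1 + 4 * X / Bd) * (om X n / √n) ≤ 4 * (1 + 4 * X / Bd) * (√(√X) * (1 / n)) :=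
                mul_le_mul_of_nonneg_left e3 hq
            _ = (4 * (1 + 4 * X / Bd) * √(√X)) * (1 / n) := by ring
            _ ≤ _ := mul_le_mul_of_nonneg_right e4 (by positivity)
  have h2 : ∑ n ∈ S, 1 / (n : ℝ) ≤ L := by
    refine le_trans ?_ (harm_le hN hNX)
    exact sum_le_sum_of_subset_of_nonneg (filter_subset _ _) fun _ _ _ => by positivity
  have h3 := part_c s X hX α Y Bd hY hBd1 S hSn
  have h4 : (Bd : ℝ) * √X ≤ 2 * X ^ (7 / 8 : ℝ) := by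
    calc (Bd : ℝ) * √X ≤ 2 * X ^ (3 / 8 : ℝ) * √X :=
          mul_le_mul_of_nonneg_right hB2 (Real.sqrt_nonneg _)
      _ = 2 * X ^ (7 / 8 : ℝ) := by rw [← r2]; ring
  have hXY : 0 ≤ X / (Y : ℝ) := by positivity
  have hZ : 0 ≤ X ^ (7 / 8 : ℝ) := by linarith
  have hL5 : L ≤ L ^ 5 := le_self_pow₀ hL1 (by norm_num)
  calc 2 * ∑ n ∈ S, 1 / √(n : ℝ) * ∑ i : Fin 4,
        ‖∑ d ∈ DF (fam s i) X, gg s n α ((fam s i).r * d) *
          ((Pool.Agent.H306R2.RG.cf (fam s i) d n : ℝ) : ℂ)‖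
      ≤ 2 * ∑ n ∈ S, C0 * (20 * X ^ (7 / 8 : ℝ) * (1 / (n : ℝ)) + 2 * (om X n / √n * H n)) :=
        mul_le_mul_of_nonneg_left (sum_le_sum h1) (by norm_num)
    _ = C0 * (40 * X ^ (7 / 8 : ℝ) * (∑ n ∈ S, 1 / (n : ℝ)) + 4 * ∑ n ∈ S, om X n / √n * H n) := by
        rw [← mul_sum, sum_add_distrib, ← mul_sum, ← mul_sum]
        ring
    _ ≤ C0 * (40 * X ^ (7 / 8 : ℝ) * L + 4 * (2 ^ 17 * L ^ 5 * (X / Y + Bd * √X))) := by
        refine mul_le_mul_of_nonneg_left ?_ (by linarith)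
        refine add_le_add ?_ (mul_le_mul_of_nonneg_left h3 (by norm_num))
        exact mul_le_mul_of_nonneg_left h2 (by positivity)
    _ ≤ C0 * (40 * X ^ (7 / 8 : ℝ) * L ^ 5 + 4 * (2 ^ 17 * L ^ 5 * (X / Y + 2 * X ^ (7 / 8 : ℝ)))) := by
        refine mul_le_mul_of_nonneg_left ?_ (by linarith)
        refine add_le_add (mul_le_mul_of_nonneg_left hL5 (by positivity)) ?_
        refine mul_le_mul_of_nonneg_left ?_ (by norm_num)
        exact mul_le_mul_of_nonneg_left (by linarith) (by positivity)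
    _ = C0 * L ^ 5 * (40 * X ^ (7 / 8 : ℝ) + 2 ^ 19 * (X / Y + 2 * X ^ (7 / 8 : ℝ))) := by ring
    _ ≤ C0 * L ^ 5 * (2 ^ 22 * (X / Y + X ^ (7 / 8 : ℝ))) := by
        refine mul_le_mul_of_nonneg_left ?_ (by positivity)
        nlinarith
    _ = _ := by ring

open Classical in
/-- the Fourier bound -/
theorem sup : ∃ C : ℝ, 0 < C ∧ ∀ (s : ℤ) (X α : ℝ) (Y : ℕ), s = 1 ∨ s = -1 → 1 ≤ X → 1 ≤ Y →
    ‖∑ q ∈ Q s X, (LL s q (1 / 2) - B s Y q) * e (α * q)‖ ≤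
      C * (1 + Real.log X) ^ 5 * (X / Y + X ^ (7 / 8 : ℝ)) := by
  obtain ⟨C, hC, h⟩ := sup_pv
  obtain ⟨C', hC', h'⟩ := afe
  refine ⟨C + C', by positivity, fun s X α Y hs hX hY => ?_⟩
  have hN : 1 ≤ ⌊X⌋₊ := Nat.le_floor (by exact_mod_cast hX)
  have hNX : ((⌊X⌋₊ : ℕ) : ℝ) ≤ X := Nat.floor_le (by linarith)
  set L := 1 + Real.log X with hL
  have hL1 : 1 ≤ L := by
    have := Real.log_nonneg hX
    linarith
  obtain ⟨r1, r2, r3, r4⟩ := rpow_78 hX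
  have hYR : (1 : ℝ) ≤ Y := by exact_mod_cast hY
  have h1 : ∑ q ∈ Q s X, (LL s q (1 / 2) - B s Y q) * e (α * q) =
      ∑ q ∈ Q s X, (LL s q (1 / 2) - 2 * ∑ n ∈ Icc 1 q, vl s q n * (wt s q n : ℂ)) * e (α * q) +
        ∑ q ∈ Q s X, PV s (fun n => ¬ Sm Y n) q * e (α * q) := by
    rw [← sum_add_distrib]
    refine sum_congr rfl fun q _ => ?_
    have : 2 * ∑ n ∈ Icc 1 q, vl s q n * (wt s q n : ℂ) =
        B s Y q + PV s (fun n => ¬ Sm Y n) q := by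
      unfold B PV
      rw [← mul_add, sum_filter_add_sum_filter_not]
    rw [this]
    ring
  rw [h1]
  refine (norm_add_le _ _).trans ?_
  have h2 := h s X α Y (fun n => ¬ Sm Y n) hs hX hY (fun n hn => hn)
  have h3 : ‖∑ q ∈ Q s X, (LL s q (1 / 2) - 2 * ∑ n ∈ Icc 1 q, vl s q n * (wt s q n : ℂ)) *
      e (α * q)‖ ≤ C' * L := by
    refine (norm_sum_le _ _).trans ?_
    calc _ ≤ ∑ q ∈ Q s X, C' * (1 / (q : ℝ)) := by
          refine sum_le_sum fun q hq => ?_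
          unfold Q at hq
          rw [mem_filter] at hq
          rw [norm_mul, e_norm, mul_one]
          refine (h' s q hs hq.2).trans (le_of_eq ?_)
          ring
      _ ≤ ∑ q ∈ Icc 1 ⌊X⌋₊, C' * (1 / (q : ℝ)) := by
          refine sum_le_sum_of_subset_of_nonneg (fun q hq => ?_) fun _ _ _ => by positivity
          unfold Q at hq
          rw [mem_filter, mem_Ico, Nat.lt_ceil] at hq
          rw [mem_Icc]
          exact ⟨by omega, Nat.le_floor hq.1.2.le⟩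
      _ = C' * ∑ q ∈ Icc 1 ⌊X⌋₊, 1 / (q : ℝ) := by rw [mul_sum]
      _ ≤ C' * L := mul_le_mul_of_nonneg_left (harm_le hN hNX) hC'.le
  have hXY : 0 ≤ X / (Y : ℝ) := by positivity
  have hL5 : L ≤ L ^ 5 := le_self_pow₀ hL1 (by norm_num)
  have h4 : C' * L ≤ C' * L ^ 5 * (X / Y + X ^ (7 / 8 : ℝ)) := by
    calc C' * L ≤ C' * L ^ 5 * 1 := by
          rw [mul_one]
          exact mul_le_mul_of_nonneg_left hL5 hC'.le
      _ ≤ _ := mul_le_mul_of_nonneg_left (by linarith) (by positivity)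
  calc _ ≤ C' * L ^ 5 * (X / Y + X ^ (7 / 8 : ℝ)) + C * L ^ 5 * (X / Y + X ^ (7 / 8 : ℝ)) :=
        add_le_add (h3.trans h4) h2
    _ = _ := by ring

end

end Pool.Agent.J4.H39.CM
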