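import Pool.Agent.J4.H39.CM.Def2

set_option autoImplicit false

/-!
Project CM (helper39): the Fourier bound for the model with odd squarefree part `≤ Y`.
-/

namespace Pool.Agent.J4.H39.CM

open Complex Finset
open Pool.Agent.N879.QM
open Pool.Agent.N879.QM.Avg (fam)

noncomputable section

lemma dec_dvd {n k0 m0 : ℕ} (hn : n ≠ 0) (h : n = k0 * m0 ^ 2) : (dec n).2.1 ∣ k0 := by
  obtain ⟨h1, h2, h3, h4, -, -⟩ := dec_spec hn
  set k := (dec n).2.1 with hk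
  set m := (dec n).2.2 with hm
  set j := (dec n).1 with hj
  have e1 : 2 ^ j * (k * m ^ 2) = k0 * m0 ^ 2 := by rw [← h1, h]
  have hm0 : 0 < m := Nat.pos_of_ne_zero h4
  have e2 : (k0 * m0) ^ 2 = (k * k0 * 2 ^ j) * m ^ 2 := by
    calc (k0 * m0) ^ 2 = k0 * (k0 * m0 ^ 2) := by ring
      _ = k0 * (2 ^ j * (k * m ^ 2)) := by rw [e1]
      _ = _ := by ring
  have e3 : m ∣ k0 * m0 := by
    have : m ^ 2 ∣ (k0 * m0) ^ 2 := ⟨k * k0 * 2 ^ j, by rw [e2]; ring⟩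
    exact (Nat.pow_dvd_pow_iff (by norm_num)).1 this
  obtain ⟨y, hy⟩ := e3
  have e4 : k * k0 * 2 ^ j = y ^ 2 := by
    have : (k * k0 * 2 ^ j) * m ^ 2 = y ^ 2 * m ^ 2 := by
      rw [← e2, hy]
      ring
    exact Nat.eq_of_mul_eq_mul_right (by positivity) this
  have e5 : k ∣ y := by
    have : k ∣ y ^ 2 := ⟨k0 * 2 ^ j, by rw [← e4]; ring⟩
    exact (h3.dvd_pow_iff_dvd (by norm_num)).1 this
  obtain ⟨z, hz⟩ := e5
  have e6 : k0 * 2 ^ j = k * z ^ 2 := by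
    have : k * (k0 * 2 ^ j) = k * (k * z ^ 2) := by
      calc k * (k0 * 2 ^ j) = k * k0 * 2 ^ j := by ring
        _ = y ^ 2 := e4
        _ = _ := by rw [hz]; ring
    exact Nat.eq_of_mul_eq_mul_left h2.pos this
  have e7 : k ∣ k0 * 2 ^ j := ⟨z ^ 2, e6⟩
  have e8 : Nat.Coprime k (2 ^ j) := Nat.Coprime.pow_right _ (Nat.coprime_two_right.2 h2)
  exact e8.dvd_of_dvd_mul_right e7

lemma not_PY {Y n : ℕ} (hn : n ≠ 0) (h : ¬ PY Y n) : ¬ Sm Y n := by
  rintro ⟨k0, m0, hk, hnk⟩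
  apply h
  have hk0 : k0 ≠ 0 := by
    rintro rfl
    apply hn
    rw [hnk]
    ring
  exact (Nat.le_of_dvd (Nat.pos_of_ne_zero hk0) (dec_dvd hn hnk)).trans hk

open Classical in
/-- `L(1/2, χ)` for the conductor `q`, `0` if there is none -/
def L1 (s : ℤ) (q : ℕ) : ℂ := if Is s q then LL s q (1 / 2) else 0

open Classical in
/-- the model -/
def M1 (s : ℤ) (Y q : ℕ) : ℂ := if Is s q then PV s (PY Y) q else 0

open Classical in
lemma sum_Q (s : ℤ) (N : ℕ) (F : ℕ → ℂ) : ∑ q ∈ Q s ((N + 1 : ℕ) : ℝ), F q =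
    ∑ q ∈ range (N + 1), if Is s q then F q else 0 := by
  unfold Q
  rw [Nat.ceil_natCast, sum_filter]
  have : range (N + 1) = Ico 0 (N + 1) := by rw [range_eq_Ico]
  rw [this]
  symm
  refine sum_subset_zero_on_sdiff ?_ ?_ ?_ |>.symm
  · intro q hq
    rw [mem_Ico] at hq ⊢
    omega
  · intro q hq
    rw [mem_sdiff, mem_Ico, mem_Ico] at hq
    rw [if_neg]
    intro h
    have := h.1
    omega
  · intro q _
    rfl

open Classical in
theorem supY : ∃ C : ℝ, 0 < C ∧ ∀ (s : ℤ) (N Y : ℕ) (α : ℝ), s = 1 ∨ s = -1 → 1 ≤ N → 1 ≤ Y →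
    ‖∑ q ∈ range (N + 1), (L1 s q - M1 s Y q) * e (α * q)‖ ≤
      C * (1 + Real.log N) ^ 5 * (N / Y + (N : ℝ) ^ (7 / 8 : ℝ)) := by
  obtain ⟨C, hC, h⟩ := sup_pv
  obtain ⟨C', hC', h'⟩ := afe
  refine ⟨64 * (C + C'), by positivity, fun s N Y α hs hN hY => ?_⟩
  have hNR : (1 : ℝ) ≤ N := by exact_mod_cast hN
  have hYR : (1 : ℝ) ≤ Y := by exact_mod_cast hY
  set X : ℝ := ((N + 1 : ℕ) : ℝ) with hX
  have hXN : X = N + 1 := by rw [hX]; push_cast; ring
  have hX1 : 1 ≤ X := by linarith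
  have h0 : ∑ q ∈ range (N + 1), (L1 s q - M1 s Y q) * e (α * q) =
      ∑ q ∈ Q s X, (LL s q (1 / 2) - PV s (PY Y) q) * e (α * q) := by
    rw [sum_Q]
    refine sum_congr rfl fun q _ => ?_
    unfold L1 M1
    split_ifs
    · rfl
    · ring
  have h1 : ∑ q ∈ Q s X, (LL s q (1 / 2) - PV s (PY Y) q) * e (α * q) =
      ∑ q ∈ Q s X, (LL s q (1 / 2) - 2 * ∑ n ∈ Icc 1 q, vl s q n * (wt s q n : ℂ)) * e (α * q) +
        ∑ q ∈ Q s X, PV s (fun n => n ≠ 0 ∧ ¬ PY Y n) q * e (α * q) := by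
    rw [← sum_add_distrib]
    refine sum_congr rfl fun q _ => ?_
    have : 2 * ∑ n ∈ Icc 1 q, vl s q n * (wt s q n : ℂ) =
        PV s (PY Y) q + PV s (fun n => n ≠ 0 ∧ ¬ PY Y n) q := by
      unfold PV
      rw [← mul_add]
      congr 1
      rw [← sum_filter_add_sum_filter_not (Icc 1 q) (PY Y)]
      congr 1
      refine sum_congr ?_ fun _ _ => rfl
      ext n
      rw [mem_filter, mem_filter, mem_Icc]
      constructor
      · rintro ⟨a, b⟩
        exact ⟨a, by omega, b⟩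
      · rintro ⟨a, -, b⟩
        exact ⟨a, b⟩
    rw [this]
    ring
  rw [h0, h1]
  refine (norm_add_le _ _).trans ?_
  have hlN : 0 ≤ Real.log N := Real.log_nonneg hNR
  have hLX : 1 + Real.log X ≤ 2 * (1 + Real.log N) := by
    have : X ≤ 2 * N := by linarith
    have h2 := Real.log_le_log (by linarith) this
    rw [Real.log_mul (by norm_num) (by linarith)] at h2
    have := Real.log_two_lt_d9
    linarith
  have hLX0 : 0 ≤ 1 + Real.log X := by
    have := Real.log_nonneg hX1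
    linarith
  have h2 := h s X α Y (fun n => n ≠ 0 ∧ ¬ PY Y n) hs hX1 hY (fun n hn => not_PY hn.1 hn.2)
  have h3 : ‖∑ q ∈ Q s X, (LL s q (1 / 2) - 2 * ∑ n ∈ Icc 1 q, vl s q n * (wt s q n : ℂ)) *
      e (α * q)‖ ≤ C' * (1 + Real.log N) := by
    refine (norm_sum_le _ _).trans ?_
    calc _ ≤ ∑ q ∈ Q s X, C' * (1 / (q : ℝ)) := by
          refine sum_le_sum fun q hq => ?_
          unfold Q at hq
          rw [mem_filter] at hq
          rw [norm_mul, e_norm, mul_one]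
          refine (h' s q hs hq.2).trans (le_of_eq ?_)
          ring
      _ ≤ ∑ q ∈ Icc 1 N, C' * (1 / (q : ℝ)) := by
          refine sum_le_sum_of_subset_of_nonneg (fun q hq => ?_) fun _ _ _ => by positivity
          unfold Q at hq
          rw [mem_filter, mem_Ico, hX, Nat.ceil_natCast] at hq
          rw [mem_Icc]
          omega
      _ = C' * ∑ q ∈ Icc 1 N, 1 / (q : ℝ) := by rw [mul_sum]
      _ ≤ C' * (1 + Real.log N) := mul_le_mul_of_nonneg_left (harm_le hN le_rfl) hC'.le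
  set L := 1 + Real.log N with hL
  have hL1 : 1 ≤ L := by linarith
  have hL5 : L ≤ L ^ 5 := le_self_pow₀ hL1 (by norm_num)
  have hp : 1 ≤ (N : ℝ) ^ (7 / 8 : ℝ) := Real.one_le_rpow hNR (by norm_num)
  have hNY : 0 ≤ (N : ℝ) / Y := by positivity
  have h4 : C' * L ≤ C' * L ^ 5 * (N / Y + (N : ℝ) ^ (7 / 8 : ℝ)) := by
    calc C' * L ≤ C' * L ^ 5 * 1 := by
          rw [mul_one]
          exact mul_le_mul_of_nonneg_left hL5 hC'.le
      _ ≤ _ := mul_le_mul_of_nonneg_left (by linarith) (by positivity)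
  have h5 : X / Y + X ^ (7 / 8 : ℝ) ≤ 2 * (N / Y + (N : ℝ) ^ (7 / 8 : ℝ)) := by
    have a1 : X / Y ≤ 2 * (N / Y) := by
      rw [← mul_div_assoc]
      exact div_le_div_of_nonneg_right (by linarith) (by linarith)
    have a2 : X ^ (7 / 8 : ℝ) ≤ 2 * (N : ℝ) ^ (7 / 8 : ℝ) := by
      calc X ^ (7 / 8 : ℝ) ≤ (2 * N) ^ (7 / 8 : ℝ) :=
            Real.rpow_le_rpow (by linarith) (by linarith) (by norm_num)
        _ = 2 ^ (7 / 8 : ℝ) * (N : ℝ) ^ (7 / 8 : ℝ) := Real.mul_rpow (by norm_num) (by linarith)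
        _ ≤ 2 * (N : ℝ) ^ (7 / 8 : ℝ) := by
            refine mul_le_mul_of_nonneg_right ?_ (by positivity)
            calc (2 : ℝ) ^ (7 / 8 : ℝ) ≤ 2 ^ (1 : ℝ) :=
                  Real.rpow_le_rpow_of_exponent_le (by norm_num) (by norm_num)
              _ = 2 := Real.rpow_one _
    linarith
  have h6 : (1 + Real.log X) ^ 5 ≤ 32 * L ^ 5 := by
    calc (1 + Real.log X) ^ 5 ≤ (2 * L) ^ 5 := pow_le_pow_left₀ hLX0 hLX 5
      _ = 32 * L ^ 5 := by ring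
  have h7 : ‖∑ q ∈ Q s X, PV s (fun n => n ≠ 0 ∧ ¬ PY Y n) q * e (α * q)‖ ≤
      64 * C * L ^ 5 * (N / Y + (N : ℝ) ^ (7 / 8 : ℝ)) := by
    refine h2.trans ?_
    calc C * (1 + Real.log X) ^ 5 * (X / Y + X ^ (7 / 8 : ℝ)) ≤
          C * (32 * L ^ 5) * (2 * (N / Y + (N : ℝ) ^ (7 / 8 : ℝ))) := by
          refine mul_le_mul (mul_le_mul_of_nonneg_left h6 hC.le) h5 (by positivity) (by positivity)
      _ = _ := by ring
  have h8 : C' * L ^ 5 * (N / Y + (N : ℝ) ^ (7 / 8 : ℝ)) ≤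
      64 * C' * L ^ 5 * (N / Y + (N : ℝ) ^ (7 / 8 : ℝ)) := by
    refine mul_le_mul_of_nonneg_right ?_ (by positivity)
    refine mul_le_mul_of_nonneg_right ?_ (by positivity)
    linarith
  calc _ ≤ 64 * C' * L ^ 5 * (N / Y + (N : ℝ) ^ (7 / 8 : ℝ)) +
        64 * C * L ^ 5 * (N / Y + (N : ℝ) ^ (7 / 8 : ℝ)) :=
        add_le_add ((h3.trans h4).trans h8) h7
    _ = _ := by ring

end

end Pool.Agent.J4.H39.CM
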