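import Pool.Agent.J4.H39.CM.Msup

set_option autoImplicit false

/-!
Project CM (helper39): second moments of `L(1/2, χ)` and of the truncated singular series.
-/

namespace Pool.Agent.J4.H39.CM

open Complex Finset
open Pool.Agent.N879.QM
open Pool.Agent.N879.QM.Avg (fam)

noncomputable section

open Classical in
theorem l1sq (ε : ℝ) (hε : 0 < ε) : ∃ C : ℝ, 0 < C ∧ ∀ (s : ℤ) (N : ℕ), s = 1 ∨ s = -1 → 1 ≤ N →
    ∑ q ∈ range (N + 1), ‖L1 s q‖ ^ 2 ≤ C * (N : ℝ) ^ (1 + ε) := by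
  obtain ⟨C, hC, h⟩ := l2 ε hε
  obtain ⟨C', hC', h'⟩ := afe
  refine ⟨2 * C * 2 ^ (1 + ε) + 4 * C' ^ 2, by positivity, fun s N hs hN => ?_⟩
  have hNR : (1 : ℝ) ≤ N := by exact_mod_cast hN
  have h0 : ∑ q ∈ range (N + 1), ‖L1 s q‖ ^ 2 =
      ∑ q ∈ Q s ((N + 1 : ℕ) : ℝ), ‖LL s q (1 / 2)‖ ^ 2 := by
    have := sum_Q s N (fun q => ((‖LL s q (1 / 2)‖ ^ 2 : ℝ) : ℂ))
    have h2 : ((∑ q ∈ Q s ((N + 1 : ℕ) : ℝ), ‖LL s q (1 / 2)‖ ^ 2 : ℝ) : ℂ) =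
        ((∑ q ∈ range (N + 1), ‖L1 s q‖ ^ 2 : ℝ) : ℂ) := by
      push_cast
      push_cast at this
      rw [this]
      refine sum_congr rfl fun q _ => ?_
      unfold L1
      split_ifs <;> simp
    exact (Complex.ofReal_injective h2).symm
  rw [h0]
  have h1' := h s ((N + 1 : ℕ) : ℝ) (fun _ => True) hs (by push_cast; linarith)
  have hPV : ∀ (d1 d2 : DecidablePred (fun _ : ℕ => True)) (q : ℕ),
      @PV s (fun _ => True) d1 q = @PV s (fun _ => True) d2 q := fun d1 d2 q => by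
    rw [Subsingleton.elim d1 d2]
  have h1 : ∑ q ∈ Q s ((N + 1 : ℕ) : ℝ), ‖PV s (fun _ => True) q‖ ^ 2 ≤ C * ((N + 1 : ℕ) : ℝ) ^ (1 + ε) := by
    refine le_trans (le_of_eq (sum_congr rfl fun q _ => ?_)) h1'
    exact congrArg (fun z : ℂ => ‖z‖ ^ 2) (hPV _ _ q)
  have h2 : ∀ q ∈ Q s ((N + 1 : ℕ) : ℝ), ‖LL s q (1 / 2)‖ ^ 2 ≤
      2 * ‖PV s (fun _ => True) q‖ ^ 2 + 2 * C' ^ 2 := by
    intro q hq
    unfold Q at hq
    rw [mem_filter, mem_Ico] at hq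
    have e1 := h' s q hs hq.2
    have e2 : 2 * ∑ n ∈ Icc 1 q, vl s q n * (wt s q n : ℂ) = PV s (fun _ => True) q := by
      unfold PV
      rw [filter_true_of_mem (fun _ _ => trivial)]
    rw [e2] at e1
    have hq1 : (1 : ℝ) ≤ q := by
      have : 1 ≤ q := by omega
      exact_mod_cast this
    have e3 : C' / q ≤ C' := div_le_self hC'.le hq1
    have e4 : ‖LL s q (1 / 2)‖ ≤ ‖PV s (fun _ => True) q‖ + C' := by
      calc ‖LL s q (1 / 2)‖ = ‖PV s (fun _ => True) q + (LL s q (1 / 2) - PV s (fun _ => True) q)‖ := by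
            congr 1
            ring
        _ ≤ _ := (norm_add_le _ _).trans (by linarith)
    calc ‖LL s q (1 / 2)‖ ^ 2 ≤ (‖PV s (fun _ => True) q‖ + C') ^ 2 :=
          pow_le_pow_left₀ (norm_nonneg _) e4 2
      _ ≤ _ := by nlinarith [sq_nonneg (‖PV s (fun _ => True) q‖ - C')]
  have hcard : ((Q s ((N + 1 : ℕ) : ℝ)).card : ℝ) ≤ 2 * N := by
    have a1 : (Q s ((N + 1 : ℕ) : ℝ)).card ≤ (Ico 2 (N + 1)).card := by
      unfold Q
      rw [Nat.ceil_natCast]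
      exact card_filter_le _ _
    rw [Nat.card_Ico] at a1
    have a2 : (Q s ((N + 1 : ℕ) : ℝ)).card ≤ 2 * N := by omega
    exact_mod_cast a2
  have hp : (N : ℝ) ≤ (N : ℝ) ^ (1 + ε) := by
    calc (N : ℝ) = (N : ℝ) ^ (1 : ℝ) := (Real.rpow_one _).symm
      _ ≤ _ := Real.rpow_le_rpow_of_exponent_le hNR (by linarith)
  have hp2 : (((N + 1 : ℕ) : ℝ)) ^ (1 + ε) ≤ 2 ^ (1 + ε) * (N : ℝ) ^ (1 + ε) := by
    rw [← Real.mul_rpow (by norm_num) (by linarith)]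
    refine Real.rpow_le_rpow (by positivity) ?_ (by linarith)
    push_cast
    linarith
  calc _ ≤ ∑ q ∈ Q s ((N + 1 : ℕ) : ℝ), (2 * ‖PV s (fun _ => True) q‖ ^ 2 + 2 * C' ^ 2) := sum_le_sum h2
    _ = 2 * ∑ q ∈ Q s ((N + 1 : ℕ) : ℝ), ‖PV s (fun _ => True) q‖ ^ 2 +
        (Q s ((N + 1 : ℕ) : ℝ)).card * (2 * C' ^ 2) := by
        rw [sum_add_distrib, ← mul_sum, sum_const, nsmul_eq_mul]
    _ ≤ 2 * (C * (2 ^ (1 + ε) * (N : ℝ) ^ (1 + ε))) + 2 * (N : ℝ) ^ (1 + ε) * (2 * C' ^ 2) := by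
        refine add_le_add ?_ ?_
        · refine mul_le_mul_of_nonneg_left (h1.trans ?_) (by norm_num)
          exact mul_le_mul_of_nonneg_left hp2 hC.le
        · exact mul_le_mul_of_nonneg_right (hcard.trans (by linarith)) (by positivity)
    _ = _ := by ring

/-- the singular coefficients are small -/
theorem c_bd (s : ℤ) (hs : s = 1 ∨ s = -1) (B : Fin 4 → ℝ) (ε : ℝ) (hε : 0 < ε) : ∃ C : ℝ, 0 < C ∧
    ∀ θ : ℚ, ‖c1 s θ‖ + ‖c0 s B θ‖ ≤ C * (θ.den : ℝ) ^ (-1 + ε) := by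
  obtain ⟨C, hC, h⟩ := coef_bd s hs B ε hε
  refine ⟨4 * C, by positivity, fun θ => ?_⟩
  have h1 : ‖c1 s θ‖ ≤ ∑ i : Fin 4, ∑' p, ‖tm s i (w1 s i) θ p‖ := by
    unfold c1
    exact (norm_sum_le _ _).trans (sum_le_sum fun i _ => norm_tsum_le_tsum_norm (h i θ).1)
  have h2 : ‖c0 s B θ‖ ≤ ∑ i : Fin 4, ∑' p, ‖tm s i (w0 s B i) θ p‖ := by
    unfold c0
    exact (norm_sum_le _ _).trans (sum_le_sum fun i _ => norm_tsum_le_tsum_norm (h i θ).2.1)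
  calc _ ≤ ∑ i : Fin 4, (∑' p, ‖tm s i (w1 s i) θ p‖ + ∑' p, ‖tm s i (w0 s B i) θ p‖) := by
        rw [sum_add_distrib]
        exact add_le_add h1 h2
    _ ≤ ∑ _i : Fin 4, C * (θ.den : ℝ) ^ (-1 + ε) := sum_le_sum fun i _ => (h i θ).2.2
    _ = _ := by
        rw [sum_const, card_univ, Fintype.card_fin, nsmul_eq_mul]
        push_cast
        ring

lemma sum_Fr (W : ℕ) (F : ℕ → ℝ) (hF : ∀ n, 0 ≤ F n) :
    ∑ θ ∈ Fr W, F θ.den ≤ ∑ b ∈ Icc 1 W, b * F b := by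
  have h1 : ∑ θ ∈ Fr W, F θ.den = ∑ b ∈ Icc 1 W, ∑ θ ∈ (Fr W).filter (fun θ => θ.den = b), F θ.den := by
    rw [sum_fiberwise_of_maps_to]
    intro θ hθ
    rw [mem_Fr] at hθ
    rw [mem_Icc]
    exact ⟨θ.den_pos, hθ.2.2⟩
  rw [h1]
  refine sum_le_sum fun b _ => ?_
  have h2 : ∑ θ ∈ (Fr W).filter (fun θ => θ.den = b), F θ.den =
      ((Fr W).filter (fun θ => θ.den = b)).card * F b := by
    rw [← nsmul_eq_mul, ← sum_const]
    refine sum_congr rfl fun θ hθ => ?_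
    rw [mem_filter] at hθ
    rw [hθ.2]
  rw [h2]
  refine mul_le_mul_of_nonneg_right ?_ (hF b)
  have h3 : ((Fr W).filter (fun θ => θ.den = b)).card ≤ (range b).card := by
    refine card_le_card_of_injOn (fun θ => θ.num.toNat) ?_ ?_
    · intro θ hθ
      rw [mem_coe, mem_filter, mem_Fr] at hθ
      obtain ⟨⟨a1, a2, a3⟩, a4⟩ := hθ
      rw [mem_coe, mem_range]
      have h4 : 0 ≤ θ.num := Rat.num_nonneg.2 a1
      have h5 : θ.num < θ.den := Rat.num_lt_denom_iff.2 a2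
      show θ.num.toNat < b
      omega
    · intro θ hθ θ' hθ' h
      rw [mem_coe, mem_filter, mem_Fr] at hθ hθ'
      have h4 : 0 ≤ θ.num := Rat.num_nonneg.2 hθ.1.1
      have h5 : 0 ≤ θ'.num := Rat.num_nonneg.2 hθ'.1.1
      have h6 : θ.num.toNat = θ'.num.toNat := h
      apply Rat.ext
      · omega
      · rw [hθ.2, hθ'.2]
  rw [card_range] at h3
  exact_mod_cast h3

/-- the second moment of the truncated singular series -/
theorem gmsq (s : ℤ) (hs : s = 1 ∨ s = -1) (B : Fin 4 → ℝ) (ε : ℝ) (hε : 0 < ε) : ∃ C : ℝ, 0 < C ∧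
    ∀ N W : ℕ, 1 ≤ N → 1 ≤ W → W ^ 4096 ≤ N →
    ∑ q ∈ range (N + 1), ‖Gm (Fr W) (c1 s) (c0 s B) q‖ ^ 2 ≤ C * (N : ℝ) ^ (1 + ε) := by
  obtain ⟨C1, hC1, h1⟩ := l2g
  obtain ⟨C2, hC2, h2⟩ := c_bd s hs B (ε / 4) (by linarith)
  obtain ⟨C3, hC3, h3⟩ := c_bd s hs B 1 one_pos
  -- `1 + log N ≤ C N^(ε/8)`
  refine ⟨C1 * (1 + 8 / ε) ^ 3 * (C2 ^ 2 + C3 ^ 2), by positivity, fun N W hN hW hWN => ?_⟩
  have hNR : (1 : ℝ) ≤ N := by exact_mod_cast hN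
  have hWR : (1 : ℝ) ≤ W := by exact_mod_cast hW
  have hN0 : (0 : ℝ) < N := by linarith
  have hW0 : (0 : ℝ) < W := by linarith
  have hlN : 0 ≤ Real.log N := Real.log_nonneg hNR
  have hWN1 : (W : ℝ) ≤ N := by
    have : W ≤ W ^ 4096 := Nat.le_self_pow (by norm_num) W
    exact_mod_cast this.trans hWN
  have hlog : 1 + Real.log N ≤ (1 + 8 / ε) * (N : ℝ) ^ (ε / 8) := by
    have a1 := Real.log_le_rpow_div hN0.le (show 0 < ε / 8 by linarith)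
    have a2 : 1 ≤ (N : ℝ) ^ (ε / 8) := Real.one_le_rpow hNR (by linarith)
    have a3 : (N : ℝ) ^ (ε / 8) / (ε / 8) = 8 / ε * (N : ℝ) ^ (ε / 8) := by
      field_simp
    rw [a3] at a1
    linarith
  have hK2 : ∑ θ ∈ Fr W, (‖c1 s θ‖ + ‖c0 s B θ‖) ^ 2 ≤ C2 ^ 2 * ((1 + Real.log N) * (N : ℝ) ^ (ε / 2)) := by
    calc _ ≤ ∑ θ ∈ Fr W, C2 ^ 2 * (θ.den : ℝ) ^ (-2 + ε / 2) := by
          refine sum_le_sum fun θ _ => ?_
          have hd : (0 : ℝ) < θ.den := by exact_mod_cast θ.den_pos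
          calc (‖c1 s θ‖ + ‖c0 s B θ‖) ^ 2 ≤ (C2 * (θ.den : ℝ) ^ (-1 + ε / 4)) ^ 2 :=
                pow_le_pow_left₀ (by positivity) (h2 θ) 2
            _ = C2 ^ 2 * ((θ.den : ℝ) ^ (-1 + ε / 4)) ^ 2 := by ring
            _ = _ := by
                congr 1
                rw [← Real.rpow_natCast, ← Real.rpow_mul hd.le]
                congr 1
                push_cast
                ring
      _ = C2 ^ 2 * ∑ θ ∈ Fr W, (θ.den : ℝ) ^ (-2 + ε / 2) := by rw [mul_sum]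
      _ ≤ C2 ^ 2 * ∑ b ∈ Icc 1 W, b * (b : ℝ) ^ (-2 + ε / 2) :=
          mul_le_mul_of_nonneg_left (sum_Fr W (fun n => (n : ℝ) ^ (-2 + ε / 2))
            (fun n => by positivity)) (by positivity)
      _ ≤ C2 ^ 2 * ∑ b ∈ Icc 1 W, 1 / (b : ℝ) * (N : ℝ) ^ (ε / 2) := by
          refine mul_le_mul_of_nonneg_left (sum_le_sum fun b hb => ?_) (by positivity)
          rw [mem_Icc] at hb
          have hb0 : (0 : ℝ) < b := by exact_mod_cast hb.1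
          have hbN : (b : ℝ) ≤ N := by
            have : (b : ℝ) ≤ W := by exact_mod_cast hb.2
            linarith
          have e1 : (b : ℝ) * (b : ℝ) ^ (-2 + ε / 2) = 1 / (b : ℝ) * (b : ℝ) ^ (ε / 2) := by
            rw [one_div, ← Real.rpow_neg_one, ← Real.rpow_add hb0]
            nth_rewrite 1 [← Real.rpow_one (b : ℝ)]
            rw [← Real.rpow_add hb0]
            congr 1
            ring
          rw [e1]
          exact mul_le_mul_of_nonneg_left (Real.rpow_le_rpow hb0.le hbN (by linarith)) (by positivity)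
      _ ≤ _ := by
          rw [← sum_mul]
          refine mul_le_mul_of_nonneg_left ?_ (by positivity)
          exact mul_le_mul_of_nonneg_right (harm_le hW hWN1) (by positivity)
  have hK : ∑ θ ∈ Fr W, (‖c1 s θ‖ + ‖c0 s B θ‖) ≤ C3 * (W : ℝ) ^ 2 := by
    calc _ ≤ ∑ _θ ∈ Fr W, C3 := by
          refine sum_le_sum fun θ _ => (h3 θ).trans ?_
          norm_num
      _ = (Fr W).card * C3 := by rw [sum_const, nsmul_eq_mul]
      _ ≤ _ := by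
          rw [mul_comm]
          exact mul_le_mul_of_nonneg_left (card_Fr W) hC3.le
  have h4 := h1 (Fr W) W N (c1 s) (c0 s B) _ _ hN hW (fun θ hθ => mem_Fr.1 hθ) hK hK2
  refine h4.trans ?_
  set Lg := 1 + Real.log N with hLg
  have hLg1 : 1 ≤ Lg := by linarith
  have hW6 : (W : ℝ) ^ 2 * (C3 * (W : ℝ) ^ 2) ^ 2 ≤ C3 ^ 2 * N := by
    have e1 : (W : ℝ) ^ 2 * (C3 * (W : ℝ) ^ 2) ^ 2 = C3 ^ 2 * (W : ℝ) ^ 6 := by ring
    rw [e1]
    refine mul_le_mul_of_nonneg_left ?_ (by positivity)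
    have e2 : (W : ℝ) ^ 6 ≤ (W : ℝ) ^ 4096 := pow_le_pow_right₀ hWR (by norm_num)
    exact e2.trans (by exact_mod_cast hWN)
  have hp1 : 1 ≤ (N : ℝ) ^ (ε / 2) := Real.one_le_rpow hNR (by linarith)
  have e5 : (N : ℝ) * (C2 ^ 2 * (Lg * (N : ℝ) ^ (ε / 2))) + (W : ℝ) ^ 2 * (C3 * (W : ℝ) ^ 2) ^ 2 ≤
      (C2 ^ 2 + C3 ^ 2) * (N * Lg * (N : ℝ) ^ (ε / 2)) := by
    have a1 : C3 ^ 2 * (N : ℝ) ≤ C3 ^ 2 * (N * Lg * (N : ℝ) ^ (ε / 2)) := by
      refine mul_le_mul_of_nonneg_left ?_ (by positivity)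
      calc (N : ℝ) = N * 1 * 1 := by ring
        _ ≤ N * Lg * (N : ℝ) ^ (ε / 2) :=
            mul_le_mul (mul_le_mul_of_nonneg_left hLg1 (by linarith)) hp1 zero_le_one (by positivity)
    calc _ ≤ (N : ℝ) * (C2 ^ 2 * (Lg * (N : ℝ) ^ (ε / 2))) +
          C3 ^ 2 * (N * Lg * (N : ℝ) ^ (ε / 2)) := by linarith
      _ = _ := by ring
  calc C1 * Lg ^ 2 * ((N : ℝ) * (C2 ^ 2 * (Lg * (N : ℝ) ^ (ε / 2))) +
        (W : ℝ) ^ 2 * (C3 * (W : ℝ) ^ 2) ^ 2) ≤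
        C1 * Lg ^ 2 * ((C2 ^ 2 + C3 ^ 2) * (N * Lg * (N : ℝ) ^ (ε / 2))) :=
        mul_le_mul_of_nonneg_left e5 (by positivity)
    _ = C1 * (C2 ^ 2 + C3 ^ 2) * (N * (N : ℝ) ^ (ε / 2)) * Lg ^ 3 := by ring
    _ ≤ C1 * (C2 ^ 2 + C3 ^ 2) * (N * (N : ℝ) ^ (ε / 2)) * ((1 + 8 / ε) * (N : ℝ) ^ (ε / 8)) ^ 3 := by
        refine mul_le_mul_of_nonneg_left ?_ (by positivity)
        exact pow_le_pow_left₀ (by linarith) hlog 3
    _ = C1 * (1 + 8 / ε) ^ 3 * (C2 ^ 2 + C3 ^ 2) *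
        (N * (N : ℝ) ^ (ε / 2) * ((N : ℝ) ^ (ε / 8)) ^ 3) := by ring
    _ ≤ _ := by
        refine mul_le_mul_of_nonneg_left ?_ (by positivity)
        rw [← Real.rpow_natCast, ← Real.rpow_mul hN0.le]
        nth_rewrite 1 [← Real.rpow_one (N : ℝ)]
        rw [← Real.rpow_add hN0, ← Real.rpow_add hN0]
        refine Real.rpow_le_rpow_of_exponent_le hNR ?_
        push_cast
        linarith

end

end Pool.Agent.J4.H39.CM
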