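import Pool.Agent.J4.H39.CM.Tb
import Pool.Agent.J4.H39.CM.Circ

set_option autoImplicit false

/-!
Project CM (helper39): the sums over `q_1 + … + q_t = N`.
-/

namespace Pool.Agent.J4.H39.CM

open Complex Finset
open Pool.Agent.N879.QM
open Pool.Agent.N879.QM.Avg (fam)

noncomputable section

/-- the archimedean sum at the frequency `θ` -/
def J (s : ℤ) (B : Fin 4 → ℝ) (t : ℕ) (θ : ℚ) (N : ℕ) : ℂ :=
  ∑ x ∈ Fintype.piFinset (fun _ : Fin t => range (N + 1)),
    if (∑ i, x i = N ∧ ∀ i, x i ≠ 0) then ∏ i, (c1 s θ * Real.log (x i) + c0 s B θ) else 0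

/-- the terms of the singular series with denominator `b` -/
def MTb (s : ℤ) (B : Fin 4 → ℝ) (t N b : ℕ) : ℂ :=
  ∑ a ∈ (range b).filter (fun a => a.Coprime b), e ((((a : ℚ) / b : ℚ) : ℝ) * N) * J s B t ((a : ℚ) / b) N

/-- the main term -/
def MT (s : ℤ) (B : Fin 4 → ℝ) (t N : ℕ) : ℂ := ∑' b : ℕ, MTb s B t N b

lemma MT_trunc (s : ℤ) (B : Fin 4 → ℝ) (t N W : ℕ) :
    ∑ θ ∈ Fr W, e ((θ : ℝ) * N) * J s B t θ N = ∑ b ∈ range (W + 1), MTb s B t N b := by
  have h0 : MTb s B t N 0 = 0 := by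
    unfold MTb
    simp
  rw [range_eq_Ico, sum_eq_sum_Ico_succ_bot (by omega), h0, zero_add]
  have h1 : Ico (0 + 1) (W + 1) = Icc 1 W := by
    ext a
    rw [mem_Ico, mem_Icc]
    omega
  rw [h1]
  unfold Fr
  rw [sum_image]
  · unfold fr MTb
    rw [sum_filter, sum_product]
    refine sum_congr rfl fun b hb => ?_
    rw [mem_Icc] at hb
    rw [← sum_filter]
    refine sum_congr ?_ fun _ _ => rfl
    ext a
    simp only [mem_filter, mem_range]
    constructor
    · rintro ⟨-, h2, h3⟩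
      exact ⟨h2, h3⟩
    · rintro ⟨h2, h3⟩
      exact ⟨by omega, h2, h3⟩
  · intro p hp p' hp' h
    rw [mem_coe] at hp hp'
    unfold fr at hp hp'
    rw [mem_filter, mem_product, mem_Icc] at hp hp'
    obtain ⟨⟨⟨a1, a2⟩, a3⟩, a4, a5⟩ := hp
    obtain ⟨⟨⟨b1, b2⟩, b3⟩, b4, b5⟩ := hp'
    have h2 : (p.2 : ℚ) / p.1 = (p'.2 : ℚ) / p'.1 := h
    have h3 : (0 : ℚ) < p.1 := by exact_mod_cast a1
    have h4 : (0 : ℚ) < p'.1 := by exact_mod_cast b1
    rw [div_eq_div_iff h3.ne' h4.ne'] at h2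
    have h5 : p.2 * p'.1 = p'.2 * p.1 := by exact_mod_cast h2
    have h6 : p.1 ∣ p'.1 := by
      have : p.1 ∣ p.2 * p'.1 := ⟨p'.2, by rw [h5]; ring⟩
      exact (Nat.Coprime.symm a5).dvd_of_dvd_mul_left this
    have h7 : p'.1 ∣ p.1 := by
      have : p'.1 ∣ p'.2 * p.1 := ⟨p.2, by rw [← h5]; ring⟩
      exact (Nat.Coprime.symm b5).dvd_of_dvd_mul_left this
    have h8 := Nat.dvd_antisymm h6 h7
    rw [h8] at h5
    have h9 : p.2 = p'.2 := Nat.eq_of_mul_eq_mul_right b1 h5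
    exact Prod.ext h8 h9

lemma card_sum (t N : ℕ) (ht : 1 ≤ t) :
    (((Fintype.piFinset (fun _ : Fin t => range (N + 1))).filter (fun x => ∑ i, x i = N)).card : ℝ) ≤
      ((N : ℝ) + 1) ^ (t - 1) := by
  obtain ⟨u, rfl⟩ : ∃ u, t = u + 1 := ⟨t - 1, by omega⟩
  have h1 : ((Fintype.piFinset (fun _ : Fin (u + 1) => range (N + 1))).filter
      (fun x => ∑ i, x i = N)).card ≤ (Fintype.piFinset (fun _ : Fin u => range (N + 1))).card := by
    refine card_le_card_of_injOn (fun x => fun i => x i.succ) ?_ ?_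
    · intro x hx
      rw [mem_coe, mem_filter, Fintype.mem_piFinset] at hx
      rw [mem_coe, Fintype.mem_piFinset]
      intro i
      exact hx.1 i.succ
    · intro x hx y hy h
      rw [mem_coe, mem_filter, Fintype.mem_piFinset] at hx hy
      have h2 : ∀ i : Fin u, x i.succ = y i.succ := fun i => congrFun h i
      have h3 := hx.2
      have h4 := hy.2
      rw [Fin.sum_univ_succ] at h3 h4
      have h5 : ∑ i : Fin u, x i.succ = ∑ i : Fin u, y i.succ := sum_congr rfl fun i _ => h2 i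
      funext i
      refine Fin.cases ?_ (fun j => h2 j) i
      omega
  have h2 : (Fintype.piFinset (fun _ : Fin u => range (N + 1))).card = (N + 1) ^ u := by
    rw [Fintype.card_piFinset]
    simp
  rw [h2] at h1
  rw [Nat.add_sub_cancel]
  exact_mod_cast h1

lemma J_bd (s : ℤ) (B : Fin 4 → ℝ) (t : ℕ) (ht : 1 ≤ t) (θ : ℚ) (N : ℕ) (hN : 1 ≤ N) :
    ‖J s B t θ N‖ ≤ ((N : ℝ) + 1) ^ (t - 1) * ((‖c1 s θ‖ + ‖c0 s B θ‖) * (1 + Real.log N)) ^ t := by
  have hNR : (1 : ℝ) ≤ N := by exact_mod_cast hN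
  have hlN : 0 ≤ Real.log N := Real.log_nonneg hNR
  have hK : 0 ≤ (‖c1 s θ‖ + ‖c0 s B θ‖) * (1 + Real.log N) := by positivity
  unfold J
  calc _ ≤ ∑ x ∈ Fintype.piFinset (fun _ : Fin t => range (N + 1)),
        (if ∑ i, x i = N then ((‖c1 s θ‖ + ‖c0 s B θ‖) * (1 + Real.log N)) ^ t else 0) := by
        refine (norm_sum_le _ _).trans (sum_le_sum fun x hx => ?_)
        rw [Fintype.mem_piFinset] at hx
        by_cases h1 : ∑ i, x i = N
        · rw [if_pos h1]
          split_ifs with h2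
          · rw [norm_prod]
            calc _ ≤ ∏ _i : Fin t, (‖c1 s θ‖ + ‖c0 s B θ‖) * (1 + Real.log N) := by
                  refine prod_le_prod (fun _ _ => norm_nonneg _) fun i _ => ?_
                  have h3 : (1 : ℝ) ≤ x i := by
                    exact_mod_cast Nat.one_le_iff_ne_zero.2 (h2.2 i)
                  have h4 : (x i : ℝ) ≤ N := by
                    have := mem_range.1 (hx i)
                    exact_mod_cast (by omega : x i ≤ N)
                  have h5 : 0 ≤ Real.log (x i) := Real.log_nonneg h3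
                  have h6 : Real.log (x i) ≤ Real.log N := Real.log_le_log (by linarith) h4
                  refine (norm_add_le _ _).trans ?_
                  rw [norm_mul, Complex.norm_real, Real.norm_eq_abs, abs_of_nonneg h5]
                  have h7 := norm_nonneg (c1 s θ)
                  have h8 := norm_nonneg (c0 s B θ)
                  nlinarith
              _ = _ := by
                  rw [prod_const, card_univ, Fintype.card_fin]
          · rw [norm_zero]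
            positivity
        · rw [if_neg h1, if_neg (fun h => h1 h.1), norm_zero]
    _ = ((Fintype.piFinset (fun _ : Fin t => range (N + 1))).filter (fun x => ∑ i, x i = N)).card *
        ((‖c1 s θ‖ + ‖c0 s B θ‖) * (1 + Real.log N)) ^ t := by
        rw [← sum_filter, sum_const, nsmul_eq_mul]
    _ ≤ _ := mul_le_mul_of_nonneg_right (card_sum t N ht) (by positivity)

/-- the terms of the singular series -/
lemma MTb_bd (s : ℤ) (hs : s = 1 ∨ s = -1) (B : Fin 4 → ℝ) (t : ℕ) (ht : 3 ≤ t) : ∃ C : ℝ, 0 < C ∧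
    ∀ N b : ℕ, 1 ≤ N → 1 ≤ b → ‖MTb s B t N b‖ ≤
      C * (N : ℝ) ^ (t - 1) * (1 + Real.log N) ^ t * (b : ℝ) ^ (-(7 / 4 : ℝ)) := by
  have htR : (3 : ℝ) ≤ t := by exact_mod_cast ht
  obtain ⟨C, hC, h⟩ := c_bd s hs B (1 / (4 * t)) (by positivity)
  refine ⟨2 ^ (t - 1) * C ^ t, by positivity, fun N b hN hb => ?_⟩
  have hNR : (1 : ℝ) ≤ N := by exact_mod_cast hN
  have hlN : 0 ≤ Real.log N := Real.log_nonneg hNR
  have hbR : (1 : ℝ) ≤ b := by exact_mod_cast hb
  have hb0 : (0 : ℝ) < b := by linarith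
  have h1 : ∀ a ∈ (range b).filter (fun a => a.Coprime b),
      ‖e ((((a : ℚ) / b : ℚ) : ℝ) * N) * J s B t ((a : ℚ) / b) N‖ ≤
        ((N : ℝ) + 1) ^ (t - 1) * ((C * (b : ℝ) ^ (-1 + 1 / (4 * t : ℝ))) * (1 + Real.log N)) ^ t := by
    intro a ha
    rw [mem_filter] at ha
    have hden : ((a : ℚ) / b).den = b := by
      have h2 : ((a : ℚ) / b) = ((a : ℤ) : ℚ) / ((b : ℤ) : ℚ) := by push_cast; rfl
      have h3 := Rat.den_div_eq_of_coprime (a := (a : ℤ)) (b := (b : ℤ)) (by exact_mod_cast hb)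
        (by simpa using ha.2)
      rw [h2]
      exact_mod_cast h3
    rw [norm_mul, e_norm, one_mul]
    refine (J_bd s B t (by omega) _ N hN).trans ?_
    refine mul_le_mul_of_nonneg_left ?_ (by positivity)
    refine pow_le_pow_left₀ (by positivity) ?_ t
    refine mul_le_mul_of_nonneg_right ?_ (by linarith)
    have h4 := h ((a : ℚ) / b)
    rw [hden] at h4
    exact h4
  have h2 : ‖MTb s B t N b‖ ≤ b * (((N : ℝ) + 1) ^ (t - 1) *
      ((C * (b : ℝ) ^ (-1 + 1 / (4 * t : ℝ))) * (1 + Real.log N)) ^ t) := by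
    unfold MTb
    refine (norm_sum_le _ _).trans ((sum_le_sum h1).trans ?_)
    rw [sum_const, nsmul_eq_mul]
    refine mul_le_mul_of_nonneg_right ?_ (by positivity)
    have : ((range b).filter (fun a => a.Coprime b)).card ≤ b := by
      refine (card_filter_le _ _).trans ?_
      rw [card_range]
    exact_mod_cast this
  refine h2.trans ?_
  have h3 : ((N : ℝ) + 1) ^ (t - 1) ≤ 2 ^ (t - 1) * (N : ℝ) ^ (t - 1) := by
    rw [← mul_pow]
    exact pow_le_pow_left₀ (by linarith) (by linarith) _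
  have h4 : (b : ℝ) * ((b : ℝ) ^ (-1 + 1 / (4 * t : ℝ))) ^ t ≤ (b : ℝ) ^ (-(7 / 4 : ℝ)) := by
    rw [← Real.rpow_natCast, ← Real.rpow_mul hb0.le]
    nth_rewrite 1 [← Real.rpow_one (b : ℝ)]
    rw [← Real.rpow_add hb0]
    refine Real.rpow_le_rpow_of_exponent_le hbR ?_
    have : (-1 + 1 / (4 * t : ℝ)) * t = -t + 1 / 4 := by
      field_simp
    rw [this]
    linarith
  calc (b : ℝ) * (((N : ℝ) + 1) ^ (t - 1) *
        ((C * (b : ℝ) ^ (-1 + 1 / (4 * t : ℝ))) * (1 + Real.log N)) ^ t)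
      = ((N : ℝ) + 1) ^ (t - 1) * (C ^ t * (1 + Real.log N) ^ t *
        ((b : ℝ) * ((b : ℝ) ^ (-1 + 1 / (4 * t : ℝ))) ^ t)) := by
        rw [mul_pow, mul_pow]
        ring
    _ ≤ (2 ^ (t - 1) * (N : ℝ) ^ (t - 1)) * (C ^ t * (1 + Real.log N) ^ t *
        (b : ℝ) ^ (-(7 / 4 : ℝ))) := by
        refine mul_le_mul h3 (mul_le_mul_of_nonneg_left h4 (by positivity)) (by positivity)
          (by positivity)
    _ = _ := by ring

lemma sumb : Summable (fun b : ℕ => ((b : ℝ) + 1) ^ (-(5 / 4 : ℝ))) := by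
  have h := (Real.summable_nat_rpow (p := -(5 / 4 : ℝ))).2 (by norm_num)
  have h2 := (summable_nat_add_iff 1).2 h
  refine h2.congr fun b => ?_
  push_cast
  rfl

lemma MT_summable (s : ℤ) (hs : s = 1 ∨ s = -1) (B : Fin 4 → ℝ) (t : ℕ) (ht : 3 ≤ t) (N : ℕ) (hN : 1 ≤ N) :
    Summable (fun b => ‖MTb s B t N b‖) := by
  obtain ⟨C, hC, h⟩ := MTb_bd s hs B t ht
  rw [← summable_nat_add_iff 1]
  refine Summable.of_nonneg_of_le (fun _ => norm_nonneg _) (fun b => h N (b + 1) hN (by omega)) ?_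
  refine Summable.mul_left _ ?_
  refine Summable.of_nonneg_of_le (fun _ => by positivity) (fun b => ?_) sumb
  push_cast
  exact Real.rpow_le_rpow_of_exponent_le (by
    have : (0 : ℝ) ≤ b := Nat.cast_nonneg b
    linarith) (by norm_num)

end

end Pool.Agent.J4.H39.CM
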