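import Pool.Agent.J4.H39.CM.Tf

set_option autoImplicit false

/-!
Project CM (helper39): the sums over `q_1 + … + q_t = N`, second part.
-/

namespace Pool.Agent.J4.H39.CM

open Complex Finset
open Pool.Agent.N879.QM
open Pool.Agent.N879.QM.Avg (fam)

noncomputable section

lemma tail_gen (F : ℕ → ℂ) (P : ℝ) (hP0 : 0 ≤ P) (hs1 : Summable (fun b => ‖F b‖))
    (h : ∀ b : ℕ, 1 ≤ b → ‖F b‖ ≤ P * (b : ℝ) ^ (-(7 / 4 : ℝ))) (W : ℕ) (hW : 1 ≤ W) :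
    ‖∑ b ∈ range (W + 1), F b - ∑' b : ℕ, F b‖ ≤
      P * (1 + ∑' b : ℕ, ((b : ℝ) + 1) ^ (-(5 / 4 : ℝ))) * (W : ℝ) ^ (-(1 / 2 : ℝ)) := by
  have hWR : (1 : ℝ) ≤ W := by exact_mod_cast hW
  have hsum : Summable F := hs1.of_norm
  have key := hsum.sum_add_tsum_nat_add (W + 1)
  have h1 : ∑ b ∈ range (W + 1), F b - ∑' b : ℕ, F b = -∑' b : ℕ, F (b + (W + 1)) := by
    linear_combination key
  rw [h1, norm_neg]
  have hs2 : Summable (fun b : ℕ => ‖F (b + (W + 1))‖) :=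
    (summable_nat_add_iff (f := fun b => ‖F b‖) (W + 1)).2 hs1
  refine (norm_tsum_le_tsum_norm hs2).trans ?_
  have h2 : ∀ b : ℕ, ‖F (b + (W + 1))‖ ≤
      (P * (W : ℝ) ^ (-(1 / 2 : ℝ))) * ((b : ℝ) + 1) ^ (-(5 / 4 : ℝ)) := by
    intro b
    refine (h (b + (W + 1)) (by omega)).trans ?_
    rw [mul_assoc P]
    refine mul_le_mul_of_nonneg_left ?_ hP0
    have hb : (0 : ℝ) ≤ b := Nat.cast_nonneg b
    have hc : ((b + (W + 1) : ℕ) : ℝ) = b + (W + 1) := by push_cast; ring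
    rw [hc]
    have e1 : (-(7 / 4 : ℝ)) = -(1 / 2) + -(5 / 4) := by norm_num
    rw [e1, Real.rpow_add (by linarith)]
    refine mul_le_mul ?_ ?_ (by positivity) (by positivity)
    · exact Real.rpow_le_rpow_of_nonpos (by linarith) (by linarith) (by norm_num)
    · exact Real.rpow_le_rpow_of_nonpos (by linarith) (by linarith) (by norm_num)
  have h5 := Summable.tsum_le_tsum h2 hs2 (sumb.mul_left _)
  rw [tsum_mul_left] at h5
  refine h5.trans ?_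
  have h7 : 0 ≤ P * (W : ℝ) ^ (-(1 / 2 : ℝ)) := by positivity
  nlinarith

lemma MT_tail (s : ℤ) (hs : s = 1 ∨ s = -1) (B : Fin 4 → ℝ) (t : ℕ) (ht : 3 ≤ t) : ∃ C : ℝ, 0 < C ∧
    ∀ N W : ℕ, 1 ≤ N → 1 ≤ W → ‖∑ b ∈ range (W + 1), MTb s B t N b - MT s B t N‖ ≤
      C * (N : ℝ) ^ (t - 1) * (1 + Real.log N) ^ t * (W : ℝ) ^ (-(1 / 2 : ℝ)) := by
  obtain ⟨C, hC, h⟩ := MTb_bd s hs B t ht
  obtain ⟨S5, hS5⟩ : ∃ x : ℝ, x = ∑' b : ℕ, ((b : ℝ) + 1) ^ (-(5 / 4 : ℝ)) := ⟨_, rfl⟩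
  have hS0 : 0 ≤ S5 := by
    rw [hS5]
    exact tsum_nonneg fun b => by positivity
  refine ⟨C * (1 + S5), by positivity, fun N W hN hW => ?_⟩
  have hNR : (1 : ℝ) ≤ N := by exact_mod_cast hN
  have hlN : 0 ≤ Real.log N := Real.log_nonneg hNR
  have h1 := tail_gen (MTb s B t N) (C * (N : ℝ) ^ (t - 1) * (1 + Real.log N) ^ t) (by positivity)
    (MT_summable s hs B t ht N hN) (fun b hb => h N b hN hb) W hW
  rw [← hS5] at h1
  refine h1.trans (le_of_eq ?_)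
  ring

/-- choice of the truncation -/
lemma par (m : ℕ) (hm : 1 ≤ m) (N : ℕ) (hN : 1 ≤ N) : ∃ W : ℕ, 1 ≤ W ∧ W ^ m ≤ N ∧
    ∀ c : ℝ, 0 ≤ c → c ≤ 1 → (W : ℝ) ^ (-c) ≤ 2 * (N : ℝ) ^ (-(c / m)) := by
  have hNR : (1 : ℝ) ≤ N := by exact_mod_cast hN
  have hmR : (1 : ℝ) ≤ m := by exact_mod_cast hm
  set x : ℝ := (N : ℝ) ^ (1 / (m : ℝ)) with hx
  have hx1 : 1 ≤ x := Real.one_le_rpow hNR (by positivity)
  have hxm : x ^ m = N := by
    rw [hx, ← Real.rpow_natCast, ← Real.rpow_mul (by linarith)]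
    rw [one_div, inv_mul_cancel₀ (by linarith), Real.rpow_one]
  refine ⟨⌊x⌋₊, Nat.le_floor (by exact_mod_cast hx1), ?_, fun c hc hc1 => ?_⟩
  · have h1 : ((⌊x⌋₊ : ℕ) : ℝ) ≤ x := Nat.floor_le (by linarith)
    have h2 : ((⌊x⌋₊ : ℕ) : ℝ) ^ m ≤ x ^ m := pow_le_pow_left₀ (by positivity) h1 m
    rw [hxm] at h2
    exact_mod_cast h2
  · have h1 : x < ⌊x⌋₊ + 1 := Nat.lt_floor_add_one x
    have h2 : (1 : ℝ) ≤ ⌊x⌋₊ := by
      have : 1 ≤ ⌊x⌋₊ := Nat.le_floor (by exact_mod_cast hx1)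
      exact_mod_cast this
    have h3 : x / 2 ≤ ⌊x⌋₊ := by linarith
    calc ((⌊x⌋₊ : ℕ) : ℝ) ^ (-c) ≤ (x / 2) ^ (-c) :=
          Real.rpow_le_rpow_of_nonpos (by positivity) h3 (by linarith)
      _ = 2 ^ c * x ^ (-c) := by
          rw [Real.div_rpow (by linarith) (by norm_num), Real.rpow_neg (by norm_num : (0 : ℝ) ≤ 2)]
          rw [div_inv_eq_mul]
          ring
      _ ≤ 2 * x ^ (-c) := by
          refine mul_le_mul_of_nonneg_right ?_ (by positivity)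
          calc (2 : ℝ) ^ c ≤ 2 ^ (1 : ℝ) := Real.rpow_le_rpow_of_exponent_le (by norm_num) hc1
            _ = 2 := Real.rpow_one _
      _ = _ := by
          rw [hx, ← Real.rpow_mul (by linarith)]
          congr 2
          ring

lemma log_pow (k : ℕ) (c : ℝ) (hc : 0 < c) : ∃ C : ℝ, 0 < C ∧ ∀ N : ℕ, 1 ≤ N →
    (1 + Real.log N) ^ k ≤ C * (N : ℝ) ^ c := by
  rcases Nat.eq_zero_or_pos k with hk | hk
  · refine ⟨1, one_pos, fun N hN => ?_⟩
    have hNR : (1 : ℝ) ≤ N := by exact_mod_cast hN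
    rw [hk, pow_zero, one_mul]
    exact Real.one_le_rpow hNR hc.le
  · have hkR : (0 : ℝ) < k := by exact_mod_cast hk
    refine ⟨(1 + k / c) ^ k, by positivity, fun N hN => ?_⟩
    have hNR : (1 : ℝ) ≤ N := by exact_mod_cast hN
    have hlN : 0 ≤ Real.log N := Real.log_nonneg hNR
    have h1 := Real.log_le_rpow_div (show (0 : ℝ) ≤ N by linarith) (show 0 < c / k by positivity)
    have h2 : 1 ≤ (N : ℝ) ^ (c / k) := Real.one_le_rpow hNR (by positivity)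
    have h3 : (N : ℝ) ^ (c / k) / (c / k) = k / c * (N : ℝ) ^ (c / k) := by field_simp
    rw [h3] at h1
    calc (1 + Real.log N) ^ k ≤ ((1 + k / c) * (N : ℝ) ^ (c / k)) ^ k :=
          pow_le_pow_left₀ (by linarith) (by linarith) k
      _ = (1 + k / c) ^ k * ((N : ℝ) ^ (c / k)) ^ k := mul_pow _ _ _
      _ = _ := by
          congr 1
          rw [← Real.rpow_natCast, ← Real.rpow_mul (by linarith)]
          congr 1
          field_simp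

end

end Pool.Agent.J4.H39.CM
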