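import Pool.Agent.J4.H39.CM.Tf2

set_option autoImplicit false

/-!
Project CM (helper39): the sums over `q_1 + … + q_t = N`, conclusion.
-/

namespace Pool.Agent.J4.H39.CM

open Complex Finset
open Pool.Agent.N879.QM
open Pool.Agent.N879.QM.Avg (fam)

noncomputable section

lemma par' (m : ℕ) (hm : 1 ≤ m) (N : ℕ) (hN : 1 ≤ N) : ∃ W : ℕ, 1 ≤ W ∧ W ^ m ≤ N ∧
    (W : ℝ) ^ (-(3 / 4 : ℝ)) ≤ 2 * (N : ℝ) ^ (-(3 / (4 * m : ℝ))) ∧
    (W : ℝ) ^ (-(1 / 2 : ℝ)) ≤ 2 * (N : ℝ) ^ (-(1 / (2 * m : ℝ))) := by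
  obtain ⟨W, h1, h2, h3⟩ := par m hm N hN
  refine ⟨W, h1, h2, ?_, ?_⟩
  · have := h3 (3 / 4) (by norm_num) (by norm_num)
    convert this using 4
    field_simp
  · have := h3 (1 / 2) (by norm_num) (by norm_num)
    convert this using 4
    field_simp

/-- the exponent -/
def mt (t : ℕ) : ℕ := 4096 * (t + 1)

/-- the saving -/
def dt (t : ℕ) : ℝ := 1 / (4 * mt t)

lemma mt_pos (t : ℕ) : (0 : ℝ) < mt t := by
  unfold mt
  positivity

lemma dt_pos (t : ℕ) : 0 < dt t := by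
  have := mt_pos t
  unfold dt
  positivity

/-- the replacement of `L(1/2, χ)` by the truncated singular series, linear equations with arbitrary coefficients -/
theorem lin_gen (s : ℤ) (hs : s = 1 ∨ s = -1) (B : Fin 4 → ℝ) (hB : Good s B) (t : ℕ) (ht : 3 ≤ t) : ∃ C : ℝ, 0 < C ∧
    ∀ (N W : ℕ) (c : Fin t → ℤ) (n : ℤ), 1 ≤ N → 1 ≤ W → W ^ mt t ≤ N →
    (W : ℝ) ^ (-(3 / 4 : ℝ)) ≤ 2 * (N : ℝ) ^ (-(3 / (4 * mt t : ℝ))) → (∀ i, c i ≠ 0) →
    ‖∑ q ∈ Fintype.piFinset (fun _ : Fin t => range (N + 1)),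
      if ∑ i, c i * (q i : ℤ) = n then ∏ i, L1 s (q i) - ∏ i, Gm (Fr W) (c1 s) (c0 s B) (q i) else 0‖ ≤
      C * (N : ℝ) ^ ((t : ℝ) - 1 - dt t) := by
  have htR : (3 : ℝ) ≤ t := by exact_mod_cast ht
  have hm0 := mt_pos t
  obtain ⟨C1, hC1, h1⟩ := msup s hs B hB
  set ε : ℝ := 1 / (8 * mt t * (t + 1)) with hε
  have hε0 : 0 < ε := by positivity
  obtain ⟨C2, hC2, h2⟩ := l1sq ε hε0
  obtain ⟨C3, hC3, h3⟩ := gmsq s hs B ε hε0
  obtain ⟨C4, hC4, h4⟩ := log_pow 5 (1 / (8 * mt t)) (by positivity)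
  set CT := C2 + C3 with hCT
  have hCT0 : 0 < CT := by positivity
  refine ⟨t * (2 * C1 * C4) * CT * (√(2 * CT)) ^ (t - 3), by positivity,
    fun N W c n hN hW hWN hW34 hc => ?_⟩
  have hNR : (1 : ℝ) ≤ N := by exact_mod_cast hN
  have hN0 : (0 : ℝ) < N := by linarith
  have hWN' : W ^ 4096 ≤ N := by
    refine le_trans ?_ hWN
    refine Nat.pow_le_pow_right hW ?_
    unfold mt
    omega
  set M : ℝ := (2 * C1 * C4) * (N : ℝ) ^ (1 - 5 / (8 * mt t : ℝ)) with hM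
  have hM0 : 0 ≤ M := by positivity
  set T : ℝ := CT * (N : ℝ) ^ (1 + ε) with hT
  have hsup : ∀ α : ℝ, ‖∑ q ∈ range (N + 1), (L1 s q - Gm (Fr W) (c1 s) (c0 s B) q) * e (α * q)‖ ≤ M := by
    intro α
    refine (h1 N W α hN hW hWN').trans ?_
    have e1 := h4 N hN
    calc C1 * (1 + Real.log N) ^ 5 * (N * (W : ℝ) ^ (-(3 / 4 : ℝ))) ≤
          C1 * (C4 * (N : ℝ) ^ (1 / (8 * mt t : ℝ))) * (N * (2 * (N : ℝ) ^ (-(3 / (4 * mt t : ℝ))))) := by
          refine mul_le_mul (mul_le_mul_of_nonneg_left e1 hC1.le)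
            (mul_le_mul_of_nonneg_left hW34 hN0.le) (by positivity) (by positivity)
      _ = (2 * C1 * C4) * ((N : ℝ) ^ (1 / (8 * mt t : ℝ)) * (N * (N : ℝ) ^ (-(3 / (4 * mt t : ℝ))))) := by
          ring
      _ = M := by
          rw [hM]
          congr 1
          nth_rewrite 2 [← Real.rpow_one (N : ℝ)]
          rw [← Real.rpow_add hN0, ← Real.rpow_add hN0]
          congr 1
          field_simp
          ring
  have hf : ∑ q ∈ range (N + 1), ‖L1 s q‖ ^ 2 ≤ T := by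
    refine (h2 s N hs hN).trans ?_
    rw [hT, hCT]
    exact mul_le_mul_of_nonneg_right (by linarith) (by positivity)
  have hg : ∑ q ∈ range (N + 1), ‖Gm (Fr W) (c1 s) (c0 s B) q‖ ^ 2 ≤ T := by
    refine (h3 N W hN hW hWN').trans ?_
    rw [hT, hCT]
    exact mul_le_mul_of_nonneg_right (by linarith) (by positivity)
  have key := circ_linear t ht (N + 1) c hc n (fun _ => L1 s) (fun _ => Gm (Fr W) (c1 s) (c0 s B)) M T
    (fun _ => hsup) (fun _ => hf) (fun _ => hg)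
  refine key.trans ?_
  have hsq : √(((N + 1 : ℕ) : ℝ) * T) ≤ √(2 * CT) * (N : ℝ) ^ (1 + ε / 2) := by
    have e1 : ((N + 1 : ℕ) : ℝ) * T ≤ (√(2 * CT) * (N : ℝ) ^ (1 + ε / 2)) ^ 2 := by
      rw [mul_pow, Real.sq_sqrt (by positivity)]
      have e2 : ((N : ℝ) ^ (1 + ε / 2)) ^ 2 = N * (N : ℝ) ^ (1 + ε) := by
        rw [← Real.rpow_natCast, ← Real.rpow_mul hN0.le]
        nth_rewrite 2 [← Real.rpow_one (N : ℝ)]
        rw [← Real.rpow_add hN0]
        congr 1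
        push_cast
        ring
      rw [e2, hT]
      have e3 : ((N + 1 : ℕ) : ℝ) ≤ 2 * N := by
        push_cast
        linarith
      calc ((N + 1 : ℕ) : ℝ) * (CT * (N : ℝ) ^ (1 + ε)) ≤ (2 * N) * (CT * (N : ℝ) ^ (1 + ε)) :=
            mul_le_mul_of_nonneg_right e3 (by positivity)
        _ = _ := by ring
    calc _ ≤ √((√(2 * CT) * (N : ℝ) ^ (1 + ε / 2)) ^ 2) := Real.sqrt_le_sqrt e1
      _ = _ := Real.sqrt_sq (by positivity)
  have hpw : (√(((N + 1 : ℕ) : ℝ) * T)) ^ (t - 3) ≤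
      (√(2 * CT)) ^ (t - 3) * (N : ℝ) ^ ((1 + ε / 2) * ((t : ℝ) - 3)) := by
    calc _ ≤ (√(2 * CT) * (N : ℝ) ^ (1 + ε / 2)) ^ (t - 3) :=
          pow_le_pow_left₀ (Real.sqrt_nonneg _) hsq _
      _ = (√(2 * CT)) ^ (t - 3) * ((N : ℝ) ^ (1 + ε / 2)) ^ (t - 3) := mul_pow _ _ _
      _ = _ := by
          congr 1
          rw [← Real.rpow_natCast, ← Real.rpow_mul hN0.le, Nat.cast_sub ht]
          norm_num
  calc (t : ℝ) * M * T * (√(((N + 1 : ℕ) : ℝ) * T)) ^ (t - 3) ≤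
        t * M * T * ((√(2 * CT)) ^ (t - 3) * (N : ℝ) ^ ((1 + ε / 2) * ((t : ℝ) - 3))) :=
        mul_le_mul_of_nonneg_left hpw (by positivity)
    _ = (t * (2 * C1 * C4) * CT * (√(2 * CT)) ^ (t - 3)) *
        ((N : ℝ) ^ (1 - 5 / (8 * mt t : ℝ)) * (N : ℝ) ^ (1 + ε) *
          (N : ℝ) ^ ((1 + ε / 2) * ((t : ℝ) - 3))) := by
        rw [hM, hT]
        ring
    _ ≤ _ := by
        refine mul_le_mul_of_nonneg_left ?_ (by positivity)
        rw [← Real.rpow_add hN0, ← Real.rpow_add hN0]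
        refine Real.rpow_le_rpow_of_exponent_le hNR ?_
        have e1 : 1 - 5 / (8 * mt t : ℝ) + (1 + ε) + (1 + ε / 2) * ((t : ℝ) - 3) =
            (t : ℝ) - 1 - 5 / (8 * mt t : ℝ) + ε * ((t : ℝ) - 1) / 2 := by ring
        rw [e1]
        have e2 : ε * ((t : ℝ) - 1) / 2 ≤ 1 / (8 * mt t : ℝ) := by
          have : ε * ((t : ℝ) + 1) = 1 / (8 * mt t : ℝ) := by
            rw [hε]
            field_simp
          rw [← this]
          nlinarith
        have e3 : dt t ≤ 4 / (8 * mt t : ℝ) := by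
          unfold dt
          rw [div_le_div_iff₀ (by positivity) (by positivity)]
          linarith
        have e4 : 5 / (8 * mt t : ℝ) = 4 / (8 * mt t : ℝ) + 1 / (8 * mt t : ℝ) := by ring
        linarith

/-- the sums over `q_1 + … + q_t = N` -/
theorem lin_one (s : ℤ) (hs : s = 1 ∨ s = -1) (B : Fin 4 → ℝ) (hB : Good s B) (t : ℕ) (ht : 3 ≤ t) : ∃ C : ℝ, 0 < C ∧
    ∀ N : ℕ, 1 ≤ N →
    ‖(∑ q ∈ Fintype.piFinset (fun _ : Fin t => range (N + 1)),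
      if ∑ i, q i = N then ∏ i, L1 s (q i) else 0) - MT s B t N‖ ≤ C * (N : ℝ) ^ ((t : ℝ) - 1 - dt t) := by
  have htR : (3 : ℝ) ≤ t := by exact_mod_cast ht
  have hm0 := mt_pos t
  obtain ⟨C1, hC1, h1⟩ := lin_gen s hs B hB t ht
  obtain ⟨C2, hC2, h2⟩ := tfold t (by omega)
  obtain ⟨C3, hC3, h3⟩ := MT_tail s hs B t ht
  obtain ⟨C4, hC4, h4⟩ := c_bd s hs B 1 one_pos
  obtain ⟨C5, hC5, h5⟩ := log_pow t (1 / (4 * mt t)) (by positivity)
  set C4' := max C4 1 with hC4'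
  have hC4'1 : 1 ≤ C4' := le_max_right _ _
  refine ⟨C1 + C2 * C5 * C4' ^ t + 2 * C3 * C5, by positivity, fun N hN => ?_⟩
  have hNR : (1 : ℝ) ≤ N := by exact_mod_cast hN
  have hN0 : (0 : ℝ) < N := by linarith
  obtain ⟨W, hW, hWN, hW34, hW12⟩ := par' (mt t) (by unfold mt; omega) N hN
  have hWR : (1 : ℝ) ≤ W := by exact_mod_cast hW
  set F := ∑ q ∈ Fintype.piFinset (fun _ : Fin t => range (N + 1)),
      if ∑ i, q i = N then ∏ i, L1 s (q i) else 0 with hF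
  set G := ∑ q ∈ Fintype.piFinset (fun _ : Fin t => range (N + 1)),
      if ∑ i, q i = N then ∏ i, Gm (Fr W) (c1 s) (c0 s B) (q i) else 0 with hG
  have hiff : ∀ q : Fin t → ℕ, (∑ i, (1 : ℤ) * (q i : ℤ) = (N : ℤ)) ↔ ∑ i, q i = N := by
    intro q
    simp only [one_mul]
    exact_mod_cast Iff.rfl
  have a1 : ‖F - G‖ ≤ C1 * (N : ℝ) ^ ((t : ℝ) - 1 - dt t) := by
    have := h1 N W (fun _ => 1) N hN hW hWN hW34 (fun _ => one_ne_zero)
    have e1 : F - G = ∑ q ∈ Fintype.piFinset (fun _ : Fin t => range (N + 1)),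
        if ∑ i, (1 : ℤ) * (q i : ℤ) = (N : ℤ) then
          ∏ i, L1 s (q i) - ∏ i, Gm (Fr W) (c1 s) (c0 s B) (q i) else 0 := by
      rw [hF, hG, ← sum_sub_distrib]
      refine sum_congr rfl fun q _ => ?_
      by_cases h : ∑ i, q i = N
      · rw [if_pos h, if_pos h, if_pos ((hiff q).2 h)]
      · rw [if_neg h, if_neg h, if_neg (fun h' => h ((hiff q).1 h')), sub_zero]
    rw [e1]
    exact this
  have hK : ∑ θ ∈ Fr W, (‖c1 s θ‖ + ‖c0 s B θ‖) ≤ C4' * (W : ℝ) ^ 2 := by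
    calc _ ≤ ∑ _θ ∈ Fr W, C4' := by
          refine sum_le_sum fun θ _ => (h4 θ).trans ?_
          norm_num
          exact le_max_left _ _
      _ = (Fr W).card * C4' := by rw [sum_const, nsmul_eq_mul]
      _ ≤ _ := by
          rw [mul_comm]
          exact mul_le_mul_of_nonneg_left (card_Fr W) (by linarith)
  have hK1 : 1 ≤ C4' * (W : ℝ) ^ 2 := by
    have : 1 ≤ (W : ℝ) ^ 2 := one_le_pow₀ hWR
    nlinarith
  have a2 : ‖G - ∑ b ∈ range (W + 1), MTb s B t N b‖ ≤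
      C2 * C5 * C4' ^ t * (N : ℝ) ^ ((t : ℝ) - 1 - dt t) := by
    have e1 := h2 (Fr W) W N (c1 s) (c0 s B) (C4' * (W : ℝ) ^ 2) hN hW hK1
      (fun θ hθ => mem_Fr.1 hθ) hK
    rw [← MT_trunc]
    refine e1.trans ?_
    have e2 := h5 N hN
    have e3 : (W : ℝ) ^ 2 * (C4' * (W : ℝ) ^ 2) ^ t ≤ C4' ^ t * (N : ℝ) ^ (1 / 4 : ℝ) := by
      have f1 : (W : ℝ) ^ 2 * (C4' * (W : ℝ) ^ 2) ^ t = C4' ^ t * (W : ℝ) ^ (2 * (t + 1)) := by
        rw [mul_pow]
        ring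
      rw [f1]
      refine mul_le_mul_of_nonneg_left ?_ (by positivity)
      have f2 : (W : ℝ) ^ (2 * (t + 1)) = ((W : ℝ) ^ (8 * (t + 1))) ^ (1 / 4 : ℝ) := by
        rw [← Real.rpow_natCast, ← Real.rpow_natCast, ← Real.rpow_mul (by linarith)]
        congr 1
        push_cast
        ring
      rw [f2]
      refine Real.rpow_le_rpow (by positivity) ?_ (by norm_num)
      have f3 : W ^ (8 * (t + 1)) ≤ W ^ mt t := by
        refine Nat.pow_le_pow_right hW ?_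
        unfold mt
        omega
      exact_mod_cast f3.trans hWN
    have e4 : (N : ℝ) ^ (t - 2) = (N : ℝ) ^ ((t : ℝ) - 2) := by
      rw [← Real.rpow_natCast, Nat.cast_sub (by omega)]
      norm_num
    calc C2 * (1 + Real.log N) ^ t * (N : ℝ) ^ (t - 2) * (W : ℝ) ^ 2 * (C4' * (W : ℝ) ^ 2) ^ t
        = C2 * (1 + Real.log N) ^ t * (N : ℝ) ^ (t - 2) * ((W : ℝ) ^ 2 * (C4' * (W : ℝ) ^ 2) ^ t) := by ring
      _ ≤ C2 * (C5 * (N : ℝ) ^ (1 / (4 * mt t : ℝ))) * (N : ℝ) ^ (t - 2) *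
          (C4' ^ t * (N : ℝ) ^ (1 / 4 : ℝ)) := by
          refine mul_le_mul ?_ e3 (by positivity) (by positivity)
          refine mul_le_mul_of_nonneg_right ?_ (by positivity)
          exact mul_le_mul_of_nonneg_left e2 hC2.le
      _ = C2 * C5 * C4' ^ t * ((N : ℝ) ^ (1 / (4 * mt t : ℝ)) * (N : ℝ) ^ ((t : ℝ) - 2) *
          (N : ℝ) ^ (1 / 4 : ℝ)) := by
          rw [e4]
          ring
      _ ≤ _ := by
          refine mul_le_mul_of_nonneg_left ?_ (by positivity)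
          rw [← Real.rpow_add hN0, ← Real.rpow_add hN0]
          refine Real.rpow_le_rpow_of_exponent_le hNR ?_
          have f1 : (1 : ℝ) / (4 * mt t) ≤ 1 / 4 := by
            rw [div_le_div_iff₀ (by positivity) (by norm_num)]
            have : (1 : ℝ) ≤ mt t := by
              exact_mod_cast (by unfold mt; omega : 1 ≤ mt t)
            linarith
          unfold dt
          linarith
  have a3 : ‖∑ b ∈ range (W + 1), MTb s B t N b - MT s B t N‖ ≤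
      2 * C3 * C5 * (N : ℝ) ^ ((t : ℝ) - 1 - dt t) := by
    refine (h3 N W hN hW).trans ?_
    have e2 := h5 N hN
    have e4 : (N : ℝ) ^ (t - 1) = (N : ℝ) ^ ((t : ℝ) - 1) := by
      rw [← Real.rpow_natCast, Nat.cast_sub (by omega)]
      norm_num
    calc C3 * (N : ℝ) ^ (t - 1) * (1 + Real.log N) ^ t * (W : ℝ) ^ (-(1 / 2 : ℝ)) ≤
          C3 * (N : ℝ) ^ (t - 1) * (C5 * (N : ℝ) ^ (1 / (4 * mt t : ℝ))) *
            (2 * (N : ℝ) ^ (-(1 / (2 * mt t : ℝ)))) := by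
          refine mul_le_mul (mul_le_mul_of_nonneg_left e2 (by positivity)) hW12 (by positivity)
            (by positivity)
      _ = 2 * C3 * C5 * ((N : ℝ) ^ ((t : ℝ) - 1) * (N : ℝ) ^ (1 / (4 * mt t : ℝ)) *
            (N : ℝ) ^ (-(1 / (2 * mt t : ℝ)))) := by
          rw [e4]
          ring
      _ = _ := by
          rw [← Real.rpow_add hN0, ← Real.rpow_add hN0]
          congr 2
          unfold dt
          field_simp
          ring
  have e0 : F - MT s B t N = (F - G) + (G - ∑ b ∈ range (W + 1), MTb s B t N b) +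
      (∑ b ∈ range (W + 1), MTb s B t N b - MT s B t N) := by ring
  rw [e0]
  have n1 := norm_add_le ((F - G) + (G - ∑ b ∈ range (W + 1), MTb s B t N b))
    (∑ b ∈ range (W + 1), MTb s B t N b - MT s B t N)
  have n2 := norm_add_le (F - G) (G - ∑ b ∈ range (W + 1), MTb s B t N b)
  have e5 : (C1 + C2 * C5 * C4' ^ t + 2 * C3 * C5) * (N : ℝ) ^ ((t : ℝ) - 1 - dt t) =
      C1 * (N : ℝ) ^ ((t : ℝ) - 1 - dt t) + C2 * C5 * C4' ^ t * (N : ℝ) ^ ((t : ℝ) - 1 - dt t) +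
      2 * C3 * C5 * (N : ℝ) ^ ((t : ℝ) - 1 - dt t) := by ring
  rw [e5]
  linarith

end

end Pool.Agent.J4.H39.CM
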