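import Pool.Agent.J4.H39.CM.Tf3
import Pool.Agent.J4.H39.CM.High

set_option autoImplicit false

/-!
Project CM (helper39): first moments twisted by additive characters, rational and irrational frequencies.
-/

namespace Pool.Agent.J4.H39.CM

open Complex Finset
open Pool.Agent.N879.QM
open Pool.Agent.N879.QM.Avg (fam)

noncomputable section

/-- choice of the truncation, with maximality -/
lemma par2 (m : ℕ) (hm : 1 ≤ m) (N : ℕ) (hN : 1 ≤ N) : ∃ W : ℕ, 1 ≤ W ∧ W ^ m ≤ N ∧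
    (W : ℝ) ^ (-(3 / 4 : ℝ)) ≤ 2 * (N : ℝ) ^ (-(3 / (4 * m : ℝ))) ∧ ∀ d : ℕ, d ^ m ≤ N → d ≤ W := by
  have hex : ∃ W : ℕ, W ≤ N ∧ W ^ m ≤ N ∧ ∀ d : ℕ, d ^ m ≤ N → d ≤ W := by
    refine ⟨Nat.findGreatest (fun W => W ^ m ≤ N) N, Nat.findGreatest_le N, ?_, fun d hd => ?_⟩
    · have h0 : (fun W => W ^ m ≤ N) (0 : ℕ) := by
        show 0 ^ m ≤ N
        rw [zero_pow (by omega)]
        omega
      exact Nat.findGreatest_spec (P := fun W => W ^ m ≤ N) (Nat.zero_le N) h0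
    · refine Nat.le_findGreatest ?_ hd
      exact (Nat.le_self_pow (by omega) d).trans hd
  obtain ⟨W, h1, h2, h3⟩ := hex
  obtain ⟨W', h4, h5, h6, -⟩ := par' m hm N hN
  have hWW : W' ≤ W := h3 W' h5
  refine ⟨W, by omega, h2, ?_, h3⟩
  refine le_trans ?_ h6
  have : (1 : ℝ) ≤ W' := by exact_mod_cast h4
  exact Real.rpow_le_rpow_of_nonpos (by linarith) (by exact_mod_cast hWW) (by norm_num)

/-- one frequency -/
lemma one_freq (N : ℕ) (a b : ℂ) (β : ℝ) :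
    ‖∑ q ∈ range (N + 1), (if q = 0 then 0 else (a * Real.log q + b) * e (β * q))‖ ≤
      (‖a‖ + ‖b‖) * (2 * (1 + Real.log N) * kb N β) := by
  have h1 : ∑ q ∈ range (N + 1), (if q = 0 then 0 else (a * Real.log q + b) * e (β * q)) =
      a * ∑ q ∈ range N, ((Real.log ((q + 1 : ℕ) : ℝ) : ℝ) : ℂ) ^ 1 * e (β * ((q + 1 : ℕ) : ℝ)) +
      b * ∑ q ∈ range N, ((Real.log ((q + 1 : ℕ) : ℝ) : ℝ) : ℂ) ^ 0 * e (β * ((q + 1 : ℕ) : ℝ)) := by
    rw [sum_range_succ', if_pos rfl, add_zero, mul_sum, mul_sum, ← sum_add_distrib]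
    refine sum_congr rfl fun q _ => ?_
    rw [if_neg (by omega)]
    ring
  rw [h1]
  refine (norm_add_le _ _).trans ?_
  rw [norm_mul, norm_mul, add_mul]
  refine add_le_add ?_ ?_
  · exact mul_le_mul_of_nonneg_left (High.shifted N 1 le_rfl β) (norm_nonneg _)
  · exact mul_le_mul_of_nonneg_left (High.shifted N 0 (by norm_num) β) (norm_nonneg _)

/-- finitely many frequencies away from `-α` -/
lemma many_freq (S : Finset ℚ) (a b : ℚ → ℂ) (N : ℕ) (α y K : ℝ) (hy : 0 < y)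
    (hS : ∀ θ ∈ S, y ≤ ni (α + θ)) (hK : ∑ θ ∈ S, (‖a θ‖ + ‖b θ‖) ≤ K) :
    ‖∑ q ∈ range (N + 1), Gm S a b q * e (α * q)‖ ≤ K * (4 * (1 + Real.log N) / y) := by
  have hl : 0 ≤ Real.log N := Real.log_natCast_nonneg N
  have h1 : ∑ q ∈ range (N + 1), Gm S a b q * e (α * q) =
      ∑ θ ∈ S, ∑ q ∈ range (N + 1), (if q = 0 then 0 else
        (a θ * Real.log q + b θ) * e ((α + θ) * q)) := by
    rw [sum_comm]
    refine sum_congr rfl fun q _ => ?_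
    unfold Gm
    by_cases h0 : q = 0
    · rw [if_pos h0, zero_mul]
      symm
      refine sum_eq_zero fun θ _ => ?_
      rw [if_pos h0]
    · rw [if_neg h0, sum_mul]
      refine sum_congr rfl fun θ _ => ?_
      rw [if_neg h0]
      have : e ((α + θ) * q) = e ((θ : ℝ) * q) * e (α * q) := by
        rw [← e_add]
        congr 1
        ring
      rw [this]
      ring
  rw [h1]
  calc _ ≤ ∑ θ ∈ S, (‖a θ‖ + ‖b θ‖) * (4 * (1 + Real.log N) / y) := by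
        refine (norm_sum_le _ _).trans (sum_le_sum fun θ hθ => ?_)
        refine (one_freq N (a θ) (b θ) (α + θ)).trans ?_
        refine mul_le_mul_of_nonneg_left ?_ (by positivity)
        have h2 := kb_le_inv (T := (N : ℝ)) (Nat.cast_nonneg N) hy (hS θ hθ)
        calc 2 * (1 + Real.log N) * kb N (α + θ) ≤ 2 * (1 + Real.log N) * (2 / y) :=
              mul_le_mul_of_nonneg_left h2 (by positivity)
          _ = _ := by ring
    _ = (∑ θ ∈ S, (‖a θ‖ + ‖b θ‖)) * (4 * (1 + Real.log N) / y) := by rw [sum_mul]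
    _ ≤ _ := mul_le_mul_of_nonneg_right hK (by positivity)

lemma K_bd (s : ℤ) (hs : s = 1 ∨ s = -1) (B : Fin 4 → ℝ) : ∃ C : ℝ, 1 ≤ C ∧
    (∀ θ : ℚ, ‖c1 s θ‖ + ‖c0 s B θ‖ ≤ C) ∧
    ∀ (W : ℕ) (S : Finset ℚ), S ⊆ Fr W → ∑ θ ∈ S, (‖c1 s θ‖ + ‖c0 s B θ‖) ≤ C * (W : ℝ) ^ 2 := by
  obtain ⟨C4, hC4, h4⟩ := c_bd s hs B 1 one_pos
  have h5 : ∀ θ : ℚ, ‖c1 s θ‖ + ‖c0 s B θ‖ ≤ max C4 1 := fun θ => (h4 θ).trans (by
    norm_num)
  refine ⟨max C4 1, le_max_right _ _, h5, fun W S hS => ?_⟩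
  calc _ ≤ ∑ θ ∈ Fr W, (‖c1 s θ‖ + ‖c0 s B θ‖) :=
        sum_le_sum_of_subset_of_nonneg hS fun _ _ _ => by positivity
    _ ≤ ∑ _θ ∈ Fr W, max C4 1 := sum_le_sum fun θ _ => h5 θ
    _ = (Fr W).card * max C4 1 := by rw [sum_const, nsmul_eq_mul]
    _ ≤ _ := by
        rw [mul_comm]
        exact mul_le_mul_of_nonneg_left (card_Fr W) (le_trans zero_le_one (le_max_right _ _))

/-- the basic bound with parameter `m` -/
theorem msup' (s : ℤ) (hs : s = 1 ∨ s = -1) (B : Fin 4 → ℝ) (hB : Good s B) (m : ℕ) (hm : 4096 ≤ m) :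
    ∃ C : ℝ, 0 < C ∧ ∀ (N W : ℕ) (α : ℝ), 1 ≤ N → 1 ≤ W → W ^ m ≤ N →
    (W : ℝ) ^ (-(3 / 4 : ℝ)) ≤ 2 * (N : ℝ) ^ (-(3 / (4 * m : ℝ))) →
    ‖∑ q ∈ range (N + 1), (L1 s q - Gm (Fr W) (c1 s) (c0 s B) q) * e (α * q)‖ ≤
      C * (N : ℝ) ^ (1 - 1 / (2 * m : ℝ)) := by
  obtain ⟨C1, hC1, h1⟩ := msup s hs B hB
  have hmR : (0 : ℝ) < m := by
    have : 0 < m := by omega
    exact_mod_cast this
  obtain ⟨C4, hC4, h4⟩ := log_pow 5 (1 / (4 * m)) (by positivity)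
  refine ⟨2 * C1 * C4, by positivity, fun N W α hN hW hWN hW34 => ?_⟩
  have hNR : (1 : ℝ) ≤ N := by exact_mod_cast hN
  have hN0 : (0 : ℝ) < N := by linarith
  have hWN' : W ^ 4096 ≤ N := (Nat.pow_le_pow_right hW hm).trans hWN
  refine (h1 N W α hN hW hWN').trans ?_
  have e1 := h4 N hN
  calc C1 * (1 + Real.log N) ^ 5 * (N * (W : ℝ) ^ (-(3 / 4 : ℝ))) ≤
        C1 * (C4 * (N : ℝ) ^ (1 / (4 * m : ℝ))) * (N * (2 * (N : ℝ) ^ (-(3 / (4 * m : ℝ))))) := by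
        refine mul_le_mul (mul_le_mul_of_nonneg_left e1 hC1.le)
          (mul_le_mul_of_nonneg_left hW34 hN0.le) (by positivity) (by positivity)
    _ = (2 * C1 * C4) * ((N : ℝ) ^ (1 / (4 * m : ℝ)) * (N * (N : ℝ) ^ (-(3 / (4 * m : ℝ))))) := by
        ring
    _ = _ := by
        congr 1
        nth_rewrite 2 [← Real.rpow_one (N : ℝ)]
        rw [← Real.rpow_add hN0, ← Real.rpow_add hN0]
        congr 1
        field_simp
        ring

/-- twisted first moments -/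
theorem twist (s : ℤ) (hs : s = 1 ∨ s = -1) (B : Fin 4 → ℝ) (hB : Good s B) : ∃ C : ℝ, 0 < C ∧
    ∀ (N : ℕ) (θ : ℚ), 1 ≤ N → 0 ≤ θ → θ < 1 → θ.den ^ 4096 ≤ N →
    ‖(∑ q ∈ range (N + 1), L1 s q * e (-((θ : ℝ) * q))) -
      ∑ q ∈ Icc 1 N, (c1 s θ * Real.log q + c0 s B θ)‖ ≤ C * (N : ℝ) ^ (1 - 1 / 8192 : ℝ) := by
  obtain ⟨C1, hC1, h1⟩ := msup' s hs B hB 4096 le_rfl
  obtain ⟨C2, hC2, h2, h3⟩ := K_bd s hs B
  obtain ⟨C4, hC4, h4⟩ := log_pow 1 (1 / 4) (by norm_num)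
  refine ⟨C1 + C2 * 4 * C4, by positivity, fun N θ hN h0 hθ1 hden => ?_⟩
  have hNR : (1 : ℝ) ≤ N := by exact_mod_cast hN
  have hN0 : (0 : ℝ) < N := by linarith
  obtain ⟨W, hW, hWN, hW34, hd⟩ := par2 4096 (by norm_num) N hN
  have hWR : (1 : ℝ) ≤ W := by exact_mod_cast hW
  have hθW : θ.den ≤ W := hd _ hden
  have hθF : θ ∈ Fr W := mem_Fr.2 ⟨h0, hθ1, hθW⟩
  have a1 := h1 N W (-(θ : ℝ)) hN hW hWN (by exact_mod_cast hW34)
  have hsub : Fr W \ {θ} ⊆ Fr W := sdiff_subset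
  have a2 := many_freq (Fr W \ {θ}) (c1 s) (c0 s B) N (-(θ : ℝ)) (1 / (W : ℝ) ^ 2) (C2 * (W : ℝ) ^ 2)
    (by positivity) (fun θ' hθ' => by
      rw [mem_sdiff, mem_singleton] at hθ'
      have := L2g.sep hW (mem_Fr.1 hθ'.1) (mem_Fr.1 hθF) hθ'.2 (round (-(θ : ℝ) + θ'))
      unfold ni
      convert this using 2
      ring) (h3 W _ hsub)
  have e1 : (∑ q ∈ range (N + 1), L1 s q * e (-((θ : ℝ) * q))) -
      ∑ q ∈ Icc 1 N, (c1 s θ * Real.log q + c0 s B θ) =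
      ∑ q ∈ range (N + 1), (L1 s q - Gm (Fr W) (c1 s) (c0 s B) q) * e (-(θ : ℝ) * q) +
      ∑ q ∈ range (N + 1), Gm (Fr W \ {θ}) (c1 s) (c0 s B) q * e (-(θ : ℝ) * q) := by
    have f1 : ∑ q ∈ Icc 1 N, (c1 s θ * Real.log q + c0 s B θ) =
        ∑ q ∈ range (N + 1), Gm {θ} (c1 s) (c0 s B) q * e (-(θ : ℝ) * q) := by
      have f2 : ∑ q ∈ range (N + 1), Gm {θ} (c1 s) (c0 s B) q * e (-(θ : ℝ) * q) =
          ∑ q ∈ Icc 1 N, Gm {θ} (c1 s) (c0 s B) q * e (-(θ : ℝ) * q) := by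
        rw [range_eq_Ico, sum_eq_sum_Ico_succ_bot (by omega)]
        have g1 : Gm {θ} (c1 s) (c0 s B) 0 = 0 := by
          unfold Gm
          simp
        rw [g1, zero_mul, zero_add]
        refine sum_congr ?_ fun _ _ => rfl
        ext a
        rw [mem_Ico, mem_Icc]
        omega
      rw [f2]
      refine sum_congr rfl fun q hq => ?_
      rw [mem_Icc] at hq
      unfold Gm
      rw [if_neg (by omega), sum_singleton, mul_assoc, ← e_add]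
      have : (θ : ℝ) * q + -(θ : ℝ) * q = 0 := by ring
      rw [this, L2g.e_z, mul_one]
    rw [f1, ← sum_sub_distrib, ← sum_add_distrib]
    refine sum_congr rfl fun q _ => ?_
    have hs1 : ({θ} : Finset ℚ) ⊆ Fr W := singleton_subset_iff.2 hθF
    rw [Gm_split {θ} (Fr W) hs1]
    have : -((θ : ℝ) * q) = -(θ : ℝ) * q := by ring
    rw [this]
    ring
  rw [e1]
  refine (norm_add_le _ _).trans ?_
  have hWN4 : (W : ℝ) ^ 4 ≤ (N : ℝ) ^ (1 / 4 : ℝ) := by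
    calc (W : ℝ) ^ 4 = ((W : ℝ) ^ 16) ^ (1 / 4 : ℝ) := by
          rw [← Real.rpow_natCast, ← Real.rpow_natCast, ← Real.rpow_mul (by linarith)]
          norm_num
      _ ≤ _ := by
          refine Real.rpow_le_rpow (by positivity) ?_ (by norm_num)
          have : W ^ 16 ≤ W ^ 4096 := Nat.pow_le_pow_right hW (by norm_num)
          exact_mod_cast this.trans hWN
  have e2 : C2 * (W : ℝ) ^ 2 * (4 * (1 + Real.log N) / (1 / (W : ℝ) ^ 2)) ≤
      C2 * 4 * C4 * (N : ℝ) ^ (1 - 1 / 8192 : ℝ) := by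
    have g1 := h4 N hN
    rw [pow_one] at g1
    calc C2 * (W : ℝ) ^ 2 * (4 * (1 + Real.log N) / (1 / (W : ℝ) ^ 2)) =
          C2 * 4 * ((1 + Real.log N) * (W : ℝ) ^ 4) := by
          field_simp
      _ ≤ C2 * 4 * ((C4 * (N : ℝ) ^ (1 / 4 : ℝ)) * (N : ℝ) ^ (1 / 4 : ℝ)) := by
          refine mul_le_mul_of_nonneg_left ?_ (by linarith)
          exact mul_le_mul g1 hWN4 (by positivity) (by positivity)
      _ = C2 * 4 * C4 * (N : ℝ) ^ (1 / 2 : ℝ) := by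
          rw [mul_assoc C4, ← Real.rpow_add hN0]
          norm_num
          ring
      _ ≤ _ := by
          refine mul_le_mul_of_nonneg_left ?_ (by positivity)
          exact Real.rpow_le_rpow_of_exponent_le hNR (by norm_num)
  have e3 : (1 : ℝ) - 1 / (2 * (4096 : ℕ)) = 1 - 1 / 8192 := by norm_num
  rw [e3] at a1
  calc _ ≤ C1 * (N : ℝ) ^ (1 - 1 / 8192 : ℝ) + C2 * 4 * C4 * (N : ℝ) ^ (1 - 1 / 8192 : ℝ) :=
        add_le_add a1 (a2.trans e2)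
    _ = _ := by ring

end

end Pool.Agent.J4.H39.CM
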