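import Pool.Agent.J4.H39.CM.Zg
import Pool.Agent.J4.H39.CM.Zf
import Pool.Agent.J4.H39.CM.Zr
import Pool.Agent.J4.H39.CM.Zc
import Pool.Agent.J4.H39.CM.Zla

set_option autoImplicit false

/-!
Project CM (helper39), piece ZM: the local function at `2` as a function of the discriminant, and the
coefficients as limits of mean values.
-/

namespace Pool.Agent.J4.H39.CM

open Complex Finset Filter Topology
open Pool.Agent.N879.QM
open Pool.Agent.N879.QM.Avg (fam)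
open Pool.Agent.H306R2.RZ (js)

noncomputable section

/-- the local weight at `2` of the discriminant `D` -/
def W2 (D : ℤ) : ℝ :=
  if D % 8 = 1 then 1 / 4 * (1 - 1 / √2)⁻¹ else
    if D % 8 = 5 then 1 / 4 * (1 + 1 / √2)⁻¹ else
      if D % 16 = 8 ∨ D % 16 = 12 then 1 / 4 else 0

namespace Zm

lemma RR0 (s : ℤ) (c : ℕ) : c ∈ RR s 0 ↔ c < 8 ∧ c % 2 = 1 := by
  rw [ZLa.mem_RR]
  constructor
  · rintro ⟨h1, d, h2, h3⟩
    rw [ZLa.B0, Nat.odd_iff] at h2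
    exact ⟨h1, by omega⟩
  · rintro ⟨h1, h2⟩
    refine ⟨h1, c, ?_, by omega⟩
    rw [ZLa.B0, Nat.odd_iff]
    exact h2

lemma RR1 (s : ℤ) (hs : s = 1 ∨ s = -1) (c : ℕ) : c ∈ RR s 1 ↔ c < 8 ∧ (s * (c : ℤ)) % 4 = 3 := by
  rw [ZLa.mem_RR]
  constructor
  · rintro ⟨h1, d, h2, h3⟩
    rw [ZLa.B1] at h2
    refine ⟨h1, ?_⟩
    rcases hs with rfl | rfl <;> omega
  · rintro ⟨h1, h2⟩
    refine ⟨h1, c, ?_, by omega⟩
    rw [ZLa.B1]
    exact h2

lemma RR2 (s : ℤ) (hs : s = 1 ∨ s = -1) (c : ℕ) : c ∈ RR s 2 ↔ c < 8 ∧ (s * (c : ℤ)) % 8 = 1 := by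
  rw [ZLa.mem_RR]
  constructor
  · rintro ⟨h1, d, h2, h3⟩
    rw [ZLa.B2] at h2
    refine ⟨h1, ?_⟩
    have h4 := h2.1
    rcases hs with rfl | rfl <;> omega
  · rintro ⟨h1, h2⟩
    rcases hs with rfl | rfl
    · obtain rfl : c = 1 := by omega
      refine ⟨h1, 17, ?_, by norm_num⟩
      rw [ZLa.B2]
      refine ⟨by norm_num, ?_⟩
      have := ZLa.not_sq17
      simpa using this
    · obtain rfl : c = 7 := by omega
      refine ⟨h1, 7, ?_, by norm_num⟩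
      rw [ZLa.B2]
      exact ⟨by norm_num, ZLa.not_sq_neg (by norm_num)⟩

lemma RR3 (s : ℤ) (hs : s = 1 ∨ s = -1) (c : ℕ) : c ∈ RR s 3 ↔ c < 8 ∧ (s * (c : ℤ)) % 8 = 5 := by
  rw [ZLa.mem_RR]
  constructor
  · rintro ⟨h1, d, h2, h3⟩
    rw [ZLa.B3] at h2
    refine ⟨h1, ?_⟩
    have h4 := h2.1
    rcases hs with rfl | rfl <;> omega
  · rintro ⟨h1, h2⟩
    rcases hs with rfl | rfl
    · obtain rfl : c = 5 := by omega
      refine ⟨h1, 5, ?_, by norm_num⟩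
      rw [ZLa.B3]
      refine ⟨by norm_num, ?_⟩
      have := ZLa.not_sq5
      simpa using this
    · obtain rfl : c = 3 := by omega
      refine ⟨h1, 3, ?_, by norm_num⟩
      rw [ZLa.B3]
      exact ⟨by norm_num, ZLa.not_sq_neg (by norm_num)⟩

lemma LA0 : 2 * LA 0 = 1 / 4 := by
  unfold LA
  norm_num

lemma LA1 : 2 * LA 1 = 1 / 4 * (1 - 1 / √2)⁻¹ := by
  unfold LA
  ring

lemma LAm : 2 * LA (-1) = 1 / 4 * (1 + 1 / √2)⁻¹ := by
  unfold LA
  rw [show (1 : ℝ) - -1 / √2 = 1 + 1 / √2 by ring]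
  ring

lemma Ph_per (s : ℤ) (P n q : ℕ) : Ph s P (q + 64 * P ^ 2 * n) = Ph s P q := by
  unfold Ph
  have h1 : Function.Periodic (A2 s) 64 := fun q => A2_per s q
  have h2 : A2 s (q + 64 * P ^ 2 * n) = A2 s q := by
    have := h1.nat_mul (P ^ 2 * n) q
    rw [show 64 * P ^ 2 * n = P ^ 2 * n * 64 by ring]
    exact this
  rw [h2]
  congr 1
  refine Finset.prod_congr rfl fun p hp => ?_
  have h3 : Function.Periodic (Fp s p) (p ^ 2) :=
    fun q => Fp_per s p q (Nat.prime_of_mem_primeFactors hp)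
  obtain ⟨m, hm⟩ : p ^ 2 ∣ P ^ 2 := pow_dvd_pow_of_dvd (Nat.dvd_of_mem_primeFactors hp) 2
  have := h3.nat_mul (64 * m * n) q
  rw [hm, show 64 * (p ^ 2 * m) * n = 64 * m * n * p ^ 2 by ring]
  exact this

lemma Pz_odd (z : ℕ) : Odd (Pz z) := by
  unfold Pz
  refine Finset.prod_induction _ Odd (fun a b => Odd.mul) odd_one fun p hp => ?_
  rw [mem_filter, mem_Icc] at hp
  exact hp.2.odd_of_ne_two (by omega)

lemma Pz_sq (z : ℕ) : Squarefree (Pz z) := by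
  unfold Pz
  refine Finset.squarefree_prod_of_pairwise_isCoprime (fun p hp q hq hpq => ?_) fun p hp => ?_
  · have h1 := (mem_filter.1 (Finset.mem_coe.1 hp)).2
    have h2 := (mem_filter.1 (Finset.mem_coe.1 hq)).2
    exact (Nat.coprime_iff_isRelPrime.1 ((Nat.coprime_primes h1 h2).2 hpq))
  · exact (mem_filter.1 hp).2.prime.squarefree

end Zm

open Zm in
theorem A2_eq (s : ℤ) (hs : s = 1 ∨ s = -1) (q : ℕ) : A2 s q = W2 (s * q) := by
  classical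
  have c0 : ((fam s 0).r ∣ q ∧ (q / (fam s 0).r) % 8 ∈ RR s 0) ↔ (s * (q : ℤ)) % 16 = 8 := by
    rw [ZLa.r0, RR0]
    rcases hs with rfl | rfl <;> omega
  have c1 : ((fam s 1).r ∣ q ∧ (q / (fam s 1).r) % 8 ∈ RR s 1) ↔ (s * (q : ℤ)) % 16 = 12 := by
    rw [ZLa.r1, RR1 s hs]
    rcases hs with rfl | rfl <;> omega
  have c2 : ((fam s 2).r ∣ q ∧ (q / (fam s 2).r) % 8 ∈ RR s 2) ↔ (s * (q : ℤ)) % 8 = 1 := by
    rw [ZLa.r2, RR2 s hs, Nat.div_one]
    rcases hs with rfl | rfl <;> omega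
  have c3 : ((fam s 3).r ∣ q ∧ (q / (fam s 3).r) % 8 ∈ RR s 3) ↔ (s * (q : ℤ)) % 8 = 5 := by
    rw [ZLa.r3, RR3 s hs, Nat.div_one]
    rcases hs with rfl | rfl <;> omega
  have e2 : (fam s 2).η = 1 := by rw [ZLa.e2]; norm_num
  have e3 : (fam s 3).η = -1 := by rw [ZLa.e3]; norm_num
  unfold A2
  rw [Fin.sum_univ_four]
  simp only [c0, c1, c2, c3]
  rw [ZLa.e0, ZLa.e1, e2, e3, LA0, LA1, LAm]
  unfold W2
  by_cases h1 : (s * (q : ℤ)) % 8 = 1
  · rw [if_pos h1, if_pos h1, if_neg (by omega), if_neg (by omega), if_neg (by omega)]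
    ring
  · by_cases h5 : (s * (q : ℤ)) % 8 = 5
    · rw [if_neg h1, if_pos h5, if_neg h1, if_pos h5, if_neg (by omega), if_neg (by omega)]
      ring
    · rw [if_neg h1, if_neg h5, if_neg h1, if_neg h5]
      by_cases h8 : (s * (q : ℤ)) % 16 = 8
      · rw [if_pos h8, if_neg (by omega), if_pos (Or.inl h8)]
        ring
      · by_cases h12 : (s * (q : ℤ)) % 16 = 12
        · rw [if_neg h8, if_pos h12, if_pos (Or.inr h12)]
          ring
        · rw [if_neg h8, if_neg h12, if_neg (by omega)]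
          ring

open Zm in
theorem c1_mean (s : ℤ) (hs : s = 1 ∨ s = -1) (θ : ℚ) (h0 : 0 ≤ θ) (h1 : θ < 1) :
    Tendsto (fun z => ((64 * Pz z ^ 2 * θ.den : ℕ) : ℂ)⁻¹ *
      ∑ q ∈ range (64 * Pz z ^ 2 * θ.den), ((Ph s (Pz z) q : ℝ) : ℂ) * e (-((θ : ℝ) * q)))
      atTop (𝓝 (c1 s θ)) := by
  refine (cz_tendsto s hs θ).congr' ?_
  obtain ⟨p, hp1, hp⟩ := Nat.exists_infinite_primes (θ.den + 3)
  filter_upwards [eventually_ge_atTop p] with z hz
  obtain ⟨P, hPz⟩ : ∃ P, P = Pz z := ⟨_, rfl⟩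
  rw [← hPz]
  have hP : Odd P := hPz ▸ Pz_odd z
  have hsq : Squarefree P := hPz ▸ Pz_sq z
  have hP0 : 0 < P := hP.pos
  have hdvd : p ∣ P := hPz ▸ ZC.dvd_Pz (hp.odd_of_ne_two (by omega)) hp.prime.squarefree hz
  have hpP := Nat.le_of_dvd hP0 hdvd
  have hden : θ.den ≤ 64 * P ^ 3 := by
    have : P ≤ P ^ 3 := Nat.le_self_pow (by norm_num) P
    omega
  obtain ⟨K, hK⟩ : ∃ K, K = 64 * P ^ 2 * θ.den := ⟨_, rfl⟩
  rw [← hK]
  have hK1 : 1 ≤ K := by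
    rw [hK]
    exact Nat.mul_pos (by positivity) θ.den_pos
  have hper : ∀ q, Ph s P (q + K) = Ph s P q := fun q => by rw [hK]; exact Ph_per s P θ.den q
  have hKq : (K : ℚ) ≠ 0 := by exact_mod_cast (by omega : K ≠ 0)
  have hnum : ((θ.num.toNat : ℕ) : ℚ) = θ.num := by
    have : ((θ.num.toNat : ℕ) : ℤ) = θ.num := Int.toNat_of_nonneg (Rat.num_nonneg.2 h0)
    exact_mod_cast this
  have hdq : (θ.den : ℚ) ≠ 0 := by exact_mod_cast θ.den_pos.ne'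
  have hPq : (P : ℚ) ≠ 0 := by exact_mod_cast hP0.ne'
  have hθd : θ * θ.den = θ.num := Rat.mul_den_eq_num θ
  have hjθ : ((θ.num.toNat * (64 * P ^ 2) : ℕ) : ℚ) / K = θ := by
    rw [div_eq_iff hKq, hK]
    push_cast
    rw [hnum, ← hθd]
    ring
  have hjK : θ.num.toNat * (64 * P ^ 2) < K := by
    have : ((θ.num.toNat * (64 * P ^ 2) : ℕ) : ℚ) < K := by
      rw [div_eq_iff hKq] at hjθ
      rw [hjθ]
      have hKp : (0 : ℚ) < K := by exact_mod_cast (by omega : 0 < K)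
      nlinarith
    exact_mod_cast this
  have h2 := Zg.four_coef (D := 64 * P ^ 3) hK1 hper (fun q => ph_fourier s hs P q hP hsq)
    (θ.num.toNat * (64 * P ^ 2)) hjK
  have hjr : ((θ.num.toNat * (64 * P ^ 2) : ℕ) : ℝ) / (K : ℝ) = (θ : ℝ) := by
    have := congrArg (fun r : ℚ => (r : ℝ)) hjθ
    simpa using this
  have h3 : Zg.gc (64 * P ^ 3) K (cz s P) (θ.num.toNat * (64 * P ^ 2)) = cz s P θ := by
    unfold Zg.gc
    rw [hjθ, if_pos (Four.mem_Fr.2 ⟨h0, h1, hden⟩)]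
  rw [hjr, h3] at h2
  have hKc : (K : ℂ) ≠ 0 := by exact_mod_cast (by omega : K ≠ 0)
  have h4 : ∑ q ∈ range K, ((Ph s P q : ℝ) : ℂ) * e (-((θ : ℝ) * q)) = K * cz s P θ := by
    rw [← h2]
    refine Finset.sum_congr rfl fun q _ => ?_
    rw [neg_mul]
  rw [h4, ← mul_assoc, inv_mul_cancel₀ hKc, one_mul]

end

end Pool.Agent.J4.H39.CM
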